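import Pool.Agent.Lib.MP_e310f3_mp.Gap.Tools

open Complex Filter Topology Set

noncomputable section

namespace Pool.Agent.Lib.MP_e310f3_mp.Gap

private lemma sq_near {x v e K s : ℝ} (h : |x - v| ≤ e * s) (hv : |v| ≤ K * s) (he : e ≤ 1)
    (hs : 0 ≤ s) : |x ^ 2 - v ^ 2| ≤ e * (2 * K + 1) * s ^ 2 := by
  have h1 : |x + v| ≤ (2 * K + 1) * s := by
    have h2 : x + v = (x - v) + 2 * v := by ring
    have h3 := abs_add_le (x - v) (2 * v)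
    rw [abs_mul, abs_two] at h3
    rw [h2]; nlinarith
  have h4 : x ^ 2 - v ^ 2 = (x - v) * (x + v) := by ring
  rw [h4, abs_mul]
  calc |x - v| * |x + v| ≤ (e * s) * ((2 * K + 1) * s) :=
        mul_le_mul h h1 (abs_nonneg _) ((abs_nonneg _).trans h)
    _ = _ := by ring

private lemma sq_sub_le {x y : ℝ} (h : 0 ≤ x * y) : (x - y) ^ 2 ≤ |x ^ 2 - y ^ 2| := by
  rw [le_abs]
  rcases le_total (y ^ 2) (x * y) with h1 | h1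
  · left; nlinarith
  · rcases le_total (x ^ 2) (x * y) with h2 | h2
    · right; nlinarith
    · rcases le_total (x ^ 2) (y ^ 2) with h3 | h3
      · right; nlinarith [sq_nonneg (x - y), mul_nonneg h (sq_nonneg (x - y))]
      · left; nlinarith [sq_nonneg (x - y), mul_nonneg h (sq_nonneg (x - y))]

private lemma abs_mul_le {c x K s : ℝ} (hx : |x| ≤ s) (hc : |c| ≤ K) : |c * x| ≤ K * s := by
  rw [abs_mul]; exact mul_le_mul hc hx (abs_nonneg _) ((abs_nonneg _).trans hc)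

private lemma coord_le {ξ η s : ℝ} (hs : 0 ≤ s) (h : s ^ 2 = 1 + (ξ ^ 2 + η ^ 2)) :
    |ξ| ≤ s ∧ |η| ≤ s :=
  ⟨abs_le_of_sq_le_sq' (by nlinarith [sq_nonneg η]) hs |> abs_le.2,
    abs_le_of_sq_le_sq' (by nlinarith [sq_nonneg ξ]) hs |> abs_le.2⟩

private lemma se_real {ξ η s a1 b1 a2 b2 a3 b3 a4 b4 : ℝ} (hs : 0 ≤ s)
    (h : s ^ 2 = 1 + (ξ ^ 2 + η ^ 2))
    (l1 : |b1 - 2 / 5 * η| ≤ 1 / 1000 * s) (l2 : |a2 - 14 / 5 * ξ| ≤ 1 / 1000 * s)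
    (l3 : |a3 - -2 * ξ| ≤ 1 / 1000 * s) (l4 : |a4 - -2 * ξ| ≤ 1 / 1000 * s)
    (q1 : |a1 ^ 2 + b1 ^ 2 - (8 + 4 / 25 * (ξ ^ 2 + η ^ 2))| ≤ 1 / 1000 * s ^ 2)
    (q2 : |a2 ^ 2 + b2 ^ 2 - (8 + 196 / 25 * (ξ ^ 2 + η ^ 2))| ≤ 1 / 1000 * s ^ 2)
    (q3 : |a3 ^ 2 + b3 ^ 2 - (8 + 4 * (ξ ^ 2 + η ^ 2))| ≤ 1 / 1000 * s ^ 2)
    (q4 : |a4 ^ 2 + b4 ^ 2 - (8 + 4 * (ξ ^ 2 + η ^ 2))| ≤ 1 / 1000 * s ^ 2)
    (ma : |a3 + a4 - (a1 + a2)| ≤ 1 / 1000 * s) (mb : |b3 + b4 - (b1 + b2)| ≤ 1 / 1000 * s) :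
    False := by
  obtain ⟨hξ, hη⟩ := coord_le hs h
  have l0 : |a1 - -(34 / 5) * ξ| ≤ 4 / 1000 * s := by
    rw [abs_le] at l2 l3 l4 ma ⊢
    constructor <;> linarith [l2.1, l2.2, l3.1, l3.2, l4.1, l4.2, ma.1, ma.2]
  have n0 := abs_le.1 (sq_near l0 (abs_mul_le (K := 7) hξ (by norm_num [abs_le])) (by norm_num) hs)
  have n1 := abs_le.1 (sq_near l1 (abs_mul_le (K := 1) hη (by norm_num [abs_le])) (by norm_num) hs)
  have n2 := abs_le.1 (sq_near l2 (abs_mul_le (K := 3) hξ (by norm_num [abs_le])) (by norm_num) hs)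
  have n3 := abs_le.1 (sq_near l3 (abs_mul_le (K := 2) hξ (by norm_num [abs_le])) (by norm_num) hs)
  have n4 := abs_le.1 (sq_near l4 (abs_mul_le (K := 2) hξ (by norm_num [abs_le])) (by norm_num) hs)
  have mb2 : (b3 + b4 - (b1 + b2)) ^ 2 ≤ (1 / 1000 * s) ^ 2 := sq_le_sq' (abs_le.1 mb).1 (abs_le.1 mb).2
  rw [abs_le] at q1 q2 q3 q4
  obtain ⟨E, hE⟩ : ∃ E, E = b3 + b4 - (b1 + b2) := ⟨_, rfl⟩
  rw [← hE] at mb2
  have p1 := sq_nonneg ξ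
  have p2 := sq_nonneg η
  have d : |b3 ^ 2 - b4 ^ 2| ≤ 12 / 1000 * s ^ 2 := by
    rw [abs_le]; constructor <;> linarith [q3.1, q3.2, q4.1, q4.2, n3.1, n3.2, n4.1, n4.2]
  rcases le_total 0 (b3 * b4) with c | c
  · have e1 := (sq_sub_le c).trans d
    have e2 : (b3 + b4) ^ 2 ≤ 3 / 2 * b2 ^ 2 + 6 * b1 ^ 2 + 6 * E ^ 2 := by
      have e3 : b3 + b4 = b2 + b1 + E := by rw [hE]; ring
      rw [e3]; linarith [sq_nonneg (b2 - 2 * (b1 + E)), sq_nonneg (b1 - E)]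
    linarith [q1.2, q2.2, q3.1, q4.1, n0.1, n1.1, n1.2, n2.1, n3.2, n4.2]
  · have e1 := sq_sub_le (x := b3) (y := -b4) (by linarith)
    rw [neg_sq, sub_neg_eq_add] at e1
    have e2 : b2 ^ 2 ≤ 3 * ((b3 + b4) ^ 2 + b1 ^ 2 + E ^ 2) := by
      have e3 : b2 = (b3 + b4) - b1 - E := by rw [hE]; ring
      rw [e3]
      linarith [sq_nonneg (b3 + b4 + b1), sq_nonneg (b3 + b4 + E), sq_nonneg (b1 - E)]
    linarith [q1.2, q2.1, n0.1, n1.1, n1.2, n2.2]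

private lemma fs_real {ξ η s a1 b1 a2 b2 : ℝ} (hs : 0 ≤ s) (h : s ^ 2 = 1 + (ξ ^ 2 + η ^ 2))
    (l1 : |b1 - 2 / 5 * η| ≤ 1 / 1000 * s) (l2 : |a2 - 14 / 5 * ξ| ≤ 1 / 1000 * s)
    (q1 : |a1 ^ 2 + b1 ^ 2 - (8 + 4 / 25 * (ξ ^ 2 + η ^ 2))| ≤ 1 / 1000 * s ^ 2)
    (q2 : |a2 ^ 2 + b2 ^ 2 - (8 + 196 / 25 * (ξ ^ 2 + η ^ 2))| ≤ 1 / 1000 * s ^ 2)
    (ma : |a1 - a2| ≤ 1 / 1000 * s) (mb : |b1 - b2| ≤ 1 / 1000 * s) : False := by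
  obtain ⟨hξ, hη⟩ := coord_le hs h
  have l3 : |a1 - 14 / 5 * ξ| ≤ 2 / 1000 * s := by
    rw [abs_le] at l2 ma ⊢
    constructor <;> linarith [l2.1, l2.2, ma.1, ma.2]
  have l4 : |b2 - 2 / 5 * η| ≤ 2 / 1000 * s := by
    rw [abs_le] at l1 mb ⊢
    constructor <;> linarith [l1.1, l1.2, mb.1, mb.2]
  have n1 := abs_le.1 (sq_near l1 (abs_mul_le (K := 1) hη (by norm_num [abs_le])) (by norm_num) hs)
  have n2 := abs_le.1 (sq_near l2 (abs_mul_le (K := 3) hξ (by norm_num [abs_le])) (by norm_num) hs)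
  have n3 := abs_le.1 (sq_near l3 (abs_mul_le (K := 3) hξ (by norm_num [abs_le])) (by norm_num) hs)
  have n4 := abs_le.1 (sq_near l4 (abs_mul_le (K := 1) hη (by norm_num [abs_le])) (by norm_num) hs)
  rw [abs_le] at q1 q2
  linarith [q1.1, q1.2, q2.1, q2.2, n1.1, n1.2, n2.1, n2.2, n3.1, n3.2, n4.1, n4.2, sq_nonneg ξ,
    sq_nonneg η]

/-- one body in the Levi-Civita chart of a nearby point -/
private lemma one_body {g ω : ℝ} {z y p ν n : ℂ} (hg : 1 ≤ g) (hg' : g ≤ 1 + 1 / 100000)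
    (hz : z ≠ 0) (hy : ‖y - z ^ 2‖ ≤ 1 / 100000 * ‖z ^ 2‖) (hn : n ^ 2 = ν) (hn1 : ‖n‖ = 1)
    (hω : 1 / 5 ≤ ω) (hω' : ω ≤ 7 / 5) (h : OC g (1 / 100000) y p ν (ω ^ 2 / 2)) :
    |cross n (2 * (starRingEnd ℂ) z * p + ((2 * ω : ℝ) : ℂ) * z)| ≤ 1 / 1000 * √(1 + ‖z‖ ^ 2) ∧
    |‖2 * (starRingEnd ℂ) z * p‖ ^ 2 - (8 + 4 * ω ^ 2 * ‖z‖ ^ 2)|
      ≤ 1 / 1000 * √(1 + ‖z‖ ^ 2) ^ 2 := by
  have z0 : 0 < ‖z‖ := norm_pos_iff.2 hz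
  rw [norm_pow] at hy
  obtain ⟨w, hw, hwz⟩ := exists_sqrt_near hy
  obtain ⟨s, hs⟩ : ∃ s, s = √(1 + ‖z‖ ^ 2) := ⟨_, rfl⟩
  have s0 : 0 ≤ s := hs ▸ Real.sqrt_nonneg _
  have s2 : s ^ 2 = 1 + ‖z‖ ^ 2 := by rw [hs, Real.sq_sqrt (by positivity)]
  have s1 : 1 ≤ s := by nlinarith
  have zs : ‖z‖ ≤ s := by nlinarith
  rw [← hs]
  have r1 := abs_le.1 ((abs_norm_sub_norm_le y (z ^ 2)).trans hy)
  rw [norm_pow] at r1
  have y0 : 0 < ‖y‖ := by nlinarith [r1.1]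
  obtain ⟨h1, h2⟩ := h
  have e1 : ‖2 * (starRingEnd ℂ) z * p‖ = 2 * ‖z‖ * ‖p‖ := by simp
  have h3 := abs_le.1 h1
  have q : |‖2 * (starRingEnd ℂ) z * p‖ ^ 2 - (8 + 4 * ω ^ 2 * ‖z‖ ^ 2)| ≤ 1 / 1000 * s ^ 2 := by
    obtain ⟨u, hu⟩ : ∃ u, u = g * ‖z‖ ^ 2 / ‖y‖ := ⟨_, rfl⟩
    have u1 : u ≤ 1 + 3 / 100000 := by
      rw [hu, div_le_iff₀ y0]; nlinarith [r1.1, r1.2]
    have u2 : 1 - 3 / 100000 ≤ u := by
      rw [hu, le_div_iff₀ y0]; nlinarith [r1.1, r1.2]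
    have e2 : (2 * ‖z‖ * ‖p‖) ^ 2 = 8 * (hh g y p * ‖z‖ ^ 2) + 8 * u := by
      rw [mul_pow, normSq_p g y p, hu]; ring
    rw [e1, e2, s2, abs_le]
    constructor <;> linarith [mul_le_mul_of_nonneg_right h3.1 (sq_nonneg ‖z‖),
      mul_le_mul_of_nonneg_right h3.2 (sq_nonneg ‖z‖), sq_nonneg ‖z‖]
  refine ⟨?_, q⟩
  have zp : 2 * ‖z‖ * ‖p‖ ≤ 3 * s := by
    rw [e1] at q
    refine (abs_le_of_sq_le_sq' ?_ (by positivity)).2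
    have ω2 : ω ^ 2 ≤ 2 := by nlinarith
    linarith [(abs_le.1 q).2, mul_le_mul_of_nonneg_right ω2 (sq_nonneg ‖z‖), sq_nonneg ‖z‖]
  rw [dev_eq g (norm_pos_iff.1 y0) hw hn hn1] at h2
  obtain ⟨Ω, hΩ⟩ : ∃ Ω, Ω = √(2 * hh g y p) := ⟨_, rfl⟩
  have Ω0 : 0 ≤ Ω := hΩ ▸ Real.sqrt_nonneg _
  have Ω2 : Ω ^ 2 = 2 * hh g y p := by rw [hΩ, Real.sq_sqrt (by nlinarith [h3.1])]
  have Ω1 : |ω - Ω| ≤ 1 / 10000 := by
    rw [abs_le]; constructor <;> nlinarith [h3.1, h3.2]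
  rw [← hΩ, ← hw, norm_pow, Real.sqrt_sq (norm_nonneg _)] at h2
  have ws : ‖w‖ ≤ 2 * s := by
    have := norm_sub_norm_le w z
    linarith
  obtain ⟨D, hD⟩ : ∃ D, D = -(2 * (starRingEnd ℂ) (w - z) * p) + ((2 * (ω - Ω) : ℝ) : ℂ) * w
      - ((2 * ω : ℝ) : ℂ) * (w - z) := ⟨_, rfl⟩
  have e3 : cross n (2 * (starRingEnd ℂ) z * p + ((2 * ω : ℝ) : ℂ) * z) =
      cross n (2 * (starRingEnd ℂ) w * p + ((2 * Ω : ℝ) : ℂ) * w) + cross n D := by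
    have e4 : 2 * (starRingEnd ℂ) z * p + ((2 * ω : ℝ) : ℂ) * z =
        (2 * (starRingEnd ℂ) w * p + ((2 * Ω : ℝ) : ℂ) * w) + D := by
      rw [hD, map_sub]; push_cast; ring
    rw [e4]; simp only [cross, add_re, add_im]; ring
  have d1 : ‖D‖ ≤ 2 * ‖w - z‖ * ‖p‖ + 2 * |ω - Ω| * ‖w‖ + 2 * ω * ‖w - z‖ := by
    rw [hD]
    refine (norm_sub_le _ _).trans (add_le_add ((norm_add_le _ _).trans (add_le_add ?_ ?_)) ?_)
    · rw [norm_neg, norm_mul, norm_mul, Complex.norm_conj]; simp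
    · rw [norm_mul, Complex.norm_real, Real.norm_eq_abs, abs_mul, abs_two]
    · rw [norm_mul, Complex.norm_real, Real.norm_eq_abs, abs_of_nonneg (by linarith)]
  have d2 := abs_cross_le n D
  rw [hn1, one_mul] at d2
  have d3 := mul_le_mul_of_nonneg_right hwz (norm_nonneg p)
  have d4 := mul_le_mul Ω1 ws (norm_nonneg _) (by norm_num)
  have d5 := mul_le_mul hω' hwz (norm_nonneg _) (by norm_num)
  rw [e3]
  refine (abs_add_le _ _).trans ?_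
  linarith

private lemma norm_lc {c : ℝ} {z q : ℂ} (hz : z ≠ 0) (h : ‖q‖ ≤ c * aa ‖z ^ 2‖) :
    ‖2 * (starRingEnd ℂ) z * q‖ ≤ 2 * c * √(1 + ‖z‖ ^ 2) := by
  have z0 : 0 < ‖z‖ := norm_pos_iff.2 hz
  have e : √(1 + ‖z‖ ^ 2) = ‖z‖ * aa ‖z ^ 2‖ := by
    have a0 : 0 ≤ aa ‖z ^ 2‖ := Real.sqrt_nonneg _
    rw [Real.sqrt_eq_iff_mul_self_eq (by positivity) (by positivity), ← sq, mul_pow,
      aa_sq (norm_pos_iff.2 (pow_ne_zero 2 hz)), norm_pow]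
    field_simp
    ring
  have e1 : ‖2 * (starRingEnd ℂ) z * q‖ = 2 * ‖z‖ * ‖q‖ := by simp
  rw [e, e1]
  nlinarith [mul_le_mul_of_nonneg_left h z0.le]

private lemma nsq (w : ℂ) : ‖w‖ ^ 2 = w.re ^ 2 + w.im ^ 2 := by
  rw [Complex.sq_norm, normSq_apply]; ring

private lemma cross_one (ζ z : ℂ) (c : ℝ) : cross 1 (ζ + (c : ℂ) * z) = ζ.im - -c * z.im := by
  simp [cross]

private lemma cross_I (ζ z : ℂ) (c : ℝ) : cross I (ζ + (c : ℂ) * z) = -(ζ.re - -c * z.re) := by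
  simp [cross]

/-- a single encounter cannot join the incoming to the outgoing data -/
theorem se : ∃ θ > 0, ∀ (g : ℝ) (y1 y2 y3 y4 p1 p2 p3 p4 : ℂ), 1 ≤ g → g ≤ 1 + θ → y1 ≠ 0 →
    ‖y2 - y1‖ ≤ θ * ‖y1‖ → ‖y3 - y1‖ ≤ θ * ‖y1‖ → ‖y4 - y1‖ ≤ θ * ‖y1‖ →
    ‖(p3 + p4) - (p1 + p2)‖ ≤ θ * aa ‖y1‖ →
    OC g θ y1 (-p1) 1 (1 / 50) → OC g θ y2 (-p2) (-1) (49 / 50) →
    OC g θ y3 p3 (-1) (1 / 2) → OC g θ y4 p4 (-1) (1 / 2) → False := by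
  refine ⟨1 / 100000, by norm_num, ?_⟩
  intro g y1 y2 y3 y4 p1 p2 p3 p4 hg hg' h0 h2 h3 h4 hp o1 o2 o3 o4
  obtain ⟨z, rfl⟩ := exists_sqrt y1
  have hz : z ≠ 0 := fun e => h0 (by simp [e])
  obtain ⟨l1, q1⟩ := one_body (ω := 1 / 5) (y := z ^ 2) (p := -p1) hg hg' hz (by simp)
    (one_pow 2) (by simp) (by norm_num) (by norm_num) (by convert o1 using 1; norm_num)
  obtain ⟨l2, q2⟩ := one_body (ω := 7 / 5) (n := I) hg hg' hz h2 I_sq (by simp)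
    (by norm_num) (by norm_num) (by convert o2 using 1; norm_num)
  obtain ⟨l3, q3⟩ := one_body (ω := 1) (n := I) hg hg' hz h3 I_sq (by simp)
    (by norm_num) (by norm_num) (by convert o3 using 1; norm_num)
  obtain ⟨l4, q4⟩ := one_body (ω := 1) (n := I) hg hg' hz h4 I_sq (by simp)
    (by norm_num) (by norm_num) (by convert o4 using 1; norm_num)
  have m := norm_lc hz hp
  have s0 := Real.sqrt_nonneg (1 + ‖z‖ ^ 2)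
  have s2 : √(1 + ‖z‖ ^ 2) ^ 2 = 1 + (z.re ^ 2 + z.im ^ 2) := by
    rw [Real.sq_sqrt (by positivity), nsq]
  generalize √(1 + ‖z‖ ^ 2) = s at *
  have e : 2 * (starRingEnd ℂ) z * (p3 + p4 - (p1 + p2)) = 2 * (starRingEnd ℂ) z * p3
      + 2 * (starRingEnd ℂ) z * p4 - (2 * (starRingEnd ℂ) z * p1 + 2 * (starRingEnd ℂ) z * p2) := by
    ring
  rw [e] at m
  rw [mul_neg] at l1 l2 q1 q2
  generalize 2 * (starRingEnd ℂ) z * p1 = ζ1 at *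
  generalize 2 * (starRingEnd ℂ) z * p2 = ζ2 at *
  generalize 2 * (starRingEnd ℂ) z * p3 = ζ3 at *
  generalize 2 * (starRingEnd ℂ) z * p4 = ζ4 at *
  rw [cross_one, ← abs_neg] at l1
  rw [cross_I] at l2
  rw [cross_I, abs_neg] at l3 l4
  rw [norm_neg] at q1 q2
  rw [nsq, nsq] at q1 q2 q3 q4
  have ma := (abs_re_le_norm _).trans m
  have mb := (abs_im_le_norm _).trans m
  simp only [sub_re, add_re, sub_im, add_im, neg_re, neg_im] at ma mb l1 l2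
  refine se_real (a1 := ζ1.re) (b1 := ζ1.im) (a2 := ζ2.re) (b2 := ζ2.im) (a3 := ζ3.re)
    (b3 := ζ3.im) (a4 := ζ4.re) (b4 := ζ4.im) s0 s2 ?_ ?_ ?_ ?_ ?_ ?_ ?_ ?_ (by linarith)
    (by linarith)
  · convert l1 using 2; ring
  · convert l2 using 2; ring
  · convert l3 using 2; ring
  · convert l4 using 2; ring
  · convert q1 using 2; ring
  · convert q2 using 2; ring
  · convert q3 using 2; ring
  · convert q4 using 2; ring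

/-- the first encounter is fast -/
theorem fs : ∃ θ > 0, ∃ η > 0, ∀ (g : ℝ) (y1 y2 p1 p2 : ℂ), 1 ≤ g → g ≤ 1 + θ → y1 ≠ 0 →
    ‖y2 - y1‖ ≤ θ * ‖y1‖ → OC g θ y1 (-p1) 1 (1 / 50) → OC g θ y2 (-p2) (-1) (49 / 50) →
    η * aa ‖y1‖ ≤ ‖p1 - p2‖ := by
  refine ⟨1 / 100000, by norm_num, 1 / 2000, by norm_num, ?_⟩
  intro g y1 y2 p1 p2 hg hg' h0 h2 o1 o2
  by_contra hp
  obtain ⟨z, rfl⟩ := exists_sqrt y1
  have hz : z ≠ 0 := fun e => h0 (by simp [e])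
  obtain ⟨l1, q1⟩ := one_body (ω := 1 / 5) (y := z ^ 2) (p := -p1) hg hg' hz (by simp)
    (one_pow 2) (by simp) (by norm_num) (by norm_num) (by convert o1 using 1; norm_num)
  obtain ⟨l2, q2⟩ := one_body (ω := 7 / 5) (n := I) hg hg' hz h2 I_sq (by simp)
    (by norm_num) (by norm_num) (by convert o2 using 1; norm_num)
  have m := norm_lc hz (not_le.1 hp).le
  have s0 := Real.sqrt_nonneg (1 + ‖z‖ ^ 2)
  have s2 : √(1 + ‖z‖ ^ 2) ^ 2 = 1 + (z.re ^ 2 + z.im ^ 2) := by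
    rw [Real.sq_sqrt (by positivity), nsq]
  generalize √(1 + ‖z‖ ^ 2) = s at *
  rw [mul_sub] at m
  rw [mul_neg] at l1 l2 q1 q2
  generalize 2 * (starRingEnd ℂ) z * p1 = ζ1 at *
  generalize 2 * (starRingEnd ℂ) z * p2 = ζ2 at *
  rw [cross_one, ← abs_neg] at l1
  rw [cross_I] at l2
  rw [norm_neg] at q1 q2
  rw [nsq, nsq] at q1 q2
  have ma := (abs_re_le_norm _).trans m
  have mb := (abs_im_le_norm _).trans m
  simp only [sub_re, sub_im, neg_re, neg_im] at ma mb l1 l2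
  refine fs_real (a1 := ζ1.re) (b1 := ζ1.im) (a2 := ζ2.re) (b2 := ζ2.im) s0 s2 ?_ ?_ ?_ ?_
    (by linarith) (by linarith)
  · convert l1 using 2; ring
  · convert l2 using 2; ring
  · convert q1 using 2; ring
  · convert q2 using 2; ring

end Pool.Agent.Lib.MP_e310f3_mp.Gap
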