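import Pool.Agent.Lib.MP_e310f3_mp.Gap.Tools

open Complex Filter Topology Set

noncomputable section

namespace Pool.Agent.Lib.MP_e310f3_mp.Gap

namespace Alg2

/-- The vector whose direction is tested by dev. -/
def Gv (g : ℝ) (y p z : ℂ) : ℂ :=
  2 * (starRingEnd ℂ) z * p + ((2 * √(2 * hh g y p) : ℝ) : ℂ) * z

lemma dev_G (g : ℝ) {y p ν z n : ℂ} (hy : y ≠ 0) (hz : z ^ 2 = y) (hn : n ^ 2 = ν)
    (hn1 : ‖n‖ = 1) : dev g y p ν = |cross n (Gv g y p z)| := dev_eq g hy hz hn hn1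

lemma dev_re (g : ℝ) {y p z : ℂ} (hy : y ≠ 0) (hz : z ^ 2 = y) :
    dev g y p (-1) = |(Gv g y p z).re| := by
  rw [dev_G g hy hz I_sq norm_I]
  simp [cross]

lemma norm_z {y z : ℂ} (hz : z ^ 2 = y) : ‖z‖ ^ 2 = ‖y‖ := by rw [← hz, norm_pow]

lemma sqrt_y {y z : ℂ} (hz : z ^ 2 = y) : √‖y‖ = ‖z‖ := by
  rw [← norm_z hz, Real.sqrt_sq (norm_nonneg _)]

lemma norm_one {n ν : ℂ} (hn : n ^ 2 = ν) (h : ‖ν‖ = 1) : ‖n‖ = 1 := by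
  have h1 := norm_z hn
  rw [h] at h1
  exact (sq_eq_sq₀ (norm_nonneg _) zero_le_one).1 (by rw [h1, one_pow])

lemma sqrt_lip {u v : ℝ} (hu : 1 / 4 ≤ u) : |√v - √u| ≤ 2 * |v - u| := by
  have h1 : 1 / 2 ≤ √u := Real.le_sqrt_of_sq_le (by linarith)
  have h2 : √u ^ 2 = u := Real.sq_sqrt (by linarith)
  rcases le_total v 0 with hv | hv
  · rw [Real.sqrt_eq_zero_of_nonpos hv, zero_sub, abs_neg, abs_of_nonneg (Real.sqrt_nonneg _),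
      abs_of_nonpos (by linarith)]
    nlinarith
  · have h3 : √v ^ 2 = v := Real.sq_sqrt hv
    have h4 := Real.sqrt_nonneg v
    have h5 : v - u = (√v - √u) * (√v + √u) := by nlinarith
    rw [h5, abs_mul, abs_of_nonneg (show 0 ≤ √v + √u by linarith)]
    nlinarith [abs_nonneg (√v - √u)]

lemma om_one {h θ : ℝ} (k : |h - 1 / 2| ≤ θ) : |√(2 * h) - 1| ≤ 4 * θ := by
  have h1 := sqrt_lip (u := 1) (v := 2 * h) (by norm_num)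
  rw [Real.sqrt_one, show 2 * h - 1 = 2 * (h - 1 / 2) by ring, abs_mul, abs_two] at h1
  linarith

lemma near_lo {y3 y4 : ℂ} {θ : ℝ} (h : ‖y4 - y3‖ ≤ θ * ‖y3‖) :
    (1 - θ) * ‖y3‖ ≤ ‖y4‖ ∧ ‖y4‖ ≤ (1 + θ) * ‖y3‖ := by
  have h1 := abs_le.1 ((abs_norm_sub_norm_le y4 y3).trans h)
  constructor <;> linarith [h1.1, h1.2]

lemma inv_near {R r θ : ℝ} (hR : 0 < R) (h0 : 0 ≤ θ) (hθ : θ ≤ 1 / 4) (h1 : (1 - θ) * R ≤ r)
    (h2 : r ≤ (1 + θ) * R) : |1 / r - 1 / R| ≤ 2 * θ * (1 / R) := by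
  have hr : 0 < r := by nlinarith
  have e : 1 / r - 1 / R = (R - r) / r * (1 / R) := by field_simp
  rw [e, abs_mul, abs_of_pos (one_div_pos.2 hR)]
  refine mul_le_mul_of_nonneg_right ?_ (one_div_pos.2 hR).le
  rw [abs_div, abs_of_pos hr, div_le_iff₀ hr, abs_le]
  constructor <;> nlinarith [mul_nonneg h0 hR.le]

lemma p_le {g θ : ℝ} {y3 y4 p : ℂ} (hg0 : 0 ≤ g) (hg : g ≤ 2) (h0 : 0 ≤ θ) (hθ : θ ≤ 1 / 4)
    (hy : y3 ≠ 0) (h : ‖y4 - y3‖ ≤ θ * ‖y3‖) (k : |hh g y4 p - 1 / 2| ≤ θ) :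
    ‖p‖ ≤ 3 * aa ‖y3‖ := by
  have hR := norm_pos_iff.2 hy
  have h1 := abs_le.1 (inv_near hR h0 hθ (near_lo h).1 (near_lo h).2)
  have h2 := normSq_p g y4 p
  have h3 := aa_sq hR
  have h4 := one_le_aa hR
  have h5 := (abs_le.1 k).2
  have h6 := (one_div_pos.2 hR).le
  have h7 : 1 / ‖y4‖ ≤ 2 * (1 / ‖y3‖) := by nlinarith [h1.2]
  have h8 : 2 * g / ‖y4‖ ≤ 8 * (1 / ‖y3‖) := by
    rw [div_eq_mul_one_div]
    have h9 : 0 ≤ 1 / ‖y4‖ := by positivity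
    nlinarith
  refine le_of_sq_le_sq (by nlinarith) (by linarith)

lemma sa_sq {y z : ℂ} (hy : y ≠ 0) (hz : z ^ 2 = y) : (‖z‖ * aa ‖y‖) ^ 2 = 1 + ‖z‖ ^ 2 := by
  have hR := norm_pos_iff.2 hy
  rw [mul_pow, aa_sq hR, norm_z hz]
  field_simp
  ring

lemma sa_le {y z : ℂ} (hy : y ≠ 0) (hz : z ^ 2 = y) : ‖z‖ * aa ‖y‖ ≤ 1 + ‖z‖ := by
  have h1 := sa_sq hy hz
  have h2 := norm_nonneg z
  exact le_of_sq_le_sq (by nlinarith) (by linarith)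

lemma G_lip (g : ℝ) (y p z y' p' z' : ℂ) : ‖Gv g y p z - Gv g y' p' z'‖ ≤
    2 * (‖z - z'‖ * ‖p‖) + 2 * (‖z'‖ * ‖p - p'‖) +
      2 * (|√(2 * hh g y p) - √(2 * hh g y' p')| * ‖z‖) + 2 * (√(2 * hh g y' p') * ‖z - z'‖) := by
  have e : Gv g y p z - Gv g y' p' z' = 2 * ((starRingEnd ℂ) (z - z') * p) +
      2 * ((starRingEnd ℂ) z' * (p - p')) +
      2 * (((√(2 * hh g y p) - √(2 * hh g y' p') : ℝ) : ℂ) * z) +
      2 * (((√(2 * hh g y' p') : ℝ) : ℂ) * (z - z')) := by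
    simp only [Gv, map_sub]
    push_cast
    ring
  rw [e]
  refine (norm_add_le _ _).trans (add_le_add ((norm_add_le _ _).trans (add_le_add
    ((norm_add_le _ _).trans (add_le_add ?_ ?_)) ?_)) ?_) <;>
    simp only [norm_mul, Complex.norm_ofNat, Complex.norm_conj, Complex.norm_real,
      Real.norm_eq_abs, abs_of_nonneg (Real.sqrt_nonneg _), le_refl]

lemma G_sq (g : ℝ) {y p z : ℂ} (hy : y ≠ 0) (hz : z ^ 2 = y) (hh0 : 0 ≤ hh g y p) :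
    ‖Gv g y p z‖ ^ 2 = 8 * g + 16 * hh g y p * ‖z‖ ^ 2 + 8 * √(2 * hh g y p) * dot y p := by
  have hR := norm_pos_iff.2 hy
  have h1 : ‖2 * (starRingEnd ℂ) z * p‖ ^ 2 = 8 * g + 8 * hh g y p * ‖z‖ ^ 2 := by
    simp only [norm_mul, Complex.norm_ofNat, Complex.norm_conj, mul_pow]
    rw [normSq_p g y p, norm_z hz]
    field_simp
    ring
  have h2 : ‖((2 * √(2 * hh g y p) : ℝ) : ℂ) * z‖ ^ 2 = 8 * hh g y p * ‖z‖ ^ 2 := by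
    rw [norm_mul, Complex.norm_real, mul_pow, Real.norm_eq_abs, sq_abs, mul_pow,
      Real.sq_sqrt (by linarith)]
    ring
  have h3 : dot (2 * (starRingEnd ℂ) z * p) (((2 * √(2 * hh g y p) : ℝ) : ℂ) * z) =
      4 * √(2 * hh g y p) * dot y p := by
    generalize √(2 * hh g y p) = o
    rw [← hz]
    simp [dot, sq]
    ring
  rw [Gv, norm_add_sq', h1, h2, h3]
  ring

lemma cross_sub (n a b : ℂ) : cross n a - cross n b = cross n (a - b) := by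
  simp [cross]
  ring

lemma cross_le {n : ℂ} (hn : ‖n‖ = 1) (a b : ℂ) : |cross n a| ≤ |cross n b| + ‖a - b‖ := by
  have h1 := abs_cross_le n (a - b)
  rw [hn, one_mul, ← cross_sub] at h1
  have h2 := abs_sub_abs_le_abs_sub (cross n a) (cross n b)
  linarith

lemma cross_two {n m : ℂ} (hn : ‖n‖ = 1) (hm : ‖m‖ = 1) (G : ℂ) :
    ‖n ^ 2 - m ^ 2‖ * ‖G‖ ≤ 2 * (|cross m G| + |cross n G|) := by
  have h1 : ‖n ^ 2 - m ^ 2‖ = 2 * |cross n m| := by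
    refine (sq_eq_sq₀ (norm_nonneg _) (by positivity)).1 ?_
    have h2 := dot_sq_add_cross_sq n m
    rw [show n ^ 2 - m ^ 2 = (n + m) * (n - m) by ring, norm_mul, mul_pow, norm_add_sq',
      norm_sub_sq', mul_pow, sq_abs]
    rw [hn, hm] at h2 ⊢
    nlinarith
  have h2 : ((cross n m : ℝ) : ℂ) * G =
      ((-cross m G : ℝ) : ℂ) * n + ((cross n G : ℝ) : ℂ) * m := by
    apply Complex.ext <;> simp [cross] <;> ring
  have h3 := norm_add_le (((-cross m G : ℝ) : ℂ) * n) (((cross n G : ℝ) : ℂ) * m)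
  rw [← h2] at h3
  simp only [norm_mul, Complex.norm_real, Real.norm_eq_abs, abs_neg, hn, hm, mul_one] at h3
  rw [h1]
  linarith

lemma dot_near {y3 y4 p : ℂ} {θ a : ℝ} (h0 : 0 ≤ θ) (h : ‖y4 - y3‖ ≤ θ * ‖y3‖)
    (hp : ‖p‖ ≤ 3 * a) : |dot y4 p - dot y3 p| ≤ 3 * θ * (‖y3‖ * a) := by
  have e : dot y4 p - dot y3 p = dot (y4 - y3) p := by
    simp [dot]
    ring
  rw [e]
  refine (abs_dot_le _ _).trans ((mul_le_mul h hp (norm_nonneg _) (by positivity)).trans_eq ?_)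
  ring

lemma core {a3 a4 b3 b4 ξ η s M t : ℝ} (ht : 0 < t) (ht1 : t ≤ 1) (hs : 0 ≤ s) (hM : s ≤ M)
    (hξ : |ξ| ≤ s) (hη : |η| ≤ s) (h3 : |a3 + 2 * ξ| ≤ t ^ 2 / 100 * M)
    (h4 : |a4 + 2 * ξ| ≤ t ^ 2 / 100 * M)
    (h5 : |a3 ^ 2 + b3 ^ 2 - (a4 ^ 2 + b4 ^ 2)| ≤ t ^ 2 / 100 * M ^ 2) :
    (a3 - a4) ^ 2 + (b3 - b4) ^ 2 ≤ (t * M) ^ 2 ∨ ξ * (a3 + a4) + η * (b3 + b4) ≤ t * (s * M) := by
  have hM0 : 0 ≤ M := hs.trans hM
  have ht2 : t ^ 2 ≤ t := by nlinarith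
  have htM : t ^ 2 * M ≤ t * M := mul_le_mul_of_nonneg_right ht2 hM0
  have htM' : t * M ≤ M := by nlinarith
  obtain ⟨h3, h3'⟩ := abs_le.1 h3
  obtain ⟨h4, h4'⟩ := abs_le.1 h4
  obtain ⟨hξ1, hξ2⟩ := abs_le.1 hξ
  have k1 : |a3 - a4| ≤ t ^ 2 / 50 * M := abs_le.2 ⟨by linarith, by linarith⟩
  have k2 : |a3 + a4| ≤ 5 * M := abs_le.2 ⟨by linarith, by linarith⟩
  have k3 : |a3 ^ 2 - a4 ^ 2| ≤ t ^ 2 / 10 * M ^ 2 := by
    rw [show a3 ^ 2 - a4 ^ 2 = (a3 - a4) * (a3 + a4) by ring, abs_mul]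
    exact (mul_le_mul k1 k2 (abs_nonneg _) (by positivity)).trans_eq (by ring)
  obtain ⟨k3, k3'⟩ := abs_le.1 k3
  obtain ⟨h5, h5'⟩ := abs_le.1 h5
  have k4 : b3 ^ 2 - b4 ^ 2 ≤ (t * M / 2) ^ 2 := by nlinarith [sq_nonneg (t * M)]
  have k5 : b4 ^ 2 - b3 ^ 2 ≤ (t * M / 2) ^ 2 := by nlinarith [sq_nonneg (t * M)]
  have k6 : ∀ x y : ℝ, x ^ 2 - y ^ 2 ≤ (t * M / 2) ^ 2 → y ^ 2 - x ^ 2 ≤ (t * M / 2) ^ 2 →
      0 ≤ x * y → (x - y) ^ 2 ≤ (t * M / 2) ^ 2 := by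
    intro x y e1 e2 e3
    rcases le_total (x ^ 2) (y ^ 2) with e4 | e4
    · have : x ^ 2 ≤ x * y := le_of_sq_le_sq (by nlinarith [sq_nonneg x]) e3
      nlinarith
    · have : y ^ 2 ≤ x * y := le_of_sq_le_sq (by nlinarith [sq_nonneg y]) e3
      nlinarith
  rcases le_total 0 (b3 * b4) with hb | hb
  · left
    have k7 := k6 b3 b4 k4 k5 hb
    have k8 : (a3 - a4) ^ 2 ≤ (t * M / 2) ^ 2 :=
      sq_le_sq' (by linarith [(abs_le.1 k1).1]) (by linarith [(abs_le.1 k1).2])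
    nlinarith [sq_nonneg (t * M)]
  · right
    have k7 := k6 b3 (-b4) (by rwa [neg_sq]) (by rwa [neg_sq]) (by linarith)
    have k8 : |b3 + b4| ≤ t * M / 2 :=
      abs_le_of_sq_le_sq' (by rwa [sub_neg_eq_add] at k7) (by positivity) |> abs_le.2
    have k9 : η * (b3 + b4) ≤ s * (t * M / 2) :=
      (le_abs_self _).trans ((abs_mul _ _).trans_le (mul_le_mul hη k8 (abs_nonneg _) hs))
    have k10 : ξ * (a3 + a4 + 4 * ξ) ≤ s * (t * M / 2) :=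
      (le_abs_self _).trans ((abs_mul _ _).trans_le (mul_le_mul hξ
        (abs_le.2 ⟨by linarith, by linarith⟩) (abs_nonneg _) hs))
    nlinarith [sq_nonneg ξ]

/-- real part of the Levi-Civita momentum taken with a nearby square root -/
lemma re_near {g θ : ℝ} {y3 y4 p z : ℂ} (hg0 : 0 ≤ g) (hg : g ≤ 2) (h0 : 0 ≤ θ) (hθ : θ ≤ 1 / 4)
    (hy : y3 ≠ 0) (hz : z ^ 2 = y3) (h : ‖y4 - y3‖ ≤ θ * ‖y3‖) (k : OC g θ y4 p (-1) (1 / 2)) :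
    |(2 * (starRingEnd ℂ) z * p).re + 2 * z.re| ≤ 26 * θ * (1 + ‖z‖) := by
  have hR := norm_pos_iff.2 hy
  have hy4 : y4 ≠ 0 := norm_pos_iff.1 (lt_of_lt_of_le (by nlinarith) (near_lo h).1)
  obtain ⟨z4, hz4, hzz⟩ := exists_sqrt_near (z := z) (y' := y4) (θ := θ) (by rwa [hz, norm_z hz])
  have h1 := k.2
  rw [dev_re g hy4 hz4, sqrt_y hz4] at h1
  have h2 := om_one k.1
  have h3 := p_le hg0 hg h0 hθ hy h k.1
  have h4 := sa_le hy hz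
  have h5 := (near_lo hzz).2
  have hs := norm_nonneg z
  have e : (2 * (starRingEnd ℂ) z * p).re + 2 * z.re = (Gv g y4 p z4).re -
      (2 * ((starRingEnd ℂ) (z4 - z) * p)).re - 2 * ((√(2 * hh g y4 p) - 1) * z4.re) -
      2 * (z4 - z).re := by
    simp [Gv]
    ring
  have a1 : |(2 * ((starRingEnd ℂ) (z4 - z) * p)).re| ≤ 6 * θ * (1 + ‖z‖) := by
    refine (abs_re_le_norm _).trans ?_
    simp only [norm_mul, Complex.norm_ofNat, Complex.norm_conj]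
    have := mul_le_mul hzz h3 (norm_nonneg _) (by positivity)
    nlinarith
  have a2 : |(√(2 * hh g y4 p) - 1) * z4.re| ≤ 4 * θ * (2 * ‖z‖) := by
    rw [abs_mul]
    exact mul_le_mul h2 ((abs_re_le_norm _).trans (by nlinarith)) (abs_nonneg _) (by positivity)
  have a3 : |(z4 - z).re| ≤ θ * ‖z‖ := (abs_re_le_norm _).trans hzz
  have a4 : θ * (1 + ‖z4‖) ≤ θ * (2 + 2 * ‖z‖) := mul_le_mul_of_nonneg_left (by nlinarith) h0
  rw [e, abs_le] at *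
  constructor <;> nlinarith [h1.1, h1.2, a1.1, a1.2, a2.1, a2.2, a3.1, a3.2]

end Alg2

open Alg2

/-- dichotomy at the last encounter -/
theorem di {ϑ : ℝ} (hϑ : 0 < ϑ) : ∃ θ > 0, ∀ (g : ℝ) (y3 y4 p3 p4 : ℂ), 1 ≤ g → g ≤ 1 + θ →
    y3 ≠ 0 → ‖y4 - y3‖ ≤ θ * ‖y3‖ → OC g θ y3 p3 (-1) (1 / 2) → OC g θ y4 p4 (-1) (1 / 2) →
    ‖p3 - p4‖ ≤ ϑ * aa ‖y3‖ ∨ dot y3 p3 + dot y4 p4 ≤ ϑ * (‖y3‖ * aa ‖y3‖) := by
  obtain ⟨t, ht, ht1, htϑ⟩ : ∃ t : ℝ, 0 < t ∧ t ≤ 1 ∧ t ≤ ϑ :=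
    ⟨min 1 ϑ, lt_min one_pos hϑ, min_le_left _ _, min_le_right _ _⟩
  refine ⟨t ^ 2 / 10000, by positivity, fun g y3 y4 p3 p4 hg1 hg2 hy h k3 k4 => ?_⟩
  obtain ⟨θ, hθ⟩ : ∃ θ, θ = t ^ 2 / 10000 := ⟨_, rfl⟩
  rw [← hθ] at hg2 h k3 k4
  have ht2 : t ^ 2 ≤ t := by nlinarith
  have h0 : 0 ≤ θ := by rw [hθ]; positivity
  have h14 : θ ≤ 1 / 4 := by linarith
  have hg0 : 0 ≤ g := by linarith
  have hg : g ≤ 2 := by linarith
  have hR := norm_pos_iff.2 hy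
  obtain ⟨z, hz⟩ := exists_sqrt y3
  have hs : 0 < ‖z‖ := norm_pos_iff.2 fun e => hy (by rw [← hz, e]; simp)
  have ha := one_le_aa hR
  have hM := sa_sq hy hz
  have hM1 : ‖z‖ ≤ ‖z‖ * aa ‖y3‖ := le_mul_of_one_le_right hs.le ha
  have hM2 : 1 + ‖z‖ ≤ 2 * (‖z‖ * aa ‖y3‖) :=
    le_of_sq_le_sq (by nlinarith [sq_nonneg (1 - ‖z‖)]) (by positivity)
  have r3 := re_near hg0 hg h0 h14 hy hz (by rw [sub_self, norm_zero]; positivity) k3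
  have r4 := re_near hg0 hg h0 h14 hy hz h k4
  have r5 : 26 * θ * (1 + ‖z‖) ≤ t ^ 2 / 100 * (‖z‖ * aa ‖y3‖) := by
    have := mul_le_mul_of_nonneg_left hM2 h0
    have h1 : 0 ≤ θ * (‖z‖ * aa ‖y3‖) := by positivity
    rw [show t ^ 2 = 10000 * θ by rw [hθ]; ring]
    nlinarith
  have n1 : ∀ p : ℂ, (2 * (starRingEnd ℂ) z * p).re ^ 2 + (2 * (starRingEnd ℂ) z * p).im ^ 2 =
      4 * ‖y3‖ * ‖p‖ ^ 2 := by
    intro p
    have := Complex.sq_norm (2 * (starRingEnd ℂ) z * p)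
    rw [normSq_apply, ← sq, ← sq] at this
    rw [← this, ← norm_z hz]
    simp only [norm_mul, Complex.norm_ofNat, Complex.norm_conj]
    ring
  have n2 : |4 * ‖y3‖ * ‖p3‖ ^ 2 - 4 * ‖y3‖ * ‖p4‖ ^ 2| ≤
      t ^ 2 / 100 * (‖z‖ * aa ‖y3‖) ^ 2 := by
    have h1 := inv_near hR h0 h14 (near_lo h).1 (near_lo h).2
    have h2 : |8 * g * ‖y3‖ * (1 / ‖y4‖ - 1 / ‖y3‖)| ≤ 32 * θ := by
      rw [abs_mul, abs_of_nonneg (by positivity)]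
      refine (mul_le_mul_of_nonneg_left h1 (by positivity)).trans ?_
      rw [show 8 * g * ‖y3‖ * (2 * θ * (1 / ‖y3‖)) = 16 * (g * θ) by field_simp; ring]
      nlinarith
    have h3 : |8 * ‖y3‖ * (hh g y3 p3 - hh g y4 p4)| ≤ 8 * ‖y3‖ * (2 * θ) := by
      rw [abs_mul, abs_of_nonneg (by positivity)]
      refine mul_le_mul_of_nonneg_left (abs_le.2 ⟨?_, ?_⟩) (by positivity) <;>
        linarith [(abs_le.1 k3.1).1, (abs_le.1 k3.1).2, (abs_le.1 k4.1).1, (abs_le.1 k4.1).2]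
    have e : 4 * ‖y3‖ * ‖p3‖ ^ 2 - 4 * ‖y3‖ * ‖p4‖ ^ 2 =
        8 * ‖y3‖ * (hh g y3 p3 - hh g y4 p4) - 8 * g * ‖y3‖ * (1 / ‖y4‖ - 1 / ‖y3‖) := by
      rw [normSq_p g y3 p3, normSq_p g y4 p4]
      ring
    rw [e, hM, norm_z hz, show t ^ 2 = 10000 * θ by rw [hθ]; ring]
    refine (abs_sub _ _).trans ?_
    nlinarith [mul_nonneg h0 hR.le]
  rw [← n1, ← n1] at n2
  rcases core ht ht1 hs.le hM1 (abs_re_le_norm z) (abs_im_le_norm z) (r3.trans r5) (r4.trans r5)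
    n2 with c | c
  · left
    have h1 := n1 (p3 - p4)
    rw [mul_sub, sub_re, sub_im, ← norm_z hz] at h1
    rw [h1] at c
    have h2 : ‖z‖ * (2 * ‖p3 - p4‖) ≤ ‖z‖ * (t * aa ‖y3‖) :=
      le_of_sq_le_sq (by nlinarith) (by positivity)
    have h3 := le_of_mul_le_mul_left h2 hs
    nlinarith [norm_nonneg (p3 - p4)]
  · right
    have h1 : z.re * ((2 * (starRingEnd ℂ) z * p3).re + (2 * (starRingEnd ℂ) z * p4).re) +
        z.im * ((2 * (starRingEnd ℂ) z * p3).im + (2 * (starRingEnd ℂ) z * p4).im) =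
        2 * (dot y3 p3 + dot y3 p4) := by
      rw [← hz]
      simp [dot, sq]
      ring
    rw [h1, ← mul_assoc ‖z‖, ← sq, norm_z hz] at c
    have h2 := (abs_le.1 (dot_near h0 h (p_le hg0 hg h0 h14 hy h k4.1))).2
    have h3 : 0 ≤ ‖y3‖ * aa ‖y3‖ := by positivity
    have h4 : (t / 2 + 3 * θ) * (‖y3‖ * aa ‖y3‖) ≤ ϑ * (‖y3‖ * aa ‖y3‖) :=
      mul_le_mul_of_nonneg_right (by linarith) h3
    linarith

/-- lower bound for the relative speed at the last encounter -/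
theorem sl {c γ : ℝ} (hc : 0 < c) (hγ : 0 < γ) : ∃ θ > 0, ∃ η > 0,
    ∀ (g : ℝ) (y3 y4 p3 p4 ν3 ν4 : ℂ), 1 ≤ g → g ≤ 1 + θ → y3 ≠ 0 → ‖y4 - y3‖ ≤ θ * ‖y3‖ →
    ‖ν3‖ = 1 → ‖ν4‖ = 1 → γ ≤ ‖ν3 - ν4‖ → OC g θ y3 p3 ν3 (1 / 2) → OC g θ y4 p4 ν4 (1 / 2) →
    c * (‖y3‖ * aa ‖y3‖) ≤ dot y3 p3 + dot y4 p4 → η * aa ‖y3‖ ≤ ‖p3 - p4‖ := by
  obtain ⟨θ, h0, h14, hθc, hθγ⟩ : ∃ θ : ℝ, 0 < θ ∧ θ ≤ 1 / 4 ∧ θ ≤ c / 6 ∧ θ ≤ γ / 200 :=
    ⟨min (1 / 4) (min (c / 6) (γ / 200)), by positivity, min_le_left _ _,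
      (min_le_right _ _).trans (min_le_left _ _), (min_le_right _ _).trans (min_le_right _ _)⟩
  obtain ⟨η, hη, hηc, hηγ⟩ : ∃ η : ℝ, 0 < η ∧ η ≤ c / 2 ∧ η ≤ γ / 16 :=
    ⟨min (c / 2) (γ / 16), by positivity, min_le_left _ _, min_le_right _ _⟩
  refine ⟨θ, h0, η, hη, fun g y3 y4 p3 p4 ν3 ν4 hg1 hg2 hy h hν3 hν4 hν k3 k4 hK => ?_⟩
  by_contra hp
  have hp := (not_le.1 hp).le
  have hg0 : 0 ≤ g := by linarith
  have hg : g ≤ 2 := by linarith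
  have hR := norm_pos_iff.2 hy
  have hy4 : y4 ≠ 0 := norm_pos_iff.1 (lt_of_lt_of_le (by nlinarith) (near_lo h).1)
  have ha := one_le_aa hR
  obtain ⟨z, hz⟩ := exists_sqrt y3
  obtain ⟨z4, hz4, hzz⟩ := exists_sqrt_near (z := z) (y' := y4) (θ := θ) (by rwa [hz, norm_z hz])
  obtain ⟨n, hn⟩ := exists_sqrt ν3
  obtain ⟨m, hm⟩ := exists_sqrt ν4
  have hn1 := norm_one hn hν3
  have hm1 := norm_one hm hν4
  have hs := norm_nonneg z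
  have d3 := k3.2
  have d4 := k4.2
  rw [dev_G g hy hz hn hn1, sqrt_y hz] at d3
  rw [dev_G g hy4 hz4 hm hm1, sqrt_y hz4] at d4
  have hp4 := p_le hg0 hg h0.le h14 hy h k4.1
  have hK3 : 0 ≤ dot y3 p3 := by
    have h1 := (abs_le.1 (dot_near h0.le h hp4)).2
    have h2 : dot y3 p4 - dot y3 p3 ≤ η * (‖y3‖ * aa ‖y3‖) := by
      have e : dot y3 p4 - dot y3 p3 = -dot y3 (p3 - p4) := by
        simp [dot]
        ring
      have h3 := (neg_le_abs _).trans (abs_dot_le y3 (p3 - p4))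
      have h4 := mul_le_mul_of_nonneg_left hp hR.le
      rw [e]
      linarith
    have h3 : (3 * θ + η) * (‖y3‖ * aa ‖y3‖) ≤ c * (‖y3‖ * aa ‖y3‖) :=
      mul_le_mul_of_nonneg_right (by linarith) (by positivity)
    linarith
  have he3 := abs_le.1 k3.1
  have hG : 1 + ‖z‖ ≤ ‖Gv g y3 p3 z‖ := by
    refine le_of_sq_le_sq ?_ (norm_nonneg _)
    rw [G_sq g hy hz (by linarith [he3.1])]
    have h1 := mul_nonneg (Real.sqrt_nonneg (2 * hh g y3 p3)) hK3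
    have h2 : 1 / 4 * ‖z‖ ^ 2 ≤ hh g y3 p3 * ‖z‖ ^ 2 :=
      mul_le_mul_of_nonneg_right (by linarith [he3.1]) (by positivity)
    nlinarith [sq_nonneg (1 - ‖z‖)]
  have hz4' : ‖z4‖ ≤ 2 * ‖z‖ := (near_lo hzz).2.trans (by nlinarith)
  have o3 := abs_le.1 (om_one k3.1)
  have o4 := abs_le.1 (om_one k4.1)
  have hL := G_lip g y4 p4 z4 y3 p3 z
  have l1 := mul_le_mul hzz hp4 (norm_nonneg _) (by positivity)
  have l2 := mul_le_mul_of_nonneg_left ((norm_sub_rev p4 p3).trans_le hp) hs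
  have l3 : |√(2 * hh g y4 p4) - √(2 * hh g y3 p3)| * ‖z4‖ ≤ 8 * θ * (2 * ‖z‖) :=
    mul_le_mul (abs_le.2 ⟨by linarith, by linarith⟩) hz4' (norm_nonneg _) (by positivity)
  have l4 : √(2 * hh g y3 p3) * ‖z4 - z‖ ≤ 2 * (θ * ‖z‖) :=
    mul_le_mul (by linarith) hzz (norm_nonneg _) (by positivity)
  have l5 := mul_le_mul_of_nonneg_left (sa_le hy hz) h0.le
  have l6 := mul_le_mul_of_nonneg_left (sa_le hy hz) hη.le
  have l7 := mul_le_mul_of_nonneg_left hz4' h0.le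
  have c1 := cross_le hm1 (Gv g y3 p3 z) (Gv g y4 p4 z4)
  rw [norm_sub_rev] at c1
  have c2 := cross_two hn1 hm1 (Gv g y3 p3 z)
  rw [hn, hm] at c2
  have c3 := mul_le_mul hν hG (by positivity) (norm_nonneg _)
  have c4 : γ * (1 + ‖z‖) ≤ (90 * θ + 4 * η) * (1 + ‖z‖) := by
    nlinarith [mul_nonneg h0.le hs]
  have c5 := le_of_mul_le_mul_right c4 (by positivity)
  linarith

/-- stability of the outgoing condition under small changes of the state -/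
theorem pr {r ϑ : ℝ} (hr : 0 < r) (hϑ : 0 < ϑ) : ∃ θ > 0, ∀ (g : ℝ) (y3 y p3 p : ℂ), 1 ≤ g →
    g ≤ 1 + θ → r ≤ ‖y3‖ → ‖y - y3‖ ≤ θ * ‖y3‖ → ‖p - p3‖ ≤ θ * aa ‖y3‖ →
    OC g θ y3 p3 (-1) (1 / 2) → OC g ϑ y p (-1) (1 / 2) := by
  obtain ⟨A, hA⟩ : ∃ A, A = 1 + 1 / r := ⟨_, rfl⟩
  have hA1 : 1 ≤ A := by rw [hA]; exact le_add_of_nonneg_right (by positivity)
  obtain ⟨θ, h0, h14, hθ⟩ : ∃ θ : ℝ, 0 < θ ∧ θ ≤ 1 / 4 ∧ 400 * (θ * A) ≤ ϑ := by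
    refine ⟨min (1 / 4) (ϑ / (400 * A)), by positivity, min_le_left _ _, ?_⟩
    have := (le_div_iff₀ (by positivity)).1 (min_le_right (1 / 4) (ϑ / (400 * A)))
    linarith
  refine ⟨θ, h0, fun g y3 y p3 p hg1 hg2 hry h hp k => ?_⟩
  have hg0 : 0 ≤ g := by linarith
  have hg : g ≤ 2 := by linarith
  have hR : 0 < ‖y3‖ := hr.trans_le hry
  have hy3 := norm_pos_iff.1 hR
  have hy : y ≠ 0 := norm_pos_iff.1 (lt_of_lt_of_le (by nlinarith) (near_lo h).1)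
  have ha := one_le_aa hR
  have ha2 := aa_sq hR
  have haA : aa ‖y3‖ ^ 2 ≤ A := by
    rw [ha2, hA]
    linarith [one_div_le_one_div_of_le hr hry]
  have hθA : θ ≤ θ * A := le_mul_of_one_le_right h0.le hA1
  have hp3 := p_le hg0 hg h0.le h14 hy3 (by rw [sub_self, norm_zero]; positivity) k.1
  have hd := (abs_norm_sub_norm_le p p3).trans hp
  have hp1 : ‖p‖ ≤ 4 * aa ‖y3‖ := by nlinarith [(abs_le.1 hd).2]
  have e1 : |hh g y p - hh g y3 p3| ≤ 8 * (θ * A) := by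
    have h1 : |‖p‖ ^ 2 - ‖p3‖ ^ 2| ≤ θ * aa ‖y3‖ * (7 * aa ‖y3‖) := by
      rw [show ‖p‖ ^ 2 - ‖p3‖ ^ 2 = (‖p‖ - ‖p3‖) * (‖p‖ + ‖p3‖) by ring, abs_mul]
      exact mul_le_mul hd (by rw [abs_of_nonneg (by positivity)]; linarith) (abs_nonneg _)
        (by positivity)
    have h2 : |g * (1 / ‖y‖ - 1 / ‖y3‖)| ≤ 2 * (2 * θ * (1 / ‖y3‖)) := by
      rw [abs_mul, abs_of_nonneg hg0]
      exact mul_le_mul hg (inv_near hR h0.le h14 (near_lo h).1 (near_lo h).2) (abs_nonneg _)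
        zero_le_two
    have h3 := mul_le_mul_of_nonneg_left haA h0.le
    have h4 : θ * (1 / ‖y3‖) ≤ θ * aa ‖y3‖ ^ 2 :=
      mul_le_mul_of_nonneg_left (by linarith) h0.le
    have e : hh g y p - hh g y3 p3 = (‖p‖ ^ 2 - ‖p3‖ ^ 2) / 2 - g * (1 / ‖y‖ - 1 / ‖y3‖) := by
      simp only [hh]
      ring
    rw [e, abs_le] at *
    constructor <;> nlinarith [h1.1, h1.2, h2.1, h2.2, mul_pos h0 (one_pos.trans_le hA1)]
  have he3 := abs_le.1 k.1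
  refine ⟨abs_le.2 ⟨by linarith [(abs_le.1 e1).1], by linarith [(abs_le.1 e1).2]⟩, ?_⟩
  obtain ⟨z3, hz3⟩ := exists_sqrt y3
  obtain ⟨z, hz, hzz⟩ := exists_sqrt_near (z := z3) (y' := y) (θ := θ) (by rwa [hz3, norm_z hz3])
  have d3 := k.2
  rw [dev_G g hy3 hz3 I_sq norm_I, sqrt_y hz3] at d3
  rw [dev_G g hy hz I_sq norm_I, sqrt_y hz]
  have hs := norm_nonneg z3
  have hz1 : ‖z‖ ≤ 2 * ‖z3‖ := (near_lo hzz).2.trans (by nlinarith)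
  have hz2 : ‖z3‖ ≤ 2 * ‖z‖ := by nlinarith [(near_lo hzz).1]
  have o3 := abs_le.1 (om_one k.1)
  have o4 : |√(2 * hh g y p) - √(2 * hh g y3 p3)| ≤ 32 * (θ * A) := by
    refine (sqrt_lip (by linarith [he3.1])).trans ?_
    rw [← mul_sub, abs_mul, abs_two]
    linarith
  have hL := G_lip g y p z y3 p3 z3
  have l1 := mul_le_mul hzz hp1 (norm_nonneg _) (by positivity)
  have l2 := mul_le_mul_of_nonneg_left hp hs
  have l3 := mul_le_mul o4 hz1 (norm_nonneg _) (by positivity)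
  have l4 : √(2 * hh g y3 p3) * ‖z - z3‖ ≤ 2 * (θ * ‖z3‖) :=
    mul_le_mul (by linarith) hzz (norm_nonneg _) (by positivity)
  have l5 := mul_le_mul_of_nonneg_left (sa_le hy3 hz3) h0.le
  have l6 := mul_le_mul_of_nonneg_right hθA hs
  have c1 := cross_le norm_I (Gv g y p z) (Gv g y3 p3 z3)
  have c2 : |cross I (Gv g y p z)| ≤ 200 * (θ * A) * (1 + ‖z3‖) := by
    nlinarith [mul_nonneg h0.le hs]
  have c3 : 200 * (θ * A) * (1 + ‖z3‖) ≤ 200 * (θ * A) * (2 * (1 + ‖z‖)) :=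
    mul_le_mul_of_nonneg_left (by linarith) (by positivity)
  have c4 := mul_le_mul_of_nonneg_right hθ (show 0 ≤ 1 + ‖z‖ by positivity)
  linarith

/-- stability of the outgoing condition under small changes of the direction -/
theorem dv {ϑ : ℝ} (hϑ : 0 < ϑ) : ∃ θ > 0, ∀ (g : ℝ) (y p ν : ℂ), 1 ≤ g → g ≤ 2 → y ≠ 0 →
    ‖ν‖ = 1 → ‖ν + 1‖ ≤ θ → OC g θ y p ν (1 / 2) → OC g ϑ y p (-1) (1 / 2) := by
  obtain ⟨θ, h0, h14, hθ⟩ : ∃ θ : ℝ, 0 < θ ∧ θ ≤ 1 / 4 ∧ θ ≤ ϑ / 20 :=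
    ⟨min (1 / 4) (ϑ / 20), by positivity, min_le_left _ _, min_le_right _ _⟩
  refine ⟨θ, h0, fun g y p ν hg1 hg hy hν h k => ⟨k.1.trans (by linarith), ?_⟩⟩
  obtain ⟨z, hz⟩ := exists_sqrt y
  obtain ⟨n, hn, hnn⟩ := exists_sqrt_near (z := I) (y' := ν) (θ := θ) (by simpa using h)
  have d := k.2
  rw [dev_G g hy hz hn (norm_one hn hν), sqrt_y hz] at d
  rw [dev_G g hy hz I_sq norm_I, sqrt_y hz]
  rw [norm_I, mul_one] at hnn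
  have hs := norm_nonneg z
  have hp := p_le (by linarith) hg h0.le h14 hy (by rw [sub_self, norm_zero]; positivity) k.1
  have o := abs_le.1 (om_one k.1)
  have hG : ‖Gv g y p z‖ ≤ 10 * (1 + ‖z‖) := by
    refine (norm_add_le _ _).trans ?_
    simp only [norm_mul, Complex.norm_ofNat, Complex.norm_conj, Complex.norm_real,
      Real.norm_eq_abs, abs_two, abs_of_nonneg (Real.sqrt_nonneg _)]
    have l1 := mul_le_mul_of_nonneg_left hp hs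
    have l2 := sa_le hy hz
    have l3 : √(2 * hh g y p) * ‖z‖ ≤ 2 * ‖z‖ := mul_le_mul_of_nonneg_right (by linarith) hs
    nlinarith
  have e : cross I (Gv g y p z) = cross n (Gv g y p z) - cross (n - I) (Gv g y p z) := by
    simp [cross]
    ring
  have c1 := (abs_cross_le (n - I) (Gv g y p z)).trans
    (mul_le_mul hnn hG (norm_nonneg _) h0.le)
  have c2 := mul_le_mul_of_nonneg_right hθ (show 0 ≤ 1 + ‖z‖ by positivity)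
  have c3 : 0 ≤ θ * (1 + ‖z‖) := by positivity
  rw [e]
  refine (abs_sub _ _).trans ?_
  linarith

/-- the quantity Dq at an encounter -/
theorem dq {ϑ : ℝ} (hϑ : 0 < ϑ) : ∃ θ > 0, ∀ (y1 y2 p1 p2 : ℂ), ‖y2 - y1‖ ≤ θ * ‖y1‖ →
    ‖y1‖ * ‖p1‖ ^ 2 ≤ 50 → ‖y1‖ * ‖p2‖ ^ 2 ≤ 50 →
    |Dq y1 p1 y2 p2 - (‖y1‖ * dot p1 p2) ^ 2 / 2| ≤ ϑ := by
  refine ⟨ϑ / 1250, by positivity, fun y1 y2 p1 p2 h h1 h2 => ?_⟩
  have n : ∀ y p : ℂ, ‖Pq y p‖ = ‖y‖ * ‖p‖ ^ 2 / 2 := by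
    intro y p
    simp [Pq]
  have e1 : (‖y1‖ * dot p1 p2) ^ 2 / 2 = Dq y1 p1 y1 p2 := by
    rw [Dq, n, n, mul_pow, show ‖y1‖ * ‖p1‖ ^ 2 / 2 * (‖y1‖ * ‖p2‖ ^ 2 / 2) =
      ‖y1‖ ^ 2 * ‖p1‖ ^ 2 * ‖p2‖ ^ 2 / 4 by ring]
    simp only [Complex.sq_norm, normSq_apply]
    simp [dot, Pq, sq]
    ring
  have e2 : Pq y2 p2 - Pq y1 p2 = Pq (y2 - y1) p2 := by
    simp only [Pq, map_sub]
    ring
  have b1 : ‖Pq y1 p1‖ ≤ 25 := by rw [n]; linarith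
  have b2 : ‖Pq y2 p2 - Pq y1 p2‖ ≤ ϑ / 50 := by
    rw [e2, n]
    have := mul_le_mul_of_nonneg_right h (sq_nonneg ‖p2‖)
    nlinarith
  have b3 := mul_le_mul b1 b2 (norm_nonneg _) (by norm_num)
  have e3 : Dq y1 p1 y2 p2 - Dq y1 p1 y1 p2 = dot (Pq y1 p1) (Pq y2 p2 - Pq y1 p2) +
      ‖Pq y1 p1‖ * (‖Pq y2 p2‖ - ‖Pq y1 p2‖) := by
    simp only [Dq, dot, sub_re, sub_im]
    ring
  have b4 := abs_dot_le (Pq y1 p1) (Pq y2 p2 - Pq y1 p2)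
  have b5 : |‖Pq y1 p1‖ * (‖Pq y2 p2‖ - ‖Pq y1 p2‖)| ≤ ‖Pq y1 p1‖ * ‖Pq y2 p2 - Pq y1 p2‖ := by
    rw [abs_mul, abs_norm]
    exact mul_le_mul_of_nonneg_left (abs_norm_sub_norm_le _ _) (norm_nonneg _)
  rw [e1, e3]
  refine (abs_add_le _ _).trans ?_
  linarith

lemma OC.mono {g θ θ' : ℝ} {y p ν : ℂ} {h : ℝ} (k : OC g θ y p ν h) (hθ : θ ≤ θ') :
    OC g θ' y p ν h :=
  ⟨k.1.trans hθ, k.2.trans (mul_le_mul_of_nonneg_right hθ (by positivity))⟩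

end Pool.Agent.Lib.MP_e310f3_mp.Gap
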