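import Pool.Agent.Lib.MP_e310f3_mp.Gap.Vir

/-!
Single-arc estimates used for the bounded window after an encounter.
-/

open Complex Filter Topology Set

noncomputable section

namespace Pool.Agent.Lib.MP_e310f3_mp.Gap

lemma win_prim {φ : ℝ → ℝ} (hφ : Continuous φ) :
    ∃ I : ℝ → ℝ, ∀ τ, HasDerivAt I (φ τ) τ :=
  ⟨fun u => ∫ x in (0 : ℝ)..u, φ x, fun τ => (hφ.integral_hasStrictDerivAt 0 τ).hasDerivAt⟩

section arc

variable {g : ℝ} {y p : ℝ → ℂ} {F : ℝ → ℝ}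

lemma win_cont (A : Arc g y p F) : Continuous y :=
  continuous_iff_continuousAt.2 fun t => (A.dy t).continuousAt

lemma win_mono (A : Arc g y p F) {s t : ℝ} (hst : s ≤ t) : F s ≤ F t :=
  le_of_deriv_nonneg hst fun τ _ => by
    obtain ⟨f, φ, -, hF, hf⟩ := A.dp τ
    exact ⟨φ, hF, (norm_nonneg f).trans hf⟩

lemma win_primI (A : Arc g y p F) :
    ∃ I : ℝ → ℝ, ∀ τ, HasDerivAt I (1 / (1 + ‖y τ‖) ^ 2) τ := by
  apply win_prim
  have hc := (win_cont A).norm
  refine Continuous.div continuous_const ((continuous_const.add hc).pow 2) fun τ => ?_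
  have := norm_nonneg (y τ)
  positivity

lemma win_primU (A : Arc g y p F) :
    ∃ U : ℝ → ℝ, ∀ τ, HasDerivAt U (g / ‖y τ‖) τ := by
  apply win_prim
  have hc := (win_cont A).norm
  exact Continuous.div continuous_const hc fun τ => norm_ne_zero_iff.2 (A.ne τ)

lemma win_K_le (g : ℝ) {y : ℂ} (hy : y ≠ 0) (p : ℂ) :
    dot y p ^ 2 ≤ 2 * hh g y p * ‖y‖ ^ 2 + 2 * g * ‖y‖ := by
  have h := K_sq g hy p
  nlinarith [sq_nonneg (cross y p)]

lemma win_lyap_alg {c g h r K d φ : ℝ} (hc : 1 ≤ c) (hg0 : 0 ≤ g) (hg : g ≤ 2) (hr : 0 < r)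
    (hch : 2 ≤ c * h) (hK : K ^ 2 ≤ 2 * h * r ^ 2 + 2 * g * r) (hd : |d| ≤ r * φ) (hφ : 0 ≤ φ) :
    1 / (1 + r) ^ 2 ≤
      c ^ 2 * (((2 * h + g / r + d) * (c + r) - K * (K / r)) / (c + r) ^ 2 + φ) := by
  have hD : 0 < c + r := by linarith
  have h1 : K * (K / r) ≤ 2 * h * r + 2 * g := by
    rw [← mul_div_assoc, div_le_iff₀ hr]; nlinarith
  have h2 : g ≤ g / r * (c + r) := by
    have e : g / r * (c + r) = g / r * c + g := by field_simp
    have : 0 ≤ g / r * c := by positivity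
    linarith
  have h3 : -(φ * (c + r) ^ 2) ≤ d * (c + r) := by
    have h4 : -(r * φ) ≤ d := (abs_le.1 hd).1
    have h5 : -((c + r) * φ) ≤ d := by nlinarith
    nlinarith
  have h4 : 1 ≤ (2 * h + g / r + d) * (c + r) - K * (K / r) + φ * (c + r) ^ 2 := by nlinarith
  have h5 : 1 / (c + r) ^ 2 ≤ ((2 * h + g / r + d) * (c + r) - K * (K / r)) / (c + r) ^ 2 + φ := by
    have e : ((2 * h + g / r + d) * (c + r) - K * (K / r)) / (c + r) ^ 2 + φ =
        ((2 * h + g / r + d) * (c + r) - K * (K / r) + φ * (c + r) ^ 2) / (c + r) ^ 2 := by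
      field_simp
    rw [e]
    exact div_le_div_of_nonneg_right h4 (by positivity)
  have h6 : 1 / (1 + r) ^ 2 ≤ c ^ 2 * (1 / (c + r) ^ 2) := by
    rw [mul_one_div, div_le_div_iff₀ (by positivity) (by positivity)]
    have h7 : c + r ≤ c * (1 + r) := by nlinarith
    have h8 : (c + r) ^ 2 ≤ (c * (1 + r)) ^ 2 := pow_le_pow_left₀ hD.le h7 2
    nlinarith
  exact h6.trans (mul_le_mul_of_nonneg_left h5 (by positivity))

lemma win_L_bound {c g h H r K : ℝ} (hc : 1 ≤ c) (hg0 : 0 ≤ g) (hg : g ≤ 2) (hr : 0 < r)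
    (hH0 : 0 ≤ H) (hH : h ≤ H) (hK : K ^ 2 ≤ 2 * h * r ^ 2 + 2 * g * r) :
    |K / (c + r)| ≤ H + 1 := by
  have hD : 0 < c + r := by linarith
  rw [abs_div, abs_of_pos hD, div_le_iff₀ hD]
  apply abs_le_of_sq_le_sq' _ (by positivity) |> fun h => abs_le.2 h
  have h1 : 2 * h * r ^ 2 ≤ 2 * H * (c + r) ^ 2 := by
    have : r ^ 2 ≤ (c + r) ^ 2 := pow_le_pow_left₀ hr.le (by linarith) 2
    nlinarith [sq_nonneg r]
  have h2 : 2 * g * r ≤ (c + r) ^ 2 := by nlinarith [sq_nonneg (c - r)]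
  nlinarith [sq_nonneg (H * (c + r))]

/-- hyperbolic passage -/
lemma win_lyap (A : Arc g y p F) {c H s t : ℝ} {I : ℝ → ℝ} (hg0 : 0 ≤ g) (hg : g ≤ 2)
    (hc : 1 ≤ c) (hH0 : 0 ≤ H) (hst : s ≤ t) (hI : ∀ τ, HasDerivAt I (1 / (1 + ‖y τ‖) ^ 2) τ)
    (hb : ∀ τ ∈ Icc s t, 2 ≤ c * hh g (y τ) (p τ) ∧ hh g (y τ) (p τ) ≤ H) :
    I t - I s ≤ c ^ 2 * (2 * (H + 1) + (F t - F s)) := by
  have key := sub_le_of_deriv_le (f := I)
    (g := fun τ => c ^ 2 * (dot (y τ) (p τ) / (c + ‖y τ‖) + F τ)) hst (fun τ hτ => by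
      obtain ⟨f, φ, hp, hF, hf⟩ := A.dp τ
      have hr : 0 < ‖y τ‖ := norm_pos_iff.2 (A.ne τ)
      have hK := d_K (A.ne τ) (A.dy τ) hp
      have hN := (hasDerivAt_norm (A.dy τ) (A.ne τ)).const_add c
      have hL := ((hK.div hN (by linarith)).add hF).const_mul (c ^ 2)
      refine ⟨_, _, hI τ, hL, ?_⟩
      refine win_lyap_alg hc hg0 hg hr (hb τ hτ).1 (win_K_le g (A.ne τ) (p τ)) ?_
        ((norm_nonneg f).trans hf)
      exact (abs_dot_le _ _).trans (mul_le_mul_of_nonneg_left hf hr.le))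
  have b1 := win_L_bound hc hg0 hg (norm_pos_iff.2 (A.ne s)) hH0 (hb s ⟨le_rfl, hst⟩).2
    (win_K_le g (A.ne s) (p s))
  have b2 := win_L_bound hc hg0 hg (norm_pos_iff.2 (A.ne t)) hH0 (hb t ⟨hst, le_rfl⟩).2
    (win_K_le g (A.ne t) (p t))
  have c1 := (abs_le.1 b1).1
  have c2 := (abs_le.1 b2).2
  refine key.trans ?_
  rw [← mul_sub]
  exact mul_le_mul_of_nonneg_left (by linarith) (by positivity)

/-- a slow body does not reach the centre -/
lemma win_slow (A : Arc g y p F) {r v s t : ℝ} (hg0 : 0 ≤ g) (hg : g ≤ 2) (hr : 0 < r)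
    (hv : 0 ≤ v) (hT : v * (t - s) ≤ r / 8) (h0 : r / 2 ≤ ‖y s‖)
    (hb : ∀ τ ∈ Icc s t, 2 * hh g (y τ) (p τ) + 16 / r ≤ v ^ 2) :
    ∀ τ ∈ Icc s t, r / 4 ≤ ‖y τ‖ := by
  have hc := (win_cont A).norm
  have key := boot (ι := Unit) (fun _ τ => r / 4 - ‖y τ‖) (s := s) (t := t)
    (fun _ => (continuous_const.sub hc).continuousOn) (fun _ => by linarith)
    (fun τ hτ hyp _ => by
      have h1 := norm_sub_le_of_deriv (f := y) (g := fun σ => v * σ) hτ.1 (fun σ hσ => by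
        refine ⟨_, _, A.dy σ, (hasDerivAt_id σ).const_mul v, ?_⟩
        have h2 : r / 4 ≤ ‖y σ‖ := by have := hyp σ hσ (); linarith
        have h3 := normSq_p g (y σ) (p σ)
        have h4 := hb σ ⟨hσ.1, hσ.2.trans hτ.2⟩
        have h5 : 2 * g / ‖y σ‖ ≤ 16 / r := by
          rw [div_le_div_iff₀ (by linarith) hr]; nlinarith
        rw [mul_one]
        exact abs_le_of_sq_le_sq' (by linarith) hv |>.2)
      have h2 : ‖y s‖ - ‖y τ‖ ≤ ‖y τ - y s‖ := by
        rw [norm_sub_rev]; exact norm_sub_norm_le _ _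
      have h3 : v * τ - v * s ≤ v * (t - s) := by
        have := mul_le_mul_of_nonneg_left hτ.2 hv
        linarith
      linarith)
  intro τ hτ
  have := key τ hτ ()
  linarith

/-- the time spent near the centre is bounded -/
lemma win_I {Tm : ℝ} (hT : 0 < Tm) : ∃ θ > 0, θ ≤ 1 ∧ ∃ C > 0,
    ∀ (g : ℝ) (y p : ℝ → ℂ) (F I : ℝ → ℝ) (r a s t : ℝ), Arc g y p F → 0 ≤ g → g ≤ 2 →
    (∀ τ, HasDerivAt I (1 / (1 + ‖y τ‖) ^ 2) τ) → 0 < r → 1 ≤ a → a ^ 2 = 1 + 1 / r → s ≤ t →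
    t - s ≤ Tm * r / a → r / 2 ≤ ‖y s‖ → hh g (y s) (p s) ≤ 13 * a ^ 2 →
    (∀ τ ∈ Icc s t, |hh g (y τ) (p τ) - hh g (y s) (p s)| ≤ θ * a ^ 2) →
    I t - I s ≤ C + C * (F t - F s) := by
  set c : ℝ := 1 + 2048 * Tm ^ 2 with hcdef
  have hc : 1 ≤ c := by have := sq_nonneg Tm; linarith
  have hc0 : 0 < c := by linarith
  refine ⟨1 / c, by positivity, by rw [div_le_one hc0]; exact hc,
    58 * c ^ 2 + Tm * c + 16 * Tm, by positivity, ?_⟩
  intro g y p F I r a s t A hg0 hg hI hr ha ha2 hst hts h0 hH hb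
  have hF : 0 ≤ F t - F s := sub_nonneg.2 (win_mono A hst)
  have hts' : t - s ≤ Tm * r := hts.trans (div_le_self (by positivity) ha)
  have hc2 : 0 < c ^ 2 := by positivity
  have hTc : 0 < Tm * c := by positivity
  have hCF : c ^ 2 * (F t - F s) ≤ (58 * c ^ 2 + Tm * c + 16 * Tm) * (F t - F s) :=
    mul_le_mul_of_nonneg_right (by linarith) hF
  have hCF0 : 0 ≤ c ^ 2 * (F t - F s) := by positivity
  rcases le_or_gt r c with hrc | hrc
  · have h1 := sub_le_of_deriv_le (f := I) (g := fun τ => τ) hst (fun τ _ => by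
      refine ⟨_, _, hI τ, hasDerivAt_id τ, ?_⟩
      have := norm_nonneg (y τ)
      rw [div_le_one (by positivity)]
      nlinarith)
    have h2 : Tm * r ≤ Tm * c := mul_le_mul_of_nonneg_left hrc hT.le
    linarith
  · have hr1 : 1 ≤ r := by linarith
    have ha3 : a ^ 2 ≤ 2 := by
      have : 1 / r ≤ 1 := by rw [div_le_one hr]; exact hr1
      linarith
    have hθ : 1 / c * a ^ 2 ≤ 2 / c := by
      rw [div_mul_eq_mul_div, one_mul]; exact div_le_div_of_nonneg_right ha3 hc0.le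
    have hc1 : 2 / c ≤ 2 := div_le_self (by norm_num) hc
    rcases le_or_gt (4 / c) (hh g (y s) (p s)) with hf | hf
    · have h1 := win_lyap A (c := c) (H := 28) hg0 hg hc (by norm_num) hst hI (fun τ hτ => by
        have h2 := abs_le.1 (hb τ hτ)
        constructor
        · have h3 : 2 / c ≤ hh g (y τ) (p τ) := by
            have e : 4 / c = 2 / c + 2 / c := by ring
            linarith [h2.1]
          rwa [div_le_iff₀' hc0] at h3
        · linarith [h2.2])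
      nlinarith
    · have hv : c * (1 / (8 * Tm)) ^ 2 ≥ 32 := by
        have e : c * (1 / (8 * Tm)) ^ 2 = (1 / (8 * Tm)) ^ 2 + 32 := by
          rw [hcdef]; field_simp; ring
        rw [e]; nlinarith [sq_nonneg (1 / (8 * Tm))]
      have hv2 : 32 / c ≤ (1 / (8 * Tm)) ^ 2 := by
        rw [div_le_iff₀' hc0]; exact hv
      have h1 := win_slow A (r := r) (v := 1 / (8 * Tm)) (s := s) (t := t) hg0 hg hr
        (by positivity) (by
          have e : 1 / (8 * Tm) * (Tm * r) = r / 8 := by field_simp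
          rw [← e]
          exact mul_le_mul_of_nonneg_left hts' (by positivity)) h0 (fun τ hτ => by
          have h2 := abs_le.1 (hb τ hτ)
          have h3 : 16 / r ≤ 16 / c := div_le_div_of_nonneg_left (by norm_num) hc0 hrc.le
          have e1 : 4 / c = 2 * (2 / c) := by ring
          have e2 : 16 / c = 8 * (2 / c) := by ring
          have e3 : 32 / c = 16 * (2 / c) := by ring
          have h4 : 0 < 2 / c := by positivity
          linarith [h2.2])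
      have h2 := sub_le_of_deriv_le (f := I) (g := fun τ => 16 / r * τ) hst (fun τ hτ => by
        refine ⟨_, _, hI τ, (hasDerivAt_id τ).const_mul _, ?_⟩
        have h3 := h1 τ hτ
        rw [mul_one, div_le_div_iff₀ (by positivity) hr]
        nlinarith)
      have h3 : 16 / r * t - 16 / r * s ≤ 16 * Tm := by
        rw [← mul_sub]
        have e : 16 / r * (Tm * r) = 16 * Tm := by field_simp
        rw [← e]
        exact mul_le_mul_of_nonneg_left hts' (by positivity)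
      linarith

/-- the integral of the potential -/
lemma win_U (A : Arc g y p F) {U : ℝ → ℝ} {r a M Tm s t : ℝ} (hg0 : 0 ≤ g) (hg : g ≤ 2)
    (hU : ∀ τ, HasDerivAt U (g / ‖y τ‖) τ) (hr : 0 < r) (ha : 1 ≤ a) (ha2 : a ^ 2 = 1 + 1 / r)
    (hM : 1 ≤ M) (hst : s ≤ t) (hts : t - s ≤ Tm * r / a)
    (hb : ∀ τ ∈ Icc s t, |hh g (y τ) (p τ)| ≤ 14 * a ^ 2 ∧ ‖y τ‖ ≤ M * r)
    (hF : F t - F s ≤ a) :
    U t - U s ≤ (13 * M + 28 * Tm) * (r * a) := by
  have hra : r * a ^ 2 = r + 1 := by rw [ha2]; field_simp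
  have hKb : ∀ τ ∈ Icc s t, |dot (y τ) (p τ)| ≤ 6 * M * (r * a) := by
    intro τ hτ
    obtain ⟨h1, h2⟩ := hb τ hτ
    have h3 := win_K_le g (A.ne τ) (p τ)
    have h4 := (abs_le.1 h1).2
    have h5 := norm_nonneg (y τ)
    have h6 : ‖y τ‖ ^ 2 ≤ (M * r) ^ 2 := pow_le_pow_left₀ h5 h2 2
    have h7 : 2 * hh g (y τ) (p τ) * ‖y τ‖ ^ 2 ≤ 28 * a ^ 2 * (M * r) ^ 2 := by
      have : 2 * hh g (y τ) (p τ) * ‖y τ‖ ^ 2 ≤ 28 * a ^ 2 * ‖y τ‖ ^ 2 :=
        mul_le_mul_of_nonneg_right (by linarith) (by positivity)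
      have h8 : 28 * a ^ 2 * ‖y τ‖ ^ 2 ≤ 28 * a ^ 2 * (M * r) ^ 2 :=
        mul_le_mul_of_nonneg_left h6 (by positivity)
      linarith
    have h8 : 2 * g * ‖y τ‖ ≤ 4 * (M * r) := by nlinarith
    have h9 : M * r ≤ M ^ 2 * (r * a) ^ 2 := by
      have e : (r * a) ^ 2 = r * (r + 1) := by rw [← hra]; ring
      rw [e]
      have h10 : M ≤ M ^ 2 := by nlinarith
      have h11 : r ≤ r * (r + 1) := by nlinarith
      exact mul_le_mul h10 h11 hr.le (by positivity)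
    refine abs_le.2 (abs_le_of_sq_le_sq' ?_ (by positivity))
    have e1 : (6 * M * (r * a)) ^ 2 = 36 * (M ^ 2 * (r * a) ^ 2) := by ring
    have e2 : 28 * a ^ 2 * (M * r) ^ 2 = 28 * (M ^ 2 * (r * a) ^ 2) := by ring
    have h12 : 0 ≤ M ^ 2 * (r * a) ^ 2 := by positivity
    linarith
  have key := sub_le_of_deriv_le (f := U)
    (g := fun τ => dot (y τ) (p τ) + 28 * a ^ 2 * τ + M * r * F τ) hst (fun τ hτ => by
      obtain ⟨f, φ, hp, hF, hf⟩ := A.dp τ
      have hK := d_K (A.ne τ) (A.dy τ) hp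
      have hL := (hK.add ((hasDerivAt_id τ).const_mul (28 * a ^ 2))).add (hF.const_mul (M * r))
      refine ⟨_, _, hU τ, hL, ?_⟩
      obtain ⟨h1, h2⟩ := hb τ hτ
      have h3 := (abs_le.1 h1).1
      have h4 : |dot (y τ) f| ≤ M * r * φ :=
        (abs_dot_le _ _).trans (mul_le_mul h2 hf (norm_nonneg _) (by positivity))
      have h5 := (abs_le.1 h4).1
      linarith)
  have k1 := (abs_le.1 (hKb s ⟨le_rfl, hst⟩)).1
  have k2 := (abs_le.1 (hKb t ⟨hst, le_rfl⟩)).2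
  have k3 : 28 * a ^ 2 * (t - s) ≤ 28 * Tm * (r * a) := by
    have e : 28 * a ^ 2 * (Tm * r / a) = 28 * Tm * (r * a) := by field_simp
    rw [← e]
    exact mul_le_mul_of_nonneg_left hts (by positivity)
  have k4 : M * r * (F t - F s) ≤ M * r * a := mul_le_mul_of_nonneg_left hF (by positivity)
  nlinarith

end arc

end Pool.Agent.Lib.MP_e310f3_mp.Gap
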