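import Pool.Agent.Lib.MP_e310f3_mp.Gap.Vir
import Pool.Agent.Lib.MP_e310f3_mp.Gap.WinX

open Complex Filter Topology Set

noncomputable section

namespace Pool.Agent.Lib.MP_e310f3_mp.Gap

private lemma win_h_alg {P r1 r2 R m h g a φ κ : ℝ} (hr1 : 0 < r1) (hr2 : 0 ≤ r2) (hm : 0 < m)
    (hmR : m ≤ R) (hor : R / 2 ≤ r1 ∨ R / 2 ≤ r2) (hh : h ≤ 14 * a ^ 2)
    (hP : P ^ 2 = 2 * h + 2 * g / r1) (ha : 1 ≤ a) (hφ0 : 0 ≤ φ)
    (hφ : φ ≤ κ * (2 / R ^ 2 + 1 / (1 + r2) ^ 2)) (hg0 : 0 ≤ g) (hg : g ≤ 2) (hκ : 0 ≤ κ) :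
    P * φ ≤ 15 * a * φ + κ / a * (6 / m ^ 2 * (g / r1) + 2 * (1 / (1 + r2) ^ 2)) := by
  have ha0 : 0 < a := by linarith
  have hR : 0 < R := by linarith
  have hu : 0 ≤ g / r1 := by positivity
  have h1 : P ≤ 15 * a + g / r1 / a := by
    have e : 2 * g / r1 = 2 * (g / r1) := by ring
    have h2 : P * a ≤ 15 * a * a + g / r1 := by nlinarith [sq_nonneg (P - a)]
    have h3 : P ≤ (15 * a * a + g / r1) / a := by rw [le_div_iff₀ ha0]; exact h2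
    have e2 : (15 * a * a + g / r1) / a = 15 * a + g / r1 / a := by field_simp
    linarith
  have hRm : 1 / R ^ 2 ≤ 1 / m ^ 2 :=
    one_div_le_one_div_of_le (by positivity) (pow_le_pow_left₀ hm.le hmR 2)
  have hq0 : 0 < 1 / (1 + r2) ^ 2 := by positivity
  have h4 : g / r1 * (1 / (1 + r2) ^ 2) ≤ 4 * (1 / m ^ 2) * (g / r1) + 2 * (1 / (1 + r2) ^ 2) := by
    have hm2 : 0 ≤ 4 * (1 / m ^ 2) * (g / r1) := by positivity
    rcases le_or_gt 1 r1 with h5 | h5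
    · have h6 : g / r1 ≤ 2 := (div_le_self hg0 h5).trans hg
      have := mul_le_mul_of_nonneg_right h6 hq0.le
      linarith
    · have h6 : R ≤ 2 * (1 + r2) := by
        rcases hor with h7 | h7 <;> linarith
      have h7 : 1 / (1 + r2) ^ 2 ≤ 4 * (1 / R ^ 2) := by
        rw [mul_one_div, div_le_div_iff₀ (by positivity) (by positivity)]
        have := pow_le_pow_left₀ hR.le h6 2
        nlinarith
      have h8 : 1 / (1 + r2) ^ 2 ≤ 4 * (1 / m ^ 2) := by linarith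
      have := mul_le_mul_of_nonneg_left h8 hu
      nlinarith
  have h5 : g / r1 * (2 / R ^ 2 + 1 / (1 + r2) ^ 2) ≤
      6 / m ^ 2 * (g / r1) + 2 * (1 / (1 + r2) ^ 2) := by
    have e1 : 2 / R ^ 2 = 2 * (1 / R ^ 2) := by ring
    have e2 : 6 / m ^ 2 = 6 * (1 / m ^ 2) := by ring
    have := mul_le_mul_of_nonneg_left hRm hu
    rw [e1, e2]
    nlinarith
  have h6 : g / r1 / a * φ ≤ κ / a * (6 / m ^ 2 * (g / r1) + 2 * (1 / (1 + r2) ^ 2)) := by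
    have h7 : g / r1 / a * φ ≤ g / r1 / a * (κ * (2 / R ^ 2 + 1 / (1 + r2) ^ 2)) :=
      mul_le_mul_of_nonneg_left hφ (by positivity)
    have e : g / r1 / a * (κ * (2 / R ^ 2 + 1 / (1 + r2) ^ 2)) =
        κ / a * (g / r1 * (2 / R ^ 2 + 1 / (1 + r2) ^ 2)) := by ring
    rw [e] at h7
    exact h7.trans (mul_le_mul_of_nonneg_left h5 (by positivity))
  have h7 := mul_le_mul_of_nonneg_right h1 hφ0
  nlinarith

private lemma win_h0 {g r a : ℝ} {y p : ℂ} (hg0 : 0 ≤ g) (hg : g ≤ 2) (hr : 0 < r)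
    (ha2 : a ^ 2 = 1 + 1 / r) (ha : 1 ≤ a) (hy : r / 2 ≤ ‖y‖) (hp : ‖p‖ ≤ 5 * a) :
    |hh g y p| ≤ 13 * a ^ 2 := by
  have hy0 : 0 < ‖y‖ := by linarith
  have h1 : g / ‖y‖ ≤ 4 * (1 / r) := by
    rw [mul_one_div, div_le_div_iff₀ hy0 hr]; nlinarith
  have h2 : 0 ≤ g / ‖y‖ := by positivity
  have h3 : ‖p‖ ^ 2 ≤ (5 * a) ^ 2 := pow_le_pow_left₀ (norm_nonneg p) hp 2
  have h4 := sq_nonneg ‖p‖
  unfold hh
  rw [abs_le]
  constructor <;> nlinarith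

private lemma win_F {κ : ℝ} (S : Sys κ) (hκ : 0 < κ) (hκ1 : κ ≤ 1 / 10) {ϑ Tm s t : ℝ}
    (hϑ : 0 < ϑ) (hT : 0 < Tm) (hst : s ≤ t) (hf : S.Free s t)
    (hw : ∀ τ ∈ Icc s t, ϑ * S.R s ≤ S.R τ) (hts : t - s ≤ Tm * S.R s / S.a s)
    {F I : ℝ → ℝ} {y : ℝ → ℂ} (hI : ∀ τ, HasDerivAt I (1 / (1 + ‖y τ‖) ^ 2) τ)
    (hF : ∀ τ, HasDerivAt F
      (κ ^ 3 * (1 / S.rho τ ^ 2 + 1 / S.R τ ^ 2 + 1 / (1 + ‖y τ‖) ^ 2)) τ) :
    F t - F s ≤ κ * (2 * Tm / ϑ ^ 2 * S.a s + (I t - I s)) := by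
  have hr := S.R_pos s
  have ha := S.one_le_a s
  have ha2 := S.a_sq s
  have key := sub_le_of_deriv_le (f := F)
    (g := fun τ => κ * (2 / (ϑ * S.R s) ^ 2 * τ + I τ)) hst (fun τ hτ => by
      refine ⟨_, _, hF τ, (((hasDerivAt_id τ).const_mul _).add (hI τ)).const_mul κ, ?_⟩
      refine (S.phi_le hκ hκ1 (hf τ hτ) (y τ)).trans (mul_le_mul_of_nonneg_left ?_ hκ.le)
      have h1 : 2 / S.R τ ^ 2 ≤ 2 / (ϑ * S.R s) ^ 2 :=
        div_le_div_of_nonneg_left (by norm_num) (by positivity)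
          (pow_le_pow_left₀ (by positivity) (hw τ hτ) 2)
      linarith)
  refine key.trans ?_
  rw [← mul_sub]
  refine mul_le_mul_of_nonneg_left ?_ hκ.le
  have h1 : 2 / (ϑ * S.R s) ^ 2 * (t - s) ≤ 2 / (ϑ * S.R s) ^ 2 * (Tm * S.R s / S.a s) :=
    mul_le_mul_of_nonneg_left hts (by positivity)
  have e : 2 / (ϑ * S.R s) ^ 2 * (Tm * S.R s / S.a s) =
      2 * Tm / ϑ ^ 2 * (1 / S.R s / S.a s) := by field_simp
  have h2 : 1 / S.R s / S.a s ≤ S.a s := by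
    rw [div_le_iff₀ (by linarith)]; nlinarith
  have h3 : 2 * Tm / ϑ ^ 2 * (1 / S.R s / S.a s) ≤ 2 * Tm / ϑ ^ 2 * S.a s :=
    mul_le_mul_of_nonneg_left h2 (by positivity)
  linarith

private lemma win_core {ϑ Λ Tm : ℝ} (hϑ : 0 < ϑ) (hΛ : 0 < Λ) (hT : 0 < Tm) :
    ∃ θ > 0, ∃ C > 0, ∀ κ : ℝ, 0 < κ → κ ≤ 1 / 10 → κ * C ≤ 1 →
    ∀ (S : Sys κ) (s t : ℝ), s ≤ t → S.Free s t → S.rho s ≤ S.R s / 10 →
    (∀ τ ∈ Icc s t, ϑ * S.R s ≤ S.R τ ∧ S.R τ ≤ Λ * S.R s) → t - s ≤ Tm * S.R s / S.a s →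
    (∀ τ ∈ Icc s t, |S.h1 τ - S.h1 s| ≤ θ * S.a s ^ 2 ∧ |S.h2 τ - S.h2 s| ≤ θ * S.a s ^ 2) →
    |S.h1 t - S.h1 s| ≤ κ * C * S.a s ^ 2 ∧ S.F1 t - S.F1 s ≤ κ * C * S.a s := by
  obtain ⟨θ, hθ, hθ1, CI, hCI, HI⟩ := win_I hT
  set B : ℝ := 2 * Tm / ϑ ^ 2 with hB
  have hB0 : 0 < B := by positivity
  set C2 : ℝ := 13 * (2 * Λ) + 28 * Tm with hC2
  have hC20 : 0 < C2 := by positivity
  have hC21 : 0 < 6 * C2 / ϑ ^ 2 := by positivity
  refine ⟨θ, hθ, 60 * (B + CI) + 6 * C2 / ϑ ^ 2 + 4 * CI, by positivity, ?_⟩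
  intro κ hκ hκ1 hκC S s t hst hf hrho hw hts hb
  have hr := S.R_pos s
  have ha := S.one_le_a s
  have ha2 := S.a_sq s
  have ha0 : 0 < S.a s := by linarith
  have hk4 : κ ^ 4 ≤ 1 := pow_le_one₀ hκ.le (by linarith)
  have hg0 : 0 ≤ 1 + κ ^ 4 := by positivity
  have hg : 1 + κ ^ 4 ≤ 2 := by linarith
  have hcv := S.cv hκ hκ1 (hf s ⟨le_rfl, hst⟩) hrho
  have e1 := win_h0 hg0 hg hr ha2 ha hcv.y1lo hcv.p1
  have e2 := win_h0 hg0 hg hr ha2 ha hcv.y2lo hcv.p2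
  obtain ⟨I1, hI1⟩ := win_primI S.arc1
  obtain ⟨I2, hI2⟩ := win_primI S.arc2
  obtain ⟨U, hU⟩ := win_primU S.arc1
  have i1 := HI _ _ _ _ I1 _ _ s t S.arc1 hg0 hg hI1 hr ha ha2 hst hts hcv.y1lo (abs_le.1 e1).2
    (fun τ hτ => (hb τ hτ).1)
  have i2 := HI _ _ _ _ I2 _ _ s t S.arc2 hg0 hg hI2 hr ha ha2 hst hts hcv.y2lo (abs_le.1 e2).2
    (fun τ hτ => (hb τ hτ).2)
  have f1 := win_F S hκ hκ1 hϑ hT hst hf (fun τ hτ => (hw τ hτ).1) hts hI2 S.dF1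
  have f2 := win_F S hκ hκ1 hϑ hT hst hf (fun τ hτ => (hw τ hτ).1) hts hI1 S.dF2
  rw [← hB] at f1 f2
  have m1 : 0 ≤ S.F1 t - S.F1 s := sub_nonneg.2 (win_mono S.arc1 hst)
  have m2 : 0 ≤ S.F2 t - S.F2 s := sub_nonneg.2 (win_mono S.arc2 hst)
  set a := S.a s with hadef
  set r := S.R s with hrdef
  set D1 := S.F1 t - S.F1 s with hD1
  set D2 := S.F2 t - S.F2 s with hD2
  have k1 : κ * (4 * (B + CI)) ≤ 1 := by
    refine le_trans (mul_le_mul_of_nonneg_left ?_ hκ.le) hκC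
    linarith
  have k2 : κ * CI ≤ 1 / 4 := by
    have : 0 ≤ κ * B := by positivity
    linarith
  have hsum : D1 + D2 ≤ κ * (4 * (B + CI)) * a := by
    have g1 : D1 ≤ κ * (B * a + (CI + CI * D2)) :=
      f1.trans (mul_le_mul_of_nonneg_left (by linarith) hκ.le)
    have g2 : D2 ≤ κ * (B * a + (CI + CI * D1)) :=
      f2.trans (mul_le_mul_of_nonneg_left (by linarith) hκ.le)
    have g3 : κ * CI * (D1 + D2) ≤ 1 / 4 * (D1 + D2) :=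
      mul_le_mul_of_nonneg_right k2 (by linarith)
    have g4 : κ * CI * 1 ≤ κ * CI * a := mul_le_mul_of_nonneg_left ha (by positivity)
    have g5 : 0 ≤ κ * B * a := by positivity
    have g6 : 0 ≤ κ * CI * a := by positivity
    nlinarith
  have hsum' : D1 + D2 ≤ a := by
    have := mul_le_mul_of_nonneg_right k1 ha0.le
    linarith
  have hΛ1 : 1 ≤ Λ := by
    have := (hw s ⟨le_rfl, hst⟩).2
    by_contra hcon
    push Not at hcon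
    nlinarith
  have hθa : θ * a ^ 2 ≤ a ^ 2 := by nlinarith [sq_nonneg a]
  have hb1 : ∀ τ ∈ Icc s t, |hh (1 + κ ^ 4) (S.y1 τ) (S.p1 τ)| ≤ 14 * a ^ 2 := by
    intro τ hτ
    have h1 := abs_le.1 (hb τ hτ).1
    have h2 := abs_le.1 e1
    unfold Sys.h1 at h1
    rw [abs_le]
    constructor <;> linarith [h1.1, h1.2, h2.1, h2.2]
  have u1 := win_U S.arc1 (M := 2 * Λ) hg0 hg hU hr ha ha2 (by linarith) hst hts
    (fun τ hτ => ⟨hb1 τ hτ, by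
      have h1 := S.y1_le hκ hκ1 τ
      have h2 := (hw τ hτ).2
      linarith⟩) (by linarith)
  rw [← hC2] at u1
  have key := abs_sub_le_of_deriv (f := S.h1)
    (g := fun τ => 15 * a * S.F1 τ + κ / a * (6 / (ϑ * r) ^ 2 * U τ + 2 * I2 τ)) hst
    (fun τ hτ => by
      refine ⟨_, _, S.dh1 τ, ((S.dF1 τ).const_mul _).add
        ((((hU τ).const_mul _).add ((hI2 τ).const_mul _)).const_mul _), ?_⟩
      have h1 := S.bf1 τ
      have h0 := (norm_nonneg _).trans h1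
      refine (abs_dot_le _ _).trans ((mul_le_mul_of_nonneg_left h1 (norm_nonneg _)).trans ?_)
      exact win_h_alg (norm_pos_iff.2 (S.ny1 τ)) (norm_nonneg _) (by positivity) (hw τ hτ).1
        (S.y_or hκ hκ1 τ) (abs_le.1 (hb1 τ hτ)).2 (normSq_p _ _ _) ha h0
        (S.phi_le hκ hκ1 (hf τ hτ) _) hg0 hg hκ.le)
  have e3 : 15 * a * S.F1 t + κ / a * (6 / (ϑ * r) ^ 2 * U t + 2 * I2 t) -
      (15 * a * S.F1 s + κ / a * (6 / (ϑ * r) ^ 2 * U s + 2 * I2 s)) =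
      15 * a * D1 + κ / a * (6 / (ϑ * r) ^ 2 * (U t - U s) + 2 * (I2 t - I2 s)) := by
    rw [hD1]; ring
  rw [e3] at key
  have t1 : 15 * a * D1 ≤ κ * (60 * (B + CI)) * a ^ 2 := by
    have : 15 * a * D1 ≤ 15 * a * (κ * (4 * (B + CI)) * a) :=
      mul_le_mul_of_nonneg_left (by linarith) (by positivity)
    linarith
  have t2 : I2 t - I2 s ≤ 2 * CI * a := by
    have g1 : CI * D2 ≤ CI * a := mul_le_mul_of_nonneg_left (by linarith) hCI.le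
    have g2 : CI * 1 ≤ CI * a := mul_le_mul_of_nonneg_left ha hCI.le
    linarith
  have t3 : 6 / (ϑ * r) ^ 2 * (U t - U s) ≤ 6 * C2 / ϑ ^ 2 * a ^ 2 * a := by
    have g1 : 6 / (ϑ * r) ^ 2 * (U t - U s) ≤ 6 / (ϑ * r) ^ 2 * (C2 * (r * a)) :=
      mul_le_mul_of_nonneg_left u1 (by positivity)
    have g2 : 6 / (ϑ * r) ^ 2 * (C2 * (r * a)) = 6 * C2 / ϑ ^ 2 * (1 / r) * a := by field_simp
    have g3 : 6 * C2 / ϑ ^ 2 * (1 / r) * a ≤ 6 * C2 / ϑ ^ 2 * a ^ 2 * a :=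
      mul_le_mul_of_nonneg_right (mul_le_mul_of_nonneg_left (by linarith) hC21.le) ha0.le
    linarith
  have t4 : κ / a * (6 / (ϑ * r) ^ 2 * (U t - U s) + 2 * (I2 t - I2 s)) ≤
      κ * (6 * C2 / ϑ ^ 2 + 4 * CI) * a ^ 2 := by
    have g1 : κ / a * (6 / (ϑ * r) ^ 2 * (U t - U s) + 2 * (I2 t - I2 s)) ≤
        κ / a * (6 * C2 / ϑ ^ 2 * a ^ 2 * a + 4 * CI * a) :=
      mul_le_mul_of_nonneg_left (by linarith) (by positivity)
    have g2 : κ / a * (6 * C2 / ϑ ^ 2 * a ^ 2 * a + 4 * CI * a) =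
        κ * (6 * C2 / ϑ ^ 2) * a ^ 2 + κ * (4 * CI) * 1 := by field_simp
    have g3 : κ * (4 * CI) * 1 ≤ κ * (4 * CI) * a ^ 2 :=
      mul_le_mul_of_nonneg_left (by nlinarith) (by positivity)
    linarith
  refine ⟨by linarith, ?_⟩
  have g1 : κ * (4 * (B + CI)) * a ≤ κ * (60 * (B + CI) + 6 * C2 / ϑ ^ 2 + 4 * CI) * a :=
    mul_le_mul_of_nonneg_right (mul_le_mul_of_nonneg_left (by linarith) hκ.le) ha0.le
  linarith

/-- energies and forces in a bounded window after an encounter -/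
theorem wh {ϑ Λ Tm e : ℝ} (hϑ : 0 < ϑ) (hΛ : 0 < Λ) (hT : 0 < Tm) (he : 0 < e) : Small fun κ =>
    ∀ (S : Sys κ) (s t : ℝ), s ≤ t → S.Free s t → S.rho s ≤ S.R s / 10 →
    (∀ τ ∈ Icc s t, ϑ * S.R s ≤ S.R τ ∧ S.R τ ≤ Λ * S.R s) → t - s ≤ Tm * S.R s / S.a s →
    (∀ τ ∈ Icc s t, |S.h1 τ - S.h1 s| ≤ e * S.a s ^ 2 ∧ |S.h2 τ - S.h2 s| ≤ e * S.a s ^ 2) ∧
      S.F1 t - S.F1 s ≤ e * S.a s ∧ S.F2 t - S.F2 s ≤ e * S.a s := by
  obtain ⟨θ, hθ, C, hC, H⟩ := win_core hϑ hΛ hT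
  set θ' : ℝ := min (min θ e) 1 with hθ'
  have hθ'0 : 0 < θ' := lt_min (lt_min hθ he) one_pos
  have hθ'1 : θ' ≤ θ := (min_le_left _ _).trans (min_le_left _ _)
  have hθ'2 : θ' ≤ e := (min_le_left _ _).trans (min_le_right _ _)
  have hθ'3 : θ' ≤ 1 := min_le_right _ _
  refine ((small_le (c := 1 / 10) (by norm_num)).and
    (small_le (c := θ' / (2 * C)) (by positivity))).mono ?_
  rintro κ ⟨⟨hκ, hκ1⟩, -, hκ2⟩ S s t hst hf hrho hw hts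
  have hκC : κ * C ≤ θ' / 2 := by
    rw [le_div_iff₀ (by positivity)] at hκ2
    linarith
  have ha := S.one_le_a s
  have ha0 : 0 < S.a s := by linarith
  have ha2 : 0 < S.a s ^ 2 := by positivity
  have both : ∀ τ ∈ Icc s t,
      (∀ σ ∈ Icc s τ, |S.h1 σ - S.h1 s| ≤ θ' * S.a s ^ 2 ∧ |S.h2 σ - S.h2 s| ≤ θ' * S.a s ^ 2) →
      (|S.h1 τ - S.h1 s| ≤ κ * C * S.a s ^ 2 ∧ S.F1 τ - S.F1 s ≤ κ * C * S.a s) ∧
      (|S.h2 τ - S.h2 s| ≤ κ * C * S.a s ^ 2 ∧ S.F2 τ - S.F2 s ≤ κ * C * S.a s) := by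
    intro τ hτ hb
    have hsub : ∀ σ ∈ Icc s τ, σ ∈ Icc s t := fun σ hσ => ⟨hσ.1, hσ.2.trans hτ.2⟩
    have hf' : S.Free s τ := fun σ hσ => hf σ (hsub σ hσ)
    have hts' : τ - s ≤ Tm * S.R s / S.a s := by linarith [hτ.2]
    have hm : θ' * S.a s ^ 2 ≤ θ * S.a s ^ 2 := mul_le_mul_of_nonneg_right hθ'1 ha2.le
    have hb' : ∀ σ ∈ Icc s τ,
        |S.h1 σ - S.h1 s| ≤ θ * S.a s ^ 2 ∧ |S.h2 σ - S.h2 s| ≤ θ * S.a s ^ 2 :=
      fun σ hσ => ⟨(hb σ hσ).1.trans hm, (hb σ hσ).2.trans hm⟩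
    refine ⟨H κ hκ hκ1 (by linarith) S s τ hτ.1 hf' hrho (fun σ hσ => hw σ (hsub σ hσ)) hts' hb',
      ?_⟩
    have := H κ hκ hκ1 (by linarith) S.swap s τ hτ.1 (S.toSol.swap_free hf') (by simpa using hrho)
      (fun σ hσ => by simpa using hw σ (hsub σ hσ)) (by simpa using hts')
      (fun σ hσ => by simpa using (hb' σ hσ).symm)
    simpa using this
  have hlt : κ * C * S.a s ^ 2 < θ' * S.a s ^ 2 := mul_lt_mul_of_pos_right (by linarith) ha2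
  have key := boot (ι := Bool)
    (fun i τ => (if i then |S.h1 τ - S.h1 s| else |S.h2 τ - S.h2 s|) - θ' * S.a s ^ 2)
    (s := s) (t := t)
    (fun i => by
      cases i
      · exact (((S.continuous_h2.sub continuous_const).abs).sub continuous_const).continuousOn
      · exact (((S.continuous_h1.sub continuous_const).abs).sub continuous_const).continuousOn)
    (fun i => by
      have : 0 < θ' * S.a s ^ 2 := by positivity
      cases i <;> simp <;> linarith)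
    (fun τ hτ hyp i => by
      have h1 := both τ hτ (fun σ hσ => ⟨by simpa using hyp σ hσ true, by simpa using hyp σ hσ false⟩)
      cases i
      · have := h1.2.1
        simp only [Bool.false_eq_true, if_false]
        linarith
      · have := h1.1.1
        simp only [if_true]
        linarith)
  have hall : ∀ σ ∈ Icc s t,
      |S.h1 σ - S.h1 s| ≤ θ' * S.a s ^ 2 ∧ |S.h2 σ - S.h2 s| ≤ θ' * S.a s ^ 2 :=
    fun σ hσ => ⟨by simpa using key σ hσ true, by simpa using key σ hσ false⟩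
  have hm : θ' * S.a s ^ 2 ≤ e * S.a s ^ 2 := mul_le_mul_of_nonneg_right hθ'2 ha2.le
  have hm2 : κ * C * S.a s ≤ e * S.a s := mul_le_mul_of_nonneg_right (by linarith) ha0.le
  have fin := both t ⟨hst, le_rfl⟩ hall
  exact ⟨fun σ hσ => ⟨(hall σ hσ).1.trans hm, (hall σ hσ).2.trans hm⟩, fin.1.2.trans hm2,
    fin.2.2.trans hm2⟩

end Pool.Agent.Lib.MP_e310f3_mp.Gap
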