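import Pool.Agent.Lib.MP_e310f3_mp.Gap.NL
import Pool.Agent.Lib.MP_e310f3_mp.Gap.Win

open Complex Filter Topology Set

noncomputable section

namespace Pool.Agent.Lib.MP_e310f3_mp.Gap

private lemma all_ra {κ : ℝ} (S : Sys κ) (s : ℝ) : S.R s * S.a s ^ 2 = S.R s + 1 := by
  have h := S.R_pos s
  rw [S.a_sq s]
  field_simp

private lemma all_free {κ : ℝ} {S : Sys κ} {s t u : ℝ} (h : S.Free s t) (hu : u ≤ t) :
    S.Free s u := fun τ hτ => h τ ⟨hτ.1, hτ.2.trans hu⟩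

private lemma all_dot (p1 p2 u1 u2 : ℂ) :
    |dot p1 p2 - dot u1 u2| ≤ ‖p1 - u1‖ * ‖p2‖ + ‖u1‖ * ‖p2 - u2‖ := by
  have e : dot p1 p2 - dot u1 u2 = dot (p1 - u1) p2 + dot u1 (p2 - u2) := by
    simp only [dot, sub_re, sub_im]
    ring
  rw [e]
  exact (abs_add_le _ _).trans (add_le_add (abs_dot_le _ _) (abs_dot_le _ _))

private lemma all_dot_cv {κ : ℝ} {S : Sys κ} {t : ℝ} (hκ : 0 < κ) (h : S.CV t) :
    |dot (S.p1 t) (S.p2 t) - dot (S.u1 t) (S.u2 t)| ≤ 9 * κ * S.a t ^ 2 := by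
  have ha : 0 < S.a t := lt_of_lt_of_le one_pos (S.one_le_a t)
  have h1 : ‖S.p1 t - S.u1 t‖ * ‖S.p2 t‖ ≤ κ * S.a t * (5 * S.a t) :=
    mul_le_mul h.pu1 h.p2 (norm_nonneg _) (by positivity)
  have h2 : ‖S.u1 t‖ * ‖S.p2 t - S.u2 t‖ ≤ 4 * S.a t * (κ * S.a t) :=
    mul_le_mul h.u1 h.pu2 (norm_nonneg _) (by positivity)
  have h3 := all_dot (S.p1 t) (S.p2 t) (S.u1 t) (S.u2 t)
  nlinarith

/-- The two light bodies form a pair of perturbed Kepler arcs on a bounded window. -/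
private lemma all_pair {η ϑ Λ Tm e : ℝ} (hη : 0 < η) (hϑ : 0 < ϑ) (hΛ : 0 < Λ) (hT : 0 < Tm)
    (he : 0 < e) : Small fun κ => ∀ (S : Sys κ) (s t : ℝ), s ≤ t → S.Free s t →
    S.rho s ≤ S.R s / 10 → S.rho s ≤ e / 2 * S.R s → η * S.a s ≤ ‖S.u1 s - S.u2 s‖ →
    (∀ τ ∈ Icc s t, ϑ * S.R s ≤ S.R τ ∧ S.R τ ≤ Λ * S.R s) → t - s ≤ Tm * S.R s / S.a s →
    Pair (1 + κ ^ 4) (S.R s) (S.a s) (η / 2) Tm e S.y1 S.p1 S.F1 S.y2 S.p2 S.F2 s t := by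
  refine ((((wh hϑ hΛ hT he).and (small_le (c := 1 / 10) (by norm_num))).and
    (small_le (c := e / 2) (by positivity))).and (small_le (c := η / 4) (by positivity))).mono ?_
  rintro κ ⟨⟨⟨hw, hκ, hκ1⟩, -, hκe⟩, -, hκη⟩ S s t hst hf h10 hρ hu hR ht
  have hr := S.R_pos s
  have ha1 := S.one_le_a s
  have ha : 0 < S.a s := lt_of_lt_of_le one_pos ha1
  have cv := S.cv hκ hκ1 (hf s ⟨le_rfl, hst⟩) h10
  obtain ⟨w1, w2, w3⟩ := hw S s t hst hf h10 hR ht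
  have k4 : κ ^ 4 ≤ 1 := pow_le_one₀ hκ.le (by linarith)
  refine ⟨S.arc1, S.arc2, by positivity, hr, ha, ?_, hst, ht, cv.y1lo, cv.y1hi, ?_, cv.p1, cv.p2,
    ?_, ?_, fun τ hτ => (w1 τ hτ).1, fun τ hτ => (w1 τ hτ).2, w2, w3⟩
  · have h1 := all_ra S s
    nlinarith
  · have h1 := cv.y12
    have h2 : κ * S.R s ≤ e / 2 * S.R s := mul_le_mul_of_nonneg_right hκe hr.le
    linarith
  · have h1 : ‖S.u1 s - S.u2 s‖ ≤
        ‖S.p1 s - S.p2 s‖ + ‖S.p1 s - S.u1 s‖ + ‖S.p2 s - S.u2 s‖ := by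
      have e1 : S.u1 s - S.u2 s = (S.p1 s - S.p2 s) - (S.p1 s - S.u1 s) + (S.p2 s - S.u2 s) := by
        ring
      rw [e1]
      exact (norm_add_le _ _).trans (add_le_add_left (norm_sub_le _ _) _)
    have h2 : κ * S.a s ≤ η / 4 * S.a s := mul_le_mul_of_nonneg_right hκη ha.le
    have h3 := cv.pu1
    have h4 := cv.pu2
    linarith
  · have h1 := (abs_le.1 cv.hsum).1
    have h2 : κ * S.a s ^ 2 ≤ e * S.a s ^ 2 :=
      mul_le_mul_of_nonneg_right (by linarith) (by positivity)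
    change -(e * S.a s ^ 2) ≤ S.h1 s + S.h2 s
    linarith

theorem all_a {η : ℝ} (hη : 0 < η) : ∃ c > 0, ∃ e > 0, Small fun κ => ∀ (S : Sys κ) (s t : ℝ),
    s ≤ t → S.Free s t → S.rho s ≤ e * S.R s → η * S.a s ≤ ‖S.u1 s - S.u2 s‖ →
    ∀ τ ∈ Icc s t, c * S.R s ≤ S.R τ := by
  obtain ⟨c0, hc0, e0, he0, hnl⟩ := nl_a (η := η / 2) (Tm := 8) (by positivity) (by norm_num)
  obtain ⟨c, hc, hc1, hc2⟩ : ∃ c : ℝ, 0 < c ∧ c ≤ 1 / 2 ∧ c ≤ c0 / 16 :=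
    ⟨min (1 / 2) (c0 / 16), by positivity, min_le_left _ _, min_le_right _ _⟩
  obtain ⟨e, he, he1, he2⟩ : ∃ e : ℝ, 0 < e ∧ e ≤ 1 / 10 ∧ e ≤ e0 / 2 :=
    ⟨min (1 / 10) (e0 / 2), by positivity, min_le_left _ _, min_le_right _ _⟩
  refine ⟨c, hc, e, he, ((all_pair (ϑ := c) (Λ := 1) (Tm := 8) hη hc one_pos (by norm_num)
    he0).and (small_le (c := 1 / 10) (by norm_num))).mono ?_⟩
  rintro κ ⟨hp, hκ, hκ1⟩ S s t hst hf hρ hu τ hτ
  have hr := S.R_pos s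
  have ha1 := S.one_le_a s
  have ha : 0 < S.a s := lt_of_lt_of_le one_pos ha1
  by_contra hlt
  have hcr : c * S.R s < S.R s := by nlinarith
  obtain ⟨u, hu1, hu2, hu3⟩ := exists_first (G := fun σ => c * S.R s - S.R σ) hτ.1
    (continuous_const.sub S.continuous_R).continuousOn (by linarith) (by linarith [not_le.1 hlt])
  have hut : u ≤ t := hu1.2.trans hτ.2
  have hu0 : u ≤ S.t0 := by
    by_contra h0
    rcases le_total s S.t0 with h1 | h1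
    · have h2 := hu3 S.t0 ⟨h1, not_le.1 h0⟩
      have h3 := S.R_min u
      linarith
    · have h2 := S.R_mono h1 hu1.1.le
      linarith
  have h10 : S.rho s ≤ S.R s / 10 := by
    have := mul_le_mul_of_nonneg_right he1 hr.le
    linarith
  have cv := S.cv hκ hκ1 (hf s ⟨le_rfl, hst⟩) h10
  have hRle : ∀ σ ∈ Icc s u, S.R σ ≤ S.R s := fun σ hσ => S.R_anti hσ.1 (hσ.2.trans hu0)
  have htime : u - s ≤ 8 * S.R s / S.a s := by
    have h1 := S.timeJ hu1.1.le hRle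
    have h2 := S.J_nonpos hu0
    have h3 := (abs_le.1 cv.J).1
    rw [← S.a_sq s] at h1
    rw [le_div_iff₀ ha]
    have h4 : (u - s) * S.a s * S.a s ≤ 8 * S.R s * S.a s := by nlinarith
    exact le_of_mul_le_mul_right h4 ha
  have hP := hp S s u hu1.1.le (all_free hf hut) h10
    (hρ.trans (mul_le_mul_of_nonneg_right he2 hr.le)) hu (fun σ hσ => ⟨?_, ?_⟩) htime
  · have h1 := hnl _ _ _ _ _ _ _ _ _ _ _ hP
    have h2 := S.y1_le hκ hκ1 u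
    have h3 := S.y2_le hκ hκ1 u
    have h4 : S.R u = c * S.R s := by linarith
    rw [h4] at h2 h3
    have h5 : ‖S.y1 u‖ ^ 2 ≤ (2 * (c * S.R s)) ^ 2 := pow_le_pow_left₀ (norm_nonneg _) h2 2
    have h6 : ‖S.y2 u‖ ^ 2 ≤ (2 * (c * S.R s)) ^ 2 := pow_le_pow_left₀ (norm_nonneg _) h3 2
    have h7 : 8 * c ^ 2 < c0 := by nlinarith
    have h8 : 8 * c ^ 2 * S.R s ^ 2 < c0 * S.R s ^ 2 :=
      mul_lt_mul_of_pos_right h7 (by positivity)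
    nlinarith
  · rcases hσ.2.eq_or_lt with h | h
    · rw [h]
      linarith
    · have := hu3 σ ⟨hσ.1, h⟩
      linarith
  · rw [one_mul]
    exact hRle σ hσ

/-- The window between two encounters of comparable size. -/
private lemma all_win {η Λ e0 : ℝ} (hη : 0 < η) (hΛ : 1 ≤ Λ) (he0 : 0 < e0) : ∃ e > 0,
    Small fun κ => ∀ (S : Sys κ) (s t : ℝ), s ≤ t → S.Free s t → S.rho s ≤ e * S.R s →
    η * S.a s ≤ ‖S.u1 s - S.u2 s‖ → S.rho t ≤ e * S.R t → S.R t ≤ Λ * S.R s →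
    Pair (1 + κ ^ 4) (S.R s) (S.a s) (η / 2) (16 * Λ ^ 2) e0 S.y1 S.p1 S.F1 S.y2 S.p2 S.F2 s t ∧
      ‖S.y1 t - S.y2 t‖ ≤ e0 * S.R s ∧ S.CV s ∧ S.CV t := by
  have hΛ0 : 0 < Λ := lt_of_lt_of_le one_pos hΛ
  obtain ⟨c, hc, ea, hea, ha⟩ := all_a hη
  obtain ⟨e, he, he1, he2, he3⟩ : ∃ e : ℝ, 0 < e ∧ e ≤ 1 / 10 ∧ e ≤ e0 / (2 * Λ) ∧ e ≤ ea :=
    ⟨min (1 / 10) (min (e0 / (2 * Λ)) ea), by positivity, min_le_left _ _,
      (min_le_right _ _).trans (min_le_left _ _), (min_le_right _ _).trans (min_le_right _ _)⟩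
  have hq : e0 / (2 * Λ) * Λ = e0 / 2 := by field_simp
  have hq2 : e0 / (2 * Λ) ≤ e0 / 2 :=
    div_le_div_of_nonneg_left he0.le (by norm_num) (by linarith)
  refine ⟨e, he, ((((all_pair (ϑ := c) (Λ := Λ) (Tm := 16 * Λ ^ 2) hη hc hΛ0 (by positivity)
    he0).and ha).and (small_le (c := 1 / 10) (by norm_num))).and
      (small_le (c := e0 / (2 * Λ)) (by positivity))).mono ?_⟩
  rintro κ ⟨⟨⟨hp, ha⟩, hκ, hκ1⟩, -, hκe⟩ S s t hst hf hρ hu hρt hRt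
  have hr := S.R_pos s
  have hrt := S.R_pos t
  have ha1 := S.one_le_a s
  have ha0 : 0 < S.a s := lt_of_lt_of_le one_pos ha1
  have h10 : S.rho s ≤ S.R s / 10 := by
    have := mul_le_mul_of_nonneg_right he1 hr.le
    linarith
  have h10t : S.rho t ≤ S.R t / 10 := by
    have := mul_le_mul_of_nonneg_right he1 hrt.le
    linarith
  have cvs := S.cv hκ hκ1 (hf s ⟨le_rfl, hst⟩) h10
  have cvt := S.cv hκ hκ1 (hf t ⟨hst, le_rfl⟩) h10t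
  have hrΛ : S.R s ≤ Λ * S.R s := le_mul_of_one_le_left hr.le hΛ
  have hRle : ∀ σ ∈ Icc s t, S.R σ ≤ Λ * S.R s := fun σ hσ =>
    (S.R_le_max hσ).trans (max_le hrΛ hRt)
  have htime : t - s ≤ 16 * Λ ^ 2 * S.R s / S.a s := by
    have h1 := S.timeJ hst hRle
    have h2 := (abs_le.1 cvs.J).1
    have h3 := (abs_le.1 cvt.J).2
    have h4 : S.R t * S.a t ≤ Λ * (S.R s * S.a s) := mul_aa_le_mul hrt hr hΛ hRt
    have h5 : S.R s * S.a s ≤ Λ * (S.R s * S.a s) := le_mul_of_one_le_left (by positivity) hΛ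
    have h6 : S.a s ^ 2 ≤ Λ * (1 + 1 / (Λ * S.R s)) := by
      have e1 : Λ * (1 + 1 / (Λ * S.R s)) = Λ + 1 / S.R s := by field_simp
      rw [e1, S.a_sq s]
      linarith
    have h7 : (t - s) * S.a s ^ 2 ≤ Λ * ((t - s) * (1 + 1 / (Λ * S.R s))) := by
      have := mul_le_mul_of_nonneg_left h6 (sub_nonneg.2 hst)
      linarith
    have h8 : Λ * ((t - s) * (1 + 1 / (Λ * S.R s))) ≤ Λ * (16 * (Λ * (S.R s * S.a s))) :=
      mul_le_mul_of_nonneg_left (by linarith) hΛ0.le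
    rw [le_div_iff₀ ha0]
    have h9 : (t - s) * S.a s * S.a s ≤ 16 * Λ ^ 2 * S.R s * S.a s := by nlinarith
    exact le_of_mul_le_mul_right h9 ha0
  refine ⟨hp S s t hst hf h10 (hρ.trans (mul_le_mul_of_nonneg_right (he2.trans hq2) hr.le)) hu
    (fun σ hσ => ⟨ha S s t hst hf (hρ.trans (mul_le_mul_of_nonneg_right he3 hr.le)) hu σ hσ,
      hRle σ hσ⟩) htime, ?_, cvs, cvt⟩
  have h1 := cvt.y12
  have h2 : e * S.R t ≤ e0 / (2 * Λ) * (Λ * S.R s) := mul_le_mul he2 hRt hrt.le (by positivity)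
  have h3 : κ * S.R t ≤ e0 / (2 * Λ) * (Λ * S.R s) := mul_le_mul hκe hRt hrt.le (by positivity)
  rw [← mul_assoc, hq] at h2 h3
  linarith

private lemma all_st {κ τ0 : ℝ} {S : Sys κ} {s t : ℝ} (hτ : 0 < τ0)
    (h : s + τ0 * S.R s / S.a s ≤ t) : s ≤ t := by
  have hr := S.R_pos s
  have ha : 0 < S.a s := lt_of_lt_of_le one_pos (S.one_le_a s)
  have : 0 < τ0 * S.R s / S.a s := by positivity
  linarith

theorem all_b {η τ0 : ℝ} (hη : 0 < η) (hτ : 0 < τ0) : ∃ c > 0, ∃ e > 0, Small fun κ =>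
    ∀ (S : Sys κ) (s t : ℝ), S.Free s t → S.rho s ≤ e * S.R s →
    η * S.a s ≤ ‖S.u1 s - S.u2 s‖ → s + τ0 * S.R s / S.a s ≤ t → S.rho t ≤ e * S.R t →
    c * (S.R t * S.a t) ≤ S.J t := by
  obtain ⟨c0, hc0, e0, he0, hnl⟩ := nl_b (η := η / 2) (Tm := 16 * 2 ^ 2) (by positivity)
    (by norm_num) hτ
  obtain ⟨e, he, hw⟩ := all_win (Λ := 2) hη (by norm_num) he0
  obtain ⟨c, hc, hc1, hc2⟩ : ∃ c : ℝ, 0 < c ∧ c ≤ 4 / 5 ∧ c ≤ c0 / 4 :=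
    ⟨min (4 / 5) (c0 / 4), by positivity, min_le_left _ _, min_le_right _ _⟩
  refine ⟨c, hc, e, he, (hw.and (small_le (c := c0 / 4) (by positivity))).mono ?_⟩
  rintro κ ⟨hw, hκ, hκc⟩ S s t hf hρ hu ht hρt
  have hst := all_st hτ ht
  have hr := S.R_pos s
  have hrt := S.R_pos t
  have hat : 0 < S.a t := lt_of_lt_of_le one_pos (S.one_le_a t)
  have hN : 0 < S.R t * S.a t := by positivity
  by_cases hfar : S.t0 ≤ t ∧ 2 * S.R S.t0 ≤ S.R t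
  · exact (mul_le_mul_of_nonneg_right hc1 hN.le).trans (S.vir_far hfar.1 hfar.2)
  have hRt : S.R t ≤ 2 * S.R s := by
    rcases le_total S.t0 t with h | h
    · have h1 := not_le.1 fun h2 => hfar ⟨h, h2⟩
      have h2 := S.R_min s
      linarith
    · have := S.R_anti hst h
      linarith
  obtain ⟨hP, hy, -, cvt⟩ := hw S s t hst hf hρ hu hρt hRt
  have h1 := hnl _ _ _ _ _ _ _ _ _ _ _ hP ht hy
  have h2 := (abs_le.1 cvt.JK).1
  have h3 : S.R t * S.a t ≤ 2 * (S.R s * S.a s) := mul_aa_le_mul hrt hr (by norm_num) hRt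
  have h4 : κ * (S.R t * S.a t) ≤ c0 / 4 * (S.R t * S.a t) := mul_le_mul_of_nonneg_right hκc hN.le
  have h5 : c * (S.R t * S.a t) ≤ c0 / 4 * (S.R t * S.a t) := mul_le_mul_of_nonneg_right hc2 hN.le
  have h6 : c0 / 2 * (S.R t * S.a t) ≤ c0 / 2 * (2 * (S.R s * S.a s)) :=
    mul_le_mul_of_nonneg_left h3 (by positivity)
  change c0 * (S.R s * S.a s) ≤ S.K1 t + S.K2 t at h1
  linarith

theorem all_c {η τ0 Λ ϑ : ℝ} (hη : 0 < η) (hτ : 0 < τ0) (hΛ : 1 ≤ Λ) (hϑ : 0 < ϑ) : ∃ e > 0,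
    Small fun κ => ∀ (S : Sys κ) (s t : ℝ), S.Free s t → S.rho s ≤ e * S.R s →
    η * S.a s ≤ ‖S.u1 s - S.u2 s‖ → s + τ0 * S.R s / S.a s ≤ t → S.rho t ≤ e * S.R t →
    S.R t ≤ Λ * S.R s → S.J s ≤ ϑ * (S.R s * S.a s) := by
  have hΛ0 : 0 < Λ := lt_of_lt_of_le one_pos hΛ
  obtain ⟨e0, he0, hnl⟩ := nl_c (η := η / 2) (Tm := 16 * Λ ^ 2) (ϑ := ϑ / 2) (by positivity)
    (by positivity) hτ (by positivity)
  obtain ⟨e, he, hw⟩ := all_win hη hΛ he0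
  refine ⟨e, he, (hw.and (small_le (c := ϑ / 2) (by positivity))).mono ?_⟩
  rintro κ ⟨hw, hκ, hκc⟩ S s t hf hρ hu ht hρt hRt
  have hst := all_st hτ ht
  have hr := S.R_pos s
  have ha : 0 < S.a s := lt_of_lt_of_le one_pos (S.one_le_a s)
  obtain ⟨hP, hy, cvs, -⟩ := hw S s t hst hf hρ hu hρt hRt
  have h1 := hnl _ _ _ _ _ _ _ _ _ _ _ hP ht hy
  have h2 := (abs_le.1 cvs.JK).2
  have h4 : κ * (S.R s * S.a s) ≤ ϑ / 2 * (S.R s * S.a s) :=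
    mul_le_mul_of_nonneg_right hκc (by positivity)
  change S.K1 s + S.K2 s ≤ ϑ / 2 * (S.R s * S.a s) at h1
  linarith

private lemma all_num {A B κ : ℝ} (hκ : 0 < κ) (hκ1 : κ ≤ 1 / 100000)
    (hA : A ^ 2 ≤ 29 / 10 * (1 + κ ^ 4) ^ 2) (hB : |A - B| ≤ 20 * κ) : B ^ 2 ≤ 2905 / 1000 := by
  have k1 : κ ^ 4 ≤ (1 / 100000) ^ 4 := pow_le_pow_left₀ hκ.le hκ1 4
  have k0 : 0 ≤ κ ^ 4 := by positivity
  have n1 : ((1 : ℝ) / 100000) ^ 4 ≤ 1 / 100000 := by norm_num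
  have n2 : (29 : ℝ) / 10 * (1 + 1 / 100000) ^ 2 ≤ (17031 / 10000) ^ 2 := by norm_num
  have n3 : ((1704 : ℝ) / 1000) ^ 2 ≤ 2905 / 1000 := by norm_num
  have k2 : (1 + κ ^ 4) ^ 2 ≤ (1 + 1 / 100000) ^ 2 :=
    pow_le_pow_left₀ (by positivity) (by linarith) 2
  have h1 : A ^ 2 ≤ (17031 / 10000) ^ 2 := by linarith
  have h2 := abs_le_of_sq_le_sq' h1 (by norm_num)
  have h3 := abs_le.1 hB
  have h4 : B ^ 2 ≤ (1704 / 1000) ^ 2 := sq_le_sq' (by linarith) (by linarith)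
  linarith

theorem all_d {η τ0 Λ : ℝ} (hη : 0 < η) (hτ : 0 < τ0) (hΛ : 1 ≤ Λ) : ∃ e > 0,
    Small fun κ => ∀ (S : Sys κ) (s t : ℝ), S.Free s t → S.rho s ≤ e * S.R s →
    η * S.a s ≤ ‖S.u1 s - S.u2 s‖ → s + τ0 * S.R s / S.a s ≤ t → S.rho t ≤ e * S.R t →
    S.R t ≤ Λ * S.R s → S.R s ≤ e → |S.R s * dot (S.u1 s) (S.u2 s)| ≤ e →
    (‖S.x1 t‖ * dot (S.u1 t) (S.u2 t)) ^ 2 ≤ 2905 / 1000 := by
  have hΛ0 : 0 < Λ := lt_of_lt_of_le one_pos hΛ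
  obtain ⟨e0, he0, hnl⟩ := nl_d (η := η / 2) (Tm := 16 * Λ ^ 2) (by positivity)
    (by positivity) hτ
  obtain ⟨e1, he1, hw⟩ := all_win hη hΛ he0
  obtain ⟨e, he, hb1, hb2, hb3⟩ : ∃ e : ℝ, 0 < e ∧ e ≤ e1 ∧ e ≤ e0 / 2 ∧ e ≤ 1 / Λ :=
    ⟨min e1 (min (e0 / 2) (1 / Λ)), by positivity, min_le_left _ _,
      (min_le_right _ _).trans (min_le_left _ _), (min_le_right _ _).trans (min_le_right _ _)⟩
  refine ⟨e, he, ((hw.and (small_le (c := e0 / 18) (by positivity))).and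
    (small_le (c := 1 / 100000) (by norm_num))).mono ?_⟩
  rintro κ ⟨⟨hw, hκ, hκe⟩, -, hκ1⟩ S s t hf hρ hu ht hρt hRt hRs hd
  have hst := all_st hτ ht
  have hr := S.R_pos s
  have hrt := S.R_pos t
  have ha : 0 < S.a s := lt_of_lt_of_le one_pos (S.one_le_a s)
  have hat : 0 < S.a t := lt_of_lt_of_le one_pos (S.one_le_a t)
  obtain ⟨hP, hy, cvs, cvt⟩ := hw S s t hst hf
    (hρ.trans (mul_le_mul_of_nonneg_right hb1 hr.le)) hu
    (hρt.trans (mul_le_mul_of_nonneg_right hb1 hrt.le)) hRt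
  have hra := all_ra S s
  have hrat := all_ra S t
  have ha2 : 0 < S.a s ^ 2 := by positivity
  have hΛe : Λ * e ≤ 1 := by
    have := mul_le_mul_of_nonneg_left hb3 hΛ0.le
    rwa [mul_one_div_cancel hΛ0.ne'] at this
  have hRt1 : S.R t ≤ 1 := hRt.trans ((mul_le_mul_of_nonneg_left hRs hΛ0.le).trans hΛe)
  have hRs1 : S.R s ≤ 1 := by nlinarith
  have k0 : 0 ≤ κ ^ 4 := by positivity
  have g1 : 1 ≤ e0 / 2 * S.a s ^ 2 := by
    have := mul_le_mul_of_nonneg_right (hRs.trans hb2) ha2.le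
    linarith
  have g2 : 9 * κ * S.a s ^ 2 ≤ e0 / 2 * S.a s ^ 2 :=
    mul_le_mul_of_nonneg_right (by linarith) ha2.le
  have g3 : 0 ≤ κ * S.a s ^ 2 := by positivity
  have h1 := hnl _ _ _ _ _ _ _ _ _ _ _ hP ht hy (by linarith) ?_ ?_
  · refine all_num hκ hκ1 h1 ?_
    have e1 : ‖S.y1 t‖ * dot (S.p1 t) (S.p2 t) - ‖S.x1 t‖ * dot (S.u1 t) (S.u2 t) =
        (‖S.y1 t‖ - ‖S.x1 t‖) * dot (S.p1 t) (S.p2 t) +
          ‖S.x1 t‖ * (dot (S.p1 t) (S.p2 t) - dot (S.u1 t) (S.u2 t)) := by ring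
    have b1 : |‖S.y1 t‖ - ‖S.x1 t‖| ≤ κ ^ 4 * S.R t :=
      (abs_norm_sub_norm_le _ _).trans ((S.yx1 t).trans (mul_le_mul_of_nonneg_left cvt.x1hi k0))
    have b2 : |dot (S.p1 t) (S.p2 t)| ≤ 5 * S.a t * (5 * S.a t) :=
      (abs_dot_le _ _).trans (mul_le_mul cvt.p1 cvt.p2 (norm_nonneg _) (by positivity))
    have b3 : |‖S.y1 t‖ - ‖S.x1 t‖| * |dot (S.p1 t) (S.p2 t)| ≤
        κ ^ 4 * S.R t * (5 * S.a t * (5 * S.a t)) :=
      mul_le_mul b1 b2 (abs_nonneg _) (by positivity)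
    have b4 : ‖S.x1 t‖ * |dot (S.p1 t) (S.p2 t) - dot (S.u1 t) (S.u2 t)| ≤
        S.R t * (9 * κ * S.a t ^ 2) :=
      mul_le_mul cvt.x1hi (all_dot_cv hκ cvt) (abs_nonneg _) hrt.le
    have b5 : κ ^ 4 ≤ κ / 25 := by
      have : κ ^ 3 ≤ (1 / 100000) ^ 3 := pow_le_pow_left₀ hκ.le hκ1 3
      have h2 : κ ^ 3 ≤ 1 / 25 := this.trans (by norm_num)
      nlinarith
    have b6 : S.R t * S.a t ^ 2 ≤ 2 := by linarith
    have b7 : κ ^ 4 * (S.R t * S.a t ^ 2) ≤ κ / 25 * 2 :=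
      mul_le_mul b5 b6 (by positivity) (by positivity)
    have b8 : κ * (S.R t * S.a t ^ 2) ≤ κ * 2 := mul_le_mul_of_nonneg_left b6 hκ.le
    rw [e1]
    refine (abs_add_le _ _).trans ?_
    rw [abs_mul, abs_mul, abs_norm]
    nlinarith
  · change |S.h1 s + S.h2 s| ≤ e0 * S.a s ^ 2
    have h2 := abs_le.1 cvs.hsum
    rw [abs_le]
    constructor <;> nlinarith
  · have h2 := abs_le.1 (all_dot_cv hκ cvs)
    have h3 : |dot (S.u1 s) (S.u2 s)| ≤ e0 / 2 * S.a s ^ 2 := by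
      rw [abs_mul, abs_of_pos hr] at hd
      have h4 : S.R s * |dot (S.u1 s) (S.u2 s)| ≤ S.R s * (e0 / 2 * S.a s ^ 2) := by
        have h5 : e0 / 2 * 1 ≤ e0 / 2 * (S.R s * S.a s ^ 2) :=
          mul_le_mul_of_nonneg_left (by linarith) (by positivity)
        linarith
      exact le_of_mul_le_mul_left h4 hr
    have h4 := abs_le.1 h3
    rw [abs_le]
    constructor <;> linarith

end Pool.Agent.Lib.MP_e310f3_mp.Gap
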