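import Pool.Agent.Lib.MP_e310f3_mp.Gap.Lam0

open Complex Filter Topology Set

noncomputable section

namespace Pool.Agent.Lib.MP_e310f3_mp.Gap

section aux
variable {g : ℝ} {y p : ℝ → ℂ} {F : ℝ → ℝ} {T Tm : ℝ}

lemma arcA_mono (h : Arc g y p F) {s t : ℝ} (hst : s ≤ t) : F s ≤ F t :=
  le_of_deriv_nonneg hst fun τ _ => by
    obtain ⟨f, φ, -, h2, h3⟩ := h.dp τ
    exact ⟨φ, h2, (norm_nonneg f).trans h3⟩

lemma arcA_cont_p (h : Arc g y p F) : Continuous p :=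
  continuous_iff_continuousAt.2 fun t => by
    obtain ⟨f, φ, h1, -⟩ := h.dp t
    exact h1.continuousAt

lemma arcA_cont_y (h : Arc g y p F) : Continuous y :=
  continuous_iff_continuousAt.2 fun t => (h.dy t).continuousAt

lemma arcA_h0 {y0 p0 : ℂ} (hg : 0 ≤ g) (hg3 : g ≤ 3) (hy : 1 / 4 ≤ ‖y0‖) (hp : ‖p0‖ ≤ 5) :
    |hh g y0 p0| ≤ 25 / 2 := by
  have h1 : g / ‖y0‖ ≤ 12 := by
    rw [div_le_iff₀ (by linarith)]
    linarith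
  have h2 : 0 ≤ g / ‖y0‖ := by positivity
  have h3 : ‖p0‖ ^ 2 ≤ 25 := by nlinarith [norm_nonneg p0]
  have h4 : 0 ≤ ‖p0‖ ^ 2 := by positivity
  unfold hh
  rw [abs_le]
  constructor <;> linarith

lemma arcA_K (hg3 : g ≤ 3) {a b : ℂ} (ha : a ≠ 0) (hh' : |hh g a b| ≤ 14) :
    |dot a b| ≤ 6 * √(‖a‖ ^ 2 + 1) := by
  have h1 := K_sq g ha b
  have h2 := (abs_le.1 hh').2
  have h3 := norm_nonneg a
  have h4 : √(‖a‖ ^ 2 + 1) ^ 2 = ‖a‖ ^ 2 + 1 := Real.sq_sqrt (by positivity)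
  refine abs_le_of_sq_le_sq ?_ (by positivity)
  rw [mul_pow, h4]
  nlinarith [sq_nonneg (cross a b), sq_nonneg (‖a‖ - 1), mul_le_mul_of_nonneg_right h2 (sq_nonneg ‖a‖),
    mul_le_mul_of_nonneg_right hg3 h3]

lemma arcA_r (h : Arc g y p F) (hg3 : g ≤ 3) (hT : T ≤ Tm) (hy : ‖y 0‖ ≤ 2)
    (hh' : ∀ τ ∈ Icc 0 T, |hh g (y τ) (p τ)| ≤ 14) {t : ℝ} (ht : t ∈ Icc 0 T) :
    √(‖y t‖ ^ 2 + 1) ≤ 3 + 6 * Tm := by
  have h1 := sub_le_of_deriv_le (f := fun τ => √(‖y τ‖ ^ 2 + 1)) (g := fun τ => 6 * τ) ht.1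
    fun τ hτ => by
      have hp : 0 < ‖y τ‖ ^ 2 + 1 := by positivity
      have hs : 0 < √(‖y τ‖ ^ 2 + 1) := Real.sqrt_pos.2 hp
      refine ⟨_, 6 * 1, ((hasDerivAt_normSq (h.dy τ)).add_const 1).sqrt hp.ne',
        (hasDerivAt_id τ).const_mul 6, ?_⟩
      have := (abs_le.1 (arcA_K hg3 (h.ne τ) (hh' τ ⟨hτ.1, hτ.2.trans ht.2⟩))).2
      rw [div_le_iff₀ (by positivity)]
      linarith
  have h2 : √(‖y 0‖ ^ 2 + 1) ≤ 3 := by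
    rw [Real.sqrt_le_iff]
    refine ⟨by norm_num, ?_⟩
    nlinarith [norm_nonneg (y 0)]
  have := ht.2
  simp only [mul_zero, sub_zero] at h1
  linarith

lemma arcA_le_sqrt (a : ℂ) : ‖a‖ ≤ √(‖a‖ ^ 2 + 1) :=
  Real.le_sqrt_of_sq_le (by linarith)

lemma arcA_sigma (h : Arc g y p F) : ∃ σ : ℝ → ℝ, σ 0 = 0 ∧ ∀ t, HasDerivAt σ (1 / ‖y t‖) t := by
  have hc : Continuous fun t => 1 / ‖y t‖ :=
    continuous_const.div (arcA_cont_y h).norm fun t => norm_ne_zero_iff.2 (h.ne t)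
  exact ⟨fun t => ∫ u in (0 : ℝ)..t, 1 / ‖y u‖, by simp,
    fun t => (hc.integral_hasStrictDerivAt 0 t).hasDerivAt⟩

lemma arcA_sigma_le (h : Arc g y p F) {σ : ℝ → ℝ} (h0 : σ 0 = 0)
    (hσ : ∀ t, HasDerivAt σ (1 / ‖y t‖) t) (hg3 : g ≤ 3) (hT : T ≤ Tm) {Rm : ℝ}
    (hR : ∀ τ ∈ Icc 0 T, √(‖y τ‖ ^ 2 + 1) ≤ Rm)
    (hh' : ∀ τ ∈ Icc 0 T, |hh g (y τ) (p τ)| ≤ 14) (hF : F T - F 0 ≤ 1) {t : ℝ}
    (ht : t ∈ Icc 0 T) : g * σ t ≤ 13 * Rm + 28 * Tm := by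
  have h1 := sub_le_of_deriv_le (f := fun τ => g * σ τ)
    (g := fun τ => dot (y τ) (p τ) + 28 * τ + Rm * F τ) ht.1 fun τ hτ => by
      have hτ' : τ ∈ Icc 0 T := ⟨hτ.1, hτ.2.trans ht.2⟩
      obtain ⟨f, φ, h1, h2, h3⟩ := h.dp τ
      refine ⟨_, _, (hσ τ).const_mul g, ((d_K (h.ne τ) (h.dy τ) h1).add
        ((hasDerivAt_id τ).const_mul 28)).add (h2.const_mul Rm), ?_⟩
      have h4 := (abs_le.1 (abs_dot_le (y τ) f)).1
      have h5 := (abs_le.1 (hh' τ hτ')).1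
      have h6 : ‖y τ‖ * ‖f‖ ≤ Rm * φ :=
        mul_le_mul ((arcA_le_sqrt _).trans (hR τ hτ')) h3 (norm_nonneg _)
          ((Real.sqrt_nonneg _).trans (hR τ hτ'))
      rw [mul_one_div]
      linarith
  have h0T : (0 : ℝ) ∈ Icc 0 T := ⟨le_rfl, ht.1.trans ht.2⟩
  have h2 := abs_le.1 (arcA_K hg3 (h.ne t) (hh' t ht))
  have h3 := abs_le.1 (arcA_K hg3 (h.ne 0) (hh' 0 h0T))
  have h4 := hR t ht
  have h5 := hR 0 h0T
  have h6 : Rm * (F t - F 0) ≤ Rm * 1 :=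
    mul_le_mul_of_nonneg_left (by linarith [arcA_mono h ht.2]) ((Real.sqrt_nonneg _).trans h4)
  have := ht.2
  simp only [h0, mul_zero, sub_zero, add_zero] at h1
  nlinarith

lemma arcA_lc {z : ℝ → ℂ} {t : ℝ} {f : ℂ} (hne : y t ≠ 0) (hz : z t ^ 2 = y t)
    (dz : HasDerivAt z (p t / (2 * z t)) t) (dp : HasDerivAt p (acc g (y t) + f) t) :
    HasDerivAt z ((starRingEnd ℂ) (z t) * p t / 2 * ((1 / ‖y t‖ : ℝ) : ℂ)) t ∧
    HasDerivAt (fun τ => (starRingEnd ℂ) (z τ) * p τ / 2)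
      (((hh g (y t) (p t) / 2 * (1 / ‖y t‖) : ℝ) : ℂ) * z t + (starRingEnd ℂ) (z t) * f / 2) t := by
  have hz0 : z t ≠ 0 := fun e => hne (by rw [← hz, e]; simp)
  have hc0 : (starRingEnd ℂ) (z t) ≠ 0 := by simpa using hz0
  have hr : ((‖y t‖ : ℝ) : ℂ) = z t * (starRingEnd ℂ) (z t) := by
    rw [← hz, norm_pow, Complex.mul_conj, Complex.normSq_eq_norm_sq]
  have hp : ((‖p t‖ : ℝ) : ℂ) ^ 2 = p t * (starRingEnd ℂ) (p t) := by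
    rw [Complex.mul_conj, Complex.normSq_eq_norm_sq]
    push_cast
    rfl
  constructor
  · refine dz.congr_deriv ?_
    push_cast
    rw [hr]
    field_simp
  · have h1 : HasDerivAt (fun τ => (starRingEnd ℂ) (z τ))
        ((starRingEnd ℂ) (p t / (2 * z t))) t := dz.star
    refine ((h1.mul dp).div_const 2).congr_deriv ?_
    simp only [acc, hh, map_div₀, map_mul, map_ofNat]
    push_cast
    rw [hp, hr, ← hz]
    field_simp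
    ring

lemma arcA_bound (Sg : ℝ) : ∃ M, 1 ≤ M ∧ ∀ l s : ℝ, |l| ≤ 7 → s ∈ Icc 0 Sg →
    |Cf l s| ≤ M ∧ |Sf l s| ≤ M := by
  have hK : IsCompact (Icc (-7 : ℝ) 7 ×ˢ Icc (0 : ℝ) Sg) := isCompact_Icc.prod isCompact_Icc
  obtain ⟨M1, h1⟩ := hK.exists_bound_of_continuousOn continuous_Cf.continuousOn
  obtain ⟨M2, h2⟩ := hK.exists_bound_of_continuousOn continuous_Sf.continuousOn
  refine ⟨max 1 (max M1 M2), le_max_left _ _, fun l s hl hs => ⟨?_, ?_⟩⟩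
  · exact (h1 (l, s) ⟨abs_le.1 hl, hs⟩).trans ((le_max_left _ _).trans (le_max_right _ _))
  · exact (h2 (l, s) ⟨abs_le.1 hl, hs⟩).trans ((le_max_right _ _).trans (le_max_right _ _))

/-- variation of constants -/
lemma arcA_var {z w : ℝ → ℂ} {σ ρ G : ℝ → ℝ} {l M : ℝ} (h0 : σ 0 = 0)
    (hσ : ∀ t, HasDerivAt σ (ρ t) t) (hl : |l| ≤ 7)
    (hM : ∀ τ ∈ Icc 0 T, |Cf l (σ τ)| ≤ M ∧ |Sf l (σ τ)| ≤ M)
    (hd : ∀ τ ∈ Icc 0 T, ∃ (δ : ℂ) (b : ℝ), HasDerivAt z (w τ * (ρ τ : ℂ)) τ ∧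
      HasDerivAt w (((l * ρ τ : ℝ) : ℂ) * z τ + δ) τ ∧ HasDerivAt G b τ ∧ ‖δ‖ ≤ b)
    {t : ℝ} (ht : t ∈ Icc 0 T) :
    ‖z t - Zf l (σ t) (z 0) (w 0)‖ ≤ 2 * M ^ 2 * (G t - G 0) ∧
      ‖w t - Wf l (σ t) (z 0) (w 0)‖ ≤ 8 * M ^ 2 * (G t - G 0) := by
  have dC : ∀ τ, HasDerivAt (fun u => ((Cf l (σ u) : ℝ) : ℂ)) ((l * Sf l (σ τ) * ρ τ : ℝ) : ℂ) τ :=
    fun τ => (HasDerivAt.comp (h₂ := Cf l) τ (d_Cf l (σ τ)) (hσ τ)).ofReal_comp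
  have dS : ∀ τ, HasDerivAt (fun u => ((Sf l (σ u) : ℝ) : ℂ)) ((Cf l (σ τ) * ρ τ : ℝ) : ℂ) τ :=
    fun τ => (HasDerivAt.comp (h₂ := Sf l) τ (d_Sf l (σ τ)) (hσ τ)).ofReal_comp
  have hA := norm_sub_le_of_deriv
    (f := fun u => ((Cf l (σ u) : ℝ) : ℂ) * z u - ((Sf l (σ u) : ℝ) : ℂ) * w u)
    (g := fun u => M * G u) ht.1 fun τ hτ => by
      have hτ' : τ ∈ Icc 0 T := ⟨hτ.1, hτ.2.trans ht.2⟩
      obtain ⟨δ, b, h1, h2, h3, h4⟩ := hd τ hτ'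
      refine ⟨-(((Sf l (σ τ) : ℝ) : ℂ) * δ), _,
        (((dC τ).mul h1).sub ((dS τ).mul h2)).congr_deriv ?_, h3.const_mul M, ?_⟩
      · push_cast
        ring
      · rw [norm_neg, norm_mul, Complex.norm_real, Real.norm_eq_abs]
        exact mul_le_mul (hM τ hτ').2 h4 (norm_nonneg _) ((abs_nonneg _).trans (hM τ hτ').2)
  have hB := norm_sub_le_of_deriv
    (f := fun u => ((Cf l (σ u) : ℝ) : ℂ) * w u - (l : ℂ) * (((Sf l (σ u) : ℝ) : ℂ) * z u))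
    (g := fun u => M * G u) ht.1 fun τ hτ => by
      have hτ' : τ ∈ Icc 0 T := ⟨hτ.1, hτ.2.trans ht.2⟩
      obtain ⟨δ, b, h1, h2, h3, h4⟩ := hd τ hτ'
      refine ⟨((Cf l (σ τ) : ℝ) : ℂ) * δ, _,
        (((dC τ).mul h2).sub (((dS τ).mul h1).const_mul (l : ℂ))).congr_deriv ?_,
        h3.const_mul M, ?_⟩
      · push_cast
        ring
      · rw [norm_mul, Complex.norm_real, Real.norm_eq_abs]
        exact mul_le_mul (hM τ hτ').1 h4 (norm_nonneg _) ((abs_nonneg _).trans (hM τ hτ').1)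
  simp only [h0, Cf_zero, Sf_zero, Complex.ofReal_one, Complex.ofReal_zero, one_mul, zero_mul,
    mul_zero, sub_zero] at hA hB
  have hq : ((Cf l (σ t) : ℝ) : ℂ) ^ 2 - (l : ℂ) * ((Sf l (σ t) : ℝ) : ℂ) ^ 2 = 1 := by
    exact_mod_cast Cf_sq l (σ t)
  obtain ⟨hC, hS⟩ := hM t ht
  have hM0 : 0 ≤ M := (abs_nonneg _).trans hC
  set A := ((Cf l (σ t) : ℝ) : ℂ) * z t - ((Sf l (σ t) : ℝ) : ℂ) * w t - z 0 with hAd
  set B := ((Cf l (σ t) : ℝ) : ℂ) * w t - (l : ℂ) * (((Sf l (σ t) : ℝ) : ℂ) * z t) - w 0 with hBd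
  have hD : 0 ≤ M * G t - M * G 0 := (norm_nonneg _).trans hA
  have k1 : |Cf l (σ t)| * ‖A‖ ≤ M * (M * G t - M * G 0) :=
    mul_le_mul hC hA (norm_nonneg _) hM0
  have k2 : |Sf l (σ t)| * ‖B‖ ≤ M * (M * G t - M * G 0) :=
    mul_le_mul hS hB (norm_nonneg _) hM0
  have k3 : |l| * (|Sf l (σ t)| * ‖A‖) ≤ 7 * (M * (M * G t - M * G 0)) :=
    mul_le_mul hl (mul_le_mul hS hA (norm_nonneg _) hM0) (by positivity) (by norm_num)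
  have k4 : |Cf l (σ t)| * ‖B‖ ≤ M * (M * G t - M * G 0) :=
    mul_le_mul hC hB (norm_nonneg _) hM0
  constructor
  · have e : z t - Zf l (σ t) (z 0) (w 0) =
        ((Cf l (σ t) : ℝ) : ℂ) * A + ((Sf l (σ t) : ℝ) : ℂ) * B := by
      rw [hAd, hBd, Zf]
      linear_combination (-z t) * hq
    rw [e]
    refine (norm_add_le _ _).trans ?_
    simp only [norm_mul, Complex.norm_real, Real.norm_eq_abs]
    nlinarith
  · have e : w t - Wf l (σ t) (z 0) (w 0) =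
        (l : ℂ) * (((Sf l (σ t) : ℝ) : ℂ) * A) + ((Cf l (σ t) : ℝ) : ℂ) * B := by
      rw [hAd, hBd, Wf]
      push_cast
      linear_combination (-w t) * hq
    rw [e]
    refine (norm_add_le _ _).trans ?_
    simp only [norm_mul, Complex.norm_real, Real.norm_eq_abs]
    nlinarith

lemma arcA_sq_sub {a b : ℂ} {δ R : ℝ} (h : ‖a - b‖ ≤ δ) (hδ : δ ≤ 1) (ha : ‖a‖ ≤ R) :
    |‖a‖ ^ 2 - ‖b‖ ^ 2| ≤ δ * (2 * R + 1) := by
  have h1 := (abs_norm_sub_norm_le a b).trans h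
  have h2 := abs_le.1 h1
  rw [sq_sub_sq, abs_mul, mul_comm, abs_of_nonneg (add_nonneg (norm_nonneg a) (norm_nonneg b))]
  exact mul_le_mul h1 (by linarith [h2.1]) (by positivity) ((abs_nonneg _).trans h1)

end aux

/-- a perturbed Kepler arc is close to an exact Levi-Civita arc (coupling bounded below) -/
theorem arcA {g0 Tm : ℝ} (hg0 : 0 < g0) (hT : 0 < Tm) : ∃ Sg > 0, ∀ e > 0, ∃ e' > 0,
    ∀ (g : ℝ) (y p : ℝ → ℂ) (F : ℝ → ℝ) (T : ℝ) (z0 : ℂ), Arc g y p F → g0 ≤ g → g ≤ 3 →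
    0 ≤ T → T ≤ Tm → 1 / 4 ≤ ‖y 0‖ → ‖y 0‖ ≤ 2 → ‖p 0‖ ≤ 5 →
    (∀ τ ∈ Icc 0 T, |hh g (y τ) (p τ) - hh g (y 0) (p 0)| ≤ e') → F T - F 0 ≤ e' → z0 ^ 2 = y 0 →
    ∃ σ ∈ Icc 0 Sg, ∃ z1 : ℂ, z1 ^ 2 = y T ∧
      ‖z1 - Zf (hh g (y 0) (p 0) / 2) σ z0 ((starRingEnd ℂ) z0 * p 0 / 2)‖ ≤ e ∧
      ‖(starRingEnd ℂ) z1 * p T / 2
        - Wf (hh g (y 0) (p 0) / 2) σ z0 ((starRingEnd ℂ) z0 * p 0 / 2)‖ ≤ e ∧
      |T - Tf (hh g (y 0) (p 0) / 2) σ z0 ((starRingEnd ℂ) z0 * p 0 / 2)| ≤ e := by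
  obtain ⟨Rm, hRm⟩ : ∃ Rm, Rm = 3 + 6 * Tm := ⟨_, rfl⟩
  have hR1 : 1 ≤ Rm := by linarith
  obtain ⟨Sg, hSg⟩ : ∃ Sg, Sg = (13 * Rm + 28 * Tm) / g0 := ⟨_, rfl⟩
  have hS0 : 0 < Sg := by rw [hSg]; positivity
  obtain ⟨M, hM1, hM⟩ := arcA_bound Sg
  refine ⟨Sg, hS0, fun e he => ?_⟩
  obtain ⟨c, hc⟩ : ∃ c, c = M ^ 2 * (Rm * (Sg + 1)) := ⟨_, rfl⟩
  have hc0 : 0 < c := by rw [hc]; positivity
  obtain ⟨N, hN⟩ : ∃ N, N = 1 + 8 * c + 2 * c * (2 * Rm + 1) * Sg := ⟨_, rfl⟩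
  have hN0 : 0 ≤ 2 * c * (2 * Rm + 1) * Sg := by positivity
  have hN1 : 1 ≤ N := by linarith
  have hm : 0 < min 1 e := lt_min one_pos he
  refine ⟨min 1 e / N, by positivity, ?_⟩
  obtain ⟨e', he'⟩ : ∃ e', e' = min 1 e / N := ⟨_, rfl⟩
  rw [← he']
  have he0 : 0 < e' := by rw [he']; positivity
  have heN : N * e' = min 1 e := by rw [he']; field_simp
  have hm1 := min_le_left 1 e
  have hm2 := min_le_right 1 e
  have b0 : 0 ≤ c * e' := by positivity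
  have b1 : 0 ≤ 2 * c * (2 * Rm + 1) * Sg * e' := by positivity
  have b2 : e' + 8 * (c * e') + 2 * c * (2 * Rm + 1) * Sg * e' = min 1 e := by
    rw [← heN, hN]; ring
  have he1 : e' ≤ 1 := by linarith
  intro g y p F T z0 h hg hg3 hT0 hTm hy1 hy2 hp hh' hF hz0
  have hh0 := arcA_h0 (hg0.le.trans hg) hg3 hy1 hp
  have hh14 : ∀ τ ∈ Icc 0 T, |hh g (y τ) (p τ)| ≤ 14 := fun τ hτ => by
    have h1 := abs_le.1 (hh' τ hτ)
    have h2 := abs_le.1 hh0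
    rw [abs_le]
    constructor <;> linarith [h1.1, h1.2, h2.1, h2.2]
  have hR : ∀ τ ∈ Icc 0 T, √(‖y τ‖ ^ 2 + 1) ≤ Rm := fun τ hτ =>
    hRm ▸ arcA_r h hg3 hTm hy2 hh14 hτ
  obtain ⟨σ, hσ0, hσ⟩ := arcA_sigma h
  have hσm : ∀ τ ∈ Icc 0 T, σ τ ∈ Icc 0 Sg := fun τ hτ => by
    have h1 : σ 0 ≤ σ τ := le_of_deriv_nonneg hτ.1 fun u _ => ⟨_, hσ u, by positivity⟩
    rw [hσ0] at h1
    refine ⟨h1, ?_⟩
    have h2 := arcA_sigma_le h hσ0 hσ hg3 hTm hR hh14 (hF.trans he1) hτ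
    rw [hSg, le_div_iff₀ hg0]
    nlinarith
  obtain ⟨z, hz1, hz⟩ := exists_lift h.ne h.dy (arcA_cont_p h) hz0
  have hzR : ∀ τ ∈ Icc 0 T, ‖z τ‖ ≤ Rm := fun τ hτ => by
    have h1 : ‖z τ‖ ^ 2 = ‖y τ‖ := by rw [← (hz τ).1, norm_pow]
    have h2 := (arcA_le_sqrt _).trans (hR τ hτ)
    nlinarith [norm_nonneg (z τ)]
  have hl : |hh g (y 0) (p 0) / 2| ≤ 7 := by
    rw [abs_div, abs_two]
    linarith
  set l := hh g (y 0) (p 0) / 2 with hld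
  have key := fun t (ht : t ∈ Icc 0 T) => arcA_var (z := z)
    (w := fun τ => (starRingEnd ℂ) (z τ) * p τ / 2) (G := fun τ => Rm * (e' * σ τ + F τ))
    (T := T) hσ0 hσ hl (fun τ hτ => hM l _ hl (hσm τ hτ)) (fun τ hτ => by
      obtain ⟨f, φ, h1, h2, h3⟩ := h.dp τ
      obtain ⟨d1, d2⟩ := arcA_lc (h.ne τ) (hz τ).1 (hz τ).2 h1
      refine ⟨(((hh g (y τ) (p τ) - hh g (y 0) (p 0)) / 2 * (1 / ‖y τ‖) : ℝ) : ℂ) * z τ +
        (starRingEnd ℂ) (z τ) * f / 2, _, d1, d2.congr_deriv ?_,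
        (((hσ τ).const_mul e').add h2).const_mul Rm, ?_⟩
      · rw [hld]
        push_cast
        ring
      · refine (norm_add_le _ _).trans ?_
        have h4 : 0 ≤ 1 / ‖y τ‖ := by positivity
        rw [norm_mul, Complex.norm_real, Real.norm_eq_abs, abs_mul, abs_div, abs_two,
          abs_of_nonneg h4, norm_div, norm_mul, Complex.norm_conj, Complex.norm_two]
        have h5 : |hh g (y τ) (p τ) - hh g (y 0) (p 0)| * (1 / ‖y τ‖) * ‖z τ‖ ≤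
            e' * (1 / ‖y τ‖) * Rm :=
          mul_le_mul (mul_le_mul_of_nonneg_right (hh' τ hτ) h4) (hzR τ hτ) (norm_nonneg _)
            (by positivity)
        have h6 : ‖z τ‖ * ‖f‖ ≤ Rm * φ :=
          mul_le_mul (hzR τ hτ) h3 (norm_nonneg _) (by linarith)
        have h7 : 0 ≤ e' * (1 / ‖y τ‖) * Rm := by positivity
        have h8 : 0 ≤ ‖z τ‖ * ‖f‖ := by positivity
        nlinarith) ht
  simp only [hz1, hσ0, mul_zero, zero_add] at key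
  have hG : ∀ t ∈ Icc 0 T, M ^ 2 * (Rm * (e' * σ t + F t) - Rm * F 0) ≤ c * e' := fun t ht => by
    have h1 : e' * σ t ≤ e' * Sg := mul_le_mul_of_nonneg_left (hσm t ht).2 he0.le
    have h2 := arcA_mono h ht.2
    have h3 : Rm * (e' * σ t + F t - F 0) ≤ Rm * (e' * Sg + e') :=
      mul_le_mul_of_nonneg_left (by linarith) (by linarith)
    rw [hc, mul_assoc]
    exact mul_le_mul_of_nonneg_left (by linarith) (by positivity)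
  have hTT : T ∈ Icc 0 T := ⟨hT0, le_rfl⟩
  refine ⟨σ T, hσm T hTT, z T, (hz T).1, ?_, ?_, ?_⟩
  · linarith [(key T hTT).1, hG T hTT]
  · linarith [(key T hTT).2, hG T hTT]
  · have h1 := abs_sub_le_of_deriv
      (f := fun τ => τ - Tf l (σ τ) z0 ((starRingEnd ℂ) z0 * p 0 / 2))
      (g := fun τ => 2 * (c * e') * (2 * Rm + 1) * σ τ) hT0 fun τ hτ => by
        refine ⟨_, _, (hasDerivAt_id τ).sub (HasDerivAt.comp
          (h₂ := fun u => Tf l u z0 ((starRingEnd ℂ) z0 * p 0 / 2)) τ (d_Tf l (σ τ) _ _) (hσ τ)),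
          (hσ τ).const_mul _, ?_⟩
        have h2 : ‖z τ‖ ^ 2 = ‖y τ‖ := by rw [← (hz τ).1, norm_pow]
        have h3 : ‖y τ‖ ≠ 0 := norm_ne_zero_iff.2 (h.ne τ)
        have h4 := arcA_sq_sub (δ := 2 * (c * e')) (by linarith [(key τ hτ).1, hG τ hτ])
          (by linarith) (hzR τ hτ) (b := Zf l (σ τ) z0 ((starRingEnd ℂ) z0 * p 0 / 2))
        have h5 : 1 - ‖Zf l (σ τ) z0 ((starRingEnd ℂ) z0 * p 0 / 2)‖ ^ 2 * (1 / ‖y τ‖) =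
            (‖z τ‖ ^ 2 - ‖Zf l (σ τ) z0 ((starRingEnd ℂ) z0 * p 0 / 2)‖ ^ 2) * (1 / ‖y τ‖) := by
          rw [h2]
          field_simp
        rw [h5, abs_mul, abs_of_nonneg (show 0 ≤ 1 / ‖y τ‖ by positivity)]
        exact mul_le_mul_of_nonneg_right h4 (by positivity)
    simp only [hσ0, Tf_zero, mul_zero, sub_zero] at h1
    have h2 : 2 * (c * e') * (2 * Rm + 1) * σ T ≤ 2 * (c * e') * (2 * Rm + 1) * Sg :=
      mul_le_mul_of_nonneg_left (hσm T hTT).2 (by positivity)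
    nlinarith

end Pool.Agent.Lib.MP_e310f3_mp.Gap
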