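import Pool.Agent.Lib.MP_e310f3_mp.Gap.Tools

open Complex Filter Topology Set

noncomputable section

namespace Pool.Agent.Lib.MP_e310f3_mp.Gap

lemma arcB_line (a b : ℂ) (t : ℝ) : dot (a + (t : ℂ) * b) b = dot a b + t * ‖b‖ ^ 2 := by
  rw [← dot_self]
  simp only [dot, add_re, add_im, mul_re, mul_im, ofReal_re, ofReal_im]
  ring

lemma arcB_dline (a b : ℂ) (t : ℝ) : HasDerivAt (fun τ : ℝ => a + (τ : ℂ) * b) b t := by
  have h := ((hasDerivAt_id t).ofReal_comp.mul_const b).const_add a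
  rwa [ofReal_one, one_mul] at h

lemma arcB_K (g : ℝ) {y : ℂ} (hy : y ≠ 0) (p : ℂ) :
    dot y p ^ 2 ≤ 2 * hh g y p * ‖y‖ ^ 2 + 2 * g * ‖y‖ := by
  linarith [K_sq g hy p, sq_nonneg (cross y p)]

lemma arcB_F {g : ℝ} {y p : ℝ → ℂ} {F : ℝ → ℝ} (A : Arc g y p F) {s t : ℝ} (h : s ≤ t) :
    F s ≤ F t :=
  le_of_deriv_nonneg h fun τ _ => by
    obtain ⟨f, φ, -, h1, h2⟩ := A.dp τ
    exact ⟨φ, h1, (norm_nonneg f).trans h2⟩

/-- the radius stays bounded -/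
lemma arcB_r {g T : ℝ} {y p : ℝ → ℂ} {F : ℝ → ℝ} (A : Arc g y p F) (g1 : g ≤ 1)
    (h0 : ‖y 0‖ ≤ 2) (hh1 : ∀ τ ∈ Icc 0 T, hh g (y τ) (p τ) ≤ 14) :
    ∀ τ ∈ Icc 0 T, ‖y τ‖ ≤ 3 + 6 * T := by
  intro t ht
  have h1 := sub_le_of_deriv_le (f := fun τ => √(‖y τ‖ ^ 2 + 1)) (g := fun τ => 6 * τ) ht.1
    fun τ hτ => by
      have p1 : 0 < ‖y τ‖ ^ 2 + 1 := by positivity
      have p2 := Real.sqrt_pos.2 p1
      refine ⟨_, _, ((hasDerivAt_normSq (A.dy τ)).add_const 1).sqrt p1.ne',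
        (hasDerivAt_id τ).const_mul 6, ?_⟩
      rw [div_le_iff₀ (by positivity)]
      have k1 := arcB_K g (A.ne τ) (p τ)
      have k2 := hh1 τ ⟨hτ.1, hτ.2.trans ht.2⟩
      have k3 := norm_nonneg (y τ)
      have k4 : dot (y τ) (p τ) ^ 2 ≤ (6 * √(‖y τ‖ ^ 2 + 1)) ^ 2 := by
        rw [mul_pow, Real.sq_sqrt p1.le]
        nlinarith [mul_le_mul_of_nonneg_right k2 (sq_nonneg ‖y τ‖),
          mul_le_mul_of_nonneg_right g1 k3, sq_nonneg (‖y τ‖ - 1)]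
      linarith [le_of_abs_le (abs_le_of_sq_le_sq k4 (by positivity))]
  have h2 : √(‖y 0‖ ^ 2 + 1) ≤ 3 :=
    Real.sqrt_le_iff.2 ⟨by norm_num, by nlinarith [norm_nonneg (y 0)]⟩
  have h3 : ‖y t‖ ≤ √(‖y t‖ ^ 2 + 1) := Real.le_sqrt_of_sq_le (by linarith)
  linarith [ht.2]

/-- the singular term is dominated by the derivative of a bounded function -/
lemma arcB_alg {r v w h K d φ : ℝ} (hr : 0 < r) (hv : 0 < v) (hvw : v ≤ w) (hw : w ≤ 1)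
    (hK : K ^ 2 ≤ 2 * h * r ^ 2 + 2 * v ^ 2 * r) (hd : |d| ≤ r * φ) (hφ : 0 ≤ φ)
    (hh1 : -(5 * w ^ 2) ≤ h) :
    v ^ 2 / r ≤ 45 * w + 4 * v * (((2 * h + v ^ 2 / r + d) * (v + r) - K * (K / r)) /
      (v + r) ^ 2) + 4 * φ := by
  obtain ⟨q, hq⟩ : ∃ q, q = v ^ 2 / r := ⟨_, rfl⟩
  have q0 : 0 < q := by rw [hq]; positivity
  have q1 : q * r = v ^ 2 := by rw [hq, div_mul_cancel₀ _ hr.ne']
  have k1 : K * (K / r) ≤ 2 * h * r + 2 * v ^ 2 := by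
    rw [← mul_div_assoc, div_le_iff₀ hr]
    linarith
  have s0 : 0 < v + r := by linarith
  have i1 : (q - v) * (v + r) ^ 2 ≤ 4 * v ^ 2 * q := by
    rcases le_total r v with h1 | h1
    · have : (v + r) ^ 2 ≤ 4 * v ^ 2 := by nlinarith
      nlinarith [mul_le_mul_of_nonneg_left this q0.le, mul_pos hv (pow_pos s0 2)]
    · have : q ≤ v := le_of_mul_le_mul_right (by nlinarith) hr
      nlinarith [mul_nonneg (sub_nonneg.2 this) (sq_nonneg (v + r)), mul_pos (pow_pos hv 2) q0]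
  have i2 : -((40 * w ^ 2 + 4 * v) * (v + r) ^ 2) ≤ 4 * v * (2 * h * v - v ^ 2) := by
    have a1 : v ^ 2 ≤ (v + r) ^ 2 := by nlinarith
    have a2 := mul_le_mul_of_nonneg_left a1 (show 0 ≤ 40 * w ^ 2 + 4 * v by positivity)
    have a3 := mul_le_mul_of_nonneg_right hh1 (sq_nonneg v)
    nlinarith
  have i3 : -(φ * (v + r)) ≤ v * d := by
    have a1 := mul_le_mul_of_nonneg_left (neg_le_of_abs_le hd) hv.le
    have a2 := mul_le_mul_of_nonneg_right (hvw.trans hw) (mul_nonneg hr.le hφ)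
    nlinarith [mul_nonneg hφ hv.le]
  have i4 := mul_le_mul_of_nonneg_right i3 s0.le
  have i5 : (5 * v + 40 * w ^ 2) * (v + r) ^ 2 ≤ 45 * w * (v + r) ^ 2 :=
    mul_le_mul_of_nonneg_right (by nlinarith) (sq_nonneg _)
  have i6 := mul_le_mul_of_nonneg_left k1 hv.le
  have i7 : v * (q * r) = v * v ^ 2 := by rw [q1]
  rw [← hq, ← mul_div_assoc, ← sub_le_iff_le_add, ← sub_le_iff_le_add', le_div_iff₀ (pow_pos s0 2)]
  nlinarith

/-- the virial follows the straight line -/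
lemma arcB_vir {g T w : ℝ} {y p : ℝ → ℂ} {F : ℝ → ℝ} (A : Arc g y p F) (g0 : 0 < g)
    (w0 : 0 < w) (w1 : w ≤ 1) (gw : g ≤ w ^ 2) (y0 : 1 / 4 ≤ ‖y 0‖) (y1 : ‖y 0‖ ≤ 2)
    (p0 : ‖p 0‖ ≤ 5) (hE : ∀ τ ∈ Icc 0 T, |hh g (y τ) (p τ) - hh g (y 0) (p 0)| ≤ w ^ 2)
    (hF : F T - F 0 ≤ w ^ 2) : ∀ τ ∈ Icc 0 T,
      |dot (y τ) (p τ) - dot (y 0 + (τ : ℂ) * p 0) (p 0)| ≤ w * (55 + 53 * T) := by
  intro t ht
  have ww : w ^ 2 ≤ w := by nlinarith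
  have g1 : g ≤ 1 := by linarith
  have a0 : 0 ≤ g / ‖y 0‖ := by positivity
  have a1 : g / ‖y 0‖ ≤ 4 * g := by
    rw [div_le_iff₀ (by linarith)]
    nlinarith
  have a2 : ‖p 0‖ ^ 2 ≤ 25 := by nlinarith [norm_nonneg (p 0)]
  have a3 : hh g (y 0) (p 0) = ‖p 0‖ ^ 2 / 2 - g / ‖y 0‖ := rfl
  have hu : ∀ τ ∈ Icc 0 T, hh g (y τ) (p τ) ≤ 14 := fun τ hτ => by
    linarith [le_of_abs_le (hE τ hτ)]
  have hl : ∀ τ ∈ Icc 0 T, -(5 * w ^ 2) ≤ hh g (y τ) (p τ) := fun τ hτ => by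
    linarith [neg_le_of_abs_le (hE τ hτ), sq_nonneg ‖p 0‖]
  have hr := arcB_r A g1 y1 hu
  have T0 : 0 ≤ T := ht.1.trans ht.2
  have sub : ∀ {τ}, τ ∈ Icc 0 t → τ ∈ Icc 0 T := fun hτ => ⟨hτ.1, hτ.2.trans ht.2⟩
  have F1 : F t - F 0 ≤ w := by linarith [arcB_F A ht.2]
  have F0 := arcB_F A ht.1
  have hd : ∀ τ ∈ Icc 0 T, ∀ (f : ℂ) (φ : ℝ), ‖f‖ ≤ φ →
      |dot (y τ) f| ≤ ‖y τ‖ * φ ∧ |dot (y τ) f| ≤ (3 + 6 * T) * φ := fun τ hτ f φ h => by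
    have := (abs_dot_le (y τ) f).trans (mul_le_mul_of_nonneg_left h (norm_nonneg _))
    exact ⟨this, this.trans (mul_le_mul_of_nonneg_right (hr τ hτ) ((norm_nonneg f).trans h))⟩
  obtain ⟨v, v0, rfl⟩ : ∃ v, 0 < v ∧ g = v ^ 2 :=
    ⟨√g, Real.sqrt_pos.2 g0, (Real.sq_sqrt g0.le).symm⟩
  have vw : v ≤ w := le_of_abs_le (abs_le_of_sq_le_sq gw w0.le)
  have hL : ∀ τ ∈ Icc 0 T, |dot (y τ) (p τ) / (v + ‖y τ‖)| ≤ 6 := fun τ hτ => by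
    have r0 := norm_nonneg (y τ)
    have s0 : 0 < v + ‖y τ‖ := by linarith
    rw [abs_div, abs_of_pos s0, div_le_iff₀ s0]
    refine abs_le_of_sq_le_sq ?_ (by positivity)
    have k1 := arcB_K (v ^ 2) (A.ne τ) (p τ)
    have k2 := mul_le_mul_of_nonneg_right (hu τ hτ) (sq_nonneg ‖y τ‖)
    have k3 := mul_le_mul_of_nonneg_right (vw.trans w1) (mul_nonneg v0.le r0)
    nlinarith [mul_nonneg v0.le r0, sq_nonneg v]
  have up := sub_le_of_deriv_le (f := fun τ => dot (y τ) (p τ) - τ * ‖p 0‖ ^ 2)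
    (g := fun τ => 47 * w * τ + 4 * v * (dot (y τ) (p τ) / (v + ‖y τ‖)) + (7 + 6 * T) * F τ) ht.1
    fun τ hτ => by
      obtain ⟨f, φ, h1, h2, h3⟩ := A.dp τ
      have r0 := norm_pos_iff.2 (A.ne τ)
      have dK := d_K (A.ne τ) (A.dy τ) h1
      refine ⟨_, _, dK.sub ((hasDerivAt_id τ).mul_const _),
        (((hasDerivAt_id τ).const_mul _).add ((dK.div
          ((hasDerivAt_norm (A.dy τ) (A.ne τ)).const_add v) (by positivity)).const_mul _)).add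
          (h2.const_mul _), ?_⟩
      have k1 := arcB_alg r0 v0 vw w1 (arcB_K (v ^ 2) (A.ne τ) (p τ)) (hd τ (sub hτ) f φ h3).1
        ((norm_nonneg f).trans h3) (hl τ (sub hτ))
      linarith [le_of_abs_le (hd τ (sub hτ) f φ h3).2, le_of_abs_le (hE τ (sub hτ))]
  have lo := sub_le_of_deriv_le (f := fun τ => -(10 * w) * τ - (3 + 6 * T) * F τ)
    (g := fun τ => dot (y τ) (p τ) - τ * ‖p 0‖ ^ 2) ht.1
    fun τ hτ => by
      obtain ⟨f, φ, h1, h2, h3⟩ := A.dp τ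
      refine ⟨_, _, ((hasDerivAt_id τ).const_mul _).sub (h2.const_mul _),
        (d_K (A.ne τ) (A.dy τ) h1).sub ((hasDerivAt_id τ).mul_const _), ?_⟩
      have k1 : 0 ≤ v ^ 2 / ‖y τ‖ := by positivity
      linarith [neg_le_of_abs_le (hd τ (sub hτ) f φ h3).2, neg_le_of_abs_le (hE τ (sub hτ))]
  have b1 := mul_le_mul_of_nonneg_left ht.2 w0.le
  have b2 := mul_le_mul_of_nonneg_left F1 (show 0 ≤ 7 + 6 * T by linarith)
  have b3 := mul_le_mul_of_nonneg_left F1 (show 0 ≤ 3 + 6 * T by linarith)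
  have b4 := mul_le_mul_of_nonneg_left (le_of_abs_le (hL t ht)) v0.le
  have b5 := mul_le_mul_of_nonneg_left (neg_le_of_abs_le (hL 0 ⟨le_rfl, T0⟩)) v0.le
  have b6 := mul_nonneg w0.le T0
  rw [arcB_line, abs_le]
  constructor <;> linarith

/-- a perturbed Kepler arc with small coupling: straight line, or bounce at the centre -/
theorem arcB {Tm e : ℝ} (hT : 0 < Tm) (he : 0 < e) : ∃ e' > 0,
    ∀ (g : ℝ) (y p : ℝ → ℂ) (F : ℝ → ℝ) (T : ℝ), Arc g y p F → 0 < g → g ≤ e' →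
    0 ≤ T → T ≤ Tm → 1 / 4 ≤ ‖y 0‖ → ‖y 0‖ ≤ 2 → ‖p 0‖ ≤ 5 →
    (∀ τ ∈ Icc 0 T, |hh g (y τ) (p τ) - hh g (y 0) (p 0)| ≤ e') → F T - F 0 ≤ e' →
    |dot (y T) (p T) - dot (y 0 + (T : ℂ) * p 0) (p 0)| ≤ e ∧
      (∀ τ ∈ Icc 0 T, |‖y τ‖ ^ 2 - ‖y 0 + (τ : ℂ) * p 0‖ ^ 2| ≤ e) ∧
      (‖y T - (y 0 + (T : ℂ) * p 0)‖ ≤ e ∨ ∃ τ ∈ Icc 0 T, ‖y τ‖ ^ 2 ≤ e) := by
  obtain ⟨c1, e1⟩ : ∃ c1, c1 = 55 + 53 * Tm := ⟨_, rfl⟩
  obtain ⟨c2, e2⟩ : ∃ c2, c2 = Tm / e + 1 := ⟨_, rfl⟩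
  have c10 : 0 < c1 := by rw [e1]; positivity
  have c20 : 0 < c2 := by rw [e2]; positivity
  obtain ⟨w, w0, w1, hw⟩ : ∃ w : ℝ, 0 < w ∧ w ≤ 1 ∧ w * (c1 + 2 * c1 * Tm + c2 * Tm) ≤ e :=
    ⟨min 1 (e / (c1 + 2 * c1 * Tm + c2 * Tm)), by positivity, min_le_left _ _,
      (le_div_iff₀ (by positivity)).1 (min_le_right _ _)⟩
  refine ⟨w ^ 2, by positivity, fun g y p F T A g0 gw T0 T1 y0 y1 p0 hE hF => ?_⟩
  have ww : w ^ 2 ≤ w := by nlinarith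
  have n1 : 0 < w * c1 := by positivity
  have n2 : 0 < w * c1 * Tm := by positivity
  have n3 : 0 < w * c2 * Tm := by positivity
  have h1 : ∀ τ ∈ Icc 0 T, |dot (y τ) (p τ) - dot (y 0 + (τ : ℂ) * p 0) (p 0)| ≤ w * c1 :=
    fun τ hτ => (arcB_vir A g0 w0 w1 gw y0 y1 p0 hE hF τ hτ).trans
      (mul_le_mul_of_nonneg_left (by linarith) w0.le)
  refine ⟨(h1 T ⟨T0, le_rfl⟩).trans (by linarith), fun t ht => ?_, ?_⟩
  · have := abs_sub_le_of_deriv (f := fun τ => ‖y τ‖ ^ 2 - ‖y 0 + (τ : ℂ) * p 0‖ ^ 2)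
      (g := fun τ => 2 * (w * c1) * τ) ht.1 fun τ hτ => by
        refine ⟨_, _, (hasDerivAt_normSq (A.dy τ)).sub (hasDerivAt_normSq (arcB_dline _ _ τ)),
          (hasDerivAt_id τ).const_mul _, ?_⟩
        rw [← mul_sub, abs_mul, abs_two]
        linarith [h1 τ ⟨hτ.1, hτ.2.trans ht.2⟩]
    simp only [ofReal_zero, zero_mul, add_zero, sub_self, sub_zero, mul_zero] at this
    linarith [mul_le_mul_of_nonneg_left (ht.2.trans T1) n1.le]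
  · refine or_iff_not_imp_right.2 fun hn => ?_
    push Not at hn
    have h2 : ∀ t ∈ Icc 0 T, ‖p t - p 0‖ ≤ w * c2 := fun t ht => by
      have := norm_sub_le_of_deriv (f := p) (g := fun τ => w / e * τ + F τ) ht.1 fun τ hτ => by
        obtain ⟨f, φ, k1, k2, k3⟩ := A.dp τ
        refine ⟨_, _, k1, ((hasDerivAt_id τ).const_mul _).add k2, (norm_add_le _ _).trans ?_⟩
        rw [norm_acc g0.le (A.ne τ), mul_one]
        exact add_le_add (div_le_div₀ w0.le (gw.trans ww) he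
          (hn τ ⟨hτ.1, hτ.2.trans ht.2⟩).le) k3
      have k1 := mul_le_mul_of_nonneg_left (ht.2.trans T1) (show 0 ≤ w / e by positivity)
      have k2 : w * c2 = w / e * Tm + w := by rw [e2]; ring
      linarith [arcB_F A ht.2]
    have := norm_sub_le_of_deriv (f := fun τ => y τ - (y 0 + (τ : ℂ) * p 0))
      (g := fun τ => w * c2 * τ) T0 fun τ hτ =>
        ⟨_, _, (A.dy τ).sub (arcB_dline _ _ τ), (hasDerivAt_id τ).const_mul _, by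
          rw [mul_one]; exact h2 τ hτ⟩
    simp only [ofReal_zero, zero_mul, add_zero, sub_self, sub_zero, mul_zero] at this
    linarith [mul_le_mul_of_nonneg_left T1 (mul_pos w0 c20).le]

end Pool.Agent.Lib.MP_e310f3_mp.Gap
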