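import Pool.Agent.Lib.MP_e310f3_mp.Gap.AsyX

open Complex Filter Topology Set

noncomputable section

namespace Pool.Agent.Lib.MP_e310f3_mp.Gap

open AsyX

/-- convergence of the velocity of the first body -/
private lemma conv_u1 {κ : ℝ} (S : Sol κ) {L1 L12 : ℂ} (n1 : L1 ≠ 0) (n12 : L12 ≠ 0)
    (h1 : Tendsto (fun t : ℝ => ((t⁻¹ : ℝ) : ℂ) * S.x1 t) atTop (𝓝 L1))
    (h12 : Tendsto (fun t : ℝ => ((t⁻¹ : ℝ) : ℂ) * (S.x1 t - S.x2 t)) atTop (𝓝 L12)) :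
    ∃ γ, Tendsto S.u1 atTop (𝓝 γ) := by
  obtain ⟨T, hT⟩ := eventually_atTop.1 ((lin_lower n1 h1).and (lin_lower n12 h12))
  have a1 : 0 < ‖L1‖ := norm_pos_iff.2 n1
  have a2 : 0 < ‖L12‖ := norm_pos_iff.2 n12
  have hk : 0 ≤ κ ^ 4 := by positivity
  refine conv_of_deriv (T := max T 1) (C := 1 / (‖L1‖ / 2) ^ 2 + κ ^ 4 / (‖L12‖ / 2) ^ 2)
    (lt_of_lt_of_le one_pos (le_max_right _ _)) ?_
  intro t ht
  have ht0 : 0 < t := lt_of_lt_of_le one_pos ((le_max_right _ _).trans ht)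
  obtain ⟨b1, b2⟩ := hT t ((le_max_left _ _).trans ht)
  refine ⟨_, S.du1 t, (norm_add_le _ _).trans ?_⟩
  rw [norm_acc zero_le_one (S.ne1 t), norm_acc hk (sub_ne_zero.2 (S.ne12 t)), add_div, div_div,
    div_div, ← mul_pow, ← mul_pow]
  gcongr

theorem asy_of {κ : ℝ} (S : Sol κ) (β1 β2 : ℂ)
    (h1 : Tendsto (fun t : ℝ => ((t⁻¹ : ℝ) : ℂ) * S.x1 t) atTop
      (𝓝 (β1 + ((κ ^ 4 : ℝ) : ℂ) * (β1 + β2))))
    (h2 : Tendsto (fun t : ℝ => ((t⁻¹ : ℝ) : ℂ) * S.x2 t) atTop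
      (𝓝 (β2 + ((κ ^ 4 : ℝ) : ℂ) * (β1 + β2))))
    (n1 : β1 + ((κ ^ 4 : ℝ) : ℂ) * (β1 + β2) ≠ 0) (n2 : β2 + ((κ ^ 4 : ℝ) : ℂ) * (β1 + β2) ≠ 0)
    (n12 : β1 ≠ β2) : S.Asy β1 β2 := by
  have h12 := mean_sub h1 h2
  have h21 := mean_sub h2 h1
  have e12 : β1 + ((κ ^ 4 : ℝ) : ℂ) * (β1 + β2) - (β2 + ((κ ^ 4 : ℝ) : ℂ) * (β1 + β2))
      = β1 - β2 := by ring
  have e21 : β2 + ((κ ^ 4 : ℝ) : ℂ) * (β1 + β2) - (β1 + ((κ ^ 4 : ℝ) : ℂ) * (β1 + β2))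
      = β2 - β1 := by ring
  rw [e12] at h12
  rw [e21] at h21
  have m12 : β1 - β2 ≠ 0 := sub_ne_zero.2 n12
  have m21 : β2 - β1 ≠ 0 := sub_ne_zero.2 n12.symm
  obtain ⟨γ1, g1⟩ := conv_u1 S n1 m12 h1 h12
  obtain ⟨γ2, g2⟩ := conv_u1 S.swap n2 m21 h2 h21
  have g2' : Tendsto S.u2 atTop (𝓝 γ2) := g2
  have k1 := mean_of_deriv S.dx1 (g1.add ((g1.add g2').const_mul ((κ ^ 4 : ℝ) : ℂ)))
  have k2 := mean_of_deriv S.dx2 (g2'.add ((g1.add g2').const_mul ((κ ^ 4 : ℝ) : ℂ)))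
  have l1 := tendsto_nhds_unique k1 h1
  have l2 := tendsto_nhds_unique k2 h2
  have hne : (1 + 2 * ((κ ^ 4 : ℝ) : ℂ)) ≠ 0 := by
    have : (0 : ℝ) < 1 + 2 * κ ^ 4 := by positivity
    exact_mod_cast this.ne'
  have hs : γ1 + γ2 = β1 + β2 := by
    apply mul_left_cancel₀ hne
    linear_combination l1 + l2
  have r1 : γ1 = β1 := by rw [hs] at l1; linear_combination l1
  have r2 : γ2 = β2 := by rw [hs] at l2; linear_combination l2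
  rw [r1] at g1
  rw [r2] at g2'
  refine ⟨g1, g2', h1, h2, ?_⟩
  have E := (((((g1.norm.pow 2).add (g2'.norm.pow 2)).div_const 2).add
    ((((g1.add g2').norm.pow 2).const_mul (κ ^ 4)).div_const 2)).sub
    (div_norm_zero n1 1 h1)).sub (div_norm_zero n2 1 h2) |>.sub (div_norm_zero m12 (κ ^ 4) h12)
  have E2 := E.congr (fun t => S.energy t)
  have := tendsto_nhds_unique E2 tendsto_const_nhds
  linarith

private lemma asy_swap {κ : ℝ} {S : Sol κ} {β1 β2 : ℂ} (h : S.Asy β1 β2) : S.swap.Asy β2 β1 := by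
  refine ⟨h.tu2, h.tu1, ?_, ?_, ?_⟩
  · rw [add_comm β2 β1]; exact h.tx2
  · rw [add_comm β2 β1]; exact h.tx1
  · rw [add_comm β2 β1]; linarith [h.en]

private lemma asy_le {κ : ℝ} {S : Sol κ} {β1 β2 : ℂ} (h : S.Asy β1 β2) :
    ‖β1‖ ≤ 3 / 2 ∧ ‖β2‖ ≤ 3 / 2 ∧ ‖((κ ^ 4 : ℝ) : ℂ) * (β1 + β2)‖ ≤ 3 * κ ^ 4 ∧
      1 - 5 * κ ^ 4 ≤ (‖β1‖ ^ 2 + ‖β2‖ ^ 2) / 2 ∧ (‖β1‖ ^ 2 + ‖β2‖ ^ 2) / 2 ≤ 1 := by
  have e := h.en
  have hk : 0 ≤ κ ^ 4 := by positivity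
  have h0 : 0 ≤ κ ^ 4 * ‖β1 + β2‖ ^ 2 := by positivity
  have a1 : ‖β1‖ ≤ 3 / 2 := by nlinarith [norm_nonneg β1, sq_nonneg ‖β2‖]
  have a2 : ‖β2‖ ≤ 3 / 2 := by nlinarith [norm_nonneg β2, sq_nonneg ‖β1‖]
  have a3 : ‖β1 + β2‖ ≤ 3 := (norm_add_le _ _).trans (by linarith)
  have a4 : ‖β1 + β2‖ ^ 2 ≤ 9 := by nlinarith [norm_nonneg (β1 + β2)]
  refine ⟨a1, a2, ?_, by nlinarith, by linarith⟩
  rw [norm_mul, Complex.norm_real, Real.norm_eq_abs, abs_of_nonneg hk]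
  nlinarith

private lemma pow_bounds {κ : ℝ} (hκ : 0 < κ) (hκ1 : κ ≤ 1 / 10) :
    κ ^ 3 ≤ κ / 100 ∧ κ ^ 4 ≤ κ / 1000 ∧ κ ^ 4 ≤ 1 / 10000 := by
  have h2 : κ ^ 2 ≤ 1 / 100 := by nlinarith
  have h3 : κ ^ 3 ≤ κ / 100 := by nlinarith
  have h4 : κ ^ 4 ≤ κ / 1000 := by nlinarith
  exact ⟨h3, h4, by linarith⟩

private lemma asy_oc1 {θ : ℝ} (hθ : 0 < θ) : Small fun κ => ∀ (S : Sys κ) (β1 β2 : ℂ),
    S.Asy β1 β2 → 1 / 10 ≤ ‖β1‖ → 1 / 10 ≤ ‖β2‖ → β1 ≠ β2 → ∀ᶠ t in atTop,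
      OC (1 + κ ^ 4) θ (S.y1 t) (S.p1 t) (β1 / (‖β1‖ : ℂ)) (‖β1‖ ^ 2 / 2) := by
  obtain ⟨e, he, H⟩ := oc_pure hθ
  refine ((small_le (c := 1 / 10) (by norm_num)).and (small_le he)).mono ?_
  rintro κ ⟨⟨hκ, hκ1⟩, -, hκe⟩ S β1 β2 hA b1 b2 b12
  obtain ⟨p3, p4, p4'⟩ := pow_bounds hκ hκ1
  obtain ⟨c1, c2, c3, -, -⟩ := asy_le hA
  have hk : 0 < κ ^ 4 := by positivity
  have n1 : β1 + ((κ ^ 4 : ℝ) : ℂ) * (β1 + β2) ≠ 0 := by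
    intro h0
    have := congrArg norm (eq_neg_of_add_eq_zero_left h0)
    rw [norm_neg] at this
    linarith
  have n2 : β2 + ((κ ^ 4 : ℝ) : ℂ) * (β1 + β2) ≠ 0 := by
    intro h0
    have := congrArg norm (eq_neg_of_add_eq_zero_left h0)
    rw [norm_neg] at this
    linarith
  have h12 := mean_sub hA.tx1 hA.tx2
  have e12 : β1 + ((κ ^ 4 : ℝ) : ℂ) * (β1 + β2) - (β2 + ((κ ^ 4 : ℝ) : ℂ) * (β1 + β2))
      = β1 - β2 := by ring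
  rw [e12] at h12
  have w1 := (div_norm_zero n1 1 hA.tx1).eventually (gt_mem_nhds one_pos)
  have w2 := (div_norm_zero n2 1 hA.tx2).eventually (gt_mem_nhds one_pos)
  have w3 := (div_norm_zero (sub_ne_zero.2 b12) (κ ^ 4) h12).eventually (gt_mem_nhds one_pos)
  have w4 := (div_norm_zero n1 4 hA.tx1).eventually (gt_mem_nhds hκ)
  have w5 := (tendsto_iff_norm_sub_tendsto_zero.1 hA.tu1).eventually
    (gt_mem_nhds (half_pos hκ))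
  have w6 := (tendsto_iff_norm_sub_tendsto_zero.1 hA.tx1).eventually
    (gt_mem_nhds (half_pos hκ))
  filter_upwards [w1, w2, w3, w4, w5, w6, eventually_gt_atTop 0] with t t1 t2 t3 t4 t5 t6 ht
  have hW : S.W t ≤ 2 := by
    have h1 := S.W_sq t
    have h2 : κ ^ 4 / S.rho t < 1 := t3
    nlinarith
  have hx0 : 0 < ‖S.x1 t‖ := norm_pos_iff.2 (S.ne1 t)
  have hy0 : 0 < ‖S.y1 t‖ := norm_pos_iff.2 (S.ny1 t)
  have hyx := S.yx1 t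
  refine H (1 + κ ^ 4) t⁻¹ _ _ _ (inv_pos.2 ht) (S.ny1 t) b1 c1 ?_ ?_ ?_
  · have e1 : ((t⁻¹ : ℝ) : ℂ) * S.y1 t - β1 = ((t⁻¹ : ℝ) : ℂ) * (S.y1 t - S.x1 t) +
        (((t⁻¹ : ℝ) : ℂ) * S.x1 t - (β1 + ((κ ^ 4 : ℝ) : ℂ) * (β1 + β2))) +
        ((κ ^ 4 : ℝ) : ℂ) * (β1 + β2) := by ring
    have e2 : ‖((t⁻¹ : ℝ) : ℂ) * S.x1 t‖ ≤ 2 := by
      have e3 : ((t⁻¹ : ℝ) : ℂ) * S.x1 t =
          (((t⁻¹ : ℝ) : ℂ) * S.x1 t - (β1 + ((κ ^ 4 : ℝ) : ℂ) * (β1 + β2))) + β1 +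
          ((κ ^ 4 : ℝ) : ℂ) * (β1 + β2) := by ring
      rw [e3]
      refine norm_add₃_le.trans ?_
      linarith
    have e4 : ‖((t⁻¹ : ℝ) : ℂ) * (S.y1 t - S.x1 t)‖ ≤ 2 * κ ^ 4 := by
      rw [norm_inv_mul ht] at e2 ⊢
      rw [div_le_iff₀ ht] at e2 ⊢
      nlinarith
    rw [e1]
    refine norm_add₃_le.trans ?_
    linarith
  · have e1 : S.p1 t - β1 = (S.p1 t - S.u1 t) + (S.u1 t - β1) := by ring
    have e2 := S.pu1 t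
    have e3 : 0 < κ ^ 3 := by positivity
    rw [e1]
    refine (norm_add_le _ _).trans ?_
    nlinarith
  · have e1 : ‖S.x1 t‖ / 2 ≤ ‖S.y1 t‖ := by
      have := norm_sub_norm_le (S.x1 t) (S.y1 t)
      rw [norm_sub_rev] at this
      nlinarith
    rw [abs_of_pos (by positivity), div_le_iff₀ hy0]
    rw [div_lt_iff₀ hx0] at t4
    nlinarith

theorem asy_oc {θ : ℝ} (hθ : 0 < θ) : Small fun κ => ∀ (S : Sys κ) (β1 β2 : ℂ), S.Asy β1 β2 →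
    1 / 10 ≤ ‖β1‖ → 1 / 10 ≤ ‖β2‖ → β1 ≠ β2 → ∀ᶠ t in atTop,
      OC (1 + κ ^ 4) θ (S.y1 t) (S.p1 t) (β1 / (‖β1‖ : ℂ)) (‖β1‖ ^ 2 / 2) ∧
      OC (1 + κ ^ 4) θ (S.y2 t) (S.p2 t) (β2 / (‖β2‖ : ℂ)) (‖β2‖ ^ 2 / 2) := by
  refine (asy_oc1 hθ).mono ?_
  intro κ H S β1 β2 hA b1 b2 b12
  exact (H S β1 β2 hA b1 b2 b12).and (H S.swap β2 β1 (asy_swap hA) b2 b1 b12.symm)

theorem asy_free {γ : ℝ} (hγ : 0 < γ) : Small fun κ => ∀ (S : Sol κ) (β1 β2 : ℂ), S.Asy β1 β2 →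
    γ ≤ ‖β1 - β2‖ → ∀ᶠ t in atTop, κ * S.R t < S.rho t := by
  refine ((small_le (c := 1 / 10) (by norm_num)).and (small_le (c := γ / 5) (by linarith))).mono ?_
  rintro κ ⟨⟨hκ, hκ1⟩, -, hκe⟩ S β1 β2 hA b12
  obtain ⟨p3, p4, p4'⟩ := pow_bounds hκ hκ1
  obtain ⟨c1, c2, c3, -, -⟩ := asy_le hA
  have h12 := mean_sub hA.tx1 hA.tx2
  have e12 : β1 + ((κ ^ 4 : ℝ) : ℂ) * (β1 + β2) - (β2 + ((κ ^ 4 : ℝ) : ℂ) * (β1 + β2))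
      = β1 - β2 := by ring
  rw [e12] at h12
  have d1 : ‖β1 + ((κ ^ 4 : ℝ) : ℂ) * (β1 + β2)‖ < 2 :=
    lt_of_le_of_lt (norm_add_le _ _) (by linarith)
  have d2 : ‖β2 + ((κ ^ 4 : ℝ) : ℂ) * (β1 + β2)‖ < 2 :=
    lt_of_le_of_lt (norm_add_le _ _) (by linarith)
  have w1 := hA.tx1.norm.eventually (gt_mem_nhds d1)
  have w2 := hA.tx2.norm.eventually (gt_mem_nhds d2)
  have w3 := h12.norm.eventually (lt_mem_nhds (show 4 / 5 * γ < ‖β1 - β2‖ by linarith))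
  filter_upwards [w1, w2, w3, eventually_gt_atTop 0] with t t1 t2 t3 ht
  rw [norm_inv_mul ht, div_lt_iff₀ ht] at t1 t2
  rw [norm_inv_mul ht, lt_div_iff₀ ht] at t3
  have hR : S.R t ≤ 4 * t := by
    have h1 := S.R_sq_le t
    have h2 := norm_nonneg (S.x1 t)
    have h3 := norm_nonneg (S.x2 t)
    have h4 : S.R t ^ 2 ≤ (4 * t) ^ 2 := by nlinarith
    exact (abs_le_of_sq_le_sq' h4 (by linarith)).2
  have : κ * S.R t ≤ γ / 5 * (4 * t) := mul_le_mul hκe hR (S.R_pos t).le (by linarith)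
  unfold Sol.rho
  linarith

/-- the scale of the incoming velocities -/
private lemma in_scale {κ k : ℝ} {S : Sol κ} (hκ : 0 < κ) (hκ1 : κ ≤ 1 / 10) (hk : 0 < k)
    (hA : S.Asy ((k : ℝ) : ℂ) ((-(7 * k) : ℝ) : ℂ)) :
    ‖((k : ℝ) : ℂ)‖ = k ∧ ‖((-(7 * k) : ℝ) : ℂ)‖ = 7 * k ∧ 1 / 10 ≤ k ∧
      |k ^ 2 / 2 - 1 / 50| ≤ κ ∧ |(7 * k) ^ 2 / 2 - 49 / 50| ≤ κ := by
  obtain ⟨p3, p4, p4'⟩ := pow_bounds hκ hκ1
  obtain ⟨-, -, -, c4, c5⟩ := asy_le hA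
  have a1 : ‖((k : ℝ) : ℂ)‖ = k := by rw [Complex.norm_real, Real.norm_eq_abs, abs_of_pos hk]
  have a2 : ‖((-(7 * k) : ℝ) : ℂ)‖ = 7 * k := by
    rw [Complex.norm_real, Real.norm_eq_abs, abs_neg, abs_of_pos (by linarith)]
  rw [a1, a2] at c4 c5
  refine ⟨a1, a2, by nlinarith, ?_, ?_⟩
  · rw [abs_le]; constructor <;> nlinarith
  · rw [abs_le]; constructor <;> nlinarith

theorem in_oc {θ : ℝ} (hθ : 0 < θ) : Small fun κ => ∀ S : Sys κ, S.In → ∀ᶠ t in atTop,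
    OC (1 + κ ^ 4) θ (S.rev.y1 t) (S.rev.p1 t) 1 (1 / 50) ∧
    OC (1 + κ ^ 4) θ (S.rev.y2 t) (S.rev.p2 t) (-1) (49 / 50) := by
  have hθ2 := half_pos hθ
  refine (((small_le (c := 1 / 10) (by norm_num)).and (small_le hθ2)).and (asy_oc hθ2)).mono ?_
  rintro κ ⟨⟨⟨hκ, hκ1⟩, -, hκe⟩, H⟩ S ⟨k, hk, hA⟩
  obtain ⟨a1, a2, a3, a4, a5⟩ := in_scale hκ hκ1 hk hA
  have hne : ((k : ℝ) : ℂ) ≠ ((-(7 * k) : ℝ) : ℂ) := by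
    intro h
    have := Complex.ofReal_injective h
    linarith
  have h := H S.rev _ _ hA (by rw [a1]; exact a3) (by rw [a2]; linarith) hne
  rw [a1, a2] at h
  have hk1 : ((k : ℝ) : ℂ) ≠ 0 := by exact_mod_cast hk.ne'
  have e1 : ((k : ℝ) : ℂ) / ((k : ℝ) : ℂ) = 1 := div_self hk1
  have e2 : ((-(7 * k) : ℝ) : ℂ) / ((7 * k : ℝ) : ℂ) = -1 := by
    push_cast
    field_simp
  rw [e1, e2] at h
  filter_upwards [h] with t ht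
  exact ⟨OC_shift ht.1 hθ2.le (a4.trans hκe) (by linarith),
    OC_shift ht.2 hθ2.le (a5.trans hκe) (by linarith)⟩

theorem in_free : Small fun κ => ∀ S : Sol κ, S.In → ∀ᶠ t in atBot, κ * S.R t < S.rho t := by
  refine ((small_le (c := 1 / 10) (by norm_num)).and (asy_free (γ := 1 / 2) (by norm_num))).mono ?_
  rintro κ ⟨⟨hκ, hκ1⟩, H⟩ S ⟨k, hk, hA⟩
  obtain ⟨a1, a2, a3, a4, a5⟩ := in_scale hκ hκ1 hk hA
  have h := H S.rev _ _ hA (by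
    rw [← Complex.ofReal_sub, Complex.norm_real, Real.norm_eq_abs, abs_of_pos (by linarith)]
    linarith)
  filter_upwards [tendsto_neg_atBot_atTop.eventually h] with t ht
  simpa using ht

private lemma out_real {κ k δ x y : ℝ} (p4 : κ ^ 4 ≤ κ / 1000) (hκ : 0 < κ) (hκ1 : κ ≤ 1 / 10)
    (hk : 0 < k) (hδ : 0 < δ) (hδ1 : δ ≤ 1 / 4) (n1 : 0 ≤ x) (n2 : 0 ≤ y) (c1 : x ≤ 3 / 2)
    (c2 : y ≤ 3 / 2) (c4 : 1 - 5 * κ ^ 4 ≤ (x ^ 2 + y ^ 2) / 2) (c5 : (x ^ 2 + y ^ 2) / 2 ≤ 1)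
    (d1 : -(k * δ) ≤ x - k ∧ x - k ≤ k * δ) (d2 : -(k * δ) ≤ y - k ∧ y - k ≤ k * δ) :
    2 / 3 ≤ k ∧ 1 / 10 ≤ x ∧ 1 / 10 ≤ y ∧ |x ^ 2 / 2 - 1 / 2| ≤ κ + 2 * δ ∧
      |y ^ 2 / 2 - 1 / 2| ≤ κ + 2 * δ := by
  have kδ : k * δ ≤ k / 4 := by nlinarith
  have klo : 2 / 3 ≤ k := by
    by_contra hc
    push Not at hc
    have u1 : x ≤ 5 / 6 := by linarith [d1.2]
    have u2 : y ≤ 5 / 6 := by linarith [d2.2]
    have u3 := pow_le_pow_left₀ n1 u1 2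
    have u4 := pow_le_pow_left₀ n2 u2 2
    linarith
  have khi : k ≤ 4 / 3 := by
    by_contra hc
    push Not at hc
    have u1 : 1 < x := by linarith [d1.1]
    have u2 : 1 < y := by linarith [d2.1]
    have u3 : 1 < x ^ 2 := one_lt_pow₀ u1 two_ne_zero
    have u4 : 1 < y ^ 2 := one_lt_pow₀ u2 two_ne_zero
    linarith
  have kδ2 : k * δ ≤ 4 / 3 * δ := mul_le_mul_of_nonneg_right khi hδ.le
  have f1 : (x - y) * (x + y) ≤ 8 / 3 * δ * 3 :=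
    mul_le_mul (by linarith [d1.2, d2.1]) (by linarith) (by linarith) (by linarith)
  have f2 : (y - x) * (x + y) ≤ 8 / 3 * δ * 3 :=
    mul_le_mul (by linarith [d1.1, d2.2]) (by linarith) (by linarith) (by linarith)
  refine ⟨klo, by linarith [d1.1], by linarith [d2.1], ?_, ?_⟩
  · rw [abs_le]; constructor <;> linarith
  · rw [abs_le]; constructor <;> linarith

/-- the scale of the outgoing velocities -/
private lemma out_scale {κ k δ : ℝ} {S : Sol κ} {b β1 β2 : ℂ} (hκ : 0 < κ) (hκ1 : κ ≤ 1 / 10)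
    (hk : 0 < k) (hb : ‖b‖ = 1) (hδ : 0 < δ) (hδ1 : δ ≤ 1 / 4) (hA : S.Asy β1 β2)
    (h1 : ‖β1 - (k : ℂ) * b‖ ≤ k * δ) (h2 : ‖β2 - (k : ℂ) * (starRingEnd ℂ) b‖ ≤ k * δ) :
    ‖(k : ℂ) * b‖ = k ∧ ‖(k : ℂ) * (starRingEnd ℂ) b‖ = k ∧ 2 / 3 ≤ k ∧ 1 / 10 ≤ ‖β1‖ ∧
      1 / 10 ≤ ‖β2‖ ∧ |‖β1‖ ^ 2 / 2 - 1 / 2| ≤ κ + 2 * δ ∧ |‖β2‖ ^ 2 / 2 - 1 / 2| ≤ κ + 2 * δ ∧
      k * (2 * b.im - 2 * δ) ≤ ‖β1 - β2‖ := by
  obtain ⟨p3, p4, p4'⟩ := pow_bounds hκ hκ1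
  obtain ⟨c1, c2, -, c4, c5⟩ := asy_le hA
  have a1 : ‖(k : ℂ) * b‖ = k := by
    rw [norm_mul, hb, Complex.norm_real, Real.norm_eq_abs, abs_of_pos hk, mul_one]
  have a2 : ‖(k : ℂ) * (starRingEnd ℂ) b‖ = k := by
    rw [norm_mul, Complex.norm_conj, hb, Complex.norm_real, Real.norm_eq_abs, abs_of_pos hk,
      mul_one]
  have d1 := abs_le.1 ((abs_norm_sub_norm_le _ _).trans h1)
  have d2 := abs_le.1 ((abs_norm_sub_norm_le _ _).trans h2)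
  rw [a1] at d1
  rw [a2] at d2
  obtain ⟨r1, r2, r3, r4, r5⟩ := out_real p4 hκ hκ1 hk hδ hδ1 (norm_nonneg β1) (norm_nonneg β2)
    c1 c2 c4 c5 d1 d2
  refine ⟨a1, a2, r1, r2, r3, r4, r5, ?_⟩
  · have g1 := abs_le.1 ((Complex.abs_im_le_norm _).trans h1)
    have g2 := abs_le.1 ((Complex.abs_im_le_norm _).trans h2)
    have g3 := (le_abs_self _).trans (Complex.abs_im_le_norm (β1 - β2))
    simp only [sub_im, mul_im, ofReal_re, ofReal_im, zero_mul, add_zero, conj_im] at g1 g2 g3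
    linarith [g1.1, g2.2]

theorem out_oc {θ : ℝ} (hθ : 0 < θ) : ∃ δ0 > 0, Small fun κ => ∀ (S : Sys κ) (b : ℂ) (δ : ℝ),
    ‖b‖ = 1 → 0 < δ → δ ≤ δ0 → 4 * δ ≤ b.im → S.Out b δ →
    ∃ ν1 ν2 : ℂ, ‖ν1‖ = 1 ∧ ‖ν2‖ = 1 ∧ ‖ν1 - b‖ ≤ 3 * δ ∧ ‖ν2 - (starRingEnd ℂ) b‖ ≤ 3 * δ ∧
      ∀ᶠ t in atTop, OC (1 + κ ^ 4) θ (S.y1 t) (S.p1 t) ν1 (1 / 2) ∧
        OC (1 + κ ^ 4) θ (S.y2 t) (S.p2 t) ν2 (1 / 2) := by
  have hθ2 := half_pos hθ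
  refine ⟨min (1 / 4) (θ / 8), by positivity, ?_⟩
  refine (((small_le (c := 1 / 10) (by norm_num)).and (small_le (c := θ / 4) (by linarith))).and
    (asy_oc hθ2)).mono ?_
  rintro κ ⟨⟨⟨hκ, hκ1⟩, -, hκe⟩, H⟩ S b δ hb hδ hδ0 him ⟨β1, β2, k, hA, hk, h1, h2⟩
  have hδ1 : δ ≤ 1 / 4 := hδ0.trans (min_le_left _ _)
  have hδ2 : δ ≤ θ / 8 := hδ0.trans (min_le_right _ _)
  obtain ⟨a1, a2, a3, a4, a5, a6, a7, a8⟩ := out_scale hκ hκ1 hk hb hδ hδ1 hA h1 h2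
  have hne : β1 ≠ β2 := by
    intro h
    rw [h, sub_self, norm_zero] at a8
    nlinarith
  have n1 : β1 ≠ 0 := norm_pos_iff.1 (by linarith)
  have n2 : β2 ≠ 0 := norm_pos_iff.1 (by linarith)
  have hk1 : (k : ℂ) ≠ 0 := by exact_mod_cast hk.ne'
  refine ⟨β1 / (‖β1‖ : ℂ), β2 / (‖β2‖ : ℂ), norm_unit n1, norm_unit n2, ?_, ?_, ?_⟩
  · have u := unit_close (b := (k : ℂ) * b) one_pos n1 (norm_pos_iff.1 (by rw [a1]; exact hk))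
    rw [a1, mul_div_cancel_left₀ _ hk1, Complex.ofReal_one, one_mul] at u
    refine u.trans ?_
    rw [div_le_iff₀ hk]
    nlinarith
  · have u := unit_close (b := (k : ℂ) * (starRingEnd ℂ) b) one_pos n2
      (norm_pos_iff.1 (by rw [a2]; exact hk))
    rw [a2, mul_div_cancel_left₀ _ hk1, Complex.ofReal_one, one_mul] at u
    refine u.trans ?_
    rw [div_le_iff₀ hk]
    nlinarith
  · filter_upwards [H S _ _ hA a4 a5 hne] with t ht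
    exact ⟨OC_shift ht.1 hθ2.le (a6.trans (by linarith)) (by linarith),
      OC_shift ht.2 hθ2.le (a7.trans (by linarith)) (by linarith)⟩

theorem out_free {γ : ℝ} (hγ : 0 < γ) : Small fun κ => ∀ (S : Sol κ) (b : ℂ) (δ : ℝ),
    ‖b‖ = 1 → 0 < δ → γ ≤ b.im → 4 * δ ≤ b.im → S.Out b δ →
    ∀ᶠ t in atTop, κ * S.R t < S.rho t := by
  refine ((small_le (c := 1 / 10) (by norm_num)).and (asy_free hγ)).mono ?_
  rintro κ ⟨⟨hκ, hκ1⟩, H⟩ S b δ hb hδ hγb him ⟨β1, β2, k, hA, hk, h1, h2⟩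
  have hb1 : b.im ≤ 1 := by
    have := (le_abs_self _).trans (Complex.abs_im_le_norm b)
    linarith
  obtain ⟨a1, a2, a3, a4, a5, a6, a7, a8⟩ := out_scale hκ hκ1 hk hb hδ (by linarith) hA h1 h2
  refine H S _ _ hA (le_trans ?_ a8)
  have : 2 / 3 * (2 * b.im - 2 * δ) ≤ k * (2 * b.im - 2 * δ) :=
    mul_le_mul_of_nonneg_right a3 (by linarith)
  linarith

theorem out_c12 : Small fun κ => ∀ (S : Sol κ) (b : ℂ) (δ : ℝ),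
    ‖b‖ = 1 → ‖b + 1‖ ≤ 1 / 20 → 0 < δ → δ ≤ 1 / 20 → S.Out b δ →
    ∀ᶠ t in atTop, 1 / 2 ≤ S.c12 t := by
  refine (small_le (c := 1 / 10) (by norm_num)).mono ?_
  rintro κ ⟨hκ, hκ1⟩ S b δ hb hb1 hδ hδ1 ⟨β1, β2, k, hA, hk, h1, h2⟩
  obtain ⟨a1, a2, a3, -⟩ := out_scale hκ hκ1 hk hb hδ (by linarith) hA h1 h2
  obtain ⟨p3, p4, p4'⟩ := pow_bounds hκ hκ1
  obtain ⟨-, -, c3, -, -⟩ := asy_le hA
  have hkn : ‖(k : ℂ)‖ = k := by rw [Complex.norm_real, Real.norm_eq_abs, abs_of_pos hk]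
  have hb2 : ‖(starRingEnd ℂ) b + 1‖ ≤ 1 / 20 := by
    rw [← Complex.norm_conj, map_add, Complex.conj_conj, map_one]; exact hb1
  have kδ : k * δ ≤ k / 20 := by nlinarith
  have key : ∀ β c z : ℂ, ‖β - (k : ℂ) * c‖ ≤ k * δ → ‖c + 1‖ ≤ 1 / 20 →
      ‖z - (β + ((κ ^ 4 : ℝ) : ℂ) * (β1 + β2))‖ < 1 / 20 → ‖z - (-(k : ℂ))‖ ≤ k / 4 := by
    intro β c z q1 q2 q3
    have e : z - (-(k : ℂ)) = ((z - (β + ((κ ^ 4 : ℝ) : ℂ) * (β1 + β2))) +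
        ((κ ^ 4 : ℝ) : ℂ) * (β1 + β2)) + (β - (k : ℂ) * c) + (k : ℂ) * (c + 1) := by ring
    have q4 : ‖(k : ℂ) * (c + 1)‖ ≤ k / 20 := by rw [norm_mul, hkn]; nlinarith
    have q5 := norm_add_le (z - (β + ((κ ^ 4 : ℝ) : ℂ) * (β1 + β2)))
      (((κ ^ 4 : ℝ) : ℂ) * (β1 + β2))
    rw [e]
    refine norm_add₃_le.trans ?_
    linarith
  have w1 := (tendsto_iff_norm_sub_tendsto_zero.1 hA.tx1).eventually
    (gt_mem_nhds (show (0 : ℝ) < 1 / 20 by norm_num))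
  have w2 := (tendsto_iff_norm_sub_tendsto_zero.1 hA.tx2).eventually
    (gt_mem_nhds (show (0 : ℝ) < 1 / 20 by norm_num))
  filter_upwards [w1, w2, eventually_gt_atTop 0] with t t1 t2 ht
  exact cos_ge (inv_pos.2 ht) hk (S.ne1 t) (S.ne2 t) (key _ _ _ h1 hb1 t1) (key _ _ _ h2 hb2 t2)

end Pool.Agent.Lib.MP_e310f3_mp.Gap
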