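import Pool.Agent.Lib.MP_e310f3_mp.Gap.Vir

/-!
Elementary limit lemmas and pointwise estimates used for the asymptotics at infinity.
-/

open Complex Filter Topology Set

noncomputable section

namespace Pool.Agent.Lib.MP_e310f3_mp.Gap

namespace AsyX

/-- a function whose derivative is O(1/t^2) converges -/
lemma conv_of_deriv {f : ℝ → ℂ} {C T : ℝ} (hT : 0 < T)
    (h : ∀ t, T ≤ t → ∃ a : ℂ, HasDerivAt f a t ∧ ‖a‖ ≤ C / t ^ 2) :
    ∃ γ, Tendsto f atTop (𝓝 γ) := by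
  have hC : 0 ≤ C := by
    obtain ⟨a, -, ha⟩ := h T le_rfl
    have h1 : 0 ≤ C / T ^ 2 := (norm_nonneg a).trans ha
    have h2 : 0 < T ^ 2 := by positivity
    by_contra hc
    push Not at hc
    have := div_neg_of_neg_of_pos hc h2
    linarith
  have key : ∀ s t, T ≤ s → s ≤ t → ‖f t - f s‖ ≤ C / s := by
    intro s t hs hst
    have h1 := norm_sub_le_of_deriv (f := f) (g := fun τ => -(C * τ⁻¹)) hst (by
      intro τ hτ
      have hτ0 : 0 < τ := by linarith [hτ.1]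
      obtain ⟨a, ha, hb⟩ := h τ (hs.trans hτ.1)
      refine ⟨a, C / τ ^ 2, ha, ?_, hb⟩
      have := ((hasDerivAt_inv hτ0.ne').const_mul C).neg
      refine this.congr_deriv ?_
      field_simp)
    have ht0 : 0 < t := by linarith
    have : 0 ≤ C * t⁻¹ := by positivity
    rw [div_eq_mul_inv]
    linarith
  apply cauchySeq_tendsto_of_complete
  rw [Metric.cauchySeq_iff']
  intro ε hε
  refine ⟨max T (C / ε + 1), fun n hn => ?_⟩
  rw [dist_eq_norm]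
  have h1 := key _ n (le_max_left _ _) hn
  have hN : 0 < max T (C / ε + 1) := lt_of_lt_of_le hT (le_max_left _ _)
  have h2 : C / max T (C / ε + 1) < ε := by
    rw [div_lt_iff₀ hN]
    have h3 : C / ε + 1 ≤ max T (C / ε + 1) := le_max_right _ _
    have h4 : ε * (C / ε + 1) = C + ε := by field_simp
    nlinarith
  linarith

/-- the mean velocity has the same limit as the velocity -/
lemma mean_of_deriv {x v : ℝ → ℂ} {γ : ℂ} (hx : ∀ t, HasDerivAt x (v t) t)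
    (hv : Tendsto v atTop (𝓝 γ)) :
    Tendsto (fun t : ℝ => ((t⁻¹ : ℝ) : ℂ) * x t) atTop (𝓝 γ) := by
  rw [Metric.tendsto_atTop] at hv ⊢
  intro ε hε
  obtain ⟨T, hT⟩ := hv (ε / 2) (by linarith)
  set T1 := max T 1 with hT1
  have hT10 : 0 < T1 := lt_of_lt_of_le one_pos (le_max_right _ _)
  set D := ‖x T1 - (T1 : ℂ) * γ‖ with hD
  have hD0 : 0 ≤ D := norm_nonneg _
  refine ⟨max T1 (2 * D / ε + 1), fun t ht => ?_⟩
  have ht1 : T1 ≤ t := (le_max_left _ _).trans ht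
  have ht2 : 2 * D / ε + 1 ≤ t := (le_max_right _ _).trans ht
  have ht0 : 0 < t := by linarith
  have h1 := norm_sub_le_of_deriv (f := fun τ : ℝ => x τ - (τ : ℂ) * γ)
    (g := fun τ => ε / 2 * τ) ht1 (by
      intro τ hτ
      refine ⟨v τ - γ, ε / 2, ?_, ?_, ?_⟩
      · have h2 : HasDerivAt (fun τ : ℝ => (τ : ℂ) * γ) γ τ := by
          have := (Complex.ofRealCLM.hasDerivAt (x := τ)).mul_const γ
          simpa using this
        exact (hx τ).sub h2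
      · simpa using (hasDerivAt_id τ).const_mul (ε / 2)
      · have := hT τ ((le_max_left _ _).trans hτ.1)
        rw [dist_eq_norm] at this
        exact this.le)
  have h3 : ‖x t - (t : ℂ) * γ‖ ≤ D + ε / 2 * (t - T1) := by
    have : x t - (t : ℂ) * γ = (x t - (t : ℂ) * γ - (x T1 - (T1 : ℂ) * γ)) + (x T1 - (T1 : ℂ) * γ) := by
      ring
    rw [this]
    refine (norm_add_le _ _).trans ?_
    linarith
  have h4 : ((t⁻¹ : ℝ) : ℂ) * x t - γ = ((t⁻¹ : ℝ) : ℂ) * (x t - (t : ℂ) * γ) := by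
    have : (t : ℂ) ≠ 0 := by exact_mod_cast ht0.ne'
    push_cast
    field_simp
  rw [dist_eq_norm, h4, norm_mul, Complex.norm_real, Real.norm_eq_abs, abs_of_pos (inv_pos.2 ht0),
    inv_mul_lt_iff₀ ht0]
  have h5 : D < ε / 2 * t := by
    have h6 : ε / 2 * (2 * D / ε + 1) = D + ε / 2 := by field_simp
    nlinarith
  nlinarith

lemma norm_inv_mul {t : ℝ} (ht : 0 < t) (z : ℂ) : ‖((t⁻¹ : ℝ) : ℂ) * z‖ = ‖z‖ / t := by
  rw [norm_mul, Complex.norm_real, Real.norm_eq_abs, abs_of_pos (inv_pos.2 ht)]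
  field_simp

/-- linear growth from a nonzero mean velocity -/
lemma lin_lower {x : ℝ → ℂ} {L : ℂ} (hL : L ≠ 0)
    (h : Tendsto (fun t : ℝ => ((t⁻¹ : ℝ) : ℂ) * x t) atTop (𝓝 L)) :
    ∀ᶠ t in atTop, ‖L‖ / 2 * t ≤ ‖x t‖ := by
  have hL0 : 0 < ‖L‖ := norm_pos_iff.2 hL
  have h1 := h.norm.eventually (lt_mem_nhds (show ‖L‖ / 2 < ‖L‖ by linarith))
  filter_upwards [h1, eventually_gt_atTop 0] with t ht ht0
  rw [norm_inv_mul ht0, lt_div_iff₀ ht0] at ht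
  exact ht.le

lemma norm_atTop {x : ℝ → ℂ} {L : ℂ} (hL : L ≠ 0)
    (h : Tendsto (fun t : ℝ => ((t⁻¹ : ℝ) : ℂ) * x t) atTop (𝓝 L)) :
    Tendsto (fun t => ‖x t‖) atTop atTop := by
  have hL0 : 0 < ‖L‖ / 2 := by have := norm_pos_iff.2 hL; linarith
  exact tendsto_atTop_mono' _ (lin_lower hL h) (tendsto_id.const_mul_atTop hL0)

lemma div_norm_zero {x : ℝ → ℂ} {L : ℂ} (hL : L ≠ 0) (c : ℝ)
    (h : Tendsto (fun t : ℝ => ((t⁻¹ : ℝ) : ℂ) * x t) atTop (𝓝 L)) :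
    Tendsto (fun t => c / ‖x t‖) atTop (𝓝 0) :=
  tendsto_const_nhds.div_atTop (norm_atTop hL h)

lemma mean_sub {x y : ℝ → ℂ} {L M : ℂ}
    (h : Tendsto (fun t : ℝ => ((t⁻¹ : ℝ) : ℂ) * x t) atTop (𝓝 L))
    (k : Tendsto (fun t : ℝ => ((t⁻¹ : ℝ) : ℂ) * y t) atTop (𝓝 M)) :
    Tendsto (fun t : ℝ => ((t⁻¹ : ℝ) : ℂ) * (x t - y t)) atTop (𝓝 (L - M)) := by
  simpa only [mul_sub] using h.sub k

/-- directions of nearby vectors -/
lemma unit_close {a b : ℂ} {c : ℝ} (hc : 0 < c) (ha : a ≠ 0) (hb : b ≠ 0) :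
    ‖a / (‖a‖ : ℂ) - b / (‖b‖ : ℂ)‖ ≤ 2 * ‖(c : ℂ) * a - b‖ / ‖b‖ := by
  have ha0 : 0 < ‖a‖ := norm_pos_iff.2 ha
  have hb0 : 0 < ‖b‖ := norm_pos_iff.2 hb
  have ha1 : (‖a‖ : ℂ) ≠ 0 := by exact_mod_cast ha0.ne'
  have hb1 : (‖b‖ : ℂ) ≠ 0 := by exact_mod_cast hb0.ne'
  have e : a / (‖a‖ : ℂ) - b / (‖b‖ : ℂ) =
      ((c : ℂ) * a - b) / (‖b‖ : ℂ) + ((((‖b‖ - c * ‖a‖) / (‖a‖ * ‖b‖) : ℝ) : ℂ)) * a := by
    push_cast
    field_simp
    ring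
  have h1 : ‖((c : ℂ) * a - b) / (‖b‖ : ℂ)‖ = ‖(c : ℂ) * a - b‖ / ‖b‖ := by
    rw [norm_div, Complex.norm_real, norm_norm]
  have h2 : |‖b‖ - c * ‖a‖| ≤ ‖(c : ℂ) * a - b‖ := by
    have : c * ‖a‖ = ‖(c : ℂ) * a‖ := by
      rw [norm_mul, Complex.norm_real, Real.norm_eq_abs, abs_of_pos hc]
    rw [this, norm_sub_rev]
    exact abs_norm_sub_norm_le _ _
  have h3 : ‖((((‖b‖ - c * ‖a‖) / (‖a‖ * ‖b‖) : ℝ) : ℂ)) * a‖ = |‖b‖ - c * ‖a‖| / ‖b‖ := by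
    rw [norm_mul, Complex.norm_real, Real.norm_eq_abs, abs_div, abs_of_pos (mul_pos ha0 hb0)]
    field_simp
  rw [e]
  refine (norm_add_le _ _).trans ?_
  rw [h1, h3, ← add_div]
  gcongr
  linarith

lemma norm_unit {a : ℂ} (ha : a ≠ 0) : ‖a / (‖a‖ : ℂ)‖ = 1 := by
  rw [norm_div, Complex.norm_real, norm_norm, div_self (norm_pos_iff.2 ha).ne']

lemma abs_sqrt_sub {a b : ℝ} (hb : 0 < b) : |√a - b| ≤ |a - b ^ 2| / b := by
  rw [le_div_iff₀ hb]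
  rcases le_total a 0 with h | h
  · rw [Real.sqrt_eq_zero_of_nonpos h, zero_sub, abs_neg, abs_of_pos hb,
      abs_of_nonpos (by nlinarith)]
    nlinarith
  · have h1 := Real.sq_sqrt h
    have h2 := Real.sqrt_nonneg a
    have e : a - b ^ 2 = (√a - b) * (√a + b) := by nlinarith
    rw [e, abs_mul, abs_of_pos (show 0 < √a + b by linarith)]
    have := abs_nonneg (√a - b)
    nlinarith

lemma dot_real_mul (c : ℝ) (a b : ℂ) : dot ((c : ℂ) * a) b = c * dot a b := by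
  simp [dot]; ring

lemma dot_add_left (a a' b : ℂ) : dot (a + a') b = dot a b + dot a' b := by
  simp [dot]; ring

/-- the angular defect of a vector close to a positive multiple of a unit vector -/
lemma defect_le {n ν : ℂ} {l e : ℝ} (hν : ‖ν‖ = 1) (hl : 0 ≤ l) (h : ‖n - (l : ℂ) * ν‖ ≤ e) :
    ‖n‖ - dot n ν ≤ 2 * e := by
  have e1 : n = (l : ℂ) * ν + (n - (l : ℂ) * ν) := by ring
  have h1 : ‖n‖ ≤ l + e := by
    have : ‖(l : ℂ) * ν‖ = l := by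
      rw [norm_mul, hν, Complex.norm_real, Real.norm_eq_abs, abs_of_nonneg hl, mul_one]
    calc ‖n‖ = ‖(l : ℂ) * ν + (n - (l : ℂ) * ν)‖ := by rw [← e1]
      _ ≤ ‖(l : ℂ) * ν‖ + ‖n - (l : ℂ) * ν‖ := norm_add_le _ _
      _ ≤ l + e := by rw [this]; linarith
  have h2 : dot n ν = l + dot (n - (l : ℂ) * ν) ν := by
    conv_lhs => rw [e1]
    rw [dot_add_left, dot_real_mul, dot_self, hν]; ring
  have h3 := abs_dot_le (n - (l : ℂ) * ν) ν
  rw [hν, mul_one] at h3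
  have := neg_abs_le (dot (n - (l : ℂ) * ν) ν)
  linarith

/-- pointwise form of the outgoing condition far away -/
lemma oc_pure {θ : ℝ} (hθ : 0 < θ) : ∃ e > 0, ∀ (g c : ℝ) (y p β : ℂ), 0 < c → y ≠ 0 →
    1 / 10 ≤ ‖β‖ → ‖β‖ ≤ 3 / 2 → ‖(c : ℂ) * y - β‖ ≤ e → ‖p - β‖ ≤ e → |g / ‖y‖| ≤ e →
    OC g θ y p (β / (‖β‖ : ℂ)) (‖β‖ ^ 2 / 2) := by
  refine ⟨min (min (1 / 1000) (θ / 3)) (θ ^ 2 / 10000), by positivity, ?_⟩
  intro g c y p β hc hy hβ1 hβ2 h1 h2 h3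
  set e := min (min (1 / 1000) (θ / 3)) (θ ^ 2 / 10000) with he
  have he1 : e ≤ 1 / 1000 := (min_le_left _ _).trans (min_le_left _ _)
  have he2 : e ≤ θ / 3 := (min_le_left _ _).trans (min_le_right _ _)
  have he3 : e ≤ θ ^ 2 / 10000 := min_le_right _ _
  have he0 : 0 ≤ e := (norm_nonneg _).trans h2
  have hβ0 : 0 < ‖β‖ := by linarith
  have hβ : β ≠ 0 := norm_pos_iff.1 hβ0
  have hy0 : 0 < ‖y‖ := norm_pos_iff.2 hy
  have hp := abs_le.1 ((abs_norm_sub_norm_le p β).trans h2)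
  have hh1 : |hh g y p - ‖β‖ ^ 2 / 2| ≤ 3 * e := by
    have := abs_le.1 h3
    have := norm_nonneg p
    unfold hh
    rw [abs_le]
    constructor <;> nlinarith
  refine ⟨by linarith, ?_⟩
  set ν := β / (‖β‖ : ℂ) with hν
  set w := y / (‖y‖ : ℂ) with hw
  have hν1 : ‖ν‖ = 1 := norm_unit hβ
  have hw1 : ‖w‖ = 1 := norm_unit hy
  have hwν : ‖w - ν‖ ≤ 20 * e := by
    refine (unit_close hc hy hβ).trans ?_
    rw [div_le_iff₀ hβ0]
    nlinarith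
  set Om := √(2 * hh g y p) with hOm
  have hOm1 : |Om - ‖β‖| ≤ 60 * e := by
    refine (abs_sqrt_sub hβ0).trans ?_
    rw [div_le_iff₀ hβ0]
    have : |2 * hh g y p - ‖β‖ ^ 2| ≤ 6 * e := by
      have := abs_le.1 hh1
      rw [abs_le]; constructor <;> linarith
    nlinarith
  have hβν : β = (‖β‖ : ℂ) * ν := by
    have : (‖β‖ : ℂ) ≠ 0 := by exact_mod_cast hβ0.ne'
    rw [hν]; field_simp
  have hyw : y = (‖y‖ : ℂ) * w := by
    have : (‖y‖ : ℂ) ≠ 0 := by exact_mod_cast hy0.ne'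
    rw [hw]; field_simp
  set q := p + (Om : ℂ) * w with hq
  set q0 := ((2 * ‖β‖ : ℝ) : ℂ) * ν with hq0
  have hq01 : ‖q0‖ ≤ 3 := by
    rw [hq0, norm_mul, hν1, Complex.norm_real, Real.norm_eq_abs, abs_of_pos (by linarith)]
    linarith
  have hqq : ‖q - q0‖ ≤ 91 * e := by
    have e1 : q - q0 = (p - β) + ((Om - ‖β‖ : ℝ) : ℂ) * w + (‖β‖ : ℂ) * (w - ν) := by
      rw [hq, hq0]
      push_cast
      linear_combination hβν
    rw [e1]
    refine (norm_add₃_le).trans ?_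
    rw [norm_mul, norm_mul, hw1, Complex.norm_real, Complex.norm_real, Real.norm_eq_abs, norm_norm]
    have := norm_nonneg (w - ν)
    nlinarith
  have hqs : ‖q + q0‖ ≤ 7 := by
    have e1 : q + q0 = (q - q0) + 2 * q0 := by ring
    rw [e1]
    refine (norm_add_le _ _).trans ?_
    rw [norm_mul]
    simp only [Complex.norm_ofNat]
    linarith
  set n := (starRingEnd ℂ) w * q ^ 2 with hn
  have hνν : (starRingEnd ℂ) ν * ν = 1 := by
    rw [Complex.conj_mul', hν1]; simp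
  have hnn : ‖n - ((4 * ‖β‖ ^ 2 : ℝ) : ℂ) * ν‖ ≤ 817 * e := by
    have e1 : n - ((4 * ‖β‖ ^ 2 : ℝ) : ℂ) * ν =
        (starRingEnd ℂ) w * ((q - q0) * (q + q0)) + (starRingEnd ℂ) (w - ν) * q0 ^ 2 := by
      rw [hn, hq0, map_sub]
      push_cast
      linear_combination (4 * (‖β‖ : ℂ) ^ 2 * ν) * hνν
    rw [e1]
    refine (norm_add_le _ _).trans ?_
    rw [norm_mul, norm_mul, norm_mul, Complex.norm_conj, Complex.norm_conj, hw1, norm_pow]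
    have a1 : ‖q - q0‖ * ‖q + q0‖ ≤ 91 * e * 7 :=
      mul_le_mul hqq hqs (norm_nonneg _) (by linarith)
    have a2 : ‖q0‖ ^ 2 ≤ 9 := by have := norm_nonneg q0; nlinarith
    have a3 : ‖w - ν‖ * ‖q0‖ ^ 2 ≤ 20 * e * 9 :=
      mul_le_mul hwν a2 (by positivity) (by linarith)
    linarith
  have hdef := defect_le hν1 (by positivity) hnn
  have hN : Nn g y p = (‖y‖ : ℂ) * n := by
    have hy1 : (‖y‖ : ℂ) ≠ 0 := by exact_mod_cast hy0.ne'
    have e1 : ((Om / ‖y‖ : ℝ) : ℂ) * y = (Om : ℂ) * w := by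
      rw [hw]; push_cast; field_simp
    have e2 : (starRingEnd ℂ) y = (‖y‖ : ℂ) * (starRingEnd ℂ) w := by
      conv_lhs => rw [hyw]
      rw [map_mul, Complex.conj_ofReal]
    unfold Nn
    rw [← hOm, e1, e2, hn, hq]; ring
  unfold dev
  rw [hN, dot_real_mul, norm_mul, Complex.norm_real, norm_norm]
  apply Real.sqrt_le_iff.2
  have hs := Real.sqrt_nonneg ‖y‖
  have hs2 := Real.sq_sqrt hy0.le
  refine ⟨by positivity, ?_⟩
  have b1 : 2 * (‖y‖ * ‖n‖ - ‖y‖ * dot n ν) ≤ ‖y‖ * θ ^ 2 := by nlinarith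
  have b2 : ‖y‖ ≤ (1 + √‖y‖) ^ 2 := by nlinarith
  rw [mul_pow]
  nlinarith [sq_nonneg θ]

lemma OC_shift {g θ θ' : ℝ} {y p ν : ℂ} {h h' : ℝ} (H : OC g θ y p ν h) (hθ : 0 ≤ θ)
    (hh' : |h - h'| ≤ θ) (h2 : 2 * θ ≤ θ') : OC g θ' y p ν h' := by
  refine ⟨?_, H.2.trans ?_⟩
  · have h1 := abs_le.1 H.1
    have h3 := abs_le.1 hh'
    rw [abs_le]; constructor <;> linarith
  · have := Real.sqrt_nonneg ‖y‖
    nlinarith

/-- cosine of the angle of two vectors close to the same direction -/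
lemma cos_ge {a b : ℂ} {c k : ℝ} (hc : 0 < c) (hk : 0 < k) (ha : a ≠ 0) (hb : b ≠ 0)
    (h1 : ‖(c : ℂ) * a - (-(k : ℂ))‖ ≤ k / 4) (h2 : ‖(c : ℂ) * b - (-(k : ℂ))‖ ≤ k / 4) :
    1 / 2 ≤ dot a b / (‖a‖ * ‖b‖) := by
  have hk1 : (-(k : ℂ)) ≠ 0 := by
    rw [neg_ne_zero]; exact_mod_cast hk.ne'
  have hk2 : ‖(-(k : ℂ))‖ = k := by
    rw [norm_neg, Complex.norm_real, Real.norm_eq_abs, abs_of_pos hk]
  have u1 := unit_close hc ha hk1
  have u2 := unit_close hc hb hk1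
  set m := (-(k : ℂ)) / (‖(-(k : ℂ))‖ : ℂ)
  rw [hk2] at u1 u2
  have v1 : ‖a / (‖a‖ : ℂ) - m‖ ≤ 1 / 2 := u1.trans (by rw [div_le_iff₀ hk]; linarith)
  have v2 : ‖b / (‖b‖ : ℂ) - m‖ ≤ 1 / 2 := u2.trans (by rw [div_le_iff₀ hk]; linarith)
  have v3 : ‖a / (‖a‖ : ℂ) - b / (‖b‖ : ℂ)‖ ≤ 1 := by
    have e : a / (‖a‖ : ℂ) - b / (‖b‖ : ℂ) = (a / (‖a‖ : ℂ) - m) - (b / (‖b‖ : ℂ) - m) := by ring
    rw [e]
    refine (norm_sub_le _ _).trans ?_
    linarith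
  have v4 := norm_sub_sq' (a / (‖a‖ : ℂ)) (b / (‖b‖ : ℂ))
  rw [norm_unit ha, norm_unit hb] at v4
  have ha0 : 0 < ‖a‖ := norm_pos_iff.2 ha
  have hb0 : 0 < ‖b‖ := norm_pos_iff.2 hb
  have v5 : dot (a / (‖a‖ : ℂ)) (b / (‖b‖ : ℂ)) = dot a b / (‖a‖ * ‖b‖) := by
    simp only [dot, Complex.div_ofReal_re, Complex.div_ofReal_im]
    field_simp
  rw [← v5]
  have := norm_nonneg (a / (‖a‖ : ℂ) - b / (‖b‖ : ℂ))
  nlinarith

end AsyX

end Pool.Agent.Lib.MP_e310f3_mp.Gap
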