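import Pool.Agent.Lib.MP_e310f3_mp.Gap.Vir

open Complex Filter Topology Set

noncomputable section

namespace Pool.Agent.Lib.MP_e310f3_mp.Gap

/-- exact torque formulas in heliocentric coordinates -/
lemma Sol.dL1 {κ : ℝ} (S : Sol κ) (t : ℝ) : HasDerivAt (fun τ => cross (S.x1 τ) (S.v1 τ))
    (κ ^ 4 * cross (S.x1 t) (S.x2 t) * (1 / S.rho t ^ 3 - 1 / ‖S.x2 t‖ ^ 3)) t := by
  have h1 : HasDerivAt S.v1 (acc 1 (S.x1 t) + acc (κ ^ 4) (S.x1 t - S.x2 t) + ((κ ^ 4 : ℝ) : ℂ) *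
      (acc 1 (S.x1 t) + acc (κ ^ 4) (S.x1 t - S.x2 t) +
        (acc 1 (S.x2 t) + acc (κ ^ 4) (S.x2 t - S.x1 t)))) t :=
    (S.du1 t).add (((S.du1 t).add (S.du2 t)).const_mul _)
  refine (hasDerivAt_cross (S.dv1 t) h1).congr_deriv ?_
  simp only [acc, Sol.rho, norm_sub_rev (S.x2 t) (S.x1 t), cross, add_re, add_im, mul_re, mul_im,
    sub_re, sub_im, ofReal_re, ofReal_im]
  ring

lemma Sol.dL2 {κ : ℝ} (S : Sol κ) (t : ℝ) : HasDerivAt (fun τ => cross (S.x2 τ) (S.v2 τ))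
    (-(κ ^ 4 * cross (S.x1 t) (S.x2 t) * (1 / S.rho t ^ 3 - 1 / ‖S.x1 t‖ ^ 3))) t := by
  have h := S.swap.dL1 t
  simp only [Sol.swap_x1, Sol.swap_x2, Sol.swap_v1, Sol.swap_rho] at h
  refine h.congr_deriv ?_
  simp only [cross]
  ring

private lemma bar_dc {κ : ℝ} (S : Sol κ) (t : ℝ) : HasDerivAt S.c12
    (cross (S.x1 t) (S.x2 t) / (‖S.x1 t‖ * ‖S.x2 t‖) *
      (cross (S.x1 t) (S.v1 t) / ‖S.x1 t‖ ^ 2 - cross (S.x2 t) (S.v2 t) / ‖S.x2 t‖ ^ 2)) t := by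
  have p1 := norm_pos_iff.2 (S.ne1 t)
  have p2 := norm_pos_iff.2 (S.ne2 t)
  have h := (hasDerivAt_dot (S.dv1 t) (S.dv2 t)).div
    ((hasDerivAt_norm (S.dv1 t) (S.ne1 t)).mul (hasDerivAt_norm (S.dv2 t) (S.ne2 t)))
    (mul_pos p1 p2).ne'
  refine h.congr_deriv ?_
  have e1 : dot (S.v1 t) (S.x2 t) * ‖S.x1 t‖ ^ 2 - dot (S.x1 t) (S.x2 t) * dot (S.x1 t) (S.v1 t) =
      cross (S.x1 t) (S.x2 t) * cross (S.x1 t) (S.v1 t) := by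
    rw [← dot_self]; simp only [dot, cross]; ring
  have e2 : dot (S.x1 t) (S.v2 t) * ‖S.x2 t‖ ^ 2 - dot (S.x1 t) (S.x2 t) * dot (S.x2 t) (S.v2 t) =
      -(cross (S.x1 t) (S.x2 t) * cross (S.x2 t) (S.v2 t)) := by
    rw [← dot_self]; simp only [dot, cross]; ring
  simp only [Pi.mul_apply]
  field_simp
  linear_combination ‖S.x2 t‖ ^ 2 * e1 + ‖S.x1 t‖ ^ 2 * e2

/-- the regime of the bootstrap -/
private def Reg {κ : ℝ} (S : Sol κ) (t : ℝ) : Prop :=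
  4 / 5 * (S.R t * S.a t) ≤ S.J t ∧ 965 / 1000 * ‖S.x1 t‖ ≤ ‖S.x2 t‖ ∧
    965 / 1000 * ‖S.x2 t‖ ≤ ‖S.x1 t‖ ∧ S.c12 t ≤ 48 / 100

private lemma Reg.swap {κ : ℝ} {S : Sol κ} {t : ℝ} (h : Reg S t) : Reg S.swap t := by
  obtain ⟨h1, h2, h3, h4⟩ := h
  exact ⟨by simpa using h1, h3, h2, by simpa using h4⟩

private lemma Reg.dq {κ : ℝ} {S : Sol κ} {t : ℝ} (h : Reg S t) :
    ∃ d, HasDerivAt (fun τ => √(S.R τ)) d t ∧ 2 / 5 / S.R t ≤ d := by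
  have hR := S.R_pos t
  have hq := Real.sqrt_pos.2 hR
  have e := Real.mul_self_sqrt hR.le
  refine ⟨_, (S.dR t).sqrt hR.ne', ?_⟩
  have h1 : √(S.R t) ≤ S.R t * S.a t := by
    refine Real.sqrt_le_iff.2 ⟨mul_nonneg hR.le (by linarith [S.one_le_a t]), ?_⟩
    rw [mul_pow, S.a_sq]
    field_simp
    nlinarith
  rw [div_div, div_div, div_le_div_iff₀ (by positivity) (by positivity)]
  nlinarith [h.1]

private lemma Reg.R_le {κ : ℝ} {S : Sol κ} {t : ℝ} (h : Reg S t) :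
    S.R t ≤ 145 / 100 * ‖S.x2 t‖ := by
  have p1 := norm_nonneg (S.x1 t)
  have p2 := norm_nonneg (S.x2 t)
  have h1 := S.R_sq_le t
  refine abs_le_of_sq_le_sq' ?_ (by positivity) |>.2
  nlinarith [h.2.1, mul_le_mul h.2.1 h.2.1 (by positivity) p2]

private lemma Reg.le_rho {κ : ℝ} {S : Sol κ} {t : ℝ} (h : Reg S t) : ‖S.x2 t‖ ≤ S.rho t := by
  have p1 := norm_pos_iff.2 (S.ne1 t)
  have p2 := norm_pos_iff.2 (S.ne2 t)
  have h1 := h.2.2.2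
  rw [Sol.c12, div_le_iff₀ (mul_pos p1 p2)] at h1
  refine abs_le_of_sq_le_sq' ?_ (S.rho_pos t).le |>.2
  rw [Sol.rho, norm_sub_sq']
  nlinarith [h.2.2.1]

private lemma Reg.tor {κ : ℝ} {S : Sol κ} {t : ℝ} (h : Reg S t) :
    -(1 / ‖S.x2 t‖ ^ 3) ≤ 1 / S.rho t ^ 3 - 1 / ‖S.x2 t‖ ^ 3 ∧
      1 / S.rho t ^ 3 - 1 / ‖S.x2 t‖ ^ 3 ≤ 0 := by
  have p2 := norm_pos_iff.2 (S.ne2 t)
  have p3 := S.rho_pos t
  constructor
  · have : 0 ≤ 1 / S.rho t ^ 3 := by positivity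
    linarith
  · have := one_div_le_one_div_of_le (pow_pos p2 3) (pow_le_pow_left₀ p2.le h.le_rho 3)
    linarith

private lemma bar_l {κ : ℝ} (hκ : 0 < κ) (hκ1 : κ ≤ 1 / 12) {S : Sol κ} {s t : ℝ} (hst : s ≤ t)
    (h : ∀ τ ∈ Icc s t, Reg S τ) (h0 : |cross (S.x1 s) (S.v1 s)| ≤ 1 / 4000 * √(S.R s)) :
    |cross (S.x1 t) (S.v1 t)| ≤ 1 / 4000 * √(S.R t) := by
  have hk : κ ^ 4 ≤ 1 / 20000 := (pow_le_pow_left₀ hκ.le hκ1 4).trans (by norm_num)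
  have h1 := abs_sub_le_of_deriv (f := fun τ => cross (S.x1 τ) (S.v1 τ))
    (g := fun τ => 1 / 4000 * √(S.R τ)) hst fun τ hτ => by
      obtain ⟨d, hd, hd'⟩ := (h τ hτ).dq
      refine ⟨_, _, S.dL1 τ, hd.const_mul _, ?_⟩
      have p1 := norm_pos_iff.2 (S.ne1 τ)
      have p2 := norm_pos_iff.2 (S.ne2 τ)
      have hR := S.R_pos τ
      obtain ⟨a1, a2⟩ := (h τ hτ).tor
      have a3 : |1 / S.rho τ ^ 3 - 1 / ‖S.x2 τ‖ ^ 3| ≤ 1 / ‖S.x2 τ‖ ^ 3 :=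
        abs_le.2 ⟨a1, a2.trans (by positivity)⟩
      have a4 : ‖S.x1 τ‖ * ‖S.x2 τ‖ * (1 / ‖S.x2 τ‖ ^ 3) ≤ 2 / S.R τ := by
        rw [mul_one_div, div_le_div_iff₀ (by positivity) hR]
        have a5 : ‖S.x1 τ‖ * S.R τ ≤ 2 * ‖S.x2 τ‖ ^ 2 := by
          nlinarith [(h τ hτ).R_le, (h τ hτ).2.1]
        nlinarith
      rw [abs_mul, abs_mul, abs_of_pos (pow_pos hκ 4), mul_assoc]
      calc κ ^ 4 * (|cross (S.x1 τ) (S.x2 τ)| * |1 / S.rho τ ^ 3 - 1 / ‖S.x2 τ‖ ^ 3|)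
          ≤ 1 / 20000 * (2 / S.R τ) :=
            mul_le_mul hk ((mul_le_mul (abs_cross_le _ _) a3 (abs_nonneg _)
              (by positivity)).trans a4) (by positivity) (by norm_num)
        _ = 1 / 4000 * (2 / 5 / S.R τ) := by ring
        _ ≤ 1 / 4000 * d := by linarith
  have h2 := abs_sub_abs_le_abs_sub (cross (S.x1 t) (S.v1 t)) (cross (S.x1 s) (S.v1 s))
  linarith

private lemma bar_term {σ l b r R : ℝ} (h1 : -1 ≤ σ) (h2 : σ ≤ 0) (hb : 0 ≤ b) (hl : -b ≤ l)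
    (hr : 0 < r) (hR : 0 < R) (h : R ≤ 145 / 100 * r) : σ * (l / r ^ 2) ≤ 4 * b / R ^ 2 := by
  have a1 : σ * l ≤ b := by nlinarith
  have a2 : R ^ 2 ≤ 4 * r ^ 2 := by nlinarith
  rw [← mul_div_assoc, div_le_div_iff₀ (by positivity) (by positivity)]
  nlinarith [mul_le_mul_of_nonneg_right a1 (sq_nonneg R), mul_le_mul_of_nonneg_left a2 hb]

private lemma bar_c {κ : ℝ} {S : Sol κ} {u t : ℝ} (hut : u ≤ t) (h : ∀ τ ∈ Icc u t, Reg S τ)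
    (hX : ∀ τ ∈ Icc u t, cross (S.x1 τ) (S.x2 τ) ≤ 0)
    (h1 : |cross (S.x1 u) (S.v1 u)| ≤ 1 / 4000 * √(S.R u))
    (h2 : |cross (S.x2 u) (S.v2 u)| ≤ 1 / 4000 * √(S.R u)) :
    S.c12 t ≤ S.c12 u + 1 / 200 := by
  have hk : 0 ≤ κ ^ 4 := by positivity
  have hq : ∀ τ, 0 < √(S.R τ) := fun τ => Real.sqrt_pos.2 (S.R_pos τ)
  have m1 : ∀ τ ∈ Icc u t, cross (S.x1 u) (S.v1 u) ≤ cross (S.x1 τ) (S.v1 τ) := fun τ hτ =>
    le_of_deriv_nonneg (f := fun τ => cross (S.x1 τ) (S.v1 τ)) hτ.1 fun σ hσ => by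
      have hσ' : σ ∈ Icc u t := ⟨hσ.1, hσ.2.trans hτ.2⟩
      exact ⟨_, S.dL1 σ, mul_nonneg_of_nonpos_of_nonpos
        (mul_nonpos_of_nonneg_of_nonpos hk (hX σ hσ')) (h σ hσ').tor.2⟩
  have m2 : ∀ τ ∈ Icc u t, -cross (S.x2 u) (S.v2 u) ≤ -cross (S.x2 τ) (S.v2 τ) := fun τ hτ =>
    le_of_deriv_nonneg (f := fun τ => -cross (S.x2 τ) (S.v2 τ)) hτ.1 fun σ hσ => by
      have hσ' : σ ∈ Icc u t := ⟨hσ.1, hσ.2.trans hτ.2⟩
      refine ⟨_, (S.dL2 σ).neg, ?_⟩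
      rw [neg_neg]
      have := (h σ hσ').swap.tor.2
      rw [Sol.swap_rho, Sol.swap_x2] at this
      exact mul_nonneg_of_nonpos_of_nonpos (mul_nonpos_of_nonneg_of_nonpos hk (hX σ hσ')) this
  have h3 := sub_le_of_deriv_le (f := S.c12) (g := fun τ => -(1 / 200 * √(S.R u)) * (√(S.R τ))⁻¹)
    hut fun τ hτ => by
      obtain ⟨d, hd, hd'⟩ := (h τ hτ).dq
      refine ⟨_, _, bar_dc S τ, (hd.inv (hq τ).ne').const_mul _, ?_⟩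
      have p1 := norm_pos_iff.2 (S.ne1 τ)
      have p2 := norm_pos_iff.2 (S.ne2 τ)
      have hR := S.R_pos τ
      have s1 : -1 ≤ cross (S.x1 τ) (S.x2 τ) / (‖S.x1 τ‖ * ‖S.x2 τ‖) := by
        rw [le_div_iff₀ (mul_pos p1 p2)]
        linarith [(abs_le.1 (abs_cross_le (S.x1 τ) (S.x2 τ))).1]
      have s2 : cross (S.x1 τ) (S.x2 τ) / (‖S.x1 τ‖ * ‖S.x2 τ‖) ≤ 0 :=
        div_nonpos_of_nonpos_of_nonneg (hX τ hτ) (mul_pos p1 p2).le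
      have hb : 0 ≤ 1 / 4000 * √(S.R u) := by positivity
      have r1 := (h τ hτ).swap.R_le
      rw [Sol.swap_R, Sol.swap_x2] at r1
      have b1 := bar_term s1 s2 hb ((abs_le.1 h1).1.trans (m1 τ hτ)) p1 hR r1
      have b2 := bar_term s1 s2 hb ((neg_le_neg (abs_le.1 h2).2).trans (m2 τ hτ)) p2 hR
        (h τ hτ).R_le
      rw [Real.sq_sqrt hR.le]
      have b3 : 1 / 200 * √(S.R u) * (2 / 5 / S.R τ / S.R τ) ≤ 1 / 200 * √(S.R u) * (d / S.R τ) :=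
        mul_le_mul_of_nonneg_left (div_le_div_of_nonneg_right hd' hR.le) (by positivity)
      have b4 : 1 / 200 * √(S.R u) * (2 / 5 / S.R τ / S.R τ) =
          2 * (4 * (1 / 4000 * √(S.R u)) / S.R τ ^ 2) := by
        field_simp
        ring
      rw [neg_div] at b2
      rw [neg_div]
      nlinarith
  have h4 : 0 ≤ 1 / 200 * √(S.R u) * (√(S.R t))⁻¹ := by
    have := hq t
    positivity
  have h5 : √(S.R u) * (√(S.R u))⁻¹ = 1 := mul_inv_cancel₀ (hq u).ne'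
  nlinarith

private lemma bar_last {X : ℝ → ℝ} {s t : ℝ} (hst : s ≤ t) (hX : Continuous X) (ht : X t ≤ 0) :
    ∃ u ∈ Icc s t, (u = s ∨ X u = 0) ∧ ∀ τ ∈ Icc u t, X τ ≤ 0 := by
  rcases ht.eq_or_lt with e | e
  · exact ⟨t, ⟨hst, le_rfl⟩, Or.inr e, fun τ hτ => by rw [le_antisymm hτ.2 hτ.1, e]⟩
  by_cases h : ∀ τ ∈ Icc s t, X τ ≤ 0
  · exact ⟨s, ⟨le_rfl, hst⟩, Or.inl rfl, h⟩
  push Not at h
  obtain ⟨σ, hσ, h1⟩ := h
  obtain ⟨u, hu, h2, h3⟩ := exists_last hσ.2 hX.continuousOn h1.le e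
  refine ⟨u, ⟨hσ.1.trans hu.1, hu.2.le⟩, Or.inr h2, fun τ hτ => ?_⟩
  rcases hτ.1.eq_or_lt with e' | e'
  · rw [← e', h2]
  · exact (h3 τ ⟨e', hτ.2⟩).le

private lemma bar_step {κ : ℝ} (hκ : 0 < κ) (hκ1 : κ ≤ 1 / 12) {S : Sol κ} {s t : ℝ} (hst : s ≤ t)
    (h : ∀ τ ∈ Icc s t, Reg S τ) (hX : cross (S.x1 t) (S.x2 t) ≤ 0)
    (h1 : |cross (S.x1 s) (S.v1 s)| ≤ 1 / 4000 * √(S.R s))
    (h2 : |cross (S.x2 s) (S.v2 s)| ≤ 1 / 4000 * √(S.R s)) (hc : S.c12 s ≤ 47 / 100) :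
    S.c12 t < 48 / 100 := by
  have c1 : Continuous S.x1 := continuous_iff_continuousAt.2 fun τ => (S.dx1 τ).continuousAt
  have c2 : Continuous S.x2 := continuous_iff_continuousAt.2 fun τ => (S.dx2 τ).continuousAt
  obtain ⟨u, hu, h3, h4⟩ := bar_last (X := fun τ => cross (S.x1 τ) (S.x2 τ)) hst
    (continuous_cross.comp (c1.prodMk c2)) hX
  have h5 : ∀ τ ∈ Icc s u, Reg S τ := fun τ hτ => h τ ⟨hτ.1, hτ.2.trans hu.2⟩
  have l1 := bar_l hκ hκ1 hu.1 h5 h1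
  have l2 := bar_l hκ hκ1 (S := S.swap) hu.1 (fun τ hτ => (h5 τ hτ).swap) (by simpa using h2)
  simp only [Sol.swap_x1, Sol.swap_v1, Sol.swap_R] at l2
  have h6 := bar_c hu.2 (fun τ hτ => h τ ⟨hu.1.trans hτ.1, hτ.2⟩) h4 l1 l2
  have h7 : S.c12 u ≤ 47 / 100 := by
    rcases h3 with e | e
    · rwa [e]
    · have p := mul_pos (norm_pos_iff.2 (S.ne1 u)) (norm_pos_iff.2 (S.ne2 u))
      have a1 := (h u hu).2.2.2
      have a2 := dot_sq_add_cross_sq (S.x1 u) (S.x2 u)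
      rw [e, ← mul_pow] at a2
      rw [Sol.c12, div_le_iff₀ p] at a1 ⊢
      by_contra a3
      nlinarith
  linarith

/-- a wide opening angle cannot close on the way out -/
theorem bar : ∃ ϑ > 0, Small fun κ => ∀ (S : Sys κ) (s t : ℝ), S.t0 ≤ s → s ≤ t →
    2 * S.R S.t0 ≤ S.R s → S.Free s t →
    (∀ τ ∈ Icc s t, 965 / 1000 * ‖S.x1 τ‖ ≤ ‖S.x2 τ‖ ∧ 965 / 1000 * ‖S.x2 τ‖ ≤ ‖S.x1 τ‖) →
    |cross (S.x1 s) (S.v1 s)| ≤ ϑ * √(S.R s) → |cross (S.x2 s) (S.v2 s)| ≤ ϑ * √(S.R s) →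
    S.c12 s ≤ 47 / 100 → ∀ τ ∈ Icc s t, S.c12 τ ≤ 48 / 100 := by
  refine ⟨1 / 4000, by norm_num, (small_le (c := 1 / 12) (by norm_num)).mono ?_⟩
  rintro κ ⟨hκ, hκ1⟩ S s t h0 _ hR _ hr h1 h2 hc τ hτ
  have key := boot (ι := Unit) (fun _ τ => S.c12 τ - 48 / 100) (s := s) (t := t)
    (fun _ => (S.continuous_c12.sub continuous_const).continuousOn) (fun _ => by linarith)
    (fun σ hσ hb _ => by
      have h : ∀ x ∈ Icc s σ, Reg S.toSol x := fun x hx =>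
        ⟨S.vir_far (h0.trans hx.1) (hR.trans (S.R_mono h0 hx.1)), (hr x ⟨hx.1, hx.2.trans hσ.2⟩).1,
          (hr x ⟨hx.1, hx.2.trans hσ.2⟩).2, by linarith [hb x hx ()]⟩
      rcases le_total (cross (S.x1 σ) (S.x2 σ)) 0 with e | e
      · linarith [bar_step hκ hκ1 hσ.1 h e h1 h2 hc]
      · have := bar_step hκ hκ1 (S := S.toSol.swap) hσ.1 (fun x hx => (h x hx).swap)
          (by simp only [Sol.swap_x1, Sol.swap_x2, cross] at e ⊢; linarith)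
          (by simpa using h2) (by simpa using h1) (by simpa using hc)
        rw [Sol.swap_c12] at this
        linarith) τ hτ ()
  linarith

end Pool.Agent.Lib.MP_e310f3_mp.Gap
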