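import Pool.Agent.Lib.MP_e310f3_mp.Gap.Asy

open Complex Filter Topology Set

noncomputable section

namespace Pool.Agent.Lib.MP_e310f3_mp.Gap

lemma fin_dir {X : Type} [NormedAddCommGroup X] [NormedSpace ℝ X] {q : ℝ → X} {a s : X}
    (ha : a ≠ 0) (h1 : Tendsto (fun t : ℝ => t⁻¹ • q t) atTop (𝓝 a))
    (h2 : Tendsto (fun t : ℝ => ‖q t‖⁻¹ • q t) atTop (𝓝 s)) : a = ‖a‖ • s := by
  have h3 := (h1.norm.inv₀ (norm_ne_zero_iff.2 ha)).smul h1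
  have h4 : s = ‖a‖⁻¹ • a := by
    refine tendsto_nhds_unique h2 (h3.congr' ?_)
    filter_upwards [eventually_gt_atTop 0] with t ht
    rw [norm_smul, Real.norm_of_nonneg (inv_pos.2 ht).le, smul_smul, mul_inv, inv_inv,
      mul_right_comm, mul_inv_cancel₀ ht.ne', one_mul]
  rw [h4, smul_smul, mul_inv_cancel₀ (norm_ne_zero_iff.2 ha), one_smul]

lemma fin_acc (g : ℝ) (x y : ℂ) : (g / ‖y - x‖ ^ 3) • (y - x) = acc g (x - y) := by
  rw [acc, norm_sub_rev y x, Complex.real_smul]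
  push_cast
  ring

lemma fin_asy {κ : ℝ} (S : Sol κ) {q : ℝ → Fin 3 → ℂ} {a : Fin 3 → ℂ}
    (h1 : ∀ t, S.x1 t = q t 1 - q t 0) (h2 : ∀ t, S.x2 t = q t 2 - q t 0)
    (hc : ∀ t, q t 0 + (κ ^ 4) • q t 1 + (κ ^ 4) • q t 2 = 0) (ha : ∀ i j, i ≠ j → a i ≠ a j)
    (ht : ∀ i, Tendsto (fun t : ℝ => t⁻¹ • q t i) atTop (𝓝 (a i))) : S.Asy (a 1) (a 2) := by
  have e0 : a 0 + (κ ^ 4) • a 1 + (κ ^ 4) • a 2 = 0 := by
    refine tendsto_nhds_unique (((ht 0).add ((ht 1).const_smul (κ ^ 4))).add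
      ((ht 2).const_smul (κ ^ 4))) (tendsto_const_nhds.congr fun t => ?_)
    rw [smul_comm (κ ^ 4), smul_comm (κ ^ 4), ← smul_add, ← smul_add, hc, smul_zero]
  rw [Complex.real_smul, Complex.real_smul] at e0
  have e1 : a 1 + ((κ ^ 4 : ℝ) : ℂ) * (a 1 + a 2) = a 1 - a 0 := by linear_combination e0
  have e2 : a 2 + ((κ ^ 4 : ℝ) : ℂ) * (a 1 + a 2) = a 2 - a 0 := by linear_combination e0
  refine asy_of S _ _ ?_ ?_ ?_ ?_ (ha 1 2 (by decide))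
  · rw [e1]
    refine ((ht 1).sub (ht 0)).congr fun t => ?_
    rw [h1, ← smul_sub, Complex.real_smul]
  · rw [e2]
    refine ((ht 2).sub (ht 0)).congr fun t => ?_
    rw [h2, ← smul_sub, Complex.real_smul]
  · rw [e1]; exact sub_ne_zero.2 (ha 1 0 (by decide))
  · rw [e2]; exact sub_ne_zero.2 (ha 2 0 (by decide))

lemma fin_sol {κ : ℝ} (hκ : 0 < κ) {q v : ℝ → Fin 3 → ℂ}
    (hq : ∀ t i, HasDerivAt (fun τ => q τ i) (v t i) t)
    (hv : ∀ t i, HasDerivAt (fun τ => v τ i)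
      (∑ j, ((![1, κ ^ 4, κ ^ 4] : Fin 3 → ℝ) j / ‖q t j - q t i‖ ^ 3) • (q t j - q t i)) t)
    (hn : ∀ t i j, i ≠ j → q t i ≠ q t j)
    (hc : ∀ t, q t 0 + (κ ^ 4) • q t 1 + (κ ^ 4) • q t 2 = 0)
    (hE : ∀ t, 1 / 2 * (‖v t 0‖ ^ 2 + κ ^ 4 * ‖v t 1‖ ^ 2 + κ ^ 4 * ‖v t 2‖ ^ 2) -
      (κ ^ 4 / ‖q t 0 - q t 1‖ + κ ^ 4 / ‖q t 0 - q t 2‖ + κ ^ 4 * κ ^ 4 / ‖q t 1 - q t 2‖) = κ ^ 4) :
    ∃ S : Sol κ, (∀ t, S.x1 t = q t 1 - q t 0) ∧ ∀ t, S.x2 t = q t 2 - q t 0 := by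
  have e0 : ∀ t, v t 0 = -(((κ ^ 4 : ℝ) : ℂ) * (v t 1 + v t 2)) := fun t => by
    have h := ((hq t 0).add ((hq t 1).const_smul (κ ^ 4))).add ((hq t 2).const_smul (κ ^ 4))
    have h' := h.unique ((hasDerivAt_const t (0 : ℂ)).congr_of_eventuallyEq
      (Eventually.of_forall fun τ => hc τ))
    rw [Complex.real_smul, Complex.real_smul] at h'
    linear_combination h'
  refine ⟨⟨fun t => q t 1 - q t 0, fun t => q t 2 - q t 0, fun t => v t 1, fun t => v t 2,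
    fun t => ((hq t 1).sub (hq t 0)).congr_deriv ?_, fun t => ((hq t 2).sub (hq t 0)).congr_deriv ?_,
    fun t => (hv t 1).congr_deriv ?_, fun t => (hv t 2).congr_deriv ?_,
    fun t => sub_ne_zero.2 (hn t 1 0 (by decide)), fun t => sub_ne_zero.2 (hn t 2 0 (by decide)),
    fun t h => hn t 1 2 (by decide) (sub_left_injective h), fun t => ?_⟩, fun _ => rfl, fun _ => rfl⟩
  · rw [e0, sub_neg_eq_add]
  · rw [e0, sub_neg_eq_add]
  · rw [Fin.sum_univ_three, sub_self, smul_zero, add_zero, fin_acc, fin_acc, sub_sub_sub_cancel_right]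
    rfl
  · rw [Fin.sum_univ_three, sub_self, smul_zero, add_zero, fin_acc, fin_acc, sub_sub_sub_cancel_right]
    rfl
  · have h := hE t
    have k : 0 < κ ^ 4 := by positivity
    rw [e0, norm_neg, norm_mul, Complex.norm_real, Real.norm_of_nonneg k.le, norm_sub_rev (q t 0),
      norm_sub_rev (q t 0)] at h
    rw [sub_sub_sub_cancel_right]
    refine mul_left_cancel₀ k.ne' ?_
    linear_combination h

lemma fin_core {V : Type} [NormedAddCommGroup V] [NormedSpace ℝ V] (T : V ≃ₗᵢ[ℝ] ℂ) {κ : ℝ} {b : ℂ}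
    {δ : ℝ} (hκ : 0 < κ) (hno : ∀ S : Sol κ, S.In → S.Out b δ → False) {m : Fin 3 → ℝ}
    (hm : m = ![1, κ ^ 4, κ ^ 4]) {q v : ℝ → Fin 3 → V} {a a' sm sp x : Fin 3 → V}
    (s1 : T (sm 1) = 1 / 7) (s2 : T (sm 2) = -1) (x1 : T (x 1) = b)
    (x2 : T (x 2) = (starRingEnd ℂ) b) (hd : dist x sp < δ) (hq : ∀ t, HasDerivAt q (v t) t)
    (hv : ∀ t, HasDerivAt v (fun i => ∑ j, (m j / ‖q t j - q t i‖ ^ 3) • (q t j - q t i)) t)
    (hn : ∀ t, ∀ i j, i ≠ j → q t i ≠ q t j) (hc : ∀ t, ∑ i, m i • q t i = 0)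
    (hE : ∀ t, (1 / 2 : ℝ) * ∑ i, m i * ‖v t i‖ ^ 2
      - ∑ i, ∑ j ∈ Finset.univ.filter (fun j => i < j), m i * m j / ‖q t i - q t j‖ = κ ^ 4)
    (ha : ∀ i j, i ≠ j → a i ≠ a j) (ta : Tendsto (fun t : ℝ => t⁻¹ • q t) atBot (𝓝 a))
    (ts : Tendsto (fun t : ℝ => ‖q t‖⁻¹ • q t) atBot (𝓝 sm))
    (ha' : ∀ i j, i ≠ j → a' i ≠ a' j) (ta' : Tendsto (fun t : ℝ => t⁻¹ • q t) atTop (𝓝 a'))
    (ts' : Tendsto (fun t : ℝ => ‖q t‖⁻¹ • q t) atTop (𝓝 sp)) : False := by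
  subst hm
  have dT : ∀ {f : ℝ → Fin 3 → V} {f' : Fin 3 → V} {t : ℝ}, HasDerivAt f f' t → ∀ i,
      HasDerivAt (fun τ => T (f τ i)) (T (f' i)) t := fun h i =>
    T.toContinuousLinearEquiv.hasFDerivAt.comp_hasDerivAt _ (hasDerivAt_pi.1 h i)
  have nT : ∀ y z : V, ‖T y - T z‖ = ‖y - z‖ := fun y z => by rw [← map_sub, T.norm_map]
  have cT : ∀ t, T (q t 0) + (κ ^ 4) • T (q t 1) + (κ ^ 4) • T (q t 2) = 0 := fun t => by
    have h := congrArg T (hc t)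
    rw [Fin.sum_univ_three, map_add, map_add, map_smul, map_smul, map_smul, map_zero] at h
    simpa using h
  have tT : ∀ {f : ℝ → Fin 3 → V} {c : Fin 3 → V},
      Tendsto (fun t : ℝ => t⁻¹ • f t) atTop (𝓝 c) → ∀ i,
      Tendsto (fun t : ℝ => t⁻¹ • T (f t i)) atTop (𝓝 (T (c i))) := fun h i =>
    ((T.continuous.tendsto _).comp (tendsto_pi_nhds.1 h i)).congr fun t => map_smul T _ _
  have n0 : ∀ {c : Fin 3 → V}, (∀ i j, i ≠ j → c i ≠ c j) → c ≠ 0 := fun h e =>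
    h 0 1 (by decide) (by rw [e]; rfl)
  obtain ⟨S, h1, h2⟩ := fin_sol hκ (q := fun t i => T (q t i)) (v := fun t i => T (v t i))
    (fun t => dT (hq t))
    (fun t i => (dT (hv t) i).congr_deriv (by simp only [map_sum, map_smul, map_sub, nT]))
    (fun t i j hij e => hn t i j hij (T.injective e)) cT (fun t => by
      have h := hE t
      simp only [Fin.sum_univ_three, Finset.sum_filter] at h
      simp only [nT, T.norm_map]
      simpa using h)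
  have tb : Tendsto (fun t : ℝ => t⁻¹ • q (-t)) atTop (𝓝 (-a)) :=
    (ta.comp tendsto_neg_atTop_atBot).neg.congr fun t => by simp
  have hb : ∀ i j, i ≠ j → (-a) i ≠ (-a) j := fun i j hij e => ha i j hij (neg_injective e)
  have d1 := fin_dir (n0 hb) tb (ts.comp tendsto_neg_atTop_atBot)
  have d2 := fin_dir (n0 ha') ta' ts'
  have p1 := norm_pos_iff.2 (n0 hb)
  have p2 := norm_pos_iff.2 (n0 ha')
  have A1 := fin_asy S.rev (q := fun t i => T (q (-t) i)) (fun t => h1 (-t)) (fun t => h2 (-t))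
    (fun t => cT (-t)) (fun i j hij e => hb i j hij (T.injective e)) (tT tb)
  have A2 := fin_asy S h1 h2 cT (fun i j hij e => ha' i j hij (T.injective e)) (tT ta')
  have o : ∀ i, ‖T (a' i) - ((‖a'‖ : ℝ) : ℂ) * T (x i)‖ ≤ ‖a'‖ * δ := fun i => by
    rw [← Complex.real_smul, ← map_smul, nT, congrFun d2 i, Pi.smul_apply, ← smul_sub, norm_smul,
      norm_norm, ← dist_eq_norm, dist_comm]
    exact mul_le_mul_of_nonneg_left ((dist_le_pi_dist x sp i).trans hd.le) p2.le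
  refine hno S ⟨‖-a‖ / 7, by positivity, ?_⟩ ⟨_, _, ‖a'‖, A2, p2, x1 ▸ o 1, x2 ▸ o 2⟩
  have e1 : T ((-a) 1) = ((‖-a‖ / 7 : ℝ) : ℂ) := by
    rw [congrFun d1 1, Pi.smul_apply, map_smul, s1, Complex.real_smul]
    push_cast
    ring
  have e2 : T ((-a) 2) = ((-(7 * (‖-a‖ / 7)) : ℝ) : ℂ) := by
    rw [congrFun d1 2, Pi.smul_apply, map_smul, s2, Complex.real_smul]
    push_cast
    ring
  rwa [← e1, ← e2]

/-- reduction of the frozen statement to the planar system -/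
theorem fin {κ : ℝ} {b : ℂ} {δ : ℝ} (hκ : 0 < κ) (hκ1 : κ ≤ 1 / 10) (hb : ‖b‖ = 1) (hδ : 0 < δ)
    (hno : ∀ S : Sol κ, S.In → S.Out b δ → False) :
    ¬ (∀ (d N : ℕ), 2 ≤ d → 2 ≤ N →
  ∀ (m : Fin N → ℝ), (∀ i, 0 < m i) →
  ∀ (E : ℝ), 0 < E →
  ∀ (sm : Fin N → EuclideanSpace ℝ (Fin d)),
    ‖sm‖ = 1 → ∑ i, m i • sm i = 0 → (∀ i j, i ≠ j → sm i ≠ sm j) →
  ∀ (A : Set (Fin N → EuclideanSpace ℝ (Fin d))),
    A = {sp : Fin N → EuclideanSpace ℝ (Fin d) |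
      ∃ q v : ℝ → (Fin N → EuclideanSpace ℝ (Fin d)),
        (∀ t, HasDerivAt q (v t) t) ∧
        (∀ t, HasDerivAt v
            (fun i => ∑ j, (m j / ‖q t j - q t i‖ ^ 3) • (q t j - q t i)) t) ∧
        (∀ t, ∀ i j, i ≠ j → q t i ≠ q t j) ∧
        (∀ t, ∑ i, m i • q t i = 0) ∧
        (∀ t, (1 / 2 : ℝ) * ∑ i, m i * ‖v t i‖ ^ 2
            - ∑ i, ∑ j ∈ Finset.univ.filter (fun j => i < j),
                m i * m j / ‖q t i - q t j‖ = E) ∧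
        (∃ a : Fin N → EuclideanSpace ℝ (Fin d), (∀ i j, i ≠ j → a i ≠ a j) ∧
            Filter.Tendsto (fun t : ℝ => t⁻¹ • q t) Filter.atBot (nhds a)) ∧
        Filter.Tendsto (fun t : ℝ => ‖q t‖⁻¹ • q t) Filter.atBot (nhds sm) ∧
        (∃ a : Fin N → EuclideanSpace ℝ (Fin d), (∀ i j, i ≠ j → a i ≠ a j) ∧
            Filter.Tendsto (fun t : ℝ => t⁻¹ • q t) Filter.atTop (nhds a)) ∧
        Filter.Tendsto (fun t : ℝ => ‖q t‖⁻¹ • q t) Filter.atTop (nhds sp)} →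
    (∀ sp ∈ A, ∃ ε > 0, ∀ x : Fin N → EuclideanSpace ℝ (Fin d),
        ‖x‖ = 1 → ∑ i, m i • x i = 0 → dist x sp < ε → x ∈ A) ∧
    (∀ x : Fin N → EuclideanSpace ℝ (Fin d), ‖x‖ = 1 → ∑ i, m i • x i = 0 →
        ∀ ε > 0, ∃ sp ∈ A, dist x sp < ε)) := by
  intro H
  obtain ⟨T⟩ : Nonempty (EuclideanSpace ℝ (Fin 2) ≃ₗᵢ[ℝ] ℂ) :=
    ⟨Complex.orthonormalBasisOneI.repr.symm⟩
  have k0 : 0 < κ ^ 4 := by positivity
  have k1 : κ ^ 4 ≤ (1 / 10) ^ 4 := by gcongr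
  have cen : ∀ c : Fin 3 → ℂ, c 0 + (κ ^ 4 : ℝ) * c 1 + (κ ^ 4 : ℝ) * c 2 = 0 →
      ∑ i, (![1, κ ^ 4, κ ^ 4] : Fin 3 → ℝ) i • T.symm (c i) = 0 := fun c hc => by
    simp only [← map_smul, ← map_sum]
    rw [Fin.sum_univ_three, ← map_zero T.symm, ← hc]
    simp
  have nor : ∀ c : Fin 3 → ℂ, ‖c 0‖ ≤ 1 → ‖c 1‖ ≤ 1 → ‖c 2‖ = 1 →
      ‖fun i => T.symm (c i)‖ = 1 := fun c h0 h1 h2 => by
    refine le_antisymm ((pi_norm_le_iff_of_nonneg zero_le_one).2 fun i => ?_) ?_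
    · rw [T.symm.norm_map]
      fin_cases i
      exacts [h0, h1, h2.le]
    · rw [← h2, ← T.symm.norm_map]
      exact norm_le_pi_norm (fun i => T.symm (c i)) 2
  obtain ⟨sp, ⟨q, v, hq, hv, hn, hc, hE, ⟨a, ha, ta⟩, ts, ⟨a', ha', ta'⟩, ts'⟩, hd⟩ :=
    (H 2 3 le_rfl (by norm_num) ![1, κ ^ 4, κ ^ 4] (fun i => by fin_cases i <;> simp [k0])
      (κ ^ 4) k0 (fun i => T.symm (((![6 * κ ^ 4 / 7, 1 / 7, -1] : Fin 3 → ℝ) i : ℝ) : ℂ))
      (nor _ (by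
          rw [Complex.norm_real, Real.norm_eq_abs, abs_le]
          constructor <;> simp <;> linarith) (by simp; norm_num) (by simp))
      (cen _ (by simp; ring))
      (fun i j hij e => by
        have e' := Complex.ofReal_injective (T.symm.injective e)
        fin_cases i <;> fin_cases j <;> simp at hij e' <;> linarith) _ rfl).2
      (fun i => T.symm ((![-((κ ^ 4 : ℝ) * (b + (starRingEnd ℂ) b)), b, (starRingEnd ℂ) b] :
        Fin 3 → ℂ) i))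
      (nor _ (by
          have h := norm_add_le b ((starRingEnd ℂ) b)
          rw [Complex.norm_conj, hb] at h
          change ‖-(((κ ^ 4 : ℝ) : ℂ) * (b + (starRingEnd ℂ) b))‖ ≤ 1
          rw [norm_neg, norm_mul, Complex.norm_real, Real.norm_of_nonneg k0.le]
          nlinarith) hb.le (by simpa using hb))
      (cen _ (by simp; ring)) δ hδ
  exact fin_core T hκ hno rfl (by simp) (by simp) (by simp) (by simp) hd hq hv hn hc hE ha ta ts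
    ha' ta' ts'

end Pool.Agent.Lib.MP_e310f3_mp.Gap
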