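import Pool.Agent.Lib.MP_e310f3_mp.Defs
import Pool.Agent.Lib.MP_e310f3_mp.Gap.Fin

/-! A collision-free limit shape forces hyperbolic asymptotics. -/

open Complex Filter Topology Set

noncomputable section

namespace Pool.Agent.Lib.MP_e310f3_mp.Gap

open AsyX

lemma chazy_R {κ : ℝ} (S : Sol κ) : ∀ᶠ t in atTop, t / 2 ≤ ‖S.x1 t‖ + ‖S.x2 t‖ := by
  obtain ⟨t0, h0⟩ := S.exists_t0
  filter_upwards [eventually_ge_atTop t0, eventually_ge_atTop (2 * t0), eventually_ge_atTop 0]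
    with t ht ht2 ht0
  have h := sub_le_of_deriv_le (f := fun τ => (τ - t0) ^ 2) (g := fun τ => S.R τ ^ 2) ht
    fun τ hτ => ⟨_, _, Vir.dsq_sub t0 τ, S.vx_dR2 τ, by linarith [S.vx_timeJ0 hτ.1]⟩
  have h1 : (t / 2) ^ 2 ≤ (t - t0) ^ 2 := pow_le_pow_left₀ (by linarith) (by linarith) 2
  have h2 := mul_nonneg (norm_nonneg (S.x1 t)) (norm_nonneg (S.x2 t))
  refine (abs_le_of_sq_le_sq' ?_ (by positivity)).2
  simp only [sub_self] at h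
  nlinarith [S.R_sq_le t, sq_nonneg (S.R t0)]

lemma chazy_u {κ c : ℝ} (S : Sol κ) (hc : 0 < c)
    (h : ∀ᶠ t in atTop, c * t ≤ ‖S.x1 t‖ ∧ c * t ≤ ‖S.x1 t - S.x2 t‖) :
    ∃ γ, Tendsto S.u1 atTop (𝓝 γ) := by
  obtain ⟨T, hT⟩ := eventually_atTop.1 h
  have hk : 0 ≤ κ ^ 4 := by positivity
  refine conv_of_deriv (T := max T 1) (C := 1 / c ^ 2 + κ ^ 4 / c ^ 2)
    (lt_of_lt_of_le one_pos (le_max_right _ _)) ?_
  intro t ht
  have ht0 : 0 < t := lt_of_lt_of_le one_pos ((le_max_right _ _).trans ht)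
  obtain ⟨b1, b2⟩ := hT t ((le_max_left _ _).trans ht)
  refine ⟨_, S.du1 t, (norm_add_le _ _).trans ?_⟩
  rw [norm_acc zero_le_one (S.ne1 t), norm_acc hk (sub_ne_zero.2 (S.ne12 t)), add_div, div_div,
    div_div, ← mul_pow]
  gcongr

lemma chazy_rate {κ : ℝ} (S : Sol κ) {N : ℝ → ℝ} (hN : ∀ t, 0 ≤ N t) {Y1 Y2 : ℂ} (n1 : Y1 ≠ 0)
    (n2 : Y2 ≠ 0) (n12 : Y1 ≠ Y2) (h1 : Tendsto (fun t => (N t)⁻¹ • S.x1 t) atTop (𝓝 Y1))
    (h2 : Tendsto (fun t => (N t)⁻¹ • S.x2 t) atTop (𝓝 Y2)) :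
    (∀ᶠ t in atTop, 0 < N t) ∧ ∃ l, 0 < l ∧ Tendsto (fun t => N t / t) atTop (𝓝 l) := by
  have p1 := norm_pos_iff.2 n1
  have p2 := norm_pos_iff.2 n2
  have p3 := norm_pos_iff.2 (sub_ne_zero.2 n12)
  have pos : ∀ᶠ t in atTop, 0 < N t := (h1.eventually_ne n1).mono fun t ht =>
    (hN t).lt_of_ne fun e => ht (by rw [← e, inv_zero, zero_smul])
  have nn : ∀ {t : ℝ} (z : ℂ), 0 < N t → ‖(N t)⁻¹ • z‖ = ‖z‖ / N t := fun z h => by
    rw [norm_smul, Real.norm_of_nonneg (inv_pos.2 h).le, inv_mul_eq_div]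
  obtain ⟨c, c0, hc⟩ : ∃ c, 0 < c ∧ ∀ᶠ t in atTop, c * t ≤ N t := by
    refine ⟨1 / (2 * (‖Y1‖ + ‖Y2‖ + 1)), by positivity, ?_⟩
    filter_upwards [pos, chazy_R S, (h1.norm.add h2.norm).eventually (gt_mem_nhds (lt_add_one _))]
      with t a1 a2 a3
    rw [nn _ a1, nn _ a1, ← add_div, div_lt_iff₀ a1] at a3
    rw [one_div, inv_mul_le_iff₀ (by positivity)]
    linarith
  have low : ∀ {f : ℝ → ℂ} {Y : ℂ} {e : ℝ}, 0 < e → e < ‖Y‖ →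
      Tendsto (fun t => (N t)⁻¹ • f t) atTop (𝓝 Y) → ∀ᶠ t in atTop, e * c * t ≤ ‖f t‖ := by
    intro f Y e e0 e1 h
    filter_upwards [pos, hc, h.norm.eventually (lt_mem_nhds e1)] with t a1 a2 a3
    rw [nn _ a1, lt_div_iff₀ a1] at a3
    linarith [mul_le_mul_of_nonneg_left a2 e0.le]
  obtain ⟨e, e0, e1, e2, e3⟩ : ∃ e, 0 < e ∧ e < ‖Y1‖ ∧ e < ‖Y2‖ ∧ e < ‖Y1 - Y2‖ := by
    obtain ⟨e, a1, a2⟩ := exists_between (lt_min p1 (lt_min p2 p3))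
    rw [lt_min_iff, lt_min_iff] at a2
    exact ⟨e, a1, a2⟩
  have l3 := low (f := fun t => S.x1 t - S.x2 t) e0 e3 (by simpa only [smul_sub] using h1.sub h2)
  obtain ⟨γ1, g1⟩ := chazy_u S (mul_pos e0 c0) ((low e0 e1 h1).and l3)
  obtain ⟨γ2, g2⟩ := chazy_u S.swap (mul_pos e0 c0) ((low e0 e2 h2).and
    (l3.mono fun t ht => by rwa [norm_sub_rev] at ht))
  have g2' : Tendsto S.u2 atTop (𝓝 γ2) := g2
  have k1 := mean_of_deriv S.dx1 (g1.add ((g1.add g2').const_mul ((κ ^ 4 : ℝ) : ℂ)))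
  have k2 : Tendsto (fun t => N t / t) atTop (𝓝 _) := (k1.norm.div h1.norm p1.ne').congr' (by
    filter_upwards [pos, eventually_gt_atTop 0] with t a1 a2
    have := norm_pos_iff.2 (S.ne1 t)
    rw [Pi.div_apply, nn _ a1, norm_inv_mul a2]
    field_simp)
  refine ⟨pos, _, c0.trans_le (ge_of_tendsto k2 ?_), k2⟩
  filter_upwards [hc, eventually_gt_atTop 0] with t a1 a2
  rwa [le_div_iff₀ a2]

lemma chazy_asy {κ : ℝ} (S : Sol κ) {q : ℝ → Fin 3 → ℂ} {y : Fin 3 → ℂ} {N : ℝ → ℝ}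
    (hN : ∀ t, 0 ≤ N t) (h1 : ∀ t, S.x1 t = q t 1 - q t 0) (h2 : ∀ t, S.x2 t = q t 2 - q t 0)
    (hc : ∀ t, q t 0 + (κ ^ 4) • q t 1 + (κ ^ 4) • q t 2 = 0) (hy : ∀ i j, i ≠ j → y i ≠ y j)
    (ht : ∀ i, Tendsto (fun t : ℝ => (N t)⁻¹ • q t i) atTop (𝓝 (y i))) :
    ∃ l : ℝ, 0 < l ∧ S.Asy (l • y 1) (l • y 2) := by
  obtain ⟨pos, l, l0, hl⟩ := chazy_rate S hN (sub_ne_zero.2 (hy 1 0 (by decide)))
    (sub_ne_zero.2 (hy 2 0 (by decide))) (fun e => hy 1 2 (by decide) (sub_left_injective e))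
    (by simpa only [h1, smul_sub] using (ht 1).sub (ht 0))
    (by simpa only [h2, smul_sub] using (ht 2).sub (ht 0))
  refine ⟨l, l0, fin_asy S (a := fun i => l • y i) h1 h2 hc
    (fun i j hij e => hy i j hij (smul_right_injective _ l0.ne' e)) fun i => ?_⟩
  refine (hl.smul (ht i)).congr' (pos.mono fun t a => ?_)
  simp only [smul_smul]
  rw [div_mul_eq_mul_div, mul_inv_cancel₀ a.ne', one_div]

lemma chazy_le {κ : ℝ} (z : Cfg 3 2) {i : Fin 3} (hi : (![1, κ ^ 4, κ ^ 4] : Fin 3 → ℝ) i = κ ^ 4) :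
    κ ^ 2 * ‖z i‖ ≤ massNorm ![1, κ ^ 4, κ ^ 4] z := by
  refine Real.le_sqrt_of_sq_le ?_
  refine le_of_eq_of_le (by rw [hi]; ring) (Finset.single_le_sum
    (f := fun i => (![1, κ ^ 4, κ ^ 4] : Fin 3 → ℝ) i * ‖z i‖ ^ 2)
    (fun j _ => mul_nonneg ?_ (sq_nonneg _)) (Finset.mem_univ i))
  have : 0 ≤ κ ^ 4 := by positivity
  fin_cases j <;> simp [this]

lemma chazy_shape {κ : ℝ} (hκ : 0 < κ) (T : EuclideanSpace ℝ (Fin 2) ≃ₗᵢ[ℝ] ℂ) {c : Fin 3 → ℂ}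
    (hc : c 0 + (κ ^ 4 : ℝ) * c 1 + (κ ^ 4 : ℝ) * c 2 = 0) (h2 : c 2 ≠ 0) :
    ∃ (s : Cfg 3 2) (r : ℝ), 0 < r ∧ massNorm ![1, κ ^ 4, κ ^ 4] s = 1 ∧
      ∑ i, (![1, κ ^ 4, κ ^ 4] : Fin 3 → ℝ) i • s i = 0 ∧ ∀ i, T (s i) = r • c i := by
  have p : 0 < massNorm ![1, κ ^ 4, κ ^ 4] fun i => T.symm (c i) :=
    lt_of_lt_of_le (mul_pos (by positivity) (by rwa [T.symm.norm_map, norm_pos_iff]))
      (chazy_le (fun i => T.symm (c i)) (i := 2) rfl)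
  generalize hn : (massNorm ![1, κ ^ 4, κ ^ 4] fun i => T.symm (c i)) = n at p
  refine ⟨fun i => n⁻¹ • T.symm (c i), n⁻¹, inv_pos.2 p, ?_, ?_, fun i => by simp⟩
  · rw [massNorm] at hn ⊢
    simp only [norm_smul, mul_pow, mul_left_comm _ (‖n⁻¹‖ ^ 2), ← Finset.mul_sum]
    rw [Real.sqrt_mul (sq_nonneg _), hn, Real.sqrt_sq (norm_nonneg _),
      Real.norm_of_nonneg (inv_pos.2 p).le, inv_mul_cancel₀ p.ne']
  · simp only [smul_comm _ n⁻¹, ← Finset.smul_sum, ← map_smul, ← map_sum]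
    rw [Fin.sum_univ_three, map_eq_zero_iff _ T.symm.injective]
    refine smul_eq_zero_of_right _ ?_
    rw [← hc]
    simp

/-- the scattered image misses a neighbourhood of a centred unit configuration -/
theorem chazy_gap {κ : ℝ} {b : ℂ} {δ : ℝ} (hκ : 0 < κ) (hκ1 : κ ≤ 1 / 10) (hb : ‖b‖ = 1)
    (hδ : 0 < δ) (hno : ∀ S : Sol κ, S.In → S.Out b δ → False) :
    ∃ (m : Fin 3 → ℝ) (E : ℝ) (s x : Cfg 3 2) (δ : ℝ), (∀ i, 0 < m i) ∧ 0 < E ∧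
      massNorm m s = 1 ∧ ∑ i, m i • s i = 0 ∧ (∀ i j, i ≠ j → s i ≠ s j) ∧
      massNorm m x = 1 ∧ ∑ i, m i • x i = 0 ∧ 0 < δ ∧
      ∀ y ∈ scatteredImage m E s, δ ≤ massNorm m (y - x) := by
  obtain ⟨T⟩ : Nonempty (EuclideanSpace ℝ (Fin 2) ≃ₗᵢ[ℝ] ℂ) :=
    ⟨Complex.orthonormalBasisOneI.repr.symm⟩
  have k0 : 0 < κ ^ 4 := by positivity
  have k1 : κ ^ 4 ≤ (1 / 10) ^ 4 := by gcongr
  obtain ⟨s, r, r0, s1, s2, s3⟩ := chazy_shape hκ T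
    (c := fun i => (((![6 * κ ^ 4 / 7, 1 / 7, -1] : Fin 3 → ℝ) i : ℝ) : ℂ)) (by simp; ring) (by simp)
  obtain ⟨x, w, w0, x1, x2, x3⟩ := chazy_shape hκ T
    (c := ![-((κ ^ 4 : ℝ) * (b + (starRingEnd ℂ) b)), b, (starRingEnd ℂ) b]) (by simp; ring)
    (by
      change (starRingEnd ℂ) b ≠ 0
      rw [← norm_pos_iff, Complex.norm_conj, hb]
      exact one_pos)
  have hs : ∀ i j, i ≠ j → T (s i) ≠ T (s j) := fun i j hij e => by
    rw [s3, s3] at e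
    have e' := Complex.ofReal_injective (smul_right_injective _ r0.ne' e)
    fin_cases i <;> fin_cases j <;> simp at hij e' <;> linarith
  refine ⟨![1, κ ^ 4, κ ^ 4], κ ^ 4, s, x, κ ^ 2 * (w * δ), fun i => by fin_cases i <;> simp [k0],
    k0, s1, s2, fun i j hij e => hs i j hij (by rw [e]), x1, x2, by positivity, ?_⟩
  rintro y ⟨hy, q, v, hq, hv, hn, hc, hE, ts, ty⟩
  by_contra hd
  have dT : ∀ {f : ℝ → Cfg 3 2} {f' : Cfg 3 2} {t : ℝ}, HasDerivAt f f' t → ∀ i,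
      HasDerivAt (fun τ => T (f τ i)) (T (f' i)) t := fun h i =>
    T.toContinuousLinearEquiv.hasFDerivAt.comp_hasDerivAt _ (hasDerivAt_pi.1 h i)
  have nT : ∀ y z, ‖T y - T z‖ = ‖y - z‖ := fun y z => by rw [← map_sub, T.norm_map]
  have cT : ∀ t, T (q t 0) + (κ ^ 4) • T (q t 1) + (κ ^ 4) • T (q t 2) = 0 := fun t => by
    have h := congrArg T (hc t)
    rw [Fin.sum_univ_three, map_add, map_add, map_smul, map_smul, map_smul, map_zero] at h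
    simpa using h
  have tT : ∀ {f : ℝ → Cfg 3 2} {N : ℝ → ℝ} {c : Cfg 3 2},
      Tendsto (fun t : ℝ => (N t)⁻¹ • f t) atTop (𝓝 c) → ∀ i,
      Tendsto (fun t : ℝ => (N t)⁻¹ • T (f t i)) atTop (𝓝 (T (c i))) := fun h i =>
    ((T.continuous.tendsto _).comp (tendsto_pi_nhds.1 h i)).congr fun t => map_smul T _ _
  obtain ⟨S, h1, h2⟩ := fin_sol hκ (q := fun t i => T (q t i)) (v := fun t i => T (v t i))
    (fun t => dT (hq t))
    (fun t i => (dT (hv t) i).congr_deriv (by simp only [map_sum, map_smul, map_sub, nT]))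
    (fun t i j hij e => hn t i j hij (T.injective e)) cT (fun t => by
      have h := hE t
      simp only [Fin.sum_univ_three, Finset.sum_filter] at h
      simp only [nT, T.norm_map]
      simpa using h)
  obtain ⟨l, l0, A1⟩ := chazy_asy S.rev (q := fun t i => T (q (-t) i)) (y := fun i => T (s i))
    (N := fun t => massNorm ![1, κ ^ 4, κ ^ 4] (q (-t))) (fun t => Real.sqrt_nonneg _)
    (fun t => h1 (-t)) (fun t => h2 (-t)) (fun t => cT (-t)) hs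
    (tT (ts.comp tendsto_neg_atTop_atBot))
  obtain ⟨k, k0', A2⟩ := chazy_asy S (q := fun t i => T (q t i)) (y := fun i => T (y i))
    (N := fun t => massNorm ![1, κ ^ 4, κ ^ 4] (q t)) (fun t => Real.sqrt_nonneg _) h1 h2 cT
    (fun i j hij e => hy i j hij (T.injective e)) (tT ty)
  have o : ∀ i, (![1, κ ^ 4, κ ^ 4] : Fin 3 → ℝ) i = κ ^ 4 →
      ‖k • T (y i) - k • T (x i)‖ ≤ k * w * δ := fun i hi => by
    rw [← smul_sub, norm_smul, nT, Real.norm_of_nonneg k0'.le, mul_assoc]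
    exact mul_le_mul_of_nonneg_left (lt_of_mul_lt_mul_left
      ((chazy_le (y - x) hi).trans_lt (not_le.1 hd)) (sq_nonneg κ)).le k0'.le
  have o1 := o 1 rfl
  have o2 := o 2 rfl
  rw [x3, smul_smul, Complex.real_smul (x := k * w)] at o1 o2
  refine hno S ⟨l * r / 7, by positivity, ?_⟩ ⟨_, _, k * w, A2, by positivity, o1, o2⟩
  have e1 : l • T (s 1) = ((l * r / 7 : ℝ) : ℂ) := by
    rw [s3]; simp; ring
  have e2 : l • T (s 2) = ((-(7 * (l * r / 7)) : ℝ) : ℂ) := by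
    rw [s3]; simp; ring
  rwa [← e1, ← e2]

end Pool.Agent.Lib.MP_e310f3_mp.Gap
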