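import Pool.Agent.Lib.MP_e310f3_mp.Gap.Step
import Pool.Agent.Lib.MP_e310f3_mp.Gap.Alg2
import Pool.Agent.Lib.MP_e310f3_mp.Gap.All

open Complex Filter Topology Set

noncomputable section

namespace Pool.Agent.Lib.MP_e310f3_mp.Gap

/-- scaled product of the velocities -/
def Sys.X {κ : ℝ} (S : Sys κ) (t : ℝ) : ℝ := ‖S.x1 t‖ * dot (S.u1 t) (S.u2 t)
/-- the same in Jacobi coordinates -/
def Sys.Y {κ : ℝ} (S : Sys κ) (t : ℝ) : ℝ := ‖S.y1 t‖ * dot (S.p1 t) (S.p2 t)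

lemma dot_sub_dot (a b c d : ℂ) : dot a b - dot c d = dot (a - c) b + dot c (b - d) := by
  simp [dot]; ring

lemma Sol.R_mul_a_sq {κ : ℝ} (S : Sol κ) (t : ℝ) : S.R t * S.a t ^ 2 = S.R t + 1 := by
  rw [S.a_sq]; field_simp [(S.R_pos t).ne']

lemma k4_le {κ : ℝ} (hκ : 0 < κ) (hκ1 : κ ≤ 1 / 10) : κ ^ 4 ≤ κ / 1000 := by
  have : κ ^ 3 ≤ (1 / 10) ^ 3 := pow_le_pow_left₀ hκ.le hκ1 3
  nlinarith

lemma XY {κ : ℝ} (S : Sys κ) (hκ : 0 < κ) (hκ1 : κ ≤ 1 / 10) {t : ℝ} (h : S.CV t)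
    (hR : S.R t ≤ 1) : |S.X t - S.Y t| ≤ 20 * κ := by
  have hRp := S.R_pos t
  have ha := S.one_le_a t
  have hRa := S.R_mul_a_sq t
  have h4 := k4_le hκ hκ1
  have e : S.X t - S.Y t = (‖S.x1 t‖ - ‖S.y1 t‖) * dot (S.u1 t) (S.u2 t)
      + ‖S.y1 t‖ * (dot (S.u1 t - S.p1 t) (S.u2 t) + dot (S.p1 t) (S.u2 t - S.p2 t)) := by
    rw [← dot_sub_dot]; simp only [Sys.X, Sys.Y]; ring
  have h1 : |‖S.x1 t‖ - ‖S.y1 t‖| ≤ κ / 1000 * S.R t := by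
    refine (abs_norm_sub_norm_le _ _).trans ?_
    rw [norm_sub_rev]
    refine (S.yx1 t).trans ?_
    exact mul_le_mul h4 h.x1hi (norm_nonneg _) (by positivity)
  have h2 : |dot (S.u1 t) (S.u2 t)| ≤ 4 * S.a t * (4 * S.a t) :=
    (abs_dot_le _ _).trans (mul_le_mul h.u1 h.u2 (norm_nonneg _) (by positivity))
  have h3 : |dot (S.u1 t - S.p1 t) (S.u2 t)| ≤ κ * S.a t * (4 * S.a t) := by
    refine (abs_dot_le _ _).trans (mul_le_mul ?_ h.u2 (norm_nonneg _) (by positivity))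
    rw [norm_sub_rev]; exact h.pu1
  have h5 : |dot (S.p1 t) (S.u2 t - S.p2 t)| ≤ 5 * S.a t * (κ * S.a t) := by
    refine (abs_dot_le _ _).trans (mul_le_mul h.p1 ?_ (norm_nonneg _) (by positivity))
    rw [norm_sub_rev]; exact h.pu2
  rw [e]
  refine (abs_add_le _ _).trans ?_
  rw [abs_mul, abs_mul, abs_norm]
  have h6 : |‖S.x1 t‖ - ‖S.y1 t‖| * |dot (S.u1 t) (S.u2 t)|
      ≤ κ / 1000 * S.R t * (4 * S.a t * (4 * S.a t)) :=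
    mul_le_mul h1 h2 (abs_nonneg _) (by positivity)
  have h7 : ‖S.y1 t‖ * |dot (S.u1 t - S.p1 t) (S.u2 t) + dot (S.p1 t) (S.u2 t - S.p2 t)|
      ≤ S.R t * (κ * S.a t * (4 * S.a t) + 5 * S.a t * (κ * S.a t)) :=
    mul_le_mul h.y1hi ((abs_add_le _ _).trans (add_le_add h3 h5)) (abs_nonneg _) hRp.le
  have e1 : κ / 1000 * S.R t * (4 * S.a t * (4 * S.a t)) = 16 / 1000 * κ * (S.R t + 1) := by
    rw [← hRa]; ring
  have e2 : S.R t * (κ * S.a t * (4 * S.a t) + 5 * S.a t * (κ * S.a t)) = 9 * κ * (S.R t + 1) := by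
    rw [← hRa]; ring
  nlinarith

/-- a deep encounter is fast -/
lemma fast_of_X {κ : ℝ} (S : Sys κ) (hκ : 0 < κ) (hκ1 : κ ≤ 1 / 100) {t : ℝ}
    (hρ : S.rho t = κ * S.R t) (hR : S.R t ≤ 1) (hX : |S.X t| ≤ 17045 / 10000) :
    1 / 2 * S.a t ≤ ‖S.u1 t - S.u2 t‖ := by
  have hRp := S.R_pos t
  have ha := S.one_le_a t
  have h := S.cv hκ (by linarith) (t := t) hρ.ge (by rw [hρ]; nlinarith)
  have h4 := k4_le hκ (by linarith)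
  have hE := S.energy t
  have hr1 : 0 < ‖S.x1 t‖ := norm_pos_iff.2 (S.ne1 t)
  have hr2 : 0 < ‖S.x2 t‖ := norm_pos_iff.2 (S.ne2 t)
  have h21 : ‖S.x2 t‖ ≤ 102 / 100 * ‖S.x1 t‖ := by
    have h1 : ‖S.x2 t‖ ≤ ‖S.x1 t‖ + S.rho t := by
      have := norm_sub_norm_le (S.x2 t) (S.x1 t)
      rw [norm_sub_rev] at this
      unfold Sol.rho; linarith
    have := h.x1lo
    nlinarith
  have hi2 : 100 / 102 * (1 / ‖S.x1 t‖) ≤ 1 / ‖S.x2 t‖ := by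
    rw [show 100 / 102 * (1 / ‖S.x1 t‖) = 1 / (102 / 100 * ‖S.x1 t‖) by field_simp]
    exact one_div_le_one_div_of_le hr2 h21
  have hi1 : 1 / S.R t ≤ 1 / ‖S.x1 t‖ := one_div_le_one_div_of_le hr1 h.x1hi
  have hiR : 1 ≤ 1 / S.R t := by rw [le_div_iff₀ hRp]; linarith
  have hV : ‖S.u1 t + S.u2 t‖ ≤ 8 * S.a t := (norm_add_le _ _).trans (by linarith [h.u1, h.u2])
  have hV2 : ‖S.u1 t + S.u2 t‖ ^ 2 ≤ (8 * S.a t) ^ 2 := pow_le_pow_left₀ (norm_nonneg _) hV 2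
  have hV3 : κ ^ 4 * ‖S.u1 t + S.u2 t‖ ^ 2 ≤ 1 / 100000 * (8 * S.a t) ^ 2 :=
    mul_le_mul (by linarith) hV2 (by positivity) (by norm_num)
  have hp : 0 ≤ κ ^ 4 / ‖S.x1 t - S.x2 t‖ := by positivity
  have hd : dot (S.u1 t) (S.u2 t) ≤ 17045 / 10000 * (1 / ‖S.x1 t‖) := by
    have := (abs_le.1 hX).2
    unfold Sys.X at this
    rw [mul_one_div, le_div_iff₀ hr1]; linarith
  have hw := norm_sub_sq' (S.u1 t) (S.u2 t)
  have ha2 := S.a_sq t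
  refine (pow_le_pow_iff_left₀ (by positivity) (norm_nonneg _) two_ne_zero).1 ?_
  rw [hw]
  nlinarith

lemma Dq_le_of_near {y1 p1 y2 p2 : ℂ} {ϑ : ℝ} (hϑ1 : ϑ ≤ 1) (h1 : ‖Pq y1 p1 - 1‖ ≤ ϑ)
    (h2 : ‖Pq y2 p2 + 1‖ ≤ ϑ) : Dq y1 p1 y2 p2 ≤ 6 * ϑ := by
  have hϑ : 0 ≤ ϑ := (norm_nonneg _).trans h1
  set α := Pq y1 p1 - 1 with hα
  set β := Pq y2 p2 + 1 with hβ
  have e1 : Pq y1 p1 = 1 + α := by rw [hα]; ring
  have e2 : Pq y2 p2 = -1 + β := by rw [hβ]; ring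
  have n1 : ‖Pq y1 p1‖ ≤ 1 + ϑ := by
    rw [e1]; refine (norm_add_le _ _).trans ?_; rw [norm_one]; linarith
  have n2 : ‖Pq y2 p2‖ ≤ 1 + ϑ := by
    rw [e2]; refine (norm_add_le _ _).trans ?_; rw [norm_neg, norm_one]; linarith
  have hm := mul_le_mul n1 n2 (norm_nonneg _) (by linarith)
  have hd : dot (Pq y1 p1) (Pq y2 p2) = -1 + β.re - α.re + dot α β := by
    rw [e1, e2]; simp [dot]; ring
  have h3 := (abs_le.1 ((Complex.abs_re_le_norm α).trans h1)).1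
  have h4 := (abs_le.1 ((Complex.abs_re_le_norm β).trans h2)).2
  have h5 := (abs_le.1 ((abs_dot_le α β).trans (mul_le_mul h1 h2 (norm_nonneg _) hϑ))).2
  unfold Dq
  nlinarith

lemma cv_dq {κ : ℝ} (S : Sys κ) (hκ : 0 < κ) {t θ e : ℝ} (h : S.CV t) (hR : S.R t ≤ 1)
    (hρ : S.rho t ≤ e * S.R t) (he : e ≤ θ / 4) (hκθ : κ ≤ θ / 4) :
    ‖S.y2 t - S.y1 t‖ ≤ θ * ‖S.y1 t‖ ∧ ‖S.y1 t‖ * ‖S.p1 t‖ ^ 2 ≤ 50 ∧
      ‖S.y1 t‖ * ‖S.p2 t‖ ^ 2 ≤ 50 := by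
  have hRp := S.R_pos t
  have ha := S.one_le_a t
  have hRa := S.R_mul_a_sq t
  have hθ : 0 < θ := by linarith
  refine ⟨?_, ?_, ?_⟩
  · rw [norm_sub_rev]
    have h1 := h.y12
    have h2 := mul_le_mul_of_nonneg_left h.y1lo hθ.le
    nlinarith
  · have := mul_le_mul h.y1hi (pow_le_pow_left₀ (norm_nonneg _) h.p1 2) (by positivity) hRp.le
    nlinarith
  · have := mul_le_mul h.y1hi (pow_le_pow_left₀ (norm_nonneg _) h.p2 2) (by positivity) hRp.le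
    nlinarith

/-- transfer of X through an encounter -/
lemma X_step {κ : ℝ} (S : Sys κ) {s t e x : ℝ} (h : S.CV s) (hR : S.R s ≤ 1) (he : 0 < e)
    (h1 : ‖S.x1 t - S.x1 s‖ ≤ e * ‖S.x1 s‖)
    (h2 : |dot (S.u1 t) (S.u2 t) - dot (S.u1 s) (S.u2 s)| ≤ e * S.a s ^ 2) (hX : |S.X s| ≤ x) :
    |S.X t| ≤ (1 + e) * (x + 2 * e) := by
  have hRa := S.R_mul_a_sq s
  have n1 : ‖S.x1 t‖ ≤ (1 + e) * ‖S.x1 s‖ := by
    have := norm_sub_norm_le (S.x1 t) (S.x1 s); linarith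
  have n2 : |dot (S.u1 t) (S.u2 t)| ≤ |dot (S.u1 s) (S.u2 s)| + e * S.a s ^ 2 := by
    have := abs_sub_abs_le_abs_sub (dot (S.u1 t) (S.u2 t)) (dot (S.u1 s) (S.u2 s)); linarith
  unfold Sys.X at hX ⊢
  rw [abs_mul, abs_norm] at hX ⊢
  have h3 := mul_le_mul n1 n2 (abs_nonneg _) (by positivity)
  have h4 : ‖S.x1 s‖ * S.a s ^ 2 ≤ 2 := by
    have := mul_le_mul_of_nonneg_right h.x1hi (sq_nonneg (S.a s)); linarith
  have h5 : ‖S.x1 s‖ * (|dot (S.u1 s) (S.u2 s)| + e * S.a s ^ 2) ≤ x + 2 * e := by nlinarith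
  calc _ ≤ _ := h3
    _ = (1 + e) * (‖S.x1 s‖ * (|dot (S.u1 s) (S.u2 s)| + e * S.a s ^ 2)) := by ring
    _ ≤ _ := mul_le_mul_of_nonneg_left h5 (by positivity)

/-- Dq is below the threshold after a deep encounter -/
lemma Dq_of_X : ∃ e > 0, Small fun κ => ∀ (S : Sys κ) (t : ℝ), κ * S.R t ≤ S.rho t →
    S.rho t ≤ e * S.R t → S.R t ≤ 1 → |S.X t| ≤ 17059 / 10000 →
    Dq (S.y1 t) (S.p1 t) (S.y2 t) (S.p2 t) ≤ 146 / 100 := by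
  obtain ⟨θ, hθ, hq⟩ := dq (ϑ := 3 / 1000) (by norm_num)
  refine ⟨min (θ / 4) (1 / 10), by positivity, ?_⟩
  refine ((small_le (c := 1 / 20000) (by norm_num)).and
    (small_le (c := θ / 4) (by positivity))).mono ?_
  rintro κ ⟨⟨hκ, hκ1⟩, -, hκ2⟩ S t h1 h2 hR hX
  have hRp := S.R_pos t
  have h := S.cv hκ (by linarith) h1 (by
    have := mul_le_mul_of_nonneg_right (min_le_right (θ / 4) (1 / 10)) hRp.le; linarith)
  obtain ⟨a1, a2, a3⟩ := cv_dq S hκ h hR h2 (min_le_left _ _) hκ2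
  have h3 := (abs_le.1 (hq _ _ _ _ a1 a2 a3)).2
  have h4 := XY S hκ (by linarith) h hR
  have h5 : |S.Y t| ≤ 17069 / 10000 := by
    have := abs_sub_abs_le_abs_sub (S.Y t) (S.X t)
    rw [abs_sub_comm] at this; linarith
  have h6 : S.Y t ^ 2 ≤ (17069 / 10000) ^ 2 := by
    rw [← sq_abs]; exact pow_le_pow_left₀ (abs_nonneg _) h5 2
  unfold Sys.Y at h6
  nlinarith

/-- opposite Levi-Civita momenta at an encounter give nearly orthogonal velocities -/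
lemma X_of_P {x : ℝ} (hx : 0 < x) : ∃ ϑ > 0, ϑ ≤ 1 / 10 ∧ Small fun κ => ∀ (S : Sys κ) (t : ℝ),
    S.rho t = κ * S.R t → S.R t ≤ 1 → ‖S.P1 t - 1‖ ≤ ϑ → ‖S.P2 t + 1‖ ≤ ϑ → |S.X t| ≤ x := by
  obtain ⟨θ, hθ, hq⟩ := dq (ϑ := x ^ 2 / 100) (by positivity)
  refine ⟨min (x ^ 2 / 100) (1 / 10), by positivity, min_le_right _ _, ?_⟩
  refine (((small_le (c := 1 / 10) (by norm_num)).and
    (small_le (c := θ / 4) (by positivity))).and (small_le (c := x / 40) (by positivity))).mono ?_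
  rintro κ ⟨⟨⟨hκ, hκ1⟩, -, hκ2⟩, -, hκ3⟩ S t h1 hR hP1 hP2
  have hRp := S.R_pos t
  have h := S.cv hκ hκ1 h1.ge (by rw [h1]; nlinarith)
  obtain ⟨a1, a2, a3⟩ := cv_dq S hκ h hR h1.le hκ2 hκ2
  have h3 := (abs_le.1 (hq _ _ _ _ a1 a2 a3)).1
  have h4 := XY S hκ hκ1 h hR
  have h5 := Dq_le_of_near ((min_le_right _ _).trans (by norm_num)) hP1 hP2
  have h7 := min_le_left (x ^ 2 / 100) (1 / 10)
  have h6 : S.Y t ^ 2 ≤ (x / 2) ^ 2 := by unfold Sys.Y; nlinarith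
  have h8 : |S.Y t| ≤ x / 2 := by
    rw [← sq_abs] at h6
    exact (pow_le_pow_iff_left₀ (abs_nonneg _) (by positivity) two_ne_zero).1 h6
  have := abs_sub_abs_le_abs_sub (S.X t) (S.Y t)
  linarith

lemma le_two_of_abs {x y e : ℝ} (h : |x - y| ≤ e * y) (he : e ≤ 1) (hy : 0 < y) : x ≤ 2 * y := by
  have := (abs_le.1 h).2
  nlinarith

lemma half_le_of_abs {x y e : ℝ} (h : |x - y| ≤ e * y) (he : e ≤ 1 / 2) (hy : 0 < y) :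
    y / 2 ≤ x := by
  have := (abs_le.1 h).1
  nlinarith

lemma step_num {e x : ℝ} (he : 0 < e) (he1 : e ≤ 3 / 10000) (hx : x ≤ 17045 / 10000) :
    (1 + e) * (x + 2 * e) ≤ 17059 / 10000 := by nlinarith

lemma step_num2 {e x d : ℝ} (he : 0 < e) (he1 : e ≤ 3 / 10000) (hx : x ≤ d / 8) (hd : e ≤ d / 16) :
    2 * ((1 + e) * (x + 2 * e)) ≤ d := by nlinarith

lemma cv_of {κ e : ℝ} (S : Sys κ) (hκ : 0 < κ) (hκ1 : κ ≤ 1 / 10) {t : ℝ}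
    (h1 : κ * S.R t ≤ S.rho t) (h2 : S.rho t ≤ e * S.R t) (he : e ≤ 1 / 10) : S.CV t :=
  S.cv hκ hκ1 h1 (by nlinarith [S.R_pos t])

lemma enc_le {κ e : ℝ} (S : Sys κ) {t : ℝ} (h : S.rho t = κ * S.R t) (he : κ ≤ e) :
    S.rho t ≤ e * S.R t := by
  rw [h]; exact mul_le_mul_of_nonneg_right he (S.R_pos t).le

/-- state just after a fast encounter -/
structure Sys.Aft {κ : ℝ} (S : Sys κ) (η e τ1 s : ℝ) : Prop where
  lt : κ * S.R s < S.rho s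
  le : S.rho s ≤ e * S.R s
  fast : η * S.a s ≤ ‖S.u1 s - S.u2 s‖
  gap : ∀ t, s ≤ t → S.rho t ≤ κ * S.R t → s + τ1 * S.R s / S.a s ≤ t

lemma Sys.Aft.mono {κ : ℝ} {S : Sys κ} {η e e' τ1 s : ℝ} (h : S.Aft η e τ1 s) (he : e ≤ e') :
    S.Aft η e' τ1 s :=
  ⟨h.lt, h.le.trans (mul_le_mul_of_nonneg_right he (S.R_pos s).le), h.fast, h.gap⟩

/-- the next encounter, if any -/
lemma next_enc {η τ1 : ℝ} (hη : 0 < η) (hτ : 0 < τ1) : ∃ c > 0, c ≤ 1 ∧ ∃ e > 0, Small fun κ =>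
    ∀ (S : Sys κ) (s : ℝ), S.Aft η e τ1 s → S.FreeFrom s ∧ (∀ τ, s ≤ τ → κ * S.R τ < S.rho τ) ∨
      ∃ u, s < u ∧ S.rho u = κ * S.R u ∧ S.Free s u ∧ s + τ1 * S.R s / S.a s ≤ u ∧
        c * (S.R u * S.a u) ≤ S.J u ∧ S.t0 < u ∧ ∀ τ ∈ Ico s u, κ * S.R τ < S.rho τ := by
  obtain ⟨c, hc, e, he, hb⟩ := all_b hη hτ
  refine ⟨min c 1, by positivity, min_le_right _ _, e, he, ?_⟩
  refine (hb.and (small_le he)).mono ?_
  rintro κ ⟨hb, hκ, hκe⟩ S s h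
  by_cases hx : ∃ t, s ≤ t ∧ S.rho t ≤ κ * S.R t
  · right
    obtain ⟨t, hst, ht⟩ := hx
    obtain ⟨u, hsu, -, hu, hlt, hF⟩ := S.first_enc hst h.lt ht
    have hg := h.gap u hsu.le hu.le
    have hRu := S.R_pos u
    have hJ := hb S s u hF h.le h.fast hg (by rw [hu]; exact mul_le_mul_of_nonneg_right hκe hRu.le)
    have hp : 0 < S.R u * S.a u := mul_pos hRu (by linarith [S.one_le_a u])
    refine ⟨u, hsu, hu, hF, hg, ?_, S.t0_lt_of_J_pos (lt_of_lt_of_le (mul_pos hc hp) hJ), hlt⟩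
    exact (mul_le_mul_of_nonneg_right (min_le_left _ _) hp.le).trans hJ
  · left
    push Not at hx
    exact ⟨fun τ hτ => (hx τ hτ).le, hx⟩

/-- the state after a fast encounter -/
lemma aft_of_step {κ η e τ1 s s' : ℝ} {S : Sys κ} (hs : s < s') (h1 : κ * S.R s' < S.rho s')
    (h2 : η * S.a s' ≤ ‖S.u1 s' - S.u2 s'‖)
    (h3 : ∀ t, s' ≤ t → S.rho t ≤ κ * S.R t → s' + τ1 * S.R s' / S.a s' ≤ t)
    (h4 : ∀ τ ∈ Icc s s', |S.R τ - S.R s| ≤ e * S.R s ∧ S.rho τ ≤ e * S.R τ) :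
    S.Aft η e τ1 s' := ⟨h1, (h4 s' ⟨hs.le, le_rfl⟩).2, h2, h3⟩

end Pool.Agent.Lib.MP_e310f3_mp.Gap
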