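import Pool.Agent.Lib.MP_e310f3_mp.Gap.Vir

open Complex Filter Topology Set

noncomputable section

namespace Pool.Agent.Lib.MP_e310f3_mp.Gap

private lemma hbd_mu {κ : ℝ} (hκ : 0 < κ) (hκ1 : κ ≤ 1 / 10) :
    1 ≤ 1 + κ ^ 4 ∧ 1 + κ ^ 4 ≤ 10001 / 10000 := by
  have h0 : 0 ≤ κ ^ 4 := by positivity
  have h1 : κ ^ 4 ≤ (1 / 10) ^ 4 := pow_le_pow_left₀ hκ.le hκ1 4
  constructor <;> nlinarith

private lemma hbd_algL {r μ h K yf φ : ℝ} (hr : 0 < r) (hμ : 1 ≤ μ) (hμ1 : μ ≤ 10001 / 10000)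
    (hh : 7 / 600 - 1 / (100 * r) ≤ h) (hK : K ^ 2 ≤ 2 * h * r ^ 2 + 2 * μ * r)
    (hφ : 0 ≤ φ) (hy : -(r * φ) ≤ yf) :
    1 / (100 + r) ^ 2 ≤ ((2 * h + μ / r + yf) * (100 + r) - K * (K / r)) / (100 + r) ^ 2 + φ := by
  have hp : 0 < (100 + r) ^ 2 := by positivity
  have hK' : K * (K / r) ≤ 2 * h * r + 2 * μ := by
    rw [← mul_div_assoc, div_le_iff₀ hr]; nlinarith
  set u := 1 / r with hu
  have hu0 : 0 < u := by positivity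
  have hur : u * r = 1 := by rw [hu]; field_simp
  have e1 : μ / r = μ * u := by rw [hu]; ring
  have e2 : 1 / (100 * r) = u / 100 := by rw [hu]; field_simp
  rw [e1]; rw [e2] at hh
  rw [div_add' _ _ _ hp.ne', div_le_div_iff_of_pos_right hp]
  have h1 : -(r * φ) * (100 + r) ≤ yf * (100 + r) :=
    mul_le_mul_of_nonneg_right hy (by positivity)
  have h2 : r * φ * (100 + r) ≤ φ * (100 + r) ^ 2 := by
    have : 0 ≤ φ * (100 + r) * 100 := by positivity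
    nlinarith
  have h3 : μ * u * r = μ := by rw [mul_assoc, hur, mul_one]
  have h4 : u ≤ μ * u := by nlinarith
  nlinarith

private lemma hbd_p {P h μ a r : ℝ} (hr : 0 < r) (ha : 1 ≤ a)
    (hμ1 : μ ≤ 10001 / 10000) (hh : h ≤ 1 + a ^ 2 / 200) (e : P ^ 2 = 2 * h + 2 * μ / r) :
    P ≤ 3 * a + 1 / (a * r) := by
  have ha0 : 0 < a := by linarith
  have h0 : 0 ≤ 3 * a + 1 / (a * r) := by positivity
  refine abs_le_of_sq_le_sq' ?_ h0 |>.2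
  have e2 : (3 * a + 1 / (a * r)) ^ 2 = 9 * a ^ 2 + 6 * (1 / r) + (1 / (a * r)) ^ 2 := by
    field_simp; ring
  have e3 : 2 * μ / r = 2 * μ * (1 / r) := by ring
  have hu : 0 < 1 / r := by positivity
  rw [e2, e, e3]
  have : 0 ≤ (1 / (a * r)) ^ 2 := by positivity
  nlinarith

private lemma hbd_a1 {a R r2 : ℝ} (hR : 0 < R) (ha : 1 ≤ a) (e : a ^ 2 = 1 + 1 / R)
    (hr : 0 ≤ r2) : a / (1 + r2) ^ 2 ≤ a / R ^ 2 + 2 / (1 + r2) ^ 2 := by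
  have ha0 : 0 < a := by linarith
  rcases le_total R 1 with h | h
  · have : a / (1 + r2) ^ 2 ≤ a / R ^ 2 :=
      div_le_div_of_nonneg_left ha0.le (by positivity) (pow_le_pow_left₀ hR.le (by linarith) 2)
    have : 0 ≤ 2 / (1 + r2) ^ 2 := by positivity
    linarith
  · have h1 : 1 / R ≤ 1 := by rw [div_le_one hR]; exact h
    have h2 : a ≤ 2 := by nlinarith
    have : a / (1 + r2) ^ 2 ≤ 2 / (1 + r2) ^ 2 :=
      div_le_div_of_nonneg_right h2 (by positivity)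
    have : 0 ≤ a / R ^ 2 := by positivity
    linarith

private lemma hbd_a2 {a R r1 r2 : ℝ} (hR : 0 < R) (ha : 1 ≤ a) (hr1 : 0 < r1) (hr : 0 ≤ r2)
    (hor : R / 2 ≤ r1 ∨ R / 2 ≤ r2) :
    1 / (a * r1) * (1 / (1 + r2) ^ 2) ≤ 1 / (1 + r2) ^ 2 + 4 * (1 / (a * R ^ 2) * (1 / r1)) := by
  have ha0 : 0 < a := by linarith
  rcases le_total 1 r1 with h | h
  · have h1 : 1 / (a * r1) ≤ 1 := by
      rw [div_le_one (by positivity)]; nlinarith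
    have h2 : 1 / (a * r1) * (1 / (1 + r2) ^ 2) ≤ 1 * (1 / (1 + r2) ^ 2) :=
      mul_le_mul_of_nonneg_right h1 (by positivity)
    have : 0 ≤ 4 * (1 / (a * R ^ 2) * (1 / r1)) := by positivity
    linarith
  · have h1 : R / 2 ≤ 1 + r2 := by rcases hor with h2 | h2 <;> linarith
    have h2 : 1 / (1 + r2) ^ 2 ≤ 1 / (R / 2) ^ 2 :=
      div_le_div_of_nonneg_left zero_le_one (by positivity)
        (pow_le_pow_left₀ (by positivity) h1 2)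
    have h3 : 1 / (a * r1) * (1 / (1 + r2) ^ 2) ≤ 1 / (a * r1) * (1 / (R / 2) ^ 2) :=
      mul_le_mul_of_nonneg_left h2 (by positivity)
    have e : 1 / (a * r1) * (1 / (R / 2) ^ 2) = 4 * (1 / (a * R ^ 2) * (1 / r1)) := by
      field_simp; ring
    have : 0 ≤ 1 / (1 + r2) ^ 2 := by positivity
    linarith

namespace Sys
variable {κ : ℝ} (S : Sys κ)

private lemma hbd_Ksq (τ : ℝ) :
    S.K1 τ ^ 2 ≤ 2 * S.h1 τ * ‖S.y1 τ‖ ^ 2 + 2 * (1 + κ ^ 4) * ‖S.y1 τ‖ := by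
  have h := K_sq (1 + κ ^ 4) (S.ny1 τ) (S.p1 τ)
  have := sq_nonneg (cross (S.y1 τ) (S.p1 τ))
  simp only [K1, h1]; linarith

private lemma hbd_dK (τ : ℝ) : HasDerivAt S.K1
    (2 * S.h1 τ + (1 + κ ^ 4) / ‖S.y1 τ‖ + dot (S.y1 τ) (S.f1 τ)) τ :=
  d_K (S.ny1 τ) (S.dy1 τ) (S.dp1 τ)

private lemma hbd_yf (τ : ℝ) : -(‖S.y1 τ‖ *
    (κ ^ 3 * (1 / S.rho τ ^ 2 + 1 / S.R τ ^ 2 + 1 / (1 + ‖S.y2 τ‖) ^ 2))) ≤
      dot (S.y1 τ) (S.f1 τ) := by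
  have h1 := (abs_le.1 (abs_dot_le (S.y1 τ) (S.f1 τ))).1
  have h2 := mul_le_mul_of_nonneg_left (S.bf1 τ) (norm_nonneg (S.y1 τ))
  linarith

private lemma hbd_invR (hκ : 0 < κ) (hκ1 : κ ≤ 1 / 10) (τ : ℝ) : 1 / S.R τ ≤ 2 / ‖S.y1 τ‖ := by
  have hr : 0 < ‖S.y1 τ‖ := norm_pos_iff.2 (S.ny1 τ)
  rw [div_le_div_iff₀ (S.R_pos τ) hr]
  have := S.y1_le hκ hκ1 τ
  linarith

/-- primitive majorising the integral of the inverse square of one plus the radius -/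
private def M1 (τ : ℝ) : ℝ := 10000 * (S.K1 τ / (100 + ‖S.y1 τ‖) + S.F1 τ)

private lemma hbd_dM (hκ : 0 < κ) (hκ1 : κ ≤ 1 / 10) {τ e : ℝ} (he : 1 / 60 ≤ e)
    (h : |S.h1 τ - e| ≤ 1 / 200 * S.a τ ^ 2) :
    ∃ m, HasDerivAt S.M1 m τ ∧ 1 / (1 + ‖S.y1 τ‖) ^ 2 ≤ m := by
  have hr : 0 < ‖S.y1 τ‖ := norm_pos_iff.2 (S.ny1 τ)
  obtain ⟨hμ, hμ1⟩ := hbd_mu hκ hκ1
  have dr : HasDerivAt (fun σ => 100 + ‖S.y1 σ‖) (S.K1 τ / ‖S.y1 τ‖) τ :=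
    (hasDerivAt_norm (S.dy1 τ) (S.ny1 τ)).const_add 100
  have dL := (S.hbd_dK τ).div dr (by positivity)
  refine ⟨_, (dL.add (S.dF1 τ)).const_mul 10000, ?_⟩
  have hh : 7 / 600 - 1 / (100 * ‖S.y1 τ‖) ≤ S.h1 τ := by
    have h1 := (abs_le.1 h).1
    rw [S.a_sq] at h1
    have h2 := S.hbd_invR hκ hκ1 τ
    have e : 1 / (100 * ‖S.y1 τ‖) = 1 / 200 * (2 / ‖S.y1 τ‖) := by field_simp; norm_num
    rw [e]; linarith
  have hφ : 0 ≤ κ ^ 3 * (1 / S.rho τ ^ 2 + 1 / S.R τ ^ 2 + 1 / (1 + ‖S.y2 τ‖) ^ 2) := by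
    positivity
  have h3 := hbd_algL hr hμ hμ1 hh (S.hbd_Ksq τ) hφ (S.hbd_yf τ)
  have h4 : 1 / (1 + ‖S.y1 τ‖) ^ 2 ≤ 10000 * (1 / (100 + ‖S.y1 τ‖) ^ 2) := by
    rw [mul_one_div, div_le_div_iff₀ (by positivity) (by positivity)]
    nlinarith
  linarith

private lemma hbd_Labs (hκ : 0 < κ) (hκ1 : κ ≤ 1 / 10) {τ e : ℝ} (he : e ≤ 1)
    (h : |S.h1 τ - e| ≤ 1 / 200 * S.a τ ^ 2) : |S.K1 τ / (100 + ‖S.y1 τ‖)| ≤ 2 := by
  have hr : 0 < ‖S.y1 τ‖ := norm_pos_iff.2 (S.ny1 τ)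
  obtain ⟨hμ, hμ1⟩ := hbd_mu hκ hκ1
  have h1 := (abs_le.1 h).2
  rw [S.a_sq] at h1
  have h2 := S.hbd_invR hκ hκ1 τ
  have h3 := S.hbd_Ksq τ
  set r := ‖S.y1 τ‖
  have h4 : S.h1 τ * r ≤ 201 / 200 * r + 1 / 100 := by
    have h5 : S.h1 τ ≤ 201 / 200 + 1 / 200 * (2 / r) := by linarith
    have h6 := mul_le_mul_of_nonneg_right h5 hr.le
    have e : (201 / 200 + 1 / 200 * (2 / r)) * r = 201 / 200 * r + 1 / 100 := by
      field_simp; ring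
    linarith
  rw [abs_div, abs_of_pos (by positivity : 0 < 100 + r), div_le_iff₀ (by positivity)]
  refine abs_le_of_sq_le_sq ?_ (by positivity)
  have h7 := mul_le_mul_of_nonneg_right h4 hr.le
  nlinarith

private lemma hbd_Kabs (hκ : 0 < κ) (hκ1 : κ ≤ 1 / 10) {τ e : ℝ} (he : e ≤ 1)
    (h : |S.h1 τ - e| ≤ 1 / 200 * S.a τ ^ 2) : |S.K1 τ| ≤ 3 * (S.R τ * S.a τ) := by
  have hr : 0 < ‖S.y1 τ‖ := norm_pos_iff.2 (S.ny1 τ)
  obtain ⟨hμ, hμ1⟩ := hbd_mu hκ hκ1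
  have hR := S.R_pos τ
  have ha := S.one_le_a τ
  have h1 := (abs_le.1 h).2
  have h3 := S.hbd_Ksq τ
  have h2 := S.y1_le hκ hκ1 τ
  have e : (S.R τ * S.a τ) ^ 2 = S.R τ ^ 2 + S.R τ := mul_aa_sq hR
  set r := ‖S.y1 τ‖
  set R := S.R τ
  set a := S.a τ
  refine abs_le_of_sq_le_sq ?_ (by positivity)
  have h4 : S.h1 τ * r ^ 2 ≤ (1 + 1 / 200 * a ^ 2) * r ^ 2 :=
    mul_le_mul_of_nonneg_right (by linarith) (by positivity)
  have h5 : r ^ 2 ≤ (2 * R) ^ 2 := pow_le_pow_left₀ hr.le h2 2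
  have h6 : (1 + 1 / 200 * a ^ 2) * r ^ 2 ≤ (1 + 1 / 200 * a ^ 2) * (2 * R) ^ 2 :=
    mul_le_mul_of_nonneg_left h5 (by positivity)
  have h7 : (1 + κ ^ 4) * r ≤ 10001 / 10000 * (2 * R) :=
    mul_le_mul hμ1 h2 hr.le (by norm_num)
  have h8 : 0 ≤ R ^ 2 := by positivity
  nlinarith

/-- primitive majorising the integral of the weighted inverse radius -/
private def G1 (τ : ℝ) : ℝ := S.K1 τ / (S.a τ * S.R τ ^ 2) - 6 / S.R τ

private lemma hbd_da (τ : ℝ) :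
    HasDerivAt S.a (-(S.J τ / S.R τ) / S.R τ ^ 2 / (2 * S.a τ)) τ := by
  have hR := S.R_pos τ
  have h1 : HasDerivAt (fun σ => 1 + 1 / S.R σ) (-(S.J τ / S.R τ) / S.R τ ^ 2) τ := by
    have := ((S.dR τ).inv hR.ne').const_add 1
    simpa [one_div] using this
  exact h1.sqrt (by positivity)

private lemma hbd_dG (hκ : 0 < κ) (hκ1 : κ ≤ 1 / 10) {τ e : ℝ} (he : e ≤ 1) (h0 : S.t0 ≤ τ)
    (h : |S.h1 τ - e| ≤ 1 / 200 * S.a τ ^ 2) :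
    ∃ m, HasDerivAt S.G1 m τ ∧ 1 / (S.a τ * S.R τ ^ 2) *
      (2 * S.h1 τ + (1 + κ ^ 4) / ‖S.y1 τ‖ + dot (S.y1 τ) (S.f1 τ)) ≤ m := by
  have hR := S.R_pos τ
  have ha := S.one_le_a τ
  have ha0 : 0 < S.a τ := by linarith
  have hJ : 0 ≤ S.J τ / S.R τ := div_nonneg (S.J_nonneg h0) hR.le
  have dN := (S.hbd_da τ).mul ((S.dR τ).pow 2)
  have d1 := (S.hbd_dK τ).div dN (by positivity : S.a τ * S.R τ ^ 2 ≠ 0)
  have d2 := (hasDerivAt_const τ (6 : ℝ)).div (S.dR τ) hR.ne'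
  refine ⟨_, d1.sub d2, ?_⟩
  have hK := abs_le.1 (S.hbd_Kabs hκ hκ1 he h)
  have ea : S.a τ ^ 2 * S.R τ = S.R τ + 1 := by rw [S.a_sq]; field_simp
  simp only [Pi.mul_apply, Pi.pow_apply]
  set K' := 2 * S.h1 τ + (1 + κ ^ 4) / ‖S.y1 τ‖ + dot (S.y1 τ) (S.f1 τ)
  set R := S.R τ
  set a := S.a τ
  set j := S.J τ / R
  set K := S.K1 τ
  have e : (K' * (a * R ^ 2) - K * (-j / R ^ 2 / (2 * a) * R ^ 2 + a * (((2 : ℕ) : ℝ) *
      R ^ (2 - 1) * j))) / (a * R ^ 2) ^ 2 - (0 * R - 6 * j) / R ^ 2 =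
      1 / (a * R ^ 2) * K' + j * (12 * a ^ 3 * R ^ 2 - K * (4 * a ^ 2 * R - 1)) /
        (2 * a ^ 3 * R ^ 4) := by
    push_cast; field_simp; ring
  rw [e]
  have h1 : 0 ≤ 4 * a ^ 2 * R - 1 := by nlinarith
  have h2 : K * (4 * a ^ 2 * R - 1) ≤ 3 * (R * a) * (4 * a ^ 2 * R - 1) :=
    mul_le_mul_of_nonneg_right hK.2 h1
  have h3 : 0 ≤ 12 * a ^ 3 * R ^ 2 - K * (4 * a ^ 2 * R - 1) := by
    have : 0 ≤ R * a := by positivity
    nlinarith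
  have : 0 ≤ j * (12 * a ^ 3 * R ^ 2 - K * (4 * a ^ 2 * R - 1)) / (2 * a ^ 3 * R ^ 4) := by
    positivity
  linarith

private lemma hbd_Gb (hκ : 0 < κ) (hκ1 : κ ≤ 1 / 10) {τ e : ℝ} (he : e ≤ 1)
    (h : |S.h1 τ - e| ≤ 1 / 200 * S.a τ ^ 2) : -(9 / S.R τ) ≤ S.G1 τ ∧ S.G1 τ ≤ 0 := by
  have hR := S.R_pos τ
  have ha := S.one_le_a τ
  have ha0 : 0 < S.a τ := by linarith
  have hK := abs_le.1 (S.hbd_Kabs hκ hκ1 he h)
  have e : 3 * (S.R τ * S.a τ) / (S.a τ * S.R τ ^ 2) = 3 * (1 / S.R τ) := by field_simp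
  have hp : 0 < S.a τ * S.R τ ^ 2 := by positivity
  have h1 := div_le_div_of_nonneg_right hK.1 hp.le
  have h2 := div_le_div_of_nonneg_right hK.2 hp.le
  rw [neg_div, e] at h1
  rw [e] at h2
  have e6 : 6 / S.R τ = 6 * (1 / S.R τ) := by ring
  have e9 : 9 / S.R τ = 9 * (1 / S.R τ) := by ring
  have : 0 < 1 / S.R τ := by positivity
  simp only [G1]
  rw [e6, e9]
  constructor <;> linarith

/-- pointwise bound for the derivative of the energy -/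
private lemma hbd_dh (hκ : 0 < κ) (hκ1 : κ ≤ 1 / 10) {τ e : ℝ} (he0 : 1 / 60 ≤ e) (he : e ≤ 1)
    (hf : κ * S.R τ ≤ S.rho τ) (h : |S.h1 τ - e| ≤ 1 / 200 * S.a τ ^ 2) :
    |dot (S.p1 τ) (S.f1 τ)| ≤ κ * (16 * (S.a τ / S.R τ ^ 2) + 13 * (1 / (1 + ‖S.y2 τ‖) ^ 2) +
      6 * (1 / (S.a τ * S.R τ ^ 2) *
        (2 * S.h1 τ + (1 + κ ^ 4) / ‖S.y1 τ‖ + dot (S.y1 τ) (S.f1 τ)))) := by
  have hr : 0 < ‖S.y1 τ‖ := norm_pos_iff.2 (S.ny1 τ)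
  obtain ⟨hμ, hμ1⟩ := hbd_mu hκ hκ1
  have hR := S.R_pos τ
  have ha := S.one_le_a τ
  have ha0 : 0 < S.a τ := by linarith
  have hφ := S.phi_le hκ hκ1 hf (S.y2 τ)
  have hp := hbd_p hr ha hμ1 (h := S.h1 τ)
    (by have := (abs_le.1 h).2; linarith) (normSq_p (1 + κ ^ 4) (S.y1 τ) (S.p1 τ))
  have hf1 := (S.bf1 τ).trans hφ
  have h1 := (abs_dot_le (S.p1 τ) (S.f1 τ)).trans
    (mul_le_mul hp hf1 (norm_nonneg _) (by positivity))
  have hyf := S.hbd_yf τ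
  have hA := hbd_a1 hR ha (S.a_sq τ) (norm_nonneg (S.y2 τ))
  have hB := hbd_a2 hR ha hr (norm_nonneg (S.y2 τ)) (S.y_or hκ hκ1 τ)
  have hy := S.y1_le hκ hκ1 τ
  have hlo := (abs_le.1 h).1
  have ea : S.a τ ^ 2 * S.R τ = S.R τ + 1 := by rw [S.a_sq]; field_simp
  set r := ‖S.y1 τ‖
  set R := S.R τ
  set a := S.a τ
  set φ := κ ^ 3 * (1 / S.rho τ ^ 2 + 1 / R ^ 2 + 1 / (1 + ‖S.y2 τ‖) ^ 2) with hφd
  have hφ0 : 0 ≤ φ := by rw [hφd]; positivity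
  set q := 1 / (1 + ‖S.y2 τ‖) ^ 2 with hq
  have hq0 : 0 < q := by rw [hq]; positivity
  have eA : a / (1 + ‖S.y2 τ‖) ^ 2 = a * q := by rw [hq]; ring
  have eA2 : 2 / (1 + ‖S.y2 τ‖) ^ 2 = 2 * q := by rw [hq]; ring
  rw [eA, eA2] at hA
  set P := 1 / (a * R ^ 2) with hP
  have hP0 : 0 < P := by rw [hP]; positivity
  set w := a / R ^ 2 with hw
  have hw0 : 0 < w := by rw [hw]; positivity
  set K' := 2 * S.h1 τ + (1 + κ ^ 4) / r + dot (S.y1 τ) (S.f1 τ) with hK'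
  have h2 : 1 / r ≤ K' + a ^ 2 / 100 + r * φ := by
    have : 1 / r ≤ (1 + κ ^ 4) / r := div_le_div_of_nonneg_right hμ hr.le
    rw [hK']; linarith
  have h3 : P * (1 / r) ≤ P * (K' + a ^ 2 / 100 + r * φ) := mul_le_mul_of_nonneg_left h2 hP0.le
  have e1 : P * (a ^ 2 / 100) = w / 100 := by rw [hP, hw]; field_simp
  have h4 : P * r ≤ 2 * a := by
    rw [hP, one_div, inv_mul_le_iff₀ (by positivity)]
    nlinarith
  have h5 : P * r * φ ≤ 2 * a * (κ * (2 / R ^ 2 + q)) := mul_le_mul h4 hφ hφ0 (by positivity)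
  have e2 : 2 * a * (κ * (2 / R ^ 2 + q)) = κ * (4 * w + 2 * (a * q)) := by rw [hw]; ring
  have h6 : κ * (4 * w + 2 * (a * q)) ≤ 1 / 10 * (4 * w + 2 * (a * q)) :=
    mul_le_mul_of_nonneg_right hκ1 (by positivity)
  have h7 : P * (1 / r) ≤ P * K' + w + q := by nlinarith
  have e3 : (3 * a + 1 / (a * r)) * (κ * (2 / R ^ 2 + q)) =
      κ * (6 * w + 3 * (a * q) + 2 * (P * (1 / r)) + 1 / (a * r) * q) := by
    rw [hw, hP]; field_simp; ring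
  rw [e3] at h1
  refine h1.trans (mul_le_mul_of_nonneg_left ?_ hκ.le)
  linarith

private lemma hbd_Mdiff (hκ : 0 < κ) (hκ1 : κ ≤ 1 / 10) {s t e : ℝ} (he : e ≤ 1)
    (hs : |S.h1 s - e| ≤ 1 / 200 * S.a s ^ 2) (ht : |S.h1 t - e| ≤ 1 / 200 * S.a t ^ 2) :
    S.M1 t - S.M1 s ≤ 10000 * (4 + (S.F1 t - S.F1 s)) := by
  have h1 := abs_le.1 (S.hbd_Labs hκ hκ1 he hs)
  have h2 := abs_le.1 (S.hbd_Labs hκ hκ1 he ht)
  simp only [M1]
  linarith [h1.1, h2.2]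

private lemma hbd_invRa (τ : ℝ) : 1 / S.R τ ≤ S.a τ ^ 2 := by rw [S.a_sq]; linarith

private lemma hbd_F (hκ : 0 < κ) (hκ1 : κ ≤ 1 / 10) {e1 e2 s t : ℝ}
    (he2 : e2 ∈ Icc (1 / 60 : ℝ) 1) (h0 : S.t0 ≤ s) (hst : s ≤ t) (hf : S.Free s t)
    (hb : S.HB (1 / 200) e1 e2 s t) :
    S.F1 t - S.F1 s ≤ κ * (6 * S.a s ^ 2 + 10000 * (4 + (S.F2 t - S.F2 s))) := by
  obtain ⟨L, hL⟩ := S.exists_L
  have hb' := S.swap_HB hb
  have key : S.F1 t - S.F1 s ≤ κ * (2 * L t + S.swap.M1 t) - κ * (2 * L s + S.swap.M1 s) := by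
    refine sub_le_of_deriv_le (g := fun τ => κ * (2 * L τ + S.swap.M1 τ)) hst fun τ hτ => ?_
    obtain ⟨⟨l, dl, hl⟩, -⟩ := hL τ (h0.trans hτ.1)
    obtain ⟨m, dm, hm⟩ := S.swap.hbd_dM hκ hκ1 he2.1 (hb' τ hτ).1
    refine ⟨_, _, S.dF1 τ, ((dl.const_mul 2).add dm).const_mul κ, ?_⟩
    refine (S.phi_le hκ hκ1 (hf τ hτ) (S.y2 τ)).trans (mul_le_mul_of_nonneg_left ?_ hκ.le)
    have h1 : 1 / S.R τ ^ 2 ≤ S.a τ / S.R τ ^ 2 :=
      div_le_div_of_nonneg_right (S.one_le_a τ) (by positivity)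
    have e : 2 / S.R τ ^ 2 = 2 * (1 / S.R τ ^ 2) := by ring
    rw [swap_y1] at hm
    linarith
  have h1 := S.swap.hbd_Mdiff hκ hκ1 he2.2 (hb' s ⟨le_rfl, hst⟩).1 (hb' t ⟨hst, le_rfl⟩).1
  rw [swap_F1] at h1
  have h2 := (hL s h0).2.1
  have h3 := (hL t (h0.trans hst)).2.2
  have h4 := S.hbd_invRa s
  have e : 3 / S.R s = 3 * (1 / S.R s) := by ring
  rw [← mul_sub] at key
  refine key.trans (mul_le_mul_of_nonneg_left ?_ hκ.le)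
  linarith

private lemma hbd_h (hκ : 0 < κ) (hκ1 : κ ≤ 1 / 10) {e1 e2 s t : ℝ}
    (he1 : e1 ∈ Icc (1 / 60 : ℝ) 1)
    (he2 : e2 ∈ Icc (1 / 60 : ℝ) 1) (h0 : S.t0 ≤ s) (hst : s ≤ t) (hf : S.Free s t)
    (hb : S.HB (1 / 200) e1 e2 s t) :
    |S.h1 t - S.h1 s| ≤ κ * (102 * S.a s ^ 2 + 130000 * (4 + (S.F2 t - S.F2 s))) := by
  obtain ⟨L, hL⟩ := S.exists_L
  have hb' := S.swap_HB hb
  have key : |S.h1 t - S.h1 s| ≤ κ * (16 * L t + 13 * S.swap.M1 t + 6 * S.G1 t) -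
      κ * (16 * L s + 13 * S.swap.M1 s + 6 * S.G1 s) := by
    refine abs_sub_le_of_deriv (g := fun τ => κ * (16 * L τ + 13 * S.swap.M1 τ + 6 * S.G1 τ))
      hst fun τ hτ => ?_
    obtain ⟨⟨l, dl, hl⟩, -⟩ := hL τ (h0.trans hτ.1)
    obtain ⟨m, dm, hm⟩ := S.swap.hbd_dM hκ hκ1 he2.1 (hb' τ hτ).1
    obtain ⟨n, dn, hn⟩ := S.hbd_dG hκ hκ1 he1.2 (h0.trans hτ.1) (hb τ hτ).1
    refine ⟨_, _, S.dh1 τ,
      (((dl.const_mul 16).add (dm.const_mul 13)).add (dn.const_mul 6)).const_mul κ, ?_⟩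
    refine (S.hbd_dh hκ hκ1 he1.1 he1.2 (hf τ hτ) (hb τ hτ).1).trans
      (mul_le_mul_of_nonneg_left ?_ hκ.le)
    rw [swap_y1] at hm
    linarith
  have h1 := S.swap.hbd_Mdiff hκ hκ1 he2.2 (hb' s ⟨le_rfl, hst⟩).1 (hb' t ⟨hst, le_rfl⟩).1
  rw [swap_F1] at h1
  have h2 := (hL s h0).2.1
  have h3 := (hL t (h0.trans hst)).2.2
  have h4 := S.hbd_invRa s
  have h5 := (S.hbd_Gb hκ hκ1 he1.2 (hb s ⟨le_rfl, hst⟩).1).1
  have h6 := (S.hbd_Gb hκ hκ1 he1.2 (hb t ⟨hst, le_rfl⟩).1).2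
  have e : 3 / S.R s = 3 * (1 / S.R s) := by ring
  have e9 : 9 / S.R s = 9 * (1 / S.R s) := by ring
  rw [← mul_sub] at key
  refine key.trans (mul_le_mul_of_nonneg_left ?_ hκ.le)
  linarith

end Sys

/-- variation of the energies on the outbound half, under assumed energy bounds -/
theorem hv : ∃ C > 0, Small fun κ => ∀ (S : Sys κ) (θ e1 e2 s t : ℝ), θ ≤ 1 / 200 →
    e1 ∈ Icc (1 / 60 : ℝ) 1 → e2 ∈ Icc (1 / 60 : ℝ) 1 → S.t0 ≤ s → s ≤ t → S.Free s t →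
    S.HB θ e1 e2 s t →
    |S.h1 t - S.h1 s| ≤ C * κ * S.a s ^ 2 ∧ |S.h2 t - S.h2 s| ≤ C * κ * S.a s ^ 2 ∧
    S.F1 t - S.F1 s ≤ C * κ * S.a s ^ 2 ∧ S.F2 t - S.F2 s ≤ C * κ * S.a s ^ 2 := by
  refine ⟨1000000, by norm_num, (small_le (c := 1 / 100000) (by norm_num)).mono ?_⟩
  rintro κ ⟨hκ, hκ2⟩ S θ e1 e2 s t hθ he1 he2 h0 hst hf hb
  have hκ1 : κ ≤ 1 / 10 := by linarith
  have hb1 : S.HB (1 / 200) e1 e2 s t := S.HB_mono hb hθ le_rfl le_rfl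
  have hb2 := S.swap_HB hb1
  have hf2 : S.swap.Free s t := S.toSol.swap_free hf
  have A1 := S.hbd_F hκ hκ1 he2 h0 hst hf hb1
  have A2 := S.swap.hbd_F hκ hκ1 he1 h0 hst hf2 hb2
  have B1 := S.hbd_h hκ hκ1 he1 he2 h0 hst hf hb1
  have B2 := S.swap.hbd_h hκ hκ1 he2 he1 h0 hst hf2 hb2
  simp only [Sys.swap_F1, Sys.swap_F2, Sys.swap_h1, Sys.swap_toSol, Sol.swap_a] at A2 B2
  have ha : 1 ≤ S.a s ^ 2 := one_le_pow₀ (S.one_le_a s)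
  have mono : ∀ T : Sys κ, 0 ≤ T.F1 t - T.F1 s := fun T =>
    sub_nonneg.2 (le_of_deriv_nonneg hst fun τ _ => ⟨_, T.dF1 τ, by positivity⟩)
  have p1 := mono S
  have p2 := mono S.swap
  rw [Sys.swap_F1] at p2
  set D1 := S.F1 t - S.F1 s
  set D2 := S.F2 t - S.F2 s
  set b := S.a s ^ 2
  have k1 : κ * D1 ≤ 1 / 100000 * D1 := mul_le_mul_of_nonneg_right hκ2 p1
  have k2 : κ * D2 ≤ 1 / 100000 * D2 := mul_le_mul_of_nonneg_right hκ2 p2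
  have k3 : κ * 1 ≤ κ * b := mul_le_mul_of_nonneg_left ha hκ.le
  have k4 : 0 ≤ κ * b := by positivity
  have c1 : D1 ≤ 100000 * (κ * b) := by nlinarith
  have c2 : D2 ≤ 100000 * (κ * b) := by nlinarith
  refine ⟨?_, ?_, ?_, ?_⟩ <;> nlinarith

/-- energy bounds propagate backwards from the far end of an encounter-free interval -/
theorem hb {θ Λ : ℝ} (hθ : 0 < θ) (hθ1 : θ ≤ 1 / 200) (hΛ : 1 ≤ Λ) : ∃ θ0 > 0, Small fun κ =>
    ∀ (S : Sys κ) (e1 e2 s t : ℝ), e1 ∈ Icc (1 / 60 : ℝ) 1 → e2 ∈ Icc (1 / 60 : ℝ) 1 →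
    s ≤ t → S.t0 ≤ t → S.Free s t → (s < S.t0 → S.a S.t0 ^ 2 ≤ Λ * S.a s ^ 2) →
    |S.h1 t - e1| ≤ θ0 * S.a t ^ 2 → |S.h2 t - e2| ≤ θ0 * S.a t ^ 2 →
    S.HB θ e1 e2 s t ∧
      ∀ τ ∈ Icc s t, S.F1 t - S.F1 τ ≤ θ * S.a τ ^ 2 ∧ S.F2 t - S.F2 τ ≤ θ * S.a τ ^ 2 := by
  obtain ⟨C, hC, hS⟩ := hv
  have hΛ0 : 0 < Λ := by linarith
  obtain ⟨η, hη, hηΛ⟩ : ∃ η > 0, η * Λ = θ / 8 := ⟨θ / 8 / Λ, by positivity, by field_simp⟩
  have hηθ : η ≤ θ / 8 := by nlinarith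
  refine ⟨η, hη, ((hS.and (small_le (c := η / C) (by positivity))).mono ?_)⟩
  rintro κ ⟨H, hκ, hκ1⟩ S e1 e2 s t he1 he2 hst h0 hf hΛa g1 g2
  have hCκ : C * κ ≤ η := by rw [le_div_iff₀ hC] at hκ1; linarith
  have apos : ∀ (T : Sys κ) τ, 0 < T.a τ ^ 2 := fun T τ => by
    have := T.one_le_a τ
    positivity
  have amono : ∀ {x y : ℝ}, S.R x ≤ S.R y → S.a y ^ 2 ≤ S.a x ^ 2 := fun {x y} h =>
    pow_le_pow_left₀ (zero_le_one.trans (S.one_le_a y)) (aa_anti (S.R_pos x) h) 2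
  have cont : ∀ (T : Sys κ) (c : ℝ) (i : Bool), Continuous fun τ =>
      |(if i then T.h1 τ - e1 else T.h2 τ - e2)| - c * T.a τ ^ 2 := by
    intro T c i
    have := T.continuous_h1
    have := T.continuous_h2
    have := T.continuous_a
    cases i
    · simp only [Bool.false_eq_true, if_false]; fun_prop
    · simp only [if_true]; fun_prop
  -- the outbound half
  have out : ∀ u, s ≤ u → S.t0 ≤ u → u ≤ t → S.HB (3 * η) e1 e2 u t := by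
    intro u hsu hu hut
    have hfu : ∀ τ, u ≤ τ → S.Free τ t := fun τ hτ σ hσ => hf σ ⟨by linarith [hσ.1], hσ.2⟩
    have := boot_back (fun (i : Bool) τ =>
      |(if i then S.h1 τ - e1 else S.h2 τ - e2)| - 3 * η * S.a τ ^ 2) (s := u) (t := t)
      (fun i => (cont S _ i).continuousOn) (fun i => by
        have := mul_pos hη (apos S t)
        cases i
        · simp only [Bool.false_eq_true, if_false]; linarith
        · simp only [if_true]; linarith) (fun τ hτ hσ i => by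
        have hB : S.HB (3 * η) e1 e2 τ t := fun σ h =>
          ⟨by simpa using hσ σ h true, by simpa using hσ σ h false⟩
        obtain ⟨b1, b2, -, -⟩ := H S _ e1 e2 τ t (by linarith) he1 he2 (hu.trans hτ.1) hτ.2
          (hfu τ hτ.1) hB
        have c1 := mul_le_mul_of_nonneg_right hCκ (apos S τ).le
        have c2 := mul_le_mul_of_nonneg_left (amono (S.R_mono (hu.trans hτ.1) hτ.2)) hη.le
        have c3 := mul_pos hη (apos S τ)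
        cases i
        · simp only [Bool.false_eq_true, if_false]
          have := abs_sub_le (S.h2 τ) (S.h2 t) e2
          rw [abs_sub_comm (S.h2 τ) (S.h2 t)] at this
          linarith
        · simp only [if_true]
          have := abs_sub_le (S.h1 τ) (S.h1 t) e1
          rw [abs_sub_comm (S.h1 τ) (S.h1 t)] at this
          linarith)
    exact fun σ h => ⟨by simpa using this σ h true, by simpa using this σ h false⟩
  have outF : ∀ u, s ≤ u → S.t0 ≤ u → u ≤ t →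
      S.F1 t - S.F1 u ≤ η * S.a u ^ 2 ∧ S.F2 t - S.F2 u ≤ η * S.a u ^ 2 := by
    intro u hsu hu hut
    obtain ⟨-, -, b1, b2⟩ := H S _ e1 e2 u t (by linarith) he1 he2 hu hut
      (fun σ hσ => hf σ ⟨hsu.trans hσ.1, hσ.2⟩) (out u hsu hu hut)
    have c1 := mul_le_mul_of_nonneg_right hCκ (apos S u).le
    constructor <;> linarith
  have fin : ∀ τ ∈ Icc s t, S.t0 ≤ τ →
      (|S.h1 τ - e1| ≤ θ * S.a τ ^ 2 ∧ |S.h2 τ - e2| ≤ θ * S.a τ ^ 2) ∧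
      (S.F1 t - S.F1 τ ≤ θ * S.a τ ^ 2 ∧ S.F2 t - S.F2 τ ≤ θ * S.a τ ^ 2) := by
    intro τ hτ h
    obtain ⟨b1, b2⟩ := out τ hτ.1 h hτ.2 τ ⟨le_rfl, hτ.2⟩
    obtain ⟨b3, b4⟩ := outF τ hτ.1 h hτ.2
    have c1 := mul_le_mul_of_nonneg_right hηθ (apos S τ).le
    have c2 := mul_pos hθ (apos S τ)
    refine ⟨⟨?_, ?_⟩, ?_, ?_⟩ <;> linarith
  rcases le_or_gt S.t0 s with hs | hs
  · exact ⟨fun τ hτ => (fin τ hτ (hs.trans hτ.1)).1, fun τ hτ => (fin τ hτ (hs.trans hτ.1)).2⟩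
  -- the inbound half
  have hΛa' := hΛa hs
  obtain ⟨m1, m2⟩ := out S.t0 hs.le le_rfl h0 S.t0 ⟨le_rfl, h0⟩
  obtain ⟨m3, m4⟩ := outF S.t0 hs.le le_rfl h0
  have cmp : ∀ τ, s ≤ τ → τ ≤ S.t0 → η * S.a S.t0 ^ 2 ≤ θ / 8 * S.a τ ^ 2 := by
    intro τ h1 h2
    have c1 := mul_le_mul_of_nonneg_left (amono (S.R_anti h1 h2)) hΛ0.le
    have c2 := mul_le_mul_of_nonneg_left (hΛa'.trans c1) hη.le
    rw [← mul_assoc, hηΛ] at c2
    exact c2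
  have hfr : ∀ σ, σ ≤ -s → S.rev.Free (-S.t0) σ := fun σ hσ x hx =>
    hf (-x) ⟨by linarith [hx.2], by linarith [hx.1]⟩
  have c0 := mul_le_mul_of_nonneg_right hCκ (apos S S.t0).le
  have inb : S.rev.HB θ e1 e2 (-S.t0) (-s) := by
    have := boot (fun (i : Bool) τ =>
      |(if i then S.rev.h1 τ - e1 else S.rev.h2 τ - e2)| - θ * S.rev.a τ ^ 2)
      (s := -S.t0) (t := -s) (fun i => (cont S.rev _ i).continuousOn) (fun i => by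
        have c1 := cmp S.t0 hs.le le_rfl
        have c2 := mul_pos hθ (apos S S.t0)
        cases i
        · simp only [Bool.false_eq_true, if_false, Sys.rev_h2, Sys.rev_toSol, Sol.rev_a, neg_neg]
          linarith
        · simp only [if_true, Sys.rev_h1, Sys.rev_toSol, Sol.rev_a, neg_neg]
          linarith) (fun τ hτ hσ i => by
        have hB : S.rev.HB θ e1 e2 (-S.t0) τ := fun σ h =>
          ⟨by simpa using hσ σ h true, by simpa using hσ σ h false⟩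
        obtain ⟨b1, b2, -, -⟩ := H S.rev _ e1 e2 (-S.t0) τ hθ1 he1 he2 le_rfl hτ.1
          (hfr τ hτ.2) hB
        simp only [Sys.rev_h1, Sys.rev_h2, Sys.rev_toSol, Sol.rev_a, neg_neg] at b1 b2
        have c1 := cmp (-τ) (by linarith [hτ.2]) (by linarith [hτ.1])
        have c2 := mul_pos hθ (apos S (-τ))
        cases i
        · simp only [Bool.false_eq_true, if_false, Sys.rev_h2, Sys.rev_toSol, Sol.rev_a]
          have := abs_sub_le (S.h2 (-τ)) (S.h2 S.t0) e2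
          linarith
        · simp only [if_true, Sys.rev_h1, Sys.rev_toSol, Sol.rev_a]
          have := abs_sub_le (S.h1 (-τ)) (S.h1 S.t0) e1
          linarith)
    exact fun σ h => ⟨by simpa using this σ h true, by simpa using this σ h false⟩
  constructor
  · intro τ hτ
    rcases le_total S.t0 τ with h | h
    · exact (fin τ hτ h).1
    · simpa using inb (-τ) ⟨by linarith, by linarith [hτ.1]⟩
  · intro τ hτ
    rcases le_total S.t0 τ with h | h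
    · exact (fin τ hτ h).2
    · obtain ⟨-, -, b1, b2⟩ := H S.rev _ e1 e2 (-S.t0) (-τ) hθ1 he1 he2 le_rfl (by linarith)
        (hfr _ (by linarith [hτ.1])) (S.rev.HB_mono inb le_rfl le_rfl (by linarith [hτ.1]))
      simp only [Sys.rev_F1, Sys.rev_F2, Sys.rev_toSol, Sol.rev_a, neg_neg] at b1 b2
      have c1 := cmp τ hτ.1 h
      have c2 := mul_pos hθ (apos S τ)
      constructor <;> linarith

end Pool.Agent.Lib.MP_e310f3_mp.Gap
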