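import Pool.Agent.Lib.MP_e310f3_mp.Gap.Rad1

open Complex Filter Topology Set

noncomputable section

namespace Pool.Agent.Lib.MP_e310f3_mp.Gap

private lemma abs_le_abs_of_sq {a b : ℝ} (h : a ^ 2 ≤ b ^ 2) (hb : 0 ≤ b) : a ≤ b :=
  (abs_le_of_sq_le_sq' h hb).2

private lemma K_two {e θ R : ℝ} {y p : ℂ} (hy : y ≠ 0) (e0 : 0 ≤ e) (e1 : e ≤ 1 / 10000)
    (θ0 : 0 < θ) (θ1 : θ ≤ 1 / 100000) (R0 : 0 < R) (yR : ‖y‖ ≤ 2 * R)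
    (hh1 : |hh (1 + e) y p - 1 / 2| ≤ θ * (1 + 1 / R)) (hl : |cross y p| ≤ √‖y‖ / 100) :
    9999 / 10000 * (‖y‖ ^ 2 + 2 * ‖y‖) ≤ dot y p ^ 2 ∧
      dot y p ^ 2 ≤ 10002 / 10000 * (‖y‖ ^ 2 + 2 * ‖y‖) := by
  have k := K_sq (1 + e) hy p
  have r0 := norm_pos_iff.2 hy
  have l2 : cross y p ^ 2 ≤ ‖y‖ / 10000 := by
    have := pow_le_pow_left₀ (abs_nonneg _) hl 2
    rw [sq_abs, div_pow, Real.sq_sqrt r0.le] at this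
    linarith
  have a : 1 / R * ‖y‖ ≤ 2 := by
    rw [one_div, inv_mul_le_iff₀ R0]
    linarith
  obtain ⟨b1, b2⟩ := abs_le.1 hh1
  generalize ‖y‖ = r at *
  generalize hh (1 + e) y p = h at *
  generalize 1 / R = i at *
  have c : θ * (1 + i) * r ^ 2 ≤ 1 / 100000 * (r ^ 2 + 2 * r) := by
    have : (1 + i) * r ^ 2 ≤ r ^ 2 + 2 * r := by nlinarith [mul_le_mul_of_nonneg_right a r0.le]
    rw [mul_assoc]
    exact (mul_le_mul_of_nonneg_left this θ0.le).trans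
      (mul_le_mul_of_nonneg_right θ1 (by positivity))
  have d1 := mul_le_mul_of_nonneg_right b1 (sq_nonneg r)
  have d2 := mul_le_mul_of_nonneg_right b2 (sq_nonneg r)
  have d3 := mul_le_mul_of_nonneg_right e1 r0.le
  have d4 := mul_nonneg e0 r0.le
  constructor <;> nlinarith [sq_nonneg (cross y p), sq_nonneg r]

private lemma rate {r1 r2 K1 K2 : ℝ} (h1 : 0 < r1) (h : r1 ≤ 97 / 100 * r2) (k1 : 0 ≤ K1)
    (b1 : 9999 / 10000 * (r1 ^ 2 + 2 * r1) ≤ K1 ^ 2)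
    (b2 : K2 ^ 2 ≤ 10002 / 10000 * (r2 ^ 2 + 2 * r2)) :
    51 / 50 * (K2 / r2 / r2) ≤ K1 / r1 / r1 := by
  have h2 : 0 < r2 := by linarith
  rw [div_div, div_div, ← mul_div_assoc, div_le_div_iff₀ (by positivity) (by positivity)]
  refine abs_le_abs_of_sq ?_ (by positivity)
  have s2 : r1 ^ 2 ≤ (97 / 100) ^ 2 * r2 ^ 2 := by
    rw [← mul_pow]
    gcongr
  have s3 : r1 ^ 3 ≤ (97 / 100) ^ 2 * r2 ^ 3 := by
    have : r1 ^ 3 ≤ (97 / 100 * r2) ^ 3 := by gcongr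
    nlinarith [pow_pos h2 3]
  have t1 : (r2 ^ 2 + 2 * r2) * r1 ^ 4 ≤ (97 / 100) ^ 2 * ((r1 ^ 2 + 2 * r1) * r2 ^ 4) := by
    nlinarith [mul_le_mul_of_nonneg_left s2 (by positivity : 0 ≤ r2 ^ 2 * r1 ^ 2),
      mul_le_mul_of_nonneg_left s3 (by positivity : 0 ≤ 2 * r2 * r1)]
  have t2 := mul_le_mul_of_nonneg_right b2 (by positivity : 0 ≤ r1 ^ 4)
  have t3 := mul_le_mul_of_nonneg_right b1 (by positivity : 0 ≤ r2 ^ 4)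
  have t4 : 0 ≤ (r1 ^ 2 + 2 * r1) * r2 ^ 4 := by positivity
  nlinarith

private lemma ratio {y1 p1 y2 p2 : ℝ → ℂ} (n1 : ∀ t, y1 t ≠ 0) (n2 : ∀ t, y2 t ≠ 0)
    (d1 : ∀ t, HasDerivAt y1 (p1 t) t) (d2 : ∀ t, HasDerivAt y2 (p2 t) t) {s1 s2 t c : ℝ}
    (h12 : s1 ≤ s2) (h2t : s2 ≤ t) (c0 : 0 < c)
    (hK : ∀ τ ∈ Icc s1 t, 0 ≤ dot (y1 τ) (p1 τ) ∧ 0 ≤ dot (y2 τ) (p2 τ) ∧
      9999 / 10000 * (‖y1 τ‖ ^ 2 + 2 * ‖y1 τ‖) ≤ dot (y1 τ) (p1 τ) ^ 2 ∧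
      dot (y2 τ) (p2 τ) ^ 2 ≤ 10002 / 10000 * (‖y2 τ‖ ^ 2 + 2 * ‖y2 τ‖))
    (hc : c * ‖y2 s1‖ ≤ ‖y1 s1‖) (hg : ‖y2 s1‖ ≤ c ^ 50 * ‖y2 s2‖) :
    ∀ τ ∈ Icc s2 t, 97 / 100 * ‖y2 τ‖ ≤ ‖y1 τ‖ := by
  have r1 := fun τ => norm_pos_iff.2 (n1 τ)
  have r2 := fun τ => norm_pos_iff.2 (n2 τ)
  have l1 := fun τ => (hasDerivAt_norm (d1 τ) (n1 τ)).log (r1 τ).ne'
  have l2 := fun τ => (hasDerivAt_norm (d2 τ) (n2 τ)).log (r2 τ).ne'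
  have rt : ∀ τ ∈ Icc s1 t, ‖y1 τ‖ ≤ 97 / 100 * ‖y2 τ‖ →
      51 / 50 * (dot (y2 τ) (p2 τ) / ‖y2 τ‖ / ‖y2 τ‖) ≤ dot (y1 τ) (p1 τ) / ‖y1 τ‖ / ‖y1 τ‖ :=
    fun τ hτ h => rate (r1 τ) h (hK τ hτ).1 (hK τ hτ).2.2.1 (hK τ hτ).2.2.2
  obtain ⟨σ, hσ, h0⟩ : ∃ σ ∈ Icc s1 s2, 97 / 100 * ‖y2 σ‖ < ‖y1 σ‖ := by
    by_contra k
    push Not at k
    have a := sub_le_of_deriv_le (f := fun τ => 51 / 50 * Real.log ‖y2 τ‖)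
      (g := fun τ => Real.log ‖y1 τ‖) h12 fun τ hτ =>
        ⟨_, _, (l2 τ).const_mul _, l1 τ, rt τ ⟨hτ.1, hτ.2.trans h2t⟩ (k τ hτ)⟩
    have b := Real.log_le_log (mul_pos c0 (r2 s1)) hc
    have d := Real.log_le_log (r2 s1) hg
    have e := Real.log_lt_log (r1 s2) ((k s2 ⟨h12, le_rfl⟩).trans_lt
      (show 97 / 100 * ‖y2 s2‖ < ‖y2 s2‖ by linarith [r2 s2]))
    rw [Real.log_mul c0.ne' (r2 s1).ne'] at b
    rw [Real.log_mul (pow_pos c0 50).ne' (r2 s2).ne', Real.log_pow] at d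
    push_cast at d
    linarith
  intro τ hτ
  by_contra k
  have cy1 : Continuous y1 := continuous_iff_continuousAt.2 fun t => (d1 t).continuousAt
  have cy2 : Continuous y2 := continuous_iff_continuousAt.2 fun t => (d2 t).continuousAt
  obtain ⟨u, hu, e, neg⟩ := exists_last (G := fun τ => ‖y1 τ‖ - 97 / 100 * ‖y2 τ‖)
    (hσ.2.trans hτ.1) (by fun_prop) (by linarith) (by linarith)
  have a := sub_le_of_deriv_le (f := fun τ => Real.log ‖y2 τ‖) (g := fun τ => Real.log ‖y1 τ‖)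
    hu.2.le fun v hv => ⟨_, _, l2 v, l1 v, by
      have m : v ∈ Icc s1 t := ⟨hσ.1.trans (hu.1.trans hv.1), hv.2.trans hτ.2⟩
      have q : ‖y1 v‖ ≤ 97 / 100 * ‖y2 v‖ := by
        rcases hv.1.eq_or_lt with rfl | h
        · linarith
        · linarith [neg v ⟨h, hv.2⟩]
      have z : 0 ≤ dot (y2 v) (p2 v) / ‖y2 v‖ / ‖y2 v‖ :=
        div_nonneg (div_nonneg (hK v m).2.1 (norm_nonneg _)) (norm_nonneg _)
      linarith [rt v m q]⟩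
  have b := Real.log_lt_log (r1 τ) (not_le.1 k)
  rw [show ‖y1 u‖ = 97 / 100 * ‖y2 u‖ by linarith, Real.log_mul (by norm_num) (r2 u).ne'] at a
  rw [Real.log_mul (by norm_num) (r2 τ).ne'] at b
  linarith

private lemma norm_near {x y : ℂ} {e : ℝ} (h : ‖y - x‖ ≤ e * ‖x‖) :
    (1 - e) * ‖x‖ ≤ ‖y‖ ∧ ‖y‖ ≤ (1 + e) * ‖x‖ := by
  obtain ⟨a, b⟩ := abs_le.1 ((abs_norm_sub_norm_le y x).trans h)
  constructor <;> linarith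

private lemma cross_near {x y p u u' : ℂ} {κ W R : ℝ} (k0 : 0 < κ) (k1 : κ ≤ 1 / 10)
    (hx : ‖x‖ ≤ 101 / 100 * R) (hy : ‖y‖ ≤ 2 * R) (yx : ‖y - x‖ ≤ κ ^ 4 * ‖x‖)
    (pu : ‖p - u‖ ≤ κ ^ 3 * W) (hu : ‖u‖ ≤ 2 * W) (hu' : ‖u'‖ ≤ 2 * W) :
    |cross x (u + ((κ ^ 4 : ℝ) : ℂ) * (u + u'))| ≤ |cross y p| + κ * (R * W) := by
  have W0 : 0 ≤ W := by linarith [norm_nonneg u]
  have R0 : 0 ≤ R := by linarith [norm_nonneg y]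
  have k3 : κ ^ 3 ≤ κ / 100 := by nlinarith [mul_pos k0 k0]
  have k4 : κ ^ 4 ≤ κ / 1000 := by nlinarith [pow_pos k0 3]
  have a : ‖((κ ^ 4 : ℝ) : ℂ) * (u + u')‖ ≤ κ / 1000 * (4 * W) := by
    rw [norm_mul, Complex.norm_real, Real.norm_of_nonneg (by positivity)]
    exact mul_le_mul k4 ((norm_add_le _ _).trans (by linarith)) (norm_nonneg _) (by positivity)
  generalize ((κ ^ 4 : ℝ) : ℂ) * (u + u') = z at a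
  have e : cross x (u + z) = cross y p - cross (y - x) (u + z) - cross y (p - u - z) := by
    simp only [cross, add_re, add_im, sub_re, sub_im]
    ring
  have b : ‖u + z‖ ≤ 3 * W := (norm_add_le _ _).trans (by nlinarith)
  have c : ‖p - u - z‖ ≤ κ / 50 * W := (norm_sub_le _ _).trans (by nlinarith)
  have d : ‖y - x‖ ≤ κ / 500 * R :=
    yx.trans ((mul_le_mul k4 hx (norm_nonneg _) (by positivity)).trans (by nlinarith))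
  have f1 := (abs_cross_le _ _).trans (mul_le_mul d b (norm_nonneg _) (by positivity))
  have f2 := (abs_cross_le _ _).trans (mul_le_mul hy c (norm_nonneg _) (by positivity))
  have f3 : 0 ≤ κ * (R * W) := by positivity
  rw [e]
  refine (abs_sub _ _).trans ((add_le_add_left (abs_sub _ _) _).trans ?_)
  nlinarith

private lemma dir_near {x y : ℂ} {e : ℝ} (hx : x ≠ 0) (hy : y ≠ 0) (h : ‖y - x‖ ≤ e * ‖x‖) :
    ‖y / (‖y‖ : ℂ) - x / (‖x‖ : ℂ)‖ ≤ 2 * e := by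
  have x0 := norm_pos_iff.2 hx
  have y0 := norm_pos_iff.2 hy
  have x1 : (‖x‖ : ℂ) ≠ 0 := by exact_mod_cast x0.ne'
  have y1 : (‖y‖ : ℂ) ≠ 0 := by exact_mod_cast y0.ne'
  have e1 : y / (‖y‖ : ℂ) - x / (‖x‖ : ℂ) =
      (y - x) / (‖x‖ : ℂ) + y / (‖y‖ : ℂ) * (((‖x‖ - ‖y‖ : ℝ) : ℂ) / (‖x‖ : ℂ)) := by
    push_cast
    field_simp
    ring
  have a : ‖y - x‖ / ‖x‖ ≤ e := (div_le_iff₀ x0).2 h
  have b : |‖x‖ - ‖y‖| / ‖x‖ ≤ e :=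
    (div_le_iff₀ x0).2 ((abs_norm_sub_norm_le x y).trans (norm_sub_rev x y ▸ h))
  rw [e1]
  refine (norm_add_le _ _).trans ?_
  simp only [norm_mul, norm_div, Complex.norm_real, Real.norm_eq_abs, abs_norm,
    div_self y0.ne', one_mul]
  linarith

private lemma P_near {x y p : ℂ} {e θ R δ e1 : ℝ} (hx : x ≠ 0) (hy : y ≠ 0) (e0 : 0 ≤ e)
    (yx : ‖y - x‖ ≤ e * ‖x‖) (R0 : 0 < R) (yR : ‖y‖ ≤ 2 * R) (δ0 : 0 < δ) (δ1 : δ ≤ 1 / 5)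
    (eδ : 3 * e ≤ δ) (Rδ : 4 * R ≤ δ) (θ0 : 0 < θ) (θδ : 8 * θ ≤ δ) (he : e1 ∈ Icc (1 / 60 : ℝ) 1)
    (hh1 : |hh (1 + e) y p - e1| ≤ θ * (1 + 1 / R)) (hl : cross y p ^ 2 ≤ δ ^ 2 / 5 * ‖y‖) :
    ‖Pq y p - x / (‖x‖ : ℂ)‖ ≤ 5 * δ := by
  have a := Pq_sub (1 + e) hy p
  have b := dir_near hx hy yx
  have k := K_sq (1 + e) hy p
  have r0 := norm_pos_iff.2 hy
  have c : |hh (1 + e) y p| * ‖y‖ ≤ δ := by
    have h1 : |hh (1 + e) y p| ≤ 1 + θ * (1 + 1 / R) := by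
      obtain ⟨b1, b2⟩ := abs_le.1 hh1
      exact abs_le.2 ⟨by linarith [he.1], by linarith [he.2]⟩
    refine (mul_le_mul h1 yR r0.le (by positivity)).trans ?_
    have : (1 + θ * (1 + 1 / R)) * (2 * R) = 2 * R + 2 * θ * (R + 1) := by field_simp
    rw [this]
    nlinarith
  have k5 : dot y p ^ 2 ≤ 5 * ‖y‖ := by
    have := mul_le_mul_of_nonneg_right (le_abs_self (hh (1 + e) y p)) (sq_nonneg ‖y‖)
    nlinarith [sq_nonneg (cross y p), mul_le_mul_of_nonneg_right c r0.le]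
  have d : cross y p ^ 2 / ‖y‖ ≤ δ := (div_le_iff₀ r0).2 (hl.trans (by gcongr; nlinarith))
  have f : |cross y p| * |dot y p| / ‖y‖ ≤ δ := by
    rw [div_le_iff₀ r0]
    refine abs_le_abs_of_sq ?_ (by positivity)
    rw [mul_pow, sq_abs, sq_abs]
    refine (mul_le_mul hl k5 (sq_nonneg _) (by positivity)).trans_eq ?_
    ring
  rw [add_sub_cancel_left, abs_of_nonneg e0] at a
  have := norm_sub_le_norm_sub_add_norm_sub (Pq y p) (y / (‖y‖ : ℂ)) (x / (‖x‖ : ℂ))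
  linarith

theorem rad : ∃ c0 > 0, ∀ ϑ > 0, ∃ Λ ≥ (2 : ℝ), ∃ θ > 0, ∃ r > 0, Small fun κ =>
    ∀ (S : Sys κ) (e1 e2 s s2 t : ℝ), e1 ∈ Icc (1 / 60 : ℝ) 1 → e2 ∈ Icc (1 / 60 : ℝ) 1 →
    S.t0 ≤ s → s ≤ s2 → s2 ≤ t → S.Free s t → S.HB θ e1 e2 s t → S.R s ≤ r →
    S.R s2 = Λ * S.R s →
    (∀ τ ∈ Icc s2 t, c0 * S.R τ ≤ ‖S.x1 τ‖ ∧ c0 * S.R τ ≤ ‖S.x2 τ‖) ∧
    |cross (S.x1 s2) (S.v1 s2)| ≤ ϑ * √(S.R s2) ∧ |cross (S.x2 s2) (S.v2 s2)| ≤ ϑ * √(S.R s2) ∧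
    ‖S.P1 s2 - S.x1 s2 / (‖S.x1 s2‖ : ℂ)‖ ≤ ϑ ∧ ‖S.P2 s2 - S.x2 s2 / (‖S.x2 s2‖ : ℂ)‖ ≤ ϑ ∧
    (e1 = 1 / 2 → e2 = 1 / 2 → ∀ τ ∈ Icc s2 t,
      965 / 1000 * ‖S.x1 τ‖ ≤ ‖S.x2 τ‖ ∧ 965 / 1000 * ‖S.x2 τ‖ ≤ ‖S.x1 τ‖) := by
  obtain ⟨Λ2, hΛ2, c1, c10, H⟩ := rad1
  obtain ⟨c, c0, c1', cc⟩ : ∃ c, 0 < c ∧ c ≤ 1 ∧ c ≤ c1 :=
    ⟨min 1 c1, lt_min one_pos c10, min_le_left _ _, min_le_right _ _⟩
  refine ⟨c / 4, by positivity, fun ϑ ϑ0 => ?_⟩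
  obtain ⟨δ, δ0, δ1, δϑ⟩ : ∃ δ, 0 < δ ∧ δ ≤ 1 / 5 ∧ 5 * δ ≤ ϑ :=
    ⟨min (1 / 5) (ϑ / 5), lt_min (by norm_num) (by positivity), min_le_left _ _,
      by linarith [min_le_right (1 / 5) (ϑ / 5)]⟩
  obtain ⟨Λ, L1, L2, L3⟩ : ∃ Λ, Λ2 ≤ Λ ∧ 4 * Λ2 ≤ c ^ 51 * Λ ∧ 1000 ≤ δ ^ 2 * c * Λ :=
    ⟨max Λ2 (max (4 * Λ2 / c ^ 51) (1000 / (δ ^ 2 * c))), le_max_left _ _,
      (div_le_iff₀' (by positivity)).1 ((le_max_left _ _).trans (le_max_right _ _)),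
      (div_le_iff₀' (by positivity)).1 ((le_max_right _ _).trans (le_max_right _ _))⟩
  have Λ0 : 0 < Λ := by linarith
  obtain ⟨r, r0, Hs⟩ := H Λ L1
  obtain ⟨θ, θ0, θ1, θδ⟩ : ∃ θ, 0 < θ ∧ θ ≤ 1 / 100000 ∧ 8 * θ ≤ δ :=
    ⟨min (1 / 100000) (δ / 8), lt_min (by norm_num) (by positivity), min_le_left _ _,
      by linarith [min_le_right (1 / 100000) (δ / 8)]⟩
  refine ⟨Λ, hΛ2.trans L1, θ, θ0, min r (δ / (4 * Λ)), lt_min r0 (by positivity),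
    ((Hs.and (small_le (c := 1 / 10) (by norm_num))).and
      (small_le (c := δ * c / 8) (by positivity))).mono ?_⟩
  rintro κ ⟨⟨H, k0, k1⟩, -, k2⟩ S e1 e2 s s2 t he1 he2 h0 hs hst hF hH hr hR
  obtain ⟨l1, l2, s1, hs1, hR1, hb⟩ := H S e1 e2 s s2 t he1 he2 h0 hs hst hF
    (S.HB_mono hH (by linarith) le_rfl le_rfl) (hr.trans (min_le_left _ _)) hR
  have k4 : κ ^ 4 ≤ 1 / 10000 := (pow_le_pow_left₀ k0.le k1 4).trans_eq (by norm_num)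
  have k5 : κ ^ 4 ≤ κ := by nlinarith only [pow_le_pow_left₀ k0.le k1 3, k0]
  have e0 : 0 ≤ κ ^ 4 := by positivity
  have Rs := S.R_pos s
  have R2 := S.R_pos s2
  have Rδ : 4 * S.R s2 ≤ δ := by
    have := (le_div_iff₀ (by positivity)).1 (hr.trans (min_le_right _ _))
    rw [hR]
    linarith
  have n1 := fun τ => norm_near (S.yx1 τ)
  have n2 := fun τ => norm_near (S.yx2 τ)
  have cb : ∀ τ ∈ Icc s1 t, c * ‖S.y2 τ‖ ≤ ‖S.y1 τ‖ ∧ c * ‖S.y1 τ‖ ≤ ‖S.y2 τ‖ := fun τ hτ =>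
    ⟨(mul_le_mul_of_nonneg_right cc (norm_nonneg _)).trans (hb τ hτ).1,
      (mul_le_mul_of_nonneg_right cc (norm_nonneg _)).trans (hb τ hτ).2.1⟩
  have ylo : ∀ τ ∈ Icc s1 t, c / 2 * S.R τ ≤ ‖S.y1 τ‖ ∧ c / 2 * S.R τ ≤ ‖S.y2 τ‖ := fun τ hτ => by
    obtain ⟨a, b⟩ := cb τ hτ
    have q := mul_le_mul_of_nonneg_right c1' (S.R_pos τ).le
    rcases S.y_or k0 k1 τ with h | h
    · exact ⟨by linarith, by linarith [mul_le_mul_of_nonneg_left h c0.le]⟩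
    · exact ⟨by linarith [mul_le_mul_of_nonneg_left h c0.le], by linarith⟩
  have xlo : ∀ τ ∈ Icc s2 t, c / 4 * S.R τ ≤ ‖S.x1 τ‖ ∧ c / 4 * S.R τ ≤ ‖S.x2 τ‖ := fun τ hτ => by
    obtain ⟨a, b⟩ := ylo τ ⟨hs1.2.trans hτ.1, hτ.2⟩
    have x1 := norm_nonneg (S.x1 τ)
    have x2 := norm_nonneg (S.x2 τ)
    exact ⟨by nlinarith only [(n1 τ).2, a, x1, k4, S.R_pos τ, c0, e0],
      by nlinarith only [(n2 τ).2, b, x2, k4, S.R_pos τ, c0, e0]⟩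
  have m2 : s2 ∈ Icc s t := ⟨hs, hst⟩
  have q0 := Real.sqrt_pos.2 R2
  have RW : κ * (S.R s2 * S.W s2) ≤ δ * √(S.R s2) := by
    obtain ⟨a, b⟩ := xlo s2 ⟨le_rfl, hst⟩
    have w := S.W_sq s2
    have a1 : S.R s2 * (1 / ‖S.x1 s2‖) ≤ 4 / c := by
      rw [mul_one_div, div_le_div_iff₀ (lt_of_lt_of_le (by positivity) a) c0]
      linarith
    have a2 : S.R s2 * (1 / ‖S.x2 s2‖) ≤ 4 / c := by
      rw [mul_one_div, div_le_div_iff₀ (lt_of_lt_of_le (by positivity) b) c0]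
      linarith
    have a3 : S.R s2 * (κ ^ 4 / S.rho s2) ≤ 1 := by
      rw [← mul_div_assoc, div_le_one (S.rho_pos s2)]
      have := hF s2 m2
      nlinarith only [mul_le_mul_of_nonneg_left k5 R2.le, this]
    have a4 : 1 ≤ 4 / c := (one_le_div c0).2 (by linarith)
    have a5 : S.R s2 * S.W s2 ^ 2 ≤ (8 / c) ^ 2 := by
      have : (8 / c) ^ 2 = 4 * (4 / c) ^ 2 := by ring
      rw [w, this]
      nlinarith only [a1, a2, a3, a4, Rδ, δ1]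
    have a6 : S.R s2 * S.W s2 ≤ 8 / c * √(S.R s2) := by
      refine abs_le_abs_of_sq ?_ (by positivity)
      rw [mul_pow (8 / c), Real.sq_sqrt R2.le]
      nlinarith only [mul_le_mul_of_nonneg_right a5 R2.le]
    refine (mul_le_mul k2 a6 (mul_nonneg R2.le (Real.sqrt_nonneg _)) (by positivity)).trans_eq ?_
    field_simp
  have lR : 10 * √(S.R s) ≤ δ * √(S.R s2) := by
    refine abs_le_abs_of_sq ?_ (by positivity)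
    rw [mul_pow, mul_pow, Real.sq_sqrt Rs.le, Real.sq_sqrt R2.le, hR]
    have : δ ^ 2 * c * Λ ≤ δ ^ 2 * Λ := by
      gcongr
      exact mul_le_of_le_one_right (sq_nonneg _) c1'
    nlinarith only [this, L3, Rs]
  have ϑR : δ * √(S.R s2) + δ * √(S.R s2) ≤ ϑ * √(S.R s2) := by
    nlinarith only [q0, δ0, δϑ]
  have lsq : ∀ l y : ℝ, |l| ≤ 10 * √(S.R s) → c / 2 * S.R s2 ≤ y → l ^ 2 ≤ δ ^ 2 / 5 * y := by
    intro l y h1 h2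
    have := pow_le_pow_left₀ (abs_nonneg _) h1 2
    rw [sq_abs, mul_pow, Real.sq_sqrt Rs.le] at this
    rw [hR] at h2
    nlinarith only [mul_le_mul_of_nonneg_left h2 (sq_nonneg δ), this,
      mul_le_mul_of_nonneg_right L3 Rs.le]
  have eδ : 3 * κ ^ 4 ≤ δ := by nlinarith only [k5, k2, c1', δ0]
  have hH' : ∀ τ ∈ Icc s t, |hh (1 + κ ^ 4) (S.y1 τ) (S.p1 τ) - e1| ≤ θ * (1 + 1 / S.R τ) ∧
      |hh (1 + κ ^ 4) (S.y2 τ) (S.p2 τ) - e2| ≤ θ * (1 + 1 / S.R τ) := fun τ hτ => by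
    rw [← S.a_sq]
    exact hH τ hτ
  obtain ⟨y1lo, y2lo⟩ := ylo s2 ⟨hs1.2, hst⟩
  refine ⟨xlo, ?_, ?_, ?_, ?_, ?_⟩
  · have := cross_near k0 k1 (S.x1_le k0 k1 s2) (S.y1_le k0 k1 s2) (S.yx1 s2) (S.pu1 s2)
      (S.u1_le s2) (S.u2_le s2)
    exact this.trans (by linarith)
  · have := cross_near k0 k1 (S.x2_le k0 k1 s2) (S.y2_le k0 k1 s2) (S.yx2 s2) (S.pu2 s2)
      (S.u2_le s2) (S.u1_le s2)
    rw [add_comm (S.u2 s2) (S.u1 s2)] at this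
    exact this.trans (by linarith)
  · exact (P_near (S.ne1 s2) (S.ny1 s2) e0 (S.yx1 s2) R2 (S.y1_le k0 k1 s2) δ0 δ1 eδ Rδ θ0 θδ he1
      (hH' s2 m2).1 (lsq _ _ l1 y1lo)).trans δϑ
  · exact (P_near (S.ne2 s2) (S.ny2 s2) e0 (S.yx2 s2) R2 (S.y2_le k0 k1 s2) δ0 δ1 eδ Rδ θ0 θδ he2
      (hH' s2 m2).2 (lsq _ _ l2 y2lo)).trans δϑ
  · rintro rfl rfl τ hτ
    have K1 := fun τ (hτ : τ ∈ Icc s1 t) => K_two (S.ny1 τ) e0 k4 θ0 θ1 (S.R_pos τ)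
      (S.y1_le k0 k1 τ) (hH' τ ⟨hs1.1.trans hτ.1, hτ.2⟩).1 (hb τ hτ).2.2.2.2.1
    have K2 := fun τ (hτ : τ ∈ Icc s1 t) => K_two (S.ny2 τ) e0 k4 θ0 θ1 (S.R_pos τ)
      (S.y2_le k0 k1 τ) (hH' τ ⟨hs1.1.trans hτ.1, hτ.2⟩).2 (hb τ hτ).2.2.2.2.2
    have gr : ∀ a b : ℝ, a ≤ 2 * S.R s1 → c / 2 * S.R s2 ≤ b → a ≤ c ^ 50 * b := by
      intro a b h1 h2
      have := mul_le_mul_of_nonneg_left h2 (pow_pos c0 50).le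
      rw [hR] at this
      have e : c ^ 50 * (c / 2 * (Λ * S.R s)) = c ^ 51 * Λ * S.R s / 2 := by ring
      nlinarith only [mul_le_mul_of_nonneg_right L2 Rs.le, this, e, h1, hR1]
    have m1 : s1 ∈ Icc s1 t := ⟨le_rfl, hs1.2.trans hst⟩
    have a := ratio S.ny1 S.ny2 S.dy1 S.dy2 hs1.2 hst c0
      (fun τ hτ => ⟨(hb τ hτ).2.2.1, (hb τ hτ).2.2.2.1, (K1 τ hτ).1, (K2 τ hτ).2⟩) (cb s1 m1).1
      (gr _ _ (S.y2_le k0 k1 s1) y2lo) τ hτ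
    have b := ratio S.ny2 S.ny1 S.dy2 S.dy1 hs1.2 hst c0
      (fun τ hτ => ⟨(hb τ hτ).2.2.2.1, (hb τ hτ).2.2.1, (K2 τ hτ).1, (K1 τ hτ).2⟩) (cb s1 m1).2
      (gr _ _ (S.y1_le k0 k1 s1) y1lo) τ hτ
    have x1 := mul_le_mul_of_nonneg_right k4 (norm_nonneg (S.x1 τ))
    have x2 := mul_le_mul_of_nonneg_right k4 (norm_nonneg (S.x2 τ))
    have := norm_nonneg (S.x1 τ)
    have := norm_nonneg (S.x2 τ)
    constructor <;> linarith [(n1 τ).1, (n1 τ).2, (n2 τ).1, (n2 τ).2]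

end Pool.Agent.Lib.MP_e310f3_mp.Gap
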