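import Pool.Agent.Lib.MP_e310f3_mp.Gap.Vir

open Complex Filter Topology Set

noncomputable section

namespace Pool.Agent.Lib.MP_e310f3_mp.Gap

/-- pointwise bounds in real variables; `v` is the inverse of `q` and `u` the inverse of `ρ` -/
lemma zed_pt {q v Λ δ κ g ρ u h n F d : ℝ} (hq : 0 < q) (hv : q * v = 1) (hΛ : 1 ≤ Λ)
    (hδ : 0 < δ) (hδ1 : δ ≤ 1) (hκ : 0 < κ) (hg : 1 ≤ g) (hg2 : g ≤ 2) (hρ : 0 < ρ)
    (hu : ρ * u = 1) (hρ2 : ρ ≤ 2 * Λ * q ^ 2) (hh : |h| ≤ δ * v ^ 2) (hn : 0 ≤ n)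
    (hn2 : n ^ 2 = 2 * h + 2 * g * u) (hF : 0 ≤ F) (hF2 : F ≤ 3 * κ * v ^ 4) (hd : |d| ≤ ρ * F) :
    ρ * n ≤ 4 * Λ * q ∧
      |h| * n + ρ * n * F ≤ 2 * δ * v * (2 * h + g * u + d) + (6 * δ + 24 * Λ * κ) * v ^ 3 := by
  have v0 : 0 < v := (mul_pos_iff_of_pos_left hq).1 (hv ▸ one_pos)
  have u0 : 0 < u := (mul_pos_iff_of_pos_left hρ).1 (hu ▸ one_pos)
  have h1 := abs_le.1 hh
  have h2 : h ≤ v ^ 2 := h1.2.trans (mul_le_of_le_one_left (by positivity) hδ1)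
  have h3 : n ^ 2 ≤ 2 * v ^ 2 + 4 * u := by nlinarith
  have h4 : ρ * v ^ 2 ≤ 2 * Λ := by
    calc ρ * v ^ 2 ≤ 2 * Λ * q ^ 2 * v ^ 2 := by gcongr
      _ = 2 * Λ * (q * v) ^ 2 := by ring
      _ = 2 * Λ := by rw [hv]; ring
  have a1 : ρ * n ≤ 4 * Λ * q := by
    refine abs_le_of_sq_le_sq' ?_ (by positivity) |>.2
    calc (ρ * n) ^ 2 = ρ * (ρ * n ^ 2) := by ring
      _ ≤ ρ * (ρ * (2 * v ^ 2 + 4 * u)) := by gcongr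
      _ = ρ * (2 * (ρ * v ^ 2) + 4 * (ρ * u)) := by ring
      _ ≤ (2 * Λ * q ^ 2) * (2 * (2 * Λ) + 4 * Λ) := by rw [hu]; gcongr
      _ = (4 * Λ * q) ^ 2 := by ring
  have a2 : n ≤ 2 * v + 2 * q * u := by
    have b1 : 2 * n ≤ q * n ^ 2 + v := by
      have : q * (n - v) ^ 2 = q * n ^ 2 - 2 * (q * v) * n + (q * v) * v := by ring
      rw [hv] at this
      nlinarith [mul_nonneg hq.le (sq_nonneg (n - v))]
    have b2 : q * n ^ 2 ≤ 2 * v + 4 * q * u := by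
      calc q * n ^ 2 ≤ q * (2 * v ^ 2 + 4 * u) := by gcongr
        _ = 2 * (q * v) * v + 4 * q * u := by ring
        _ = _ := by rw [hv]; ring
    linarith
  have a3 : ρ * F ≤ 6 * Λ * κ * v ^ 2 := by
    calc ρ * F ≤ ρ * (3 * κ * v ^ 4) := by gcongr
      _ = ρ * v ^ 2 * (3 * κ * v ^ 2) := by ring
      _ ≤ 2 * Λ * (3 * κ * v ^ 2) := by gcongr
      _ = _ := by ring
  have a4 : u ≤ 2 * h + g * u + d + (2 * δ + 6 * Λ * κ) * v ^ 2 := by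
    nlinarith [(abs_le.1 hd).1]
  have a5 : ρ * n * F ≤ 12 * Λ * κ * v ^ 3 := by
    calc ρ * n * F ≤ 4 * Λ * q * (3 * κ * v ^ 4) := by gcongr
      _ = 12 * Λ * κ * v ^ 3 * (q * v) := by ring
      _ = _ := by rw [hv, mul_one]
  have a6 : |h| * n ≤ 2 * δ * v ^ 3 + 2 * δ * v * u := by
    calc |h| * n ≤ δ * v ^ 2 * (2 * v + 2 * q * u) := by gcongr
      _ = 2 * δ * v ^ 3 + 2 * δ * v * u * (q * v) := by ring
      _ = _ := by rw [hv, mul_one]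
  have a7 : 2 * δ * v * u ≤ 2 * δ * v * (2 * h + g * u + d + (2 * δ + 6 * Λ * κ) * v ^ 2) := by
    gcongr
  have a8 : δ * ((4 * δ + 12 * Λ * κ) * v ^ 3) ≤ (4 * δ + 12 * Λ * κ) * v ^ 3 :=
    mul_le_of_le_one_left (by positivity) hδ1
  exact ⟨a1, by nlinarith⟩

lemma zed_time {κ : ℝ} (S : Sys κ) {s t M : ℝ} (hst : s ≤ t) (hM : 0 ≤ M)
    (h : ∀ τ ∈ Icc s t, S.R τ ^ 3 ≤ M ^ 2) : t - s ≤ 2 * M := by
  have h1 : ∀ σ, S.t0 ≤ σ → σ ≤ t → t - σ ≤ M := fun σ a b =>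
    (abs_le_of_sq_le_sq' ((S.time1 a b).trans (h t ⟨hst, le_rfl⟩)) hM).2
  have h2 : ∀ σ, σ ≤ S.t0 → s ≤ σ → σ - s ≤ M := fun σ a b => by
    have := S.rev.time1 (s := -σ) (t := -s) (by simpa using a) (by simpa using b)
    rw [Sys.rev_toSol, Sol.rev_R, neg_neg] at this
    have := (abs_le_of_sq_le_sq' (this.trans (h s ⟨le_rfl, hst⟩)) hM).2
    linarith
  rcases le_total S.t0 s with a | a
  · linarith [h1 s a hst]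
  · rcases le_total S.t0 t with b | b
    · linarith [h1 _ le_rfl b, h2 _ le_rfl a]
    · linarith [h2 t b hst]

lemma zed_one {Λ δ κ : ℝ} (hΛ : 1 ≤ Λ) (hδ : 0 < δ) (hδ1 : δ ≤ 1) (hκ : 0 < κ) (hκ1 : κ ≤ 1 / 10)
    (S : Sys κ) {e s t m : ℝ} (he : e ∈ Icc (1 / 60 : ℝ) 1) (hst : s ≤ t) (hf : S.Free s t)
    (hb : ∀ τ ∈ Icc s t, |S.h1 τ - e| ≤ δ / 4 * S.a τ ^ 2)
    (hR : ∀ τ ∈ Icc s t, m ≤ S.R τ ∧ S.R τ ≤ Λ * m) (hm : m ≤ δ / 2) :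
    ‖S.P1 t - S.P1 s‖ ≤ 28 * Λ ^ 2 * δ + 48 * Λ ^ 3 * κ ∧ |‖S.P1 s‖ - 1| ≤ κ + 2 * Λ * δ := by
  have m0 : 0 < m := (mul_pos_iff_of_pos_left (one_pos.trans_le hΛ)).1
    ((S.R_pos s).trans_le (hR s ⟨le_rfl, hst⟩).2)
  obtain ⟨q, hq, rfl⟩ : ∃ q : ℝ, 0 < q ∧ m = q ^ 2 :=
    ⟨√m, Real.sqrt_pos.2 m0, (Real.sq_sqrt m0.le).symm⟩
  obtain ⟨v, hv⟩ : ∃ v, q * v = 1 := ⟨q⁻¹, mul_inv_cancel₀ hq.ne'⟩
  have v0 : 0 < v := (mul_pos_iff_of_pos_left hq).1 (hv ▸ one_pos)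
  have v2 : q ^ 2 * v ^ 2 = 1 := by rw [← mul_pow, hv, one_pow]
  have v1 : 1 ≤ v ^ 2 := by nlinarith
  have k4 : κ ^ 4 ≤ κ := pow_le_of_le_one hκ.le (by linarith) (by norm_num)
  have k0 : 0 < κ ^ 4 := by positivity
  have hRi : ∀ τ ∈ Icc s t, 1 / S.R τ ≤ v ^ 2 := fun τ hτ => by
    rw [div_le_iff₀ (S.R_pos τ)]
    nlinarith [(hR τ hτ).1]
  have hh1 : ∀ τ ∈ Icc s t, |S.h1 τ| ≤ δ * v ^ 2 := fun τ hτ => by
    have a1 := abs_le.1 (hb τ hτ)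
    have a2 := hRi τ hτ
    have a3 : 1 ≤ δ / 2 * v ^ 2 := by nlinarith
    rw [S.a_sq] at a1
    rw [abs_le]
    constructor <;> nlinarith [he.1, he.2]
  have hy : ∀ τ ∈ Icc s t, ‖S.y1 τ‖ ≤ 2 * Λ * q ^ 2 := fun τ hτ => by
    linarith [S.y1_le hκ hκ1 τ, (hR τ hτ).2]
  have hpt := fun τ (hτ : τ ∈ Icc s t) => zed_pt (g := 1 + κ ^ 4) (u := ‖S.y1 τ‖⁻¹)
    (n := ‖S.p1 τ‖) (F := ‖S.f1 τ‖) (d := dot (S.y1 τ) (S.f1 τ)) hq hv hΛ hδ hδ1 hκ (by linarith)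
    (by linarith) (norm_pos_iff.2 (S.ny1 τ)) (mul_inv_cancel₀ (norm_ne_zero_iff.2 (S.ny1 τ)))
    (hy τ hτ) (hh1 τ hτ) (norm_nonneg _) (normSq_p _ _ _) (norm_nonneg _) (by
      refine ((S.bf1 τ).trans (S.phi_le hκ hκ1 (hf τ hτ) _)).trans ?_
      have a1 : 2 / S.R τ ^ 2 ≤ 2 * v ^ 4 := by
        calc 2 / S.R τ ^ 2 = 2 * (1 / S.R τ) ^ 2 := by ring
          _ ≤ 2 * (v ^ 2) ^ 2 := by
            have := hRi τ hτ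
            have := S.R_pos τ
            gcongr
          _ = _ := by ring
      have a2 : 1 / (1 + ‖S.y2 τ‖) ^ 2 ≤ 1 :=
        div_le_one_of_le₀ (one_le_pow₀ (by linarith [norm_nonneg (S.y2 τ)])) (by positivity)
      have a3 : 1 ≤ v ^ 4 := by nlinarith
      nlinarith) (abs_dot_le _ _)
  have hT : t - s ≤ 2 * (Λ ^ 2 * q ^ 3) := zed_time S hst (by positivity) fun τ hτ => by
    calc S.R τ ^ 3 ≤ (Λ * q ^ 2) ^ 3 := by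
          have := S.R_pos τ
          gcongr
          exact (hR τ hτ).2
      _ = 1 * (Λ * q ^ 2) ^ 3 := by ring
      _ ≤ Λ * (Λ * q ^ 2) ^ 3 := by gcongr
      _ = _ := by ring
  have hK : ∀ τ ∈ Icc s t, |S.K1 τ| ≤ 4 * Λ * q := fun τ hτ =>
    (abs_dot_le _ _).trans (hpt τ hτ).1
  constructor
  · have a1 := norm_sub_le_of_deriv (f := S.P1)
      (g := fun τ => 2 * δ * v * S.K1 τ + (6 * δ + 24 * Λ * κ) * v ^ 3 * τ) hst fun τ hτ =>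
      ⟨_, _, d_Pq (S.ny1 τ) (S.dy1 τ) (S.dp1 τ),
        ((d_K (S.ny1 τ) (S.dy1 τ) (S.dp1 τ)).const_mul _).add (hasDerivAt_const_mul _), by
        refine (norm_add_le _ _).trans ?_
        rw [norm_mul, norm_mul, norm_mul, Complex.norm_real, Real.norm_eq_abs, RCLike.norm_conj]
        exact (hpt τ hτ).2⟩
    have a2 := abs_le.1 (hK s ⟨le_rfl, hst⟩)
    have a3 := abs_le.1 (hK t ⟨hst, le_rfl⟩)
    have a4 : 2 * δ * v * (S.K1 t - S.K1 s) ≤ 16 * Λ ^ 2 * δ := by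
      calc _ ≤ 2 * δ * v * (8 * Λ * q) := by gcongr; linarith
        _ = 16 * (Λ * 1) * δ * (q * v) := by ring
        _ ≤ 16 * (Λ * Λ) * δ * (q * v) := by gcongr
        _ = _ := by rw [hv]; ring
    have a5 : (6 * δ + 24 * Λ * κ) * v ^ 3 * (t - s) ≤ 12 * Λ ^ 2 * δ + 48 * Λ ^ 3 * κ := by
      calc _ ≤ (6 * δ + 24 * Λ * κ) * v ^ 3 * (2 * (Λ ^ 2 * q ^ 3)) := by gcongr
        _ = (12 * Λ ^ 2 * δ + 48 * Λ ^ 3 * κ) * (q * v) ^ 3 := by ring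
        _ = _ := by rw [hv]; ring
    linarith
  · have a1 : ‖S.P1 s‖ - 1 = κ ^ 4 + S.h1 s * ‖S.y1 s‖ := by
      rw [Sys.P1, norm_Pq (1 + κ ^ 4) (S.ny1 s), Sys.h1]
      ring
    have a2 : |S.h1 s * ‖S.y1 s‖| ≤ 2 * Λ * δ := by
      rw [abs_mul, abs_norm]
      calc _ ≤ δ * v ^ 2 * (2 * Λ * q ^ 2) := by
            gcongr
            exacts [hh1 s ⟨le_rfl, hst⟩, hy s ⟨le_rfl, hst⟩]
        _ = 2 * Λ * δ * (q ^ 2 * v ^ 2) := by ring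
        _ = _ := by rw [v2, mul_one]
    rw [a1]
    exact (abs_add_le _ _).trans (by rw [abs_of_pos k0]; linarith)

/-- in a deep window the squared Levi-Civita momenta are nearly constant unit vectors -/
theorem zl {Λ ϑ : ℝ} (hΛ : 1 ≤ Λ) (hϑ : 0 < ϑ) : ∃ θ > 0, ∃ r > 0, Small fun κ =>
    ∀ (S : Sys κ) (e1 e2 s t m : ℝ), e1 ∈ Icc (1 / 60 : ℝ) 1 → e2 ∈ Icc (1 / 60 : ℝ) 1 →
    s ≤ t → S.Free s t → S.HB θ e1 e2 s t → (∀ τ ∈ Icc s t, m ≤ S.R τ ∧ S.R τ ≤ Λ * m) → m ≤ r →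
    ‖S.P1 t - S.P1 s‖ ≤ ϑ ∧ ‖S.P2 t - S.P2 s‖ ≤ ϑ ∧ |‖S.P1 s‖ - 1| ≤ ϑ ∧ |‖S.P2 s‖ - 1| ≤ ϑ := by
  obtain ⟨δ, hδ, hδ1, hδ2⟩ : ∃ δ : ℝ, 0 < δ ∧ δ ≤ 1 ∧ 56 * Λ ^ 2 * δ ≤ ϑ :=
    ⟨min 1 (ϑ / (56 * Λ ^ 2)), by positivity, min_le_left _ _, by
      rw [← le_div_iff₀' (by positivity)]
      exact min_le_right _ _⟩
  refine ⟨δ / 4, by positivity, δ / 2, by positivity, ((small_le (c := 1 / 10) (by norm_num)).and
    (small_le (c := ϑ / (96 * Λ ^ 3)) (by positivity))).mono ?_⟩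
  rintro κ ⟨⟨hκ, hκ1⟩, -, hκ2⟩ S e1 e2 s t m he1 he2 hst hf hb hR hm
  rw [le_div_iff₀' (by positivity)] at hκ2
  have h1 := zed_one hΛ hδ hδ1 hκ hκ1 S he1 hst hf (fun τ hτ => (hb τ hτ).1) hR hm
  have h2 := zed_one hΛ hδ hδ1 hκ hκ1 S.swap he2 hst (S.toSol.swap_free hf)
    (fun τ hτ => (S.swap_HB hb τ hτ).1) (by simpa using hR) hm
  rw [Sys.swap_P1] at h2
  have a1 : κ ≤ Λ ^ 3 * κ := le_mul_of_one_le_left hκ.le (one_le_pow₀ hΛ)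
  have a2 : Λ * δ ≤ Λ ^ 2 * δ := by
    rw [sq, mul_assoc]
    exact le_mul_of_one_le_left (by positivity) hΛ
  have a3 : 0 < Λ * δ := by positivity
  exact ⟨by linarith [h1.1], by linarith [h2.1], by linarith [h1.2], by linarith [h2.2]⟩

end Pool.Agent.Lib.MP_e310f3_mp.Gap
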