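import Pool.Agent.Lib.MP_e310f3_mp.Gap.Bar
import Pool.Agent.Lib.MP_e310f3_mp.Gap.Rad
import Pool.Agent.Lib.MP_e310f3_mp.Gap.Zed
import Pool.Agent.Lib.MP_e310f3_mp.Gap.Hbd
import Pool.Agent.Lib.MP_e310f3_mp.Gap.Asy
import Pool.Agent.Lib.MP_e310f3_mp.Gap.All

open Complex Filter Topology Set

noncomputable section

namespace Pool.Agent.Lib.MP_e310f3_mp.Gap

private lemma exi_dot_split (a b c d : ℂ) : dot a b = dot c d + dot (a - c) b + dot c (b - d) := by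
  simp only [dot, Complex.sub_re, Complex.sub_im]; ring

private lemma exi_c12 {κ : ℝ} (S : Sol κ) (t : ℝ) :
    S.c12 t = dot (S.x1 t / (‖S.x1 t‖ : ℂ)) (S.x2 t / (‖S.x2 t‖ : ℂ)) := by
  have h1 : ‖S.x1 t‖ ≠ 0 := norm_ne_zero_iff.mpr (S.ne1 t)
  have h2 : ‖S.x2 t‖ ≠ 0 := norm_ne_zero_iff.mpr (S.ne2 t)
  simp only [Sol.c12, dot, Complex.div_ofReal_re, Complex.div_ofReal_im]
  field_simp

private lemma exi_unit {x : ℂ} (hx : x ≠ 0) : ‖x / (‖x‖ : ℂ)‖ = 1 := by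
  have h1 : ‖x‖ ≠ 0 := norm_ne_zero_iff.mpr hx
  rw [norm_div, Complex.norm_real, Real.norm_eq_abs, abs_of_nonneg (norm_nonneg x), div_self h1]

/-- the opening angle after the deep window -/
private lemma exi_angle {a b P Q P' Q' : ℂ} {ϑ : ℝ} (hϑ : ϑ ≤ 1 / 1000) (hb : ‖b‖ = 1)
    (h1 : ‖P' - a‖ ≤ ϑ) (h2 : ‖Q' - b‖ ≤ ϑ) (h3 : ‖P' - P‖ ≤ ϑ) (h4 : ‖Q' - Q‖ ≤ ϑ)
    (h5 : |‖P‖ - 1| ≤ ϑ) (h6 : |‖Q‖ - 1| ≤ ϑ) (h7 : dot P Q + ‖P‖ * ‖Q‖ ≤ 146 / 100) :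
    dot a b ≤ 47 / 100 := by
  have e1 : ‖a - P‖ ≤ 2 / 1000 := by
    have : a - P = (P' - P) - (P' - a) := by ring
    rw [this]
    have := norm_sub_le (P' - P) (P' - a)
    linarith
  have e2 : ‖b - Q‖ ≤ 2 / 1000 := by
    have : b - Q = (Q' - Q) - (Q' - b) := by ring
    rw [this]
    have := norm_sub_le (Q' - Q) (Q' - b)
    linarith
  have f1 := (abs_le.mp h5).1
  have f2 := (abs_le.mp h5).2
  have f3 := (abs_le.mp h6).1
  have g1 : dot (a - P) b ≤ 2 / 1000 := by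
    have := (le_abs_self _).trans (abs_dot_le (a - P) b)
    rw [hb] at this; linarith
  have g2 : dot P (b - Q) ≤ 3 / 1000 := by
    have h := (le_abs_self _).trans (abs_dot_le P (b - Q))
    have : ‖P‖ * ‖b - Q‖ ≤ (1001 / 1000) * (2 / 1000) :=
      mul_le_mul (by linarith) e2 (norm_nonneg _) (by norm_num)
    linarith
  have g3 : (999 / 1000 : ℝ) * (999 / 1000) ≤ ‖P‖ * ‖Q‖ :=
    mul_le_mul (by linarith) (by linarith) (by norm_num) (norm_nonneg _)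
  rw [exi_dot_split a b P Q]
  linarith

private lemma exi_half : (1 / 2 : ℝ) ∈ Icc (1 / 60 : ℝ) 1 := ⟨by norm_num, by norm_num⟩

/-- with energies near one half at the far end the opening angle stays wide -/
private theorem exi_core {Λ0 : ℝ} (hΛ0 : 1 ≤ Λ0) : ∃ Lr ≥ (2 : ℝ), ∃ θ0 > 0, ∃ r > 0,
    Small fun κ => ∀ (S : Sys κ) (s t : ℝ), S.R s ≤ r → (s < S.t0 → S.R s ≤ Λ0 * S.R S.t0) →
    Dq (S.y1 s) (S.p1 s) (S.y2 s) (S.p2 s) ≤ 146 / 100 → s ≤ t → S.t0 ≤ t → S.Free s t →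
    |S.h1 t - 1 / 2| ≤ θ0 * S.a t ^ 2 → |S.h2 t - 1 / 2| ≤ θ0 * S.a t ^ 2 →
    Lr * S.R s ≤ S.R t → S.c12 t ≤ 48 / 100 := by
  obtain ⟨ϑb, hϑb, Hbar⟩ := bar
  obtain ⟨c0, -, Hrad0⟩ := rad
  have hϑ : 0 < min (1 / 1000 : ℝ) ϑb := lt_min (by norm_num) hϑb
  obtain ⟨Lr, hLr, θr, hθr, rr, hrr, Hrad⟩ := Hrad0 _ hϑ
  have hΛ : 1 ≤ Λ0 * Lr := by nlinarith
  obtain ⟨θz, hθz, rz, hrz, Hzl⟩ := zl hΛ hϑ
  have hθ : 0 < min (min θr θz) (1 / 200 : ℝ) := lt_min (lt_min hθr hθz) (by norm_num)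
  obtain ⟨θ0, hθ0, Hhb⟩ := hb hθ (min_le_right _ _) hΛ0
  refine ⟨Lr, hLr, θ0, hθ0, min rr rz, lt_min hrr hrz, ?_⟩
  refine (((Hbar.and Hrad).and Hzl).and Hhb).mono ?_
  rintro κ ⟨⟨⟨Hbar, Hrad⟩, Hzl⟩, Hhb⟩ S s t hr h0 hD hst ht0 hF a1 a2 hL
  have hRs := S.R_pos s
  have hR0 := S.R_pos S.t0
  have hm := S.R_pos (max s S.t0)
  have hms : S.R (max s S.t0) ≤ S.R s := by
    rcases le_total s S.t0 with h | h
    · rw [max_eq_right h]; exact S.R_min s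
    · rw [max_eq_left h]
  have hmt : max s S.t0 ≤ t := max_le hst ht0
  obtain ⟨s2, ⟨hs2a, hs2b⟩, hs2⟩ := S.exists_R_eq (M := Lr * S.R (max s S.t0)) hmt
    (by nlinarith) (by nlinarith)
  have hss2 : s ≤ s2 := (le_max_left _ _).trans hs2a
  have ht02 : S.t0 ≤ s2 := (le_max_right _ _).trans hs2a
  have hHB : S.HB (min (min θr θz) (1 / 200)) (1 / 2) (1 / 2) s t := by
    refine (Hhb S (1 / 2) (1 / 2) s t exi_half exi_half hst ht0 hF ?_ a1 a2).1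
    intro hs
    have h := h0 hs
    rw [S.a_sq, S.a_sq]
    have : 1 / S.R S.t0 ≤ Λ0 * (1 / S.R s) := by
      rw [mul_one_div, div_le_div_iff₀ hR0 hRs]; linarith
    linarith
  have hF1 : S.Free (max s S.t0) t := fun τ hτ => hF τ ⟨(le_max_left _ _).trans hτ.1, hτ.2⟩
  have hF2 : S.Free s s2 := fun τ hτ => hF τ ⟨hτ.1, hτ.2.trans hs2b⟩
  have hF3 : S.Free s2 t := fun τ hτ => hF τ ⟨hss2.trans hτ.1, hτ.2⟩
  obtain ⟨-, l1, l2, q1, q2, hrat⟩ := Hrad S (1 / 2) (1 / 2) (max s S.t0) s2 t exi_half exi_half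
    (le_max_right _ _) hs2a hs2b hF1
    (S.HB_mono hHB ((min_le_left _ _).trans (min_le_left _ _)) (le_max_left _ _) le_rfl)
    (hms.trans (hr.trans (min_le_left _ _))) hs2
  have hwin : ∀ τ ∈ Icc s s2, S.R (max s S.t0) ≤ S.R τ ∧
      S.R τ ≤ Λ0 * Lr * S.R (max s S.t0) := by
    intro τ hτ
    have hmax := S.R_le_max hτ
    have k2 : S.R s2 ≤ Λ0 * Lr * S.R (max s S.t0) := by
      rw [hs2]
      have : 0 ≤ Lr * S.R (max s S.t0) := by positivity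
      nlinarith
    rcases lt_or_ge s S.t0 with h | h
    · have e : max s S.t0 = S.t0 := max_eq_right h.le
      rw [e] at k2 ⊢
      refine ⟨S.R_min τ, hmax.trans (max_le ?_ k2)⟩
      have h3 := h0 h
      have : 0 ≤ Λ0 * S.R S.t0 := by positivity
      nlinarith
    · have e : max s S.t0 = s := max_eq_left h
      rw [e] at k2 ⊢
      refine ⟨S.R_mono h hτ.1, hmax.trans (max_le ?_ k2)⟩
      nlinarith
  obtain ⟨z1, z2, z3, z4⟩ := Hzl S (1 / 2) (1 / 2) s s2 (S.R (max s S.t0)) exi_half exi_half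
    hss2 hF2
    (S.HB_mono hHB ((min_le_left _ _).trans (min_le_right _ _)) le_rfl hs2b) hwin
    (hms.trans (hr.trans (min_le_right _ _)))
  have hc : S.c12 s2 ≤ 47 / 100 := by
    rw [exi_c12]
    exact exi_angle (min_le_left _ _) (exi_unit (S.ne2 s2)) q1 q2 z1 z2 z3 z4 hD
  have hsq : 0 ≤ √(S.R s2) := Real.sqrt_nonneg _
  have hb2 : min (1 / 1000 : ℝ) ϑb * √(S.R s2) ≤ ϑb * √(S.R s2) :=
    mul_le_mul_of_nonneg_right (min_le_right _ _) hsq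
  refine Hbar S s2 t ht02 hs2b ?_ hF3 (hrat rfl rfl) (l1.trans hb2) (l2.trans hb2) hc t
    ⟨hs2b, le_rfl⟩
  rw [hs2]
  have := S.R_min (max s S.t0)
  nlinarith

/-- two slow neighbours have nearly the same Kepler energy -/
private lemma exi_hdiff {g R a η : ℝ} {y1 y2 p1 p2 : ℂ} (hg0 : 0 ≤ g) (hg : g ≤ 2) (hR : 0 < R)
    (ha : 1 / R ≤ a ^ 2) (ha0 : 0 ≤ a) (hη : 0 ≤ η) (h1 : R / 2 ≤ ‖y1‖) (h2 : R / 2 ≤ ‖y2‖)
    (hy : ‖y1 - y2‖ ≤ η * R) (hp1 : ‖p1‖ ≤ 5 * a) (hp2 : ‖p2‖ ≤ 5 * a) (hp : ‖p1 - p2‖ ≤ η * a) :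
    |hh g y1 p1 - hh g y2 p2| ≤ 13 * η * a ^ 2 := by
  have n1 : 0 < ‖y1‖ := by linarith
  have n2 : 0 < ‖y2‖ := by linarith
  have e : hh g y1 p1 - hh g y2 p2 = (‖p1‖ - ‖p2‖) * (‖p1‖ + ‖p2‖) / 2
      + g * ((‖y1‖ - ‖y2‖) / (‖y1‖ * ‖y2‖)) := by
    simp only [hh]; field_simp; ring
  have b1 : |‖p1‖ - ‖p2‖| ≤ η * a := (abs_norm_sub_norm_le p1 p2).trans hp
  have b2 : |‖y1‖ - ‖y2‖| ≤ η * R := (abs_norm_sub_norm_le y1 y2).trans hy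
  have c1 : |(‖p1‖ - ‖p2‖) * (‖p1‖ + ‖p2‖) / 2| ≤ 5 * η * a ^ 2 := by
    rw [abs_div, abs_mul, abs_of_nonneg (by positivity : 0 ≤ ‖p1‖ + ‖p2‖), abs_two]
    have : |‖p1‖ - ‖p2‖| * (‖p1‖ + ‖p2‖) ≤ η * a * (10 * a) :=
      mul_le_mul b1 (by linarith) (by positivity) (by positivity)
    nlinarith
  have c2 : |g * ((‖y1‖ - ‖y2‖) / (‖y1‖ * ‖y2‖))| ≤ 8 * η * a ^ 2 := by
    rw [abs_mul, abs_of_nonneg hg0, abs_div, abs_of_pos (mul_pos n1 n2)]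
    have d1 : R / 2 * (R / 2) ≤ ‖y1‖ * ‖y2‖ := mul_le_mul h1 h2 (by positivity) n1.le
    have d2 : |‖y1‖ - ‖y2‖| / (‖y1‖ * ‖y2‖) ≤ η * R / (R / 2 * (R / 2)) :=
      div_le_div₀ (by positivity) b2 (by positivity) d1
    have d3 : η * R / (R / 2 * (R / 2)) = 4 * η * (1 / R) := by field_simp; ring
    have d4 : 4 * η * (1 / R) ≤ 4 * η * a ^ 2 := mul_le_mul_of_nonneg_left ha (by positivity)
    have d5 : g * (|‖y1‖ - ‖y2‖| / (‖y1‖ * ‖y2‖)) ≤ 2 * (4 * η * a ^ 2) :=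
      mul_le_mul hg (by linarith) (by positivity) (by norm_num)
    linarith
  rw [e]
  have := abs_add_le ((‖p1‖ - ‖p2‖) * (‖p1‖ + ‖p2‖) / 2) (g * ((‖y1‖ - ‖y2‖) / (‖y1‖ * ‖y2‖)))
  linarith

/-- a wide angle keeps the light bodies apart -/
private lemma exi_rho {κ : ℝ} (S : Sol κ) {t : ℝ} (h : S.c12 t ≤ 48 / 100) :
    S.R t / 2 ≤ S.rho t := by
  have n1 : 0 < ‖S.x1 t‖ := norm_pos_iff.mpr (S.ne1 t)
  have n2 : 0 < ‖S.x2 t‖ := norm_pos_iff.mpr (S.ne2 t)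
  have h1 : dot (S.x1 t) (S.x2 t) ≤ 48 / 100 * (‖S.x1 t‖ * ‖S.x2 t‖) := by
    rw [Sol.c12, div_le_iff₀ (mul_pos n1 n2)] at h; exact h
  have h2 := norm_sub_sq' (S.x1 t) (S.x2 t)
  have h3 := S.R_sq_le t
  have hR := S.R_pos t
  have h4 : (S.R t / 2) ^ 2 ≤ S.rho t ^ 2 := by
    rw [Sol.rho, h2]
    nlinarith [sq_nonneg (‖S.x1 t‖ - ‖S.x2 t‖), sq_nonneg ‖S.x1 t‖, sq_nonneg ‖S.x2 t‖]
  exact (pow_le_pow_iff_left₀ (by positivity) (S.rho_pos t).le two_ne_zero).mp h4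

/-- leaving a deep passage with a wide opening: no later encounter and not the target -/
theorem exi {Λ0 : ℝ} (hΛ0 : 1 ≤ Λ0) : ∃ Λ ≥ (2 : ℝ), ∃ r > 0, ∃ δ0 > 0, Small fun κ =>
    ∀ (S : Sys κ) (s : ℝ), S.R s ≤ r → (s < S.t0 → S.R s ≤ Λ0 * S.R S.t0) →
    Dq (S.y1 s) (S.p1 s) (S.y2 s) (S.p2 s) ≤ 146 / 100 →
    (∀ t, s ≤ t → S.t0 ≤ t → S.Free s t → S.rho t = κ * S.R t → Λ * S.R s ≤ S.R t → False) ∧
    (∀ (b : ℂ) (δ : ℝ), ‖b‖ = 1 → ‖b + 1‖ ≤ δ0 → 0 < δ → δ ≤ δ0 → 4 * δ ≤ b.im → S.Out b δ →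
      S.FreeFrom s → False) := by
  obtain ⟨Lr, hLr, θ0, hθ0, r, hr, Hc⟩ := exi_core hΛ0
  obtain ⟨c, hc, e, he, Ha⟩ := all_a (η := θ0 / 40) (by positivity)
  obtain ⟨δ1, hδ1, Ho⟩ := out_oc hθ0
  refine ⟨max (2 / c) Lr, le_max_of_le_right hLr, r, hr, min δ1 (1 / 20),
    lt_min hδ1 (by norm_num), ?_⟩
  refine ((((((Hc.and Ha).and Ho).and out_c12).and (small_le (c := 1 / 10) (by norm_num))).and
    (small_le he)).and (small_le (c := θ0 / 80) (by positivity))).mono ?_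
  rintro κ ⟨⟨⟨⟨⟨⟨Hc, Ha⟩, Ho⟩, Hc12⟩, hκ, hκ1⟩, -, hκe⟩, -, hκθ⟩ S s hs h0 hD
  have hRs := S.R_pos s
  constructor
  · intro t hst ht0 hF hρ hΛ
    have hRt := S.R_pos t
    have hL1 : 2 / c * S.R s ≤ S.R t :=
      (mul_le_mul_of_nonneg_right (le_max_left _ _) hRs.le).trans hΛ
    have hL2 : Lr * S.R s ≤ S.R t :=
      (mul_le_mul_of_nonneg_right (le_max_right _ _) hRs.le).trans hΛ
    have hslow : ‖S.u1 t - S.u2 t‖ ≤ θ0 / 40 * S.a t := by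
      by_contra hcon
      have hcon := (not_le.mp hcon).le
      have h := Ha S.rev (-t) (-s) (by linarith) (S.toSol.rev_free hF)
        (by simp only [Sys.rev_toSol, Sol.rev_rho, Sol.rev_R, neg_neg]
            rw [hρ]; exact mul_le_mul_of_nonneg_right hκe hRt.le)
        (by simp only [Sys.rev_toSol, Sol.rev_a, Sol.rev_u1, Sol.rev_u2, neg_neg]
            have e1 : -S.u1 t - -S.u2 t = -(S.u1 t - S.u2 t) := by ring
            rw [e1, norm_neg]; exact hcon)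
        (-s) ⟨by linarith, le_rfl⟩
      simp only [Sys.rev_toSol, Sol.rev_R, neg_neg] at h
      have h2 : 2 * S.R s ≤ c * S.R t := by
        have := mul_le_mul_of_nonneg_left hL1 hc.le
        have e2 : c * (2 / c * S.R s) = 2 * S.R s := by field_simp
        linarith
      linarith
    have cv := S.cv hκ hκ1 (t := t) hρ.ge (by rw [hρ]; nlinarith)
    have ha1 := S.one_le_a t
    have ha2 : 1 / S.R t ≤ S.a t ^ 2 := by rw [S.a_sq]; linarith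
    have hk4 : κ ^ 4 ≤ 1 := pow_le_one₀ hκ.le (by linarith)
    have hd : |S.h1 t - S.h2 t| ≤ 13 * (θ0 / 20) * S.a t ^ 2 := by
      refine exi_hdiff (R := S.R t) (by positivity) (by linarith) hRt ha2 (by linarith)
        (by positivity) cv.y1lo cv.y2lo ?_ cv.p1 cv.p2 ?_
      · have := cv.y12
        rw [hρ] at this
        nlinarith
      · have e1 : S.p1 t - S.p2 t = (S.p1 t - S.u1 t) + (S.u1 t - S.u2 t) - (S.p2 t - S.u2 t) := by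
          ring
        rw [e1]
        have k1 := norm_sub_le ((S.p1 t - S.u1 t) + (S.u1 t - S.u2 t)) (S.p2 t - S.u2 t)
        have k2 := norm_add_le (S.p1 t - S.u1 t) (S.u1 t - S.u2 t)
        have k3 := cv.pu1
        have k4 := cv.pu2
        have k5 : κ * S.a t ≤ θ0 / 80 * S.a t := mul_le_mul_of_nonneg_right hκθ (by linarith)
        linarith
    have hsum := cv.hsum
    have k6 : κ * S.a t ^ 2 ≤ θ0 / 80 * S.a t ^ 2 := mul_le_mul_of_nonneg_right hκθ (by positivity)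
    have k7 : 0 ≤ θ0 * S.a t ^ 2 := by positivity
    obtain ⟨d1, d2⟩ := abs_le.mp hd
    obtain ⟨d3, d4⟩ := abs_le.mp hsum
    have hc12 := Hc S s t hs h0 hD hst ht0 hF (abs_le.mpr ⟨by linarith, by linarith⟩)
      (abs_le.mpr ⟨by linarith, by linarith⟩) hL2
    have := exi_rho S.toSol hc12
    rw [hρ] at this
    nlinarith
  · intro b δ hb1 hb2 hδ hδ0 hbi hO hF
    obtain ⟨ν1, ν2, -, -, -, -, hoc⟩ := Ho S b δ hb1 hδ (hδ0.trans (min_le_left _ _)) hbi hO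
    have h12 := Hc12 S.toSol b δ hb1 (hb2.trans (min_le_right _ _)) hδ
      (hδ0.trans (min_le_right _ _)) hO
    have hR := S.R_tendsto.eventually_ge_atTop (Lr * S.R s)
    obtain ⟨T, ⟨⟨⟨⟨o1, o2⟩, c1⟩, c2⟩, c3⟩, c4⟩ :=
      ((((hoc.and h12).and hR).and (eventually_ge_atTop s)).and (eventually_ge_atTop S.t0)).exists
    have ha1 := S.one_le_a T
    have k : θ0 ≤ θ0 * S.a T ^ 2 := by
      have : 1 ≤ S.a T ^ 2 := one_le_pow₀ ha1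
      nlinarith
    have := Hc S s T hs h0 hD c3 c4 (fun τ hτ => hF τ hτ.1) (o1.1.trans k) (o2.1.trans k) c2
    linarith

end Pool.Agent.Lib.MP_e310f3_mp.Gap
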