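import Pool.Agent.Lib.MP_e310f3_mp.Gap.Inb
import Pool.Agent.Lib.MP_e310f3_mp.Gap.Exi
import Pool.Agent.Lib.MP_e310f3_mp.Gap.DeepX

open Complex Filter Topology Set

noncomputable section

namespace Pool.Agent.Lib.MP_e310f3_mp.Gap

theorem deep : ∃ r > 0, ∃ δ0 > 0, Small fun κ => ∀ (S : Sys κ) (b : ℂ) (δ : ℝ),
    ‖b‖ = 1 → ‖b + 1‖ ≤ δ0 → 0 < δ → δ ≤ δ0 → 4 * δ ≤ b.im → S.In → S.Out b δ → S.DeepC r →
    False := by
  obtain ⟨τ1, hτ1, hstep⟩ := step (η := 1 / 2) (by norm_num)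
  obtain ⟨ca, hca, ea, hea, ha⟩ := all_a (η := 1 / 2 / 2) (by norm_num)
  obtain ⟨cb, hcb, hcb1, eb, heb, hnext⟩ := next_enc (η := 1 / 2 / 2) (by norm_num) hτ1
  obtain ⟨Λ, hΛ, re, hre, δ0, hδ0, hexi⟩ := exi (Λ0 := max 1 (1 / ca)) (le_max_left _ _)
  have hΛ1 : (1 : ℝ) ≤ Λ := by linarith
  obtain ⟨ed, hed, hd⟩ := all_d (η := 1 / 2 / 2) (by norm_num) hτ1 hΛ1
  obtain ⟨ec, hec, hc⟩ := all_c (η := 1 / 2 / 2) (ϑ := cb / 2) (by norm_num) hτ1 hΛ1 (by positivity)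
  obtain ⟨eq, heq, hq⟩ := Dq_of_X
  obtain ⟨ϑ, hϑ, hϑ1, hP⟩ := X_of_P (x := min (ed / 8) 1) (by positivity)
  obtain ⟨ri, hri, hinb⟩ := inb hϑ hΛ1
  obtain ⟨e, he, e1, e2, e3, e4, e5, e6⟩ : ∃ e > 0, e ≤ ea ∧ e ≤ eb ∧ e ≤ ed / 16 ∧ e ≤ ec ∧ e ≤ eq ∧
      e ≤ 3 / 10000 := by
    refine ⟨min (min (min ea eb) (min (ed / 16) ec)) (min eq (3 / 10000)), by positivity, ?_⟩
    simp only [min_le_iff, le_refl, true_or, or_true, and_self]
  obtain ⟨r, hr, r1, r2, r3, r4⟩ : ∃ r > 0, r ≤ ri ∧ 4 * Λ ^ 2 * r ≤ re ∧ 4 * Λ ^ 2 * r ≤ ed ∧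
      4 * Λ ^ 2 * r ≤ 1 := by
    have hp : 0 < 4 * Λ ^ 2 := by positivity
    refine ⟨min ri (min (min re ed) 1 / (4 * Λ ^ 2)), by positivity, min_le_left _ _, ?_⟩
    have h1 : 4 * Λ ^ 2 * min ri (min (min re ed) 1 / (4 * Λ ^ 2)) ≤ min (min re ed) 1 := by
      rw [← le_div_iff₀' hp]; exact min_le_right _ _
    exact ⟨h1.trans ((min_le_left _ _).trans (min_le_left _ _)),
      h1.trans ((min_le_left _ _).trans (min_le_right _ _)), h1.trans (min_le_right _ _)⟩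
  refine ⟨r, hr, δ0, hδ0, ?_⟩
  refine ((((((hstep e he).and ha).and (hnext.and hexi)).and (hd.and hc)).and (hq.and hP)).and
    ((hinb.and in_free).and ((small_le (c := 1 / 100) (by norm_num)).and (small_le he)))).mono ?_
  rintro κ ⟨⟨⟨⟨⟨hstep, ha⟩, hnext, hexi⟩, hd, hc⟩, hq, hP⟩, ⟨hinb, hfree⟩, ⟨hκ, hκ1⟩, -, hκe⟩
    S b δ hb hb1 hδ hδ1 hδ2 hin hout ⟨tin, htin, hfin, hRin⟩
  have hΛr : r ≤ Λ * r := le_mul_of_one_le_left hr.le hΛ1
  have hΛ2 : Λ * r ≤ Λ ^ 2 * r := by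
    have := mul_le_mul_of_nonneg_left hΛr (by linarith : (0 : ℝ) ≤ Λ)
    linarith
  -- leaving an encounter with small Dq
  have nxt : ∀ s, S.Aft (1 / 2 / 2) e τ1 s → S.R s ≤ re → S.R s ≤ 1 → |S.X s| ≤ 17059 / 10000 →
      ∃ u, s < u ∧ S.rho u = κ * S.R u ∧ S.Free s u ∧ s + τ1 * S.R s / S.a s ≤ u ∧
        cb * (S.R u * S.a u) ≤ S.J u ∧ S.t0 < u ∧ S.R u ≤ Λ * S.R s := by
    intro s h hs hs1 hX
    have hDq := hq S s h.lt.le (h.mono e5).le hs1 hX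
    have hΛ0 : ∀ t, S.t0 ≤ t → S.Free s t → s < S.t0 → S.R s ≤ max 1 (1 / ca) * S.R S.t0 := by
      intro t ht hF hlt
      have h1 := ha S s t (by linarith) hF (h.mono e1).le h.fast S.t0 ⟨hlt.le, ht⟩
      have h2 : S.R s ≤ 1 / ca * S.R S.t0 := by
        rw [one_div_mul_eq_div, le_div_iff₀ hca]; linarith
      exact h2.trans (mul_le_mul_of_nonneg_right (le_max_right _ _) (S.R_pos _).le)
    rcases hnext S s (h.mono e2) with ⟨hF, -⟩ | ⟨u, hsu, hu, hF, hg, hJ, h0, -⟩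
    · exact ((hexi S s hs (hΛ0 S.t0 le_rfl fun τ hτ => hF τ hτ.1) hDq).2 b δ hb hb1 hδ hδ1 hδ2
        hout hF).elim
    · refine ⟨u, hsu, hu, hF, hg, hJ, h0, ?_⟩
      by_contra hlt
      exact (hexi S s hs (hΛ0 u h0.le hF) hDq).1 u hsu.le h0.le hF hu (not_le.1 hlt).le
  have hR0 : S.R S.t0 ≤ r := (S.R_min tin).trans hRin
  -- data at t0 when there is no encounter before
  have at0 : (∀ τ, τ ≤ S.t0 → κ * S.R τ ≤ S.rho τ) →
      Dq (S.y1 S.t0) (S.p1 S.t0) (S.y2 S.t0) (S.p2 S.t0) ≤ 146 / 100 := by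
    intro h
    obtain ⟨h1, h2⟩ := hinb S S.t0 hin h (by rw [min_self]; linarith) (fun h => (lt_irrefl _ h).elim)
    have := Dq_le_of_near (by linarith) h1 h2
    linarith
  by_cases hx : ∃ t, S.rho t ≤ κ * S.R t
  swap
  · push Not at hx
    exact (hexi S S.t0 (by linarith) (fun h => (lt_irrefl _ h).elim)
      (at0 fun τ _ => (hx τ).le)).2 b δ hb hb1 hδ hδ1 hδ2 hout fun τ _ => (hx τ).le
  obtain ⟨t, ht⟩ := hx
  obtain ⟨t1, -, h1, hb1'⟩ := S.first_enc_bot (hfree S.toSol hin) ht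
  have hf1 : ∀ τ, τ ≤ t1 → κ * S.R τ ≤ S.rho τ := fun τ hτ => by
    rcases hτ.lt_or_eq with h | h
    · exact (hb1' τ h).le
    · rw [h]; exact h1.ge
  have hin1 : tin ≤ t1 := by
    by_contra h
    exact (hfin t1 (not_le.1 h)).ne h1.symm
  by_cases hfar : S.t0 < t1 ∧ Λ * S.R S.t0 ≤ S.R t1
  · exact (hexi S S.t0 (by linarith) (fun h => (lt_irrefl _ h).elim)
      (at0 fun τ hτ => hf1 τ (by linarith [hfar.1]))).1 t1 hfar.1.le hfar.1.le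
      (fun τ hτ => hf1 τ hτ.2) h1 hfar.2
  have hnear : S.t0 < t1 → S.R t1 ≤ Λ * S.R S.t0 := fun h => by
    by_contra h'
    exact hfar ⟨h, (not_le.1 h').le⟩
  have hRm : S.R (min t1 S.t0) ≤ r :=
    (S.R_anti (le_min hin1 htin) (min_le_right _ _)).trans hRin
  have hR1 : S.R t1 ≤ Λ * r := by
    rcases le_or_gt t1 S.t0 with h | h
    · rw [min_eq_left h] at hRm; linarith
    · exact (hnear h).trans (mul_le_mul_of_nonneg_left hR0 (by linarith))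
  obtain ⟨p1, p2⟩ := hinb S t1 hin hf1 (hRm.trans r1) hnear
  have hX1 := hP S t1 h1 (by linarith) p1 p2
  have hx1 := min_le_left (ed / 8) 1
  have hx2 := min_le_right (ed / 8) 1
  have cvq : ∀ τ, S.rho τ = κ * S.R τ → S.CV τ := fun τ h =>
    cv_of S hκ (by linarith) h.ge h.le (by linarith)
  -- first encounter
  obtain ⟨s1, hs1, a1, a2, a3, a4, a5⟩ :=
    hstep S t1 h1 (fast_of_X S hκ hκ1 h1 (by linarith) (by linarith))
  have A1 := aft_of_step hs1 a1 a2 a3 a4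
  obtain ⟨b1, -, -, -, -, b2⟩ := a5 s1 ⟨hs1.le, le_rfl⟩ a1.le
  have hX1' := X_step S (cvq t1 h1) (by linarith) he b1 b2 hX1
  have hRs1 : S.R s1 ≤ 2 * (Λ * r) := by
    have := le_two_of_abs (a4 s1 ⟨hs1.le, le_rfl⟩).1 (by linarith) (S.R_pos t1)
    linarith
  obtain ⟨t2, hs2, h2, F2, g2, J2, h02, R2⟩ := nxt s1 A1 (by linarith) (by linarith)
    (hX1'.trans (step_num he e6 (by linarith)))
  have hR2 : S.R t2 ≤ 2 * (Λ ^ 2 * r) := by
    have := mul_le_mul_of_nonneg_left hRs1 (by linarith : (0 : ℝ) ≤ Λ)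
    linarith
  have cv1 : S.CV s1 := cv_of S hκ (by linarith) a1.le A1.le (by linarith)
  have hsm : |S.R s1 * dot (S.u1 s1) (S.u2 s1)| ≤ ed := by
    have h3 : |S.R s1 * dot (S.u1 s1) (S.u2 s1)| ≤ 2 * |S.X s1| := by
      unfold Sys.X
      rw [abs_mul, abs_mul, abs_norm, abs_of_pos (S.R_pos s1), ← mul_assoc]
      exact mul_le_mul_of_nonneg_right (by linarith [cv1.x1lo]) (abs_nonneg _)
    have := step_num2 he e6 hx1 e3
    linarith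
  have hX2 : |S.X t2| ≤ 17045 / 10000 := by
    have h3 := hd S s1 t2 F2 (A1.mono (by linarith)).le A1.fast g2
      (enc_le S h2 (by linarith)) R2
      (by linarith) hsm
    refine (pow_le_pow_iff_left₀ (abs_nonneg _) (by norm_num) two_ne_zero).1 ?_
    rw [sq_abs]; unfold Sys.X; linarith
  -- second encounter
  obtain ⟨s2, hs3, c1, c2, c3, c4, c5⟩ := hstep S t2 h2 (fast_of_X S hκ hκ1 h2 (by linarith) hX2)
  have A2 := aft_of_step hs3 c1 c2 c3 c4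
  obtain ⟨d1, -, -, -, -, d2⟩ := c5 s2 ⟨hs3.le, le_rfl⟩ c1.le
  have hX2' := X_step S (cvq t2 h2) (by linarith) he d1 d2 hX2
  have hRs2 : S.R s2 ≤ 4 * (Λ ^ 2 * r) := by
    have := le_two_of_abs (c4 s2 ⟨hs3.le, le_rfl⟩).1 (by linarith) (S.R_pos t2)
    linarith
  obtain ⟨t3, -, h3, F3, g3, -, -, R3⟩ := nxt s2 A2 (by linarith) (by linarith)
    (hX2'.trans (step_num he e6 le_rfl))
  have hJ1 := S.vir_persist h02.le hs3.le hcb.le hcb1 J2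
  have hJ2 := hc S s2 t3 F3 (A2.mono e4).le A2.fast g3
    (enc_le S h3 (by linarith)) R3
  have hp : 0 < S.R s2 * S.a s2 := mul_pos (S.R_pos _) (by linarith [S.one_le_a s2])
  have := mul_pos hcb hp
  linarith

end Pool.Agent.Lib.MP_e310f3_mp.Gap
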