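import Mathlib

/-!
Definitions for the counterexample to density of the scattered image
(planar three-body problem, masses 1, kappa^4, kappa^4).
-/

open Complex Filter Topology Set

noncomputable section

namespace Pool.Agent.Lib.MP_e310f3_mp.Gap

/-- Euclidean inner product of two complex numbers. -/
def dot (a b : ℂ) : ℝ := a.re * b.re + a.im * b.im

/-- Determinant of two complex numbers. -/
def cross (a b : ℂ) : ℝ := a.re * b.im - a.im * b.re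

/-- Kepler energy with coupling g. -/
def hh (g : ℝ) (y p : ℂ) : ℝ := ‖p‖ ^ 2 / 2 - g / ‖y‖

/-- A complex number pointing in the outgoing asymptotic direction of the Kepler hyperbola. -/
def Nn (g : ℝ) (y p : ℂ) : ℂ :=
  (starRingEnd ℂ) y * (p + ((√(2 * hh g y p) / ‖y‖ : ℝ) : ℂ) * y) ^ 2

/-- Deviation of the outgoing direction from the unit vector nu. -/
def dev (g : ℝ) (y p ν : ℂ) : ℝ := √(2 * (‖Nn g y p‖ - dot (Nn g y p) ν))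

/-- Square of the Levi-Civita momentum over eight. -/
def Pq (y p : ℂ) : ℂ := (starRingEnd ℂ) y * p ^ 2 / 2

/-- Sign-free form of the product of two Levi-Civita momenta. -/
def Dq (y1 p1 y2 p2 : ℂ) : ℝ := dot (Pq y1 p1) (Pq y2 p2) + ‖Pq y1 p1‖ * ‖Pq y2 p2‖

/-- Natural speed at distance r. -/
def aa (r : ℝ) : ℝ := √(1 + 1 / r)

/-- The state (y,p) has energy near h and outgoing direction near nu. -/
def OC (g θ : ℝ) (y p ν : ℂ) (h : ℝ) : Prop :=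
  |hh g y p - h| ≤ θ ∧ dev g y p ν ≤ θ * (1 + √‖y‖)

/-- Kepler acceleration. -/
def acc (g : ℝ) (y : ℂ) : ℂ := ((-(g / ‖y‖ ^ 3) : ℝ) : ℂ) * y

/-- A perturbed Kepler motion; F is a primitive of a majorant of the perturbing force. -/
structure Arc (g : ℝ) (y p : ℝ → ℂ) (F : ℝ → ℝ) : Prop where
  ne : ∀ t, y t ≠ 0
  dy : ∀ t, HasDerivAt y (p t) t
  dp : ∀ t, ∃ (f : ℂ) (φ : ℝ), HasDerivAt p (acc g (y t) + f) t ∧ HasDerivAt F φ t ∧ ‖f‖ ≤ φ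

lemma hasDerivAt_rev {E : Type*} [NormedAddCommGroup E] [NormedSpace ℝ E] {f : ℝ → E} {f' : E}
    {t : ℝ} (h : HasDerivAt f f' (-t)) : HasDerivAt (fun τ => f (-τ)) (-f') t := by
  have h2 := h.scomp t (hasDerivAt_neg t)
  rw [neg_one_smul] at h2
  exact h2

lemma hasDerivAt_rev_neg {E : Type*} [NormedAddCommGroup E] [NormedSpace ℝ E] {f : ℝ → E} {f' : E}
    {t : ℝ} (h : HasDerivAt f f' (-t)) : HasDerivAt (fun τ => -f (-τ)) f' t := by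
  have h2 := (hasDerivAt_rev h).neg
  rw [neg_neg] at h2
  exact h2

/-- A property holds for all small positive kappa. -/
def Small (P : ℝ → Prop) : Prop := ∀ᶠ κ in 𝓝[>] (0 : ℝ), P κ

/-- Collision-free solution: heliocentric positions, barycentric velocities, energy one. -/
structure Sol (κ : ℝ) where
  x1 : ℝ → ℂ
  x2 : ℝ → ℂ
  u1 : ℝ → ℂ
  u2 : ℝ → ℂ
  dx1 : ∀ t, HasDerivAt x1 (u1 t + ((κ ^ 4 : ℝ) : ℂ) * (u1 t + u2 t)) t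
  dx2 : ∀ t, HasDerivAt x2 (u2 t + ((κ ^ 4 : ℝ) : ℂ) * (u1 t + u2 t)) t
  du1 : ∀ t, HasDerivAt u1 (acc 1 (x1 t) + acc (κ ^ 4) (x1 t - x2 t)) t
  du2 : ∀ t, HasDerivAt u2 (acc 1 (x2 t) + acc (κ ^ 4) (x2 t - x1 t)) t
  ne1 : ∀ t, x1 t ≠ 0
  ne2 : ∀ t, x2 t ≠ 0
  ne12 : ∀ t, x1 t ≠ x2 t
  energy : ∀ t, (‖u1 t‖ ^ 2 + ‖u2 t‖ ^ 2) / 2 + κ ^ 4 * ‖u1 t + u2 t‖ ^ 2 / 2
    - 1 / ‖x1 t‖ - 1 / ‖x2 t‖ - κ ^ 4 / ‖x1 t - x2 t‖ = 1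

namespace Sol

variable {κ : ℝ} (S : Sol κ)

/-- distance of the light bodies -/
def rho (t : ℝ) : ℝ := ‖S.x1 t - S.x2 t‖
/-- size of the configuration (square root of the moment of inertia) -/
def R (t : ℝ) : ℝ :=
  √(‖S.x1 t‖ ^ 2 + ‖S.x2 t‖ ^ 2 - κ ^ 4 * ‖S.x1 t + S.x2 t‖ ^ 2 / (1 + 2 * κ ^ 4))
/-- virial -/
def J (t : ℝ) : ℝ := dot (S.x1 t) (S.u1 t) + dot (S.x2 t) (S.u2 t)
/-- natural speed -/
def a (t : ℝ) : ℝ := aa (S.R t)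
/-- heliocentric velocities -/
def v1 (t : ℝ) : ℂ := S.u1 t + ((κ ^ 4 : ℝ) : ℂ) * (S.u1 t + S.u2 t)
def v2 (t : ℝ) : ℂ := S.u2 t + ((κ ^ 4 : ℝ) : ℂ) * (S.u1 t + S.u2 t)
/-- bound for the speeds -/
def W (t : ℝ) : ℝ := √(1 + 1 / ‖S.x1 t‖ + 1 / ‖S.x2 t‖ + κ ^ 4 / S.rho t)
/-- cosine of the angle between the light bodies -/
def c12 (t : ℝ) : ℝ := dot (S.x1 t) (S.x2 t) / (‖S.x1 t‖ * ‖S.x2 t‖)
/-- no encounter on [s,t] -/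
def Free (s t : ℝ) : Prop := ∀ τ ∈ Icc s t, κ * S.R τ ≤ S.rho τ
/-- no encounter on [s,infinity) -/
def FreeFrom (s : ℝ) : Prop := ∀ τ, s ≤ τ → κ * S.R τ ≤ S.rho τ

/-- asymptotic velocities at plus infinity -/
structure Asy (β1 β2 : ℂ) : Prop where
  tu1 : Tendsto S.u1 atTop (𝓝 β1)
  tu2 : Tendsto S.u2 atTop (𝓝 β2)
  tx1 : Tendsto (fun t : ℝ => ((t⁻¹ : ℝ) : ℂ) * S.x1 t) atTop
    (𝓝 (β1 + ((κ ^ 4 : ℝ) : ℂ) * (β1 + β2)))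
  tx2 : Tendsto (fun t : ℝ => ((t⁻¹ : ℝ) : ℂ) * S.x2 t) atTop
    (𝓝 (β2 + ((κ ^ 4 : ℝ) : ℂ) * (β1 + β2)))
  en : (‖β1‖ ^ 2 + ‖β2‖ ^ 2) / 2 + κ ^ 4 * ‖β1 + β2‖ ^ 2 / 2 = 1

lemma acc_def (g : ℝ) (y : ℂ) : acc g y = ((-(g / ‖y‖ ^ 3) : ℝ) : ℂ) * y := rfl

/-- time reversal -/
def rev : Sol κ where
  x1 t := S.x1 (-t)
  x2 t := S.x2 (-t)
  u1 t := -S.u1 (-t)
  u2 t := -S.u2 (-t)
  dx1 t := by
    refine (hasDerivAt_rev (S.dx1 (-t))).congr_deriv ?_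
    ring
  dx2 t := by
    refine (hasDerivAt_rev (S.dx2 (-t))).congr_deriv ?_
    ring
  du1 t := hasDerivAt_rev_neg (S.du1 (-t))
  du2 t := hasDerivAt_rev_neg (S.du2 (-t))
  ne1 t := S.ne1 (-t)
  ne2 t := S.ne2 (-t)
  ne12 t := S.ne12 (-t)
  energy t := by
    have h := S.energy (-t)
    have e : -S.u1 (-t) + -S.u2 (-t) = -(S.u1 (-t) + S.u2 (-t)) := by ring
    rw [e, norm_neg, norm_neg, norm_neg]; exact h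

/-- exchange of the light bodies -/
def swap : Sol κ where
  x1 := S.x2
  x2 := S.x1
  u1 := S.u2
  u2 := S.u1
  dx1 t := by have h := S.dx2 t; rwa [add_comm (S.u1 t) (S.u2 t)] at h
  dx2 t := by have h := S.dx1 t; rwa [add_comm (S.u1 t) (S.u2 t)] at h
  du1 := S.du2
  du2 := S.du1
  ne1 := S.ne2
  ne2 := S.ne1
  ne12 t := (S.ne12 t).symm
  energy t := by
    have h := S.energy t
    rw [add_comm (S.u2 t) (S.u1 t), norm_sub_rev (S.x2 t) (S.x1 t)]; linarith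

@[simp] lemma rev_x1 (t : ℝ) : S.rev.x1 t = S.x1 (-t) := rfl
@[simp] lemma rev_x2 (t : ℝ) : S.rev.x2 t = S.x2 (-t) := rfl
@[simp] lemma rev_u1 (t : ℝ) : S.rev.u1 t = -S.u1 (-t) := rfl
@[simp] lemma rev_u2 (t : ℝ) : S.rev.u2 t = -S.u2 (-t) := rfl
@[simp] lemma rev_rho (t : ℝ) : S.rev.rho t = S.rho (-t) := rfl
@[simp] lemma rev_R (t : ℝ) : S.rev.R t = S.R (-t) := rfl
@[simp] lemma rev_a (t : ℝ) : S.rev.a t = S.a (-t) := rfl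
@[simp] lemma rev_W (t : ℝ) : S.rev.W t = S.W (-t) := rfl
@[simp] lemma rev_c12 (t : ℝ) : S.rev.c12 t = S.c12 (-t) := rfl
@[simp] lemma rev_J (t : ℝ) : S.rev.J t = -S.J (-t) := by
  simp [J, dot]; ring
lemma rev_free {s t : ℝ} (h : S.Free s t) : S.rev.Free (-t) (-s) := by
  intro τ hτ
  exact h (-τ) ⟨by linarith [hτ.2], by linarith [hτ.1]⟩

@[simp] lemma swap_x1 : S.swap.x1 = S.x2 := rfl
@[simp] lemma swap_x2 : S.swap.x2 = S.x1 := rfl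
@[simp] lemma swap_u1 : S.swap.u1 = S.u2 := rfl
@[simp] lemma swap_u2 : S.swap.u2 = S.u1 := rfl
@[simp] lemma swap_rho (t : ℝ) : S.swap.rho t = S.rho t := norm_sub_rev _ _
@[simp] lemma swap_R (t : ℝ) : S.swap.R t = S.R t := by
  simp only [R, swap_x1, swap_x2]; rw [add_comm (S.x2 t), add_comm (‖S.x2 t‖ ^ 2)]
@[simp] lemma swap_a (t : ℝ) : S.swap.a t = S.a t := by simp [a]
@[simp] lemma swap_J (t : ℝ) : S.swap.J t = S.J t := by simp [J, add_comm]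
@[simp] lemma swap_W (t : ℝ) : S.swap.W t = S.W t := by
  simp only [W, swap_x1, swap_x2, swap_rho]; congr 1; ring
@[simp] lemma swap_v1 (t : ℝ) : S.swap.v1 t = S.v2 t := by simp [v1, v2, add_comm]
@[simp] lemma swap_v2 (t : ℝ) : S.swap.v2 t = S.v1 t := by simp [v1, v2, add_comm]
@[simp] lemma swap_c12 (t : ℝ) : S.swap.c12 t = S.c12 t := by
  simp only [c12, dot, swap_x1, swap_x2]; ring
lemma swap_free {s t : ℝ} (h : S.Free s t) : S.swap.Free s t := by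
  intro τ hτ; simpa using h τ hτ
lemma swap_freeFrom {s : ℝ} (h : S.FreeFrom s) : S.swap.FreeFrom s := by
  intro τ hτ; simpa using h τ hτ

end Sol

/-- A solution together with interpolated Jacobi coordinates in which each light body is a
perturbed Kepler motion with coupling 1+kappa^4, and the time t0 of minimal size. -/
structure Sys (κ : ℝ) extends Sol κ where
  y1 : ℝ → ℂ
  y2 : ℝ → ℂ
  p1 : ℝ → ℂ
  p2 : ℝ → ℂ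
  f1 : ℝ → ℂ
  f2 : ℝ → ℂ
  F1 : ℝ → ℝ
  F2 : ℝ → ℝ
  t0 : ℝ
  J0 : toSol.J t0 = 0
  dy1 : ∀ t, HasDerivAt y1 (p1 t) t
  dy2 : ∀ t, HasDerivAt y2 (p2 t) t
  dp1 : ∀ t, HasDerivAt p1 (acc (1 + κ ^ 4) (y1 t) + f1 t) t
  dp2 : ∀ t, HasDerivAt p2 (acc (1 + κ ^ 4) (y2 t) + f2 t) t
  ny1 : ∀ t, y1 t ≠ 0
  ny2 : ∀ t, y2 t ≠ 0
  yx1 : ∀ t, ‖y1 t - x1 t‖ ≤ κ ^ 4 * ‖x1 t‖
  yx2 : ∀ t, ‖y2 t - x2 t‖ ≤ κ ^ 4 * ‖x2 t‖
  pu1 : ∀ t, ‖p1 t - u1 t‖ ≤ κ ^ 3 * toSol.W t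
  pu2 : ∀ t, ‖p2 t - u2 t‖ ≤ κ ^ 3 * toSol.W t
  dF1 : ∀ t, HasDerivAt F1
    (κ ^ 3 * (1 / toSol.rho t ^ 2 + 1 / toSol.R t ^ 2 + 1 / (1 + ‖y2 t‖) ^ 2)) t
  dF2 : ∀ t, HasDerivAt F2
    (κ ^ 3 * (1 / toSol.rho t ^ 2 + 1 / toSol.R t ^ 2 + 1 / (1 + ‖y1 t‖) ^ 2)) t
  bf1 : ∀ t, ‖f1 t‖ ≤ κ ^ 3 * (1 / toSol.rho t ^ 2 + 1 / toSol.R t ^ 2 + 1 / (1 + ‖y2 t‖) ^ 2)
  bf2 : ∀ t, ‖f2 t‖ ≤ κ ^ 3 * (1 / toSol.rho t ^ 2 + 1 / toSol.R t ^ 2 + 1 / (1 + ‖y1 t‖) ^ 2)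

namespace Sys

variable {κ : ℝ} (S : Sys κ)

/-- Kepler energies -/
def h1 (t : ℝ) : ℝ := hh (1 + κ ^ 4) (S.y1 t) (S.p1 t)
def h2 (t : ℝ) : ℝ := hh (1 + κ ^ 4) (S.y2 t) (S.p2 t)
/-- individual virials -/
def K1 (t : ℝ) : ℝ := dot (S.y1 t) (S.p1 t)
def K2 (t : ℝ) : ℝ := dot (S.y2 t) (S.p2 t)
/-- squared Levi-Civita momenta -/
def P1 (t : ℝ) : ℂ := Pq (S.y1 t) (S.p1 t)
def P2 (t : ℝ) : ℂ := Pq (S.y2 t) (S.p2 t)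
/-- the energies stay near (e1,e2) on [s,t] -/
def HB (θ e1 e2 s t : ℝ) : Prop :=
  ∀ τ ∈ Icc s t, |S.h1 τ - e1| ≤ θ * S.a τ ^ 2 ∧ |S.h2 τ - e2| ≤ θ * S.a τ ^ 2

lemma arc1 : Arc (1 + κ ^ 4) S.y1 S.p1 S.F1 :=
  ⟨S.ny1, S.dy1, fun t => ⟨_, _, S.dp1 t, S.dF1 t, S.bf1 t⟩⟩
lemma arc2 : Arc (1 + κ ^ 4) S.y2 S.p2 S.F2 :=
  ⟨S.ny2, S.dy2, fun t => ⟨_, _, S.dp2 t, S.dF2 t, S.bf2 t⟩⟩

/-- time reversal -/
def rev : Sys κ where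
  toSol := S.toSol.rev
  y1 t := S.y1 (-t)
  y2 t := S.y2 (-t)
  p1 t := -S.p1 (-t)
  p2 t := -S.p2 (-t)
  f1 t := S.f1 (-t)
  f2 t := S.f2 (-t)
  F1 t := -S.F1 (-t)
  F2 t := -S.F2 (-t)
  t0 := -S.t0
  J0 := by simp [S.J0]
  dy1 t := hasDerivAt_rev (S.dy1 (-t))
  dy2 t := hasDerivAt_rev (S.dy2 (-t))
  dp1 t := hasDerivAt_rev_neg (S.dp1 (-t))
  dp2 t := hasDerivAt_rev_neg (S.dp2 (-t))
  ny1 t := S.ny1 (-t)
  ny2 t := S.ny2 (-t)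
  yx1 t := S.yx1 (-t)
  yx2 t := S.yx2 (-t)
  pu1 t := by
    have h := S.pu1 (-t)
    have e : -S.p1 (-t) - S.toSol.rev.u1 t = -(S.p1 (-t) - S.u1 (-t)) := by simp; ring
    rw [e, norm_neg]; exact h
  pu2 t := by
    have h := S.pu2 (-t)
    have e : -S.p2 (-t) - S.toSol.rev.u2 t = -(S.p2 (-t) - S.u2 (-t)) := by simp; ring
    rw [e, norm_neg]; exact h
  dF1 t := hasDerivAt_rev_neg (S.dF1 (-t))
  dF2 t := hasDerivAt_rev_neg (S.dF2 (-t))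
  bf1 t := S.bf1 (-t)
  bf2 t := S.bf2 (-t)

/-- exchange of the light bodies -/
def swap : Sys κ where
  toSol := S.toSol.swap
  y1 := S.y2
  y2 := S.y1
  p1 := S.p2
  p2 := S.p1
  f1 := S.f2
  f2 := S.f1
  F1 := S.F2
  F2 := S.F1
  t0 := S.t0
  J0 := by simp [S.J0]
  dy1 := S.dy2
  dy2 := S.dy1
  dp1 := S.dp2
  dp2 := S.dp1
  ny1 := S.ny2
  ny2 := S.ny1
  yx1 := S.yx2
  yx2 := S.yx1
  pu1 t := by simpa using S.pu2 t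
  pu2 t := by simpa using S.pu1 t
  dF1 t := by simpa using S.dF2 t
  dF2 t := by simpa using S.dF1 t
  bf1 t := by simpa using S.bf2 t
  bf2 t := by simpa using S.bf1 t

@[simp] lemma rev_toSol : S.rev.toSol = S.toSol.rev := rfl
@[simp] lemma rev_t0 : S.rev.t0 = -S.t0 := rfl
@[simp] lemma rev_y1 (t : ℝ) : S.rev.y1 t = S.y1 (-t) := rfl
@[simp] lemma rev_y2 (t : ℝ) : S.rev.y2 t = S.y2 (-t) := rfl
@[simp] lemma rev_p1 (t : ℝ) : S.rev.p1 t = -S.p1 (-t) := rfl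
@[simp] lemma rev_p2 (t : ℝ) : S.rev.p2 t = -S.p2 (-t) := rfl
@[simp] lemma rev_F1 (t : ℝ) : S.rev.F1 t = -S.F1 (-t) := rfl
@[simp] lemma rev_F2 (t : ℝ) : S.rev.F2 t = -S.F2 (-t) := rfl
@[simp] lemma rev_h1 (t : ℝ) : S.rev.h1 t = S.h1 (-t) := by simp [h1, hh]
@[simp] lemma rev_h2 (t : ℝ) : S.rev.h2 t = S.h2 (-t) := by simp [h2, hh]
@[simp] lemma rev_K1 (t : ℝ) : S.rev.K1 t = -S.K1 (-t) := by simp [K1, dot]; ring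
@[simp] lemma rev_K2 (t : ℝ) : S.rev.K2 t = -S.K2 (-t) := by simp [K2, dot]; ring
@[simp] lemma rev_P1 (t : ℝ) : S.rev.P1 t = S.P1 (-t) := by simp [P1, Pq]
@[simp] lemma rev_P2 (t : ℝ) : S.rev.P2 t = S.P2 (-t) := by simp [P2, Pq]
lemma rev_HB {θ e1 e2 s t : ℝ} (h : S.HB θ e1 e2 s t) : S.rev.HB θ e1 e2 (-t) (-s) := by
  intro τ hτ
  simpa using h (-τ) ⟨by linarith [hτ.2], by linarith [hτ.1]⟩

@[simp] lemma swap_toSol : S.swap.toSol = S.toSol.swap := rfl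
@[simp] lemma swap_t0 : S.swap.t0 = S.t0 := rfl
@[simp] lemma swap_y1 : S.swap.y1 = S.y2 := rfl
@[simp] lemma swap_y2 : S.swap.y2 = S.y1 := rfl
@[simp] lemma swap_p1 : S.swap.p1 = S.p2 := rfl
@[simp] lemma swap_p2 : S.swap.p2 = S.p1 := rfl
@[simp] lemma swap_F1 : S.swap.F1 = S.F2 := rfl
@[simp] lemma swap_F2 : S.swap.F2 = S.F1 := rfl
@[simp] lemma swap_h1 : S.swap.h1 = S.h2 := rfl
@[simp] lemma swap_h2 : S.swap.h2 = S.h1 := rfl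
@[simp] lemma swap_K1 : S.swap.K1 = S.K2 := rfl
@[simp] lemma swap_K2 : S.swap.K2 = S.K1 := rfl
@[simp] lemma swap_P1 : S.swap.P1 = S.P2 := rfl
@[simp] lemma swap_P2 : S.swap.P2 = S.P1 := rfl
lemma swap_HB {θ e1 e2 s t : ℝ} (h : S.HB θ e1 e2 s t) : S.swap.HB θ e2 e1 s t := by
  intro τ hτ
  have := h τ hτ
  simpa using ⟨this.2, this.1⟩

end Sys

/-- incoming beam: collinear, slow body from the right, fast body from the left -/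
def Sol.In {κ : ℝ} (S : Sol κ) : Prop :=
  ∃ k : ℝ, 0 < k ∧ S.rev.Asy ((k : ℝ) : ℂ) ((-(7 * k) : ℝ) : ℂ)

/-- outgoing shape close to (b, conj b) -/
def Sol.Out {κ : ℝ} (S : Sol κ) (b : ℂ) (δ : ℝ) : Prop :=
  ∃ (β1 β2 : ℂ) (k : ℝ), S.Asy β1 β2 ∧ 0 < k ∧ ‖β1 - (k : ℂ) * b‖ ≤ k * δ ∧
    ‖β2 - (k : ℂ) * (starRingEnd ℂ) b‖ ≤ k * δ

/-- deep case: the size r is reached before the first encounter and before t0 -/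
def Sys.DeepC {κ : ℝ} (S : Sys κ) (r : ℝ) : Prop :=
  ∃ t, t ≤ S.t0 ∧ (∀ τ, τ < t → κ * S.R τ < S.rho τ) ∧ S.R t ≤ r

/-- the solutions of the linear Levi-Civita equation z'' = l z -/
def Cf (l s : ℝ) : ℝ := Real.cosh (√l * s) * Real.cos (√(-l) * s)
def Sf (l s : ℝ) : ℝ := ∫ u in (0 : ℝ)..s, Cf l u
def Zf (l s : ℝ) (z w : ℂ) : ℂ := (Cf l s : ℂ) * z + (Sf l s : ℂ) * w
def Wf (l s : ℝ) (z w : ℂ) : ℂ := ((l * Sf l s : ℝ) : ℂ) * z + (Cf l s : ℂ) * w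
def Tf (l s : ℝ) (z w : ℂ) : ℝ := ∫ u in (0 : ℝ)..s, ‖Zf l u z w‖ ^ 2

/-- two perturbed Kepler arcs leaving nearly the same point, length scale r, speed scale a -/
structure Pair (g r a η Tm e : ℝ) (y1 p1 : ℝ → ℂ) (F1 : ℝ → ℝ) (y2 p2 : ℝ → ℂ) (F2 : ℝ → ℝ)
    (s t : ℝ) : Prop where
  arc1 : Arc g y1 p1 F1
  arc2 : Arc g y2 p2 F2
  gpos : 0 < g
  rpos : 0 < r
  apos : 0 < a
  gle : g ≤ 3 * r * a ^ 2
  st : s ≤ t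
  time : t - s ≤ Tm * r / a
  lo : r / 2 ≤ ‖y1 s‖
  hi : ‖y1 s‖ ≤ r
  near : ‖y1 s - y2 s‖ ≤ e * r
  sp1 : ‖p1 s‖ ≤ 5 * a
  sp2 : ‖p2 s‖ ≤ 5 * a
  fast : η * a ≤ ‖p1 s - p2 s‖
  en : -(e * a ^ 2) ≤ hh g (y1 s) (p1 s) + hh g (y2 s) (p2 s)
  dh1 : ∀ τ ∈ Icc s t, |hh g (y1 τ) (p1 τ) - hh g (y1 s) (p1 s)| ≤ e * a ^ 2
  dh2 : ∀ τ ∈ Icc s t, |hh g (y2 τ) (p2 τ) - hh g (y2 s) (p2 s)| ≤ e * a ^ 2
  dF1 : F1 t - F1 s ≤ e * a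
  dF2 : F2 t - F2 s ≤ e * a

end Pool.Agent.Lib.MP_e310f3_mp.Gap
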