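import Pool.Agent.Lib.MP_e310f3_mp.Gap.Hbd

open Complex Filter Topology Set

noncomputable section

namespace Pool.Agent.Lib.MP_e310f3_mp.Gap

private lemma dir_one {Y F : ℝ → ℝ} {s t : ℝ} (hst : s ≤ t)
    (h : ∀ τ ∈ Icc s t, ∃ l P φ, HasDerivAt Y (l * Y τ + P) τ ∧ HasDerivAt F φ τ ∧ 0 ≤ l ∧
      |P| ≤ 4 * φ) : Y s ≤ |Y t| + 4 * (F t - F s) := by
  have hF : ∀ a b, s ≤ a → a ≤ b → b ≤ t → F a ≤ F b := fun a b h1 h2 h3 =>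
    le_of_deriv_nonneg h2 fun τ hτ => by
      obtain ⟨l, P, φ, -, h5, -, h7⟩ := h τ ⟨h1.trans hτ.1, hτ.2.trans h3⟩
      exact ⟨φ, h5, by linarith [abs_nonneg P]⟩
  have key : ∀ u, s ≤ u → u ≤ t → (∀ τ ∈ Icc s u, 0 ≤ Y τ) → Y s ≤ Y u + 4 * (F u - F s) := by
    intro u h1 h2 h3
    have := le_of_deriv_nonneg (f := fun τ => Y τ + 4 * F τ) h1 fun τ hτ => by
      obtain ⟨l, P, φ, h4, h5, h6, h7⟩ := h τ ⟨hτ.1, hτ.2.trans h2⟩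
      refine ⟨_, h4.add (h5.const_mul 4), ?_⟩
      have := mul_nonneg h6 (h3 τ hτ)
      linarith [neg_abs_le P]
    linarith
  by_cases h0 : Y s ≤ 0
  · linarith [abs_nonneg (Y t), hF s t le_rfl hst le_rfl]
  by_cases h1 : ∀ τ ∈ Icc s t, 0 ≤ Y τ
  · linarith [key t hst le_rfl h1, le_abs_self (Y t)]
  simp only [not_forall, not_le] at h0 h1
  obtain ⟨τ, hτ, h2⟩ := h1
  have hc : ContinuousOn (fun σ => -Y σ) (Icc s τ) := fun σ hσ => by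
    obtain ⟨l, P, φ, h4, -⟩ := h σ ⟨hσ.1, hσ.2.trans hτ.2⟩
    exact h4.continuousAt.neg.continuousWithinAt
  obtain ⟨u, hu, h3, h4⟩ := exists_first hτ.1 hc (by linarith) (by linarith)
  have h5 := key u hu.1.le (hu.2.trans hτ.2) fun σ hσ => by
    rcases hσ.2.eq_or_lt with h6 | h6
    · rw [h6]; linarith
    · linarith [h4 σ ⟨hσ.1, h6⟩]
  linarith [abs_nonneg (Y t), hF u t hu.1.le (hu.2.trans hτ.2) le_rfl]

private lemma dir_abs {Y F : ℝ → ℝ} {s t : ℝ} (hst : s ≤ t)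
    (h : ∀ τ ∈ Icc s t, ∃ l P φ, HasDerivAt Y (l * Y τ + P) τ ∧ HasDerivAt F φ τ ∧ 0 ≤ l ∧
      |P| ≤ 4 * φ) : |Y s| ≤ |Y t| + 4 * (F t - F s) := by
  have h1 := dir_one hst h
  have h2 := dir_one (Y := fun τ => -Y τ) (F := F) hst fun τ hτ => by
    obtain ⟨l, P, φ, h4, h5, h6, h7⟩ := h τ hτ
    exact ⟨l, -P, φ, h4.neg.congr_deriv (by ring), h5, h6, by rwa [abs_neg]⟩
  rw [abs_neg] at h2
  exact abs_le.2 ⟨by linarith, h1⟩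

private lemma dir_speed {g ρ Ω q : ℝ} (hg2 : g ≤ 2) (hρ : 0 < ρ) (hΩ : 0 < Ω)
    (hΩ2 : 1 / 50 ≤ Ω ^ 2) (hq : q ^ 2 = Ω ^ 2 + 2 * g / ρ ^ 2) : q * ρ ≤ Ω * (20 + ρ) := by
  have h1 : (q * ρ) ^ 2 = Ω ^ 2 * ρ ^ 2 + 2 * g := by
    rw [mul_pow, hq]; field_simp
  refine (le_abs_self _).trans (abs_le_of_sq_le_sq' ?_ (by positivity) |> fun h => abs_le.2 h)
  rw [h1]
  nlinarith [mul_pos (pow_pos hΩ 2) hρ]

private lemma dir_alg {g Ω Ω' : ℝ} {z p f : ℂ} (hz : z ≠ 0)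
    (hΩ : Ω ^ 2 = 2 * hh g (z ^ 2) p) :
    2 * star (p / (2 * z)) * p + 2 * (starRingEnd ℂ) z * (acc g (z ^ 2) + f)
      + (((2 * Ω' : ℝ) : ℂ) * z + ((2 * Ω : ℝ) : ℂ) * (p / (2 * z))) =
    ((Ω / (2 * ‖z‖ ^ 2) : ℝ) : ℂ) * (2 * (starRingEnd ℂ) z * p + ((2 * Ω : ℝ) : ℂ) * z)
      + (((2 * Ω' : ℝ) : ℂ) * z + 2 * (starRingEnd ℂ) z * f) := by
  have hz' : (starRingEnd ℂ) z ≠ 0 := by simpa using hz
  have h1 : ((‖z‖ : ℝ) : ℂ) ^ 2 = z * (starRingEnd ℂ) z := by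
    rw [Complex.mul_conj, Complex.normSq_eq_norm_sq]; push_cast; ring
  have h2 : ((‖p‖ : ℝ) : ℂ) ^ 2 = p * (starRingEnd ℂ) p := by
    rw [Complex.mul_conj, Complex.normSq_eq_norm_sq]; push_cast; ring
  have h3 : (Ω : ℂ) ^ 2 = p * (starRingEnd ℂ) p - 2 * g / (z * (starRingEnd ℂ) z) := by
    have := congrArg (fun x : ℝ => (x : ℂ)) hΩ
    simp only [hh, norm_pow] at this
    push_cast at this
    rw [this, h1, h2]; ring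
  have h4 : star (p / (2 * z)) = (starRingEnd ℂ) p / (2 * (starRingEnd ℂ) z) := by
    rw [← starRingEnd_apply, map_div₀, map_mul, map_ofNat]
  rw [h4, acc, norm_pow]
  push_cast
  rw [h1]
  have h5 : (Ω : ℂ) / (2 * (z * (starRingEnd ℂ) z)) * (2 * (starRingEnd ℂ) z * p + 2 * Ω * z)
      = Ω * p / z + (Ω : ℂ) ^ 2 / (starRingEnd ℂ) z := by
    field_simp
  rw [h5, h3]
  field_simp
  ring

private lemma dir_cross (n a b : ℂ) (c : ℝ) :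
    cross n ((c : ℂ) * a + b) = c * cross n a + cross n b := by
  simp [cross]; ring

/-- the outgoing direction is stable backwards in time -/
theorem dir {g : ℝ} {y p : ℝ → ℂ} {F : ℝ → ℝ} (h : Arc g y p F) (hg : 1 ≤ g) (hg2 : g ≤ 2)
    {s t : ℝ} (hst : s ≤ t)
    (hh1 : ∀ τ ∈ Icc s t, 1 / 100 ≤ hh g (y τ) (p τ) ∧ hh g (y τ) (p τ) ≤ 2)
    {ν : ℂ} (hν : ‖ν‖ = 1) :
    dev g (y s) (p s) ν / (20 + √‖y s‖) ≤ dev g (y t) (p t) ν / (20 + √‖y t‖) + 4 * (F t - F s) := by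
  have hp : Continuous p := continuous_iff_continuousAt.2 fun τ => by
    obtain ⟨f, φ, h1, -⟩ := h.dp τ
    exact h1.continuousAt
  obtain ⟨z0, hz0⟩ := exists_sqrt (y s)
  obtain ⟨z, -, hz⟩ := exists_lift h.ne h.dy hp hz0
  obtain ⟨n, hn⟩ := exists_sqrt ν
  have hn1 : ‖n‖ = 1 := by
    have : ‖n‖ ^ 2 = 1 := by rw [← norm_pow, hn, hν]
    exact (pow_eq_one_iff_of_nonneg (norm_nonneg n) two_ne_zero).1 this
  have hzne : ∀ τ, z τ ≠ 0 := fun τ h0 => h.ne τ (by rw [← (hz τ).1, h0]; simp)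
  have hy : ∀ τ, ‖y τ‖ = ‖z τ‖ ^ 2 := fun τ => by rw [← (hz τ).1, norm_pow]
  set G : ℝ → ℂ := fun τ => 2 * (starRingEnd ℂ) (z τ) * p τ
    + ((2 * √(2 * hh g (y τ) (p τ)) : ℝ) : ℂ) * z τ with hG
  have hY : ∀ τ, dev g (y τ) (p τ) ν / (20 + √‖y τ‖) = |cross n (G τ) / (20 + ‖z τ‖)| := fun τ => by
    rw [dev_eq g (h.ne τ) (hz τ).1 hn hn1, hy, Real.sqrt_sq (norm_nonneg _), abs_div,
      abs_of_pos (show 0 < 20 + ‖z τ‖ by positivity)]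
  rw [hY, hY]
  refine dir_abs (Y := fun τ => cross n (G τ) / (20 + ‖z τ‖)) hst fun τ hτ => ?_
  obtain ⟨f, φ, h1, h2, h3⟩ := h.dp τ
  have hφ : 0 ≤ φ := (norm_nonneg f).trans h3
  have hρ : 0 < ‖z τ‖ := norm_pos_iff.2 (hzne τ)
  have hpos : 0 < 2 * hh g (y τ) (p τ) := by linarith [(hh1 τ hτ).1]
  set Ω := √(2 * hh g (y τ) (p τ)) with hΩd
  have hΩ : 0 < Ω := Real.sqrt_pos.2 hpos
  have hΩ2 : Ω ^ 2 = 2 * hh g (y τ) (p τ) := Real.sq_sqrt hpos.le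
  have d1 : HasDerivAt (fun σ => √(2 * hh g (y σ) (p σ))) (dot (p τ) f / Ω) τ := by
    refine (((d_hh (h.ne τ) (h.dy τ) h1).const_mul 2).sqrt hpos.ne').congr_deriv ?_
    rw [← hΩd]; field_simp
  have d2 : HasDerivAt G (((Ω / (2 * ‖z τ‖ ^ 2) : ℝ) : ℂ) * G τ
      + (((2 * (dot (p τ) f / Ω) : ℝ) : ℂ) * z τ + 2 * (starRingEnd ℂ) (z τ) * f)) τ := by
    have e1 := (((hz τ).2.star.const_mul (2 : ℂ)).mul h1).add
      ((d1.const_mul 2).ofReal_comp.mul (hz τ).2)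
    refine e1.congr_deriv ?_
    have := dir_alg (g := g) (Ω := Ω) (Ω' := dot (p τ) f / Ω) (p := p τ) (f := f) (hzne τ)
      (by rw [(hz τ).1]; exact hΩ2)
    rw [(hz τ).1] at this
    exact this
  have d3 := hasDerivAt_norm (hz τ).2 (hzne τ)
  have d4 := (hasDerivAt_cross (hasDerivAt_const τ n) d2).div (d3.const_add 20) (by positivity)
  set ρ := ‖z τ‖ with hρd
  set ρ' := dot (z τ) (p τ / (2 * z τ)) / ρ with hρ'
  set E := ((2 * (dot (p τ) f / Ω) : ℝ) : ℂ) * z τ + 2 * (starRingEnd ℂ) (z τ) * f with hE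
  have hq : ‖p τ‖ * ρ ≤ Ω * (20 + ρ) :=
    dir_speed hg2 hρ hΩ (by linarith [(hh1 τ hτ).1]) (by rw [normSq_p g (y τ), hΩ2, hy])
  have h20 : 0 < 20 + ρ := by positivity
  refine ⟨Ω / (2 * ρ ^ 2) - ρ' / (20 + ρ), cross n E / (20 + ρ), φ, d4.congr_deriv ?_, h2, ?_, ?_⟩
  · rw [dir_cross]
    have : cross 0 (G τ) = 0 := by simp [cross]
    rw [this]
    field_simp
    ring
  · have h4 : ρ' ≤ ‖p τ‖ / (2 * ρ) := by
      have h5 := (le_abs_self _).trans (abs_dot_le (z τ) (p τ / (2 * z τ)))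
      rw [norm_div, norm_mul, Complex.norm_ofNat] at h5
      rw [hρ', div_le_iff₀ hρ]
      linarith
    have h6 : ‖p τ‖ / (2 * ρ) / (20 + ρ) ≤ Ω / (2 * ρ ^ 2) := by
      rw [div_div, div_le_div_iff₀ (by positivity) (by positivity)]
      nlinarith
    have h7 := div_le_div_of_nonneg_right h4 h20.le
    linarith
  · have h4 : |dot (p τ) f / Ω| * ρ ≤ (20 + ρ) * φ := by
      rw [abs_div, abs_of_pos hΩ, div_mul_eq_mul_div, div_le_iff₀ hΩ]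
      have h5 := (abs_dot_le (p τ) f).trans (mul_le_mul_of_nonneg_left h3 (norm_nonneg _))
      have h6 := mul_le_mul_of_nonneg_right h5 hρ.le
      have h7 := mul_le_mul_of_nonneg_right hq hφ
      nlinarith
    have h5 : ‖E‖ ≤ 2 * (|dot (p τ) f / Ω| * ρ) + 2 * (ρ * φ) := by
      refine (norm_add_le _ _).trans (add_le_add (le_of_eq ?_) ?_)
      · rw [norm_mul, Complex.norm_real, Real.norm_eq_abs, abs_mul, abs_two, mul_assoc]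
      · rw [norm_mul, norm_mul, Complex.norm_ofNat, Complex.norm_conj, mul_assoc]
        gcongr
    have h6 := abs_cross_le n E
    rw [hn1, one_mul] at h6
    rw [abs_div, abs_of_pos h20, div_le_iff₀ h20]
    nlinarith

private lemma dir_oc {g θ θ0 c e : ℝ} {y p : ℝ → ℂ} {F : ℝ → ℝ} (h : Arc g y p F) (hg : 1 ≤ g)
    (hg2 : g ≤ 2) {s t : ℝ} (hst : s ≤ t) {ν : ℂ} (hν : ‖ν‖ = 1) (he : e ∈ Icc (1 / 60 : ℝ) 1)
    (hc1 : c ≤ 1 / 200) (hc2 : c ≤ θ / 160) (hθ : 0 < θ) (h0 : 0 ≤ θ0) (h1 : θ0 ≤ θ / 40)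
    (hb : ∀ τ ∈ Icc s t, |hh g (y τ) (p τ) - e| ≤ c) (hF : F t - F s ≤ c)
    (ht : OC g θ0 (y t) (p t) ν e) : OC g θ (y s) (p s) ν e := by
  refine ⟨(hb s ⟨le_rfl, hst⟩).trans (by linarith), ?_⟩
  have h2 := dir h hg hg2 hst (fun τ hτ => by
    have := abs_le.1 (hb τ hτ)
    constructor <;> linarith [he.1, he.2]) hν
  have h3 : dev g (y t) (p t) ν / (20 + √‖y t‖) ≤ θ0 := by
    rw [div_le_iff₀ (by positivity)]
    exact ht.2.trans (by gcongr; norm_num)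
  have h4 : dev g (y s) (p s) ν / (20 + √‖y s‖) ≤ θ / 20 := by linarith
  rw [div_le_iff₀ (by positivity)] at h4
  have := mul_nonneg hθ.le (Real.sqrt_nonneg ‖y s‖)
  linarith

theorem oc_prop {r θ : ℝ} (hr : 0 < r) (hθ : 0 < θ) : ∃ θ0 > 0, Small fun κ =>
    ∀ (S : Sys κ) (s t e1 e2 : ℝ) (ν1 ν2 : ℂ), (∀ τ ∈ Icc s t, r ≤ S.R τ) → s ≤ t → S.t0 ≤ t →
    S.Free s t → ‖ν1‖ = 1 → ‖ν2‖ = 1 → e1 ∈ Icc (1 / 60 : ℝ) 1 → e2 ∈ Icc (1 / 60 : ℝ) 1 →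
    OC (1 + κ ^ 4) θ0 (S.y1 t) (S.p1 t) ν1 e1 → OC (1 + κ ^ 4) θ0 (S.y2 t) (S.p2 t) ν2 e2 →
    OC (1 + κ ^ 4) θ (S.y1 s) (S.p1 s) ν1 e1 ∧ OC (1 + κ ^ 4) θ (S.y2 s) (S.p2 s) ν2 e2 := by
  set Λ := 1 + 1 / r with hΛ
  have hΛ1 : 1 ≤ Λ := by rw [hΛ]; linarith [one_div_pos.2 hr]
  set c := min (1 / 200) (θ / 160) with hc
  have hc0 : 0 < c := lt_min (by norm_num) (by linarith)
  have hc1 : c ≤ 1 / 200 := min_le_left _ _
  have hc2 : c ≤ θ / 160 := min_le_right _ _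
  obtain ⟨θ1, h1, hS⟩ := hb (θ := c / Λ) (Λ := Λ) (by positivity)
    ((div_le_self hc0.le hΛ1).trans hc1) hΛ1
  refine ⟨min θ1 (θ / 40), lt_min h1 (by linarith),
    (hS.and (small_le (c := 1 / 10) (by norm_num))).mono ?_⟩
  rintro κ ⟨hκ, hκ0, hκ1⟩ S s t e1 e2 ν1 ν2 hR hst ht0 hfree hν1 hν2 he1 he2 ho1 ho2
  have ha : ∀ τ ∈ Icc s t, S.a τ ^ 2 ≤ Λ := fun τ hτ => by
    rw [S.a_sq, hΛ]
    have := one_div_le_one_div_of_le hr (hR τ hτ)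
    linarith
  have ha1 : ∀ τ, 1 ≤ S.a τ ^ 2 := fun τ => one_le_pow₀ (S.one_le_a τ)
  have hm : min θ1 (θ / 40) ≤ θ1 * S.a t ^ 2 :=
    (min_le_left _ _).trans (le_mul_of_one_le_right h1.le (ha1 t))
  obtain ⟨h2, h3⟩ := hκ S e1 e2 s t he1 he2 hst ht0 hfree
    (fun h => (ha _ ⟨h.le, ht0⟩).trans (le_mul_of_one_le_right (by linarith) (ha1 s)))
    (ho1.1.trans hm) (ho2.1.trans hm)
  have hcc : ∀ τ ∈ Icc s t, c / Λ * S.a τ ^ 2 ≤ c := fun τ hτ => by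
    rw [div_mul_eq_mul_div, div_le_iff₀ (by linarith)]
    exact mul_le_mul_of_nonneg_left (ha τ hτ) hc0.le
  have hg1 : 1 ≤ 1 + κ ^ 4 := by linarith [pow_pos hκ0 4]
  have hg2 : 1 + κ ^ 4 ≤ 2 := by
    have : κ ^ 4 ≤ 1 := pow_le_one₀ hκ0.le (by linarith)
    linarith
  have hs : s ∈ Icc s t := ⟨le_rfl, hst⟩
  have h0 : 0 ≤ min θ1 (θ / 40) := le_min h1.le (by linarith)
  exact ⟨dir_oc S.arc1 hg1 hg2 hst hν1 he1 hc1 hc2 hθ h0 (min_le_right _ _)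
      (fun τ hτ => (h2 τ hτ).1.trans (hcc τ hτ)) ((h3 s hs).1.trans (hcc s hs)) ho1,
    dir_oc S.arc2 hg1 hg2 hst hν2 he2 hc1 hc2 hθ h0 (min_le_right _ _)
      (fun τ hτ => (h2 τ hτ).2.trans (hcc τ hτ)) ((h3 s hs).2.trans (hcc s hs)) ho2⟩

end Pool.Agent.Lib.MP_e310f3_mp.Gap
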