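import Pool.Agent.Lib.MP_e310f3_mp.Gap.Vir

open Complex Filter Topology Set

noncomputable section

namespace Pool.Agent.Lib.MP_e310f3_mp.Gap

private lemma lin_c {f f' : ℝ → ℂ} {C s t : ℝ} (hst : s ≤ t) (hf : ∀ τ, HasDerivAt f (f' τ) τ)
    (h : ∀ τ ∈ Icc s t, ‖f' τ‖ ≤ C) : ‖f t - f s‖ ≤ C * (t - s) := by
  have := norm_sub_le_of_deriv (f := f) (g := fun τ => C * τ) hst fun τ hτ =>
    ⟨_, C, hf τ, by simpa using (hasDerivAt_id τ).const_mul C, h τ hτ⟩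
  linarith

private lemma lin_r {f f' : ℝ → ℝ} {C s t : ℝ} (hst : s ≤ t) (hf : ∀ τ, HasDerivAt f (f' τ) τ)
    (h : ∀ τ ∈ Icc s t, |f' τ| ≤ C) : |f t - f s| ≤ C * (t - s) := by
  have := abs_sub_le_of_deriv (f := f) (g := fun τ => C * τ) hst fun τ hτ =>
    ⟨_, C, hf τ, by simpa using (hasDerivAt_id τ).const_mul C, h τ hτ⟩
  linarith

/-- the relative motion and the motion of the sum, with bounds on the outer fields that hold
while the sum has not moved much and the difference is small -/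
private lemma core {d w τ Q V σ : ℝ → ℂ} {g s q v c A B h0 δ D t0 : ℝ}
    (hd : ∀ t, HasDerivAt d (w t) t) (hw : ∀ t, HasDerivAt w (acc g (d t) + τ t) t)
    (hne : ∀ t, d t ≠ 0) (hQ : ∀ t, HasDerivAt Q (V t) t) (hV : ∀ t, HasDerivAt V (σ t) t)
    (hb : ∀ t, ‖Q t - Q s‖ ≤ q → ‖d t‖ ≤ D → ‖σ t‖ ≤ A ∧ ‖τ t‖ ≤ B * ‖d t‖)
    (hq : 0 < q) (hc : 0 < c) (hh0 : 0 < h0) (hg : 0 ≤ g) (hA : 0 ≤ A) (hB : 0 ≤ B)
    (hgδ : g ≤ c ^ 2 * δ) (hδD : 2 * δ ≤ D) (hDe : 2 * (B * D ^ 2) ≤ h0) (ht1 : A * t0 ≤ v)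
    (ht2 : 4 * v * t0 ≤ q) (ht3 : 8 * c * t0 ≤ D) (ht4 : 8 * B * c * D * t0 ≤ h0)
    (hδ : ‖d s‖ ≤ δ) (hVs : ‖V s‖ ≤ v) (hel : h0 ≤ hh g (d s) (w s))
    (heu : hh g (d s) (w s) ≤ c ^ 2) : ∀ t ∈ Icc s (s + t0),
      ‖Q t - Q s‖ ≤ 2 * v * (t - s) ∧ ‖V t - V s‖ ≤ A * (t - s) ∧
      |hh g (d t) (w t) - hh g (d s) (w s)| ≤ 2 * B * c * D * (t - s) ∧
      ‖d t‖ ^ 2 ≤ δ ^ 2 + 4 * c * D * (t - s) ∧
      (10 * c * δ ≤ h0 * (t - s) → 10 * δ ^ 2 ≤ ‖d t‖ ^ 2) := by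
  obtain ⟨e, he⟩ : ∃ e : ℝ → ℝ, e = fun t => hh g (d t) (w t) := ⟨_, rfl⟩
  have hev : ∀ t, e t = hh g (d t) (w t) := fun t => by rw [he]
  have hδ0 : 0 < δ := (norm_pos_iff.2 (hne s)).trans_le hδ
  have hD0 : 0 < D := by linarith
  have hv0 : 0 ≤ v := (norm_nonneg _).trans hVs
  have de : ∀ t, HasDerivAt e (dot (w t) (τ t)) t := fun t => by
    rw [he]; exact d_hh (hne t) (hd t) (hw t)
  have dJ : ∀ t, HasDerivAt (fun t => dot (d t) (w t))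
      (2 * e t + g / ‖d t‖ + dot (d t) (τ t)) t := fun t => by
    rw [hev]; exact d_K (hne t) (hd t) (hw t)
  have prod : ∀ t, (‖d t‖ * ‖w t‖) ^ 2 = 2 * e t * ‖d t‖ ^ 2 + 2 * g * ‖d t‖ := fun t => by
    rw [hev, ← K_sq g (hne t), dot_sq_add_cross_sq, mul_pow]
  rw [← hev] at hel heu
  simp only [← hev]
  have est : ∀ t ∈ Icc s (s + t0), (∀ u ∈ Icc s t, ‖Q u - Q s‖ ≤ q ∧ ‖d u‖ ≤ D ∧
      |e u - e s| ≤ h0 / 2) → ‖Q t - Q s‖ ≤ 2 * v * (t - s) ∧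
      ‖V t - V s‖ ≤ A * (t - s) ∧ |e t - e s| ≤ 2 * B * c * D * (t - s) ∧
      ‖d t‖ ^ 2 ≤ δ ^ 2 + 4 * c * D * (t - s) := fun t ht H => by
    have v1 : ∀ u ∈ Icc s t, ‖V u - V s‖ ≤ A * (u - s) := fun u hu =>
      lin_c hu.1 hV fun x hx =>
        (hb x (H x ⟨hx.1, hx.2.trans hu.2⟩).1 (H x ⟨hx.1, hx.2.trans hu.2⟩).2.1).1
    have pw : ∀ u ∈ Icc s t, ‖d u‖ * ‖w u‖ ≤ 2 * c * D := fun u hu => by
      obtain ⟨-, a, b⟩ := H u hu
      have b1 := (abs_le.1 b).2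
      have n0 := norm_nonneg (d u)
      refine (abs_le_of_sq_le_sq' ?_ (by positivity)).2
      rw [prod]
      have c1 : ‖d u‖ ^ 2 ≤ D ^ 2 := by gcongr
      have c2 : 2 * e u * ‖d u‖ ^ 2 ≤ 3 * c ^ 2 * ‖d u‖ ^ 2 :=
        mul_le_mul_of_nonneg_right (by linarith) (by positivity)
      have c3 : 3 * c ^ 2 * ‖d u‖ ^ 2 ≤ 3 * c ^ 2 * D ^ 2 := by gcongr
      have c4 : g * ‖d u‖ ≤ c ^ 2 * δ * D := mul_le_mul hgδ a n0 (by positivity)
      have c5 : c ^ 2 * (2 * δ) * D ≤ c ^ 2 * D * D := by gcongr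
      nlinarith
    refine ⟨lin_c ht.1 hQ fun x hx => ?_, v1 t (right_mem_Icc.2 ht.1),
      lin_r ht.1 de fun x hx => ?_, ?_⟩
    · have a := v1 x hx
      have b : A * (x - s) ≤ A * t0 := by
        gcongr
        linarith [hx.2, ht.2]
      linarith [norm_le_norm_add_norm_sub' (V x) (V s)]
    · have a := (hb x (H x hx).1 (H x hx).2.1).2
      have b := abs_dot_le (w x) (τ x)
      have c1 : ‖w x‖ * ‖τ x‖ ≤ ‖w x‖ * (B * ‖d x‖) := by gcongr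
      have c2 := mul_le_mul_of_nonneg_left (pw x hx) hB
      linarith
    · have a := lin_r (C := 4 * c * D) ht.1 (fun x => hasDerivAt_normSq (hd x)) fun x hx => by
        rw [abs_mul, abs_two]
        linarith [abs_dot_le (d x) (w x), pw x hx]
      have b := (abs_le.1 a).2
      have c1 : ‖d s‖ ^ 2 ≤ δ ^ 2 := by gcongr
      linarith
  have c1 : Continuous Q := continuous_iff_continuousAt.2 fun t => (hQ t).continuousAt
  have c2 : Continuous d := continuous_iff_continuousAt.2 fun t => (hd t).continuousAt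
  have c3 : Continuous e := continuous_iff_continuousAt.2 fun t => (de t).continuousAt
  have B1 := boot (ι := Fin 3)
    ![fun u => ‖Q u - Q s‖ - q, fun u => ‖d u‖ - D, fun u => |e u - e s| - h0 / 2]
    (s := s) (t := s + t0) (fun i => by
      fin_cases i <;> simp only [Fin.zero_eta, Fin.mk_one, Fin.reduceFinMk, Matrix.cons_val] <;>
        fun_prop) (fun i => by
      fin_cases i <;> simp only [Fin.zero_eta, Fin.mk_one, Fin.reduceFinMk, Matrix.cons_val,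
        sub_self, norm_zero, abs_zero] <;> linarith) fun t ht H i => by
    obtain ⟨a, -, b, f⟩ := est t ht fun u hu =>
      ⟨sub_nonpos.1 (H u hu 0), sub_nonpos.1 (H u hu 1), sub_nonpos.1 (H u hu 2)⟩
    have t1 : t - s ≤ t0 := by linarith [ht.2]
    have m1 : 2 * v * (t - s) ≤ 2 * v * t0 := by gcongr
    have m2 : 2 * B * c * D * (t - s) ≤ 2 * B * c * D * t0 := by gcongr
    have m3 : 4 * c * D * (t - s) ≤ 4 * c * D * t0 := by gcongr
    have m4 : D * (8 * c * t0) ≤ D * D := by gcongr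
    have m5 : (2 * δ) ^ 2 ≤ D ^ 2 := by gcongr
    have m6 : ‖d t‖ < D := (abs_lt_of_sq_lt_sq' (by nlinarith) hD0.le).2
    fin_cases i <;> simp only [Fin.zero_eta, Fin.mk_one, Fin.reduceFinMk, Matrix.cons_val] <;>
      linarith
  intro t ht
  have H : ∀ u ∈ Icc s t, ‖Q u - Q s‖ ≤ q ∧ ‖d u‖ ≤ D ∧ |e u - e s| ≤ h0 / 2 := fun u hu =>
    have k := B1 u ⟨hu.1, hu.2.trans ht.2⟩
    ⟨sub_nonpos.1 (k 0), sub_nonpos.1 (k 1), sub_nonpos.1 (k 2)⟩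
  obtain ⟨a, b, f1, f2⟩ := est t ht H
  refine ⟨a, b, f1, f2, fun hl => ?_⟩
  have J0 : -(2 * c * δ) ≤ dot (d s) (w s) := by
    have n0 := norm_nonneg (d s)
    have p : ‖d s‖ * ‖w s‖ ≤ 2 * c * δ := by
      refine (abs_le_of_sq_le_sq' ?_ (by positivity)).2
      rw [prod]
      have k1 : e s * ‖d s‖ ^ 2 ≤ c ^ 2 * δ ^ 2 :=
        mul_le_mul heu (by gcongr) (by positivity) (by positivity)
      have k2 : g * ‖d s‖ ≤ c ^ 2 * δ * δ := mul_le_mul hgδ hδ n0 (by positivity)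
      nlinarith
    linarith [(abs_le.1 (abs_dot_le (d s) (w s))).1]
  have J1 : ∀ u ∈ Icc s t, h0 / 2 * (u - s) - 2 * c * δ ≤ dot (d u) (w u) := fun u hu => by
    have := sub_le_of_deriv_le (f := fun x => h0 / 2 * x) (g := fun x => dot (d x) (w x)) hu.1
      fun x hx => ⟨h0 / 2, _, by simpa using (hasDerivAt_id x).const_mul (h0 / 2), dJ x, by
        obtain ⟨a, b, c⟩ := H x ⟨hx.1, hx.2.trans hu.2⟩
        have p1 := (hb x a b).2
        have p2 := (abs_le.1 (abs_dot_le (d x) (τ x))).1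
        have p3 : ‖d x‖ * ‖τ x‖ ≤ D * (B * D) :=
          mul_le_mul b (p1.trans (by gcongr)) (norm_nonneg _) hD0.le
        have p5 : 0 ≤ g / ‖d x‖ := by positivity
        nlinarith [(abs_le.1 c).1]⟩
    linarith
  have J2 := sub_le_of_deriv_le (f := fun x => h0 / 2 * (x - s) ^ 2 - 4 * c * δ * x)
    (g := fun x => ‖d x‖ ^ 2) ht.1 fun x hx => ⟨2 * (h0 / 2 * (x - s) - 2 * c * δ), _,
      (((((hasDerivAt_id x).sub_const s).pow 2).const_mul (h0 / 2)).sub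
        ((hasDerivAt_id x).const_mul (4 * c * δ))).congr_deriv (by simp; ring),
      hasDerivAt_normSq (hd x), by linarith [J1 x hx]⟩
  have t2 : 0 ≤ t - s := by linarith [ht.1]
  have k2 : 10 * δ ≤ c * (t - s) := by
    have k1 : h0 * (t - s) ≤ c ^ 2 * (t - s) := by gcongr; linarith
    exact le_of_mul_le_mul_left (by nlinarith) hc
  have k3 := mul_le_mul_of_nonneg_right hl t2
  have k4 := mul_le_mul_of_nonneg_right k2 hδ0.le
  nlinarith [sq_nonneg ‖d s‖]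

private lemma R_sq' {κ : ℝ} (S : Sol κ) (t : ℝ) :
    (1 + 2 * κ ^ 4) * (2 * S.R t ^ 2 - S.rho t ^ 2) = ‖S.x1 t + S.x2 t‖ ^ 2 := by
  have h : 0 < 1 + 2 * κ ^ 4 := by positivity
  rw [S.R_sq, Sol.rho, norm_add_sq', norm_sub_sq']
  field_simp
  ring

private lemma half1 (a b : ℂ) : ‖a + b‖ ≤ 2 * ‖a‖ + ‖a - b‖ := by
  have e : a + b = 2 * a - (a - b) := by ring
  rw [e]
  simpa using norm_sub_le (2 * a) (a - b)

private lemma half2 (a b a' b' : ℂ) :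
    2 * ‖a' - a‖ ≤ ‖a' + b' - (a + b)‖ + ‖a' - b'‖ + ‖a - b‖ := by
  have e : 2 * (a' - a) = a' + b' - (a + b) + (a' - b') - (a - b) := by ring
  have h := (norm_sub_le (a' + b' - (a + b) + (a' - b')) (a - b)).trans
    (add_le_add_left (norm_add_le _ _) _)
  rw [← e] at h
  simpa using h

/-- the estimates on the whole window -/
private lemma window {κ η c1 : ℝ} (hη : 0 < η) (hκ : 0 < κ) (hκ1 : κ ≤ 1 / 10) (hc : c1 ≤ 1 / 5)
    (hcη : c1 ≤ η / 16) (hκc : 2 * κ ≤ c1) (hκη : κ ≤ η ^ 2 / 8) (S : Sol κ) (s : ℝ)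
    (hρ : S.rho s = κ * S.R s) (hf : η * S.a s ≤ ‖S.u1 s - S.u2 s‖) :
    ∀ y ∈ Icc 0 (c1 / 64), ∀ t, t = s + y * S.R s / S.a s →
      ‖S.x1 t + S.x2 t - (S.x1 s + S.x2 s)‖ ≤ 22 * y * S.R s ∧
      ‖S.u1 t + S.u2 t - (S.u1 s + S.u2 s)‖ ≤ 9 * y * S.a s ∧
      |hh (2 * κ ^ 4) (S.x1 t - S.x2 t) (S.u1 t - S.u2 t) -
        hh (2 * κ ^ 4) (S.x1 s - S.x2 s) (S.u1 s - S.u2 s)| ≤ 103 * y * S.a s ^ 2 ∧
      S.rho t ^ 2 ≤ (κ ^ 2 + 7 * y) * S.R s ^ 2 ∧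
      (320 * κ ≤ η ^ 2 * y → 10 * (κ * S.R s) ^ 2 ≤ S.rho t ^ 2) := by
  intro y hy t ht
  obtain ⟨r, hr⟩ : ∃ r, r = S.R s := ⟨_, rfl⟩
  obtain ⟨a, ha⟩ : ∃ a, a = S.a s := ⟨_, rfl⟩
  have r0 : 0 < r := hr ▸ S.R_pos s
  have a1 : 1 ≤ a := ha ▸ S.one_le_a s
  have a0 : 0 < a := by linarith
  have a2 : a ^ 2 = 1 + 1 / r := by rw [ha, hr]; exact S.a_sq s
  have a3 : 1 / r ≤ a ^ 2 := by linarith
  have a4 : 1 ≤ a ^ 2 * r := by rw [a2]; field_simp; linarith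
  have c0 : 0 < c1 := by linarith
  have k4 : κ ^ 4 ≤ 1 / 10000 := (pow_le_pow_left₀ hκ.le hκ1 4).trans (by norm_num)
  have k0 : 0 < κ ^ 4 := by positivity
  have k2 : κ ^ 2 ≤ 1 / 100 := (pow_le_pow_left₀ hκ.le hκ1 2).trans (by norm_num)
  have k3 : κ ^ 3 ≤ κ := by nlinarith
  have Q0 := R_sq' S s
  rw [← hr, ← ha] at ht ⊢
  rw [← hr] at hρ Q0
  rw [← ha] at hf
  rw [hρ] at Q0
  have Q1 : 7 / 5 * r ≤ ‖S.x1 s + S.x2 s‖ := by
    refine (abs_le_of_sq_le_sq' ?_ (norm_nonneg _)).2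
    have : κ ^ 2 * r ^ 2 ≤ 1 / 100 * r ^ 2 := by gcongr
    have : 0 ≤ κ ^ 4 * (2 * r ^ 2 - (κ * r) ^ 2) := mul_nonneg k0.le (by nlinarith)
    nlinarith
  have lo : ∀ t, ‖S.x1 t + S.x2 t - (S.x1 s + S.x2 s)‖ ≤ r / 5 → ‖S.x1 t - S.x2 t‖ ≤ c1 * r →
      r / 2 ≤ ‖S.x1 t‖ ∧ r / 2 ≤ ‖S.x2 t‖ := fun t h1 h2 => by
    have e1 := half1 (S.x1 t) (S.x2 t)
    have e2 := half1 (S.x2 t) (S.x1 t)
    rw [add_comm, norm_sub_rev] at e2
    have e3 := norm_le_norm_add_norm_sub (S.x1 t + S.x2 t) (S.x1 s + S.x2 s)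
    have e4 : c1 * r ≤ 1 / 5 * r := by gcongr
    constructor <;> linarith
  have nk : ‖(((1 + 2 * κ ^ 4 : ℝ)) : ℂ)‖ = 1 + 2 * κ ^ 4 := by
    rw [Complex.norm_real, Real.norm_of_nonneg (by positivity)]
  have ρs : ‖S.x1 s - S.x2 s‖ = κ * r := hρ
  have hκr : 2 * (κ * r) ≤ c1 * r := by nlinarith
  obtain ⟨l1, l2⟩ := lo s (by simp; positivity) (by rw [ρs]; nlinarith)
  have e3 : κ ^ 4 / (κ * r) ≤ κ * a ^ 2 := by
    rw [div_le_iff₀ (by positivity)]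
    have : κ ^ 2 * 1 ≤ κ ^ 2 * (a ^ 2 * r) := by gcongr
    nlinarith
  have W5 : S.W s ≤ 5 / 2 * a := by
    refine (abs_le_of_sq_le_sq' ?_ (by positivity)).2
    rw [S.W_sq, hρ]
    have p1 : 1 / ‖S.x1 s‖ ≤ 1 / (r / 2) := by gcongr
    have p2 : 1 / ‖S.x2 s‖ ≤ 1 / (r / 2) := by gcongr
    have p3 : 1 / (r / 2) = 2 * (1 / r) := by field_simp
    have p4 : κ * a ^ 2 ≤ 1 / 10 * a ^ 2 := by gcongr
    nlinarith
  have u1 := S.u1_le s
  have u2 := S.u2_le s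
  have hs : hh (2 * κ ^ 4) (S.x1 s - S.x2 s) (S.u1 s - S.u2 s) =
      ‖S.u1 s - S.u2 s‖ ^ 2 / 2 - 2 * (κ ^ 4 / (κ * r)) := by rw [hh, ρs]; ring
  have C := core (d := fun t => S.x1 t - S.x2 t) (w := fun t => S.u1 t - S.u2 t)
    (τ := fun t => acc 1 (S.x1 t) - acc 1 (S.x2 t)) (Q := fun t => S.x1 t + S.x2 t)
    (V := fun t => ((1 + 2 * κ ^ 4 : ℝ) : ℂ) * (S.u1 t + S.u2 t))
    (σ := fun t => ((1 + 2 * κ ^ 4 : ℝ) : ℂ) * (acc 1 (S.x1 t) + acc 1 (S.x2 t)))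
    (g := 2 * κ ^ 4) (s := s) (q := r / 5) (v := 11 * a) (c := 8 * a) (A := 9 * a ^ 2 / r)
    (B := 32 * a ^ 2 / r ^ 2) (h0 := η ^ 2 * a ^ 2 / 4) (δ := κ * r) (D := c1 * r)
    (t0 := c1 / 64 * r / a)
    (fun t => ((S.dx1 t).sub (S.dx2 t)).congr_deriv (by ring))
    (fun t => ((S.du1 t).sub (S.du2 t)).congr_deriv (by
      rw [← neg_sub (S.x1 t) (S.x2 t), acc_neg]
      simp only [acc]
      push_cast
      ring))
    (fun t => sub_ne_zero.2 (S.ne12 t))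
    (fun t => ((S.dx1 t).add (S.dx2 t)).congr_deriv (by push_cast; ring))
    (fun t => (((S.du1 t).add (S.du2 t)).const_mul _).congr_deriv (by
      rw [← neg_sub (S.x1 t) (S.x2 t), acc_neg]
      ring))
    (fun t h1 h2 => by
      obtain ⟨m1, m2⟩ := lo t h1 h2
      have n : ∀ x : ℂ, r / 2 ≤ ‖x‖ → ‖acc 1 x‖ ≤ 4 * (a ^ 2 / r) := fun x hx => by
        have x0 : 0 < ‖x‖ := by linarith
        rw [norm_acc zero_le_one (norm_pos_iff.1 x0)]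
        calc 1 / ‖x‖ ^ 2 ≤ 1 / (r / 2) ^ 2 := by gcongr
          _ = 4 * (1 / r / r) := by field_simp; ring
          _ ≤ _ := by gcongr
      constructor
      · rw [norm_mul, nk]
        have p1 := (norm_add_le _ _).trans (add_le_add (n _ m1) (n _ m2))
        have p2 : 0 ≤ a ^ 2 / r := by positivity
        calc _ ≤ 9 / 8 * (4 * (a ^ 2 / r) + 4 * (a ^ 2 / r)) :=
              mul_le_mul (by linarith) p1 (norm_nonneg _) (by norm_num)
          _ = _ := by ring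
      · refine (acc_lip zero_le_one (by positivity) m1 m2).trans ?_
        calc 4 * 1 * ‖S.x1 t - S.x2 t‖ / (r / 2) ^ 3
            = 32 * (1 / r) / r ^ 2 * ‖S.x1 t - S.x2 t‖ := by field_simp; ring
          _ ≤ _ := by gcongr)
    (by positivity) (by positivity) (by positivity) (by positivity) (by positivity)
    (by positivity)
    (by
      have : κ * 1 ≤ κ * (a ^ 2 * r) := by gcongr
      nlinarith)
    hκr
    (by
      have p : c1 ^ 2 ≤ (η / 16) ^ 2 := by gcongr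
      calc 2 * (32 * a ^ 2 / r ^ 2 * (c1 * r) ^ 2) = 64 * c1 ^ 2 * a ^ 2 := by field_simp; ring
        _ ≤ 64 * (η / 16) ^ 2 * a ^ 2 := by gcongr
        _ = _ := by ring)
    (by
      calc 9 * a ^ 2 / r * (c1 / 64 * r / a) = 9 * (c1 / 64) * a := by field_simp
        _ ≤ _ := by gcongr; linarith)
    (by
      calc 4 * (11 * a) * (c1 / 64 * r / a) = 11 / 16 * c1 * r := by field_simp; ring
        _ ≤ 1 / 5 * r := by gcongr; linarith
        _ = _ := by ring)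
    (le_of_eq (by field_simp; ring))
    (by
      calc 8 * (32 * a ^ 2 / r ^ 2) * (8 * a) * (c1 * r) * (c1 / 64 * r / a)
          = 32 * c1 ^ 2 * a ^ 2 := by field_simp; ring
        _ ≤ 64 * (η / 16) ^ 2 * a ^ 2 := by gcongr; norm_num
        _ = _ := by ring)
    ρs.le
    (by
      simp only [norm_mul, nk]
      have p1 := norm_add_le (S.u1 s) (S.u2 s)
      calc _ ≤ 11 / 10 * (10 * a) :=
            mul_le_mul (by linarith) (by linarith) (norm_nonneg _) (by norm_num)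
        _ = _ := by ring)
    (by
      simp only [hs]
      have p1 : (η * a) ^ 2 ≤ ‖S.u1 s - S.u2 s‖ ^ 2 := by gcongr
      have p2 : κ * a ^ 2 ≤ η ^ 2 / 8 * a ^ 2 := by gcongr
      nlinarith)
    (by
      simp only [hs]
      have p1 : ‖S.u1 s - S.u2 s‖ ^ 2 ≤ (10 * a) ^ 2 := by
        gcongr
        linarith [norm_sub_le (S.u1 s) (S.u2 s)]
      have p2 : 0 ≤ κ ^ 4 / (κ * r) := by positivity
      nlinarith)
    t ⟨by rw [ht]; have := hy.1; exact le_add_of_nonneg_right (by positivity), by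
      rw [ht]; have := hy.2; gcongr⟩
  have ts : t - s = y * r / a := by rw [ht]; ring
  have y0 := hy.1
  simp only [ts] at C
  obtain ⟨C1, C2, C3, C4, C5⟩ := C
  refine ⟨C1.trans (le_of_eq (by field_simp; ring)), ?_, C3.trans ?_, C4.trans ?_,
    fun h => C5 ?_⟩
  · rw [← mul_sub, norm_mul, nk] at C2
    have p : 9 * a ^ 2 / r * (y * r / a) = 9 * y * a := by field_simp
    nlinarith [norm_nonneg (S.u1 t + S.u2 t - (S.u1 s + S.u2 s))]
  · calc 2 * (32 * a ^ 2 / r ^ 2) * (8 * a) * (c1 * r) * (y * r / a)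
        = 512 * c1 * y * a ^ 2 := by field_simp; ring
      _ ≤ _ := by gcongr; linarith
  · calc (κ * r) ^ 2 + 4 * (8 * a) * (c1 * r) * (y * r / a)
        = (κ ^ 2 + 32 * c1 * y) * r ^ 2 := by field_simp; ring
      _ ≤ _ := by gcongr; linarith
  · calc 10 * (8 * a) * (κ * r) = 320 * κ * (a * r / 4) := by ring
      _ ≤ η ^ 2 * y * (a * r / 4) := by gcongr
      _ = _ := by field_simp

/-- the size changes little when the sum moves little and the difference is small -/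
private lemma R_near {κ e : ℝ} (hκ : 0 < κ) (hκ1 : κ ≤ 1 / 10) (S : Sol κ) {s t : ℝ}
    (he : 0 ≤ e) (he1 : e ≤ 1 / 5) (h1 : ‖S.x1 t + S.x2 t - (S.x1 s + S.x2 s)‖ ≤ e * S.R s)
    (h2 : S.rho t ≤ e * S.R s) (h3 : S.rho s ≤ e * S.R s) : |S.R t - S.R s| ≤ 2 * e * S.R s := by
  have Qs := R_sq' S s
  have Qt := R_sq' S t
  have r0 := S.R_pos s
  have r1 := S.R_pos t
  have p0 := (S.rho_pos s).le
  have p1 := (S.rho_pos t).le
  have k4 : κ ^ 4 ≤ 1 / 10000 := (pow_le_pow_left₀ hκ.le hκ1 4).trans (by norm_num)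
  have k0 : 0 < κ ^ 4 := by positivity
  have n1 := (abs_norm_sub_norm_le (S.x1 t + S.x2 t) (S.x1 s + S.x2 s)).trans h1
  have n0 := norm_nonneg (S.x1 s + S.x2 s)
  have n2 := norm_nonneg (S.x1 t + S.x2 t)
  generalize ‖S.x1 t + S.x2 t‖ = X at *
  generalize ‖S.x1 s + S.x2 s‖ = Y at *
  generalize S.R s = r at *
  generalize S.R t = R at *
  generalize S.rho s = ρ at *
  generalize S.rho t = ρ' at *
  generalize κ ^ 4 = ε at *
  have Y1 : Y ≤ 3 / 2 * r := by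
    refine (abs_le_of_sq_le_sq' ?_ (by positivity)).2
    have : (1 + 2 * ε) * (2 * r ^ 2 - ρ ^ 2) ≤ 9 / 8 * (2 * r ^ 2) := by
      rcases le_total 0 (2 * r ^ 2 - ρ ^ 2) with h | h
      · exact mul_le_mul (by linarith) (by nlinarith) h (by norm_num)
      · nlinarith
    nlinarith
  have er : e * r ≤ 1 / 5 * r := by gcongr
  obtain ⟨n3, n4⟩ := abs_le.1 n1
  have d1 : |X ^ 2 - Y ^ 2| ≤ e * r * (16 / 5 * r) := by
    rw [show X ^ 2 - Y ^ 2 = (X - Y) * (X + Y) by ring, abs_mul, abs_of_nonneg (add_nonneg n2 n0)]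
    exact mul_le_mul n1 (by linarith) (by linarith) (by positivity)
  have d2 : |(2 * R ^ 2 - ρ' ^ 2) - (2 * r ^ 2 - ρ ^ 2)| ≤ e * r * (16 / 5 * r) := by
    refine le_trans ?_ d1
    rw [← Qs, ← Qt, ← mul_sub, abs_mul, abs_of_pos (by linarith : 0 < 1 + 2 * ε)]
    nlinarith [abs_nonneg ((2 * R ^ 2 - ρ' ^ 2) - (2 * r ^ 2 - ρ ^ 2))]
  have d3 : ρ ^ 2 ≤ e * r * (1 / 5 * r) := by nlinarith
  have d4 : ρ' ^ 2 ≤ e * r * (1 / 5 * r) := by nlinarith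
  obtain ⟨d5, d6⟩ := abs_le.1 d2
  have d7 : |R - r| * (R + r) ≤ 2 * e * r * r := by
    rw [← abs_of_pos (add_pos r1 r0), ← abs_mul, abs_le]
    have : 0 ≤ e * r * r := by positivity
    constructor <;> nlinarith [sq_nonneg ρ, sq_nonneg ρ']
  refine le_of_mul_le_mul_right (le_trans ?_ d7) r0
  gcongr
  linarith

/-- a fast encounter is short and conserves total momentum and relative speed -/
theorem enc {η : ℝ} (hη : 0 < η) : ∃ τ0 > 0, ∀ e > 0, Small fun κ => ∀ (S : Sol κ) (s : ℝ),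
    S.rho s = κ * S.R s → η * S.a s ≤ ‖S.u1 s - S.u2 s‖ →
    ∃ s', s < s' ∧ s' ≤ s + e * S.R s / S.a s ∧
      (∀ τ ∈ Icc s' (s + τ0 * S.R s / S.a s), κ * S.R τ < S.rho τ) ∧
      ∀ τ ∈ Icc s s', ‖S.x1 τ - S.x1 s‖ ≤ e * S.R s ∧ ‖S.x2 τ - S.x2 s‖ ≤ e * S.R s ∧
        ‖(S.u1 τ + S.u2 τ) - (S.u1 s + S.u2 s)‖ ≤ e * S.a s ∧ |S.R τ - S.R s| ≤ e * S.R s ∧
        S.rho τ ≤ e * S.R s ∧
        (κ * S.R τ ≤ S.rho τ →
          |‖S.u1 τ - S.u2 τ‖ ^ 2 - ‖S.u1 s - S.u2 s‖ ^ 2| ≤ e * S.a s ^ 2) := by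
  obtain ⟨c1, c0, hc, hcη⟩ : ∃ c1 : ℝ, 0 < c1 ∧ c1 ≤ 1 / 5 ∧ c1 ≤ η / 16 :=
    ⟨min (1 / 5) (η / 16), by positivity, min_le_left _ _, min_le_right _ _⟩
  refine ⟨c1 / 64, by positivity, fun e he => ?_⟩
  obtain ⟨e1, e0, he1, he2⟩ : ∃ e1 : ℝ, 0 < e1 ∧ e1 ≤ 1 / 40 ∧ e1 ≤ e / 2 :=
    ⟨min (1 / 40) (e / 2), by positivity, min_le_left _ _, min_le_right _ _⟩
  refine (((((small_le (c := 1 / 10) (by norm_num)).and (small_le (c := c1 / 2) (by positivity))).and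
    (small_le (c := η ^ 2 / 8) (by positivity))).and
    (small_le (c := e1 ^ 2 / 8) (by positivity))).and
    (small_le (c := η ^ 2 / 320 * min (e1 ^ 2 / 8) (c1 / 64)) (by positivity))).mono ?_
  rintro κ ⟨⟨⟨⟨⟨hκ, hκ1⟩, -, h2⟩, -, h3⟩, -, h4⟩, -, h5⟩ S s hρ hf
  have Wd := window hη hκ hκ1 hc hcη (by linarith) h3 S s hρ hf
  have r0 := S.R_pos s
  have a1 := S.one_le_a s
  have a0 : 0 < S.a s := by linarith
  obtain ⟨y0, hy0⟩ : ∃ y0, y0 = 320 * κ / η ^ 2 := ⟨_, rfl⟩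
  have y1 : 0 < y0 := by rw [hy0]; positivity
  have y2 : η ^ 2 * y0 = 320 * κ := by rw [hy0]; field_simp
  have y3 : y0 ≤ min (e1 ^ 2 / 8) (c1 / 64) := by
    rw [hy0, div_le_iff₀ (by positivity)]
    linarith
  obtain ⟨y4, y5⟩ := le_min_iff.1 y3
  have ee : e1 ^ 2 ≤ e1 / 40 := by nlinarith
  have par : ∀ τ y', s ≤ τ → τ ≤ s + y' * S.R s / S.a s →
      ∃ y, 0 ≤ y ∧ y ≤ y' ∧ τ = s + y * S.R s / S.a s := fun τ y' h1 h2 => by
    refine ⟨(τ - s) * S.a s / S.R s, by have := sub_nonneg.2 h1; positivity, ?_, by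
      field_simp; ring⟩
    rw [div_le_iff₀ r0, ← le_div_iff₀ a0]
    linarith
  have s1 : s < s + y0 * S.R s / S.a s := lt_add_of_pos_right _ (by positivity)
  have ρs : S.rho s ≤ e1 * S.R s := by rw [hρ]; gcongr; linarith
  refine ⟨s + y0 * S.R s / S.a s, s1, by gcongr; linarith, fun τ hτ => ?_, fun τ hτ => ?_⟩
  · obtain ⟨y, p0, p1, p2⟩ := par τ _ (s1.le.trans hτ.1) hτ.2
    obtain ⟨C1, -, -, C4, C5⟩ := Wd y ⟨p0, p1⟩ τ p2
    have p3 : y0 ≤ y := by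
      have := hτ.1
      rw [p2, add_le_add_iff_left, div_le_div_iff_of_pos_right a0] at this
      exact le_of_mul_le_mul_right this r0
    have C6 := C5 (by rw [← y2]; gcongr)
    have k2 : κ ^ 2 ≤ 1 / 100 := (pow_le_pow_left₀ hκ.le hκ1 2).trans (by norm_num)
    have p4 := R_near (e := 1 / 5) hκ hκ1 S (by norm_num) le_rfl
      (C1.trans (by gcongr; linarith))
      ((abs_le_of_sq_le_sq' (C4.trans (by
        rw [mul_pow]; gcongr; linarith)) (by positivity)).2) (ρs.trans (by gcongr; linarith))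
    have p5 : κ * S.R τ ≤ κ * (2 * S.R s) := by
      gcongr
      linarith [(abs_le.1 p4).2]
    refine p5.trans_lt (abs_lt_of_sq_lt_sq' (lt_of_lt_of_le ?_ C6) (S.rho_pos τ).le).2
    have : 0 < (κ * S.R s) ^ 2 := by positivity
    nlinarith
  · obtain ⟨y, p0, p1, p2⟩ := par τ _ hτ.1 hτ.2
    obtain ⟨C1, C2, C3, C4, -⟩ := Wd y ⟨p0, p1.trans y5⟩ τ p2
    have k2 : κ ^ 2 ≤ κ := by nlinarith
    have D1 : ‖S.x1 τ + S.x2 τ - (S.x1 s + S.x2 s)‖ ≤ e1 * S.R s :=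
      C1.trans (by gcongr; linarith)
    have D2 : S.rho τ ≤ e1 * S.R s := (abs_le_of_sq_le_sq' (C4.trans (by
      rw [mul_pow]; gcongr; linarith)) (by positivity)).2
    have D3 := R_near hκ hκ1 S e0.le (by linarith) D1 D2 ρs
    have D4 : 2 * e1 * S.R s ≤ e * S.R s := by gcongr; linarith
    have D5 : 0 ≤ e1 * S.R s := by positivity
    have b1 := half2 (S.x1 s) (S.x2 s) (S.x1 τ) (S.x2 τ)
    have b2 := half2 (S.x2 s) (S.x1 s) (S.x2 τ) (S.x1 τ)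
    rw [add_comm (S.x2 τ), add_comm (S.x2 s), norm_sub_rev (S.x2 τ) (S.x1 τ),
      norm_sub_rev (S.x2 s) (S.x1 s)] at b2
    have ρ1 : ‖S.x1 τ - S.x2 τ‖ = S.rho τ := rfl
    have ρ2 : ‖S.x1 s - S.x2 s‖ = S.rho s := rfl
    refine ⟨by linarith, by linarith, C2.trans (by gcongr; linarith), D3.trans D4, by linarith,
      fun hfr => ?_⟩
    have a3 : 1 ≤ S.a s ^ 2 * S.R s := by rw [S.a_sq]; field_simp; linarith
    have bd : ∀ ρ : ℝ, κ * (S.R s / 2) ≤ ρ → 0 ≤ 2 * κ ^ 4 / ρ ∧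
        2 * κ ^ 4 / ρ ≤ 4 * κ * S.a s ^ 2 := fun ρ h => by
      have h0 : 0 < κ * (S.R s / 2) := by positivity
      refine ⟨div_nonneg (by positivity) (h0.le.trans h), ?_⟩
      refine (div_le_div_of_nonneg_left (by positivity) h0 h).trans ?_
      rw [div_le_iff₀ h0]
      have : κ ^ 2 * 1 ≤ κ ^ 2 * (S.a s ^ 2 * S.R s) := by gcongr
      have : κ ^ 2 * κ ^ 2 ≤ κ ^ 2 * 1 := by gcongr; linarith
      nlinarith
    have e40 : e1 * S.R s ≤ 1 / 40 * S.R s := by gcongr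
    obtain ⟨g1, g2⟩ := bd (S.rho τ) (le_trans (by gcongr; linarith [(abs_le.1 D3).1]) hfr)
    obtain ⟨g3, g4⟩ := bd (S.rho s) (by rw [hρ]; gcongr; linarith)
    simp only [hh, ρ1, ρ2] at C3
    obtain ⟨g5, g6⟩ := abs_le.1 C3
    have g7 : (206 * y + 8 * κ) * S.a s ^ 2 ≤ e * S.a s ^ 2 := by gcongr; linarith
    rw [abs_le]
    constructor <;> linarith

end Pool.Agent.Lib.MP_e310f3_mp.Gap
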