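import Pool.Agent.Lib.MP_e310f3_mp.Gap.Bar

open Complex Filter Topology Set

noncomputable section

namespace Pool.Agent.Lib.MP_e310f3_mp.Gap

lemma gro_psi {x : ℝ → ℂ} {v : ℂ} {t : ℝ} (h0 : x t ≠ 0) (hx : HasDerivAt x v t) :
    HasDerivAt (fun τ => (x τ).im / ‖x τ‖) ((x t).re * cross (x t) v / ‖x t‖ ^ 3) t := by
  have hn : ‖x t‖ ≠ 0 := norm_ne_zero_iff.mpr h0
  have h1 : HasDerivAt (fun τ => (x τ).im) v.im t :=
    Complex.imCLM.hasFDerivAt.comp_hasDerivAt t hx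
  have h2 := h1.div (hasDerivAt_norm hx h0) hn
  refine h2.congr_deriv ?_
  have e : ‖x t‖ ^ 2 = (x t).re ^ 2 + (x t).im ^ 2 := by
    rw [Complex.sq_norm, Complex.normSq_apply]; ring
  have e2 : v.im * ‖x t‖ ^ 2 - (x t).im * dot (x t) v = (x t).re * cross (x t) v := by
    rw [e]; simp only [dot, cross]; ring
  rw [← e2]
  field_simp

lemma gro_psi_le (x v : ℂ) (h0 : x ≠ 0) :
    |x.re * cross x v / ‖x‖ ^ 3| ≤ |cross x v| / ‖x‖ ^ 2 := by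
  have hn : 0 < ‖x‖ := norm_pos_iff.mpr h0
  rw [abs_div, abs_mul, abs_of_pos (pow_pos hn 3), div_le_div_iff₀ (pow_pos hn 3) (pow_pos hn 2)]
  have h1 : |x.re| ≤ ‖x‖ := Complex.abs_re_le_norm x
  have h2 : 0 ≤ |cross x v| * ‖x‖ ^ 2 := by positivity
  nlinarith [mul_le_mul_of_nonneg_right h1 h2]

lemma gro_cross (x y : ℂ) (hx : x ≠ 0) (hy : y ≠ 0) :
    |cross x y| ≤ ‖x‖ * ‖y‖ * (|x.im / ‖x‖| + |y.im / ‖y‖|) := by
  have hn : 0 < ‖x‖ := norm_pos_iff.mpr hx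
  have hm : 0 < ‖y‖ := norm_pos_iff.mpr hy
  have e : ‖x‖ * ‖y‖ * (|x.im / ‖x‖| + |y.im / ‖y‖|) = |x.im| * ‖y‖ + ‖x‖ * |y.im| := by
    rw [abs_div, abs_div, abs_of_pos hn, abs_of_pos hm]; field_simp
  rw [e]
  have h1 : |x.re| ≤ ‖x‖ := Complex.abs_re_le_norm x
  have h2 : |y.re| ≤ ‖y‖ := Complex.abs_re_le_norm y
  calc |cross x y| ≤ |x.re * y.im| + |x.im * y.re| := abs_sub _ _
    _ = |x.re| * |y.im| + |x.im| * |y.re| := by rw [abs_mul, abs_mul]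
    _ ≤ ‖x‖ * |y.im| + |x.im| * ‖y‖ := by gcongr
    _ = _ := by ring

/-- the real variable estimate -/
lemma gro_core {w w' l l' ψ ψ' : ℝ → ℝ} {s M θ c0 : ℝ} (hc : 0 < c0) (hM : 0 ≤ M) (hθ : 0 ≤ θ)
    (hw : ∀ τ, s ≤ τ → HasDerivAt w (w' τ) τ) (hw0 : ∀ τ, s ≤ τ → 0 < w τ)
    (hw5 : ∀ τ, s ≤ τ → 1 ≤ 5 * w' τ * w τ ^ 5)
    (hl : ∀ τ, s ≤ τ → HasDerivAt l (l' τ) τ) (hl' : ∀ τ, s ≤ τ → |l' τ| ≤ M * w' τ)
    (hls : |l s| ≤ θ * w s ^ 2)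
    (hψ : ∀ τ, s ≤ τ → HasDerivAt ψ (ψ' τ) τ)
    (hψ' : ∀ τ, s ≤ τ → |ψ' τ| ≤ |l τ| / (c0 ^ 2 * w τ ^ 8))
    (hlim : Tendsto ψ atTop (𝓝 0)) :
    ∀ τ, s ≤ τ → |ψ τ| ≤ (5 / 2 * θ * w s ^ 2 / w τ ^ 2 + 5 * M / w τ) / c0 ^ 2 := by
  have hL : ∀ τ, s ≤ τ → |l τ| ≤ θ * w s ^ 2 + M * w τ := by
    intro τ hτ
    have h := abs_sub_le_of_deriv (f := l) (g := fun σ => M * w σ) hτ (fun σ hσ =>
      ⟨_, _, hl σ hσ.1, (hw σ hσ.1).const_mul M, hl' σ hσ.1⟩)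
    have h2 : |l τ| ≤ |l τ - l s| + |l s| := by
      have := abs_add_le (l τ - l s) (l s)
      rwa [sub_add_cancel] at this
    have h3 : 0 ≤ M * w s := mul_nonneg hM (hw0 s le_rfl).le
    linarith
  intro τ hτ
  set g : ℝ → ℝ := fun σ => -((5 / 2 * θ * w s ^ 2 / w σ ^ 2 + 5 * M / w σ) / c0 ^ 2) with hg
  have key : ∀ T, τ ≤ T → |ψ τ| ≤ |ψ T| - g τ := by
    intro T hT
    have h := abs_sub_le_of_deriv (f := ψ) (g := g) hT (fun σ hσ => by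
      have hs : s ≤ σ := hτ.trans hσ.1
      have hp := hw0 σ hs
      have d1 := ((hasDerivAt_const σ (5 / 2 * θ * w s ^ 2)).div ((hw σ hs).pow 2)
        (pow_pos hp 2).ne')
      have d2 := ((hasDerivAt_const σ (5 * M)).div (hw σ hs) hp.ne')
      have d3 := ((d1.add d2).div_const (c0 ^ 2)).neg
      refine ⟨_, (5 * θ * w s ^ 2 * w' σ / w σ ^ 3 + 5 * M * w' σ / w σ ^ 2) / c0 ^ 2,
        hψ σ hs, d3.congr_deriv ?_, ?_⟩
      · simp only [Pi.pow_apply]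
        field_simp
        norm_num
        ring
      · refine (hψ' σ hs).trans ?_
        have h5 := hw5 σ hs
        have e : (5 * θ * w s ^ 2 * w' σ / w σ ^ 3 + 5 * M * w' σ / w σ ^ 2) / c0 ^ 2
            = ((θ * w s ^ 2 + M * w σ) * (5 * w' σ * w σ ^ 5)) / (c0 ^ 2 * w σ ^ 8) := by
          field_simp
        rw [e]
        apply div_le_div_of_nonneg_right _ (by positivity)
        have h6 : 0 ≤ θ * w s ^ 2 + M * w σ := by positivity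
        exact (hL σ hs).trans (le_mul_of_one_le_right h6 h5))
    have hgT : g T ≤ 0 := by
      have hp := hw0 T (hτ.trans hT)
      simp only [hg, neg_nonpos]
      positivity
    have h2 : |ψ τ| ≤ |ψ T - ψ τ| + |ψ T| := by
      have := abs_sub (ψ T) (ψ T - ψ τ)
      rw [sub_sub_cancel] at this
      linarith
    linarith
  have hl2 : Tendsto (fun T => |ψ T| - g τ) atTop (𝓝 (|(0 : ℝ)| - g τ)) :=
    hlim.abs.sub_const _
  have := ge_of_tendsto hl2 (eventually_atTop.mpr ⟨τ, key⟩)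
  simpa [hg] using this

lemma gro_lim {x : ℝ → ℂ} {γ : ℝ} (hγ : γ ≠ 0)
    (h : Tendsto (fun t : ℝ => ((t⁻¹ : ℝ) : ℂ) * x t) atTop (𝓝 (γ : ℂ))) :
    Tendsto (fun t => (x t).im / ‖x t‖) atTop (𝓝 0) := by
  have h1 := (Complex.continuous_im.tendsto _).comp h
  have h2 := h.norm
  have h3 := h1.div h2 (by simpa using hγ)
  simp only [Complex.ofReal_im, zero_div] at h3
  refine h3.congr' ?_
  filter_upwards [eventually_gt_atTop (0 : ℝ)] with t ht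
  have hi : 0 < t⁻¹ := inv_pos.mpr ht
  simp only [Pi.div_apply, Function.comp_apply, Complex.mul_im, Complex.ofReal_re,
    Complex.ofReal_im, zero_mul, add_zero, norm_mul, Complex.norm_real, Real.norm_eq_abs,
    abs_of_pos hi]
  exact mul_div_mul_left _ _ hi.ne'

lemma gro_dir {x : ℝ → ℂ} {γ s η : ℝ} (hγ : 0 < γ) (hx : Continuous x) (h0 : ∀ t, x t ≠ 0)
    (h : Tendsto (fun t : ℝ => ((t⁻¹ : ℝ) : ℂ) * x t) atTop (𝓝 (γ : ℂ))) (hη : η < 1)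
    (hψ : ∀ τ, s ≤ τ → |(x τ).im / ‖x τ‖| ≤ η) : ‖x s / (‖x s‖ : ℂ) - 1‖ ≤ 2 * η := by
  have hsq : ∀ t, ‖x t‖ ^ 2 = (x t).re ^ 2 + (x t).im ^ 2 := fun t => by
    rw [Complex.sq_norm, Complex.normSq_apply]; ring
  have hne : ∀ τ, s ≤ τ → (x τ).re ≠ 0 := by
    intro τ hτ he
    have hn : 0 < ‖x τ‖ := norm_pos_iff.mpr (h0 τ)
    have h1 := hψ τ hτ
    have h2 : |(x τ).im| = ‖x τ‖ := by
      have h3 := hsq τ
      rw [he] at h3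
      have h4 : |(x τ).im| ^ 2 = ‖x τ‖ ^ 2 := by rw [sq_abs, h3]; ring
      exact (pow_left_inj₀ (abs_nonneg _) hn.le two_ne_zero).mp h4
    rw [abs_div, abs_of_pos hn, h2, div_self hn.ne'] at h1
    linarith
  have hpos : 0 < (x s).re := by
    have h1 := (Complex.continuous_re.tendsto _).comp h
    simp only [Complex.ofReal_re] at h1
    obtain ⟨T, hT1, hT2, hT3⟩ := ((h1.eventually (lt_mem_nhds hγ)).and
      ((eventually_gt_atTop (0 : ℝ)).and (eventually_ge_atTop s))).exists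
    simp only [Function.comp_apply, Complex.mul_re, Complex.ofReal_re, Complex.ofReal_im, zero_mul,
      sub_zero] at hT1
    have hT : 0 < (x T).re := (mul_pos_iff_of_pos_left (inv_pos.mpr hT2)).mp hT1
    by_contra hle
    push Not at hle
    have hc : ContinuousOn (fun τ => (x τ).re) (Icc s T) :=
      (Complex.continuous_re.comp hx).continuousOn
    obtain ⟨u, hu, hu0⟩ := intermediate_value_Icc hT3 hc ⟨hle, hT.le⟩
    exact hne u hu.1 hu0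
  have hn : 0 < ‖x s‖ := norm_pos_iff.mpr (h0 s)
  have h1 := hψ s le_rfl
  have hη0 : 0 ≤ η := (abs_nonneg _).trans h1
  set a := (x s).re / ‖x s‖ with ha
  set b := (x s).im / ‖x s‖ with hb
  have hab : a ^ 2 + b ^ 2 = 1 := by
    rw [ha, hb, div_pow, div_pow, ← add_div, ← hsq s, div_self (pow_pos hn 2).ne']
  have ha0 : 0 < a := div_pos hpos hn
  have e : ‖x s / (‖x s‖ : ℂ) - 1‖ ^ 2 = (a - 1) ^ 2 + b ^ 2 := by
    rw [Complex.sq_norm, Complex.normSq_apply]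
    simp only [Complex.sub_re, Complex.sub_im, Complex.div_ofReal_re, Complex.div_ofReal_im,
      Complex.one_re, Complex.one_im, sub_zero, ha, hb]
    ring
  have hb2 : b ^ 2 ≤ η ^ 2 := by rw [← sq_abs b]; exact pow_le_pow_left₀ (abs_nonneg _) h1 2
  have ha1 : a ≤ 1 := by nlinarith [sq_nonneg b]
  refine (pow_le_pow_iff_left₀ (norm_nonneg _) (by positivity) two_ne_zero).mp ?_
  rw [e]
  nlinarith

lemma gro_torque {κ c0 R ρ : ℝ} {x y z : ℂ} (hκ : 0 < κ) (hκc : κ ≤ c0)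
    (hR : 0 < R) (hρ : κ * R ≤ ρ) (hx : x ≠ 0) (hy : y ≠ 0) (hx1 : ‖x‖ ≤ 101 / 100 * R)
    (hy1 : ‖y‖ ≤ 101 / 100 * R) (hz : c0 * R ≤ ‖z‖) :
    |κ ^ 4 * cross x y * (1 / ρ ^ 3 - 1 / ‖z‖ ^ 3)| ≤
      3 * κ * (|x.im / ‖x‖| + |y.im / ‖y‖|) / R := by
  have hc : 0 < c0 := hκ.trans_le hκc
  have hκR : 0 < κ * R := mul_pos hκ hR
  have hz' : κ * R ≤ ‖z‖ := (mul_le_mul_of_nonneg_right hκc hR.le).trans hz
  have h1 : 1 / ρ ^ 3 ≤ 1 / (κ * R) ^ 3 :=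
    one_div_le_one_div_of_le (pow_pos hκR 3) (pow_le_pow_left₀ hκR.le hρ 3)
  have h2 : 1 / ‖z‖ ^ 3 ≤ 1 / (κ * R) ^ 3 :=
    one_div_le_one_div_of_le (pow_pos hκR 3) (pow_le_pow_left₀ hκR.le hz' 3)
  have hρ0 : 0 < ρ := hκR.trans_le hρ
  have h3 : |1 / ρ ^ 3 - 1 / ‖z‖ ^ 3| ≤ 1 / (κ * R) ^ 3 := by
    have p1 : 0 ≤ 1 / ρ ^ 3 := by positivity
    have p2 : 0 ≤ 1 / ‖z‖ ^ 3 := by positivity
    rw [abs_le]; constructor <;> linarith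
  set Ψ := |x.im / ‖x‖| + |y.im / ‖y‖| with hΨ
  have hΨ0 : 0 ≤ Ψ := by positivity
  have h4 : |cross x y| ≤ 3 * R ^ 2 * Ψ := by
    refine (gro_cross x y hx hy).trans (mul_le_mul_of_nonneg_right ?_ hΨ0)
    have := mul_le_mul hx1 hy1 (norm_nonneg _) (by positivity)
    nlinarith
  rw [abs_mul, abs_mul, abs_of_pos (pow_pos hκ 4)]
  calc κ ^ 4 * |cross x y| * |1 / ρ ^ 3 - 1 / ‖z‖ ^ 3|
      ≤ κ ^ 4 * (3 * R ^ 2 * Ψ) * (1 / (κ * R) ^ 3) := by gcongr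
    _ = 3 * κ * Ψ / R := by field_simp

/-- no drift away from the collinear shape -/
theorem gro {c0 ϑ : ℝ} (hc : 0 < c0) (hϑ : 0 < ϑ) : ∃ θ > 0, Small fun κ =>
    ∀ (S : Sys κ) (k s : ℝ), 0 < k → S.Asy ((k : ℝ) : ℂ) ((-(7 * k) : ℝ) : ℂ) → S.t0 ≤ s →
    2 * S.R S.t0 ≤ S.R s → S.R s ≤ 1 → S.FreeFrom s →
    (∀ τ, s ≤ τ → c0 * S.R τ ≤ ‖S.x1 τ‖ ∧ c0 * S.R τ ≤ ‖S.x2 τ‖) →
    |cross (S.x1 s) (S.v1 s)| ≤ θ * √(S.R s) → |cross (S.x2 s) (S.v2 s)| ≤ θ * √(S.R s) →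
    ‖S.x1 s / (‖S.x1 s‖ : ℂ) - 1‖ ≤ ϑ ∧ ‖S.x2 s / (‖S.x2 s‖ : ℂ) + 1‖ ≤ ϑ := by
  have hm : 0 < min ϑ 1 := lt_min hϑ one_pos
  have hc2 : 0 < c0 ^ 2 := pow_pos hc 2
  refine ⟨min ϑ 1 * c0 ^ 2 / 10, by positivity, ?_⟩
  refine ((small_le (c := 1 / 10) (by norm_num)).and ((small_le hc).and
    (small_le (c := c0 ^ 2 / 300) (by positivity)))).mono ?_
  rintro κ ⟨⟨hκ, hκ1⟩, ⟨-, hκc⟩, ⟨-, hκ3⟩⟩ S k s hk hA hs h2 h1 hF hx hl1 hl2
  set θ := min ϑ 1 * c0 ^ 2 / 10 with hθ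
  have hθ0 : 0 < θ := by positivity
  set w : ℝ → ℝ := fun τ => √(√(S.R τ)) with hwd
  have hw0 : ∀ τ, 0 < w τ := fun τ => Real.sqrt_pos.mpr (Real.sqrt_pos.mpr (S.R_pos τ))
  have hw2 : ∀ τ, w τ ^ 2 = √(S.R τ) := fun τ => Real.sq_sqrt (Real.sqrt_nonneg _)
  have hw4 : ∀ τ, w τ ^ 4 = S.R τ := fun τ => by
    rw [show w τ ^ 4 = (w τ ^ 2) ^ 2 by ring, hw2, Real.sq_sqrt (S.R_pos τ).le]
  set w' : ℝ → ℝ := fun τ => S.J τ / S.R τ / (4 * w τ ^ 3) with hw'd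
  have hw : ∀ τ, HasDerivAt w (w' τ) τ := by
    intro τ
    have hq : √(S.R τ) ≠ 0 := (Real.sqrt_pos.mpr (S.R_pos τ)).ne'
    refine (((S.dR τ).sqrt (S.R_pos τ).ne').sqrt hq).congr_deriv ?_
    have hp := hw0 τ
    show S.J τ / S.R τ / (2 * √(S.R τ)) / (2 * w τ) = S.J τ / S.R τ / (4 * w τ ^ 3)
    rw [← hw2 τ]
    field_simp
    norm_num
  have hwa : ∀ τ, s ≤ τ → S.a τ ≤ 5 * w' τ * w τ ^ 3 := by
    intro τ hτ
    have h := S.vir_far (hs.trans hτ) (h2.trans (S.R_mono hs hτ))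
    have hp := hw0 τ
    have hR := S.R_pos τ
    have e : 5 * w' τ * w τ ^ 3 = 5 / 4 * S.J τ / S.R τ := by
      simp only [hw'd]; field_simp
    rw [e, le_div_iff₀ hR]
    linarith
  have hw3 : ∀ τ, s ≤ τ → 1 ≤ 5 * w' τ * w τ ^ 3 := fun τ hτ => (S.one_le_a τ).trans (hwa τ hτ)
  have hw5 : ∀ τ, s ≤ τ → 1 ≤ 5 * w' τ * w τ ^ 5 := by
    intro τ hτ
    have hp := hw0 τ
    have ha : 1 ≤ S.a τ * w τ ^ 2 := by
      have ha0 : 0 ≤ S.a τ := zero_le_one.trans (S.one_le_a τ)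
      refine (pow_le_pow_iff_left₀ zero_le_one (by positivity) two_ne_zero).mp ?_
      have hR := S.R_pos τ
      rw [mul_pow, S.a_sq, ← pow_mul, hw4, add_mul, one_div_mul_cancel hR.ne']
      linarith
    have := mul_le_mul_of_nonneg_right (hwa τ hτ) (pow_pos hp 2).le
    calc (1 : ℝ) ≤ 5 * w' τ * w τ ^ 3 * w τ ^ 2 := ha.trans this
      _ = _ := by ring
  have hwm : ∀ τ, s ≤ τ → w s ≤ w τ := fun τ hτ =>
    Real.sqrt_le_sqrt (Real.sqrt_le_sqrt (S.R_mono hs hτ))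
  set ψ1 : ℝ → ℝ := fun τ => (S.x1 τ).im / ‖S.x1 τ‖ with hψ1
  set ψ2 : ℝ → ℝ := fun τ => (S.x2 τ).im / ‖S.x2 τ‖ with hψ2
  have hκ4 : κ ^ 4 ≤ 1 / 10000 := by
    have := pow_le_pow_left₀ hκ.le hκ1 4
    norm_num at this ⊢; exact this
  have hγ1 : 0 < k * (1 - 6 * κ ^ 4) := mul_pos hk (by linarith)
  have hγ2 : 0 < k * (7 + 6 * κ ^ 4) := by positivity
  have ht1 : Tendsto (fun t : ℝ => ((t⁻¹ : ℝ) : ℂ) * S.x1 t) atTop
      (𝓝 ((k * (1 - 6 * κ ^ 4) : ℝ) : ℂ)) := by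
    have h := hA.tx1
    have e : ((k : ℝ) : ℂ) + ((κ ^ 4 : ℝ) : ℂ) * (((k : ℝ) : ℂ) + ((-(7 * k) : ℝ) : ℂ))
        = ((k * (1 - 6 * κ ^ 4) : ℝ) : ℂ) := by push_cast; ring
    rwa [e] at h
  have ht2 : Tendsto (fun t : ℝ => ((t⁻¹ : ℝ) : ℂ) * -S.x2 t) atTop
      (𝓝 ((k * (7 + 6 * κ ^ 4) : ℝ) : ℂ)) := by
    have h := hA.tx2.neg
    have e : -(((-(7 * k) : ℝ) : ℂ) + ((κ ^ 4 : ℝ) : ℂ) * (((k : ℝ) : ℂ) + ((-(7 * k) : ℝ) : ℂ)))
        = ((k * (7 + 6 * κ ^ 4) : ℝ) : ℂ) := by push_cast; ring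
    rw [e] at h
    simpa only [mul_neg] using h
  have hlim1 : Tendsto ψ1 atTop (𝓝 0) := gro_lim hγ1.ne' ht1
  have hlim2 : Tendsto ψ2 atTop (𝓝 0) := by
    have h := (gro_lim hγ2.ne' ht2).neg
    simp only [Complex.neg_im, norm_neg, neg_div, neg_neg, neg_zero] at h
    exact h
  have hψd : ∀ (x v : ℂ) (τ : ℝ), x ≠ 0 → c0 * S.R τ ≤ ‖x‖ →
      |x.re * cross x v / ‖x‖ ^ 3| ≤ |cross x v| / (c0 ^ 2 * w τ ^ 8) := by
    intro x v τ h0 hle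
    refine (gro_psi_le x v h0).trans ?_
    have hp := hw0 τ
    apply div_le_div_of_nonneg_left (abs_nonneg _) (by positivity)
    have e : c0 ^ 2 * w τ ^ 8 = (c0 * S.R τ) ^ 2 := by rw [← hw4]; ring
    rw [e]
    exact pow_le_pow_left₀ (mul_pos hc (S.R_pos τ)).le hle 2
  have step : ∀ B, 0 ≤ B → (∀ τ, s ≤ τ → (|ψ1 τ| + |ψ2 τ|) * min (w τ) 1 ≤ B * w s) →
      ∀ τ, s ≤ τ → |ψ1 τ| ≤ (5 / 2 * θ * w s ^ 2 / w τ ^ 2 + 5 * (15 * κ * B * w s) / w τ) / c0 ^ 2 ∧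
        |ψ2 τ| ≤ (5 / 2 * θ * w s ^ 2 / w τ ^ 2 + 5 * (15 * κ * B * w s) / w τ) / c0 ^ 2 := by
    intro B hB hP
    have hws := hw0 s
    have hM : 0 ≤ 15 * κ * B * w s := by positivity
    have hT : ∀ τ, s ≤ τ → 3 * κ * (|ψ1 τ| + |ψ2 τ|) / S.R τ ≤ 15 * κ * B * w s * w' τ := by
      intro τ hτ
      have hp := hw0 τ
      have hΨ : 0 ≤ |ψ1 τ| + |ψ2 τ| := by positivity
      have hq : 1 ≤ 5 * w' τ * w τ ^ 4 * min (w τ) 1 := by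
        rcases le_total (w τ) 1 with h | h
        · rw [min_eq_left h]
          calc (1 : ℝ) ≤ 5 * w' τ * w τ ^ 5 := hw5 τ hτ
            _ = _ := by ring
        · rw [min_eq_right h]
          have h3 := hw3 τ hτ
          have := mul_le_mul h3 h zero_le_one (zero_le_one.trans h3)
          calc (1 : ℝ) = 1 * 1 := by ring
            _ ≤ 5 * w' τ * w τ ^ 3 * w τ := this
            _ = _ := by ring
      have hw'0 : 0 ≤ 5 * w' τ * w τ ^ 4 := by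
        have h3 := hw3 τ hτ
        have : 0 ≤ 5 * w' τ * w τ ^ 3 * w τ := mul_nonneg (zero_le_one.trans h3) hp.le
        calc (0 : ℝ) ≤ 5 * w' τ * w τ ^ 3 * w τ := this
          _ = _ := by ring
      rw [div_le_iff₀ (S.R_pos τ), ← hw4]
      have h6 : |ψ1 τ| + |ψ2 τ| ≤ 5 * w' τ * w τ ^ 4 * (B * w s) := by
        calc |ψ1 τ| + |ψ2 τ| ≤ (|ψ1 τ| + |ψ2 τ|) * (5 * w' τ * w τ ^ 4 * min (w τ) 1) :=
              le_mul_of_one_le_right hΨ hq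
          _ = 5 * w' τ * w τ ^ 4 * ((|ψ1 τ| + |ψ2 τ|) * min (w τ) 1) := by ring
          _ ≤ _ := mul_le_mul_of_nonneg_left (hP τ hτ) hw'0
      calc 3 * κ * (|ψ1 τ| + |ψ2 τ|) ≤ 3 * κ * (5 * w' τ * w τ ^ 4 * (B * w s)) :=
            mul_le_mul_of_nonneg_left h6 (by positivity)
        _ = _ := by ring
    intro τ hτ
    constructor
    · refine gro_core hc hM hθ0.le (fun τ _ => hw τ) (fun τ _ => hw0 τ) hw5
        (fun τ _ => S.dL1 τ) (fun τ hτ => ?_) (by rw [hw2]; exact hl1)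
        (fun τ _ => gro_psi (S.ne1 τ) (S.dv1 τ)) (fun τ hτ => hψd _ _ τ (S.ne1 τ) (hx τ hτ).1)
        hlim1 τ hτ
      exact (gro_torque hκ hκc (S.R_pos τ) (hF τ hτ) (S.ne1 τ) (S.ne2 τ) (S.x1_le hκ hκ1 τ)
        (S.x2_le hκ hκ1 τ) (hx τ hτ).2).trans (hT τ hτ)
    · refine gro_core hc hM hθ0.le (fun τ _ => hw τ) (fun τ _ => hw0 τ) hw5
        (fun τ _ => S.dL2 τ) (fun τ hτ => ?_) (by rw [hw2]; exact hl2)
        (fun τ _ => gro_psi (S.ne2 τ) (S.dv2 τ)) (fun τ hτ => hψd _ _ τ (S.ne2 τ) (hx τ hτ).2)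
        hlim2 τ hτ
      rw [abs_neg]
      exact (gro_torque hκ hκc (S.R_pos τ) (hF τ hτ) (S.ne1 τ) (S.ne2 τ) (S.x1_le hκ hκ1 τ)
        (S.x2_le hκ hκ1 τ) (hx τ hτ).1).trans (hT τ hτ)
  have hws := hw0 s
  have hone : ∀ z : ℂ, |z.im / ‖z‖| ≤ 1 := by
    intro z
    rw [abs_div, abs_norm]
    exact div_le_one_of_le₀ (Complex.abs_im_le_norm z) (norm_nonneg _)
  set Y : Set ℝ := (fun τ => (|ψ1 τ| + |ψ2 τ|) * min (w τ) 1 / w s) '' Ici s with hY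
  have hbd : BddAbove Y := by
    refine ⟨2 / w s, ?_⟩
    rintro _ ⟨τ, -, rfl⟩
    apply div_le_div_of_nonneg_right _ hws.le
    have a1 := hone (S.x1 τ)
    have a2 := hone (S.x2 τ)
    have a3 : min (w τ) 1 ≤ 1 := min_le_right _ _
    have a4 : |ψ1 τ| + |ψ2 τ| ≤ 2 := by simp only [hψ1, hψ2]; linarith
    have := mul_le_mul a4 a3 (le_min (hw0 τ).le zero_le_one) (by norm_num)
    linarith
  set B := sSup Y with hBd
  have hP : ∀ τ, s ≤ τ → (|ψ1 τ| + |ψ2 τ|) * min (w τ) 1 ≤ B * w s := fun τ hτ =>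
    (div_le_iff₀ hws).mp (le_csSup hbd ⟨τ, hτ, rfl⟩)
  have hB0 : 0 ≤ B := by
    have h := hP s le_rfl
    have : 0 ≤ (|ψ1 s| + |ψ2 s|) * min (w s) 1 :=
      mul_nonneg (by positivity) (le_min hws.le zero_le_one)
    exact nonneg_of_mul_nonneg_left (this.trans h) hws
  have hq : ∀ τ, s ≤ τ → (5 / 2 * θ * w s ^ 2 / w τ ^ 2 + 5 * (15 * κ * B * w s) / w τ) / c0 ^ 2
      ≤ (min ϑ 1 / 4 + B / 4) * (w s / w τ) := by
    intro τ hτ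
    have hp := hw0 τ
    have hr : w s / w τ ≤ 1 := (div_le_one hp).mpr (hwm τ hτ)
    have hr0 : 0 < w s / w τ := div_pos hws hp
    have e : (5 / 2 * θ * w s ^ 2 / w τ ^ 2 + 5 * (15 * κ * B * w s) / w τ) / c0 ^ 2
        = (min ϑ 1 / 4 * (w s / w τ) + 75 * κ / c0 ^ 2 * B) * (w s / w τ) := by
      rw [hθ]; field_simp; ring
    rw [e]
    apply mul_le_mul_of_nonneg_right _ hr0.le
    have b1 : min ϑ 1 / 4 * (w s / w τ) ≤ min ϑ 1 / 4 := mul_le_of_le_one_right (by positivity) hr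
    have b2 : 75 * κ / c0 ^ 2 ≤ 1 / 4 := by rw [div_le_iff₀ hc2]; linarith
    have b3 := mul_le_mul_of_nonneg_right b2 hB0
    linarith
  have hBle : B ≤ min ϑ 1 := by
    have : B ≤ min ϑ 1 / 2 + B / 2 := by
      refine csSup_le ⟨_, s, self_mem_Ici, rfl⟩ ?_
      rintro _ ⟨τ, hτ, rfl⟩
      have hp := hw0 τ
      obtain ⟨c1, c2⟩ := step B hB0 hP τ hτ
      have c3 := hq τ hτ
      have c4 : |ψ1 τ| + |ψ2 τ| ≤ (min ϑ 1 / 2 + B / 2) * (w s / w τ) := by linarith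
      have c5 : min (w τ) 1 ≤ w τ := min_le_left _ _
      have c6 := mul_le_mul c4 c5 (le_min hp.le zero_le_one) (by positivity)
      show (|ψ1 τ| + |ψ2 τ|) * min (w τ) 1 / w s ≤ _
      rw [div_le_iff₀ hws]
      refine c6.trans (le_of_eq ?_)
      field_simp
    linarith
  have hfin : ∀ τ, s ≤ τ → |ψ1 τ| ≤ min ϑ 1 / 2 ∧ |ψ2 τ| ≤ min ϑ 1 / 2 := by
    intro τ hτ
    have hp := hw0 τ
    obtain ⟨c1, c2⟩ := step B hB0 hP τ hτ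
    have c3 := hq τ hτ
    have hr : w s / w τ ≤ 1 := (div_le_one hp).mpr (hwm τ hτ)
    have c4 : (min ϑ 1 / 4 + B / 4) * (w s / w τ) ≤ min ϑ 1 / 4 + B / 4 :=
      mul_le_of_le_one_right (by positivity) hr
    constructor <;> linarith
  have hη : min ϑ 1 / 2 < 1 := by linarith [min_le_right ϑ 1]
  have hϑ' : 2 * (min ϑ 1 / 2) ≤ ϑ := by linarith [min_le_left ϑ 1]
  have cx1 : Continuous S.x1 := continuous_iff_continuousAt.mpr fun t => (S.dx1 t).continuousAt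
  have cx2 : Continuous S.x2 := continuous_iff_continuousAt.mpr fun t => (S.dx2 t).continuousAt
  constructor
  · exact (gro_dir hγ1 cx1 S.ne1 ht1 hη fun τ hτ => (hfin τ hτ).1).trans hϑ'
  · have h := gro_dir (x := fun t => -S.x2 t) hγ2 cx2.neg (fun t => neg_ne_zero.mpr (S.ne2 t)) ht2
      hη (fun τ hτ => by
        have := (hfin τ hτ).2
        simpa only [Complex.neg_im, norm_neg, neg_div, abs_neg] using this)
    have e : S.x2 s / (‖S.x2 s‖ : ℂ) + 1 = -(-S.x2 s / (‖-S.x2 s‖ : ℂ) - 1) := by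
      rw [norm_neg]; ring
    rw [e, norm_neg]
    exact h.trans hϑ'

end Pool.Agent.Lib.MP_e310f3_mp.Gap
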