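import Pool.Agent.Lib.MP_e310f3_mp.Gap.Gro
import Pool.Agent.Lib.MP_e310f3_mp.Gap.Rad
import Pool.Agent.Lib.MP_e310f3_mp.Gap.Zed
import Pool.Agent.Lib.MP_e310f3_mp.Gap.Hbd
import Pool.Agent.Lib.MP_e310f3_mp.Gap.Asy

open Complex Filter Topology Set

noncomputable section

namespace Pool.Agent.Lib.MP_e310f3_mp.Gap

/-- the incoming data at the bottom of a deep passage -/
theorem inb {ϑ Λ : ℝ} (hϑ : 0 < ϑ) (hΛ : 1 ≤ Λ) : ∃ r > 0, Small fun κ => ∀ (S : Sys κ) (t : ℝ),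
    S.In → (∀ τ, τ ≤ t → κ * S.R τ ≤ S.rho τ) → S.R (min t S.t0) ≤ r →
    (S.t0 < t → S.R t ≤ Λ * S.R S.t0) → ‖S.P1 t - 1‖ ≤ ϑ ∧ ‖S.P2 t + 1‖ ≤ ϑ := by
  obtain ⟨c0, hc0, hrad⟩ := rad
  have h3 : 0 < ϑ / 3 := by positivity
  obtain ⟨θg, hθg, Pg⟩ := gro hc0 h3
  obtain ⟨L, hL, θr, hθr, rr, hrr, Pr⟩ := hrad _ (lt_min hθg h3)
  obtain ⟨θz, hθz, rz, hrz, Pz⟩ := zl (le_max_of_le_left hΛ : 1 ≤ max Λ L) h3
  obtain ⟨θ0, hθ0, Ph⟩ := hb (lt_min (lt_min hθr hθz) (by norm_num : (0 : ℝ) < 1 / 200))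
    (min_le_right _ _) hΛ
  have hL0 : 0 < L := by linarith
  refine ⟨min (min rr rz) (1 / L), by positivity,
    ((Pg.and Pr).and ((Pz.and Ph).and (in_oc hθ0))).mono ?_⟩
  rintro κ ⟨⟨Pg, Pr⟩, ⟨Pz, Ph⟩, Po⟩ S t hin hfree hr hΛt
  have ho := Po S hin
  obtain ⟨k, hk, hasy⟩ := hin
  have hP : S.P1 t = S.rev.P1 (-t) ∧ S.P2 t = S.rev.P2 (-t) := by simp
  have hf : S.rev.FreeFrom (-t) := fun τ hτ => hfree (-τ) (by linarith)
  have hr : S.rev.R (max (-t) S.rev.t0) ≤ min (min rr rz) (1 / L) := by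
    simpa [max_neg_neg] using hr
  have hΛt : -t < S.rev.t0 → S.rev.R (-t) ≤ Λ * S.rev.R S.rev.t0 := by simpa using hΛt
  rw [hP.1, hP.2]
  change S.rev.Asy _ _ at hasy
  generalize S.rev = S at *
  generalize -t = t at *
  have e1 : (1 / 50 : ℝ) ∈ Icc (1 / 60 : ℝ) 1 := by norm_num
  have e2 : (49 / 50 : ℝ) ∈ Icc (1 / 60 : ℝ) 1 := by norm_num
  obtain ⟨s, hs⟩ : ∃ s, s = max t S.t0 := ⟨_, rfl⟩
  rw [← hs] at hr
  have hts : t ≤ s := hs ▸ le_max_left _ _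
  have h0s : S.t0 ≤ s := hs ▸ le_max_right _ _
  have hRs := S.R_pos s
  have hH : ∀ τ, s ≤ τ → ∃ T, τ ≤ T ∧ S.HB (min (min θr θz) (1 / 200)) (1 / 50) (49 / 50) t T :=
    fun τ hτ => by
      obtain ⟨T, h1, h2⟩ := ((eventually_ge_atTop τ).and ho).exists
      have h4 : θ0 ≤ θ0 * S.a T ^ 2 := le_mul_of_one_le_right hθ0.le (one_le_pow₀ (S.one_le_a T))
      refine ⟨T, h1, (Ph S _ _ t T e1 e2 (by linarith) (by linarith) (fun σ hσ => hf σ hσ.1)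
        (fun h => ?_) (h2.1.1.trans h4) (h2.2.1.trans h4)).1⟩
      have h5 : 1 / S.R S.t0 ≤ Λ * (1 / S.R t) := by
        rw [mul_one_div, div_le_div_iff₀ (S.R_pos _) (S.R_pos _), one_mul]
        exact hΛt h
      rw [S.a_sq, S.a_sq]
      linarith
  obtain ⟨T0, h1, h2⟩ :=
    ((eventually_ge_atTop s).and (S.R_tendsto.eventually_ge_atTop (L * S.R s))).exists
  obtain ⟨s2, ⟨hs2, -⟩, hR2⟩ := S.exists_R_eq h1 (by nlinarith) h2
  have hR := fun T (h1 : s2 ≤ T) (h2 : S.HB (min (min θr θz) (1 / 200)) (1 / 50) (49 / 50) t T) =>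
    Pr S _ _ s s2 T e1 e2 h0s hs2 h1 (fun σ hσ => hf σ (hts.trans hσ.1))
      (S.HB_mono h2 ((min_le_left _ _).trans (min_le_left _ _)) hts le_rfl)
      (hr.trans ((min_le_left _ _).trans (min_le_left _ _))) hR2
  obtain ⟨T, h3, h4⟩ := hH s2 hs2
  obtain ⟨-, a1, a2, a3, a4, -⟩ := hR T h3 h4
  have h5 : min θg (ϑ / 3) * √(S.R s2) ≤ θg * √(S.R s2) :=
    mul_le_mul_of_nonneg_right (min_le_left _ _) (Real.sqrt_nonneg _)
  have h6 := S.R_min s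
  obtain ⟨b1, b2⟩ := Pg S k s2 hk hasy (h0s.trans hs2) (by nlinarith) (by
      rw [hR2, ← le_div_iff₀' hL0]
      exact hr.trans (min_le_right _ _)) (fun σ hσ => hf σ (by linarith)) (fun τ hτ => by
      obtain ⟨T, h1, h2⟩ := hH τ (hs2.trans hτ)
      exact (hR T (hτ.trans h1) h2).1 τ ⟨hτ, h1⟩) (a1.trans h5) (a2.trans h5)
  obtain ⟨c1, c2, -⟩ := Pz S _ _ t s2 (S.R s) e1 e2 (hts.trans hs2) (fun σ hσ => hf σ hσ.1)
    (S.HB_mono h4 ((min_le_left _ _).trans (min_le_right _ _)) le_rfl h3) (fun τ hτ => by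
      have h7 := mul_le_mul_of_nonneg_right (le_max_left Λ L) hRs.le
      have h8 := mul_le_mul_of_nonneg_right (le_max_right Λ L) hRs.le
      rcases lt_or_ge t S.t0 with h | h
      · rw [max_eq_right h.le] at hs
        subst hs
        exact ⟨S.R_min τ, (S.R_le_max hτ).trans (max_le ((hΛt h).trans h7) (hR2.le.trans h8))⟩
      · rw [max_eq_left h] at hs
        subst hs
        exact ⟨S.R_mono h hτ.1, (S.R_mono (h.trans hτ.1) hτ.2).trans (hR2.le.trans h8)⟩)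
    (hr.trans ((min_le_left _ _).trans (min_le_right _ _)))
  have key : ∀ a b c d : ℂ, ‖b - a‖ ≤ ϑ / 3 → ‖b - c‖ ≤ min θg (ϑ / 3) → ‖c + d‖ ≤ ϑ / 3 →
      ‖a + d‖ ≤ ϑ := fun a b c d h1 h2 h3 => by
    have h4 := norm_add_le (b - c + (c + d)) (-(b - a))
    have h5 := norm_add_le (b - c) (c + d)
    have h6 := min_le_right θg (ϑ / 3)
    rw [norm_neg, show b - c + (c + d) + -(b - a) = a + d by ring] at h4
    linarith
  exact ⟨key _ _ _ (-1) c1 a3 b1, key _ _ _ 1 c2 a4 b2⟩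

end Pool.Agent.Lib.MP_e310f3_mp.Gap
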