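import Pool.Agent.Lib.MP_e310f3_mp.Gap.Lam0

open Complex Filter Topology Set

noncomputable section

namespace Pool.Agent.Lib.MP_e310f3_mp.Gap

/-- an exact pair of Levi-Civita arcs from the same point with the same time of flight -/
structure LP (g : ℝ) (z wa wb : ℂ) (la lb sa sb : ℝ) : Prop where
  gpos : 0 < g
  zne : z ≠ 0
  ea : ‖wa‖ ^ 2 = g / 2 + la * ‖z‖ ^ 2
  eb : ‖wb‖ ^ 2 = g / 2 + lb * ‖z‖ ^ 2
  en : 0 ≤ la + lb
  wne : wa ≠ wb
  sa0 : 0 ≤ sa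
  sb0 : 0 ≤ sb
  time : Tf la sa z wa = Tf lb sb z wb

variable {g : ℝ} {z wa wb : ℂ} {la lb sa sb : ℝ}

lemma inner_eq_dot (a b : ℂ) : inner ℝ a b = dot a b := by
  simp [dot, Complex.inner]
  ring

lemma Zf_smul (l s : ℝ) (z w : ℂ) : Zf l s z w = Cf l s • z + Sf l s • w := by
  simp [Zf]

lemma Wf_smul (l s : ℝ) (z w : ℂ) : Wf l s z w = (l * Sf l s) • z + Cf l s • w := by
  simp [Wf]

lemma Tf_smul (l s : ℝ) (z w : ℂ) :
    Tf l s z w = ∫ u in (0 : ℝ)..s, ‖Cf l u • z + Sf l u • w‖ ^ 2 := by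
  simp only [Tf, Zf_smul]

lemma pos_of_Tf {l s : ℝ} {z w : ℂ} (hs : 0 ≤ s) (hT : 0 < Tf l s z w) : 0 < s :=
  hs.lt_of_ne fun h => by
    rw [← h, Tf_zero] at hT
    exact lt_irrefl _ hT

lemma lam_all (h : LP g z wa wb la lb sa sb) (hT : 0 < Tf la sa z wa)
    (hm : Zf la sa z wa ^ 2 = Zf lb sb z wb ^ 2) :
    Zf la sa z wa ≠ 0 ∧
      0 < dot (Zf la sa z wa) (Wf la sa z wa) + dot (Zf lb sb z wb) (Wf lb sb z wb) ∧
      dot z wa + dot z wb ≤ 0 := by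
  have := Lam.pair_sign (E := ℂ) cs (half_pos h.gpos) h.ea h.eb (Zf_smul la sa z wa)
    (Zf_smul lb sb z wb) (sq_eq_sq_iff_eq_or_eq_neg.1 hm.symm) (pos_of_Tf h.sa0 hT)
    (pos_of_Tf h.sb0 (h.time ▸ hT)) (by rw [← Tf_smul, ← Tf_smul, h.time]) h.en h.wne
  simpa only [inner_eq_dot, ← Wf_smul] using this

theorem lam_end (h : LP g z wa wb la lb sa sb) (hT : 0 < Tf la sa z wa)
    (hm : Zf la sa z wa ^ 2 = Zf lb sb z wb ^ 2) :
    0 < dot (Zf la sa z wa) (Wf la sa z wa) + dot (Zf lb sb z wb) (Wf lb sb z wb) :=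
  (lam_all h hT hm).2.1

theorem lam_start (h : LP g z wa wb la lb sa sb) (hT : 0 < Tf la sa z wa)
    (hm : Zf la sa z wa ^ 2 = Zf lb sb z wb ^ 2) : dot z wa + dot z wb ≤ 0 :=
  (lam_all h hT hm).2.2

theorem lam_ne (h : LP g z wa wb la lb sa sb) :
    0 < ‖Zf la sa z wa‖ ^ 4 + ‖Zf lb sb z wb‖ ^ 4 := by
  by_contra hn
  have h1 : ‖Zf la sa z wa‖ ^ 4 = 0 :=
    le_antisymm (by linarith [not_lt.1 hn, pow_nonneg (norm_nonneg (Zf lb sb z wb)) 4])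
      (by positivity)
  have h2 : ‖Zf lb sb z wb‖ ^ 4 = 0 :=
    le_antisymm (by linarith [not_lt.1 hn]) (by positivity)
  have h3 : Zf la sa z wa = 0 := norm_eq_zero.1 (pow_eq_zero_iff (by norm_num) |>.1 h1)
  have h4 : Zf lb sb z wb = 0 := norm_eq_zero.1 (pow_eq_zero_iff (by norm_num) |>.1 h2)
  rcases h.sa0.lt_or_eq with hs | hs
  · have hc : Continuous fun u => ‖Zf la u z wa‖ ^ 2 :=
      (continuous_iff_continuousAt.2 fun u => (d_Zf la u z wa).continuousAt).norm.pow 2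
    have hT : 0 < Tf la sa z wa :=
      intervalIntegral.integral_pos hs hc.continuousOn (fun _ _ => by positivity)
        ⟨0, left_mem_Icc.2 hs.le, by rw [Zf_zero]; have := h.zne; positivity⟩
    exact (lam_all h hT (by rw [h3, h4])).1 h3
  · rw [← hs, Zf_zero] at h3
    exact h.zne h3

theorem lam_zero (h : LP g z wa wb la lb sa sb) (hT : 0 < Tf la sa z wa)
    (hm : Zf la sa z wa ^ 2 = Zf lb sb z wb ^ 2) (h0 : la + lb = 0) (hd : dot wa wb = 0) :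
    |2 * dot (Wf la sa z wa) (Wf lb sb z wb)| ≤ 17 / 20 * g := by
  have := Lam.pair_zero (E := ℂ) cs (half_pos h.gpos) h.ea h.eb (Zf_smul la sa z wa)
    (Zf_smul lb sb z wb) (sq_eq_sq_iff_eq_or_eq_neg.1 hm.symm) (pos_of_Tf h.sa0 hT)
    (pos_of_Tf h.sb0 (h.time ▸ hT)) (by rw [← Tf_smul, ← Tf_smul, h.time]) h0 h.wne
    (by rw [inner_eq_dot, hd])
  rw [inner_eq_dot, ← Wf_smul, ← Wf_smul] at this
  rw [abs_mul, abs_two]
  linarith

end Pool.Agent.Lib.MP_e310f3_mp.Gap
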