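import Pool.Agent.Lib.MP_e310f3_mp.Gap.Tools
import Pool.Agent.Lib.MP_e310f3_mp.Lam3

open Complex Filter Topology Set

noncomputable section

namespace Pool.Agent.Lib.MP_e310f3_mp.Gap

lemma cs (l : ℝ) : Lam.CS l (Cf l) (Sf l) := Lam.cs_f l

lemma Cf_zero (l : ℝ) : Cf l 0 = 1 := (cs l).C0
lemma Sf_zero (l : ℝ) : Sf l 0 = 0 := (cs l).S0
lemma continuous_Cf : Continuous (fun q : ℝ × ℝ => Cf q.1 q.2) := by
  unfold Cf
  fun_prop
lemma continuous_Sf : Continuous (fun q : ℝ × ℝ => Sf q.1 q.2) := by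
  unfold Sf
  exact intervalIntegral.continuous_parametric_intervalIntegral_of_continuous
    (f := fun (p : ℝ × ℝ) u => Cf p.1 u) (μ := MeasureTheory.volume)
    (continuous_Cf.comp (by fun_prop : Continuous fun q : (ℝ × ℝ) × ℝ => (q.1.1, q.2)))
    continuous_snd
lemma continuous_Zf : Continuous (fun q : ℝ × ℝ × ℂ × ℂ => Zf q.1 q.2.1 q.2.2.1 q.2.2.2) := by
  have h1 := continuous_Cf.comp (by fun_prop : Continuous fun q : ℝ × ℝ × ℂ × ℂ => (q.1, q.2.1))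
  have h2 := continuous_Sf.comp (by fun_prop : Continuous fun q : ℝ × ℝ × ℂ × ℂ => (q.1, q.2.1))
  unfold Zf
  exact ((continuous_ofReal.comp h1).mul (by fun_prop)).add
    ((continuous_ofReal.comp h2).mul (by fun_prop))
lemma continuous_Wf : Continuous (fun q : ℝ × ℝ × ℂ × ℂ => Wf q.1 q.2.1 q.2.2.1 q.2.2.2) := by
  have h1 := continuous_Cf.comp (by fun_prop : Continuous fun q : ℝ × ℝ × ℂ × ℂ => (q.1, q.2.1))
  have h2 := continuous_Sf.comp (by fun_prop : Continuous fun q : ℝ × ℝ × ℂ × ℂ => (q.1, q.2.1))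
  unfold Wf
  exact ((continuous_ofReal.comp (continuous_fst.mul h2)).mul (by fun_prop)).add
    ((continuous_ofReal.comp h1).mul (by fun_prop))
lemma continuous_Tf : Continuous (fun q : ℝ × ℝ × ℂ × ℂ => Tf q.1 q.2.1 q.2.2.1 q.2.2.2) := by
  have h1 : Continuous fun q : (ℝ × ℝ × ℂ × ℂ) × ℝ => Zf q.1.1 q.2 q.1.2.2.1 q.1.2.2.2 := by
    have h0 := continuous_Zf.comp (by fun_prop : Continuous fun q : (ℝ × ℝ × ℂ × ℂ) × ℝ =>
      ((q.1.1, q.2, q.1.2.2.1, q.1.2.2.2) : ℝ × ℝ × ℂ × ℂ))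
    simpa only [Function.comp_def] using h0
  have h2 : Continuous fun q : (ℝ × ℝ × ℂ × ℂ) × ℝ => ‖Zf q.1.1 q.2 q.1.2.2.1 q.1.2.2.2‖ ^ 2 :=
    h1.norm.pow 2
  unfold Tf
  exact intervalIntegral.continuous_parametric_intervalIntegral_of_continuous
    (f := fun (q : ℝ × ℝ × ℂ × ℂ) u => ‖Zf q.1 u q.2.2.1 q.2.2.2‖ ^ 2) (μ := MeasureTheory.volume)
    h2 (by fun_prop)
lemma d_Sf (l s : ℝ) : HasDerivAt (Sf l) (Cf l s) s := (cs l).dS s
lemma d_Cf (l s : ℝ) : HasDerivAt (Cf l) (l * Sf l s) s := (cs l).dC s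
lemma Cf_sq (l s : ℝ) : Cf l s ^ 2 - l * Sf l s ^ 2 = 1 := (cs l).one s
lemma one_le_Cf {l : ℝ} (hl : 0 ≤ l) (s : ℝ) : 1 ≤ Cf l s := by
  refine abs_le_of_sq_le_sq' ?_ ((cs l).Cpos hl s).le |>.2
  nlinarith [Cf_sq l s, mul_nonneg hl (sq_nonneg (Sf l s))]
lemma Sf_pos {l s : ℝ} (hl : 0 ≤ l) (hs : 0 < s) : 0 < Sf l s := (cs l).Spos hl hs
lemma d_Zf (l s : ℝ) (z w : ℂ) : HasDerivAt (fun u => Zf l u z w) (Wf l s z w) s :=
  ((d_Cf l s).ofReal_comp.mul_const z).add ((d_Sf l s).ofReal_comp.mul_const w)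
lemma d_Wf (l s : ℝ) (z w : ℂ) : HasDerivAt (fun u => Wf l u z w) ((l : ℂ) * Zf l s z w) s :=
  ((((d_Sf l s).const_mul l).ofReal_comp.mul_const z).add
    ((d_Cf l s).ofReal_comp.mul_const w)).congr_deriv (by
      unfold Zf
      push_cast
      ring)
lemma d_Tf (l s : ℝ) (z w : ℂ) : HasDerivAt (fun u => Tf l u z w) (‖Zf l s z w‖ ^ 2) s := by
  have hc : Continuous fun u => ‖Zf l u z w‖ ^ 2 :=
    (continuous_iff_continuousAt.2 fun u => (d_Zf l u z w).continuousAt).norm.pow 2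
  exact (hc.integral_hasStrictDerivAt 0 s).hasDerivAt
lemma Zf_zero (l : ℝ) (z w : ℂ) : Zf l 0 z w = z := by simp [Zf, Cf_zero, Sf_zero]
lemma Wf_zero (l : ℝ) (z w : ℂ) : Wf l 0 z w = w := by simp [Wf, Cf_zero, Sf_zero]
lemma Tf_zero (l : ℝ) (z w : ℂ) : Tf l 0 z w = 0 := by simp [Tf]

end Pool.Agent.Lib.MP_e310f3_mp.Gap
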