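import Pool.Agent.Lib.MP_e310f3_mp.Gap.DeepX
import Pool.Agent.Lib.MP_e310f3_mp.Gap.Dir
import Pool.Agent.Lib.MP_e310f3_mp.Gap.Asy
import Pool.Agent.Lib.MP_e310f3_mp.Gap.Alg1

open Complex Filter Topology Set

noncomputable section

namespace Pool.Agent.Lib.MP_e310f3_mp.Gap

lemma g_le {κ θ : ℝ} (hκ : 0 < κ) (hκ1 : κ ≤ 1 / 10) (h : κ ≤ θ) :
    1 ≤ 1 + κ ^ 4 ∧ 1 + κ ^ 4 ≤ 1 + θ := by
  have := k4_le hκ hκ1
  have : 0 < κ ^ 4 := by positivity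
  constructor <;> linarith

lemma a_le_aa {κ : ℝ} {S : Sys κ} {t : ℝ} (h : S.CV t) : S.a t ≤ aa ‖S.y1 t‖ :=
  aa_anti (norm_pos_iff.2 (S.ny1 t)) h.y1hi

lemma y21_le {κ θ : ℝ} {S : Sys κ} {t : ℝ} (h : S.CV t) (hκ : 0 < κ) (hρ : S.rho t = κ * S.R t)
    (hθ : κ ≤ θ / 4) : ‖S.y2 t - S.y1 t‖ ≤ θ * ‖S.y1 t‖ := by
  rw [norm_sub_rev]
  have h1 := h.y12
  have h2 := h.y1lo
  have h3 := S.R_pos t
  rw [hρ] at h1
  nlinarith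

lemma fast_u {κ η : ℝ} {S : Sys κ} {t : ℝ} (h : S.CV t) (hη : 0 < η) (hκ : κ ≤ η / 4)
    (hp : η * aa ‖S.y1 t‖ ≤ ‖S.p1 t - S.p2 t‖) : η / 2 * S.a t ≤ ‖S.u1 t - S.u2 t‖ := by
  have h1 := mul_le_mul_of_nonneg_left (a_le_aa h) hη.le
  have e : S.p1 t - S.p2 t = (S.u1 t - S.u2 t) + (S.p1 t - S.u1 t) - (S.p2 t - S.u2 t) := by ring
  have h2 : ‖S.p1 t - S.p2 t‖ ≤ ‖S.u1 t - S.u2 t‖ + ‖S.p1 t - S.u1 t‖ + ‖S.p2 t - S.u2 t‖ := by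
    rw [e]; exact (norm_sub_le _ _).trans (add_le_add (norm_add_le _ _) le_rfl)
  have h3 := h.pu1
  have h4 := h.pu2
  have h5 := S.one_le_a t
  nlinarith

lemma K_of_J {κ c : ℝ} {S : Sys κ} {t : ℝ} (h : S.CV t) (hc : 0 < c) (hκ : κ ≤ c / 2)
    (hJ : c * (S.R t * S.a t) ≤ S.J t) :
    c / 2 * (‖S.y1 t‖ * aa ‖S.y1 t‖) ≤ dot (S.y1 t) (S.p1 t) + dot (S.y2 t) (S.p2 t) := by
  have h1 := (abs_le.1 h.JK).2
  have h2 : ‖S.y1 t‖ * aa ‖S.y1 t‖ ≤ S.R t * S.a t :=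
    mul_aa_mono (norm_pos_iff.2 (S.ny1 t)) h.y1hi
  have hp : 0 < S.R t * S.a t := mul_pos (S.R_pos _) (by linarith [S.one_le_a t])
  unfold Sys.K1 Sys.K2 at h1
  nlinarith

/-- momenta after a slow encounter -/
lemma slow_p {p1 p2 q1 q2 : ℂ} {θ e ϑ a A : ℝ} (hθ : 0 < θ) (he : 0 < e) (ha : 0 < a) (haA : a ≤ A)
    (hϑ : ϑ ≤ θ / 2) (he1 : e ≤ θ / 2) (he2 : e ≤ θ ^ 2 / 2) (hs : ‖p1 - p2‖ ≤ ϑ * A)
    (h1 : ‖(-q1 + -q2) - (-p1 + -p2)‖ ≤ e * a)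
    (h2 : |‖-q1 - -q2‖ ^ 2 - ‖-p1 - -p2‖ ^ 2| ≤ e * a ^ 2) :
    ‖q1 - p1‖ ≤ θ * A ∧ ‖q2 - p1‖ ≤ θ * A := by
  have hA : 0 < A := by linarith
  have e1 : ‖-q1 - -q2‖ = ‖q1 - q2‖ := by rw [← norm_neg]; congr 1; ring
  have e2 : ‖-p1 - -p2‖ = ‖p1 - p2‖ := by rw [← norm_neg]; congr 1; ring
  have e3 : ‖(-q1 + -q2) - (-p1 + -p2)‖ = ‖(q1 + q2) - (p1 + p2)‖ := by
    rw [← norm_neg]; congr 1; ring
  rw [e1, e2] at h2
  rw [e3] at h1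
  have hs' : ‖p1 - p2‖ ≤ θ / 2 * A := hs.trans (mul_le_mul_of_nonneg_right hϑ hA.le)
  have h3 : ‖p1 - p2‖ ^ 2 ≤ (θ / 2 * A) ^ 2 := pow_le_pow_left₀ (norm_nonneg _) hs' 2
  have h4 : e * a ^ 2 ≤ θ ^ 2 / 2 * A ^ 2 :=
    mul_le_mul he2 (pow_le_pow_left₀ ha.le haA 2) (by positivity) (by positivity)
  have h5 : ‖q1 - q2‖ ≤ θ * A := by
    refine (pow_le_pow_iff_left₀ (norm_nonneg _) (by positivity) two_ne_zero).1 ?_
    have := (abs_le.1 h2).2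
    nlinarith [sq_nonneg (θ * A)]
  have h6 : e * a ≤ θ / 2 * A := mul_le_mul he1 haA ha.le (by positivity)
  have n2 : ∀ z : ℂ, ‖2 * z‖ = 2 * ‖z‖ := fun z => by rw [norm_mul]; simp
  constructor
  · have e4 : 2 * (q1 - p1) = ((q1 + q2) - (p1 + p2)) + (q1 - q2) - (p1 - p2) := by ring
    have := (norm_sub_le _ _).trans (add_le_add (norm_add_le ((q1 + q2) - (p1 + p2)) (q1 - q2))
      (le_refl ‖p1 - p2‖))
    rw [← e4, n2] at this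
    linarith
  · have e4 : 2 * (q2 - p1) = ((q1 + q2) - (p1 + p2)) - (q1 - q2) - (p1 - p2) := by ring
    have := (norm_sub_le _ _).trans (add_le_add (norm_sub_le ((q1 + q2) - (p1 + p2)) (q1 - q2))
      (le_refl ‖p1 - p2‖))
    rw [← e4, n2] at this
    linarith

lemma nu_sep {b ν1 ν2 : ℂ} {δ : ℝ} (h1 : ‖ν1 - b‖ ≤ 3 * δ) (h2 : ‖ν2 - (starRingEnd ℂ) b‖ ≤ 3 * δ)
    (hδ : 4 * δ ≤ b.im) : b.im / 2 ≤ ‖ν1 - ν2‖ := by
  have a1 := (abs_le.1 ((Complex.abs_im_le_norm _).trans h1)).1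
  have a2 := (abs_le.1 ((Complex.abs_im_le_norm _).trans h2)).2
  have a3 := (le_abs_self _).trans (Complex.abs_im_le_norm (ν1 - ν2))
  simp only [Complex.sub_im, Complex.conj_im] at a1 a2 a3
  linarith

lemma nu_near {b ν1 ν2 : ℂ} {δ θ : ℝ} (h1 : ‖ν1 - b‖ ≤ 3 * δ)
    (h2 : ‖ν2 - (starRingEnd ℂ) b‖ ≤ 3 * δ) (hb : ‖b + 1‖ ≤ θ / 2) (hδ : δ ≤ θ / 6) :
    ‖ν1 + 1‖ ≤ θ ∧ ‖ν2 + 1‖ ≤ θ := by
  have hb' : ‖(starRingEnd ℂ) b + 1‖ ≤ θ / 2 := by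
    rw [← Complex.norm_conj] at hb; simpa using hb
  constructor
  · have := norm_add_le (ν1 - b) (b + 1)
    rw [show ν1 - b + (b + 1) = ν1 + 1 by ring] at this; linarith
  · have := norm_add_le (ν2 - (starRingEnd ℂ) b) ((starRingEnd ℂ) b + 1)
    rw [show ν2 - (starRingEnd ℂ) b + ((starRingEnd ℂ) b + 1) = ν2 + 1 by ring] at this; linarith

theorem nond {r : ℝ} (hr : 0 < r) : ∃ δ0 > 0, ∀ b : ℂ, ‖b‖ = 1 → ‖b + 1‖ ≤ δ0 → 0 < b.im →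
    ∃ δ1 > 0, Small fun κ => ∀ (S : Sys κ) (δ : ℝ), 0 < δ → δ ≤ δ1 → S.In → S.Out b δ →
    ¬ S.DeepC r → False := by
  obtain ⟨θf, hθf, η0, hη0, hfs⟩ := fs
  obtain ⟨θs, hθs, hse⟩ := se
  obtain ⟨τ1, hτ1, hstep⟩ := step (η := η0 / 2) (by positivity)
  obtain ⟨ca, hca, ea, hea, ha⟩ := all_a (η := η0 / 2 / 2) (by positivity)
  obtain ⟨cb, hcb, hcb1, eb, heb, hnext⟩ := next_enc (η := η0 / 2 / 2) (by positivity) hτ1
  obtain ⟨rs, hrs, rs1, rs2⟩ : ∃ rs > 0, rs ≤ r / 2 ∧ rs ≤ ca * (r / 2) :=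
    ⟨min (r / 2) (ca * (r / 2)), by positivity, min_le_left _ _, min_le_right _ _⟩
  obtain ⟨θA, hθA, A1, A2, A3⟩ : ∃ θA > 0, θA ≤ θs ∧ θA ≤ θf ∧ θA ≤ 1 / 10 :=
    ⟨min (min θs θf) (1 / 10), by positivity, by simp, by simp, min_le_right _ _⟩
  obtain ⟨θ1, hθ1, hoc1⟩ := oc_prop hrs hθA
  obtain ⟨θp, hθp, hpr⟩ := pr (r := rs / 2) (by positivity) hθ1
  obtain ⟨θd, hθd, hdi⟩ := di (ϑ := min (θp / 2) (cb / 4)) (by positivity)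
  obtain ⟨θ3, hθ3, hoc3⟩ := oc_prop (θ := min θd θp) hrs (by positivity)
  obtain ⟨θv, hθv, hdv⟩ := dv (ϑ := min θ1 θ3) (by positivity)
  refine ⟨θv / 2, by positivity, fun b hb hb1 hbi => ?_⟩
  obtain ⟨θl, hθl, ηl, hηl, hsl⟩ := sl (c := cb / 2) (γ := b.im / 2) (by positivity) (by positivity)
  obtain ⟨θ4, hθ4, hoc4⟩ := oc_prop hrs hθl
  obtain ⟨δ1, hδ1, hout⟩ := out_oc (θ := min θv θ4) (by positivity)
  obtain ⟨τL, hτL, hstepL⟩ := step (η := ηl / 2) (by positivity)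
  obtain ⟨cL, hcL, -, eL, heL, hnextL⟩ := next_enc (η := ηl / 2 / 2) (by positivity) hτL
  obtain ⟨e, he, e1, e2, e3, e4, e5, e6, e7⟩ : ∃ e > 0, e ≤ ea ∧ e ≤ eb ∧ e ≤ eL ∧ e ≤ θs ∧
      e ≤ θp / 2 ∧ e ≤ θp ^ 2 / 2 ∧ e ≤ 1 / 10 := by
    refine ⟨min (min (min ea eb) (min eL θs)) (min (min (θp / 2) (θp ^ 2 / 2)) (1 / 10)),
      by positivity, ?_⟩
    simp only [min_le_iff, le_refl, true_or, or_true, and_self]
  obtain ⟨k0, hk0, k1, k2, k3, k4, k5, k6, k7, k8⟩ : ∃ k > 0, k ≤ θA / 4 ∧ k ≤ η0 / 4 ∧ k ≤ ηl / 4 ∧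
      k ≤ cb / 2 ∧ k ≤ θd / 4 ∧ k ≤ θl / 4 ∧ k ≤ θp ∧ k ≤ 1 / 10 := by
    refine ⟨min (min (min (θA / 4) (η0 / 4)) (min (ηl / 4) (cb / 2)))
      (min (min (θd / 4) (θl / 4)) (min θp (1 / 10))), by positivity, ?_⟩
    simp only [min_le_iff, le_refl, true_or, or_true, and_self]
  refine ⟨min (min δ1 (b.im / 4)) (θv / 6), by positivity, ?_⟩
  refine ((((((hstep e he).and (hstepL e he)).and (ha.and (hnext.and hnextL))).and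
    ((hoc1.and hoc3).and (hoc4.and hout))).and ((in_oc (θ := min θ1 (1 / 10)) (by positivity)).and
    (in_free.and (out_free hbi)))).and (small_le hk0)).mono ?_
  rintro κ ⟨⟨⟨⟨⟨hstep, hstepL⟩, ha, hnext, hnextL⟩, ⟨hoc1, hoc3⟩, hoc4, hout⟩, hin, hfi, hfo⟩,
    hκ, hκ0⟩ S δ hδ hδ' hI hO hD
  have hκ1 : κ ≤ 1 / 10 := by linarith
  have d1 : δ ≤ δ1 := hδ'.trans ((min_le_left _ _).trans (min_le_left _ _))
  have d2 : 4 * δ ≤ b.im := by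
    have := hδ'.trans ((min_le_left _ _).trans (min_le_right _ _)); linarith
  have d3 : δ ≤ θv / 6 := hδ'.trans (min_le_right _ _)
  obtain ⟨ν1, ν2, n1, n2, n3, n4, hev⟩ := hout S b δ hb hδ d1 d2 hO
  obtain ⟨n5, n6⟩ := nu_near n3 n4 hb1 d3
  have n7 := nu_sep n3 n4 d2
  have hm1 : ‖(-1 : ℂ)‖ = 1 := by simp
  have hhalf : (1 / 2 : ℝ) ∈ Icc (1 / 60 : ℝ) 1 := by constructor <;> norm_num
  have hg := (g_le hκ hκ1 (le_refl κ)).1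
  have hg2 : 1 + κ ^ 4 ≤ 2 := by have := k4_le hκ hκ1; linarith
  -- outgoing anchors
  have hT : ∀ s, ∃ T, s ≤ T ∧ S.t0 ≤ T ∧
      (OC (1 + κ ^ 4) θ4 (S.y1 T) (S.p1 T) ν1 (1 / 2) ∧ OC (1 + κ ^ 4) θ4 (S.y2 T) (S.p2 T) ν2 (1 / 2)) ∧
      (OC (1 + κ ^ 4) (min θ1 θ3) (S.y1 T) (S.p1 T) (-1) (1 / 2) ∧
        OC (1 + κ ^ 4) (min θ1 θ3) (S.y2 T) (S.p2 T) (-1) (1 / 2)) := by
    intro s
    obtain ⟨T, ⟨⟨h1, h2⟩, h3⟩, h4⟩ :=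
      ((hev.and (eventually_ge_atTop s)).and (eventually_ge_atTop S.t0)).exists
    exact ⟨T, h3, h4, ⟨h1.mono (min_le_right _ _), h2.mono (min_le_right _ _)⟩,
      hdv _ _ _ _ hg hg2 (S.ny1 T) n1 n5 (h1.mono (min_le_left _ _)),
      hdv _ _ _ _ hg hg2 (S.ny2 T) n2 n6 (h2.mono (min_le_left _ _))⟩
  have back1 : ∀ s t, (∀ τ ∈ Icc s t, rs ≤ S.R τ) → s ≤ t → S.t0 ≤ t → S.Free s t →
      OC (1 + κ ^ 4) θ1 (S.y1 t) (S.p1 t) (-1) (1 / 2) →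
      OC (1 + κ ^ 4) θ1 (S.y2 t) (S.p2 t) (-1) (1 / 2) →
      OC (1 + κ ^ 4) θA (S.y1 s) (S.p1 s) (-1) (1 / 2) ∧
        OC (1 + κ ^ 4) θA (S.y2 s) (S.p2 s) (-1) (1 / 2) :=
    fun s t h1 h2 h3 h4 h5 h6 => hoc1 S s t _ _ _ _ h1 h2 h3 h4 hm1 hm1 hhalf hhalf h5 h6
  have hnd : ∀ t, t ≤ S.t0 → (∀ τ, τ < t → κ * S.R τ < S.rho τ) → r < S.R t := by
    intro t h1 h2
    by_contra h
    exact hD ⟨t, h1, h2, not_lt.1 h⟩
  by_cases hx : ∃ t, S.rho t ≤ κ * S.R t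
  swap
  · -- no encounter
    push Not at hx
    have h0 := hnd S.t0 le_rfl fun τ _ => hx τ
    obtain ⟨T', h1, -⟩ := (hin S hI).exists
    obtain ⟨T, h2, h3, -, h4, h5⟩ := hT (-T')
    obtain ⟨h6, -⟩ := back1 (-T') T (fun τ _ => by linarith [S.R_min τ]) h2 h3
      (fun τ _ => (hx τ).le) (h4.mono (min_le_left _ _)) (h5.mono (min_le_left _ _))
    have h7 := (abs_le.1 h6.1).1
    have h8 := (abs_le.1 (h1.mono (min_le_right _ _)).1).2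
    have e8 : hh (1 + κ ^ 4) (S.rev.y1 T') (S.rev.p1 T')
        = hh (1 + κ ^ 4) (S.y1 (-T')) (S.p1 (-T')) := by simp [hh]
    rw [e8] at h8
    linarith
  obtain ⟨t, ht⟩ := hx
  obtain ⟨t1, -, h1, hb1'⟩ := S.first_enc_bot (hfi S.toSol hI) ht
  have hf1 : ∀ τ, τ ≤ t1 → κ * S.R τ ≤ S.rho τ := fun τ hτ => by
    rcases hτ.lt_or_eq with h | h
    · exact (hb1' τ h).le
    · rw [h]; exact h1.ge
  have L1 : ∀ τ, τ ≤ t1 → r ≤ S.R τ := by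
    intro τ hτ
    rcases le_or_gt t1 S.t0 with h | h
    · exact (hnd t1 h hb1').le.trans (S.R_anti hτ h)
    · exact (hnd S.t0 le_rfl fun σ hσ => hb1' σ (by linarith)).le.trans (S.R_min τ)
  have cvq : ∀ τ, S.rho τ = κ * S.R τ → S.CV τ := fun τ h => cv_of S hκ hκ1 h.ge h.le hκ1
  -- incoming data at the first encounter
  obtain ⟨i1, i2⟩ : OC (1 + κ ^ 4) θA (S.y1 t1) (-S.p1 t1) 1 (1 / 50) ∧
      OC (1 + κ ^ 4) θA (S.y2 t1) (-S.p2 t1) (-1) (49 / 50) := by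
    obtain ⟨T, ⟨⟨h2, h3⟩, h4⟩, h5⟩ :=
      (((hin S hI).and (eventually_ge_atTop (-t1))).and (eventually_ge_atTop (-S.t0))).exists
    have := hoc1 S.rev (-t1) T (1 / 50) (49 / 50) 1 (-1)
      (fun τ hτ => by
        have := L1 (-τ) (by linarith [hτ.1])
        show rs ≤ S.R (-τ)
        linarith) h4 h5
      (fun τ hτ => hf1 (-τ) (by linarith [hτ.1])) (by simp) hm1
      (by constructor <;> norm_num) (by constructor <;> norm_num)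
      (h2.mono (min_le_left _ _)) (h3.mono (min_le_left _ _))
    simpa using this
  have cv1 := cvq t1 h1
  have hf := hfs _ _ _ _ _ hg (g_le hκ hκ1 (by linarith)).2 (S.ny1 t1)
    (y21_le cv1 hκ h1 (by linarith)) (i1.mono A2) (i2.mono A2)
  obtain ⟨s1, hs1, a1, a2, a3, a4, a5⟩ := hstep S t1 h1 (fast_u cv1 hη0 (by linarith) hf)
  have Af := aft_of_step hs1 a1 a2 a3 a4
  have L2 : ∀ τ ∈ Icc t1 s1, r / 2 ≤ S.R τ := fun τ hτ => by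
    have := half_le_of_abs (a4 τ hτ).1 (by linarith) (S.R_pos t1)
    linarith [L1 t1 le_rfl]
  have L3 : ∀ t, s1 ≤ t → S.Free s1 t → ∀ τ ∈ Icc s1 t, rs ≤ S.R τ := fun t h2 h3 τ hτ => by
    have h4 := ha S s1 t h2 h3 (Af.mono e1).le Af.fast τ hτ
    have h5 := mul_le_mul_of_nonneg_left (L2 s1 ⟨hs1.le, le_rfl⟩) hca.le
    linarith
  -- the single encounter contradiction
  have fin1 : OC (1 + κ ^ 4) θA (S.y1 s1) (S.p1 s1) (-1) (1 / 2) ∧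
      OC (1 + κ ^ 4) θA (S.y2 s1) (S.p2 s1) (-1) (1 / 2) → False := by
    rintro ⟨o1, o2⟩
    obtain ⟨-, b1, b2, b3, -, -⟩ := a5 s1 ⟨hs1.le, le_rfl⟩ a1.le
    have hy := norm_nonneg (S.y1 t1)
    refine hse _ _ _ _ _ _ _ _ _ hg (g_le hκ hκ1 (by linarith)).2 (S.ny1 t1)
      (y21_le cv1 hκ h1 (by linarith)) (b1.trans (mul_le_mul_of_nonneg_right e4 hy))
      (b2.trans (mul_le_mul_of_nonneg_right e4 hy)) (b3.trans ?_) (i1.mono A1) (i2.mono A1)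
      (o1.mono A1) (o2.mono A1)
    exact mul_le_mul e4 (a_le_aa cv1) (by linarith [S.one_le_a t1]) hθs.le
  rcases hnext S s1 (Af.mono e2) with ⟨hF, -⟩ | ⟨t2, hs2, h2, F2, -, J2, h02, -⟩
  · obtain ⟨T, c1, c2, -, c3, c4⟩ := hT s1
    have hF' : S.Free s1 T := fun τ hτ => hF τ hτ.1
    exact fin1 (back1 s1 T (L3 T c1 hF') c1 c2 hF' (c3.mono (min_le_left _ _))
      (c4.mono (min_le_left _ _)))
  have L4 : ∀ τ, rs ≤ S.R τ := by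
    intro τ
    refine le_trans ?_ (S.R_min τ)
    rcases le_or_gt S.t0 t1 with h | h
    · linarith [L1 _ h]
    rcases le_or_gt S.t0 s1 with h' | h'
    · linarith [L2 _ ⟨h.le, h'⟩]
    · exact L3 t2 hs2.le F2 _ ⟨h'.le, h02.le⟩
  obtain ⟨tL, h2L, hL, hL'⟩ := S.last_enc_top (hfo S.toSol b δ hb hδ le_rfl d2 hO) h2.le
  have cvL := cvq tL hL
  have KL := K_of_J cvL hcb (by linarith) (S.vir_persist h02.le h2L hcb.le hcb1 J2)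
  obtain ⟨T, c1, c2, ⟨c3, c4⟩, c5, c6⟩ := hT tL
  have FL : S.Free tL T := fun τ hτ => by
    rcases hτ.1.lt_or_eq with h | h
    · exact (hL' τ h).le
    · rw [← h]; exact hL.ge
  obtain ⟨o1, o2⟩ := hoc4 S tL T _ _ _ _ (fun τ _ => L4 τ) c1 c2 FL n1 n2 hhalf hhalf c3 c4
  obtain ⟨o3, o4⟩ := hoc3 S tL T _ _ _ _ (fun τ _ => L4 τ) c1 c2 FL hm1 hm1 hhalf hhalf
    (c5.mono (min_le_right _ _)) (c6.mono (min_le_right _ _))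
  have hfL := hsl _ _ _ _ _ _ _ hg (g_le hκ hκ1 (by linarith)).2 (S.ny1 tL)
    (y21_le cvL hκ hL (by linarith)) n1 n2 n7 o1 o2 KL
  have hyL : 0 < ‖S.y1 tL‖ := norm_pos_iff.2 (S.ny1 tL)
  have hslow : ‖S.p1 tL - S.p2 tL‖ ≤ min (θp / 2) (cb / 4) * aa ‖S.y1 tL‖ := by
    rcases hdi _ _ _ _ _ hg (g_le hκ hκ1 (by linarith)).2 (S.ny1 tL)
      (y21_le cvL hκ hL (by linarith)) (o3.mono (min_le_left _ _)) (o4.mono (min_le_left _ _))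
      with h | h
    · exact h
    · have hp : 0 < ‖S.y1 tL‖ * aa ‖S.y1 tL‖ := mul_pos hyL (by linarith [one_le_aa hyL])
      have h3 := mul_le_mul_of_nonneg_right (min_le_right (θp / 2) (cb / 4)) hp.le
      have h4 := mul_pos hcb hp
      linarith
  have hfu := fast_u cvL hηl (by linarith) hfL
  obtain ⟨s', hs', q1, q2, q3, q4, q5⟩ := hstepL S.rev (-tL) (by simpa using hL) (by
    have e : ‖S.rev.u1 (-tL) - S.rev.u2 (-tL)‖ = ‖S.u1 tL - S.u2 tL‖ := by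
      rw [← norm_neg]; simp; congr 1; ring
    rw [e]; simpa using hfu)
  have Ar := aft_of_step hs' q1 q2 q3 q4
  have hlt : -t2 ≤ s' := by
    by_contra hlt
    have hlt := not_le.1 hlt
    have hen : S.rev.rho (-t2) = κ * S.rev.R (-t2) := by simpa using h2
    rcases hnextL S.rev s' (Ar.mono e3) with ⟨-, hF⟩ | ⟨u, -, -, -, -, -, hu, hu'⟩
    · exact (hF (-t2) hlt.le).ne' hen
    · have h3 : u ≤ -t2 := by
        by_contra h3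
        exact (hu' (-t2) ⟨hlt.le, not_le.1 h3⟩).ne' hen
      have h4 : -S.t0 < u := hu
      linarith
  obtain ⟨-, b1, b2, b3, b4, -⟩ := q5 (-t2) ⟨by linarith, hlt⟩ (by simpa using h2.ge)
  simp only [Sys.rev_y1, Sys.rev_y2, Sys.rev_p1, Sys.rev_p2, Sys.rev_toSol, Sol.rev_a, neg_neg]
    at b1 b2 b3 b4
  obtain ⟨w1, w2⟩ := slow_p hθp he (by linarith [S.one_le_a tL]) (a_le_aa cvL) (min_le_left _ _)
    e5 e6 hslow b3 b4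
  have hrL : rs / 2 ≤ ‖S.y1 tL‖ := by linarith [cvL.y1lo, L4 tL]
  have he' : e ≤ θp := by linarith
  have z1 := hpr _ _ _ _ _ hg (g_le hκ hκ1 (by linarith)).2 hrL
    (b1.trans (mul_le_mul_of_nonneg_right he' hyL.le)) w1 (o3.mono (min_le_right _ _))
  have z2 := hpr _ _ _ _ _ hg (g_le hκ hκ1 (by linarith)).2 hrL
    (b2.trans (mul_le_mul_of_nonneg_right he' hyL.le)) w2 (o3.mono (min_le_right _ _))
  exact fin1 (back1 s1 t2 (fun τ _ => L4 τ) hs2.le h02.le F2 z1 z2)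

end Pool.Agent.Lib.MP_e310f3_mp.Gap
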