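import Pool.Agent.Lib.MP_e310f3_mp.Gap.Vir

open Complex Filter Topology Set

noncomputable section

namespace Pool.Agent.Lib.MP_e310f3_mp.Gap

namespace Red

/-- logarithmic derivative of r / (1 + c r) along a path -/
def nn (c : ℝ) (x v : ℂ) : ℝ := dot x v / (‖x‖ ^ 2 * (1 + c * ‖x‖))

lemma abs_nn {c : ℝ} (hc : 0 ≤ c) {x : ℂ} (hx : x ≠ 0) (v : ℂ) : |nn c x v| ≤ ‖v‖ / ‖x‖ := by
  have hr : 0 < ‖x‖ := norm_pos_iff.2 hx
  rw [nn, abs_div, abs_of_pos (by positivity : 0 < ‖x‖ ^ 2 * (1 + c * ‖x‖)),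
    div_le_div_iff₀ (by positivity) hr]
  have h1 := mul_le_mul_of_nonneg_right (abs_dot_le x v) hr.le
  have h2 : 0 ≤ ‖v‖ * ‖x‖ ^ 2 * (c * ‖x‖) := by positivity
  nlinarith

lemma d_m {c : ℝ} (hc : 0 ≤ c) {x : ℝ → ℂ} {v : ℂ} {t : ℝ} (hx : HasDerivAt x v t)
    (h0 : x t ≠ 0) : HasDerivAt (fun τ => ‖x τ‖ / (1 + c * ‖x τ‖))
      (nn c (x t) v * (‖x t‖ / (1 + c * ‖x t‖))) t := by
  have hr : 0 < ‖x t‖ := norm_pos_iff.2 h0
  have h := hasDerivAt_norm hx h0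
  refine (h.div ((h.const_mul c).const_add 1) (by positivity)).congr_deriv ?_
  rw [nn]
  field_simp
  ring

lemma d_nn {c : ℝ} (hc : 0 ≤ c) {x v : ℝ → ℂ} {a : ℂ} {t : ℝ} (hx : HasDerivAt x (v t) t)
    (hv : HasDerivAt v a t) (h0 : x t ≠ 0) : ∃ n', HasDerivAt (fun τ => nn c (x τ) (v τ)) n' t ∧
      |n'| ≤ 4 * ‖v t‖ ^ 2 / ‖x t‖ ^ 2 + ‖a‖ / ‖x t‖ := by
  have hr : 0 < ‖x t‖ := norm_pos_iff.2 h0
  have h := hasDerivAt_norm hx h0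
  have h1 := (hasDerivAt_dot hx hv).div ((hasDerivAt_normSq hx).mul
    ((h.const_mul c).const_add 1)) (by positivity : ‖x t‖ ^ 2 * (1 + c * ‖x t‖) ≠ 0)
  refine ⟨(‖v t‖ ^ 2 + dot (x t) a) / ‖x t‖ ^ 2 * (1 / (1 + c * ‖x t‖)) -
    dot (x t) (v t) ^ 2 / ‖x t‖ ^ 4 * ((2 + 3 * (c * ‖x t‖)) / (1 + c * ‖x t‖) ^ 2),
    h1.congr_deriv ?_, ?_⟩
  · simp only [dot_self, Pi.mul_apply]
    field_simp
    ring
  have hw : 0 ≤ c * ‖x t‖ := by positivity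
  generalize c * ‖x t‖ = w at hw
  have a1 : 1 / (1 + w) ≤ 1 := by rw [div_le_one (by positivity)]; linarith
  have a2 : (2 + 3 * w) / (1 + w) ^ 2 ≤ 3 := by rw [div_le_iff₀ (by positivity)]; nlinarith
  have a3 : |(‖v t‖ ^ 2 + dot (x t) a) / ‖x t‖ ^ 2| ≤ ‖v t‖ ^ 2 / ‖x t‖ ^ 2 + ‖a‖ / ‖x t‖ := by
    rw [abs_div, abs_of_pos (by positivity : 0 < ‖x t‖ ^ 2), div_le_iff₀ (by positivity)]
    refine (abs_add_le _ _).trans ?_
    rw [abs_of_nonneg (by positivity : 0 ≤ ‖v t‖ ^ 2)]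
    refine (add_le_add le_rfl (abs_dot_le _ _)).trans (le_of_eq ?_)
    field_simp
  have a4 : dot (x t) (v t) ^ 2 / ‖x t‖ ^ 4 ≤ ‖v t‖ ^ 2 / ‖x t‖ ^ 2 := by
    rw [div_le_div_iff₀ (by positivity) (by positivity)]
    have := dot_sq_add_cross_sq (x t) (v t)
    have := mul_le_mul_of_nonneg_right (show dot (x t) (v t) ^ 2 ≤ ‖x t‖ ^ 2 * ‖v t‖ ^ 2 by
      nlinarith [sq_nonneg (cross (x t) (v t))]) (by positivity : 0 ≤ ‖x t‖ ^ 2)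
    linarith
  refine (abs_sub _ _).trans ?_
  rw [abs_mul, abs_of_pos (by positivity : 0 < 1 / (1 + w)), abs_of_nonneg
    (by positivity : 0 ≤ dot (x t) (v t) ^ 2 / ‖x t‖ ^ 4 * ((2 + 3 * w) / (1 + w) ^ 2))]
  have a5 := mul_le_mul a3 a1 (by positivity) (by positivity)
  have a6 := mul_le_mul a4 a2 (by positivity) (by positivity)
  have : 4 * ‖v t‖ ^ 2 / ‖x t‖ ^ 2 = 4 * (‖v t‖ ^ 2 / ‖x t‖ ^ 2) := by ring
  linarith

/-- the interpolation weight -/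
def bb (m r : ℝ) : ℝ := m ^ 4 / (m ^ 4 + r ^ 4)

lemma d_bb {m r : ℝ → ℝ} {n1 n2 t : ℝ} (hm : HasDerivAt m (n1 * m t) t)
    (hr : HasDerivAt r (n2 * r t) t) (h0 : 0 < m t) : HasDerivAt (fun τ => bb (m τ) (r τ))
      (4 * (n1 - n2) * (bb (m t) (r t) * (1 - bb (m t) (r t)))) t := by
  have h1 : 0 < m t ^ 4 + r t ^ 4 := by positivity
  refine ((hm.pow 4).div ((hm.pow 4).add (hr.pow 4)) h1.ne').congr_deriv ?_
  simp only [bb, Pi.pow_apply, Pi.add_apply]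
  field_simp
  ring

/-- the monomial inequalities -/
lemma mono {m r σ i : ℝ} (hm : 0 < m) (hr : 0 < r) (hσ : σ = 1 / (m + r)) (hi : i = 1 / m + 1 / r) :
    (0 ≤ bb m r ∧ bb m r ≤ 1 ∧ bb m r * r ≤ m) ∧ (bb m r * r / m ^ 3 ≤ 8 * σ ^ 2 ∧
      (1 - bb m r) / r ^ 2 ≤ 8 * σ ^ 2 ∧ bb m r / m ^ 2 ≤ 8 * σ ^ 2) ∧
      (bb m r * (1 - bb m r) * i ≤ 64 * σ ∧ bb m r * (1 - bb m r) * i ^ 2 ≤ 64 * σ ^ 2) ∧
      bb m r * (1 - bb m r) * r * i ≤ 64 ∧ bb m r * (1 - bb m r) * r * i ^ 2 ≤ 64 * σ ∧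
      bb m r * (1 - bb m r) * r * i ^ 3 ≤ 64 * σ ^ 2 := by
  have h1 : 0 < m ^ 4 + r ^ 4 := by positivity
  have h2 : (m + r) ^ 4 ≤ 8 * (m ^ 4 + r ^ 4) := by
    have a1 : (m + r) ^ 2 ≤ 2 * (m ^ 2 + r ^ 2) := by nlinarith [sq_nonneg (m - r)]
    have a2 := pow_le_pow_left₀ (by positivity) a1 2
    nlinarith [sq_nonneg (m ^ 2 - r ^ 2)]
  have e : 1 - bb m r = r ^ 4 / (m ^ 4 + r ^ 4) := by
    rw [bb]
    field_simp
    ring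
  have key : ∀ u : ℝ, u ^ 4 / (m ^ 4 + r ^ 4) ≤ 8 * (u * σ) ^ 4 := fun u => by
    rw [hσ, mul_one_div, div_pow, ← mul_div_assoc, div_le_div_iff₀ h1 (by positivity)]
    nlinarith [mul_le_mul_of_nonneg_left h2 (by positivity : 0 ≤ u ^ 4)]
  have b0 : 0 ≤ bb m r := by rw [bb]; positivity
  have b1 : 0 ≤ 1 - bb m r := by rw [e]; positivity
  have b2 : bb m r * r ≤ m := by
    rw [bb, div_mul_eq_mul_div, div_le_iff₀ h1]
    rcases le_total r m with h | h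
    · nlinarith [mul_le_mul_of_nonneg_left h (by positivity : 0 ≤ m ^ 4),
        (by positivity : 0 ≤ m * r ^ 4)]
    · nlinarith [mul_le_mul_of_nonneg_left (pow_le_pow_left₀ hm.le h 3)
        (by positivity : 0 ≤ m * r), (by positivity : 0 ≤ m ^ 5)]
  have hx : bb m r ≤ 8 * (m * σ) ^ 4 := key m
  have hy : 1 - bb m r ≤ 8 * (r * σ) ^ 4 := e ▸ key r
  have s0 : 0 < σ := by rw [hσ]; positivity
  have x1 : m * σ ≤ 1 := by rw [hσ, mul_one_div, div_le_one (by positivity)]; linarith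
  have y1 : r * σ ≤ 1 := by rw [hσ, mul_one_div, div_le_one (by positivity)]; linarith
  have i1 : i = σ / (m * σ * (r * σ)) := by rw [hi, hσ]; field_simp; ring
  have hP : bb m r * (1 - bb m r) ≤ 8 * (m * σ) ^ 4 * (8 * (r * σ) ^ 4) :=
    mul_le_mul hx hy b1 (by positivity)
  have mon : ∀ (j k : ℕ) (C : ℝ), 0 ≤ C → C * ((m * σ) ^ j * (r * σ) ^ k) ≤ C := fun j k C hC =>
    mul_le_of_le_one_right hC (mul_le_one₀ (pow_le_one₀ (by positivity) x1) (by positivity)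
      (pow_le_one₀ (by positivity) y1))
  have i0 : 0 < i := by rw [hi]; positivity
  refine ⟨⟨b0, by linarith, b2⟩, ⟨?_, ?_, ?_⟩, ⟨?_, ?_⟩, ?_, ?_, ?_⟩
  · refine le_trans ?_ (mon 1 1 _ (by positivity))
    refine (div_le_div_of_nonneg_right (mul_le_mul_of_nonneg_right hx hr.le)
      (by positivity)).trans (le_of_eq ?_)
    field_simp
  · refine le_trans ?_ (mon 0 2 _ (by positivity))
    refine (div_le_div_of_nonneg_right hy (by positivity)).trans (le_of_eq ?_)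
    field_simp
  · refine le_trans ?_ (mon 2 0 _ (by positivity))
    refine (div_le_div_of_nonneg_right hx (by positivity)).trans (le_of_eq ?_)
    field_simp
  · refine le_trans ?_ (mon 3 3 _ (by positivity))
    refine (mul_le_mul_of_nonneg_right hP i0.le).trans (le_of_eq ?_)
    rw [i1]
    field_simp
    norm_num
  · refine le_trans ?_ (mon 2 2 _ (by positivity))
    refine (mul_le_mul_of_nonneg_right hP (by positivity)).trans (le_of_eq ?_)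
    rw [i1]
    field_simp
    norm_num
  · refine le_trans ?_ (mon 3 4 _ (by positivity))
    refine (mul_le_mul_of_nonneg_right (mul_le_mul_of_nonneg_right hP hr.le) i0.le).trans
      (le_of_eq ?_)
    rw [i1]
    field_simp
    norm_num
  · refine le_trans ?_ (mon 2 3 _ (by positivity))
    refine (mul_le_mul_of_nonneg_right (mul_le_mul_of_nonneg_right hP hr.le)
      (by positivity)).trans (le_of_eq ?_)
    rw [i1]
    field_simp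
    norm_num
  · refine le_trans ?_ (mon 1 2 _ (by positivity))
    refine (mul_le_mul_of_nonneg_right (mul_le_mul_of_nonneg_right hP hr.le)
      (by positivity)).trans (le_of_eq ?_)
    rw [i1]
    field_simp
    norm_num

lemma acc_mul (g : ℝ) (y : ℂ) : acc g y = (g : ℂ) * acc 1 y := by
  simp only [acc]
  push_cast
  ring

lemma norm_rm {c : ℝ} (hc : 0 ≤ c) (z : ℂ) : ‖(c : ℂ) * z‖ = c * ‖z‖ := by
  rw [norm_mul, norm_real, Real.norm_of_nonneg hc]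

/-- the derivatives of the weight, in real variables -/
lemma der_le {P r i σ τ V ν ν' b : ℝ} (hP : 0 ≤ P) (hr : 0 < r) (hi : 0 ≤ i) (hτ : 0 ≤ τ)
    (hV : 0 ≤ V) (hV2 : V ^ 2 ≤ 9 * (i + τ)) (hν : |ν| ≤ V * i)
    (hν' : |ν'| ≤ 4 * V ^ 2 * i ^ 2 + (2 * i ^ 2 + τ ^ 2) * i) (b0 : 0 ≤ b) (b1 : b ≤ 1)
    (h1 : P * i ≤ 64 * σ) (h2 : P * i ^ 2 ≤ 64 * σ ^ 2) (h3 : P * r * i ≤ 64)
    (h4 : P * r * i ^ 2 ≤ 64 * σ) (h5 : P * r * i ^ 3 ≤ 64 * σ ^ 2) :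
    |4 * ν * P| * r ≤ 256 * V ∧ |4 * ν * P| * V ≤ 3456 * (σ ^ 2 + τ ^ 2) ∧
      |4 * ν' * P + 16 * ν ^ 2 * (1 - 2 * b) * P| * r ≤ 28160 * (σ ^ 2 + τ ^ 2) := by
  have a1 : |4 * ν * P| ≤ 4 * (V * i) * P := by
    rw [abs_mul, abs_mul, abs_of_nonneg hP, abs_of_pos (by norm_num : (0 : ℝ) < 4)]
    gcongr
  have a2 : 2 * (σ * τ) ≤ σ ^ 2 + τ ^ 2 := by nlinarith [sq_nonneg (σ - τ)]
  have a3 : |4 * ν' * P + 16 * ν ^ 2 * (1 - 2 * b) * P| ≤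
      (296 * i ^ 3 + 288 * i ^ 2 * τ + 4 * i * τ ^ 2) * P := by
    have c1 : ν ^ 2 ≤ (V * i) ^ 2 := sq_abs ν ▸ pow_le_pow_left₀ (abs_nonneg _) hν 2
    have c2 : |ν ^ 2 * (1 - 2 * b)| ≤ (V * i) ^ 2 := by
      rw [abs_mul, abs_of_nonneg (sq_nonneg ν)]
      exact (mul_le_of_le_one_right (sq_nonneg ν) (abs_le.2 ⟨by linarith, by linarith⟩)).trans c1
    have c3 := mul_le_mul_of_nonneg_right hV2 (sq_nonneg i)
    rw [show 4 * ν' * P + 16 * ν ^ 2 * (1 - 2 * b) * P =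
      (4 * ν' + 16 * (ν ^ 2 * (1 - 2 * b))) * P by ring, abs_mul, abs_of_nonneg hP]
    refine mul_le_mul_of_nonneg_right (abs_le.2 ⟨?_, ?_⟩) hP
    · nlinarith [abs_le.1 c2, abs_le.1 hν']
    · nlinarith [abs_le.1 c2, abs_le.1 hν']
  refine ⟨?_, ?_, ?_⟩
  · nlinarith [mul_le_mul_of_nonneg_right a1 hr.le, mul_le_mul_of_nonneg_left h3 hV]
  · have c1 := mul_le_mul_of_nonneg_right a1 hV
    have c2 := mul_le_mul_of_nonneg_left hV2 (mul_nonneg hP hi)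
    have c3 := mul_le_mul_of_nonneg_right h1 hτ
    nlinarith [sq_nonneg τ]
  · have c1 := mul_le_mul_of_nonneg_right a3 hr.le
    have c2 := mul_le_mul_of_nonneg_right h4 hτ
    have c3 := mul_le_mul_of_nonneg_right h3 (sq_nonneg τ)
    nlinarith [sq_nonneg τ]

variable {κ : ℝ}

lemma eps_le (hκ : 0 < κ) (hκ1 : κ ≤ 1 / 10 ^ 6) : κ ^ 4 ≤ 1 / 4 :=
  (pow_le_pow_left₀ hκ.le hκ1 4).trans (by norm_num)

/-- heliocentric velocity and acceleration of the first body -/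
lemma v1_le (hκ : 0 < κ) (hκ1 : κ ≤ 1 / 10 ^ 6) (S : Sol κ) (t : ℝ) : ‖S.v1 t‖ ≤ 3 * S.W t := by
  have h1 := S.u1_le t
  have h2 := S.u2_le t
  have h3 := norm_add_le (S.u1 t) (S.u2 t)
  have h4 := mul_le_mul_of_nonneg_right (eps_le hκ hκ1) (norm_nonneg (S.u1 t + S.u2 t))
  refine (norm_add_le _ _).trans ?_
  rw [norm_rm (by positivity)]
  linarith

lemma d_v1 (S : Sol κ) (t : ℝ) : HasDerivAt S.v1 (acc 1 (S.x1 t) + acc (κ ^ 4) (S.x1 t - S.x2 t) +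
    ((κ ^ 4 : ℝ) : ℂ) * (acc 1 (S.x1 t) + acc 1 (S.x2 t))) t := by
  refine ((S.du1 t).add (((S.du1 t).add (S.du2 t)).const_mul ((κ ^ 4 : ℝ) : ℂ))).congr_deriv ?_
  rw [← neg_sub (S.x1 t), acc_neg]
  ring

lemma a1_le (hκ : 0 < κ) (hκ1 : κ ≤ 1 / 10 ^ 6) (S : Sol κ) (t : ℝ) :
    ‖acc 1 (S.x1 t) + acc (κ ^ 4) (S.x1 t - S.x2 t) +
      ((κ ^ 4 : ℝ) : ℂ) * (acc 1 (S.x1 t) + acc 1 (S.x2 t))‖ ≤
      2 * (1 / ‖S.x1 t‖ + 1 / ‖S.x2 t‖) ^ 2 + (1 / S.rho t) ^ 2 := by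
  have h1 := norm_acc zero_le_one (S.ne1 t)
  have h2 := norm_acc zero_le_one (S.ne2 t)
  have h3 := norm_acc (by positivity : 0 ≤ κ ^ 4) (sub_ne_zero.2 (S.ne12 t))
  have h4 := mul_le_mul (eps_le hκ hκ1) (norm_add_le (acc 1 (S.x1 t)) (acc 1 (S.x2 t)))
    (norm_nonneg _) (by norm_num)
  have h5 : κ ^ 4 / ‖S.x1 t - S.x2 t‖ ^ 2 ≤ 1 / S.rho t ^ 2 :=
    div_le_div_of_nonneg_right ((eps_le hκ hκ1).trans (by norm_num)) (by positivity)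
  refine (norm_add₃_le).trans ?_
  rw [norm_rm (by positivity)]
  have h6 : 0 ≤ 1 / ‖S.x1 t‖ * (1 / ‖S.x2 t‖) := by positivity
  have h7 : 0 ≤ 1 / ‖S.x1 t‖ ^ 2 := by positivity
  have h8 : 0 ≤ 1 / ‖S.x2 t‖ ^ 2 := by positivity
  rw [add_sq, div_pow, div_pow, div_pow, one_pow]
  linarith

lemma sig_le (S : Sol κ) (t : ℝ) : (1 / (‖S.x1 t‖ / (1 + 1 * ‖S.x1 t‖) + ‖S.x2 t‖)) ^ 2 ≤
    4 * (1 / S.R t ^ 2 + 1 / (1 + ‖S.x2 t‖) ^ 2) := by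
  have r1 : 0 < ‖S.x1 t‖ := norm_pos_iff.2 (S.ne1 t)
  have r2 : 0 < ‖S.x2 t‖ := norm_pos_iff.2 (S.ne2 t)
  have hR := S.R_pos t
  have key : ∀ q : ℝ, 0 < q → q ≤ 2 * (‖S.x1 t‖ / (1 + 1 * ‖S.x1 t‖) + ‖S.x2 t‖) →
      (1 / (‖S.x1 t‖ / (1 + 1 * ‖S.x1 t‖) + ‖S.x2 t‖)) ^ 2 ≤ 4 * (1 / q ^ 2) := fun q hq h => by
    rw [div_pow, one_pow, mul_one_div, div_le_div_iff₀ (by positivity) (by positivity)]
    nlinarith [pow_le_pow_left₀ hq.le h 2]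
  have p1 : 0 ≤ 1 / S.R t ^ 2 := by positivity
  have p2 : 0 ≤ 1 / (1 + ‖S.x2 t‖) ^ 2 := by positivity
  rcases le_total ‖S.x1 t‖ 1 with h | h
  · have h1 : ‖S.x1 t‖ / 2 ≤ ‖S.x1 t‖ / (1 + 1 * ‖S.x1 t‖) :=
      div_le_div_of_nonneg_left r1.le (by positivity) (by linarith)
    have h2 : S.R t ≤ ‖S.x1 t‖ + ‖S.x2 t‖ := abs_le_of_sq_le_sq' (by
      nlinarith [S.R_sq_le t, mul_pos r1 r2]) (by positivity) |>.2
    linarith [key _ hR (by linarith)]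
  · have h1 : 1 / 2 ≤ ‖S.x1 t‖ / (1 + 1 * ‖S.x1 t‖) := by
      rw [div_le_div_iff₀ (by norm_num) (by positivity)]
      linarith
    linarith [key (1 + ‖S.x2 t‖) (by positivity) (by linarith)]

/-- interpolated Jacobi coordinates for the first body -/
lemma body (hκ : 0 < κ) (hκ1 : κ ≤ 1 / 10 ^ 6) (S : Sol κ) : ∃ y p : ℝ → ℂ, ∀ t, ∃ f,
    HasDerivAt y (p t) t ∧ HasDerivAt p (acc (1 + κ ^ 4) (y t) + f) t ∧ y t ≠ 0 ∧
      ‖y t - S.x1 t‖ ≤ κ ^ 4 * ‖S.x1 t‖ ∧ ‖p t - S.u1 t‖ ≤ κ ^ 3 * S.W t ∧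
      ‖f‖ ≤ κ ^ 3 / 4 * (1 / S.rho t ^ 2 + 1 / S.R t ^ 2 + 1 / (1 + ‖S.x2 t‖) ^ 2) := by
  have e0 : 0 < κ ^ 4 := by positivity
  have e1 := eps_le hκ hκ1
  have e2 : κ ^ 4 ≤ κ ^ 3 / 10 ^ 6 := by
    nlinarith [mul_le_mul_of_nonneg_left hκ1 (by positivity : 0 ≤ κ ^ 3)]
  obtain ⟨c, c0, c1, hc⟩ : ∃ c : ℝ, 0 ≤ c ∧ c ≤ κ ^ 4 ∧ c * (1 + κ ^ 4) = κ ^ 4 :=
    ⟨κ ^ 4 / (1 + κ ^ 4), by positivity, div_le_self e0.le (by linarith), by field_simp⟩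
  obtain ⟨m, hm⟩ : ∃ m : ℝ → ℝ, m = fun t => ‖S.x1 t‖ / (1 + 1 * ‖S.x1 t‖) := ⟨_, rfl⟩
  obtain ⟨b, hb⟩ : ∃ b : ℝ → ℝ, b = fun t => bb (m t) ‖S.x2 t‖ := ⟨_, rfl⟩
  obtain ⟨ν, hν⟩ : ∃ ν : ℝ → ℝ, ν = fun t => nn 1 (S.x1 t) (S.v1 t) - nn 0 (S.x2 t) (S.v2 t) :=
    ⟨_, rfl⟩
  have r1 : ∀ t, 0 < ‖S.x1 t‖ := fun t => norm_pos_iff.2 (S.ne1 t)
  have r2 : ∀ t, 0 < ‖S.x2 t‖ := fun t => norm_pos_iff.2 (S.ne2 t)
  have m0 : ∀ t, 0 < m t := fun t => by have := r1 t; rw [hm]; positivity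
  have db : ∀ t, HasDerivAt b (4 * ν t * (b t * (1 - b t))) t := fun t => by
    rw [hb, hν]
    refine d_bb (hm ▸ d_m zero_le_one (S.dv1 t) (S.ne1 t)) ?_ (m0 t)
    simpa using d_m le_rfl (S.dv2 t) (S.ne2 t)
  refine ⟨fun t => S.x1 t - ((c * b t : ℝ) : ℂ) * S.x2 t, fun t => S.v1 t -
    ((c * b t : ℝ) : ℂ) * S.v2 t - ((c * (4 * ν t * (b t * (1 - b t))) : ℝ) : ℂ) * S.x2 t,
    fun t => ?_⟩
  have r1 := r1 t
  have r2 := r2 t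
  have hρ := S.rho_pos t
  have hW : 0 ≤ S.W t := Real.sqrt_nonneg _
  have m1 : m t ≤ ‖S.x1 t‖ := by rw [hm]; exact div_le_self r1.le (by linarith)
  have m2 : 1 / m t = 1 + 1 / ‖S.x1 t‖ := by rw [hm]; field_simp; ring
  obtain ⟨i, hi⟩ : ∃ i, i = 1 / m t + 1 / ‖S.x2 t‖ := ⟨_, rfl⟩
  obtain ⟨σ, hσ⟩ : ∃ σ, σ = 1 / (m t + ‖S.x2 t‖) := ⟨_, rfl⟩
  obtain ⟨⟨b0, b1, b2⟩, ⟨b3, b4, b5⟩, ⟨q1, q2⟩, q3, q4, q5⟩ := mono (m0 t) r2 hσ hi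
  have eb : bb (m t) ‖S.x2 t‖ = b t := by rw [hb]
  rw [eb] at b0 b1 b2 b3 b4 b5 q1 q2 q3 q4 q5
  have hs : σ ^ 2 ≤ 4 * (1 / S.R t ^ 2 + 1 / (1 + ‖S.x2 t‖) ^ 2) := by
    rw [hσ, hm]
    exact sig_le S t
  have v1 := v1_le hκ hκ1 S t
  have v2 : ‖S.v2 t‖ ≤ 3 * S.W t := by simpa using v1_le hκ hκ1 S.swap t
  have dv1 := d_v1 S t
  have dv2 : HasDerivAt S.v2 _ t := (funext S.swap_v1 : S.swap.v1 = S.v2) ▸ d_v1 S.swap t
  have a1 := a1_le hκ hκ1 S t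
  have a2 := a1_le hκ hκ1 S.swap t
  simp only [Sol.swap_x1, Sol.swap_x2, Sol.swap_rho] at dv2 a2
  obtain ⟨n1, dn1, hn1⟩ := d_nn zero_le_one (S.dv1 t) dv1 (S.ne1 t)
  obtain ⟨n2, dn2, hn2⟩ := d_nn le_rfl (S.dv2 t) dv2 (S.ne2 t)
  have dν : HasDerivAt ν (n1 - n2) t := hν ▸ dn1.sub dn2
  have j1 : 0 < 1 / ‖S.x1 t‖ := by positivity
  have j2 : 0 < 1 / ‖S.x2 t‖ := by positivity
  have j3 : 1 / ‖S.x1 t‖ + 1 / ‖S.x2 t‖ ≤ i := by linarith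
  have j4 := pow_le_pow_left₀ (by positivity) j3 2
  obtain ⟨k1, k2, k3⟩ := der_le (P := b t * (1 - b t)) (τ := 1 / S.rho t) (V := 3 * S.W t)
    (ν := ν t) (ν' := n1 - n2) (mul_nonneg b0 (by linarith)) r2 (by linarith) (by positivity)
    (by positivity) (by
      have : κ ^ 4 / S.rho t ≤ 1 / S.rho t := div_le_div_of_nonneg_right (by linarith) hρ.le
      rw [mul_pow, S.W_sq]
      linarith) (by
      rw [hν]
      refine (abs_sub _ _).trans ((add_le_add (abs_nn zero_le_one (S.ne1 t) _)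
        (abs_nn le_rfl (S.ne2 t) _)).trans ?_)
      rw [div_eq_mul_one_div, div_eq_mul_one_div ‖S.v2 t‖]
      linarith [mul_le_mul_of_nonneg_right v1 j1.le, mul_le_mul_of_nonneg_right v2 j2.le,
        mul_le_mul_of_nonneg_left j3 hW]) (by
      refine (abs_sub _ _).trans ((add_le_add hn1 hn2).trans ?_)
      rw [add_comm (1 / ‖S.x2 t‖)] at a2
      generalize ‖acc 1 (S.x1 t) + acc (κ ^ 4) (S.x1 t - S.x2 t) + _‖ = A1 at a1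
      generalize ‖acc 1 (S.x2 t) + acc (κ ^ 4) (S.x2 t - S.x1 t) + _‖ = A2 at a2
      have w1 := mul_le_mul_of_nonneg_right (pow_le_pow_left₀ (norm_nonneg _) v1 2)
        (sq_nonneg (1 / ‖S.x1 t‖))
      have w2 := mul_le_mul_of_nonneg_right (pow_le_pow_left₀ (norm_nonneg _) v2 2)
        (sq_nonneg (1 / ‖S.x2 t‖))
      have w3 := mul_le_mul_of_nonneg_left j4 (sq_nonneg (3 * S.W t))
      have w4 := mul_le_mul_of_nonneg_right (a1.trans (add_le_add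
        (mul_le_mul_of_nonneg_left j4 zero_le_two) le_rfl)) j1.le
      have w5 := mul_le_mul_of_nonneg_right (a2.trans (add_le_add
        (mul_le_mul_of_nonneg_left j4 zero_le_two) le_rfl)) j2.le
      have w6 := mul_le_mul_of_nonneg_left j3
        (by positivity : 0 ≤ 2 * i ^ 2 + (1 / S.rho t) ^ 2)
      have w7 : 0 ≤ (3 * S.W t) ^ 2 * (1 / ‖S.x1 t‖ * (1 / ‖S.x2 t‖)) := by positivity
      have w8 : ∀ u z : ℝ, 4 * u ^ 2 / z ^ 2 = 4 * (u ^ 2 * (1 / z) ^ 2) := fun u z => by ring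
      rw [w8, w8, div_eq_mul_one_div A1, div_eq_mul_one_div A2]
      linarith) b0 b1 q1 q2 q3 q4 q5
  have d1 := ((db t).const_mul c).ofReal_comp
  have d2 := (((dν.const_mul 4).mul ((db t).mul ((db t).const_sub 1))).const_mul c).ofReal_comp
  have y1 : ‖((c * b t : ℝ) : ℂ) * S.x2 t‖ = c * (b t * ‖S.x2 t‖) := by
    rw [norm_rm (by positivity), mul_assoc]
  have y2 : ‖((c * b t : ℝ) : ℂ) * S.x2 t‖ ≤ κ ^ 4 * ‖S.x1 t‖ :=
    y1.trans_le (mul_le_mul c1 (b2.trans m1) (by positivity) e0.le)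
  have y3 : ‖S.x1 t‖ / 2 ≤ ‖S.x1 t - ((c * b t : ℝ) : ℂ) * S.x2 t‖ := by
    linarith [norm_sub_norm_le (S.x1 t) (((c * b t : ℝ) : ℂ) * S.x2 t),
      mul_le_mul_of_nonneg_right e1 r1.le]
  have nr : ∀ (u : ℝ) (z : ℂ), ‖((c * u : ℝ) : ℂ) * z‖ ≤ κ ^ 4 * (|u| * ‖z‖) := fun u z => by
    rw [norm_mul, norm_real, Real.norm_eq_abs, abs_mul, abs_of_nonneg c0, mul_assoc]
    exact mul_le_mul_of_nonneg_right c1 (by positivity)
  refine ⟨acc (1 + κ ^ 4) (S.x1 t) - acc (1 + κ ^ 4) (S.x1 t - ((c * b t : ℝ) : ℂ) * S.x2 t) +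
      acc (κ ^ 4) (S.x1 t - S.x2 t) + ((κ ^ 4 * (1 - b t) : ℝ) : ℂ) * acc 1 (S.x2 t) +
      ((c * b t : ℝ) : ℂ) * acc (κ ^ 4) (S.x1 t - S.x2 t) -
      ((c * (b t * κ ^ 4) : ℝ) : ℂ) * acc 1 (S.x1 t) -
      ((c * (2 * (4 * ν t * (b t * (1 - b t)))) : ℝ) : ℂ) * S.v2 t -
      ((c * (4 * (n1 - n2) * (b t * (1 - b t)) +
        16 * ν t ^ 2 * (1 - 2 * b t) * (b t * (1 - b t))) : ℝ) : ℂ) * S.x2 t,
    ((S.dv1 t).sub (d1.mul (S.dv2 t))).congr_deriv (by ring),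
    ((dv1.sub (d1.mul dv2)).sub (d2.mul (S.dv2 t))).congr_deriv ?_,
    norm_pos_iff.1 (by linarith), by rwa [sub_sub_cancel_left, norm_neg], ?_, ?_⟩
  · have hc' : (c : ℂ) * (1 + (κ : ℂ) ^ 4) = (κ : ℂ) ^ 4 := by exact_mod_cast hc
    rw [← neg_sub (S.x1 t) (S.x2 t), acc_neg, acc_mul (1 + κ ^ 4) (S.x1 t)]
    simp only [Pi.mul_apply]
    push_cast
    linear_combination (-(b t : ℂ) * acc 1 (S.x2 t)) * hc'
  · have u1 := mul_le_mul_of_nonneg_left ((norm_add_le _ _).trans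
      (add_le_add (S.u1_le t) (S.u2_le t))) e0.le
    have u2 := (nr (b t) (S.v2 t)).trans (mul_le_mul_of_nonneg_left (mul_le_mul
      (abs_le.2 ⟨by linarith, b1⟩) v2 (norm_nonneg _) zero_le_one) e0.le)
    have u3 := (nr _ (S.x2 t)).trans (mul_le_mul_of_nonneg_left k1 e0.le)
    beta_reduce
    rw [Sol.v1, show ∀ x y z w : ℂ, x + y - z - w - x = y - z - w from fun _ _ _ _ => by ring]
    refine (norm_sub_le_of_le (norm_sub_le_of_le (norm_rm e0.le _).le u2) u3).trans ?_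
    linarith [mul_le_mul_of_nonneg_right e2 hW, mul_nonneg e0.le hW]
  · have nD : ‖acc (κ ^ 4) (S.x1 t - S.x2 t)‖ = κ ^ 4 * (1 / S.rho t) ^ 2 := by
      rw [norm_acc e0.le (sub_ne_zero.2 (S.ne12 t)), Sol.rho]
      ring
    have s0 := sq_nonneg σ
    have t0 := sq_nonneg (1 / S.rho t)
    have f1 : ‖acc (1 + κ ^ 4) (S.x1 t) - acc (1 + κ ^ 4) (S.x1 t - ((c * b t : ℝ) : ℂ) * S.x2 t)‖
        ≤ κ ^ 4 * (512 * σ ^ 2) := by
      refine (acc_lip (by positivity) (half_pos r1) (half_le_self r1.le) y3).trans ?_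
      rw [sub_sub_cancel, y1]
      have g1 : b t * ‖S.x2 t‖ / ‖S.x1 t‖ ^ 3 ≤ 8 * σ ^ 2 := (div_le_div_of_nonneg_left
        (by positivity) (pow_pos (m0 t) 3) (pow_le_pow_left₀ (m0 t).le m1 3)).trans b3
      calc _ = 32 * (c * (1 + κ ^ 4)) * (b t * ‖S.x2 t‖ / ‖S.x1 t‖ ^ 3) := by field_simp; ring
        _ ≤ _ := by rw [hc]; linarith [mul_le_mul_of_nonneg_left g1 e0.le, mul_nonneg e0.le s0]
    have f2 : ‖((κ ^ 4 * (1 - b t) : ℝ) : ℂ) * acc 1 (S.x2 t)‖ ≤ κ ^ 4 * (8 * σ ^ 2) := by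
      rw [norm_rm (mul_nonneg e0.le (by linarith)), norm_acc zero_le_one (S.ne2 t), mul_assoc,
        mul_one_div]
      exact mul_le_mul_of_nonneg_left b4 e0.le
    have f3 : ‖((c * b t : ℝ) : ℂ) * acc (κ ^ 4) (S.x1 t - S.x2 t)‖ ≤
        κ ^ 4 * (1 / S.rho t) ^ 2 := by
      rw [norm_rm (by positivity), nD]
      exact mul_le_of_le_one_left (by positivity) (mul_le_one₀ (by linarith) b0 b1)
    have f4 : ‖((c * (b t * κ ^ 4) : ℝ) : ℂ) * acc 1 (S.x1 t)‖ ≤ κ ^ 4 * (8 * σ ^ 2) := by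
      refine (nr _ _).trans (mul_le_mul_of_nonneg_left ?_ e0.le)
      rw [abs_of_nonneg (by positivity), norm_acc zero_le_one (S.ne1 t), mul_one_div]
      exact (div_le_div₀ b0 (mul_le_of_le_one_right b0 (by linarith)) (pow_pos (m0 t) 2)
        (pow_le_pow_left₀ (m0 t).le m1 2)).trans b5
    have f5 : ‖((c * (2 * (4 * ν t * (b t * (1 - b t)))) : ℝ) : ℂ) * S.v2 t‖ ≤
        κ ^ 4 * (2 * (3456 * (σ ^ 2 + (1 / S.rho t) ^ 2))) := by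
      refine (nr _ _).trans (mul_le_mul_of_nonneg_left ?_ e0.le)
      rw [abs_mul, abs_two, mul_assoc]
      exact mul_le_mul_of_nonneg_left
        ((mul_le_mul_of_nonneg_left v2 (abs_nonneg _)).trans k2) zero_le_two
    have f6 := (nr _ (S.x2 t)).trans (mul_le_mul_of_nonneg_left k3 e0.le)
    refine (norm_sub_le_of_le (norm_sub_le_of_le (norm_sub_le_of_le (norm_add_le_of_le
      (norm_add_le_of_le (norm_add_le_of_le f1 nD.le) f2) f3) f4) f5) f6).trans ?_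
    have p1 : 0 ≤ 1 / S.R t ^ 2 := by positivity
    have p2 : 0 ≤ 1 / (1 + ‖S.x2 t‖) ^ 2 := by positivity
    rw [show 1 / S.rho t ^ 2 = (1 / S.rho t) ^ 2 by ring]
    generalize (1 / S.rho t) ^ 2 = T at *
    have g1 := mul_le_mul_of_nonneg_left hs e0.le
    have g2 := mul_le_mul_of_nonneg_right e2
      (by positivity : 0 ≤ T + 1 / S.R t ^ 2 + 1 / (1 + ‖S.x2 t‖) ^ 2)
    have g3 := mul_nonneg e0.le t0
    have g4 := mul_nonneg e0.le p1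
    have g5 := mul_nonneg e0.le p2
    linarith

lemma exists_F (S : Sol κ) {y p : ℝ → ℂ} (hy : ∀ t, HasDerivAt y (p t) t) : ∃ F : ℝ → ℝ, ∀ t,
    HasDerivAt F (κ ^ 3 * (1 / S.rho t ^ 2 + 1 / S.R t ^ 2 + 1 / (1 + ‖y t‖) ^ 2)) t := by
  have h1 : Continuous y := continuous_iff_continuousAt.2 fun t => (hy t).continuousAt
  have h2 : Continuous fun t =>
      κ ^ 3 * (1 / S.rho t ^ 2 + 1 / S.R t ^ 2 + 1 / (1 + ‖y t‖) ^ 2) :=
    continuous_const.mul (((continuous_const.div (S.continuous_rho.pow 2)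
      fun t => (pow_pos (S.rho_pos t) 2).ne').add (continuous_const.div (S.continuous_R.pow 2)
      fun t => (pow_pos (S.R_pos t) 2).ne')).add (continuous_const.div
      ((continuous_const.add h1.norm).pow 2) fun t => by positivity))
  exact ⟨_, fun t => (h2.integral_hasStrictDerivAt 0 t).hasDerivAt⟩

lemma maj_le (hκ : 0 < κ) (hκ1 : κ ≤ 1 / 10 ^ 6) {x y : ℂ} (h : ‖y - x‖ ≤ κ ^ 4 * ‖x‖) {A B : ℝ} :
    κ ^ 3 / 4 * (1 / A ^ 2 + 1 / B ^ 2 + 1 / (1 + ‖x‖) ^ 2) ≤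
      κ ^ 3 * (1 / A ^ 2 + 1 / B ^ 2 + 1 / (1 + ‖y‖) ^ 2) := by
  have h1 : 1 + ‖y‖ ≤ 2 * (1 + ‖x‖) := by
    nlinarith [norm_sub_norm_le y x, eps_le hκ hκ1, norm_nonneg x]
  have h2 : 1 / (1 + ‖x‖) ^ 2 ≤ 4 * (1 / (1 + ‖y‖) ^ 2) := by
    rw [mul_one_div, div_le_div_iff₀ (by positivity) (by positivity)]
    nlinarith [pow_le_pow_left₀ (by positivity) h1 2]
  have h3 : 0 ≤ κ ^ 3 * (1 / A ^ 2) := by positivity
  have h4 : 0 ≤ κ ^ 3 * (1 / B ^ 2) := by positivity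
  nlinarith [mul_le_mul_of_nonneg_left h2 (by positivity : 0 ≤ κ ^ 3)]

end Red

/-- every solution carries interpolated Jacobi coordinates -/
theorem red : Small fun κ => ∀ S : Sol κ, ∃ T : Sys κ, T.toSol = S := by
  refine (small_le (c := 1 / 10 ^ 6) (by norm_num)).mono fun κ ⟨hκ, hκ1⟩ S => ?_
  obtain ⟨y1, p1, h1⟩ := Red.body hκ hκ1 S
  obtain ⟨y2, p2, h2⟩ := Red.body hκ hκ1 S.swap
  choose f1 h1 using h1
  choose f2 h2 using h2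
  simp only [Sol.swap_x1, Sol.swap_x2, Sol.swap_u1, Sol.swap_W, Sol.swap_rho, Sol.swap_R] at h2
  obtain ⟨F1, hF1⟩ := Red.exists_F S fun t => (h2 t).1
  obtain ⟨F2, hF2⟩ := Red.exists_F S fun t => (h1 t).1
  obtain ⟨t0, h0⟩ := S.exists_t0
  exact ⟨⟨S, y1, y2, p1, p2, f1, f2, F1, F2, t0, h0, fun t => (h1 t).1, fun t => (h2 t).1,
    fun t => (h1 t).2.1, fun t => (h2 t).2.1, fun t => (h1 t).2.2.1, fun t => (h2 t).2.2.1,
    fun t => (h1 t).2.2.2.1, fun t => (h2 t).2.2.2.1, fun t => (h1 t).2.2.2.2.1,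
    fun t => (h2 t).2.2.2.2.1, hF1, hF2,
    fun t => (h1 t).2.2.2.2.2.trans (Red.maj_le hκ hκ1 (h2 t).2.2.2.1),
    fun t => (h2 t).2.2.2.2.2.trans (Red.maj_le hκ hκ1 (h1 t).2.2.2.1)⟩, rfl⟩

end Pool.Agent.Lib.MP_e310f3_mp.Gap
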