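import Pool.Agent.Lib.MP_e310f3_mp.Gap.Deep
import Pool.Agent.Lib.MP_e310f3_mp.Gap.Nond
import Pool.Agent.Lib.MP_e310f3_mp.Gap.Red

open Complex Filter Topology Set

noncomputable section

namespace Pool.Agent.Lib.MP_e310f3_mp.Gap

lemma exists_b {m : ℝ} (hm : 0 < m) : ∃ b : ℂ, ‖b‖ = 1 ∧ ‖b + 1‖ ≤ m ∧ 0 < b.im := by
  set s : ℝ := m / 2 with hs
  have hs0 : 0 < s := by positivity
  have hd : 0 < 1 + s ^ 2 := by positivity
  refine ⟨⟨-(1 - s ^ 2) / (1 + s ^ 2), 2 * s / (1 + s ^ 2)⟩, ?_, ?_, ?_⟩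
  · have : ‖(⟨-(1 - s ^ 2) / (1 + s ^ 2), 2 * s / (1 + s ^ 2)⟩ : ℂ)‖ ^ 2 = 1 := by
      rw [Complex.sq_norm, Complex.normSq_apply]
      simp only
      field_simp
      ring
    exact (pow_eq_one_iff_of_nonneg (norm_nonneg _) two_ne_zero).1 this
  · have : ‖(⟨-(1 - s ^ 2) / (1 + s ^ 2), 2 * s / (1 + s ^ 2)⟩ : ℂ) + 1‖ ^ 2
        = 4 * s ^ 2 / (1 + s ^ 2) := by
      rw [Complex.sq_norm, Complex.normSq_apply]
      simp only [Complex.add_re, Complex.add_im, Complex.one_re, Complex.one_im, add_zero]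
      field_simp
      ring
    refine (pow_le_pow_iff_left₀ (norm_nonneg _) hm.le two_ne_zero).1 ?_
    rw [this, div_le_iff₀ hd]
    have : m = 2 * s := by rw [hs]; ring
    rw [this]; nlinarith [sq_nonneg (s ^ 2)]
  · show 0 < 2 * s / (1 + s ^ 2)
    positivity

theorem no_orbit : ∃ (κ : ℝ) (b : ℂ) (δ : ℝ), 0 < κ ∧ κ ≤ 1 / 10 ∧ ‖b‖ = 1 ∧ 0 < δ ∧
    ∀ S : Sol κ, S.In → S.Out b δ → False := by
  obtain ⟨r, hr, δ0, hδ0, hd⟩ := deep
  obtain ⟨δ0', hδ0', hn⟩ := nond hr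
  obtain ⟨b, hb1, hb2, hb3⟩ := exists_b (lt_min hδ0 hδ0')
  obtain ⟨δ1, hδ1, hn1⟩ := hn b hb1 (hb2.trans (min_le_right _ _)) hb3
  obtain ⟨κ, ⟨⟨hκ, hκ1⟩, hd'⟩, hn', hr'⟩ :=
    (((small_le (c := 1 / 10) (by norm_num)).and hd).and (hn1.and red)).exists
  refine ⟨κ, b, min (min δ0 δ1) (b.im / 4), hκ, hκ1, hb1, by positivity, fun S hin hout => ?_⟩
  obtain ⟨T, rfl⟩ := hr' S
  by_cases hD : T.DeepC r
  · refine hd' T b _ hb1 (hb2.trans (min_le_left _ _)) (by positivity)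
      ((min_le_left _ _).trans (min_le_left _ _)) ?_ hin hout hD
    have := min_le_right (min δ0 δ1) (b.im / 4)
    linarith
  · exact hn' T _ (by positivity) ((min_le_left _ _).trans (min_le_right _ _)) hin hout hD

end Pool.Agent.Lib.MP_e310f3_mp.Gap
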