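import Pool.Agent.Lib.MP_e310f3_mp.Gap.ArcB

open Complex Filter Topology Set

noncomputable section

namespace Pool.Agent.Lib.MP_e310f3_mp.Gap

/-- both arcs of a pair with small coupling satisfy the conclusions of arcB -/
private lemma pair_arcB {η Tm ε : ℝ} (hT : 0 < Tm) (hε : 0 < ε) : ∃ e' > 0,
    ∀ (e g : ℝ) (y1 p1 : ℝ → ℂ) (F1 : ℝ → ℝ) (y2 p2 : ℝ → ℂ) (F2 : ℝ → ℝ) (T : ℝ),
    Pair g 1 1 η Tm e y1 p1 F1 y2 p2 F2 0 T → g ≤ e' → e ≤ e' → e ≤ 1 / 4 →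
    (0 ≤ T ∧ T ≤ Tm ∧ 1 / 4 ≤ ‖y1 0‖ ∧ ‖y1 0‖ ≤ 2 ∧ 1 / 4 ≤ ‖y2 0‖ ∧ ‖y2 0‖ ≤ 2 ∧
      ‖p1 0‖ ≤ 5 ∧ ‖p2 0‖ ≤ 5 ∧ η ≤ ‖p1 0 - p2 0‖ ∧ ‖y1 0 - y2 0‖ ≤ e) ∧
    (|dot (y1 T) (p1 T) - dot (y1 0 + (T : ℂ) * p1 0) (p1 0)| ≤ ε ∧
      (∀ τ ∈ Icc 0 T, |‖y1 τ‖ ^ 2 - ‖y1 0 + (τ : ℂ) * p1 0‖ ^ 2| ≤ ε) ∧
      (‖y1 T - (y1 0 + (T : ℂ) * p1 0)‖ ≤ ε ∨ ∃ τ ∈ Icc 0 T, ‖y1 τ‖ ^ 2 ≤ ε)) ∧
    (|dot (y2 T) (p2 T) - dot (y2 0 + (T : ℂ) * p2 0) (p2 0)| ≤ ε ∧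
      (∀ τ ∈ Icc 0 T, |‖y2 τ‖ ^ 2 - ‖y2 0 + (τ : ℂ) * p2 0‖ ^ 2| ≤ ε) ∧
      (‖y2 T - (y2 0 + (T : ℂ) * p2 0)‖ ≤ ε ∨ ∃ τ ∈ Icc 0 T, ‖y2 τ‖ ^ 2 ≤ ε)) := by
  obtain ⟨e', he', H⟩ := arcB hT hε
  refine ⟨e', he', ?_⟩
  intro e g y1 p1 F1 y2 p2 F2 T P hg he he4
  have hT0 : 0 ≤ T := P.st
  have hTm : T ≤ Tm := by have := P.time; simpa using this
  have hlo : 1 / 2 ≤ ‖y1 0‖ := P.lo
  have hhi : ‖y1 0‖ ≤ 1 := P.hi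
  have hnear : ‖y1 0 - y2 0‖ ≤ e := by have := P.near; simpa using this
  have hs1 : ‖p1 0‖ ≤ 5 := by have := P.sp1; simpa using this
  have hs2 : ‖p2 0‖ ≤ 5 := by have := P.sp2; simpa using this
  have hfast : η ≤ ‖p1 0 - p2 0‖ := by have := P.fast; simpa using this
  have hd := abs_norm_sub_norm_le (y1 0) (y2 0)
  have hd' := abs_le.1 (hd.trans hnear)
  have hlo2 : 1 / 4 ≤ ‖y2 0‖ := by linarith [hd'.1, hd'.2]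
  have hhi2 : ‖y2 0‖ ≤ 2 := by linarith [hd'.1, hd'.2]
  refine ⟨⟨hT0, hTm, by linarith, by linarith, hlo2, hhi2, hs1, hs2, hfast, hnear⟩, ?_, ?_⟩
  · refine H g y1 p1 F1 T P.arc1 P.gpos hg hT0 hTm (by linarith) (by linarith) hs1 ?_ ?_
    · intro τ hτ
      have := P.dh1 τ hτ
      rw [one_pow, mul_one] at this
      exact this.trans he
    · have := P.dF1
      rw [mul_one] at this
      exact this.trans he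
  · refine H g y2 p2 F2 T P.arc2 P.gpos hg hT0 hTm hlo2 hhi2 hs2 ?_ ?_
    · intro τ hτ
      have := P.dh2 τ hτ
      rw [one_pow, mul_one] at this
      exact this.trans he
    · have := P.dF2
      rw [mul_one] at this
      exact this.trans he

/-- the two straight lines separate linearly -/
private lemma line_sep (y y' a b : ℂ) {T : ℝ} (hT : 0 ≤ T) :
    T * ‖a - b‖ ≤ ‖(y + (T : ℂ) * a) - (y' + (T : ℂ) * b)‖ + ‖y - y'‖ := by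
  have e : (T : ℂ) * (a - b) = ((y + (T : ℂ) * a) - (y' + (T : ℂ) * b)) - (y - y') := by ring
  have h1 : ‖(T : ℂ) * (a - b)‖ = T * ‖a - b‖ := by
    rw [norm_mul, Complex.norm_real, Real.norm_of_nonneg hT]
  rw [← h1, e]
  exact norm_sub_le _ _

private lemma norm_line_le (y a : ℂ) {T Tm : ℝ} (hT : 0 ≤ T) (hTm : T ≤ Tm) (hy : ‖y‖ ≤ 2)
    (ha : ‖a‖ ≤ 5) : ‖y + (T : ℂ) * a‖ ≤ 2 + 5 * Tm := by
  have h1 : ‖(T : ℂ) * a‖ = T * ‖a‖ := by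
    rw [norm_mul, Complex.norm_real, Real.norm_of_nonneg hT]
  have h2 := norm_add_le y ((T : ℂ) * a)
  have h3 : T * ‖a‖ ≤ Tm * 5 := mul_le_mul hTm ha (norm_nonneg _) (hT.trans hTm)
  linarith

theorem nlz_a {η Tm : ℝ} (hη : 0 < η) (hT : 0 < Tm) : ∃ g0 > 0, ∃ c > 0, ∃ e > 0,
    ∀ (g : ℝ) (y1 p1 : ℝ → ℂ) (F1 : ℝ → ℝ) (y2 p2 : ℝ → ℂ) (F2 : ℝ → ℝ) (T : ℝ),
    Pair g 1 1 η Tm e y1 p1 F1 y2 p2 F2 0 T → g ≤ g0 → c ≤ ‖y1 T‖ ^ 2 + ‖y2 T‖ ^ 2 := by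
  obtain ⟨c0, hc0, hc1, hc2⟩ : ∃ c0 : ℝ, 0 < c0 ∧ c0 ≤ 1 / 64 ∧ c0 ≤ η ^ 2 / 12800 :=
    ⟨min (1 / 64) (η ^ 2 / 12800), by positivity, min_le_left _ _, min_le_right _ _⟩
  obtain ⟨e', he', H⟩ := pair_arcB (η := η) hT (show 0 < c0 / 4 by positivity)
  refine ⟨e', he', c0 / 2, by positivity, min (min e' (1 / 4)) (η / 80), by positivity, ?_⟩
  intro g y1 p1 F1 y2 p2 F2 T P hg
  obtain ⟨⟨hT0, hTm, hlo, hhi, hlo2, hhi2, hs1, hs2, hfast, hnear⟩, ⟨-, h1, -⟩, ⟨-, h2, -⟩⟩ :=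
    H _ g y1 p1 F1 y2 p2 F2 T P hg ((min_le_left _ _).trans (min_le_left _ _))
      ((min_le_left _ _).trans (min_le_right _ _))
  have hnear' : ‖y1 0 - y2 0‖ ≤ η / 80 := hnear.trans (min_le_right _ _)
  have k1 := (abs_le.1 (h1 T ⟨hT0, le_rfl⟩)).1
  have k2 := (abs_le.1 (h2 T ⟨hT0, le_rfl⟩)).1
  have key : c0 ≤ ‖y1 0 + (T : ℂ) * p1 0‖ ^ 2 + ‖y2 0 + (T : ℂ) * p2 0‖ ^ 2 := by
    by_cases hs : T ≤ 1 / 40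
    · have e1 : ‖(T : ℂ) * p1 0‖ = T * ‖p1 0‖ := by
        rw [norm_mul, Complex.norm_real, Real.norm_of_nonneg hT0]
      have e2 : T * ‖p1 0‖ ≤ 1 / 40 * 5 := mul_le_mul hs hs1 (norm_nonneg _) (by norm_num)
      have e3 : ‖y1 0‖ ≤ ‖y1 0 + (T : ℂ) * p1 0‖ + ‖(T : ℂ) * p1 0‖ := by
        have := norm_sub_le (y1 0 + (T : ℂ) * p1 0) ((T : ℂ) * p1 0)
        rwa [add_sub_cancel_right] at this
      have e4 : 1 / 8 ≤ ‖y1 0 + (T : ℂ) * p1 0‖ := by linarith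
      nlinarith [sq_nonneg ‖y2 0 + (T : ℂ) * p2 0‖]
    · push Not at hs
      have e1 := line_sep (y1 0) (y2 0) (p1 0) (p2 0) hT0
      have e2 : 1 / 40 * η ≤ T * ‖p1 0 - p2 0‖ := mul_le_mul hs.le hfast hη.le hT0
      have e3 := norm_sub_le (y1 0 + (T : ℂ) * p1 0) (y2 0 + (T : ℂ) * p2 0)
      have e4 : η / 80 ≤ ‖y1 0 + (T : ℂ) * p1 0‖ + ‖y2 0 + (T : ℂ) * p2 0‖ := by linarith
      have e5 : (η / 80) ^ 2 ≤ (‖y1 0 + (T : ℂ) * p1 0‖ + ‖y2 0 + (T : ℂ) * p2 0‖) ^ 2 :=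
        pow_le_pow_left₀ (by positivity) e4 2
      nlinarith [sq_nonneg (‖y1 0 + (T : ℂ) * p1 0‖ - ‖y2 0 + (T : ℂ) * p2 0‖)]
  linarith

/-- the exact bounce configuration -/
private lemma exact_bounce {y a b : ℂ} {T τ : ℝ} (hy : y ≠ 0) (hab : a ≠ b) (hT : 0 < T)
    (hτ0 : 0 ≤ τ) (hτT : τ ≤ T) (h0 : y + (τ : ℂ) * a = 0)
    (hr : ‖y + (T : ℂ) * a‖ ^ 2 = ‖y + (T : ℂ) * b‖ ^ 2) :
    0 < dot (y + (T : ℂ) * a) a + dot (y + (T : ℂ) * b) b ∧ 0 < -(dot y a + dot y b) := by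
  have hya : y = -((τ : ℂ) * a) := eq_neg_of_add_eq_zero_left h0
  have hA : y + (T : ℂ) * a = ((T - τ : ℝ) : ℂ) * a := by rw [hya]; push_cast; ring
  have nA : ‖y + (T : ℂ) * a‖ = (T - τ) * ‖a‖ := by
    rw [hA, norm_mul, Complex.norm_real, Real.norm_of_nonneg (by linarith)]
  have ny : ‖y‖ = τ * ‖a‖ := by
    rw [hya, norm_neg, norm_mul, Complex.norm_real, Real.norm_of_nonneg hτ0]
  have nB : ‖y + (T : ℂ) * b‖ = ‖y + (T : ℂ) * a‖ :=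
    ((pow_left_inj₀ (norm_nonneg _) (norm_nonneg _) two_ne_zero).1 hr).symm
  have dA : dot y (y + (T : ℂ) * a) = -(‖y‖ * ‖y + (T : ℂ) * a‖) := by
    rw [nA, ny, hA]
    have e : τ * ‖a‖ * ((T - τ) * ‖a‖) = τ * (T - τ) * ‖a‖ ^ 2 := by ring
    rw [e, ← dot_self, hya]
    simp only [dot, neg_re, neg_im, mul_re, mul_im, ofReal_re, ofReal_im]
    ring
  have dB : dot y (y + (T : ℂ) * b) ≤ ‖y‖ * ‖y + (T : ℂ) * a‖ := by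
    rw [← nB]; exact (le_abs_self _).trans (abs_dot_le _ _)
  have hypos : 0 < ‖y‖ := norm_pos_iff.2 hy
  have hApos : 0 < ‖y + (T : ℂ) * a‖ := by
    have e1 := line_sep y y a b hT.le
    have e2 := norm_sub_le (y + (T : ℂ) * a) (y + (T : ℂ) * b)
    have e3 : 0 < T * ‖a - b‖ := mul_pos hT (norm_pos_iff.2 (sub_ne_zero.2 hab))
    rw [sub_self, norm_zero] at e1
    linarith
  have i1 : T * (dot (y + (T : ℂ) * a) a + dot (y + (T : ℂ) * b) b) =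
      ‖y + (T : ℂ) * a‖ ^ 2 + ‖y + (T : ℂ) * b‖ ^ 2 - dot y (y + (T : ℂ) * a)
        - dot y (y + (T : ℂ) * b) := by
    rw [← dot_self, ← dot_self]
    simp only [dot, add_re, add_im, mul_re, mul_im, ofReal_re, ofReal_im]
    ring
  have i2 : T * (-(dot y a + dot y b)) =
      2 * ‖y‖ ^ 2 - dot y (y + (T : ℂ) * a) - dot y (y + (T : ℂ) * b) := by
    rw [← dot_self]
    simp only [dot, add_re, add_im, mul_re, mul_im, ofReal_re, ofReal_im]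
    ring
  constructor
  · refine (mul_pos_iff_of_pos_left hT).1 ?_
    rw [i1, nB, dA]
    nlinarith [pow_pos hApos 2]
  · refine (mul_pos_iff_of_pos_left hT).1 ?_
    rw [i2, dA]
    nlinarith [pow_pos hypos 2]

/-- the approximate bounce configuration -/
private lemma near_bounce {η Tm τ0 : ℝ} (hη : 0 < η) (hτ : 0 < τ0) : ∃ c > 0,
    ∀ (y y' a b : ℂ) (T τ : ℝ), 1 / 4 ≤ ‖y‖ → ‖y‖ ≤ 2 → ‖y'‖ ≤ 2 → ‖a‖ ≤ 5 → ‖b‖ ≤ 5 →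
    η ≤ ‖a - b‖ → τ0 ≤ T → T ≤ Tm → 0 ≤ τ → τ ≤ T →
    ‖y - y'‖ + ‖y + (τ : ℂ) * a‖ ^ 2 + |‖y + (T : ℂ) * a‖ ^ 2 - ‖y' + (T : ℂ) * b‖ ^ 2| ≤ c →
    c ≤ dot (y + (T : ℂ) * a) a + dot (y' + (T : ℂ) * b) b ∧ c ≤ -(dot y a + dot y' b) := by
  let K : Set (ℂ × ℂ × ℂ × ℂ × ℝ × ℝ) :=
    (Metric.closedBall 0 2 ×ˢ Metric.closedBall 0 2 ×ˢ Metric.closedBall 0 5 ×ˢ
      Metric.closedBall 0 5 ×ˢ Icc τ0 Tm ×ˢ Icc 0 Tm) ∩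
      {x | 1 / 4 ≤ ‖x.1‖ ∧ η ≤ ‖x.2.2.1 - x.2.2.2.1‖ ∧ x.2.2.2.2.2 ≤ x.2.2.2.2.1}
  have hK : IsCompact K := by
    refine IsCompact.inter_right ?_ ?_
    · exact (isCompact_closedBall _ _).prod ((isCompact_closedBall _ _).prod
        ((isCompact_closedBall _ _).prod ((isCompact_closedBall _ _).prod
          (isCompact_Icc.prod isCompact_Icc))))
    · simp only [Set.ofPred_and]
      refine IsClosed.inter (isClosed_le ?_ ?_) (IsClosed.inter (isClosed_le ?_ ?_)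
        (isClosed_le ?_ ?_)) <;> fun_prop
  obtain ⟨c, hc, H⟩ := compact_margin hK
    (D := fun x => ‖x.1 - x.2.1‖ + ‖x.1 + (x.2.2.2.2.2 : ℂ) * x.2.2.1‖ ^ 2 +
      |‖x.1 + (x.2.2.2.2.1 : ℂ) * x.2.2.1‖ ^ 2 - ‖x.2.1 + (x.2.2.2.2.1 : ℂ) * x.2.2.2.1‖ ^ 2|)
    (G := fun x => min (dot (x.1 + (x.2.2.2.2.1 : ℂ) * x.2.2.1) x.2.2.1 +
      dot (x.2.1 + (x.2.2.2.2.1 : ℂ) * x.2.2.2.1) x.2.2.2.1)
      (-(dot x.1 x.2.2.1 + dot x.2.1 x.2.2.2.1)))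
    (by apply Continuous.continuousOn; fun_prop)
    (by apply Continuous.continuousOn; unfold dot; fun_prop)
    (by
      rintro ⟨y, y', a, b, T, τ⟩ ⟨⟨-, -, -, -, hT, hτ'⟩, h1, h2, h3⟩ hD
      simp only at hT hτ' h1 h2 h3 hD ⊢
      have n1 := norm_nonneg (y - y')
      have n2 := sq_nonneg ‖y + (τ : ℂ) * a‖
      have n3 := abs_nonneg (‖y + (T : ℂ) * a‖ ^ 2 - ‖y' + (T : ℂ) * b‖ ^ 2)
      have e1 : y' = y := (sub_eq_zero.1 (norm_eq_zero.1 (by linarith))).symm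
      have e2 : y + (τ : ℂ) * a = 0 := by
        have : ‖y + (τ : ℂ) * a‖ ^ 2 = 0 := by linarith
        exact norm_eq_zero.1 (pow_eq_zero_iff two_ne_zero |>.1 this)
      have e3 : ‖y + (T : ℂ) * a‖ ^ 2 = ‖y' + (T : ℂ) * b‖ ^ 2 :=
        sub_eq_zero.1 (abs_eq_zero.1 (by linarith))
      subst e1
      have hy : y' ≠ 0 := norm_pos_iff.1 (by linarith)
      have hab : a ≠ b := sub_ne_zero.1 (norm_pos_iff.1 (by linarith))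
      exact lt_min_iff.2 (exact_bounce hy hab (hτ.trans_le hT.1) hτ'.1 h3 e2 e3))
  refine ⟨c, hc, ?_⟩
  intro y y' a b T τ h1 h2 h3 h4 h5 h6 h7 h8 h9 h10 hD
  refine le_min_iff.1 (H (y, y', a, b, T, τ) ⟨⟨?_, ?_, ?_, ?_, ⟨h7, h8⟩, ⟨h9, h10.trans h8⟩⟩,
    h1, h6, h10⟩ hD)
  · exact mem_closedBall_zero_iff.2 h2
  · exact mem_closedBall_zero_iff.2 h3
  · exact mem_closedBall_zero_iff.2 h4
  · exact mem_closedBall_zero_iff.2 h5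

/-- common core of nlz_b and nlz_c -/
private lemma nlz_bc {η Tm τ0 : ℝ} (hη : 0 < η) (hT : 0 < Tm) (hτ : 0 < τ0) :
    ∃ g0 > 0, ∃ c > 0, ∃ e > 0, ∀ (g : ℝ) (y1 p1 : ℝ → ℂ) (F1 : ℝ → ℝ) (y2 p2 : ℝ → ℂ)
    (F2 : ℝ → ℝ) (T : ℝ),
    Pair g 1 1 η Tm e y1 p1 F1 y2 p2 F2 0 T → g ≤ g0 → τ0 ≤ T → ‖y1 T - y2 T‖ ≤ e →
    c ≤ dot (y1 T) (p1 T) + dot (y2 T) (p2 T) ∧ dot (y1 0) (p1 0) + dot (y2 0) (p2 0) ≤ 0 := by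
  obtain ⟨c, hc, HB⟩ := near_bounce (Tm := Tm) hη hτ
  obtain ⟨ε, hε, hε1, hε2, hε3⟩ : ∃ ε : ℝ, 0 < ε ∧ ε ≤ 1 ∧ ε ≤ c / 8 ∧ ε ≤ τ0 * η / 8 :=
    ⟨min 1 (min (c / 8) (τ0 * η / 8)), by positivity, min_le_left _ _,
      (min_le_right _ _).trans (min_le_left _ _), (min_le_right _ _).trans (min_le_right _ _)⟩
  obtain ⟨e', he', H⟩ := pair_arcB (η := η) hT hε
  obtain ⟨e, he, he1, he2, he3, he4⟩ : ∃ e : ℝ, 0 < e ∧ e ≤ e' ∧ e ≤ 1 / 4 ∧ e ≤ ε ∧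
      e * (2 * (3 + 5 * Tm)) ≤ ε := by
    refine ⟨min (min e' (1 / 4)) (min ε (ε / (2 * (3 + 5 * Tm)))), by positivity,
      (min_le_left _ _).trans (min_le_left _ _), (min_le_left _ _).trans (min_le_right _ _),
      (min_le_right _ _).trans (min_le_left _ _), ?_⟩
    exact (le_div_iff₀ (by positivity)).1 ((min_le_right _ _).trans (min_le_right _ _))
  refine ⟨e', he', c / 2, by positivity, e, he, ?_⟩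
  intro g y1 p1 F1 y2 p2 F2 T P hg hτT hend
  obtain ⟨⟨hT0, hTm, hlo, hhi, hlo2, hhi2, hs1, hs2, hfast, hnear⟩, ⟨hK1, h1, h1'⟩,
    ⟨hK2, h2, h2'⟩⟩ := H e g y1 p1 F1 y2 p2 F2 T P hg he1 he2
  have k1 := abs_le.1 (h1 T ⟨hT0, le_rfl⟩)
  have k2 := abs_le.1 (h2 T ⟨hT0, le_rfl⟩)
  have b1 := norm_line_le (y1 0) (p1 0) hT0 hTm hhi hs1
  have b2 := norm_line_le (y2 0) (p2 0) hT0 hTm hhi2 hs2
  have r1 : ‖y1 T‖ ≤ 3 + 5 * Tm := by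
    have := pow_le_pow_left₀ (norm_nonneg _) b1 2
    refine (pow_le_pow_iff_left₀ (norm_nonneg _) (by positivity) two_ne_zero).1 ?_
    nlinarith [k1.2]
  have r2 : ‖y2 T‖ ≤ 3 + 5 * Tm := by
    have := pow_le_pow_left₀ (norm_nonneg _) b2 2
    refine (pow_le_pow_iff_left₀ (norm_nonneg _) (by positivity) two_ne_zero).1 ?_
    nlinarith [k2.2]
  have rad : |‖y1 T‖ ^ 2 - ‖y2 T‖ ^ 2| ≤ ε := by
    have e1 : ‖y1 T‖ ^ 2 - ‖y2 T‖ ^ 2 = (‖y1 T‖ - ‖y2 T‖) * (‖y1 T‖ + ‖y2 T‖) := by ring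
    have e2 := (abs_norm_sub_norm_le (y1 T) (y2 T)).trans hend
    rw [e1, abs_mul, abs_of_nonneg (by positivity : 0 ≤ ‖y1 T‖ + ‖y2 T‖)]
    exact (mul_le_mul e2 (by linarith) (by positivity) he.le).trans he4
  have rad' := abs_le.1 rad
  have radl : |‖y1 0 + (T : ℂ) * p1 0‖ ^ 2 - ‖y2 0 + (T : ℂ) * p2 0‖ ^ 2| ≤ 3 * ε :=
    abs_le.2 ⟨by linarith [k1.1, k1.2, k2.1, k2.2, rad'.1, rad'.2],
      by linarith [k1.1, k1.2, k2.1, k2.2, rad'.1, rad'.2]⟩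
  have key : c ≤ dot (y1 0 + (T : ℂ) * p1 0) (p1 0) + dot (y2 0 + (T : ℂ) * p2 0) (p2 0) ∧
      c ≤ -(dot (y1 0) (p1 0) + dot (y2 0) (p2 0)) := by
    rcases h1' with s1 | ⟨τ, hτ1, hτ2⟩
    · rcases h2' with s2 | ⟨τ, hτ1, hτ2⟩
      · exfalso
        have e1 := line_sep (y1 0) (y2 0) (p1 0) (p2 0) hT0
        have e2 : τ0 * η ≤ T * ‖p1 0 - p2 0‖ := mul_le_mul hτT hfast hη.le hT0
        have e3 : (y1 0 + (T : ℂ) * p1 0) - (y2 0 + (T : ℂ) * p2 0) =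
            (y2 T - (y2 0 + (T : ℂ) * p2 0)) - (y1 T - (y1 0 + (T : ℂ) * p1 0))
              + (y1 T - y2 T) := by ring
        have e4 := norm_add_le ((y2 T - (y2 0 + (T : ℂ) * p2 0)) - (y1 T - (y1 0 + (T : ℂ) * p1 0)))
          (y1 T - y2 T)
        have e5 := norm_sub_le (y2 T - (y2 0 + (T : ℂ) * p2 0)) (y1 T - (y1 0 + (T : ℂ) * p1 0))
        rw [← e3] at e4
        have e6 : 0 < τ0 * η := mul_pos hτ hη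
        linarith
      · have t1 := (abs_le.1 (h2 τ hτ1)).1
        have := HB (y2 0) (y1 0) (p2 0) (p1 0) T τ hlo2 hhi2 hhi hs2 hs1
          (by rwa [norm_sub_rev]) hτT hTm hτ1.1 hτ1.2
          (by rw [norm_sub_rev, abs_sub_comm]; linarith)
        exact ⟨by linarith [this.1], by linarith [this.2]⟩
    · have t1 := (abs_le.1 (h1 τ hτ1)).1
      exact HB (y1 0) (y2 0) (p1 0) (p2 0) T τ hlo hhi hhi2 hs1 hs2 hfast hτT hTm hτ1.1 hτ1.2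
        (by linarith)
  have q1 := (abs_le.1 hK1).1
  have q2 := (abs_le.1 hK2).1
  exact ⟨by linarith [key.1], by linarith [key.2]⟩

theorem nlz_b {η Tm τ0 : ℝ} (hη : 0 < η) (hT : 0 < Tm) (hτ : 0 < τ0) :
    ∃ g0 > 0, ∃ c > 0, ∃ e > 0, ∀ (g : ℝ) (y1 p1 : ℝ → ℂ) (F1 : ℝ → ℝ) (y2 p2 : ℝ → ℂ) (F2 : ℝ → ℝ) (T : ℝ),
    Pair g 1 1 η Tm e y1 p1 F1 y2 p2 F2 0 T → g ≤ g0 → τ0 ≤ T → ‖y1 T - y2 T‖ ≤ e →
    c ≤ dot (y1 T) (p1 T) + dot (y2 T) (p2 T) := by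
  obtain ⟨g0, hg0, c, hc, e, he, H⟩ := nlz_bc hη hT hτ
  exact ⟨g0, hg0, c, hc, e, he, fun g y1 p1 F1 y2 p2 F2 T P h1 h2 h3 =>
    (H g y1 p1 F1 y2 p2 F2 T P h1 h2 h3).1⟩

theorem nlz_c {η Tm τ0 ϑ : ℝ} (hη : 0 < η) (hT : 0 < Tm) (hτ : 0 < τ0) (hϑ : 0 < ϑ) :
    ∃ g0 > 0, ∃ e > 0, ∀ (g : ℝ) (y1 p1 : ℝ → ℂ) (F1 : ℝ → ℝ) (y2 p2 : ℝ → ℂ) (F2 : ℝ → ℝ) (T : ℝ),
    Pair g 1 1 η Tm e y1 p1 F1 y2 p2 F2 0 T → g ≤ g0 → τ0 ≤ T → ‖y1 T - y2 T‖ ≤ e →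
    dot (y1 0) (p1 0) + dot (y2 0) (p2 0) ≤ ϑ := by
  obtain ⟨g0, hg0, c, -, e, he, H⟩ := nlz_bc hη hT hτ
  exact ⟨g0, hg0, e, he, fun g y1 p1 F1 y2 p2 F2 T P h1 h2 h3 =>
    (H g y1 p1 F1 y2 p2 F2 T P h1 h2 h3).2.trans hϑ.le⟩

end Pool.Agent.Lib.MP_e310f3_mp.Gap
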