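import Pool.Agent.Lib.MP_e310f3_mp.Gap.NLp
import Pool.Agent.Lib.MP_e310f3_mp.Gap.NLz

open Complex Filter Topology Set

noncomputable section

namespace Pool.Agent.Lib.MP_e310f3_mp.Gap

private lemma nl_norm {r : ℝ} (hr : 0 < r) (y : ℂ) : ‖y / (r : ℂ)‖ = ‖y‖ / r := by
  rw [norm_div, Complex.norm_real, Real.norm_of_nonneg hr.le]

private lemma nl_hh {r a : ℝ} (hr : 0 < r) (ha : 0 < a) (g : ℝ) (y p : ℂ) :
    hh (g / (r * a ^ 2)) (y / (r : ℂ)) (p / (a : ℂ)) = hh g y p / a ^ 2 := by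
  rw [hh, hh, nl_norm hr, nl_norm ha]
  rcases eq_or_ne ‖y‖ 0 with h | h
  · simp [h]
    ring
  · field_simp

private lemma nl_dot (r a : ℝ) (y p : ℂ) :
    dot (y / (r : ℂ)) (p / (a : ℂ)) = dot y p / (r * a) := by
  simp only [dot, Complex.div_ofReal_re, Complex.div_ofReal_im]
  ring

private lemma nl_comp {E : Type*} [NormedAddCommGroup E] [NormedSpace ℝ E] {f : ℝ → E} {f' : E}
    {s r a τ : ℝ} (h : HasDerivAt f f' (s + τ * r / a)) :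
    HasDerivAt (fun τ => f (s + τ * r / a)) ((r / a) • f') τ := by
  have h1 : HasDerivAt (fun τ : ℝ => s + τ * r / a) (r / a) τ := by
    simpa using (((hasDerivAt_id τ).mul_const r).div_const a).const_add s
  exact h.scomp τ h1

private lemma nl_arc {g r a s : ℝ} {y p : ℝ → ℂ} {F : ℝ → ℝ} (h : Arc g y p F) (hr : 0 < r)
    (ha : 0 < a) : Arc (g / (r * a ^ 2)) (fun τ => y (s + τ * r / a) / (r : ℂ))
      (fun τ => p (s + τ * r / a) / (a : ℂ)) (fun τ => F (s + τ * r / a) / a) := by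
  have h1 : (r : ℂ) ≠ 0 := Complex.ofReal_ne_zero.2 hr.ne'
  have h2 : (a : ℂ) ≠ 0 := Complex.ofReal_ne_zero.2 ha.ne'
  refine ⟨fun τ => div_ne_zero (h.ne _) h1, fun τ => ?_, fun τ => ?_⟩
  · refine ((nl_comp (h.dy _)).div_const (r : ℂ)).congr_deriv ?_
    rw [Complex.real_smul]
    push_cast
    field_simp
  · obtain ⟨f, φ, d1, d2, d3⟩ := h.dp (s + τ * r / a)
    have h3 : ((‖y (s + τ * r / a)‖ : ℝ) : ℂ) ≠ 0 :=
      Complex.ofReal_ne_zero.2 (norm_ne_zero_iff.2 (h.ne _))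
    refine ⟨((r / a) • f) / (a : ℂ), (r / a) • φ / a,
      ((nl_comp d1).div_const (a : ℂ)).congr_deriv ?_, (nl_comp d2).div_const a, ?_⟩
    · simp only [acc, nl_norm hr, Complex.real_smul]
      push_cast
      field_simp
    · rw [nl_norm ha, norm_smul, Real.norm_of_nonneg (by positivity), smul_eq_mul]
      gcongr

private lemma nl_mono {g r a η Tm e e' : ℝ} {y1 p1 : ℝ → ℂ} {F1 : ℝ → ℝ} {y2 p2 : ℝ → ℂ}
    {F2 : ℝ → ℝ} {s t : ℝ} (h : Pair g r a η Tm e y1 p1 F1 y2 p2 F2 s t) (he : e ≤ e') :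
    Pair g r a η Tm e' y1 p1 F1 y2 p2 F2 s t := by
  have h1 : e * r ≤ e' * r := mul_le_mul_of_nonneg_right he h.rpos.le
  have h2 : e * a ≤ e' * a := mul_le_mul_of_nonneg_right he h.apos.le
  have h3 : e * a ^ 2 ≤ e' * a ^ 2 := mul_le_mul_of_nonneg_right he (sq_nonneg a)
  exact { h with
    near := h.near.trans h1
    en := (neg_le_neg h3).trans h.en
    dh1 := fun τ hτ => (h.dh1 τ hτ).trans h3
    dh2 := fun τ hτ => (h.dh2 τ hτ).trans h3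
    dF1 := h.dF1.trans h2
    dF2 := h.dF2.trans h2 }

private lemma nl_end {r a : ℝ} (hr : 0 < r) (ha : 0 < a) (s t : ℝ) :
    s + (t - s) * a / r * r / a = t := by
  field_simp
  ring

private lemma nl_start (r a s : ℝ) : s + 0 * r / a = s := by simp

private lemma nl_time {r a τ0 s t : ℝ} (hr : 0 < r) (ha : 0 < a) (h : s + τ0 * r / a ≤ t) :
    τ0 ≤ (t - s) * a / r := by
  rw [le_div_iff₀ hr, ← div_le_iff₀ ha]
  linarith

private lemma nl_near {r e : ℝ} (hr : 0 < r) {y y' : ℂ} (h : ‖y - y'‖ ≤ e * r) :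
    ‖y / (r : ℂ) - y' / (r : ℂ)‖ ≤ e := by
  rwa [← sub_div, nl_norm hr, div_le_iff₀ hr]

/-- rescaling to unit length and unit speed -/
theorem Pair.rescale {g r a η Tm e : ℝ} {y1 p1 : ℝ → ℂ} {F1 : ℝ → ℝ} {y2 p2 : ℝ → ℂ}
    {F2 : ℝ → ℝ} {s t : ℝ} (h : Pair g r a η Tm e y1 p1 F1 y2 p2 F2 s t) :
    Pair (g / (r * a ^ 2)) 1 1 η Tm e (fun τ => y1 (s + τ * r / a) / (r : ℂ))
      (fun τ => p1 (s + τ * r / a) / (a : ℂ)) (fun τ => F1 (s + τ * r / a) / a)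
      (fun τ => y2 (s + τ * r / a) / (r : ℂ)) (fun τ => p2 (s + τ * r / a) / (a : ℂ))
      (fun τ => F2 (s + τ * r / a) / a) 0 ((t - s) * a / r) := by
  have hr := h.rpos
  have ha := h.apos
  have ha2 : 0 < a ^ 2 := by positivity
  have hst := sub_nonneg.2 h.st
  have hm : ∀ τ ∈ Icc 0 ((t - s) * a / r), s + τ * r / a ∈ Icc s t := fun τ hτ =>
    ⟨le_add_of_nonneg_right (div_nonneg (mul_nonneg hτ.1 hr.le) ha.le), by
      rw [← nl_end hr ha s t]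
      gcongr
      exact hτ.2⟩
  refine ⟨nl_arc h.arc1 hr ha, nl_arc h.arc2 hr ha, div_pos h.gpos (by positivity), one_pos,
    one_pos, ?_, by positivity, ?_, ?_, ?_, ?_, ?_, ?_, ?_, ?_, fun τ hτ => ?_, fun τ hτ => ?_,
    ?_, ?_⟩
  · rw [div_le_iff₀ (by positivity)]
    linarith [h.gle]
  · have h1 := h.time
    rw [le_div_iff₀ ha] at h1
    rwa [sub_zero, mul_one, div_one, div_le_iff₀ hr]
  · rw [nl_start, nl_norm hr, le_div_iff₀ hr]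
    linarith [h.lo]
  · rw [nl_start, nl_norm hr, div_le_one hr]
    exact h.hi
  · rw [nl_start, mul_one]
    exact nl_near hr h.near
  · rw [nl_start, nl_norm ha, mul_one, div_le_iff₀ ha]
    exact h.sp1
  · rw [nl_start, nl_norm ha, mul_one, div_le_iff₀ ha]
    exact h.sp2
  · rw [nl_start, ← sub_div, nl_norm ha, mul_one, le_div_iff₀ ha]
    exact h.fast
  · rw [nl_start, nl_hh hr ha, nl_hh hr ha, ← add_div, le_div_iff₀ ha2]
    linarith [h.en]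
  · rw [nl_start, nl_hh hr ha, nl_hh hr ha, ← sub_div, abs_div, abs_of_pos ha2, one_pow, mul_one,
      div_le_iff₀ ha2]
    exact h.dh1 _ (hm τ hτ)
  · rw [nl_start, nl_hh hr ha, nl_hh hr ha, ← sub_div, abs_div, abs_of_pos ha2, one_pow, mul_one,
      div_le_iff₀ ha2]
    exact h.dh2 _ (hm τ hτ)
  · rw [nl_start, nl_end hr ha, ← sub_div, mul_one, div_le_iff₀ ha]
    exact h.dF1
  · rw [nl_start, nl_end hr ha, ← sub_div, mul_one, div_le_iff₀ ha]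
    exact h.dF2

theorem nl_a {η Tm : ℝ} (hη : 0 < η) (hT : 0 < Tm) : ∃ c > 0, ∃ e > 0,
    ∀ (g r a : ℝ) (y1 p1 : ℝ → ℂ) (F1 : ℝ → ℝ) (y2 p2 : ℝ → ℂ) (F2 : ℝ → ℝ) (s t : ℝ),
    Pair g r a η Tm e y1 p1 F1 y2 p2 F2 s t → c * r ^ 2 ≤ ‖y1 t‖ ^ 2 + ‖y2 t‖ ^ 2 := by
  obtain ⟨g0, hg0, c1, hc1, e1, he1, H1⟩ := nlz_a hη hT
  obtain ⟨c2, hc2, e2, he2, H2⟩ := nlp_a hg0 hη hT
  refine ⟨min c1 c2, lt_min hc1 hc2, min e1 e2, lt_min he1 he2,
    fun g r a y1 p1 F1 y2 p2 F2 s t h => ?_⟩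
  have hr := h.rpos
  have key : min c1 c2 ≤ ‖y1 t / (r : ℂ)‖ ^ 2 + ‖y2 t / (r : ℂ)‖ ^ 2 := by
    rcases le_total (g / (r * a ^ 2)) g0 with hg | hg
    · simpa only [nl_end hr h.apos] using (min_le_left c1 c2).trans
        (H1 _ _ _ _ _ _ _ _ (nl_mono h.rescale (min_le_left _ _)) hg)
    · simpa only [nl_end hr h.apos] using (min_le_right c1 c2).trans
        (H2 _ _ _ _ _ _ _ _ (nl_mono h.rescale (min_le_right _ _)) hg)
  rwa [nl_norm hr, nl_norm hr, div_pow, div_pow, ← add_div, le_div_iff₀ (by positivity)] at key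

theorem nl_b {η Tm τ0 : ℝ} (hη : 0 < η) (hT : 0 < Tm) (hτ : 0 < τ0) : ∃ c > 0, ∃ e > 0,
    ∀ (g r a : ℝ) (y1 p1 : ℝ → ℂ) (F1 : ℝ → ℝ) (y2 p2 : ℝ → ℂ) (F2 : ℝ → ℝ) (s t : ℝ),
    Pair g r a η Tm e y1 p1 F1 y2 p2 F2 s t → s + τ0 * r / a ≤ t → ‖y1 t - y2 t‖ ≤ e * r →
    c * (r * a) ≤ dot (y1 t) (p1 t) + dot (y2 t) (p2 t) := by
  obtain ⟨g0, hg0, c1, hc1, e1, he1, H1⟩ := nlz_b hη hT hτ
  obtain ⟨c2, hc2, e2, he2, H2⟩ := nlp_b hg0 hη hT hτ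
  refine ⟨min c1 c2, lt_min hc1 hc2, min e1 e2, lt_min he1 he2,
    fun g r a y1 p1 F1 y2 p2 F2 s t h h1 h2 => ?_⟩
  have hr := h.rpos
  have ha := h.apos
  have h3 := nl_near hr h2
  have key : min c1 c2 ≤ dot (y1 t / (r : ℂ)) (p1 t / (a : ℂ)) +
      dot (y2 t / (r : ℂ)) (p2 t / (a : ℂ)) := by
    rcases le_total (g / (r * a ^ 2)) g0 with hg | hg
    · simpa only [nl_end hr ha] using (min_le_left c1 c2).trans
        (H1 _ _ _ _ _ _ _ _ (nl_mono h.rescale (min_le_left _ _)) hg (nl_time hr ha h1)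
          (by simpa only [nl_end hr ha] using h3.trans (min_le_left _ _)))
    · simpa only [nl_end hr ha] using (min_le_right c1 c2).trans
        (H2 _ _ _ _ _ _ _ _ (nl_mono h.rescale (min_le_right _ _)) hg (nl_time hr ha h1)
          (by simpa only [nl_end hr ha] using h3.trans (min_le_right _ _)))
  rwa [nl_dot, nl_dot, ← add_div, le_div_iff₀ (by positivity)] at key

theorem nl_c {η Tm τ0 ϑ : ℝ} (hη : 0 < η) (hT : 0 < Tm) (hτ : 0 < τ0) (hϑ : 0 < ϑ) : ∃ e > 0,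
    ∀ (g r a : ℝ) (y1 p1 : ℝ → ℂ) (F1 : ℝ → ℝ) (y2 p2 : ℝ → ℂ) (F2 : ℝ → ℝ) (s t : ℝ),
    Pair g r a η Tm e y1 p1 F1 y2 p2 F2 s t → s + τ0 * r / a ≤ t → ‖y1 t - y2 t‖ ≤ e * r →
    dot (y1 s) (p1 s) + dot (y2 s) (p2 s) ≤ ϑ * (r * a) := by
  obtain ⟨g0, hg0, e1, he1, H1⟩ := nlz_c hη hT hτ hϑ
  obtain ⟨e2, he2, H2⟩ := nlp_c hg0 hη hT hτ hϑ
  refine ⟨min e1 e2, lt_min he1 he2, fun g r a y1 p1 F1 y2 p2 F2 s t h h1 h2 => ?_⟩
  have hr := h.rpos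
  have ha := h.apos
  have h3 := nl_near hr h2
  have key : dot (y1 s / (r : ℂ)) (p1 s / (a : ℂ)) +
      dot (y2 s / (r : ℂ)) (p2 s / (a : ℂ)) ≤ ϑ := by
    rcases le_total (g / (r * a ^ 2)) g0 with hg | hg
    · simpa only [nl_start] using
        H1 _ _ _ _ _ _ _ _ (nl_mono h.rescale (min_le_left _ _)) hg (nl_time hr ha h1)
          (by simpa only [nl_end hr ha] using h3.trans (min_le_left _ _))
    · simpa only [nl_start] using
        H2 _ _ _ _ _ _ _ _ (nl_mono h.rescale (min_le_right _ _)) hg (nl_time hr ha h1)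
          (by simpa only [nl_end hr ha] using h3.trans (min_le_right _ _))
  rwa [nl_dot, nl_dot, ← add_div, div_le_iff₀ (by positivity)] at key

theorem nl_d {η Tm τ0 : ℝ} (hη : 0 < η) (hT : 0 < Tm) (hτ : 0 < τ0) : ∃ e > 0,
    ∀ (g r a : ℝ) (y1 p1 : ℝ → ℂ) (F1 : ℝ → ℝ) (y2 p2 : ℝ → ℂ) (F2 : ℝ → ℝ) (s t : ℝ),
    Pair g r a η Tm e y1 p1 F1 y2 p2 F2 s t → s + τ0 * r / a ≤ t → ‖y1 t - y2 t‖ ≤ e * r →
    r * a ^ 2 ≤ 3 * g → |hh g (y1 s) (p1 s) + hh g (y2 s) (p2 s)| ≤ e * a ^ 2 →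
    |dot (p1 s) (p2 s)| ≤ e * a ^ 2 →
    (‖y1 t‖ * dot (p1 t) (p2 t)) ^ 2 ≤ 29 / 10 * g ^ 2 := by
  obtain ⟨e, he, H⟩ := nlp_d hη hT hτ
  refine ⟨e, he, fun g r a y1 p1 F1 y2 p2 F2 s t h h1 h2 h3 h4 h5 => ?_⟩
  have hr := h.rpos
  have ha := h.apos
  have ha2 : 0 < a ^ 2 := by positivity
  have key := H _ _ _ _ _ _ _ _ h.rescale (by rw [le_div_iff₀ (by positivity)]; linarith)
    (nl_time hr ha h1) (by simpa only [nl_end hr ha] using nl_near hr h2)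
    (by rwa [nl_start, nl_hh hr ha, nl_hh hr ha, ← add_div, abs_div, abs_of_pos ha2,
      div_le_iff₀ ha2])
    (by rwa [nl_start, nl_dot, ← sq, abs_div, abs_of_pos ha2, div_le_iff₀ ha2])
  rw [nl_end hr ha, nl_norm hr, nl_dot, ← sq, div_mul_div_comm, div_pow, div_pow,
    ← mul_div_assoc] at key
  exact (div_le_div_iff_of_pos_right (by positivity)).1 key

end Pool.Agent.Lib.MP_e310f3_mp.Gap
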