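import Pool.Agent.Lib.MP_e310f3_mp.Gap.Lam
import Pool.Agent.Lib.MP_e310f3_mp.Gap.ArcA

open Complex Filter Topology Set

noncomputable section

namespace Pool.Agent.Lib.MP_e310f3_mp.Gap

/-- parameters: coupling, two energies, two lengths; start, start, two momenta, four errors -/
abbrev NX := (Fin 5 → ℝ) × (Fin 8 → ℂ)

def nA (x : NX) : ℂ := Zf (x.1 1) (x.1 3) (x.2 0) (x.2 2) + x.2 4
def nA' (x : NX) : ℂ := Wf (x.1 1) (x.1 3) (x.2 0) (x.2 2) + x.2 5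
def nB (x : NX) : ℂ := Zf (x.1 2) (x.1 4) (x.2 1) (x.2 3) + x.2 6
def nB' (x : NX) : ℂ := Wf (x.1 2) (x.1 4) (x.2 1) (x.2 3) + x.2 7
def nTa (x : NX) : ℝ := Tf (x.1 1) (x.1 3) (x.2 0) (x.2 2)
def nTb (x : NX) : ℝ := Tf (x.1 2) (x.1 4) (x.2 1) (x.2 3)

lemma cont_pick (i j : Fin 5) (k l : Fin 8) :
    Continuous fun x : NX => ((x.1 i, x.1 j, x.2 k, x.2 l) : ℝ × ℝ × ℂ × ℂ) := by fun_prop

lemma cont_nA : Continuous nA := by
  have h := continuous_Zf.comp (cont_pick 1 3 0 2)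
  simp only [Function.comp_def] at h
  exact h.add (by fun_prop)
lemma cont_nA' : Continuous nA' := by
  have h := continuous_Wf.comp (cont_pick 1 3 0 2)
  simp only [Function.comp_def] at h
  exact h.add (by fun_prop)
lemma cont_nB : Continuous nB := by
  have h := continuous_Zf.comp (cont_pick 2 4 1 3)
  simp only [Function.comp_def] at h
  exact h.add (by fun_prop)
lemma cont_nB' : Continuous nB' := by
  have h := continuous_Wf.comp (cont_pick 2 4 1 3)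
  simp only [Function.comp_def] at h
  exact h.add (by fun_prop)
lemma cont_nTa : Continuous nTa := by
  have h := continuous_Tf.comp (cont_pick 1 3 0 2)
  simp only [Function.comp_def] at h
  exact h
lemma cont_nTb : Continuous nTb := by
  have h := continuous_Tf.comp (cont_pick 2 4 1 3)
  simp only [Function.comp_def] at h
  exact h

lemma cont_dot {X : Type} [TopologicalSpace X] {f k : X → ℂ} (hf : Continuous f)
    (hk : Continuous k) : Continuous fun x => dot (f x) (k x) := by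
  unfold dot
  fun_prop

/-- the exact configurations -/
structure NGood (τ : ℝ) (x : NX) : Prop where
  lp : LP (x.1 0) (x.2 0) (x.2 2) (x.2 3) (x.1 1) (x.1 2) (x.1 3) (x.1 4)
  z : x.2 1 = x.2 0
  a : nA x = Zf (x.1 1) (x.1 3) (x.2 0) (x.2 2)
  a' : nA' x = Wf (x.1 1) (x.1 3) (x.2 0) (x.2 2)
  b : nB x = Zf (x.1 2) (x.1 4) (x.2 0) (x.2 3)
  b' : nB' x = Wf (x.1 2) (x.1 4) (x.2 0) (x.2 3)
  t : τ ≤ Tf (x.1 1) (x.1 3) (x.2 0) (x.2 2)

/-- the parameters read off a pair of perturbed arcs -/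
structure NLink (e g : ℝ) (y1 p1 y2 p2 : ℝ → ℂ) (T : ℝ) (x : NX) : Prop where
  hg : x.1 0 = g
  la : x.1 1 = hh g (y1 0) (p1 0) / 2
  lb : x.1 2 = hh g (y2 0) (p2 0) / 2
  z : x.2 0 ^ 2 = y1 0
  zb : x.2 1 ^ 2 = y2 0
  zz : ‖x.2 1 - x.2 0‖ ≤ 2 * e
  wa : x.2 2 = (starRingEnd ℂ) (x.2 0) * p1 0 / 2
  wb : x.2 3 = (starRingEnd ℂ) (x.2 1) * p2 0 / 2
  a : nA x ^ 2 = y1 T
  a' : nA' x = (starRingEnd ℂ) (nA x) * p1 T / 2
  b : nB x ^ 2 = y2 T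
  b' : nB' x = (starRingEnd ℂ) (nB x) * p2 T / 2

lemma lc_energy (g : ℝ) {y p z : ℂ} (hy : y ≠ 0) (hz : z ^ 2 = y) :
    ‖(starRingEnd ℂ) z * p / 2‖ ^ 2 = g / 2 + hh g y p / 2 * ‖z‖ ^ 2 := by
  have h1 : ‖y‖ = ‖z‖ ^ 2 := by rw [← hz, norm_pow]
  have h2 : 0 < ‖y‖ := norm_pos_iff.2 hy
  rw [norm_div, norm_mul, Complex.norm_conj, div_pow, mul_pow, ← h1, normSq_p g y p]
  simp only [Complex.norm_ofNat]
  field_simp
  ring

lemma lc_dot {y p z : ℂ} (hz : z ^ 2 = y) :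
    2 * dot z ((starRingEnd ℂ) z * p / 2) = dot y p := by
  rw [← hz]
  simp [dot, pow_two]
  ring

lemma hh_abs {g : ℝ} {y p : ℂ} (hg : 0 < g) (hg3 : g ≤ 3) (hy : 1 / 4 ≤ ‖y‖) (hp : ‖p‖ ≤ 5) :
    |hh g y p / 2| ≤ 7 := by
  have h1 : g / ‖y‖ ≤ 12 := by
    rw [div_le_iff₀ (by linarith)]
    linarith
  have h2 : 0 ≤ g / ‖y‖ := by positivity
  have h3 : ‖p‖ ^ 2 ≤ 5 ^ 2 := pow_le_pow_left₀ (norm_nonneg _) hp 2
  have h4 : 0 ≤ ‖p‖ ^ 2 := by positivity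
  unfold hh
  rw [abs_le]
  constructor <;> linarith

/-- the compact parameter set -/
def NK (g0 η τ ρ : ℝ) : Set NX := Metric.closedBall 0 ρ ∩
  {x | g0 ≤ x.1 0 ∧ 1 / 2 ≤ ‖x.2 0‖ ∧ ‖x.2 2‖ ^ 2 = x.1 0 / 2 + x.1 1 * ‖x.2 0‖ ^ 2 ∧
    ‖x.2 3‖ ^ 2 = x.1 0 / 2 + x.1 2 * ‖x.2 1‖ ^ 2 ∧ η / 8 ≤ ‖x.2 2 - x.2 3‖ ∧ 0 ≤ x.1 3 ∧
    0 ≤ x.1 4 ∧ τ ≤ nTa x}

lemma NK_compact (g0 η τ ρ : ℝ) : IsCompact (NK g0 η τ ρ) := by
  refine (isCompact_closedBall 0 ρ).inter_right ?_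
  simp only [ofPred_and]
  refine (isClosed_le (by fun_prop) (by fun_prop)).inter
    ((isClosed_le (by fun_prop) (by fun_prop)).inter
    ((isClosed_eq (by fun_prop) (by fun_prop)).inter
    ((isClosed_eq (by fun_prop) (by fun_prop)).inter
    ((isClosed_le (by fun_prop) (by fun_prop)).inter
    ((isClosed_le (by fun_prop) (by fun_prop)).inter
    ((isClosed_le (by fun_prop) (by fun_prop)).inter
    (isClosed_le (by fun_prop) cont_nTa)))))))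

/-- the defect -/
def nD (x : NX) : ℝ := ‖x.2 1 - x.2 0‖ + max 0 (-(x.1 1 + x.1 2)) + |nTa x - nTb x|
  + ‖x.2 4‖ + ‖x.2 5‖ + ‖x.2 6‖ + ‖x.2 7‖

lemma cont_nD : Continuous nD := by
  have h1 := cont_nTa
  have h2 := cont_nTb
  unfold nD
  fun_prop

lemma good_of {g0 η τ ρ : ℝ} (hg0 : 0 < g0) (hη : 0 < η) {x : NX} (hx : x ∈ NK g0 η τ ρ)
    (hD : nD x ≤ 0) : NGood τ x := by
  obtain ⟨-, k1, k2, k3, k4, k5, k6, k7, k8⟩ := hx
  have p1 := norm_nonneg (x.2 1 - x.2 0)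
  have p2 := le_max_left 0 (-(x.1 1 + x.1 2))
  have p2' := le_max_right 0 (-(x.1 1 + x.1 2))
  have p3 := abs_nonneg (nTa x - nTb x)
  have p4 := norm_nonneg (x.2 4)
  have p5 := norm_nonneg (x.2 5)
  have p6 := norm_nonneg (x.2 6)
  have p7 := norm_nonneg (x.2 7)
  unfold nD at hD
  have q1 : x.2 1 = x.2 0 := sub_eq_zero.1 (norm_eq_zero.1 (by linarith))
  have q3 : nTa x = nTb x := sub_eq_zero.1 (abs_eq_zero.1 (by linarith))
  have q4 : x.2 4 = 0 := norm_eq_zero.1 (by linarith)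
  have q5 : x.2 5 = 0 := norm_eq_zero.1 (by linarith)
  have q6 : x.2 6 = 0 := norm_eq_zero.1 (by linarith)
  have q7 : x.2 7 = 0 := norm_eq_zero.1 (by linarith)
  refine ⟨⟨by linarith, norm_pos_iff.1 (by linarith), k3, q1 ▸ k4, by linarith,
    sub_ne_zero.1 (norm_pos_iff.1 (by linarith)), k6, k7, ?_⟩, q1, ?_, ?_, ?_, ?_, k8⟩
  · unfold nTa nTb at q3
    rw [q3, q1]
  · rw [nA, q4, add_zero]
  · rw [nA', q5, add_zero]
  · rw [nB, q6, add_zero, q1]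
  · rw [nB', q7, add_zero, q1]

lemma nlp_core {g0 η Tm τ τ' : ℝ} (hg0 : 0 < g0) (hη : 0 < η) (hT : 0 < Tm) (hτ : τ' < τ)
    {E G : NX → ℝ} (hE : Continuous E) (hG : Continuous G) (hE0 : ∀ x, 0 ≤ E x)
    (h : ∀ x, NGood τ' x → E x = 0 → 0 < G x) :
    ∃ c > 0, ∃ e0 > 0, e0 ≤ 1 ∧ ∀ e, e ≤ e0 →
      ∀ (g : ℝ) (y1 p1 : ℝ → ℂ) (F1 : ℝ → ℝ) (y2 p2 : ℝ → ℂ) (F2 : ℝ → ℝ) (T : ℝ),
      Pair g 1 1 η Tm e y1 p1 F1 y2 p2 F2 0 T → g0 ≤ g → τ ≤ T →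
      ∃ x, NLink e g y1 p1 y2 p2 T x ∧ (E x ≤ c → c ≤ G x) := by
  obtain ⟨Sg, hSg, hA⟩ := arcA hg0 hT
  have nD0 : ∀ x, 0 ≤ nD x := fun x => by
    unfold nD
    have := le_max_left 0 (-(x.1 1 + x.1 2))
    positivity
  obtain ⟨c, hc, hm⟩ := compact_margin (NK_compact g0 η τ' (Sg + 7))
    (D := fun x => nD x + E x) (G := G) (cont_nD.add hE).continuousOn hG.continuousOn
    fun x hx hD => h x (good_of hg0 hη hx (by linarith [hE0 x])) (by linarith [hE0 x, nD0 x])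
  set e1 := min (min (c / 20) 1) (τ - τ') with he1
  have e1p : 0 < e1 := lt_min (lt_min (by positivity) one_pos) (by linarith)
  have e1c : e1 ≤ c / 20 := (min_le_left _ _).trans (min_le_left _ _)
  have e11 : e1 ≤ 1 := (min_le_left _ _).trans (min_le_right _ _)
  have e1τ : e1 ≤ τ - τ' := min_le_right _ _
  clear_value e1
  obtain ⟨e', he', hA'⟩ := hA e1 e1p
  refine ⟨c / 2, half_pos hc, min (min e' e1) (min (η / 40) (1 / 4)),
    lt_min (lt_min he' e1p) (lt_min (by positivity) (by norm_num)),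
    (min_le_left _ _).trans ((min_le_right _ _).trans e11),
    fun e he g y1 p1 F1 y2 p2 F2 T P hg hτT => ?_⟩
  have ee' : e ≤ e' := he.trans ((min_le_left _ _).trans (min_le_left _ _))
  have ee1 : e ≤ e1 := he.trans ((min_le_left _ _).trans (min_le_right _ _))
  have eη : e ≤ η / 40 := he.trans ((min_le_right _ _).trans (min_le_left _ _))
  have e4 : e ≤ 1 / 4 := he.trans ((min_le_right _ _).trans (min_le_right _ _))
  have gle : g ≤ 3 := by simpa using P.gle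
  have time : T ≤ Tm := by simpa using P.time
  have lo : 1 / 2 ≤ ‖y1 0‖ := P.lo
  have hi : ‖y1 0‖ ≤ 1 := P.hi
  have near : ‖y1 0 - y2 0‖ ≤ e := by simpa using P.near
  have sp1 : ‖p1 0‖ ≤ 5 := by simpa using P.sp1
  have sp2 : ‖p2 0‖ ≤ 5 := by simpa using P.sp2
  have fast : η ≤ ‖p1 0 - p2 0‖ := by simpa using P.fast
  have en : -e ≤ hh g (y1 0) (p1 0) + hh g (y2 0) (p2 0) := by simpa using P.en
  have e0 : 0 ≤ e := (norm_nonneg _).trans near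
  have n2 := abs_le.1 ((abs_norm_sub_norm_le (y1 0) (y2 0)).trans near)
  obtain ⟨z, hz⟩ := exists_sqrt (y1 0)
  have nz : ‖z‖ ^ 2 = ‖y1 0‖ := by rw [← hz, norm_pow]
  have nz1 : ‖z‖ ≤ 1 := abs_le_of_sq_le_sq' (by linarith) zero_le_one |>.2
  have nz2 : 1 / 2 ≤ ‖z‖ := abs_le_of_sq_le_sq' (by linarith) (norm_nonneg _) |>.2
  obtain ⟨zb, hzb, hzz⟩ := exists_sqrt_near (z := z) (y' := y2 0) (θ := 2 * e) (by
    rw [hz, norm_sub_rev, nz]
    nlinarith)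
  have hzz' : ‖zb - z‖ ≤ 2 * e := hzz.trans (by nlinarith)
  have nzb : ‖zb‖ ≤ 3 / 2 := by linarith [norm_sub_norm_le zb z]
  obtain ⟨sa, hsa, z1, a1, a2, a3, a4⟩ := hA' g y1 p1 F1 T z P.arc1 hg gle P.st time (by linarith)
    (by linarith) sp1 (fun u hu => by have := P.dh1 u hu; linarith) (by linarith [P.dF1]) hz
  obtain ⟨sb, hsb, z2, b1, b2, b3, b4⟩ := hA' g y2 p2 F2 T zb P.arc2 hg gle P.st time
    (by linarith [n2.2]) (by linarith [n2.1]) sp2 (fun u hu => by have := P.dh2 u hu; linarith)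
    (by linarith [P.dF2]) hzb
  set la := hh g (y1 0) (p1 0) / 2 with hla
  set lb := hh g (y2 0) (p2 0) / 2 with hlb
  set wa := (starRingEnd ℂ) z * p1 0 / 2 with hwa
  set wb := (starRingEnd ℂ) zb * p2 0 / 2 with hwb
  have ba : |la| ≤ 7 := hh_abs P.gpos gle (by linarith) sp1
  have bb : |lb| ≤ 7 := hh_abs P.gpos gle (by linarith [n2.2]) sp2
  have nwa : ‖wa‖ ≤ 5 := by
    rw [hwa, norm_div, norm_mul, Complex.norm_conj, Complex.norm_ofNat]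
    nlinarith [mul_le_mul nz1 sp1 (norm_nonneg _) zero_le_one]
  have nwb : ‖wb‖ ≤ 5 := by
    rw [hwb, norm_div, norm_mul, Complex.norm_conj, Complex.norm_ofNat]
    nlinarith [mul_le_mul nzb sp2 (norm_nonneg _) (by norm_num)]
  have hw : η / 8 ≤ ‖wa - wb‖ := by
    have e1' : (starRingEnd ℂ) z * (p1 0 - p2 0) / 2
        = (wa - wb) + (starRingEnd ℂ) (zb - z) * p2 0 / 2 := by
      rw [hwa, hwb, map_sub]
      ring
    have e2 := norm_add_le (wa - wb) ((starRingEnd ℂ) (zb - z) * p2 0 / 2)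
    rw [← e1', norm_div, norm_div, norm_mul, norm_mul, Complex.norm_conj, Complex.norm_conj,
      Complex.norm_ofNat] at e2
    have e3 := mul_le_mul nz2 fast hη.le (norm_nonneg _)
    have e5 := mul_le_mul hzz' sp2 (norm_nonneg _) (by linarith)
    linarith
  set x : NX := (![g, la, lb, sa, sb], ![z, zb, wa, wb, z1 - Zf la sa z wa,
    (starRingEnd ℂ) z1 * p1 T / 2 - Wf la sa z wa, z2 - Zf lb sb zb wb,
    (starRingEnd ℂ) z2 * p2 T / 2 - Wf lb sb zb wb]) with hx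
  have xA : nA x = z1 := by simp [nA, hx]
  have xB : nB x = z2 := by simp [nB, hx]
  have xTa : nTa x = Tf la sa z wa := by simp [nTa, hx]
  have xTb : nTb x = Tf lb sb zb wb := by simp [nTb, hx]
  have a4' := abs_le.1 a4
  have b4' := abs_le.1 b4
  have hxK : x ∈ NK g0 η τ' (Sg + 7) := by
    refine ⟨?_, hg, nz2, lc_energy g (P.arc1.ne 0) hz, lc_energy g (P.arc2.ne 0) hzb, hw, hsa.1,
      hsb.1, by rw [xTa]; linarith [a4'.2]⟩
    rw [mem_closedBall_zero_iff, Prod.norm_def, max_le_iff, pi_norm_le_iff_of_nonneg (by linarith),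
      pi_norm_le_iff_of_nonneg (by linarith)]
    constructor
    · intro i
      fin_cases i
      · exact (abs_of_pos P.gpos).trans_le (by linarith)
      · exact ba.trans (by linarith)
      · exact bb.trans (by linarith)
      · exact (abs_of_nonneg hsa.1).trans_le (by linarith [hsa.2])
      · exact (abs_of_nonneg hsb.1).trans_le (by linarith [hsb.2])
    · intro i
      fin_cases i
      · exact nz1.trans (by linarith)
      · exact nzb.trans (by linarith)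
      · exact nwa.trans (by linarith)
      · exact nwb.trans (by linarith)
      · exact a2.trans (by linarith)
      · exact a3.trans (by linarith)
      · exact b2.trans (by linarith)
      · exact b3.trans (by linarith)
  have hD : nD x ≤ c / 2 := by
    have d1 : max 0 (-(la + lb)) ≤ e := max_le e0 (by rw [hla, hlb]; linarith)
    have d2 : |Tf la sa z wa - Tf lb sb zb wb| ≤ 2 * e1 := by
      rw [abs_le]
      constructor <;> linarith [a4'.1, a4'.2, b4'.1, b4'.2]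
    have d3 : nD x = ‖zb - z‖ + max 0 (-(la + lb)) + |Tf la sa z wa - Tf lb sb zb wb|
        + ‖z1 - Zf la sa z wa‖ + ‖(starRingEnd ℂ) z1 * p1 T / 2 - Wf la sa z wa‖
        + ‖z2 - Zf lb sb zb wb‖ + ‖(starRingEnd ℂ) z2 * p2 T / 2 - Wf lb sb zb wb‖ := by
      rw [nD, xTa, xTb]
      rfl
    linarith
  refine ⟨x, ⟨rfl, rfl, rfl, hz, hzb, hzz', rfl, rfl, by rw [xA, a1], ?_, by rw [xB, b1], ?_⟩,
    fun hE' => (half_le_self hc.le).trans (hm x hxK (by linarith))⟩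
  · rw [xA]
    simp [nA', hx]
  · rw [xB]
    simp [nB', hx]

lemma norm_four {y z : ℂ} (hz : z ^ 2 = y) : ‖z‖ ^ 4 = ‖y‖ ^ 2 := by
  rw [← hz, norm_pow]
  ring

theorem nlp_a {g0 η Tm : ℝ} (hg0 : 0 < g0) (hη : 0 < η) (hT : 0 < Tm) : ∃ c > 0, ∃ e > 0,
    ∀ (g : ℝ) (y1 p1 : ℝ → ℂ) (F1 : ℝ → ℝ) (y2 p2 : ℝ → ℂ) (F2 : ℝ → ℝ) (T : ℝ),
    Pair g 1 1 η Tm e y1 p1 F1 y2 p2 F2 0 T → g0 ≤ g → c ≤ ‖y1 T‖ ^ 2 + ‖y2 T‖ ^ 2 := by
  obtain ⟨c, hc, e, he, -, h⟩ := nlp_core (τ := 0) (τ' := -1) hg0 hη hT (by norm_num)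
    (E := fun _ => 0) (G := fun x => ‖nA x‖ ^ 4 + ‖nB x‖ ^ 4) continuous_const
    ((cont_nA.norm.pow 4).add (cont_nB.norm.pow 4)) (fun _ => le_rfl) fun x hx _ => by
      rw [hx.a, hx.b]
      exact lam_ne hx.lp
  refine ⟨c, hc, e, he, fun g y1 p1 F1 y2 p2 F2 T P hg => ?_⟩
  obtain ⟨x, L, hx⟩ := h e le_rfl g y1 p1 F1 y2 p2 F2 T P hg P.st
  rw [← norm_four L.a, ← norm_four L.b]
  exact hx hc.le

lemma cont_E : Continuous fun x => ‖nA x ^ 2 - nB x ^ 2‖ :=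
  ((cont_nA.pow 2).sub (cont_nB.pow 2)).norm

theorem nlp_b {g0 η Tm τ0 : ℝ} (hg0 : 0 < g0) (hη : 0 < η) (hT : 0 < Tm) (hτ : 0 < τ0) :
    ∃ c > 0, ∃ e > 0, ∀ (g : ℝ) (y1 p1 : ℝ → ℂ) (F1 : ℝ → ℝ) (y2 p2 : ℝ → ℂ) (F2 : ℝ → ℝ) (T : ℝ),
    Pair g 1 1 η Tm e y1 p1 F1 y2 p2 F2 0 T → g0 ≤ g → τ0 ≤ T → ‖y1 T - y2 T‖ ≤ e →
    c ≤ dot (y1 T) (p1 T) + dot (y2 T) (p2 T) := by
  obtain ⟨c, hc, e, he, -, h⟩ := nlp_core (τ := τ0) (τ' := τ0 / 2) hg0 hη hT (by linarith)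
    (E := fun x => ‖nA x ^ 2 - nB x ^ 2‖)
    (G := fun x => 2 * dot (nA x) (nA' x) + 2 * dot (nB x) (nB' x)) cont_E
    (((cont_dot cont_nA cont_nA').const_mul 2).add ((cont_dot cont_nB cont_nB').const_mul 2))
    (fun _ => norm_nonneg _) fun x hx hE => by
      have h1 := sub_eq_zero.1 (norm_eq_zero.1 hE)
      rw [hx.a, hx.b] at h1
      have := lam_end hx.lp (by linarith [hx.t]) h1
      rw [hx.a, hx.b, hx.a', hx.b']
      linarith
  refine ⟨c, hc, min e c, lt_min he hc, fun g y1 p1 F1 y2 p2 F2 T P hg hτT hn => ?_⟩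
  obtain ⟨x, L, hx⟩ := h _ (min_le_left _ _) g y1 p1 F1 y2 p2 F2 T P hg hτT
  have := hx (by rw [L.a, L.b]; exact hn.trans (min_le_right _ _))
  rwa [L.a', L.b', lc_dot L.a, lc_dot L.b] at this

theorem nlp_c {g0 η Tm τ0 ϑ : ℝ} (hg0 : 0 < g0) (hη : 0 < η) (hT : 0 < Tm) (hτ : 0 < τ0)
    (hϑ : 0 < ϑ) : ∃ e > 0, ∀ (g : ℝ) (y1 p1 : ℝ → ℂ) (F1 : ℝ → ℝ) (y2 p2 : ℝ → ℂ) (F2 : ℝ → ℝ) (T : ℝ),
    Pair g 1 1 η Tm e y1 p1 F1 y2 p2 F2 0 T → g0 ≤ g → τ0 ≤ T → ‖y1 T - y2 T‖ ≤ e →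
    dot (y1 0) (p1 0) + dot (y2 0) (p2 0) ≤ ϑ := by
  obtain ⟨c, hc, e, he, -, h⟩ := nlp_core (τ := τ0) (τ' := τ0 / 2) hg0 hη hT (by linarith)
    (E := fun x => ‖nA x ^ 2 - nB x ^ 2‖)
    (G := fun x => ϑ - (2 * dot (x.2 0) (x.2 2) + 2 * dot (x.2 1) (x.2 3))) cont_E
    (by unfold dot; fun_prop)
    (fun _ => norm_nonneg _) fun x hx hE => by
      have h1 := sub_eq_zero.1 (norm_eq_zero.1 hE)
      rw [hx.a, hx.b] at h1
      have := lam_start hx.lp (by linarith [hx.t]) h1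
      rw [hx.z]
      linarith
  refine ⟨min e c, lt_min he hc, fun g y1 p1 F1 y2 p2 F2 T P hg hτT hn => ?_⟩
  obtain ⟨x, L, hx⟩ := h _ (min_le_left _ _) g y1 p1 F1 y2 p2 F2 T P hg hτT
  have := hx (by rw [L.a, L.b]; exact hn.trans (min_le_right _ _))
  rw [L.wa, L.wb, lc_dot L.z, lc_dot L.zb] at this
  linarith

lemma dot_pm {A B A' B' : ℂ} (h : A ^ 2 = B ^ 2) :
    (4 * dot (A' * A) (B' * B)) ^ 2 = 4 * (2 * dot A' B') ^ 2 * ‖B‖ ^ 4 := by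
  have hn : ‖B‖ ^ 4 = (B.re ^ 2 + B.im ^ 2) ^ 2 := by
    rw [show ‖B‖ ^ 4 = (‖B‖ ^ 2) ^ 2 by ring, Complex.sq_norm, Complex.normSq_apply]
    ring
  rw [hn]
  rcases sq_eq_sq_iff_eq_or_eq_neg.1 h with h | h <;> rw [h] <;> simp [dot] <;> ring

lemma dot_lc (A B p q : ℂ) :
    4 * dot ((starRingEnd ℂ) A * p / 2 * A) ((starRingEnd ℂ) B * q / 2 * B)
      = ‖A‖ ^ 2 * dot p q * ‖B‖ ^ 2 := by
  rw [Complex.sq_norm, Complex.sq_norm, Complex.normSq_apply, Complex.normSq_apply]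
  simp [dot]
  ring

theorem nlp_d {η Tm τ0 : ℝ} (hη : 0 < η) (hT : 0 < Tm) (hτ : 0 < τ0) :
    ∃ e > 0, ∀ (g : ℝ) (y1 p1 : ℝ → ℂ) (F1 : ℝ → ℝ) (y2 p2 : ℝ → ℂ) (F2 : ℝ → ℝ) (T : ℝ),
    Pair g 1 1 η Tm e y1 p1 F1 y2 p2 F2 0 T → 1 / 3 ≤ g → τ0 ≤ T → ‖y1 T - y2 T‖ ≤ e →
    |hh g (y1 0) (p1 0) + hh g (y2 0) (p2 0)| ≤ e → |dot (p1 0) (p2 0)| ≤ e →
    (‖y1 T‖ * dot (p1 T) (p2 T)) ^ 2 ≤ 29 / 10 * g ^ 2 := by
  obtain ⟨c, hc, e, he, he1, h⟩ := nlp_core (g0 := 1 / 3) (τ := τ0) (τ' := τ0 / 2) (by norm_num)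
    hη hT (by linarith)
    (E := fun x => ‖nA x ^ 2 - nB x ^ 2‖ + |x.1 1 + x.1 2| + |dot (x.2 2) (x.2 3)|)
    (G := fun x => 29 / 10 * x.1 0 ^ 2 * ‖nB x‖ ^ 4 - (4 * dot (nA' x * nA x) (nB' x * nB x)) ^ 2)
    ((cont_E.add (by fun_prop)).add (by unfold dot; fun_prop))
    (((by fun_prop : Continuous fun x : NX => 29 / 10 * x.1 0 ^ 2).mul (cont_nB.norm.pow 4)).sub
      (((cont_dot (cont_nA'.mul cont_nA) (cont_nB'.mul cont_nB)).const_mul 4).pow 2))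
    (fun _ => by positivity) fun x hx hE => by
      have p1 := norm_nonneg (nA x ^ 2 - nB x ^ 2)
      have p2 := abs_nonneg (x.1 1 + x.1 2)
      have p3 := abs_nonneg (dot (x.2 2) (x.2 3))
      have h0 : nA x ^ 2 = nB x ^ 2 := sub_eq_zero.1 (norm_eq_zero.1 (by linarith))
      have h1 := h0
      rw [hx.a, hx.b] at h1
      have h2 := lam_zero hx.lp (by linarith [hx.t]) h1 (abs_eq_zero.1 (by linarith))
        (abs_eq_zero.1 (by linarith))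
      have h3 := lam_ne hx.lp
      rw [← hx.a, ← hx.b, norm_four h0, ← norm_four rfl] at h3
      rw [← hx.a', ← hx.b'] at h2
      have h4 := pow_le_pow_left₀ (abs_nonneg _) h2 2
      rw [sq_abs] at h4
      have h5 := hx.lp.gpos
      have h6 : 0 < ‖nB x‖ ^ 4 := by linarith
      rw [dot_pm h0]
      have h7 := mul_le_mul_of_nonneg_right h4 h6.le
      have h8 : 0 < x.1 0 ^ 2 * ‖nB x‖ ^ 4 := by positivity
      linarith
  refine ⟨min e (c / 20), lt_min he (by positivity),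
    fun g y1 p1 F1 y2 p2 F2 T P hg hτT hn hs hd => ?_⟩
  obtain ⟨x, L, hx⟩ := h _ (min_le_left _ _) g y1 p1 F1 y2 p2 F2 T P hg hτT
  have ec := min_le_right e (c / 20)
  have sp1 : ‖p1 0‖ ≤ 5 := by simpa using P.sp1
  have sp2 : ‖p2 0‖ ≤ 5 := by simpa using P.sp2
  have hi : ‖y1 0‖ ≤ 1 := P.hi
  have zz := L.zz
  generalize min e (c / 20) = d at *
  have nz : ‖x.2 0‖ ^ 2 = ‖y1 0‖ := by rw [← L.z, norm_pow]
  have nz1 : ‖x.2 0‖ ≤ 1 := abs_le_of_sq_le_sq' (by linarith) zero_le_one |>.2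
  have k1 : |dot (x.2 2) (x.2 3)| ≤ 13 * d := by
    have e1 : dot (x.2 2) (x.2 3) = ‖x.2 0‖ ^ 2 * dot (p1 0) (p2 0) / 4
        + dot ((starRingEnd ℂ) (x.2 0) * p1 0 / 2)
          ((starRingEnd ℂ) (x.2 1 - x.2 0) * p2 0 / 2) := by
      rw [L.wa, L.wb, Complex.sq_norm, Complex.normSq_apply]
      simp [dot]
      ring
    have e2 := abs_dot_le ((starRingEnd ℂ) (x.2 0) * p1 0 / 2)
      ((starRingEnd ℂ) (x.2 1 - x.2 0) * p2 0 / 2)
    rw [norm_div, norm_div, norm_mul, norm_mul, Complex.norm_conj, Complex.norm_conj,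
      Complex.norm_ofNat] at e2
    have e3 := mul_le_mul nz1 sp1 (norm_nonneg _) zero_le_one
    have d0 : 0 ≤ d := (abs_nonneg _).trans hd
    have e4 := mul_le_mul zz sp2 (norm_nonneg _) (by linarith)
    have e5 := mul_le_mul e3 e4 (by positivity) (by norm_num)
    have e6 : |‖x.2 0‖ ^ 2 * dot (p1 0) (p2 0) / 4| ≤ d / 4 := by
      rw [abs_div, abs_mul, nz, abs_norm, abs_of_pos (by norm_num : (0 : ℝ) < 4)]
      have := mul_le_mul hi hd (abs_nonneg _) zero_le_one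
      linarith
    rw [e1]
    refine (abs_add_le _ _).trans ?_
    linarith
  have k2 : |x.1 1 + x.1 2| ≤ d := by
    rw [L.la, L.lb, ← add_div, abs_div, abs_two]
    linarith [abs_nonneg (hh g (y1 0) (p1 0) + hh g (y2 0) (p2 0))]
  have := hx (by rw [L.a, L.b]; linarith)
  rw [L.a', L.b', dot_lc, L.hg, ← norm_pow (nA x), L.a] at this
  have hB : 0 < ‖nB x‖ ^ 4 := by
    rw [norm_four L.b]
    have := P.arc2.ne T
    positivity
  refine le_of_mul_le_mul_right ?_ hB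
  linarith

end Pool.Agent.Lib.MP_e310f3_mp.Gap
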