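import Pool.Agent.Lib.MP_e310f3_mp.Gap.Vir

open Complex Filter Topology Set

noncomputable section

namespace Pool.Agent.Lib.MP_e310f3_mp.Gap

namespace Rad1

variable {κ : ℝ}

lemma r1_pos (S : Sys κ) (τ : ℝ) : 0 < ‖S.y1 τ‖ := norm_pos_iff.2 (S.ny1 τ)

lemma mu_le (hκ : 0 < κ) (hκ1 : κ ≤ 1 / 10) : κ ^ 4 ≤ 1 / 10000 := by
  have := pow_le_pow_left₀ hκ.le hκ1 4
  norm_num at this
  linarith

/-- two-sided bound for the sum of the squares of the virial and the angular momentum -/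
lemma KL (S : Sys κ) (hκ : 0 < κ) (hκ1 : κ ≤ 1 / 10) {e τ : ℝ} (he : e ∈ Icc (1 / 60 : ℝ) 1)
    (h : |S.h1 τ - e| ≤ 1 / 2000 * S.a τ ^ 2) :
    ‖S.y1 τ‖ ^ 2 / 31 + 1998 / 1000 * ‖S.y1 τ‖ ≤ S.K1 τ ^ 2 + cross (S.y1 τ) (S.p1 τ) ^ 2 ∧
    S.K1 τ ^ 2 + cross (S.y1 τ) (S.p1 τ) ^ 2
      ≤ 2001 / 1000 * ‖S.y1 τ‖ ^ 2 + 2003 / 1000 * ‖S.y1 τ‖ := by
  have e1 := K_sq (1 + κ ^ 4) (S.ny1 τ) (S.p1 τ)
  have hr := r1_pos S τ
  have hR := S.R_pos τ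
  have hy := S.y1_le hκ hκ1 τ
  have hm := mu_le hκ hκ1
  have hm0 : 0 ≤ κ ^ 4 := by positivity
  rw [S.a_sq, abs_le] at h
  have e2 : S.K1 τ ^ 2 + cross (S.y1 τ) (S.p1 τ) ^ 2
      = 2 * S.h1 τ * ‖S.y1 τ‖ ^ 2 + 2 * (1 + κ ^ 4) * ‖S.y1 τ‖ := e1
  have e3 : 1 / S.R τ * ‖S.y1 τ‖ ≤ 2 := by
    rw [div_mul_eq_mul_div, one_mul, div_le_iff₀ hR]; exact hy
  rw [e2]
  set r := ‖S.y1 τ‖
  set i := 1 / S.R τ
  have e4 : i * r * r ≤ 2 * r := mul_le_mul_of_nonneg_right e3 hr.le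
  have hr2 : 0 ≤ r ^ 2 := by positivity
  have l1 := mul_le_mul_of_nonneg_right h.1 hr2
  have l2 := mul_le_mul_of_nonneg_right h.2 hr2
  have l3 := mul_le_mul_of_nonneg_right he.1 hr2
  have l4 := mul_le_mul_of_nonneg_right he.2 hr2
  have l5 := mul_le_mul_of_nonneg_right hm hr.le
  have l6 := mul_nonneg hm0 hr.le
  constructor <;> nlinarith

lemma force (S : Sys κ) (hκ : 0 < κ) (hκ1 : κ ≤ 1 / 10) {τ : ℝ} (h : κ * S.R τ ≤ S.rho τ) :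
    ‖S.f1 τ‖ ≤ κ * (2 / S.R τ ^ 2 + 1 / (1 + ‖S.y2 τ‖) ^ 2) :=
  (S.bf1 τ).trans (S.phi_le hκ hκ1 h _)

/-- the torque at small size -/
lemma force_small (S : Sys κ) (hκ : 0 < κ) (hκ1 : κ ≤ 1 / 10) {τ : ℝ}
    (h : κ * S.R τ ≤ S.rho τ) (hR1 : S.R τ ≤ 1) : ‖S.y1 τ‖ * ‖S.f1 τ‖ ≤ 6 * κ / S.R τ := by
  have hR := S.R_pos τ
  have h1 := force S hκ hκ1 h
  have h2 : 1 / (1 + ‖S.y2 τ‖) ^ 2 ≤ 1 / S.R τ ^ 2 := by
    apply one_div_le_one_div_of_le (by positivity)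
    apply pow_le_pow_left₀ hR.le
    linarith [norm_nonneg (S.y2 τ)]
  have h3 : ‖S.f1 τ‖ ≤ κ * (3 / S.R τ ^ 2) := by
    refine h1.trans (mul_le_mul_of_nonneg_left ?_ hκ.le)
    have : 3 / S.R τ ^ 2 = 2 / S.R τ ^ 2 + 1 / S.R τ ^ 2 := by ring
    linarith
  calc ‖S.y1 τ‖ * ‖S.f1 τ‖ ≤ (2 * S.R τ) * (κ * (3 / S.R τ ^ 2)) :=
        mul_le_mul (S.y1_le hκ hκ1 τ) h3 (norm_nonneg _) (by positivity)
    _ = 6 * κ / S.R τ := by field_simp; ring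

lemma dL (S : Sys κ) (τ : ℝ) : HasDerivAt (fun σ => cross (S.y1 σ) (S.p1 σ))
    (cross (S.y1 τ) (S.f1 τ)) τ := d_L (S.dy1 τ) (S.dp1 τ)

lemma dK (S : Sys κ) (τ : ℝ) : HasDerivAt S.K1
    (2 * S.h1 τ + (1 + κ ^ 4) / ‖S.y1 τ‖ + dot (S.y1 τ) (S.f1 τ)) τ :=
  d_K (S.ny1 τ) (S.dy1 τ) (S.dp1 τ)

lemma dr (S : Sys κ) (τ : ℝ) : HasDerivAt (fun σ => ‖S.y1 σ‖) (S.K1 τ / ‖S.y1 τ‖) τ :=
  hasDerivAt_norm (S.dy1 τ) (S.ny1 τ)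

/-- the angular momentum stays small in the deep window -/
lemma ang (S : Sys κ) (hκ : 0 < κ) (hκ1 : κ ≤ 1 / 10) {Λ e s s2 : ℝ} (hΛ : 1 ≤ Λ)
    (hκΛ : κ ≤ 1 / (6 * Λ ^ 2)) (he : e ∈ Icc (1 / 60 : ℝ) 1) (h0 : S.t0 ≤ s)
    (hf : S.Free s s2) (hh : |S.h1 s - e| ≤ 1 / 2000 * S.a s ^ 2)
    (hR2 : S.R s2 = Λ * S.R s) (hsm : S.R s2 ≤ 1 / 100) {τ : ℝ} (hτ : τ ∈ Icc s s2) :
    |cross (S.y1 τ) (S.p1 τ)| ≤ 4 * √(S.R s) := by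
  have hR := S.R_pos s
  obtain ⟨w, hw, hw2⟩ : ∃ w, w = √(S.R s) ∧ w ^ 2 = S.R s := ⟨_, rfl, Real.sq_sqrt hR.le⟩
  have hw0 : 0 < w := hw ▸ Real.sqrt_pos.2 hR
  rw [← hw]
  have hup : ∀ σ ∈ Icc s s2, S.R σ ≤ S.R s2 := fun σ hσ => S.R_mono (h0.trans hσ.1) hσ.2
  have h1 : |cross (S.y1 s) (S.p1 s)| ≤ 3 * w := by
    have k := (KL S hκ hκ1 he hh).2
    have hy := S.y1_le hκ hκ1 s
    have hr := r1_pos S s
    have h2 := hup s ⟨le_rfl, hτ.1.trans hτ.2⟩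
    apply abs_le_of_sq_le_sq' _ (by positivity) |>.elim fun a b => abs_le.2 ⟨a, b⟩
    nlinarith [sq_nonneg (S.K1 s)]
  have h2 := abs_sub_le_of_deriv (f := fun σ => cross (S.y1 σ) (S.p1 σ))
    (g := fun σ => 6 * κ / S.R s * σ) hτ.1 fun σ hσ => by
      have hσ' : σ ∈ Icc s s2 := ⟨hσ.1, hσ.2.trans hτ.2⟩
      refine ⟨_, 6 * κ / S.R s, dL S σ, by simpa using (hasDerivAt_id σ).const_mul (6 * κ / S.R s), ?_⟩
      refine (abs_cross_le _ _).trans ((force_small S hκ hκ1 (hf σ hσ')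
        (by linarith [hup σ hσ'])).trans ?_)
      exact div_le_div_of_nonneg_left (by positivity) hR (S.R_mono h0 hσ.1)
  have h3 : τ - s ≤ Λ ^ 2 * S.R s * w := by
    have k := S.time1 h0 hτ.1
    have k2 : S.R τ ^ 3 ≤ (Λ * S.R s) ^ 3 :=
      pow_le_pow_left₀ (S.R_pos τ).le (hR2 ▸ hup τ hτ) 3
    have k3 : (Λ * S.R s) ^ 3 ≤ (Λ ^ 2 * S.R s * w) ^ 2 := by
      have : (Λ ^ 2 * S.R s * w) ^ 2 = Λ * (Λ * S.R s) ^ 3 := by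
        rw [mul_pow, hw2]; ring
      rw [this]
      exact le_mul_of_one_le_left (by positivity) hΛ
    exact (abs_le_of_sq_le_sq' (k.trans (k2.trans k3)) (by positivity)).2
  have h4 : 6 * κ / S.R s * τ - 6 * κ / S.R s * s ≤ w := by
    have k1 : κ * (6 * Λ ^ 2) ≤ 1 := by rwa [le_div_iff₀ (by positivity)] at hκΛ
    calc 6 * κ / S.R s * τ - 6 * κ / S.R s * s = 6 * κ / S.R s * (τ - s) := by ring
      _ ≤ 6 * κ / S.R s * (Λ ^ 2 * S.R s * w) := mul_le_mul_of_nonneg_left h3 (by positivity)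
      _ = κ * (6 * Λ ^ 2) * w := by field_simp
      _ ≤ w := by nlinarith
  have h5 := abs_sub_abs_le_abs_sub (cross (S.y1 τ) (S.p1 τ)) (cross (S.y1 s) (S.p1 s))
  linarith

/-- after the size has grown by a large factor the body is far out -/
lemma far (S : Sys κ) (hκ : 0 < κ) (hκ2 : κ ≤ 1 / 100) {e1 e2 s s1 : ℝ}
    (he1 : e1 ∈ Icc (1 / 60 : ℝ) 1) (he2 : e2 ∈ Icc (1 / 60 : ℝ) 1) (h0 : S.t0 ≤ s) (hs : s ≤ s1)
    (hf : S.Free s s1) (hb : S.HB (1 / 2000) e1 e2 s s1)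
    (hR1 : S.R s1 = 10 ^ 12 * S.R s) (hsm : S.R s1 ≤ 1 / 100) :
    0 ≤ S.K1 s1 ∧ 10 ^ 7 * S.R s ≤ ‖S.y1 s1‖ := by
  have hκ1 : κ ≤ 1 / 10 := by linarith
  have hR := S.R_pos s
  obtain ⟨w, hw0, hw2⟩ : ∃ w, 0 < w ∧ w ^ 2 = S.R s :=
    ⟨_, Real.sqrt_pos.2 hR, Real.sq_sqrt hR.le⟩
  have hup : ∀ σ ∈ Icc s s1, S.R σ ≤ S.R s1 := fun σ hσ => S.R_mono (h0.trans hσ.1) hσ.2
  have hK : ∀ (T : Sys κ) (e : ℝ), e ∈ Icc (1 / 60 : ℝ) 1 → ∀ σ, T.R σ ≤ 1 / 100 →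
      |T.h1 σ - e| ≤ 1 / 2000 * T.a σ ^ 2 → T.K1 σ ^ 2 ≤ 21 / 10 * ‖T.y1 σ‖ := by
    intro T e he σ hσ h
    have k := (KL T hκ hκ1 he h).2
    have hy := T.y1_le hκ hκ1 σ
    have hr := r1_pos T σ
    nlinarith [sq_nonneg (cross (T.y1 σ) (T.p1 σ))]
  have hK1 : ∀ σ ∈ Icc s s1, S.K1 σ ^ 2 ≤ 21 / 10 * ‖S.y1 σ‖ := fun σ hσ =>
    hK S e1 he1 σ ((hup σ hσ).trans hsm) (hb σ hσ).1
  have hK2 : ∀ σ ∈ Icc s s1, S.K2 σ ^ 2 ≤ 21 / 10 * ‖S.y2 σ‖ := fun σ hσ =>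
    hK S.swap e2 he2 σ (by simpa using (hup σ hσ).trans hsm) (by simpa using (hb σ hσ).2)
  have hQ := sub_le_of_deriv_le (f := fun σ => ‖S.y1 σ‖ ^ 2 + ‖S.y2 σ‖ ^ 2)
    (g := fun σ => 9 * (10 ^ 6 * w) * σ) hs fun σ hσ => by
      refine ⟨_, 9 * (10 ^ 6 * w), (hasDerivAt_normSq (S.dy1 σ)).add (hasDerivAt_normSq (S.dy2 σ)),
        by simpa using (hasDerivAt_id σ).const_mul (9 * (10 ^ 6 * w)), ?_⟩
      have b1 : S.K1 σ ≤ 21 / 10 * (10 ^ 6 * w) := by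
        refine (abs_le_of_sq_le_sq' ?_ (by positivity)).2
        have := hK1 σ hσ
        have := S.y1_le hκ hκ1 σ
        have := hup σ hσ
        nlinarith
      have b2 : S.K2 σ ≤ 21 / 10 * (10 ^ 6 * w) := by
        refine (abs_le_of_sq_le_sq' ?_ (by positivity)).2
        have := hK2 σ hσ
        have := S.y2_le hκ hκ1 σ
        have := hup σ hσ
        nlinarith
      have c1 : dot (S.y1 σ) (S.p1 σ) = S.K1 σ := rfl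
      have c2 : dot (S.y2 σ) (S.p2 σ) = S.K2 σ := rfl
      rw [c1, c2]
      linarith
  have hT : 10 ^ 18 * w ^ 3 / 45 ≤ s1 - s := by
    have q1 : S.R s1 ^ 2 / 4 ≤ ‖S.y1 s1‖ ^ 2 + ‖S.y2 s1‖ ^ 2 := by
      have hR1' := S.R_pos s1
      rcases S.y_or hκ hκ1 s1 with h | h
      · nlinarith [sq_nonneg ‖S.y2 s1‖]
      · nlinarith [sq_nonneg ‖S.y1 s1‖]
    have q2 : ‖S.y1 s‖ ^ 2 ≤ (2 * S.R s) ^ 2 :=
      pow_le_pow_left₀ (norm_nonneg _) (S.y1_le hκ hκ1 s) 2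
    have q3 : ‖S.y2 s‖ ^ 2 ≤ (2 * S.R s) ^ 2 :=
      pow_le_pow_left₀ (norm_nonneg _) (S.y2_le hκ hκ1 s) 2
    rw [hR1] at q1
    rw [← hw2] at q1 q2 q3
    have q4 : w * (10 ^ 18 * w ^ 3 / 45) ≤ w * (s1 - s) := by
      have : 0 < w ^ 4 := by positivity
      nlinarith
    exact le_of_mul_le_mul_left q4 hw0
  have hKd := sub_le_of_deriv_le (f := fun σ => 1 / (4 * (10 ^ 12 * w ^ 2)) * σ) (g := S.K1) hs
    fun σ hσ => by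
      refine ⟨1 / (4 * (10 ^ 12 * w ^ 2)), _,
        ((hasDerivAt_id' σ).const_mul _).congr_deriv (mul_one _), dK S σ, ?_⟩
      have hr := r1_pos S σ
      have hRσ := S.R_pos σ
      have hy := S.y1_le hκ hκ1 σ
      have h1 := (abs_le.1 (hb σ hσ).1).1
      rw [S.a_sq] at h1
      have h2 := (abs_le.1 ((abs_dot_le _ _).trans (force_small S hκ hκ1 (hf σ hσ)
        (by linarith [hup σ hσ])))).1
      have h3 : 1 / S.R σ ≤ 2 * (1 / ‖S.y1 σ‖) := by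
        rw [mul_one_div, div_le_div_iff₀ hRσ hr]; linarith
      have h4 : 1 / ‖S.y1 σ‖ ≤ (1 + κ ^ 4) / ‖S.y1 σ‖ :=
        div_le_div_of_nonneg_right (by linarith [show 0 ≤ κ ^ 4 by positivity]) hr.le
      have h5 : 1 / (4 * (10 ^ 12 * w ^ 2)) ≤ 1 / 2 * (1 / ‖S.y1 σ‖) := by
        rw [one_div_mul_one_div]
        apply one_div_le_one_div_of_le (by positivity)
        have := hup σ hσ
        rw [hw2]; linarith
      have h6 : 6 * κ / S.R σ ≤ 6 / 100 * (1 / S.R σ) := by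
        rw [mul_one_div]
        exact div_le_div_of_nonneg_right (by linarith) hRσ.le
      have h7 : 0 < 1 / ‖S.y1 σ‖ := by positivity
      linarith [he1.1]
  have hs0 : -(3 * w) ≤ S.K1 s := by
    refine (abs_le_of_sq_le_sq' ?_ (by positivity)).1
    have := hK1 s ⟨le_rfl, hs⟩
    have := S.y1_le hκ hκ1 s
    nlinarith
  have hK5 : 5000 * w ≤ S.K1 s1 := by
    have q1 : 1 / (4 * (10 ^ 12 * w ^ 2)) * (10 ^ 18 * w ^ 3 / 45)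
        ≤ 1 / (4 * (10 ^ 12 * w ^ 2)) * (s1 - s) := mul_le_mul_of_nonneg_left hT (by positivity)
    have q2 : 1 / (4 * (10 ^ 12 * w ^ 2)) * (10 ^ 18 * w ^ 3 / 45) = 10 ^ 6 / 180 * w := by
      field_simp; ring
    nlinarith
  refine ⟨by linarith, ?_⟩
  have q := hK1 s1 ⟨hs, le_rfl⟩
  have q2 : (5000 * w) ^ 2 ≤ S.K1 s1 ^ 2 := pow_le_pow_left₀ (by positivity) hK5 2
  nlinarith

/-- one step of the bootstrap, for the first body -/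
lemma improve (S : Sys κ) (hκ : 0 < κ) (hκ3 : κ ≤ 1 / 10 ^ 14) {e1 e2 s1 τ : ℝ}
    (he1 : e1 ∈ Icc (1 / 60 : ℝ) 1) (he2 : e2 ∈ Icc (1 / 60 : ℝ) 1) (hs : s1 ≤ τ)
    (hf : S.Free s1 τ) (hb : S.HB (1 / 2000) e1 e2 s1 τ)
    (i1 : 1 / 200000 * ‖S.y2 s1‖ ≤ ‖S.y1 s1‖)
    (i2 : |cross (S.y1 s1) (S.p1 s1)| ≤ √‖S.y1 s1‖ / 200)
    (b1 : ∀ σ ∈ Icc s1 τ, 1 / 400000 * ‖S.y1 σ‖ ≤ ‖S.y2 σ‖)
    (b2 : ∀ σ ∈ Icc s1 τ, 0 ≤ S.K1 σ)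
    (b3 : ∀ σ ∈ Icc s1 τ, |cross (S.y1 σ) (S.p1 σ)| ≤ √‖S.y1 σ‖ / 100) :
    1 / 400000 * ‖S.y2 τ‖ < ‖S.y1 τ‖ ∧ 0 < S.K1 τ ∧
      |cross (S.y1 τ) (S.p1 τ)| < √‖S.y1 τ‖ / 100 := by
  have hκ1 : κ ≤ 1 / 10 := hκ3.trans (by norm_num)
  have hK : ∀ σ ∈ Icc s1 τ, ‖S.y1 σ‖ ^ 2 / 31 + 199 / 100 * ‖S.y1 σ‖ ≤ S.K1 σ ^ 2 := by
    intro σ hσ
    have k := (KL S hκ hκ1 he1 (hb σ hσ).1).1
    have hr := r1_pos S σ
    have k2 : cross (S.y1 σ) (S.p1 σ) ^ 2 ≤ (√‖S.y1 σ‖ / 100) ^ 2 := by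
      rw [← sq_abs]
      exact pow_le_pow_left₀ (abs_nonneg _) (b3 σ hσ) 2
    rw [div_pow, Real.sq_sqrt hr.le] at k2
    linarith
  have hτ : τ ∈ Icc s1 τ := ⟨hs, le_rfl⟩
  refine ⟨?_, ?_, ?_⟩
  · have k := sub_le_of_deriv_le (f := fun σ => 1 / 200000 * ‖S.y2 σ‖) (g := fun σ => ‖S.y1 σ‖) hs
      fun σ hσ => by
        refine ⟨_, _, (dr S.swap σ).const_mul (1 / 200000), dr S σ, ?_⟩
        have k1 := hK σ hσ
        have k2 := (KL S.swap hκ hκ1 he2 (by simpa using (hb σ hσ).2)).2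
        have r1 := r1_pos S σ
        have r2 := r1_pos S.swap σ
        have k3 := b1 σ hσ
        have k4 := b2 σ hσ
        simp only [Sys.swap_y1, Sys.swap_p1, Sys.swap_K1] at k2 r2 ⊢
        rw [← mul_div_assoc, div_le_div_iff₀ r2 r1]
        refine (abs_le_of_sq_le_sq' ?_ (by positivity)).2
        have k5 : S.K2 σ ^ 2 ≤ 2001 / 1000 * ‖S.y2 σ‖ ^ 2 + 2003 / 1000 * ‖S.y2 σ‖ := by
          linarith [sq_nonneg (cross (S.y2 σ) (S.p2 σ))]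
        generalize ‖S.y1 σ‖ = a at *
        generalize ‖S.y2 σ‖ = b at *
        have m1 := mul_le_mul_of_nonneg_right k5 (sq_nonneg a)
        have m2 := mul_le_mul_of_nonneg_right k1 (sq_nonneg b)
        have m3 := mul_le_mul_of_nonneg_right k3 (mul_pos r1 r2).le
        have m4 : 0 ≤ a ^ 2 * b ^ 2 := by positivity
        have m5 : 0 ≤ a * b ^ 2 := by positivity
        nlinarith
    have r2 := r1_pos S.swap τ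
    simp only [Sys.swap_y1] at r2
    linarith
  · have k := hK τ hτ
    have r1 := r1_pos S τ
    rcases (b2 τ hτ).lt_or_eq with h | h
    · exact h
    · rw [← h] at k
      nlinarith [sq_nonneg ‖S.y1 τ‖]
  · have k := abs_sub_le_of_deriv (f := fun σ => cross (S.y1 σ) (S.p1 σ))
      (g := fun σ => √‖S.y1 σ‖ / 200) hs fun σ hσ => by
        have r1 := r1_pos S σ
        have hRσ := S.R_pos σ
        refine ⟨_, _, dL S σ, ((dr S σ).sqrt r1.ne').div_const 200, ?_⟩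
        have q0 : 0 < √‖S.y1 σ‖ := Real.sqrt_pos.2 r1
        have q1 : √‖S.y1 σ‖ ≤ S.K1 σ := by
          refine (abs_le_of_sq_le_sq' ?_ (b2 σ hσ)).2
          rw [Real.sq_sqrt r1.le]
          nlinarith [hK σ hσ, sq_nonneg ‖S.y1 σ‖]
        have q2 : 1 / (400 * ‖S.y1 σ‖) ≤ S.K1 σ / ‖S.y1 σ‖ / (2 * √‖S.y1 σ‖) / 200 := by
          rw [div_div, div_div, div_le_div_iff₀ (by positivity) (by positivity)]
          nlinarith [mul_le_mul_of_nonneg_right q1 r1.le]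
        refine (abs_cross_le _ _).trans (le_trans ?_ q2)
        have q3 : 2 / S.R σ ^ 2 ≤ 8 / ‖S.y1 σ‖ ^ 2 := by
          rw [div_le_div_iff₀ (by positivity) (by positivity)]
          nlinarith [pow_le_pow_left₀ r1.le (S.y1_le hκ hκ1 σ) 2]
        have q4 : 1 / (1 + ‖S.y2 σ‖) ^ 2 ≤ 400000 ^ 2 / ‖S.y1 σ‖ ^ 2 := by
          rw [div_le_div_iff₀ (by positivity) (by positivity)]
          have : ‖S.y1 σ‖ ≤ 400000 * (1 + ‖S.y2 σ‖) := by linarith [b1 σ hσ]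
          nlinarith [pow_le_pow_left₀ r1.le this 2]
        have q5 : ‖S.f1 σ‖ ≤ 1 / (400 * ‖S.y1 σ‖ ^ 2) := by
          refine (force S hκ hκ1 (hf σ hσ)).trans ?_
          calc κ * (2 / S.R σ ^ 2 + 1 / (1 + ‖S.y2 σ‖) ^ 2)
              ≤ 1 / 10 ^ 14 * (8 / ‖S.y1 σ‖ ^ 2 + 400000 ^ 2 / ‖S.y1 σ‖ ^ 2) :=
                mul_le_mul hκ3 (add_le_add q3 q4) (by positivity) (by positivity)
            _ = (1 / 10 ^ 14 * (8 + 400000 ^ 2)) * (1 / ‖S.y1 σ‖ ^ 2) := by ring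
            _ ≤ 1 / 400 * (1 / ‖S.y1 σ‖ ^ 2) :=
                mul_le_mul_of_nonneg_right (by norm_num) (by positivity)
            _ = 1 / (400 * ‖S.y1 σ‖ ^ 2) := by rw [one_div_mul_one_div]
        calc ‖S.y1 σ‖ * ‖S.f1 σ‖ ≤ ‖S.y1 σ‖ * (1 / (400 * ‖S.y1 σ‖ ^ 2)) :=
              mul_le_mul_of_nonneg_left q5 r1.le
          _ = 1 / (400 * ‖S.y1 σ‖) := by field_simp
    have h5 := abs_sub_abs_le_abs_sub (cross (S.y1 τ) (S.p1 τ)) (cross (S.y1 s1) (S.p1 s1))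
    have q0 : 0 < √‖S.y1 τ‖ := Real.sqrt_pos.2 (r1_pos S τ)
    linarith

/-- the data at the time when the size has grown by the factor ten to the twelve -/
lemma init (S : Sys κ) (hκ : 0 < κ) (hκ2 : κ ≤ 1 / 100) {e1 e2 s s1 : ℝ}
    (he1 : e1 ∈ Icc (1 / 60 : ℝ) 1) (he2 : e2 ∈ Icc (1 / 60 : ℝ) 1) (h0 : S.t0 ≤ s) (hs : s ≤ s1)
    (hf : S.Free s s1) (hb : S.HB (1 / 2000) e1 e2 s s1)
    (hR1 : S.R s1 = 10 ^ 12 * S.R s) (hsm : S.R s1 ≤ 1 / 100)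
    (hl : |cross (S.y1 s1) (S.p1 s1)| ≤ 4 * √(S.R s)) :
    0 ≤ S.K1 s1 ∧ 1 / 200000 * ‖S.y2 s1‖ ≤ ‖S.y1 s1‖ ∧
      |cross (S.y1 s1) (S.p1 s1)| ≤ √‖S.y1 s1‖ / 200 := by
  obtain ⟨k1, k2⟩ := far S hκ hκ2 he1 he2 h0 hs hf hb hR1 hsm
  have hy := S.y2_le hκ (by linarith) s1
  have hR := S.R_pos s
  refine ⟨k1, by linarith, hl.trans ?_⟩
  have : 800 * √(S.R s) ≤ √‖S.y1 s1‖ := by
    apply Real.le_sqrt_of_sq_le
    rw [mul_pow, Real.sq_sqrt hR.le]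
    linarith
  linarith

end Rad1

open Rad1 in
/-- after a deep passage both bodies move radially outwards at comparable distances -/
theorem rad1 : ∃ Λ2 ≥ (2 : ℝ), ∃ c1 > 0, ∀ Λ ≥ Λ2, ∃ r > 0, Small fun κ =>
    ∀ (S : Sys κ) (e1 e2 s s2 t : ℝ), e1 ∈ Icc (1 / 60 : ℝ) 1 → e2 ∈ Icc (1 / 60 : ℝ) 1 →
    S.t0 ≤ s → s ≤ s2 → s2 ≤ t → S.Free s t → S.HB (1 / 2000) e1 e2 s t → S.R s ≤ r →
    S.R s2 = Λ * S.R s →
    |cross (S.y1 s2) (S.p1 s2)| ≤ 10 * √(S.R s) ∧ |cross (S.y2 s2) (S.p2 s2)| ≤ 10 * √(S.R s) ∧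
    ∃ s1 ∈ Icc s s2, S.R s1 ≤ Λ2 * S.R s ∧ ∀ τ ∈ Icc s1 t,
      c1 * ‖S.y2 τ‖ ≤ ‖S.y1 τ‖ ∧ c1 * ‖S.y1 τ‖ ≤ ‖S.y2 τ‖ ∧ 0 ≤ S.K1 τ ∧ 0 ≤ S.K2 τ ∧
      |cross (S.y1 τ) (S.p1 τ)| ≤ √‖S.y1 τ‖ / 100 ∧ |cross (S.y2 τ) (S.p2 τ)| ≤ √‖S.y2 τ‖ / 100 := by
  refine ⟨10 ^ 12, by norm_num, 1 / 400000, by norm_num, fun Λ hΛ => ?_⟩
  have hΛ1 : 1 ≤ Λ := le_trans (by norm_num) hΛ
  refine ⟨1 / (100 * Λ), by positivity, ?_⟩
  refine ((small_le (c := 1 / 10 ^ 14) (by positivity)).and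
    (small_le (c := 1 / (6 * Λ ^ 2)) (by positivity))).mono ?_
  rintro κ ⟨⟨hκ, hκ3⟩, -, hκΛ⟩ S e1 e2 s s2 t he1 he2 h0 hs hs2 hf hb hr hR2
  have hκ1 : κ ≤ 1 / 10 := hκ3.trans (by norm_num)
  have hκ2 : κ ≤ 1 / 100 := hκ3.trans (by norm_num)
  have hR := S.R_pos s
  have hw : 0 ≤ √(S.R s) := Real.sqrt_nonneg _
  have hsm : S.R s2 ≤ 1 / 100 := by
    rw [hR2]
    rw [le_div_iff₀ (by positivity)] at hr
    linarith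
  have hfree : ∀ {a b : ℝ}, s ≤ a → b ≤ t → S.Free a b := fun ha hb' τ hτ =>
    hf τ ⟨ha.trans hτ.1, hτ.2.trans hb'⟩
  have hst : s ∈ Icc s t := ⟨le_rfl, hs.trans hs2⟩
  have a1 : ∀ τ ∈ Icc s s2, |cross (S.y1 τ) (S.p1 τ)| ≤ 4 * √(S.R s) := fun τ hτ =>
    ang S hκ hκ1 hΛ1 hκΛ he1 h0 (hfree le_rfl hs2) (hb s hst).1 hR2 hsm hτ
  have a2 : ∀ τ ∈ Icc s s2, |cross (S.y2 τ) (S.p2 τ)| ≤ 4 * √(S.R s) := fun τ hτ => by
    simpa using ang S.swap hκ hκ1 hΛ1 hκΛ he2 h0 (S.toSol.swap_free (hfree le_rfl hs2))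
      (by simpa using (hb s hst).2) (by simpa using hR2) (by simpa using hsm) hτ
  refine ⟨by linarith [a1 s2 ⟨hs, le_rfl⟩], by linarith [a2 s2 ⟨hs, le_rfl⟩], ?_⟩
  obtain ⟨s1, hs1, hR1⟩ := S.exists_R_eq (M := 10 ^ 12 * S.R s) hs (by linarith)
    (by rw [hR2]; exact mul_le_mul_of_nonneg_right hΛ hR.le)
  have hs1t : s1 ≤ t := hs1.2.trans hs2
  have hsm1 : S.R s1 ≤ 1 / 100 := (S.R_mono (h0.trans hs1.1) hs1.2).trans hsm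
  have hb1 : S.HB (1 / 2000) e1 e2 s s1 := S.HB_mono hb le_rfl le_rfl hs1t
  obtain ⟨i1, i2, i3⟩ := init S hκ hκ2 he1 he2 h0 hs1.1 (hfree le_rfl hs1t) hb1 hR1 hsm1 (a1 s1 hs1)
  obtain ⟨j1, j2, j3⟩ := init S.swap hκ hκ2 he2 he1 h0 hs1.1
    (S.toSol.swap_free (hfree le_rfl hs1t)) (S.swap_HB hb1) (by simpa using hR1)
    (by simpa using hsm1) (by simpa using a2 s1 hs1)
  simp only [Sys.swap_y1, Sys.swap_y2, Sys.swap_p1, Sys.swap_K1] at j1 j2 j3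
  refine ⟨s1, hs1, hR1.le, ?_⟩
  have cr : ∀ T : Sys κ, Continuous fun σ => ‖T.y1 σ‖ := fun T =>
    continuous_iff_continuousAt.2 fun σ => (dr T σ).continuousAt
  have cK : ∀ T : Sys κ, Continuous T.K1 := fun T =>
    continuous_iff_continuousAt.2 fun σ => (dK T σ).continuousAt
  have cL : ∀ T : Sys κ, Continuous fun σ => cross (T.y1 σ) (T.p1 σ) := fun T =>
    continuous_iff_continuousAt.2 fun σ => (dL T σ).continuousAt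
  have key := boot (ι := Fin 6) (s := s1) (t := t)
    ![fun σ => 1 / 400000 * ‖S.y2 σ‖ - ‖S.y1 σ‖, fun σ => 1 / 400000 * ‖S.y1 σ‖ - ‖S.y2 σ‖,
      fun σ => -S.K1 σ, fun σ => -S.K2 σ,
      fun σ => |cross (S.y1 σ) (S.p1 σ)| - √‖S.y1 σ‖ / 100,
      fun σ => |cross (S.y2 σ) (S.p2 σ)| - √‖S.y2 σ‖ / 100]
    (by
      have c1 := cr S
      have c2 := cr S.swap
      have c3 := cK S
      have c4 := cK S.swap
      have c5 := cL S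
      have c6 := cL S.swap
      intro i
      fin_cases i
      · exact ((c2.const_mul _).sub c1).continuousOn
      · exact ((c1.const_mul _).sub c2).continuousOn
      · exact c3.neg.continuousOn
      · exact c4.neg.continuousOn
      · exact (c5.abs.sub (c1.sqrt.div_const _)).continuousOn
      · exact (c6.abs.sub (c2.sqrt.div_const _)).continuousOn)
    (by
      have n1 := norm_nonneg (S.y1 s1)
      have n2 := norm_nonneg (S.y2 s1)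
      have n3 := Real.sqrt_nonneg ‖S.y1 s1‖
      have n4 := Real.sqrt_nonneg ‖S.y2 s1‖
      intro i
      fin_cases i <;> simp only [Fin.zero_eta, Fin.mk_one, Fin.reduceFinMk, Matrix.cons_val] <;>
        linarith)
    (by
      intro τ hτ h
      have hbτ : S.HB (1 / 2000) e1 e2 s1 τ := S.HB_mono hb le_rfl hs1.1 hτ.2
      have g0 : ∀ σ ∈ Icc s1 τ, 1 / 400000 * ‖S.y2 σ‖ ≤ ‖S.y1 σ‖ := fun σ hσ =>
        sub_nonpos.1 (h σ hσ 0)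
      have g1 : ∀ σ ∈ Icc s1 τ, 1 / 400000 * ‖S.y1 σ‖ ≤ ‖S.y2 σ‖ := fun σ hσ =>
        sub_nonpos.1 (h σ hσ 1)
      have g2 : ∀ σ ∈ Icc s1 τ, 0 ≤ S.K1 σ := fun σ hσ => neg_nonpos.1 (h σ hσ 2)
      have g3 : ∀ σ ∈ Icc s1 τ, 0 ≤ S.K2 σ := fun σ hσ => neg_nonpos.1 (h σ hσ 3)
      have g4 : ∀ σ ∈ Icc s1 τ, |cross (S.y1 σ) (S.p1 σ)| ≤ √‖S.y1 σ‖ / 100 := fun σ hσ =>
        sub_nonpos.1 (h σ hσ 4)
      have g5 : ∀ σ ∈ Icc s1 τ, |cross (S.y2 σ) (S.p2 σ)| ≤ √‖S.y2 σ‖ / 100 := fun σ hσ =>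
        sub_nonpos.1 (h σ hσ 5)
      obtain ⟨u1, u2, u3⟩ := improve S hκ hκ3 he1 he2 hτ.1 (hfree hs1.1 hτ.2) hbτ i2 i3 g1 g2 g4
      obtain ⟨v1, v2, v3⟩ := improve S.swap hκ hκ3 he2 he1 hτ.1
        (S.toSol.swap_free (hfree hs1.1 hτ.2)) (S.swap_HB hbτ) j2 j3 g0 g3 g5
      intro i
      fin_cases i
      · exact sub_neg.2 u1
      · exact sub_neg.2 v1
      · exact neg_neg_of_pos u2
      · exact neg_neg_of_pos v2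
      · exact sub_neg.2 u3
      · exact sub_neg.2 v3)
  intro τ hτ
  exact ⟨sub_nonpos.1 (key τ hτ 0), sub_nonpos.1 (key τ hτ 1), neg_nonpos.1 (key τ hτ 2),
    neg_nonpos.1 (key τ hτ 3), sub_nonpos.1 (key τ hτ 4), sub_nonpos.1 (key τ hτ 5)⟩

end Pool.Agent.Lib.MP_e310f3_mp.Gap
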