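import Pool.Agent.Lib.MP_e310f3_mp.Gap.Enc

open Complex Filter Topology Set

noncomputable section

namespace Pool.Agent.Lib.MP_e310f3_mp.Gap

private lemma step_sq_diff {P w : ℂ} {d M : ℝ} (h : ‖P - w‖ ≤ d) (hs : ‖P‖ + ‖w‖ ≤ M) :
    |‖P‖ ^ 2 - ‖w‖ ^ 2| ≤ d * M := by
  have e : ‖P‖ ^ 2 - ‖w‖ ^ 2 = (‖P‖ - ‖w‖) * (‖P‖ + ‖w‖) := by ring
  have h0 : 0 ≤ ‖P‖ + ‖w‖ := by positivity
  rw [e, abs_mul, abs_of_nonneg h0]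
  exact mul_le_mul ((abs_norm_sub_norm_le P w).trans h) hs h0 ((norm_nonneg _).trans h)

private lemma step_rel {κ : ℝ} {S : Sys κ} {t : ℝ} (h : S.CV t) :
    |‖S.p1 t - S.p2 t‖ ^ 2 - ‖S.u1 t - S.u2 t‖ ^ 2| ≤ 2 * κ * S.a t * (18 * S.a t) := by
  refine step_sq_diff ?_ ?_
  · have e : S.p1 t - S.p2 t - (S.u1 t - S.u2 t) = (S.p1 t - S.u1 t) - (S.p2 t - S.u2 t) := by
      ring
    rw [e]
    linarith [norm_sub_le (S.p1 t - S.u1 t) (S.p2 t - S.u2 t), h.pu1, h.pu2]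
  · linarith [norm_sub_le (S.p1 t) (S.p2 t), norm_sub_le (S.u1 t) (S.u2 t), h.p1, h.p2, h.u1,
      h.u2]

private lemma step_dot (a b : ℂ) : dot a b = (‖a + b‖ ^ 2 - ‖a - b‖ ^ 2) / 4 := by
  rw [norm_add_sq', norm_sub_sq']
  ring

/-- the conversions at a time of the encounter interval -/
private lemma step_conv {κ ε : ℝ} (S : Sys κ) {s τ : ℝ} (hκ : 0 < κ) (hκ1 : κ ≤ 1 / 10)
    (hκε : κ ≤ ε) (cs : S.CV s) (ct : S.CV τ) (hs : S.rho s = κ * S.R s)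
    (hR : S.R τ ≤ 2 * S.R s) (ha : S.a τ ≤ 2 * S.a s)
    (h1 : ‖S.x1 τ - S.x1 s‖ ≤ ε * S.R s) (h2 : ‖S.x2 τ - S.x2 s‖ ≤ ε * S.R s)
    (h3 : ‖(S.u1 τ + S.u2 τ) - (S.u1 s + S.u2 s)‖ ≤ ε * S.a s)
    (h4 : |‖S.u1 τ - S.u2 τ‖ ^ 2 - ‖S.u1 s - S.u2 s‖ ^ 2| ≤ ε * S.a s ^ 2) :
    ‖S.x1 τ - S.x1 s‖ ≤ 200 * ε * ‖S.x1 s‖ ∧
      ‖S.y1 τ - S.y1 s‖ ≤ 200 * ε * ‖S.y1 s‖ ∧ ‖S.y2 τ - S.y1 s‖ ≤ 200 * ε * ‖S.y1 s‖ ∧
      ‖(S.p1 τ + S.p2 τ) - (S.p1 s + S.p2 s)‖ ≤ 200 * ε * S.a s ∧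
      |‖S.p1 τ - S.p2 τ‖ ^ 2 - ‖S.p1 s - S.p2 s‖ ^ 2| ≤ 200 * ε * S.a s ^ 2 ∧
      |dot (S.u1 τ) (S.u2 τ) - dot (S.u1 s) (S.u2 s)| ≤ 200 * ε * S.a s ^ 2 := by
  have hε : 0 < ε := hκ.trans_le hκε
  have hr := S.R_pos s
  have has : 0 < S.a s := one_pos.trans_le (S.one_le_a s)
  have hat : 0 < S.a τ := one_pos.trans_le (S.one_le_a τ)
  have hk4 : κ ^ 4 ≤ ε := by
    have : κ ^ 4 ≤ κ ^ 1 := pow_le_pow_of_le_one hκ.le (by linarith) (by norm_num)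
    linarith [pow_one κ]
  have hεr : 0 < ε * S.R s := mul_pos hε hr
  have hεa : 0 < ε * S.a s := mul_pos hε has
  have hεa2 : 0 < ε * S.a s ^ 2 := by positivity
  have kx : ∀ {z : ℝ} (c : ℝ), 0 ≤ z → z ≤ c * S.R s → κ ^ 4 * z ≤ c * (ε * S.R s) := by
    intro z c hz h
    calc κ ^ 4 * z ≤ ε * (c * S.R s) := mul_le_mul hk4 h hz hε.le
      _ = c * (ε * S.R s) := by ring
  have y1t : ‖S.y1 τ - S.x1 τ‖ ≤ 2 * (ε * S.R s) :=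
    (S.yx1 τ).trans (kx 2 (norm_nonneg _) (ct.x1hi.trans hR))
  have y2t : ‖S.y2 τ - S.x2 τ‖ ≤ 2 * (ε * S.R s) :=
    (S.yx2 τ).trans (kx 2 (norm_nonneg _) (ct.x2hi.trans hR))
  have y1s : ‖S.y1 s - S.x1 s‖ ≤ 1 * (ε * S.R s) :=
    (S.yx1 s).trans (kx 1 (norm_nonneg _) (cs.x1hi.trans_eq (one_mul _).symm))
  have x12 : ‖S.x1 s - S.x2 s‖ ≤ ε * S.R s := by
    have : ‖S.x1 s - S.x2 s‖ = κ * S.R s := hs
    rw [this]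
    exact mul_le_mul_of_nonneg_right hκε hr.le
  have lox : ε * S.R s ≤ 2 * (ε * ‖S.x1 s‖) := by nlinarith [cs.x1lo]
  have loy : ε * S.R s ≤ 2 * (ε * ‖S.y1 s‖) := by nlinarith [cs.y1lo]
  have ks : κ * S.a s ≤ ε * S.a s := mul_le_mul_of_nonneg_right hκε has.le
  have kt : κ * S.a τ ≤ 2 * (ε * S.a s) := by
    calc κ * S.a τ ≤ ε * (2 * S.a s) := mul_le_mul hκε ha hat.le hε.le
      _ = 2 * (ε * S.a s) := by ring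
  refine ⟨by linarith, ?_, ?_, ?_, ?_, ?_⟩
  · have e : S.y1 τ - S.y1 s = (S.y1 τ - S.x1 τ) + (S.x1 τ - S.x1 s) - (S.y1 s - S.x1 s) := by
      ring
    have n1 := norm_sub_le ((S.y1 τ - S.x1 τ) + (S.x1 τ - S.x1 s)) (S.y1 s - S.x1 s)
    have n2 := norm_add_le (S.y1 τ - S.x1 τ) (S.x1 τ - S.x1 s)
    rw [← e] at n1
    linarith
  · have e : S.y2 τ - S.y1 s = (S.y2 τ - S.x2 τ) + (S.x2 τ - S.x2 s) - (S.x1 s - S.x2 s) -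
        (S.y1 s - S.x1 s) := by ring
    have n1 := norm_sub_le ((S.y2 τ - S.x2 τ) + (S.x2 τ - S.x2 s) - (S.x1 s - S.x2 s))
      (S.y1 s - S.x1 s)
    have n2 := norm_sub_le ((S.y2 τ - S.x2 τ) + (S.x2 τ - S.x2 s)) (S.x1 s - S.x2 s)
    have n3 := norm_add_le (S.y2 τ - S.x2 τ) (S.x2 τ - S.x2 s)
    rw [← e] at n1
    linarith
  · have e : (S.p1 τ + S.p2 τ) - (S.p1 s + S.p2 s) =
        ((S.u1 τ + S.u2 τ) - (S.u1 s + S.u2 s)) + ((S.p1 τ - S.u1 τ) + (S.p2 τ - S.u2 τ)) -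
          ((S.p1 s - S.u1 s) + (S.p2 s - S.u2 s)) := by ring
    have n1 := norm_sub_le (((S.u1 τ + S.u2 τ) - (S.u1 s + S.u2 s)) +
      ((S.p1 τ - S.u1 τ) + (S.p2 τ - S.u2 τ))) ((S.p1 s - S.u1 s) + (S.p2 s - S.u2 s))
    have n2 := norm_add_le ((S.u1 τ + S.u2 τ) - (S.u1 s + S.u2 s))
      ((S.p1 τ - S.u1 τ) + (S.p2 τ - S.u2 τ))
    have n3 := norm_add_le (S.p1 τ - S.u1 τ) (S.p2 τ - S.u2 τ)
    have n4 := norm_add_le (S.p1 s - S.u1 s) (S.p2 s - S.u2 s)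
    rw [← e] at n1
    linarith [cs.pu1, cs.pu2, ct.pu1, ct.pu2]
  · have r1 := abs_le.1 (step_rel cs)
    have r2 := abs_le.1 (step_rel ct)
    have r3 := abs_le.1 h4
    have b1 : 2 * κ * S.a s * (18 * S.a s) ≤ 36 * (ε * S.a s ^ 2) := by nlinarith
    have b2 : 2 * κ * S.a τ * (18 * S.a τ) ≤ 144 * (ε * S.a s ^ 2) := by
      have := mul_le_mul kt ha hat.le (by positivity)
      nlinarith
    rw [abs_le]
    constructor <;> linarith [r1.1, r1.2, r2.1, r2.2, r3.1, r3.2]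
  · have v1 : |‖S.u1 τ + S.u2 τ‖ ^ 2 - ‖S.u1 s + S.u2 s‖ ^ 2| ≤ ε * S.a s * (24 * S.a s) := by
      refine step_sq_diff h3 ?_
      linarith [norm_add_le (S.u1 τ) (S.u2 τ), norm_add_le (S.u1 s) (S.u2 s), cs.u1, cs.u2,
        ct.u1, ct.u2]
    have e : ε * S.a s * (24 * S.a s) = 24 * (ε * S.a s ^ 2) := by ring
    rw [e] at v1
    have r1 := abs_le.1 v1
    have r3 := abs_le.1 h4
    rw [step_dot, step_dot, abs_le]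
    constructor <;> linarith [r1.1, r1.2, r3.1, r3.2]

/-- the encounter lemma in the form used by the case analysis -/
theorem step {η : ℝ} (hη : 0 < η) : ∃ τ1 > 0, ∀ e > 0, Small fun κ => ∀ (S : Sys κ) (s : ℝ),
    S.rho s = κ * S.R s → η * S.a s ≤ ‖S.u1 s - S.u2 s‖ →
    ∃ s', s < s' ∧ κ * S.R s' < S.rho s' ∧ η / 2 * S.a s' ≤ ‖S.u1 s' - S.u2 s'‖ ∧
      (∀ t, s' ≤ t → S.rho t ≤ κ * S.R t → s' + τ1 * S.R s' / S.a s' ≤ t) ∧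
      (∀ τ ∈ Icc s s', |S.R τ - S.R s| ≤ e * S.R s ∧ S.rho τ ≤ e * S.R τ) ∧
      ∀ τ ∈ Icc s s', κ * S.R τ ≤ S.rho τ →
        ‖S.x1 τ - S.x1 s‖ ≤ e * ‖S.x1 s‖ ∧
        ‖S.y1 τ - S.y1 s‖ ≤ e * ‖S.y1 s‖ ∧ ‖S.y2 τ - S.y1 s‖ ≤ e * ‖S.y1 s‖ ∧
        ‖(S.p1 τ + S.p2 τ) - (S.p1 s + S.p2 s)‖ ≤ e * S.a s ∧
        |‖S.p1 τ - S.p2 τ‖ ^ 2 - ‖S.p1 s - S.p2 s‖ ^ 2| ≤ e * S.a s ^ 2 ∧
        |dot (S.u1 τ) (S.u2 τ) - dot (S.u1 s) (S.u2 s)| ≤ e * S.a s ^ 2 := by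
  obtain ⟨τ0, hτ0, H⟩ := enc hη
  refine ⟨τ0 / 16, by positivity, fun e he => ?_⟩
  obtain ⟨ε, hε, ε1, ε2, ε3, ε4⟩ :
      ∃ ε > 0, 200 * ε ≤ e ∧ ε ≤ τ0 / 2 ∧ ε ≤ η ^ 2 / 2 ∧ ε ≤ 1 / 20 := by
    refine ⟨min (min (e / 200) (τ0 / 2)) (min (η ^ 2 / 2) (1 / 20)), by positivity, ?_,
      (min_le_left _ _).trans (min_le_right _ _), (min_le_right _ _).trans (min_le_left _ _),
      (min_le_right _ _).trans (min_le_right _ _)⟩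
    have := (min_le_left (min (e / 200) (τ0 / 2)) (min (η ^ 2 / 2) (1 / 20))).trans
      (min_le_left _ _)
    linarith
  refine ((H ε hε).and (small_le hε)).mono ?_
  rintro κ ⟨HK, hκ, hκε⟩ S s hs hw
  have hκ1 : κ ≤ 1 / 10 := by linarith
  obtain ⟨s', hss', hs', H3, H4⟩ := HK S.toSol s hs hw
  have hr := S.R_pos s
  have has : 0 < S.a s := one_pos.trans_le (S.one_le_a s)
  have hq : 0 < S.R s / S.a s := div_pos hr has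
  rw [mul_div_assoc] at hs' H3
  have hend : s' ≤ s + τ0 * (S.R s / S.a s) := by nlinarith
  have hfree := H3 s' ⟨le_rfl, hend⟩
  have hRb : ∀ τ ∈ Icc s s', S.R s ≤ 4 / 3 * S.R τ ∧ S.R τ ≤ 2 * S.R s := by
    intro τ hτ
    have h1 := abs_le.1 (H4 τ hτ).2.2.2.1
    have h2 : ε * S.R s ≤ 1 / 20 * S.R s := mul_le_mul_of_nonneg_right ε4 hr.le
    constructor <;> linarith [h1.1, h1.2]
  have hab : ∀ τ ∈ Icc s s', S.a τ ≤ 4 / 3 * S.a s := fun τ hτ =>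
    aa_le_mul (S.R_pos τ) (by norm_num) hr (hRb τ hτ).1
  have hrho : ∀ τ ∈ Icc s s', S.rho τ ≤ 2 * ε * S.R τ := by
    intro τ hτ
    have h1 := (H4 τ hτ).2.2.2.2.1
    have h2 := mul_le_mul_of_nonneg_left (hRb τ hτ).1 hε.le
    have h3 := mul_pos hε (S.R_pos τ)
    linarith
  have hm : s' ∈ Icc s s' := ⟨hss'.le, le_rfl⟩
  refine ⟨s', hss', hfree, ?_, fun t ht hc => ?_, fun τ hτ => ⟨?_, ?_⟩, fun τ hτ hc => ?_⟩
  · have h1 := (abs_le.1 ((H4 s' hm).2.2.2.2.2 hfree.le)).1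
    have h2 : (η * S.a s) ^ 2 ≤ ‖S.u1 s - S.u2 s‖ ^ 2 := pow_le_pow_left₀ (by positivity) hw 2
    have h3 : η / 2 * S.a s' ≤ η / 2 * (4 / 3 * S.a s) :=
      mul_le_mul_of_nonneg_left (hab s' hm) (by positivity)
    have h4 : ε * S.a s ^ 2 ≤ η ^ 2 / 2 * S.a s ^ 2 :=
      mul_le_mul_of_nonneg_right ε3 (by positivity)
    refine h3.trans (pow_le_pow_iff_left₀ (by positivity) (norm_nonneg _) two_ne_zero |>.1 ?_)
    have h5 : 0 ≤ (η * S.a s) ^ 2 := by positivity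
    nlinarith
  · have h1 : s + τ0 * (S.R s / S.a s) < t := by
      by_contra h
      exact absurd (H3 t ⟨ht, not_lt.1 h⟩) (not_lt.2 hc)
    have h2 : S.R s' / S.a s' ≤ 2 ^ 2 * (S.R s / S.a s) :=
      div_aa_le_mul (S.R_pos s') hr (by norm_num) (hRb s' hm).2
    rw [mul_div_assoc]
    nlinarith
  · exact (H4 τ hτ).2.2.2.1.trans (mul_le_mul_of_nonneg_right (by linarith) hr.le)
  · exact (hrho τ hτ).trans (mul_le_mul_of_nonneg_right (by linarith) (S.R_pos τ).le)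
  · obtain ⟨h1, h2, h3, -, -, h4⟩ := H4 τ hτ
    have cs : S.CV s := S.cv hκ hκ1 hs.ge (by rw [hs]; nlinarith)
    have ct : S.CV τ := S.cv hκ hκ1 hc (by nlinarith [hrho τ hτ, S.R_pos τ])
    obtain ⟨c1, c2, c3, c4, c5, c6⟩ := step_conv S hκ hκ1 hκε cs ct hs (hRb τ hτ).2
      (by linarith [hab τ hτ]) h1 h2 h3 (h4 hc)
    exact ⟨c1.trans (mul_le_mul_of_nonneg_right ε1 (norm_nonneg _)),
      c2.trans (mul_le_mul_of_nonneg_right ε1 (norm_nonneg _)),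
      c3.trans (mul_le_mul_of_nonneg_right ε1 (norm_nonneg _)),
      c4.trans (mul_le_mul_of_nonneg_right ε1 has.le),
      c5.trans (mul_le_mul_of_nonneg_right ε1 (by positivity)),
      c6.trans (mul_le_mul_of_nonneg_right ε1 (by positivity))⟩

end Pool.Agent.Lib.MP_e310f3_mp.Gap
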