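import Pool.Agent.Lib.MP_e310f3_mp.Gap.Defs

open Complex Filter Topology Set

noncomputable section

namespace Pool.Agent.Lib.MP_e310f3_mp.Gap

lemma dot_comm (a b : ℂ) : dot a b = dot b a :=
  by unfold dot; ring
lemma dot_self (a : ℂ) : dot a a = ‖a‖ ^ 2 :=
  by rw [Complex.sq_norm, normSq_apply]; rfl
lemma abs_dot_le (a b : ℂ) : |dot a b| ≤ ‖a‖ * ‖b‖ := by
  refine abs_le_of_sq_le_sq' ?_ (by positivity) |> abs_le.2
  have h : dot a b ^ 2 + cross a b ^ 2 = ‖a‖ ^ 2 * ‖b‖ ^ 2 := by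
    rw [Complex.sq_norm, Complex.sq_norm, normSq_apply, normSq_apply]; unfold dot cross; ring
  nlinarith [sq_nonneg (cross a b)]
lemma abs_cross_le (a b : ℂ) : |cross a b| ≤ ‖a‖ * ‖b‖ := by
  refine abs_le_of_sq_le_sq' ?_ (by positivity) |> abs_le.2
  have h : dot a b ^ 2 + cross a b ^ 2 = ‖a‖ ^ 2 * ‖b‖ ^ 2 := by
    rw [Complex.sq_norm, Complex.sq_norm, normSq_apply, normSq_apply]; unfold dot cross; ring
  nlinarith [sq_nonneg (dot a b)]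
lemma dot_sq_add_cross_sq (a b : ℂ) : dot a b ^ 2 + cross a b ^ 2 = ‖a‖ ^ 2 * ‖b‖ ^ 2 := by
  rw [Complex.sq_norm, Complex.sq_norm, normSq_apply, normSq_apply]; unfold dot cross; ring
lemma norm_add_sq' (a b : ℂ) : ‖a + b‖ ^ 2 = ‖a‖ ^ 2 + 2 * dot a b + ‖b‖ ^ 2 := by
  simp only [Complex.sq_norm, normSq_apply, dot, add_re, add_im]; ring
lemma norm_sub_sq' (a b : ℂ) : ‖a - b‖ ^ 2 = ‖a‖ ^ 2 - 2 * dot a b + ‖b‖ ^ 2 := by
  simp only [Complex.sq_norm, normSq_apply, dot, sub_re, sub_im]; ring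
lemma continuous_dot : Continuous (fun q : ℂ × ℂ => dot q.1 q.2) :=
  by unfold dot; fun_prop
lemma continuous_cross : Continuous (fun q : ℂ × ℂ => cross q.1 q.2) :=
  by unfold cross; fun_prop

private lemma tl_re {f : ℝ → ℂ} {f' : ℂ} {t : ℝ} (hf : HasDerivAt f f' t) :
    HasDerivAt (fun τ => (f τ).re) f'.re t := reCLM.hasFDerivAt.comp_hasDerivAt t hf
private lemma tl_im {f : ℝ → ℂ} {f' : ℂ} {t : ℝ} (hf : HasDerivAt f f' t) :
    HasDerivAt (fun τ => (f τ).im) f'.im t := imCLM.hasFDerivAt.comp_hasDerivAt t hf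

lemma hasDerivAt_dot {f g : ℝ → ℂ} {f' g' : ℂ} {t : ℝ} (hf : HasDerivAt f f' t)
    (hg : HasDerivAt g g' t) :
    HasDerivAt (fun τ => dot (f τ) (g τ)) (dot f' (g t) + dot (f t) g') t := by
  refine (((tl_re hf).fun_mul (tl_re hg)).fun_add ((tl_im hf).fun_mul (tl_im hg))).congr_deriv ?_
  unfold dot; ring
lemma hasDerivAt_cross {f g : ℝ → ℂ} {f' g' : ℂ} {t : ℝ} (hf : HasDerivAt f f' t)
    (hg : HasDerivAt g g' t) :
    HasDerivAt (fun τ => cross (f τ) (g τ)) (cross f' (g t) + cross (f t) g') t := by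
  refine (((tl_re hf).fun_mul (tl_im hg)).fun_sub ((tl_im hf).fun_mul (tl_re hg))).congr_deriv ?_
  unfold cross; ring
lemma hasDerivAt_normSq {f : ℝ → ℂ} {f' : ℂ} {t : ℝ} (hf : HasDerivAt f f' t) :
    HasDerivAt (fun τ => ‖f τ‖ ^ 2) (2 * dot (f t) f') t := by
  have h := hasDerivAt_dot hf hf
  simp only [dot_self] at h
  refine h.congr_deriv ?_
  rw [dot_comm f']; ring
lemma hasDerivAt_norm {f : ℝ → ℂ} {f' : ℂ} {t : ℝ} (hf : HasDerivAt f f' t) (h0 : f t ≠ 0) :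
    HasDerivAt (fun τ => ‖f τ‖) (dot (f t) f' / ‖f t‖) t := by
  have h1 : 0 < ‖f t‖ := norm_pos_iff.2 h0
  have h := (hasDerivAt_normSq hf).sqrt (by positivity)
  simp only [Real.sqrt_sq (norm_nonneg _)] at h
  refine h.congr_deriv ?_
  field_simp

private lemma tl_mono {f : ℝ → ℝ} {s t : ℝ} (hst : s ≤ t)
    (h : ∀ τ ∈ Icc s t, ∃ a, HasDerivAt f a τ ∧ 0 ≤ a) : f s ≤ f t := by
  refine monotoneOn_of_deriv_nonneg (convex_Icc s t) (fun τ hτ => ?_) (fun τ hτ => ?_)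
    (fun τ hτ => ?_) (left_mem_Icc.2 hst) (right_mem_Icc.2 hst) hst
  · obtain ⟨a, ha, -⟩ := h τ hτ
    exact ha.continuousAt.continuousWithinAt
  · obtain ⟨a, ha, -⟩ := h τ (interior_subset hτ)
    exact ha.differentiableAt.differentiableWithinAt
  · obtain ⟨a, ha, h0⟩ := h τ (interior_subset hτ)
    rwa [ha.deriv]

/-- comparison of increments -/
lemma sub_le_of_deriv_le {f g : ℝ → ℝ} {s t : ℝ} (hst : s ≤ t)
    (h : ∀ τ ∈ Icc s t, ∃ a b, HasDerivAt f a τ ∧ HasDerivAt g b τ ∧ a ≤ b) :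
    f t - f s ≤ g t - g s := by
  have h1 := tl_mono (f := fun τ => g τ - f τ) hst fun τ hτ => by
    obtain ⟨a, b, ha, hb, hab⟩ := h τ hτ
    exact ⟨b - a, hb.fun_sub ha, sub_nonneg.2 hab⟩
  linarith
lemma le_of_deriv_nonneg {f : ℝ → ℝ} {s t : ℝ} (hst : s ≤ t)
    (h : ∀ τ ∈ Icc s t, ∃ a, HasDerivAt f a τ ∧ 0 ≤ a) : f s ≤ f t :=
  tl_mono hst h
lemma abs_sub_le_of_deriv {f g : ℝ → ℝ} {s t : ℝ} (hst : s ≤ t)
    (h : ∀ τ ∈ Icc s t, ∃ a b, HasDerivAt f a τ ∧ HasDerivAt g b τ ∧ |a| ≤ b) :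
    |f t - f s| ≤ g t - g s := by
  have h1 := sub_le_of_deriv_le (f := f) (g := g) hst fun τ hτ => by
    obtain ⟨a, b, ha, hb, hab⟩ := h τ hτ
    exact ⟨a, b, ha, hb, (abs_le.1 hab).2⟩
  have h2 := sub_le_of_deriv_le (f := fun τ => -f τ) (g := g) hst fun τ hτ => by
    obtain ⟨a, b, ha, hb, hab⟩ := h τ hτ
    exact ⟨-a, b, ha.fun_neg, hb, by linarith [(abs_le.1 hab).1]⟩
  exact abs_le.2 ⟨by linarith, h1⟩
lemma norm_sub_le_of_deriv {f : ℝ → ℂ} {g : ℝ → ℝ} {s t : ℝ} (hst : s ≤ t)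
    (h : ∀ τ ∈ Icc s t, ∃ (a : ℂ) (b : ℝ), HasDerivAt f a τ ∧ HasDerivAt g b τ ∧ ‖a‖ ≤ b) :
    ‖f t - f s‖ ≤ g t - g s := by
  set v := f t - f s with hv
  have h1 := sub_le_of_deriv_le (f := fun τ => dot v (f τ)) (g := fun τ => ‖v‖ * g τ) hst
    fun τ hτ => by
      obtain ⟨a, b, ha, hb, hab⟩ := h τ hτ
      refine ⟨_, _, hasDerivAt_dot (hasDerivAt_const τ v) ha, hb.const_mul ‖v‖, ?_⟩
      have h2 := (abs_le.1 (abs_dot_le v a)).2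
      have h3 := mul_le_mul_of_nonneg_left hab (norm_nonneg v)
      have h4 : dot 0 (f τ) = 0 := by simp [dot]
      linarith
  have h2 : dot v (f t) - dot v (f s) = ‖v‖ ^ 2 := by
    rw [← dot_self, hv]; simp only [dot, sub_re, sub_im]; ring
  rcases (norm_nonneg v).eq_or_lt with h3 | h3
  · have h4 := le_of_deriv_nonneg (f := g) hst fun τ hτ => by
      obtain ⟨a, b, -, hb, hab⟩ := h τ hτ
      exact ⟨b, hb, (norm_nonneg a).trans hab⟩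
    linarith
  · refine le_of_mul_le_mul_left ?_ h3
    nlinarith

/-- forward bootstrap for finitely many continuous inequalities -/
lemma boot {ι : Type} [Finite ι] (G : ι → ℝ → ℝ) {s t : ℝ}
    (hG : ∀ i, ContinuousOn (G i) (Icc s t)) (h0 : ∀ i, G i s ≤ 0)
    (step : ∀ τ ∈ Icc s t, (∀ σ ∈ Icc s τ, ∀ i, G i σ ≤ 0) → ∀ i, G i τ < 0) :
    ∀ τ ∈ Icc s t, ∀ i, G i τ ≤ 0 := by
  have h1 : IsClosed ({τ | ∀ i, G i τ ≤ 0} ∩ Icc s t) := by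
    have e : {τ | ∀ i, G i τ ≤ 0} ∩ Icc s t = Icc s t ∩ ⋂ i, (Icc s t ∩ G i ⁻¹' Iic 0) := by
      ext τ
      simp only [mem_inter_iff, mem_ofPred_eq, mem_iInter, mem_preimage, mem_Iic]
      exact ⟨fun h => ⟨h.2, fun i => ⟨h.2, h.1 i⟩⟩, fun h => ⟨fun i => (h.2 i).2, h.1⟩⟩
    rw [e]
    exact isClosed_Icc.inter (isClosed_iInter fun i =>
      (hG i).preimage_isClosed_of_isClosed isClosed_Icc isClosed_Iic)
  refine h1.Icc_subset_of_forall_mem_nhdsGT_of_Icc_subset h0 fun τ hτ hsub => ?_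
  have h2 := step τ (Ico_subset_Icc_self hτ) hsub
  refine eventually_all.2 fun i => ?_
  have h3 : ∀ᶠ σ in 𝓝[Icc s t] τ, G i σ < 0 :=
    (hG i τ (Ico_subset_Icc_self hτ)).eventually (gt_mem_nhds (h2 i))
  exact (h3.filter_mono (nhdsWithin_le_of_mem (Icc_mem_nhdsGT_of_mem hτ))).mono fun _ h => h.le
/-- backward bootstrap -/
lemma boot_back {ι : Type} [Finite ι] (G : ι → ℝ → ℝ) {s t : ℝ}
    (hG : ∀ i, ContinuousOn (G i) (Icc s t)) (h0 : ∀ i, G i t ≤ 0)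
    (step : ∀ τ ∈ Icc s t, (∀ σ ∈ Icc τ t, ∀ i, G i σ ≤ 0) → ∀ i, G i τ < 0) :
    ∀ τ ∈ Icc s t, ∀ i, G i τ ≤ 0 := by
  intro τ hτ
  have hm : ∀ σ ∈ Icc (-t) (-s), -σ ∈ Icc s t := fun σ hσ =>
    ⟨by linarith [hσ.2], by linarith [hσ.1]⟩
  have h1 := boot (fun i σ => G i (-σ)) (s := -t) (t := -s)
    (fun i => (hG i).comp continuous_neg.continuousOn hm) (by simpa using h0)
    (fun σ hσ h => step (-σ) (hm σ hσ) fun ρ hρ => by
      simpa using h (-ρ) ⟨by linarith [hρ.2], by linarith [hρ.1]⟩)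
    (-τ) ⟨by linarith [hτ.2], by linarith [hτ.1]⟩
  simpa using h1
/-- first time at which a continuous function reaches zero -/
lemma exists_first {G : ℝ → ℝ} {s t : ℝ} (hst : s ≤ t) (hG : ContinuousOn G (Icc s t))
    (hs : G s < 0) (ht : 0 ≤ G t) :
    ∃ u ∈ Ioc s t, G u = 0 ∧ ∀ τ ∈ Ico s u, G τ < 0 := by
  have h1 : IsCompact (Icc s t ∩ G ⁻¹' Ici 0) :=
    isCompact_Icc.of_isClosed_subset
      (hG.preimage_isClosed_of_isClosed isClosed_Icc isClosed_Ici) inter_subset_left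
  obtain ⟨u, ⟨hu, hu0⟩, hmin⟩ := h1.exists_isLeast ⟨t, right_mem_Icc.2 hst, ht⟩
  obtain ⟨c, hc, hc0⟩ := intermediate_value_Icc hu.1 (hG.mono (Icc_subset_Icc_right hu.2))
    (show (0 : ℝ) ∈ Icc (G s) (G u) from ⟨hs.le, hu0⟩)
  have h2 : c = u := le_antisymm hc.2 (hmin ⟨⟨hc.1, hc.2.trans hu.2⟩, hc0.ge⟩)
  rw [h2] at hc0
  refine ⟨u, ⟨hu.1.lt_of_ne fun h => ?_, hu.2⟩, hc0, fun τ hτ => ?_⟩
  · rw [h] at hs
    exact hs.ne hc0
  · by_contra h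
    exact hτ.2.not_ge (hmin ⟨⟨hτ.1, hτ.2.le.trans hu.2⟩, not_lt.1 h⟩)
/-- last time at which a continuous function is zero -/
lemma exists_last {G : ℝ → ℝ} {s t : ℝ} (hst : s ≤ t) (hG : ContinuousOn G (Icc s t))
    (hs : 0 ≤ G s) (ht : G t < 0) :
    ∃ u ∈ Ico s t, G u = 0 ∧ ∀ τ ∈ Ioc u t, G τ < 0 := by
  have h1 : IsCompact (Icc s t ∩ G ⁻¹' Ici 0) :=
    isCompact_Icc.of_isClosed_subset
      (hG.preimage_isClosed_of_isClosed isClosed_Icc isClosed_Ici) inter_subset_left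
  obtain ⟨u, ⟨hu, hu0⟩, hmax⟩ := h1.exists_isGreatest ⟨s, left_mem_Icc.2 hst, hs⟩
  obtain ⟨c, hc, hc0⟩ := intermediate_value_Icc' hu.2 (hG.mono (Icc_subset_Icc_left hu.1))
    (show (0 : ℝ) ∈ Icc (G t) (G u) from ⟨ht.le, hu0⟩)
  have h2 : c = u := le_antisymm (hmax ⟨⟨hu.1.trans hc.1, hc.2⟩, hc0.ge⟩) hc.1
  rw [h2] at hc0
  refine ⟨u, ⟨hu.1, hu.2.lt_of_ne fun h => ?_⟩, hc0, fun τ hτ => ?_⟩
  · rw [← h] at ht
    exact ht.ne hc0
  · by_contra h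
    exact hτ.1.not_ge (hmax ⟨⟨hu.1.trans hτ.1.le, hτ.2⟩, not_lt.1 h⟩)

/-- a uniform margin from compactness -/
lemma compact_margin {X : Type} [TopologicalSpace X] {K : Set X} (hK : IsCompact K)
    {D G : X → ℝ} (hD : ContinuousOn D K) (hG : ContinuousOn G K)
    (h : ∀ x ∈ K, D x ≤ 0 → 0 < G x) : ∃ c > 0, ∀ x ∈ K, D x ≤ c → c ≤ G x := by
  rcases K.eq_empty_or_nonempty with rfl | hne
  · exact ⟨1, one_pos, fun x hx => absurd hx (notMem_empty x)⟩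
  obtain ⟨x0, hx0, hmin⟩ := hK.exists_isMinOn hne (f := fun x => max (D x) (G x)) (hD.sup hG)
  have h1 : 0 < max (D x0) (G x0) := by
    rcases le_or_gt (D x0) 0 with h2 | h2
    · exact lt_max_of_lt_right (h x0 hx0 h2)
    · exact lt_max_of_lt_left h2
  refine ⟨max (D x0) (G x0) / 2, half_pos h1, fun x hx hD' => ?_⟩
  have h3 : max (D x0) (G x0) ≤ max (D x) (G x) := hmin hx
  rcases le_max_iff.1 h3 with h4 | h4 <;> linarith

lemma norm_acc {g : ℝ} (hg : 0 ≤ g) {y : ℂ} (hy : y ≠ 0) : ‖acc g y‖ = g / ‖y‖ ^ 2 := by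
  have h1 : 0 < ‖y‖ := norm_pos_iff.2 hy
  rw [acc, norm_mul, Complex.norm_real, Real.norm_eq_abs, abs_neg, abs_of_nonneg (by positivity)]
  field_simp
lemma acc_neg (g : ℝ) (y : ℂ) : acc g (-y) = -acc g y :=
  by simp [acc]
private lemma tl_lip {g m : ℝ} (hg : 0 ≤ g) (hm : 0 < m) {x y : ℂ} (hy : m ≤ ‖y‖)
    (h : ‖y‖ ≤ ‖x‖) : ‖acc g x - acc g y‖ ≤ 4 * g * ‖x - y‖ / m ^ 3 := by
  have hb : 0 < ‖y‖ := hm.trans_le hy
  have ha : 0 < ‖x‖ := hb.trans_le h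
  have e : acc g x - acc g y = ((-(g / ‖x‖ ^ 3) : ℝ) : ℂ) * (x - y) +
      ((g / ‖y‖ ^ 3 - g / ‖x‖ ^ 3 : ℝ) : ℂ) * y := by
    simp only [acc]
    push_cast
    ring
  have h1 : g / ‖x‖ ^ 3 ≤ g / ‖y‖ ^ 3 := by gcongr
  have h2 : g / ‖y‖ ^ 3 ≤ g / m ^ 3 := by gcongr
  have h3 : ‖x‖ - ‖y‖ ≤ ‖x - y‖ := norm_sub_norm_le x y
  have h4 : (g / ‖y‖ ^ 3 - g / ‖x‖ ^ 3) * ‖y‖ ≤ 3 * (g / ‖y‖ ^ 3) * (‖x‖ - ‖y‖) := by
    have e1 : 3 * (g / ‖y‖ ^ 3) * (‖x‖ - ‖y‖) - (g / ‖y‖ ^ 3 - g / ‖x‖ ^ 3) * ‖y‖ =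
        g * (‖x‖ - ‖y‖) * ((‖x‖ - ‖y‖) * (3 * ‖x‖ ^ 2 + 2 * ‖x‖ * ‖y‖ + ‖y‖ ^ 2)) /
          (‖x‖ ^ 3 * ‖y‖ ^ 3) := by
      field_simp
      ring
    have h5 := sub_nonneg.2 h
    rw [← sub_nonneg, e1]
    positivity
  have h5 : 0 ≤ g / ‖y‖ ^ 3 := by positivity
  have h6 := norm_nonneg (x - y)
  rw [e]
  refine (norm_add_le _ _).trans ?_
  rw [norm_mul, norm_mul, Complex.norm_real, Complex.norm_real, Real.norm_eq_abs, Real.norm_eq_abs,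
    abs_neg, abs_of_nonneg (by positivity), abs_of_nonneg (sub_nonneg.2 h1),
    show 4 * g * ‖x - y‖ / m ^ 3 = 4 * (g / m ^ 3) * ‖x - y‖ by ring]
  nlinarith [mul_le_mul_of_nonneg_left h3 h5, mul_le_mul_of_nonneg_right h1 h6,
    mul_le_mul_of_nonneg_right h2 h6]

lemma acc_lip {g m : ℝ} (hg : 0 ≤ g) (hm : 0 < m) {x y : ℂ} (hx : m ≤ ‖x‖) (hy : m ≤ ‖y‖) :
    ‖acc g x - acc g y‖ ≤ 4 * g * ‖x - y‖ / m ^ 3 := by
  rcases le_total ‖y‖ ‖x‖ with h | h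
  · exact tl_lip hg hm hy h
  · rw [norm_sub_rev, norm_sub_rev x]
    exact tl_lip hg hm hx h

section kepler
variable {g : ℝ} {y p : ℝ → ℂ} {f : ℂ} {t : ℝ}
lemma d_hh (h0 : y t ≠ 0) (hy : HasDerivAt y (p t) t) (hp : HasDerivAt p (acc g (y t) + f) t) :
    HasDerivAt (fun τ => hh g (y τ) (p τ)) (dot (p t) f) t := by
  have h1 : 0 < ‖y t‖ := norm_pos_iff.2 h0
  refine (((hasDerivAt_normSq hp).div_const 2).fun_sub
    ((hasDerivAt_const t g).fun_div (hasDerivAt_norm hy h0) h1.ne')).congr_deriv ?_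
  simp only [dot, acc, add_re, add_im, re_ofReal_mul, im_ofReal_mul]
  field_simp
  ring
lemma d_K (h0 : y t ≠ 0) (hy : HasDerivAt y (p t) t) (hp : HasDerivAt p (acc g (y t) + f) t) :
    HasDerivAt (fun τ => dot (y τ) (p τ))
      (2 * hh g (y t) (p t) + g / ‖y t‖ + dot (y t) f) t := by
  have h1 : 0 < ‖y t‖ := norm_pos_iff.2 h0
  refine (hasDerivAt_dot hy hp).congr_deriv ?_
  have h2 : dot (y t) (acc g (y t) + f) = -(g / ‖y t‖ ^ 3) * dot (y t) (y t) + dot (y t) f := by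
    simp only [dot, acc, add_re, add_im, re_ofReal_mul, im_ofReal_mul]
    ring
  rw [h2, dot_self, dot_self, hh]
  field_simp
  ring
lemma d_L (hy : HasDerivAt y (p t) t) (hp : HasDerivAt p (acc g (y t) + f) t) :
    HasDerivAt (fun τ => cross (y τ) (p τ)) (cross (y t) f) t := by
  refine (hasDerivAt_cross hy hp).congr_deriv ?_
  simp only [cross, acc, add_re, add_im, re_ofReal_mul, im_ofReal_mul]
  ring
lemma d_Pq (h0 : y t ≠ 0) (hy : HasDerivAt y (p t) t) (hp : HasDerivAt p (acc g (y t) + f) t) :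
    HasDerivAt (fun τ => Pq (y τ) (p τ))
      (((hh g (y t) (p t) : ℝ) : ℂ) * p t + (starRingEnd ℂ) (y t) * p t * f) t := by
  have h1 : ((‖y t‖ : ℝ) : ℂ) ≠ 0 := by exact_mod_cast norm_ne_zero_iff.2 h0
  refine ((hy.star.fun_mul (hp.fun_pow 2)).div_const 2).congr_deriv ?_
  have e1 : (starRingEnd ℂ) (p t) * p t = ((‖p t‖ : ℝ) : ℂ) ^ 2 := Complex.conj_mul' _
  have e2 : (starRingEnd ℂ) (y t) * y t = ((‖y t‖ : ℝ) : ℂ) ^ 2 := Complex.conj_mul' _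
  simp only [hh, acc, RCLike.star_def]
  push_cast
  field_simp
  linear_combination (p t * ((‖y t‖ : ℝ) : ℂ) ^ 3) * e1 - (2 * g * p t) * e2
end kepler

lemma normSq_p (g : ℝ) (y p : ℂ) : ‖p‖ ^ 2 = 2 * hh g y p + 2 * g / ‖y‖ :=
  by unfold hh; ring
lemma K_sq (g : ℝ) {y : ℂ} (hy : y ≠ 0) (p : ℂ) :
    dot y p ^ 2 + cross y p ^ 2 = 2 * hh g y p * ‖y‖ ^ 2 + 2 * g * ‖y‖ := by
  have h1 : 0 < ‖y‖ := norm_pos_iff.2 hy
  rw [dot_sq_add_cross_sq, normSq_p g y p]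
  field_simp
lemma norm_Pq (g : ℝ) {y : ℂ} (hy : y ≠ 0) (p : ℂ) : ‖Pq y p‖ = g + hh g y p * ‖y‖ := by
  have h1 : 0 < ‖y‖ := norm_pos_iff.2 hy
  rw [Pq, norm_div, norm_mul, norm_pow, Complex.norm_conj, normSq_p g y p, Complex.norm_two]
  field_simp
  ring
lemma Pq_sub (g : ℝ) {y : ℂ} (hy : y ≠ 0) (p : ℂ) :
    ‖Pq y p - y / (‖y‖ : ℂ)‖ ≤ |g - 1| + |hh g y p| * ‖y‖ + cross y p ^ 2 / ‖y‖
      + |cross y p| * |dot y p| / ‖y‖ := by
  have h1 : 0 < ‖y‖ := norm_pos_iff.2 hy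
  have h2 : ((‖y‖ : ℝ) : ℂ) ≠ 0 := by exact_mod_cast h1.ne'
  have h3 := K_sq g hy p
  have e1 : (starRingEnd ℂ) y * p = (dot y p : ℂ) + (cross y p : ℂ) * I := by
    apply Complex.ext <;> simp [dot, cross]
    ring
  have e2 : (starRingEnd ℂ) y * y = ((‖y‖ : ℝ) : ℂ) ^ 2 := Complex.conj_mul' _
  have e3 : (dot y p : ℂ) ^ 2 + (cross y p : ℂ) ^ 2 =
      2 * (hh g y p : ℂ) * ((‖y‖ : ℝ) : ℂ) ^ 2 + 2 * g * ((‖y‖ : ℝ) : ℂ) := by exact_mod_cast h3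
  have e4 : Pq y p - y / (‖y‖ : ℂ) = y / (‖y‖ : ℂ) *
      (((g - 1 : ℝ) : ℂ) + ((hh g y p * ‖y‖ : ℝ) : ℂ) - ((cross y p ^ 2 / ‖y‖ : ℝ) : ℂ) +
        ((cross y p * dot y p / ‖y‖ : ℝ) : ℂ) * I) := by
    rw [Pq]
    push_cast
    field_simp
    linear_combination (-(starRingEnd ℂ) y * p ^ 2) * e2 +
      y * ((starRingEnd ℂ) y * p + (dot y p : ℂ) + (cross y p : ℂ) * I) * e1 + y * e3 +
      y * (cross y p : ℂ) ^ 2 * I_sq
  rw [e4, norm_mul, norm_div, Complex.norm_real, norm_norm, div_self h1.ne', one_mul]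
  refine (norm_add_le _ _).trans (add_le_add ((norm_sub_le _ _).trans
    (add_le_add ((norm_add_le _ _).trans (add_le_add ?_ ?_)) ?_)) ?_)
  · rw [Complex.norm_real, Real.norm_eq_abs]
  · rw [Complex.norm_real, Real.norm_eq_abs, abs_mul, abs_norm]
  · rw [Complex.norm_real, Real.norm_eq_abs, abs_of_nonneg (by positivity)]
  · rw [norm_mul, Complex.norm_I, mul_one, Complex.norm_real, Real.norm_eq_abs, abs_div, abs_mul,
      abs_norm]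

lemma exists_sqrt (y : ℂ) : ∃ z : ℂ, z ^ 2 = y :=
  IsAlgClosed.exists_pow_nat_eq y two_pos
lemma exists_sqrt_near {z y' : ℂ} {θ : ℝ} (h : ‖y' - z ^ 2‖ ≤ θ * ‖z‖ ^ 2) :
    ∃ z' : ℂ, z' ^ 2 = y' ∧ ‖z' - z‖ ≤ θ * ‖z‖ := by
  obtain ⟨w, hw, hd⟩ : ∃ w : ℂ, w ^ 2 = y' ∧ 0 ≤ dot w z := by
    obtain ⟨w, hw⟩ := exists_sqrt y'
    rcases le_total 0 (dot w z) with h1 | h1
    · exact ⟨w, hw, h1⟩
    · refine ⟨-w, by rw [neg_sq, hw], ?_⟩
      have : dot (-w) z = -dot w z := by simp only [dot, neg_re, neg_im]; ring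
      linarith
  refine ⟨w, hw, ?_⟩
  have h1 : ‖z‖ ≤ ‖w + z‖ := by
    refine abs_le_of_sq_le_sq' ?_ (norm_nonneg _) |>.2
    rw [norm_add_sq']
    nlinarith [sq_nonneg ‖w‖]
  have h2 : ‖w - z‖ * ‖w + z‖ ≤ θ * ‖z‖ ^ 2 := by
    rw [← norm_mul, show (w - z) * (w + z) = y' - z ^ 2 by rw [← hw]; ring]
    exact h
  rcases (norm_nonneg z).eq_or_lt with h3 | h3
  · obtain rfl : z = 0 := norm_eq_zero.1 h3.symm
    simp only [sub_zero, add_zero, norm_zero, mul_zero] at h2 ⊢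
    nlinarith [norm_nonneg w]
  · refine le_of_mul_le_mul_right ?_ h3
    nlinarith [mul_le_mul_of_nonneg_left h1 (norm_nonneg (w - z))]
/-- differentiable square root along a path avoiding the origin -/
lemma exists_lift {y p : ℝ → ℂ} (h0 : ∀ t, y t ≠ 0) (hy : ∀ t, HasDerivAt y (p t) t)
    (hp : Continuous p) {s : ℝ} {z0 : ℂ} (hz : z0 ^ 2 = y s) :
    ∃ z : ℝ → ℂ, z s = z0 ∧ ∀ t, z t ^ 2 = y t ∧ HasDerivAt z (p t / (2 * z t)) t := by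
  have hc : Continuous fun τ => p τ / (2 * y τ) :=
    hp.div (continuous_const.mul (continuous_iff_continuousAt.2 fun τ => (hy τ).continuousAt))
      fun τ => mul_ne_zero two_ne_zero (h0 τ)
  obtain ⟨A, hs, hA⟩ : ∃ A : ℝ → ℂ, A s = 0 ∧ ∀ t, HasDerivAt A (p t / (2 * y t)) t :=
    ⟨fun t => ∫ τ in s..t, p τ / (2 * y τ), by simp,
      fun t => (hc.integral_hasStrictDerivAt s t).hasDerivAt⟩
  have h1 : ∀ t, HasDerivAt (fun τ => y τ * cexp (-2 * A τ)) 0 t := fun t => by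
    refine ((hy t).fun_mul ((hA t).const_mul (-2)).cexp).congr_deriv ?_
    have := h0 t
    field_simp
    ring
  have h2 : ∀ t, (z0 * cexp (A t)) ^ 2 = y t := fun t => by
    have h3 := is_const_of_deriv_eq_zero (fun τ => (h1 τ).differentiableAt)
      (fun τ => (h1 τ).deriv) t s
    rw [hs, mul_zero, Complex.exp_zero, mul_one, ← hz] at h3
    have h4 : cexp (-2 * A t) * cexp (A t) ^ 2 = 1 := by
      rw [sq, ← Complex.exp_add, ← Complex.exp_add, show -2 * A t + (A t + A t) = 0 by ring,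
        Complex.exp_zero]
    rw [mul_pow, ← h3, mul_assoc, h4, mul_one]
  refine ⟨fun t => z0 * cexp (A t), by simp [hs], fun t => ⟨h2 t, ?_⟩⟩
  refine ((hA t).cexp.const_mul z0).congr_deriv ?_
  have h3 : z0 * cexp (A t) ≠ 0 := fun h => h0 t (by rw [← h2 t, h]; simp)
  have h4 : ∀ w : ℂ, w ≠ 0 → w * (p t / (2 * w ^ 2)) = p t / (2 * w) := fun w hw => by
    field_simp
  rw [← mul_assoc z0, ← h2 t]
  exact h4 _ h3
/-- Levi-Civita form of dev -/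
lemma dev_eq (g : ℝ) {y p ν z n : ℂ} (hy : y ≠ 0) (hz : z ^ 2 = y) (hn : n ^ 2 = ν) (hn1 : ‖n‖ = 1) :
    dev g y p ν = |cross n (2 * (starRingEnd ℂ) z * p + ((2 * √(2 * hh g y p) : ℝ) : ℂ) * z)| := by
  subst hz hn
  have h0 : z ≠ 0 := fun h => hy (by simp [h])
  have h1 : ((‖z‖ : ℝ) : ℂ) ≠ 0 := by exact_mod_cast norm_ne_zero_iff.2 h0
  have e2 : (starRingEnd ℂ) z * z = ((‖z‖ : ℝ) : ℂ) ^ 2 := Complex.conj_mul' _
  unfold dev Nn
  generalize √(2 * hh g (z ^ 2) p) = Ω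
  obtain ⟨H, hH⟩ : ∃ H, H = (starRingEnd ℂ) z * p + (Ω : ℂ) * z := ⟨_, rfl⟩
  have e3 : (starRingEnd ℂ) z * (p + ((Ω / ‖z ^ 2‖ : ℝ) : ℂ) * z ^ 2) = H := by
    rw [hH, norm_pow]
    push_cast
    field_simp
    linear_combination (Ω * z) * e2
  have e4 : 2 * (starRingEnd ℂ) z * p + ((2 * Ω : ℝ) : ℂ) * z = 2 * H := by
    rw [hH]
    push_cast
    ring
  rw [map_pow, ← mul_pow, e3, e4, norm_pow, ← Real.sqrt_sq_eq_abs]
  congr 1
  have e5 := dot_sq_add_cross_sq n H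
  rw [hn1, one_pow, one_mul] at e5
  rw [← e5]
  simp only [dot, cross, sq, mul_re, mul_im, re_ofNat, im_ofNat]
  ring

lemma aa_sq {r : ℝ} (hr : 0 < r) : aa r ^ 2 = 1 + 1 / r :=
  Real.sq_sqrt (by positivity)
lemma one_le_aa {r : ℝ} (hr : 0 < r) : 1 ≤ aa r :=
  Real.one_le_sqrt.2 (le_add_of_nonneg_right (by positivity))
lemma aa_anti {r s : ℝ} (hr : 0 < r) (h : r ≤ s) : aa s ≤ aa r :=
  Real.sqrt_le_sqrt (add_le_add_right (one_div_le_one_div_of_le hr h) 1)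
lemma aa_le_mul {r s c : ℝ} (hs : 0 < s) (hc : 1 ≤ c) (hr : 0 < r) (h : r ≤ c * s) :
    aa s ≤ c * aa r := by
  have h1 := one_le_aa hr
  refine (abs_le_of_sq_le_sq' ?_ (by positivity)).2
  rw [mul_pow, aa_sq hs, aa_sq hr]
  have h2 : 1 / s ≤ c * (1 / r) := by
    rw [mul_one_div, div_le_div_iff₀ hs hr]
    linarith
  have h3 : 0 < 1 / r := by positivity
  nlinarith [mul_nonneg (sub_nonneg.2 hc) (mul_nonneg (zero_le_one.trans hc) h3.le)]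
lemma mul_aa_sq {r : ℝ} (hr : 0 < r) : (r * aa r) ^ 2 = r ^ 2 + r := by
  rw [mul_pow, aa_sq hr]
  field_simp
lemma mul_aa_mono {r s : ℝ} (hr : 0 < r) (h : r ≤ s) : r * aa r ≤ s * aa s := by
  have h1 := one_le_aa (hr.trans_le h)
  have h2 := hr.trans_le h
  refine (abs_le_of_sq_le_sq' ?_ (by positivity)).2
  rw [mul_aa_sq hr, mul_aa_sq h2]
  nlinarith
lemma mul_aa_le_mul {r s c : ℝ} (hr : 0 < r) (hs : 0 < s) (hc : 1 ≤ c) (h : r ≤ c * s) :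
    r * aa r ≤ c * (s * aa s) := by
  have h1 := one_le_aa hs
  refine (abs_le_of_sq_le_sq' ?_ (by positivity)).2
  rw [mul_aa_sq hr, mul_pow, mul_aa_sq hs]
  have h2 : r ^ 2 ≤ (c * s) ^ 2 := pow_le_pow_left₀ hr.le h 2
  nlinarith [mul_nonneg (sub_nonneg.2 hc) (mul_nonneg (zero_le_one.trans hc) hs.le)]
lemma div_aa_le_mul {r s c : ℝ} (hr : 0 < r) (hs : 0 < s) (hc : 1 ≤ c) (h : r ≤ c * s) :
    r / aa r ≤ c ^ 2 * (s / aa s) := by
  have h1 := one_le_aa hs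
  have h2 := one_le_aa hr
  have h3 := aa_le_mul hs hc hr h
  rw [← mul_div_assoc, div_le_div_iff₀ (by positivity) (by positivity)]
  calc r * aa s ≤ (c * s) * (c * aa r) := mul_le_mul h h3 (by positivity) (by positivity)
    _ = c ^ 2 * s * aa r := by ring

lemma Small.and {P Q : ℝ → Prop} (h : Small P) (k : Small Q) : Small fun κ => P κ ∧ Q κ :=
  Eventually.and h k
lemma Small.mono {P Q : ℝ → Prop} (h : Small P) (k : ∀ κ, P κ → Q κ) : Small Q :=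
  Eventually.mono h k
lemma small_le {c : ℝ} (hc : 0 < c) : Small fun κ => 0 < κ ∧ κ ≤ c :=
  Eventually.mono (Ioc_mem_nhdsGT hc) fun _ h => h
lemma Small.exists {P : ℝ → Prop} (h : Small P) : ∃ κ, P κ :=
  Eventually.exists h

end Pool.Agent.Lib.MP_e310f3_mp.Gap
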