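import Pool.Agent.Lib.MP_e310f3_mp.Gap.VirX

open Complex Filter Topology Set

noncomputable section

namespace Pool.Agent.Lib.MP_e310f3_mp.Gap

open Vir

namespace Sol
variable {κ : ℝ} (S : Sol κ)

lemma dv1 (t : ℝ) : HasDerivAt S.x1 (S.v1 t) t := S.dx1 t
lemma dv2 (t : ℝ) : HasDerivAt S.x2 (S.v2 t) t := S.dx2 t
lemma rho_pos (t : ℝ) : 0 < S.rho t :=
  norm_pos_iff.2 (sub_ne_zero.2 (S.ne12 t))
lemma vx_par (t : ℝ) :
    ‖S.x1 t + S.x2 t‖ ^ 2 + S.rho t ^ 2 = 2 * (‖S.x1 t‖ ^ 2 + ‖S.x2 t‖ ^ 2) := by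
  rw [rho, norm_add_sq', norm_sub_sq']
  ring
lemma vx_rad_eq (t : ℝ) :
    ‖S.x1 t‖ ^ 2 + ‖S.x2 t‖ ^ 2 - κ ^ 4 * ‖S.x1 t + S.x2 t‖ ^ 2 / (1 + 2 * κ ^ 4) =
      (‖S.x1 t‖ ^ 2 + ‖S.x2 t‖ ^ 2 + κ ^ 4 * S.rho t ^ 2) / (1 + 2 * κ ^ 4) := by
  have h : (1 + 2 * κ ^ 4) ≠ 0 := by positivity
  rw [eq_div_iff h, sub_mul, div_mul_cancel₀ _ h]
  linear_combination (-κ ^ 4) * S.vx_par t
lemma R_sq (t : ℝ) : S.R t ^ 2 =
    ‖S.x1 t‖ ^ 2 + ‖S.x2 t‖ ^ 2 - κ ^ 4 * ‖S.x1 t + S.x2 t‖ ^ 2 / (1 + 2 * κ ^ 4) := by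
  refine Real.sq_sqrt ?_
  rw [S.vx_rad_eq t]
  positivity
lemma R_pos (t : ℝ) : 0 < S.R t := by
  refine Real.sqrt_pos.2 ?_
  have := norm_pos_iff.2 (S.ne1 t)
  rw [S.vx_rad_eq t]
  positivity
lemma vx_mul_R_sq (t : ℝ) : (1 + 2 * κ ^ 4) * S.R t ^ 2 =
    ‖S.x1 t‖ ^ 2 + ‖S.x2 t‖ ^ 2 + κ ^ 4 * S.rho t ^ 2 := by
  rw [S.R_sq t, S.vx_rad_eq t, mul_div_cancel₀ _ (by positivity)]
lemma R_sq_le (t : ℝ) : S.R t ^ 2 ≤ ‖S.x1 t‖ ^ 2 + ‖S.x2 t‖ ^ 2 := by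
  rw [S.R_sq t]
  exact sub_le_self _ (by positivity)
lemma le_R_sq (t : ℝ) : ‖S.x1 t‖ ^ 2 + ‖S.x2 t‖ ^ 2 ≤ (1 + 2 * κ ^ 4) * S.R t ^ 2 := by
  rw [S.vx_mul_R_sq t]
  exact le_add_of_nonneg_right (by positivity)
lemma a_sq (t : ℝ) : S.a t ^ 2 = 1 + 1 / S.R t :=
  aa_sq (S.R_pos t)
lemma one_le_a (t : ℝ) : 1 ≤ S.a t :=
  one_le_aa (S.R_pos t)
lemma W_sq (t : ℝ) : S.W t ^ 2 = 1 + 1 / ‖S.x1 t‖ + 1 / ‖S.x2 t‖ + κ ^ 4 / S.rho t := by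
  have := S.rho_pos t
  exact Real.sq_sqrt (by positivity)
lemma vx_kin (t : ℝ) :
    ‖S.u1 t‖ ^ 2 + ‖S.u2 t‖ ^ 2 + κ ^ 4 * ‖S.u1 t + S.u2 t‖ ^ 2 = 2 * S.W t ^ 2 := by
  have h := S.energy t
  rw [S.W_sq t, rho]
  linarith
lemma vx_a_nonneg (t : ℝ) : 0 ≤ S.a t := zero_le_one.trans (S.one_le_a t)
lemma vx_N_sq (t : ℝ) : (S.R t * S.a t) ^ 2 = S.R t ^ 2 + S.R t := mul_aa_sq (S.R_pos t)
lemma u1_le (t : ℝ) : ‖S.u1 t‖ ≤ 2 * S.W t := by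
  have h := S.vx_kin t
  have h2 : 0 ≤ κ ^ 4 * ‖S.u1 t + S.u2 t‖ ^ 2 := by positivity
  refine le_of_sq_le_sq ?_ (mul_nonneg zero_le_two (Real.sqrt_nonneg _))
  nlinarith [sq_nonneg ‖S.u2 t‖, sq_nonneg (S.W t)]
lemma u2_le (t : ℝ) : ‖S.u2 t‖ ≤ 2 * S.W t := by simpa using S.swap.u1_le t
lemma vx_dRad (t : ℝ) : HasDerivAt (fun τ => ‖S.x1 τ‖ ^ 2 + ‖S.x2 τ‖ ^ 2 -
    κ ^ 4 * ‖S.x1 τ + S.x2 τ‖ ^ 2 / (1 + 2 * κ ^ 4)) (2 * S.J t) t := by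
  have h := ((hasDerivAt_normSq (S.dx1 t)).fun_add (hasDerivAt_normSq (S.dx2 t))).fun_sub
    (((hasDerivAt_normSq ((S.dx1 t).fun_add (S.dx2 t))).const_mul (κ ^ 4)).div_const
      (1 + 2 * κ ^ 4))
  refine h.congr_deriv ?_
  have h0 : (1 + 2 * κ ^ 4) ≠ 0 := by positivity
  rw [sub_eq_iff_eq_add, ← sub_eq_iff_eq_add', eq_div_iff h0]
  unfold J
  generalize κ ^ 4 = ε
  simp only [dot, add_re, add_im, mul_re, mul_im, ofReal_re, ofReal_im]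
  ring
lemma dR (t : ℝ) : HasDerivAt S.R (S.J t / S.R t) t := by
  have h0 := S.R_pos t
  have h := (S.vx_dRad t).sqrt (Real.sqrt_pos.1 h0).ne'
  refine h.congr_deriv ?_
  exact mul_div_mul_left _ _ two_ne_zero
lemma vx_dR2 (t : ℝ) : HasDerivAt (fun τ => S.R τ ^ 2) (2 * S.J t) t := by
  have h := dsq (S.dR t)
  rwa [mul_div_cancel₀ _ (S.R_pos t).ne'] at h
lemma dJ (t : ℝ) : HasDerivAt S.J (1 + S.W t ^ 2) t := by
  have h := (hasDerivAt_dot (S.dx1 t) (S.du1 t)).fun_add (hasDerivAt_dot (S.dx2 t) (S.du2 t))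
  refine h.congr_deriv ?_
  have k := S.vx_kin t
  have w := S.W_sq t
  have a1 := dot_acc_self 1 (S.ne1 t)
  have a2 := dot_acc_self 1 (S.ne2 t)
  have a3 := dot_acc_self (κ ^ 4) (sub_ne_zero.2 (S.ne12 t))
  have e : S.x2 t - S.x1 t = -(S.x1 t - S.x2 t) := by ring
  rw [e, acc_neg]
  rw [← dot_self, ← dot_self, ← dot_self] at k
  unfold rho at w
  generalize acc (κ ^ 4) (S.x1 t - S.x2 t) = A at a3 ⊢
  generalize acc 1 (S.x1 t) = A1 at a1 ⊢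
  generalize acc 1 (S.x2 t) = A2 at a2 ⊢
  generalize κ ^ 4 = ε at k w a3 ⊢
  simp only [dot, add_re, add_im, sub_re, sub_im, neg_re, neg_im, mul_re, mul_im, ofReal_re,
    ofReal_im] at k a1 a2 a3 ⊢
  linear_combination k + a1 + a2 + a3 + w
lemma a_sq_le_W_sq (t : ℝ) : S.a t ^ 2 ≤ S.W t ^ 2 := by
  have h := one_le_RU (norm_pos_iff.2 (S.ne1 t)) (norm_pos_iff.2 (S.ne2 t)) (S.rho_pos t)
    (show 0 ≤ κ ^ 4 by positivity) (S.R_pos t) (S.vx_mul_R_sq t)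
  rw [S.a_sq, S.W_sq]
  linarith
lemma vx_cx1 : Continuous S.x1 := continuous_iff_continuousAt.2 fun t => (S.dx1 t).continuousAt
lemma vx_cx2 : Continuous S.x2 := continuous_iff_continuousAt.2 fun t => (S.dx2 t).continuousAt
lemma vx_cJ : Continuous S.J := continuous_iff_continuousAt.2 fun t => (S.dJ t).continuousAt
lemma continuous_R : Continuous S.R :=
  continuous_iff_continuousAt.2 fun t => (S.dR t).continuousAt
lemma continuous_rho : Continuous S.rho :=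
  (S.vx_cx1.sub S.vx_cx2).norm
lemma vx_cG : Continuous fun τ => κ * S.R τ - S.rho τ :=
  (continuous_const.mul S.continuous_R).sub S.continuous_rho
lemma continuous_a : Continuous S.a :=
  (continuous_const.add (continuous_const.div S.continuous_R fun t => (S.R_pos t).ne')).sqrt
lemma continuous_c12 : Continuous S.c12 :=
  (continuous_dot.comp (S.vx_cx1.prodMk S.vx_cx2)).div (S.vx_cx1.norm.mul S.vx_cx2.norm) fun t =>
    mul_ne_zero (norm_ne_zero_iff.2 (S.ne1 t)) (norm_ne_zero_iff.2 (S.ne2 t))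
lemma J_strictMono : StrictMono S.J :=
  strictMono_of_deriv_pos fun t => by
    rw [(S.dJ t).deriv]
    positivity
lemma vx_timeJ0 {s t : ℝ} (hst : s ≤ t) : t - s ≤ S.J t - S.J s :=
  sub_le_of_deriv_le (f := fun τ => τ) (g := S.J) hst fun τ _ =>
    ⟨_, _, hasDerivAt_id' τ, S.dJ τ, le_add_of_nonneg_right (sq_nonneg _)⟩
lemma exists_t0 : ∃ t0, S.J t0 = 0 := by
  have h0 := abs_nonneg (S.J 0)
  have h1 := S.vx_timeJ0 h0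
  have h2 := S.vx_timeJ0 (neg_nonpos.2 h0)
  obtain ⟨u, -, hu⟩ := intermediate_value_Icc (show -|S.J 0| ≤ |S.J 0| by linarith)
    S.vx_cJ.continuousOn (show (0 : ℝ) ∈ Icc _ _ from
      ⟨by linarith [le_abs_self (S.J 0)], by linarith [neg_abs_le (S.J 0)]⟩)
  exact ⟨u, hu⟩
lemma R_tendsto : Tendsto S.R atTop atTop := by
  obtain ⟨t0, h0⟩ := S.exists_t0
  refine tendsto_atTop_mono' atTop ?_ (tendsto_atTop_add_const_right atTop (-t0) tendsto_id)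
  filter_upwards [eventually_ge_atTop t0] with t ht
  have h := sub_le_of_deriv_le (f := fun τ => (τ - t0) ^ 2) (g := fun τ => S.R τ ^ 2) ht
    fun τ hτ => ⟨_, _, dsq_sub t0 τ, S.vx_dR2 τ, by linarith [S.vx_timeJ0 hτ.1]⟩
  refine le_of_sq_le_sq ?_ (S.R_pos t).le
  simp only [id, sub_self] at h ⊢
  nlinarith [sq_nonneg (S.R t0)]
lemma timeJ {s t M : ℝ} (hst : s ≤ t) (hM : ∀ τ ∈ Icc s t, S.R τ ≤ M) :
    (t - s) * (1 + 1 / M) ≤ S.J t - S.J s := by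
  have h := sub_le_of_deriv_le (f := fun τ => τ * (1 + 1 / M)) (g := S.J) hst fun τ hτ =>
    ⟨_, _, (hasDerivAt_id' τ).mul_const _, S.dJ τ, by
      have h1 := one_div_le_one_div_of_le (S.R_pos τ) (hM τ hτ)
      linarith [S.a_sq_le_W_sq τ, S.a_sq τ]⟩
  linarith
lemma x1_le (hκ : 0 < κ) (hκ1 : κ ≤ 1 / 10) (t : ℝ) : ‖S.x1 t‖ ≤ 101 / 100 * S.R t := by
  have h := S.le_R_sq t
  have h2 := mul_le_mul_of_nonneg_right (eps_le hκ hκ1) (sq_nonneg (S.R t))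
  refine le_of_sq_le_sq ?_ (by linarith [S.R_pos t])
  nlinarith [sq_nonneg ‖S.x2 t‖, sq_nonneg (S.R t)]
lemma x2_le (hκ : 0 < κ) (hκ1 : κ ≤ 1 / 10) (t : ℝ) : ‖S.x2 t‖ ≤ 101 / 100 * S.R t := by
  simpa using S.swap.x1_le hκ hκ1 t
lemma rho_le (hκ : 0 < κ) (hκ1 : κ ≤ 1 / 10) (t : ℝ) : S.rho t ≤ 2 * S.R t := by
  have h := S.le_R_sq t
  have h2 := mul_le_mul_of_nonneg_right (eps_le hκ hκ1) (sq_nonneg (S.R t))
  have h3 := S.vx_par t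
  refine le_of_sq_le_sq ?_ (by linarith [S.R_pos t])
  nlinarith [sq_nonneg ‖S.x1 t + S.x2 t‖, sq_nonneg (S.R t)]

/-- first encounter after a time without encounter -/
lemma first_enc {s t : ℝ} (hst : s ≤ t) (hs : κ * S.R s < S.rho s) (ht : S.rho t ≤ κ * S.R t) :
    ∃ u, s < u ∧ u ≤ t ∧ S.rho u = κ * S.R u ∧ (∀ τ ∈ Ico s u, κ * S.R τ < S.rho τ) ∧
      S.Free s u := by
  obtain ⟨u, hu, h0, h1⟩ := exists_first (G := fun τ => κ * S.R τ - S.rho τ) hst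
    S.vx_cG.continuousOn (sub_neg.2 hs) (sub_nonneg.2 ht)
  have h2 : S.rho u = κ * S.R u := (sub_eq_zero.1 h0).symm
  refine ⟨u, hu.1, hu.2, h2, fun τ hτ => sub_neg.1 (h1 τ hτ), fun τ hτ => ?_⟩
  rcases hτ.2.eq_or_lt with e | e
  · rw [e, h2]
  · exact (sub_neg.1 (h1 τ ⟨hτ.1, e⟩)).le
/-- the very first encounter -/
lemma first_enc_bot {t : ℝ} (hb : ∀ᶠ τ in atBot, κ * S.R τ < S.rho τ) (ht : S.rho t ≤ κ * S.R t) :
    ∃ u, u ≤ t ∧ S.rho u = κ * S.R u ∧ ∀ τ, τ < u → κ * S.R τ < S.rho τ := by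
  obtain ⟨s, hs⟩ := eventually_atBot.1 hb
  have hst : s ≤ t := not_lt.1 fun h => absurd (hs t h.le) (not_lt.2 ht)
  obtain ⟨u, -, h1, h2, h3, -⟩ := S.first_enc hst (hs s le_rfl) ht
  refine ⟨u, h1, h2, fun τ hτ => ?_⟩
  rcases le_total τ s with h | h
  · exact hs τ h
  · exact h3 τ ⟨h, hτ⟩
/-- the very last encounter -/
lemma last_enc_top {t : ℝ} (hb : ∀ᶠ τ in atTop, κ * S.R τ < S.rho τ) (ht : S.rho t ≤ κ * S.R t) :
    ∃ u, t ≤ u ∧ S.rho u = κ * S.R u ∧ ∀ τ, u < τ → κ * S.R τ < S.rho τ := by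
  obtain ⟨s, hs⟩ := eventually_atTop.1 hb
  have hst : t ≤ s := not_lt.1 fun h => absurd (hs t h.le) (not_lt.2 ht)
  obtain ⟨u, hu, h0, h1⟩ := exists_last (G := fun τ => κ * S.R τ - S.rho τ) hst
    S.vx_cG.continuousOn (sub_nonneg.2 ht) (sub_neg.2 (hs s le_rfl))
  refine ⟨u, hu.1, (sub_eq_zero.1 h0).symm, fun τ hτ => ?_⟩
  rcases le_total τ s with h | h
  · exact sub_neg.1 (h1 τ ⟨hτ, h⟩)
  · exact hs τ h

end Sol

namespace Sys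
variable {κ : ℝ} (S : Sys κ)

lemma J_nonneg {t : ℝ} (h : S.t0 ≤ t) : 0 ≤ S.J t :=
  S.J0.symm.le.trans (S.J_strictMono.monotone h)
lemma J_nonpos {t : ℝ} (h : t ≤ S.t0) : S.J t ≤ 0 :=
  (S.J_strictMono.monotone h).trans S.J0.le
lemma t0_lt_of_J_pos {t : ℝ} (h : 0 < S.J t) : S.t0 < t :=
  not_le.1 fun k => absurd (S.J_nonpos k) (not_le.2 h)
lemma R_mono {s t : ℝ} (h0 : S.t0 ≤ s) (hst : s ≤ t) : S.R s ≤ S.R t :=
  le_of_deriv_nonneg hst fun τ hτ =>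
    ⟨_, S.dR τ, div_nonneg (S.J_nonneg (h0.trans hτ.1)) (S.R_pos τ).le⟩
lemma R_anti {s t : ℝ} (hst : s ≤ t) (h0 : t ≤ S.t0) : S.R t ≤ S.R s := by
  have h := le_of_deriv_nonneg (f := fun τ => -S.R τ) hst fun τ hτ => ⟨_, (S.dR τ).fun_neg,
    neg_nonneg.2 (div_nonpos_of_nonpos_of_nonneg (S.J_nonpos (hτ.2.trans h0)) (S.R_pos τ).le)⟩
  exact neg_le_neg_iff.1 h
lemma R_min (t : ℝ) : S.R S.t0 ≤ S.R t := by
  rcases le_total S.t0 t with h | h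
  · exact S.R_mono le_rfl h
  · exact S.R_anti h le_rfl
lemma R_le_max {s t τ : ℝ} (h : τ ∈ Icc s t) : S.R τ ≤ max (S.R s) (S.R t) := by
  rcases le_total S.t0 τ with k | k
  · exact (S.R_mono k h.2).trans (le_max_right _ _)
  · exact (S.R_anti h.1 k).trans (le_max_left _ _)
lemma vir1 {s t : ℝ} (h0 : S.t0 ≤ s) (hst : s ≤ t) :
    S.J s ^ 2 + (S.R t ^ 2 - S.R s ^ 2) + 2 * (S.R t - S.R s) ≤ S.J t ^ 2 := by
  have h := sub_le_of_deriv_le (f := fun τ => S.R τ ^ 2 + 2 * S.R τ) (g := fun τ => S.J τ ^ 2) hst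
    fun τ hτ => ⟨_, _, (S.vx_dR2 τ).fun_add ((S.dR τ).const_mul 2), dsq (S.dJ τ), by
      have h1 := S.J_nonneg (h0.trans hτ.1)
      have h2 : 1 / S.R τ ≤ S.W τ ^ 2 := by linarith [S.a_sq_le_W_sq τ, S.a_sq τ]
      have h3 := mul_le_mul_of_nonneg_left h2 h1
      rw [mul_one_div] at h3
      linarith⟩
  linarith
lemma vir_persist {s t c : ℝ} (h0 : S.t0 ≤ s) (hst : s ≤ t) (hc : 0 ≤ c) (hc1 : c ≤ 1)
    (h : c * (S.R s * S.a s) ≤ S.J s) : c * (S.R t * S.a t) ≤ S.J t := by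
  have h1 := S.vir1 h0 hst
  have h2 := S.R_mono h0 hst
  have h3 := S.R_pos s
  have h4 := pow_le_pow_left₀ (mul_nonneg hc (mul_nonneg h3.le (S.vx_a_nonneg s))) h 2
  have h5 : c ^ 2 ≤ 1 := pow_le_one₀ hc hc1
  have h6 : 0 ≤ S.R t ^ 2 - S.R s ^ 2 + (S.R t - S.R s) := by nlinarith
  have h7 := mul_le_mul_of_nonneg_right h5 h6
  refine le_of_sq_le_sq ?_ (S.J_nonneg (h0.trans hst))
  rw [mul_pow, S.vx_N_sq] at h4 ⊢
  linarith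
lemma vir_far {t : ℝ} (h0 : S.t0 ≤ t) (h : 2 * S.R S.t0 ≤ S.R t) :
    4 / 5 * (S.R t * S.a t) ≤ S.J t := by
  have h1 := S.vir1 le_rfl h0
  have h3 := S.R_pos S.t0
  have h4 : (2 * S.R S.t0) ^ 2 ≤ S.R t ^ 2 := pow_le_pow_left₀ (by linarith) h 2
  refine le_of_sq_le_sq ?_ (S.J_nonneg h0)
  rw [mul_pow, S.vx_N_sq]
  nlinarith [sq_nonneg (S.J S.t0), sq_nonneg (S.R t)]
lemma time1 {s t : ℝ} (h0 : S.t0 ≤ s) (hst : s ≤ t) : (t - s) ^ 2 ≤ S.R t ^ 3 := by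
  have hR := S.R_pos t
  have h := sub_le_of_deriv_le (f := fun τ => (τ - s) ^ 2 / S.R t) (g := fun τ => S.R τ ^ 2) hst
    fun τ hτ => ⟨_, _, (dsq_sub s τ).div_const _, S.vx_dR2 τ, by
      have h1 := S.timeJ (M := S.R t) hτ.1 fun σ hσ => S.R_mono (h0.trans hσ.1) (hσ.2.trans hτ.2)
      have h2 := S.J_nonneg h0
      have h3 := hτ.1
      rw [mul_add, mul_one, mul_one_div] at h1
      rw [mul_div_assoc]
      linarith⟩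
  have h4 : (t - s) ^ 2 / S.R t ≤ S.R t ^ 2 := by
    simp only [sub_self, ne_eq, OfNat.ofNat_ne_zero, not_false_eq_true, zero_pow, zero_div,
      sub_zero] at h
    linarith [sq_nonneg (S.R s)]
  rw [div_le_iff₀ hR] at h4
  linarith
/-- Lyapunov function controlling the integral of a / R^2 on the outbound half -/
lemma exists_L : ∃ L : ℝ → ℝ, ∀ t, S.t0 ≤ t →
    (∃ l, HasDerivAt L l t ∧ S.a t / S.R t ^ 2 ≤ l) ∧ -(3 / S.R t) ≤ L t ∧ L t ≤ 0 := by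
  refine ⟨fun τ => (-3 + S.J τ / (√(S.R τ ^ 2 + S.R τ) + S.J τ)) / S.R τ, fun t ht => ?_⟩
  have hR := S.R_pos t
  have hJ := S.J_nonneg ht
  have hQ : 0 < S.R t ^ 2 + S.R t := by positivity
  have hN := Real.sqrt_pos.2 hQ
  have hN2 := Real.sq_sqrt hQ.le
  have hs : 0 < √(S.R t ^ 2 + S.R t) + S.J t := by linarith
  have e : S.R t * S.a t = √(S.R t ^ 2 + S.R t) := by
    rw [← S.vx_N_sq, Real.sqrt_sq (mul_nonneg hR.le (S.vx_a_nonneg t))]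
  have dN := ((S.vx_dR2 t).fun_add (S.dR t)).sqrt hQ.ne'
  have dL := (((S.dJ t).fun_div (dN.fun_add (S.dJ t)) hs.ne').const_add (-3)).fun_div (S.dR t)
    hR.ne'
  refine ⟨⟨_, dL, L_ineq hR hN hJ hN2 e ?_⟩, ?_, ?_⟩
  · linarith [S.a_sq_le_W_sq t, S.a_sq t]
  · rw [← neg_div]
    exact div_le_div_of_nonneg_right (le_add_of_nonneg_right (div_nonneg hJ hs.le)) hR.le
  · refine div_nonpos_of_nonpos_of_nonneg ?_ hR.le
    have := (div_le_one hs).2 (show S.J t ≤ _ by linarith)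
    linarith
/-- a given larger size is attained on the outbound half -/
lemma exists_R_eq {s t M : ℝ} (hst : s ≤ t) (h1 : S.R s ≤ M) (h2 : M ≤ S.R t) :
    ∃ u ∈ Icc s t, S.R u = M :=
  intermediate_value_Icc hst S.continuous_R.continuousOn ⟨h1, h2⟩

lemma y1_le (hκ : 0 < κ) (hκ1 : κ ≤ 1 / 10) (t : ℝ) : ‖S.y1 t‖ ≤ 2 * S.R t := by
  have h1 := (y_near hκ hκ1 (S.yx1 t)).2
  linarith [S.x1_le hκ hκ1 t, S.R_pos t]
lemma y2_le (hκ : 0 < κ) (hκ1 : κ ≤ 1 / 10) (t : ℝ) : ‖S.y2 t‖ ≤ 2 * S.R t := by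
  simpa using S.swap.y1_le hκ hκ1 t
lemma y_or (hκ : 0 < κ) (hκ1 : κ ≤ 1 / 10) (t : ℝ) :
    S.R t / 2 ≤ ‖S.y1 t‖ ∨ S.R t / 2 ≤ ‖S.y2 t‖ := by
  by_contra hc
  rw [not_or, not_le, not_le] at hc
  have h1 := (y_near hκ hκ1 (S.yx1 t)).1
  have h2 := (y_near hκ hκ1 (S.yx2 t)).1
  have h3 := S.R_sq_le t
  have h4 := S.R_pos t
  have h5 : ‖S.x1 t‖ ^ 2 ≤ (6 / 10 * S.R t) ^ 2 :=
    pow_le_pow_left₀ (norm_nonneg _) (by linarith [hc.1]) 2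
  have h6 : ‖S.x2 t‖ ^ 2 ≤ (6 / 10 * S.R t) ^ 2 :=
    pow_le_pow_left₀ (norm_nonneg _) (by linarith [hc.2]) 2
  nlinarith [pow_pos h4 2]
lemma continuous_h1 : Continuous S.h1 :=
  continuous_iff_continuousAt.2 fun t => (d_hh (S.ny1 t) (S.dy1 t) (S.dp1 t)).continuousAt
lemma continuous_h2 : Continuous S.h2 :=
  continuous_iff_continuousAt.2 fun t => (d_hh (S.ny2 t) (S.dy2 t) (S.dp2 t)).continuousAt
lemma dh1 (t : ℝ) : HasDerivAt S.h1 (dot (S.p1 t) (S.f1 t)) t := d_hh (S.ny1 t) (S.dy1 t) (S.dp1 t)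
lemma dh2 (t : ℝ) : HasDerivAt S.h2 (dot (S.p2 t) (S.f2 t)) t := d_hh (S.ny2 t) (S.dy2 t) (S.dp2 t)
lemma HB_mono {θ θ' e1 e2 s t s' t' : ℝ} (h : S.HB θ e1 e2 s t) (hθ : θ ≤ θ') (hs : s ≤ s')
    (ht : t' ≤ t) : S.HB θ' e1 e2 s' t' :=
  fun τ hτ =>
  have k := h τ ⟨hs.trans hτ.1, hτ.2.trans ht⟩
  have m := mul_le_mul_of_nonneg_right hθ (sq_nonneg (S.a τ))
  ⟨k.1.trans m, k.2.trans m⟩
/-- the majorant of the force outside encounters -/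
lemma phi_le (hκ : 0 < κ) (hκ1 : κ ≤ 1 / 10) {t : ℝ} (h : κ * S.R t ≤ S.rho t) (y : ℂ) :
    κ ^ 3 * (1 / S.rho t ^ 2 + 1 / S.R t ^ 2 + 1 / (1 + ‖y‖) ^ 2)
      ≤ κ * (2 / S.R t ^ 2 + 1 / (1 + ‖y‖) ^ 2) := by
  have hR := S.R_pos t
  have h3 : κ ^ 3 ≤ κ := by linarith [cube_le hκ hκ1]
  have h1 : κ ^ 3 * (1 / S.rho t ^ 2) ≤ κ * (1 / S.R t ^ 2) := by
    have h4 : (κ * S.R t) ^ 2 ≤ S.rho t ^ 2 := pow_le_pow_left₀ (by positivity) h 2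
    refine (mul_le_mul_of_nonneg_left (one_div_le_one_div_of_le (by positivity) h4)
      (by positivity)).trans (le_of_eq ?_)
    field_simp
  have h2 := mul_le_mul_of_nonneg_right h3
    (show 0 ≤ 1 / S.R t ^ 2 + 1 / (1 + ‖y‖) ^ 2 by positivity)
  have e : 2 / S.R t ^ 2 = 2 * (1 / S.R t ^ 2) := by ring
  rw [e]
  linarith

/-- conversions at the boundary of an encounter -/
structure CV (t : ℝ) : Prop where
  x1lo : S.R t / 2 ≤ ‖S.x1 t‖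
  x1hi : ‖S.x1 t‖ ≤ S.R t
  x2lo : S.R t / 2 ≤ ‖S.x2 t‖
  x2hi : ‖S.x2 t‖ ≤ S.R t
  y1lo : S.R t / 2 ≤ ‖S.y1 t‖
  y1hi : ‖S.y1 t‖ ≤ S.R t
  y2lo : S.R t / 2 ≤ ‖S.y2 t‖
  y2hi : ‖S.y2 t‖ ≤ S.R t
  y12 : ‖S.y1 t - S.y2 t‖ ≤ S.rho t + κ * S.R t
  u1 : ‖S.u1 t‖ ≤ 4 * S.a t
  u2 : ‖S.u2 t‖ ≤ 4 * S.a t
  p1 : ‖S.p1 t‖ ≤ 5 * S.a t
  p2 : ‖S.p2 t‖ ≤ 5 * S.a t
  pu1 : ‖S.p1 t - S.u1 t‖ ≤ κ * S.a t
  pu2 : ‖S.p2 t - S.u2 t‖ ≤ κ * S.a t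
  hsum : |S.h1 t + S.h2 t - 1| ≤ κ * S.a t ^ 2
  JK : |S.J t - (S.K1 t + S.K2 t)| ≤ κ * (S.R t * S.a t)
  J : |S.J t| ≤ 8 * (S.R t * S.a t)

lemma cv (hκ : 0 < κ) (hκ1 : κ ≤ 1 / 10) {t : ℝ} (h1 : κ * S.R t ≤ S.rho t)
    (h2 : S.rho t ≤ S.R t / 10) : S.CV t := by
  have hR := S.R_pos t
  have ha := S.one_le_a t
  have ha2 := S.a_sq t
  have k3 := cube_le hκ hκ1
  have k4 := four_le hκ hκ1
  have e0 : 0 < κ ^ 3 := by positivity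
  have s1 := S.R_sq_le t
  have s2 : ‖S.x1 t‖ ^ 2 + ‖S.x2 t‖ ^ 2 ≤ 5001 / 5000 * S.R t ^ 2 := by
    linarith [S.le_R_sq t, mul_le_mul_of_nonneg_right (eps_le hκ hκ1) (sq_nonneg (S.R t))]
  have s3 := abs_le.1 ((abs_norm_sub_norm_le (S.x1 t) (S.x2 t)).trans h2)
  obtain ⟨a1, b1⟩ := r_near hR (norm_nonneg _) (norm_nonneg _) s1 s2 s3.1 s3.2
  obtain ⟨a2, b2⟩ := r_near hR (norm_nonneg (S.x2 t)) (norm_nonneg (S.x1 t)) (by linarith)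
    (by linarith) (by linarith [s3.2]) (by linarith [s3.1])
  have iR : 0 < 1 / S.R t := by positivity
  have er : κ ^ 4 / S.rho t ≤ κ ^ 3 * (1 / S.R t) := by
    refine (div_le_div_of_nonneg_left (by positivity) (by positivity) h1).trans (le_of_eq ?_)
    field_simp
  have er0 : 0 ≤ κ ^ 4 / S.rho t := div_nonneg (by positivity) (S.rho_pos t).le
  have inv : ∀ r : ℝ, 13 / 20 * S.R t ≤ r → 1 / r ≤ 20 / 13 * (1 / S.R t) := fun r hr => by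
    refine (one_div_le_one_div_of_le (by positivity) hr).trans (le_of_eq ?_)
    field_simp
  have hW : S.W t ≤ 2 * S.a t := by
    refine le_of_sq_le_sq ?_ (by linarith)
    have := mul_le_mul_of_nonneg_right (show κ ^ 3 ≤ 1 / 1000 by linarith) iR.le
    rw [mul_pow, ha2, S.W_sq]
    linarith [inv _ a1, inv _ a2]
  have u1 : ‖S.u1 t‖ ≤ 4 * S.a t := by linarith [S.u1_le t]
  have u2 : ‖S.u2 t‖ ≤ 4 * S.a t := by linarith [S.u2_le t]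
  have hW3 := mul_le_mul_of_nonneg_left hW e0.le
  have iRa : 1 / S.R t ≤ S.a t ^ 2 := by linarith
  obtain ⟨c1, c2, c3, c4, c5, c6, c7, c8⟩ :=
    cv_one hκ hκ1 hR ha iRa a1 b1 (S.yx1 t) u1 ((S.pu1 t).trans hW3)
  obtain ⟨d1, d2, d3, d4, d5, d6, d7, d8⟩ :=
    cv_one hκ hκ1 hR ha iRa a2 b2 (S.yx2 t) u2 ((S.pu2 t).trans hW3)
  refine ⟨by linarith, by linarith, by linarith, by linarith, c1, c2, d1, d2, ?_, u1, u2, c4, d4,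
    c5, d5, ?_, ?_, ?_⟩
  · have e : S.y1 t - S.y2 t =
        (S.x1 t - S.x2 t) + ((S.y1 t - S.x1 t) - (S.y2 t - S.x2 t)) := by ring
    rw [e]
    refine (norm_add_le _ _).trans (add_le_add le_rfl ((norm_sub_le _ _).trans ?_))
    linarith
  · have en := S.energy t
    have v1 : ‖S.u1 t + S.u2 t‖ ^ 2 ≤ (8 * S.a t) ^ 2 :=
      pow_le_pow_left₀ (norm_nonneg _) ((norm_add_le _ _).trans (by linarith)) 2
    have v2 := mul_le_mul k4 v1 (by positivity) (by positivity)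
    have v3 : 0 ≤ κ ^ 4 * ‖S.u1 t + S.u2 t‖ ^ 2 := by positivity
    have v4 := mul_le_mul_of_nonneg_left iRa e0.le
    have v5 := mul_le_mul_of_nonneg_right k3 (sq_nonneg (S.a t))
    have v6 : 0 ≤ κ * S.a t ^ 2 := by positivity
    have c6 := abs_le.1 c6
    have d6 := abs_le.1 d6
    unfold Sol.rho at er er0
    unfold Sys.h1 Sys.h2
    refine abs_le.2 ⟨?_, ?_⟩ <;> linarith [c6.1, c6.2, d6.1, d6.2]
  · have c7 := abs_le.1 c7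
    have d7 := abs_le.1 d7
    unfold Sol.J K1 K2
    refine abs_le.2 ⟨?_, ?_⟩ <;> linarith [c7.1, c7.2, d7.1, d7.2]
  · exact (abs_add_le _ _).trans (by linarith)

end Sys

end Pool.Agent.Lib.MP_e310f3_mp.Gap
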