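import Pool.Agent.Lib.MP_e310f3_mp.Gap.Tools

open Complex Filter Topology Set

noncomputable section

namespace Pool.Agent.Lib.MP_e310f3_mp.Gap

namespace Vir

lemma eps_le {κ : ℝ} (hκ : 0 < κ) (hκ1 : κ ≤ 1 / 10) : κ ^ 4 ≤ 1 / 10000 :=
  (pow_le_pow_left₀ hκ.le hκ1 4).trans (by norm_num)

lemma cube_le {κ : ℝ} (hκ : 0 < κ) (hκ1 : κ ≤ 1 / 10) : κ ^ 3 ≤ κ / 100 := by
  have h : κ ^ 2 ≤ 1 / 100 := (pow_le_pow_left₀ hκ.le hκ1 2).trans (by norm_num)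
  linarith [mul_le_mul_of_nonneg_left h hκ.le]

lemma four_le {κ : ℝ} (hκ : 0 < κ) (hκ1 : κ ≤ 1 / 10) : κ ^ 4 ≤ κ ^ 3 / 10 := by
  linarith [mul_le_mul_of_nonneg_left hκ1 (pow_pos hκ 3).le]

lemma dsq {f : ℝ → ℝ} {f' t : ℝ} (h : HasDerivAt f f' t) :
    HasDerivAt (fun τ => f τ ^ 2) (2 * (f t * f')) t := by
  refine (h.fun_pow 2).congr_deriv ?_
  simp only [Nat.cast_ofNat, Nat.add_one_sub_one, pow_one]
  ring

lemma dsq_sub (s t : ℝ) : HasDerivAt (fun τ : ℝ => (τ - s) ^ 2) (2 * (t - s)) t := by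
  have h := dsq ((hasDerivAt_id' t).sub_const s)
  rwa [mul_one] at h

lemma dot_acc_self (g : ℝ) {y : ℂ} (hy : y ≠ 0) : dot y (acc g y) = -(g / ‖y‖) := by
  have h0 : ‖y‖ ≠ 0 := norm_ne_zero_iff.2 hy
  have h1 : dot y (acc g y) = -(g / ‖y‖ ^ 3) * dot y y := by
    unfold acc
    generalize -(g / ‖y‖ ^ 3) = c
    simp only [dot, mul_re, mul_im, ofReal_re, ofReal_im]
    ring
  rw [h1, dot_self]
  field_simp

lemma one_le_RU {r1 r2 ρ ε R : ℝ} (h1 : 0 < r1) (h2 : 0 < r2) (h3 : 0 < ρ) (he : 0 ≤ ε)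
    (hR : 0 < R) (h : (1 + 2 * ε) * R ^ 2 = r1 ^ 2 + r2 ^ 2 + ε * ρ ^ 2) :
    1 / R ≤ 1 / r1 + 1 / r2 + ε / ρ := by
  have a1 : 0 < 1 / r1 := by positivity
  have a2 : 0 < 1 / r2 := by positivity
  have a3 : 0 ≤ ε / ρ := by positivity
  have b1 : r1 * (1 / r1) = 1 := by field_simp
  have b2 : r2 * (1 / r2) = 1 := by field_simp
  have b3 : ρ * (ε / ρ) = ε := by field_simp
  generalize 1 / r1 = A at a1 b1 ⊢
  generalize 1 / r2 = B at a2 b2 ⊢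
  generalize ε / ρ = C at a3 b3 ⊢
  have c1 : (A + B) ^ 2 ≤ (A + B + C) ^ 2 := pow_le_pow_left₀ (by linarith) (by linarith) 2
  have c2 : C ^ 2 ≤ (A + B + C) ^ 2 := pow_le_pow_left₀ a3 (by linarith) 2
  have c3 : 4 * (A * B) ≤ (A + B + C) ^ 2 := by nlinarith [sq_nonneg (A - B)]
  have c4 : 2 * (r1 * r2) ≤ r1 ^ 2 + r2 ^ 2 := by nlinarith [sq_nonneg (r1 - r2)]
  have c5 := mul_le_mul c4 c3 (by positivity) (by positivity)
  have c6 : 2 * (r1 * r2) * (4 * (A * B)) = 8 := by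
    linear_combination 8 * (r2 * B) * b1 + 8 * b2
  have c7 := mul_le_mul_of_nonneg_left c2 (show 0 ≤ ε * ρ ^ 2 by positivity)
  have c8 : ε * ρ ^ 2 * C ^ 2 = ε ^ 3 := by
    rw [mul_assoc, ← mul_pow, b3]
    ring
  have c9 : 1 + 2 * ε ≤ 8 + ε ^ 3 := by
    nlinarith [mul_nonneg he (sq_nonneg (ε - 1)), sq_nonneg (ε - 1)]
  have d1 : (1 + 2 * ε) * 1 ^ 2 ≤ (1 + 2 * ε) * ((A + B + C) * R) ^ 2 := by
    have : (1 + 2 * ε) * ((A + B + C) * R) ^ 2 =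
        (r1 ^ 2 + r2 ^ 2) * (A + B + C) ^ 2 + ε * ρ ^ 2 * (A + B + C) ^ 2 := by
      linear_combination (A + B + C) ^ 2 * h
    linarith
  rw [div_le_iff₀ hR]
  exact le_of_sq_le_sq (le_of_mul_le_mul_left d1 (by linarith)) (by positivity)

lemma L_ineq {R N J j a : ℝ} (hR : 0 < R) (hN : 0 < N) (hJ : 0 ≤ J) (hN2 : N ^ 2 = R ^ 2 + R)
    (ha : R * a = N) (hj : 2 + 1 / R ≤ j) :
    a / R ^ 2 ≤ ((j * (N + J) - J * ((2 * J + J / R) / (2 * N) + j)) / (N + J) ^ 2 * R -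
      (-3 + J / (N + J)) * (J / R)) / R ^ 2 := by
  have h1 : N ^ 2 ≤ j * R ^ 2 := by
    have := mul_le_mul_of_nonneg_right hj (sq_nonneg R)
    have e : (2 + 1 / R) * R ^ 2 = 2 * R ^ 2 + R := by field_simp
    linarith [sq_nonneg R]
  have h2 : (2 * J + J / R) / (2 * N) * R ^ 2 ≤ J * N := by
    rw [div_mul_eq_mul_div, div_le_iff₀ (by positivity)]
    have e : (2 * J + J / R) * R ^ 2 = J * (2 * R ^ 2 + R) := by field_simp
    have e2 : J * N * (2 * N) = J * (2 * R ^ 2 + 2 * R) := by linear_combination 2 * J * hN2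
    rw [e, e2]
    exact mul_le_mul_of_nonneg_left (by linarith) hJ
  generalize (2 * J + J / R) / (2 * N) = n at h2 ⊢
  have hs : 0 < N + J := by linarith
  refine div_le_div_of_nonneg_right ?_ (sq_nonneg R)
  have e1 : (j * (N + J) - J * (n + j)) / (N + J) ^ 2 * R - (-3 + J / (N + J)) * (J / R) =
      (N * (j * R ^ 2) - J * (n * R ^ 2) + (3 * N + 2 * J) * J * (N + J)) / ((N + J) ^ 2 * R) := by
    field_simp
    ring
  rw [e1, le_div_iff₀ (by positivity)]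
  have e2 : a * ((N + J) ^ 2 * R) = N * (N + J) ^ 2 := by rw [← ha]; ring
  have h3 := mul_le_mul_of_nonneg_left h1 hN.le
  have h4 := mul_le_mul_of_nonneg_left h2 hJ
  have h5 : 0 ≤ N ^ 2 * J + 3 * (N * J ^ 2) + 2 * J ^ 3 := by positivity
  rw [e2]
  linarith

lemma y_near {κ : ℝ} (hκ : 0 < κ) (hκ1 : κ ≤ 1 / 10) {x y : ℂ} (h : ‖y - x‖ ≤ κ ^ 4 * ‖x‖) :
    9999 / 10000 * ‖x‖ ≤ ‖y‖ ∧ ‖y‖ ≤ 10001 / 10000 * ‖x‖ := by
  have h1 := abs_le.1 ((abs_norm_sub_norm_le y x).trans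
    (h.trans (mul_le_mul_of_nonneg_right (eps_le hκ hκ1) (norm_nonneg x))))
  constructor <;> linarith [h1.1, h1.2]

lemma r_near {R r s : ℝ} (hR : 0 < R) (hr : 0 ≤ r) (hs : 0 ≤ s) (h1 : R ^ 2 ≤ r ^ 2 + s ^ 2)
    (h2 : r ^ 2 + s ^ 2 ≤ 5001 / 5000 * R ^ 2) (h3 : -(R / 10) ≤ r - s) (h4 : r - s ≤ R / 10) :
    13 / 20 * R ≤ r ∧ r ≤ 19 / 25 * R := by
  have p := pow_pos hR 2
  constructor
  · by_contra hc
    have a : r ^ 2 ≤ (13 / 20 * R) ^ 2 := pow_le_pow_left₀ hr (not_le.1 hc).le 2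
    have b : s ^ 2 ≤ (15 / 20 * R) ^ 2 := pow_le_pow_left₀ hs (by linarith [not_le.1 hc]) 2
    linarith
  · by_contra hc
    have a : (19 / 25 * R) ^ 2 ≤ r ^ 2 := pow_le_pow_left₀ (by positivity) (not_le.1 hc).le 2
    have b : (33 / 50 * R) ^ 2 ≤ s ^ 2 :=
      pow_le_pow_left₀ (by positivity) (by linarith [not_le.1 hc]) 2
    linarith

lemma cv_one {κ R a : ℝ} (hκ : 0 < κ) (hκ1 : κ ≤ 1 / 10) (hR : 0 < R) (ha : 1 ≤ a)
    (hRa : 1 / R ≤ a ^ 2) {x u y p : ℂ} (lo : 13 / 20 * R ≤ ‖x‖) (hi : ‖x‖ ≤ 19 / 25 * R)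
    (hy : ‖y - x‖ ≤ κ ^ 4 * ‖x‖) (hu : ‖u‖ ≤ 4 * a) (hp : ‖p - u‖ ≤ κ ^ 3 * (2 * a)) :
    R / 2 ≤ ‖y‖ ∧ ‖y‖ ≤ R ∧ ‖y - x‖ ≤ κ * R / 2 ∧ ‖p‖ ≤ 5 * a ∧ ‖p - u‖ ≤ κ * a ∧
      |hh (1 + κ ^ 4) y p - (‖u‖ ^ 2 / 2 - 1 / ‖x‖)| ≤ 10 * (κ ^ 3 * a ^ 2) ∧
      |dot x u - dot y p| ≤ κ * (R * a) / 2 ∧ |dot x u| ≤ 4 * (R * a) := by
  have k3 := cube_le hκ hκ1
  have k4 := four_le hκ hκ1
  have e3 : 0 < κ ^ 3 := by positivity
  have e4 : 0 < κ ^ 4 := by positivity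
  have a0 : 0 < a := by linarith
  obtain ⟨y1, y2⟩ := y_near hκ hκ1 hy
  have y3 : R / 2 ≤ ‖y‖ := by linarith
  have y4 : ‖y‖ ≤ R := by linarith
  have x0 : 0 < ‖x‖ := by linarith
  have y0 : 0 < ‖y‖ := by linarith
  have y5 : ‖y - x‖ ≤ κ ^ 4 * R := hy.trans (mul_le_mul_of_nonneg_left (by linarith) e4.le)
  have p1 : ‖p - u‖ ≤ κ * a / 50 := by linarith [mul_le_mul_of_nonneg_right k3 a0.le]
  have p2 := abs_le.1 ((abs_norm_sub_norm_le p u).trans hp)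
  have p3 : ‖p‖ ≤ 5 * a := by
    linarith [p2.2, mul_le_mul_of_nonneg_right (show κ ^ 3 ≤ 1 / 1000 by linarith) a0.le]
  have ka := mul_pos hκ a0
  have kR := mul_pos hκ hR
  refine ⟨y3, y4, ?_, p3, by linarith, ?_, ?_, ?_⟩
  · linarith [mul_le_mul_of_nonneg_right (show κ ^ 4 ≤ κ / 1000 by linarith) hR.le]
  · have q1 : |‖p‖ ^ 2 - ‖u‖ ^ 2| ≤ κ ^ 3 * (2 * a) * (9 * a) := by
      rw [sq_sub_sq, mul_comm, abs_mul, abs_of_nonneg (add_nonneg (norm_nonneg p) (norm_nonneg u))]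
      exact mul_le_mul (abs_le.2 p2) (by linarith) (by positivity) (by positivity)
    have q2 : |1 / ‖x‖ - (1 + κ ^ 4) / ‖y‖| ≤ 4 * κ ^ 4 * a ^ 2 := by
      have e : 1 / ‖x‖ - (1 + κ ^ 4) / ‖y‖ = (‖y‖ - ‖x‖ - κ ^ 4 * ‖x‖) / ‖x‖ * (1 / ‖y‖) := by
        field_simp
        ring
      have q3 := abs_le.1 ((abs_norm_sub_norm_le y x).trans hy)
      have q4 : |(‖y‖ - ‖x‖ - κ ^ 4 * ‖x‖) / ‖x‖| ≤ 2 * κ ^ 4 := by
        rw [abs_div, abs_of_pos x0, div_le_iff₀ x0]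
        exact abs_le.2 ⟨by linarith [q3.1], by linarith [q3.2, mul_pos e4 x0]⟩
      have q5 : 1 / ‖y‖ ≤ 2 * a ^ 2 := by
        refine (one_div_le_one_div_of_le (by positivity) y3).trans ?_
        have : 1 / (R / 2) = 2 * (1 / R) := by field_simp
        linarith
      rw [e, abs_mul, abs_of_pos (one_div_pos.2 y0)]
      linarith [mul_le_mul q4 q5 (by positivity) (by positivity)]
    have q6 := mul_le_mul_of_nonneg_right k4 (sq_nonneg a)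
    have q7 : 0 ≤ κ ^ 3 * a ^ 2 := by positivity
    have q1 := abs_le.1 q1
    have q2 := abs_le.1 q2
    unfold hh
    refine abs_le.2 ⟨?_, ?_⟩ <;> linarith [q1.1, q1.2, q2.1, q2.2]
  · have e : dot x u - dot y p = -(dot (y - x) u + dot y (p - u)) := by
      simp only [dot, sub_re, sub_im]
      ring
    have q1 := (abs_dot_le (y - x) u).trans (mul_le_mul y5 hu (norm_nonneg _) (by positivity))
    have q2 := (abs_dot_le y (p - u)).trans (mul_le_mul y4 p1 (norm_nonneg _) hR.le)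
    have q3 := mul_le_mul_of_nonneg_right (show κ ^ 4 ≤ κ / 1000 by linarith) (mul_pos hR a0).le
    have q4 := mul_pos hκ (mul_pos hR a0)
    rw [e, abs_neg]
    linarith [abs_add_le (dot (y - x) u) (dot y (p - u))]
  · have q1 := (abs_dot_le x u).trans
      (mul_le_mul (show ‖x‖ ≤ R by linarith) hu (norm_nonneg _) hR.le)
    linarith

end Vir

end Pool.Agent.Lib.MP_e310f3_mp.Gap
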